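import Pool.Agent.Mg.Fa5588aa.G1ab97f
import Pool.Agent.Mg.Fa5588aa.G9a89c7

section

/-! Group lemmas on the unique maximal subgroup above a 3-subgroup. -/

namespace Pool.Agent.MP_a5588a_al.Full

open Pool.Agent.MP_a5588a_al.Solv
open scoped commutatorElement

universe u v

variable {G : Type u} [Group G] [Finite G]

omit [Finite G] in
theorem zp_FBasic {x : G} (hx : El3 x) : IsPGroup 3 (Subgroup.zpowers x) := by
  obtain ⟨n, hn⟩ := hx
  rintro ⟨_, k, rfl⟩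
  refine ⟨n, Subtype.ext ?_⟩
  change (x ^ k) ^ 3 ^ n = 1
  rw [← zpow_natCast, ← zpow_mul, mul_comm, zpow_mul, zpow_natCast, hn, one_zpow]

theorem top_FBasic {K M : Subgroup G} (hK : K.Normal) (hKM : K ≤ M)
    (h3 : ∀ x, ∃ n : ℕ, x ^ 3 ^ n ∈ K) (hM : ¬ 3 ∣ M.index) : M = ⊤ := by
  have hp : IsPGroup 3 (G ⧸ K) := fun q => by
    obtain ⟨x, rfl⟩ := QuotientGroup.mk_surjective q
    obtain ⟨n, hn⟩ := h3 x
    exact ⟨n, by rw [← QuotientGroup.mk_pow, QuotientGroup.eq_one_iff]; exact hn⟩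
  obtain ⟨n, hn⟩ := IsPGroup.iff_card.1 hp
  have h1 : M.index ∣ 3 ^ n := hn ▸ Subgroup.index_dvd_of_le hKM
  obtain ⟨i, -, hi⟩ := (Nat.dvd_prime_pow Nat.prime_three).1 h1
  rcases i with _ | i
  · exact Subgroup.index_eq_one.1 hi
  · exact absurd (hi ▸ dvd_pow_self 3 i.succ_ne_zero) hM

theorem ex_fix {M S : Subgroup G} (hM : ¬ 3 ∣ M.index) (hS : IsPGroup 3 S) :
    ∃ g : G, ∀ s ∈ S, g⁻¹ * s * g ∈ M := by
  obtain ⟨q, hq⟩ := hS.nonempty_fixed_point_of_prime_not_dvd_card (G ⧸ M) hM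
  obtain ⟨g, rfl⟩ := QuotientGroup.mk_surjective q
  refine ⟨g, fun s hs => ?_⟩
  rw [mul_assoc]
  exact QuotientGroup.eq.1 (hq ⟨s, hs⟩).symm

theorem UFix.le {R M S : Subgroup G} (h : UFix R M) (hM : ¬ 3 ∣ M.index) (hS : IsPGroup 3 S)
    (hR : R ≤ S) : S ≤ M := by
  obtain ⟨g, hg⟩ := ex_fix hM hS
  have h1 := h g fun r hr => hg r (hR hr)
  intro s hs
  simpa [mul_assoc] using M.mul_mem (M.mul_mem h1 (hg s hs)) (M.inv_mem h1)

theorem UM.syl {R M S : Subgroup G} (h : UM R M) (hS : IsPGroup 3 S) (hR : R ≤ S) : S ≤ M := by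
  refine (h.um S hR).resolve_right ?_
  rintro rfl
  exact h.nn ⊤ inferInstance hS hR

theorem UM.le {R M : Subgroup G} (h : UM R M) : R ≤ M := h.syl h.pR le_rfl

theorem UM.idx {R M : Subgroup G} (h : UM R M) : ¬ 3 ∣ M.index := by
  obtain ⟨S, hS⟩ := h.pR.exists_le_sylow
  exact fun e => S.not_dvd_index (e.trans (Subgroup.index_dvd_of_le (h.syl S.2 hS)))

theorem UM.f1 {R M N : Subgroup G} (h : UM R M) (hN : N.Normal) (hle : N ≤ M) :
    ∃ K : Subgroup G, K.Normal ∧ IsPGroup 3 K ∧ ∀ x ∈ N, El3 x → x ∈ K := by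
  obtain ⟨P⟩ : Nonempty (Sylow 3 N) := inferInstance
  have hP : IsPGroup 3 ((P : Subgroup N).map N.subtype) := P.2.map _
  have fr := Sylow.normalizer_sup_eq_top P
  obtain ⟨S, hS⟩ := hP.exists_le_sylow
  have e : ∀ x, x ∈ (P : Subgroup N).map N.subtype ↔ x ∈ S ∧ x ∈ N := fun x => by
    refine ⟨fun hx => ⟨hS hx, Subgroup.map_subtype_le _ hx⟩, fun hx => ⟨⟨x, hx.2⟩, ?_, rfl⟩⟩
    rw [← P.3 (S.2.comap_subtype (K := N)) fun y hy => hS ⟨y, hy, rfl⟩]
    exact hx.1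
  generalize (P : Subgroup N).map N.subtype = K at hP fr e
  obtain ⟨g, hg⟩ := ex_fix S.not_dvd_index h.pR
  have h1 : (S : Subgroup G) ≤ Subgroup.normalizer (K : Set G) := fun s hs =>
    Subgroup.mem_normalizer_fintype fun n hn => (e _).2
      ⟨S.mul_mem (S.mul_mem hs ((e n).1 hn).1) (S.inv_mem hs), hN.conj_mem _ ((e n).1 hn).2 s⟩
  rcases h.um ((Subgroup.normalizer (K : Set G)).comap (MulAut.conj g⁻¹).toMonoidHom)
    (fun r hr => by simpa using h1 (hg r hr)) with h2 | h2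
  · have h3 : ⊤ ≤ M.comap (MulAut.conj g).toMonoidHom := by
      rw [← fr]
      exact sup_le (fun x hx => h2 (by simpa [mul_assoc] using hx))
        fun x hx => hle (hN.conj_mem x hx g)
    refine absurd (top_le_iff.1 fun x _ => ?_) h.ne
    simpa [mul_assoc] using h3 (Subgroup.mem_top (g⁻¹ * x * g))
  · have h3 : K.Normal := Subgroup.normalizer_eq_top_iff.1 (top_le_iff.1 fun x _ => by
      simpa [mul_assoc] using h2.ge (Subgroup.mem_top (g * x * g⁻¹)))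
    refine ⟨K, h3, hP, fun x hx x3 => ?_⟩
    obtain ⟨y, hy⟩ := ex_fix S.not_dvd_index (zp_FBasic x3)
    simpa [mul_assoc] using h3.conj_mem _ ((e _).2 ⟨hy x (Subgroup.mem_zpowers x),
      hN.conj_mem' x hx y⟩) y

theorem UM.ex3' {R M : Subgroup G} (h : UM R M) : ∃ g, g ∉ M ∧ El3' g := by
  by_contra! hc
  refine h.ne (top_FBasic M.normalCore_normal M.normalCore_le (fun x => ?_) h.idx)
  obtain ⟨n, m, h1, h2⟩ := Nat.exists_eq_pow_mul_and_not_dvd (orderOf_pos x).ne' 3 (by norm_num)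
  refine ⟨n, fun b => by_contra fun e => hc _ e ⟨m, h1, ?_⟩⟩
  rw [conj_pow, ← pow_mul, ← h2, pow_orderOf_eq_one, mul_one, mul_inv_cancel]

theorem UM.ufix {R M : Subgroup G} (h : UM R M) : UFix R M := by
  intro g hg
  rcases h.um (M.comap (MulAut.conj g⁻¹).toMonoidHom) (fun r hr => by simpa using hg r hr)
    with h1 | h1
  · have h2 : g ∈ Subgroup.normalizer (M : Set G) :=
      Subgroup.mem_normalizer_fintype fun n hn => h1 (by simpa [mul_assoc] using hn)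
    rcases h.um _ (h.le.trans Subgroup.le_normalizer) with h3 | h3
    · exact h3 h2
    · obtain ⟨K, h4, h5, h6⟩ := h.f1 (Subgroup.normalizer_eq_top_iff.1 h3) le_rfl
      exact absurd (fun r hr => h6 r (h.le hr)
        ((h.pR ⟨r, hr⟩).imp fun _ e => congrArg Subtype.val e)) (h.nn K h4 h5)
  · refine absurd (top_le_iff.1 fun x _ => ?_) h.ne
    simpa [mul_assoc] using h1.ge (Subgroup.mem_top (g * x * g⁻¹))

theorem UM.ex_conj {R M : Subgroup G} (h : UM R M) {x : G} (hx : El3 x)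
    (hn : ∀ K : Subgroup G, K.Normal → IsPGroup 3 K → x ∉ K) : ∃ g : G, g * x * g⁻¹ ∉ M := by
  by_contra! hc
  obtain ⟨K, h1, h2, h3⟩ := h.f1 M.normalCore_normal M.normalCore_le
  exact hn K h1 h2 (h3 x hc hx)

/-- Every 3-subgroup of `M` lies in a 3-subgroup of `M` with a conjugate of `R`. -/
theorem UM.conj_le {R M S : Subgroup G} (h : UM R M) (hS : IsPGroup 3 S) (hle : S ≤ M) :
    ∃ m ∈ M, ∃ S' : Subgroup G, IsPGroup 3 S' ∧ S ≤ S' ∧ S' ≤ M ∧ ∀ r ∈ R, m * r * m⁻¹ ∈ S' := by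
  obtain ⟨T, hT⟩ := (hS.comap_subtype (K := M)).exists_le_sylow
  obtain ⟨m, hm⟩ := ex_fix T.not_dvd_index (h.pR.comap_subtype (K := M))
  exact ⟨(m⁻¹ : M), (m⁻¹).2, (T : Subgroup M).map M.subtype, T.2.map _,
    fun s hs => ⟨⟨s, hle hs⟩, hT hs, rfl⟩, Subgroup.map_subtype_le _,
    fun r hr => ⟨_, hm ⟨r, h.le hr⟩ hr, by simp⟩⟩

theorem exists_um {R H M : Subgroup G} (hM : ¬ 3 ∣ M.index) (hR : IsPGroup 3 R) (hRH : R ≤ H)
    (hU : UFix R M) (hH : ¬ H ≤ M) :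
    ∃ J : Subgroup G, R ≤ J ∧ J ≤ H ∧ ¬ J ≤ M ∧ UM (R.subgroupOf J) (M.subgroupOf J) := by
  obtain ⟨J, ⟨h1, h2, h3⟩, h4⟩ := (wellFounded_lt (α := Subgroup G)).has_min
    {J | R ≤ J ∧ J ≤ H ∧ ¬ J ≤ M} ⟨H, hRH, le_rfl, hH⟩
  have up : ∀ K : Subgroup J, R.subgroupOf J ≤ K → R ≤ K.map J.subtype :=
    fun K hK r hr => ⟨⟨r, h1 hr⟩, hK hr, rfl⟩
  refine ⟨J, h1, h2, h3, hR.comap_subtype, fun e => h3 (Subgroup.subgroupOf_eq_top.1 e),
    fun K hK => ?_, fun K hK h5 h6 => h3 fun g hg => hU g fun r hr => ?_⟩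
  · by_cases e : K.map J.subtype ≤ M
    · exact Or.inl fun x hx => e ⟨x, hx, rfl⟩
    · have e1 := Subgroup.map_subtype_le K
      have e2 := e1.eq_of_not_lt (h4 _ ⟨up K hK, e1.trans h2, e⟩)
      refine Or.inr (top_le_iff.1 fun x _ => ?_)
      obtain ⟨y, hy, e3⟩ := e2.ge x.2
      rwa [← Subtype.ext e3]
  · exact hU.le hM (h5.map _) (up K h6) ⟨_, hK.conj_mem' ⟨r, h1 hr⟩ (h6 hr) ⟨g, hg⟩, rfl⟩

theorem le_of_quot3 {K H M : Subgroup G} (hK : K.Normal) (hKM : K ≤ M)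
    (h3 : ∀ x ∈ H, ∃ n : ℕ, x ^ 3 ^ n ∈ K) {d : G} (hd : d ∈ H) (d3 : El3 d)
    (hS : ∀ S : Subgroup G, IsPGroup 3 S → d ∈ S → S ≤ M) : H ≤ M := by
  obtain ⟨T, hT⟩ := ((zp_FBasic d3).comap_subtype (K := H)).exists_le_sylow
  have h1 := hS ((T : Subgroup H).map H.subtype) (T.2.map _)
    ⟨⟨d, hd⟩, hT (Subgroup.mem_zpowers d), rfl⟩
  refine Subgroup.subgroupOf_eq_top.1 (top_FBasic (hK.subgroupOf H) (fun x hx => hKM hx)
    (fun x => h3 x x.2) fun e => T.not_dvd_index (e.trans (Subgroup.index_dvd_of_le ?_)))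
  exact fun x hx => h1 ⟨x, hx, rfl⟩

end Pool.Agent.MP_a5588a_al.Full

end

section

namespace Pool.Agent.MP_a5588a_al.Full

open Pool.Agent.MP_a5588a_al.Solv
open scoped commutatorElement

universe u v

section ring

variable {R : Type*} [Ring R] {a b : R}

theorem sq_FMod (hc : b * a = a * b) (h0 : a * a = 0)
    (h : ((1 + a) * (1 + b) - 1) * ((1 + a) * (1 + b) - 1) = 0) :
    b * b + 2 * (a * b) + 2 * (a * (b * b)) = 0 := by
  linear_combination (norm := noncomm_ring) h - h0 - h0 * b - hc - hc * b - a * hc - h0 * b -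
    a * hc * b - h0 * b * b

theorem q3_FMod (h3 : (3 : R) = 0) (hc : b * a = a * b) (h0 : a * a = 0) (hb : (1 + b) ^ 3 = 1)
    (h1 : ((1 + a) * (1 + b) - 1) * ((1 + a) * (1 + b) - 1) = 0)
    (h2 : ((1 + a) * (1 + b) ^ 2 - 1) * ((1 + a) * (1 + b) ^ 2 - 1) = 0) : b * b = 0 := by
  have b3 : b * (b * b) = 0 := by
    linear_combination (norm := noncomm_ring) hb - h3 * (b + b * b)
  have k1 := sq_FMod hc h0 h1
  rw [show (1 + b) ^ 2 = 1 + (b + b + b * b) by noncomm_ring] at h2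
  have k2 := sq_FMod (by linear_combination (norm := noncomm_ring) hc + hc + b * hc + hc * b) h0 h2
  linear_combination (norm := noncomm_ring) h3 * (2 * (b * b) + 2 * (a * b) + 4 * (a * (b * b))) -
    k1 - k2 + 4 * b3 + b3 * b + 8 * a * b3 + 2 * a * b3 * b

theorem t_FMod (h3 : (3 : R) = 0) (ha : a * a = 0) (hb : b * b = 0) (g1 : a * b * a = -a)
    (g2 : b * a * b = -b) : ((1 + a) * (1 + b)) ^ 3 = 1 - (a * b + b * a) := by
  have e2 : ((1 + a) * (1 + b)) ^ 2 = 1 + a + b + 2 * (a * b) + b * a := by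
    linear_combination (norm := noncomm_ring) ha + ha * b + hb + g2 + g1 + a * hb + g1 * b
  rw [pow_succ, e2]
  linear_combination (norm := noncomm_ring) ha + ha * b + hb + g2 + 2 * g1 + 2 * a * hb +
    2 * g1 * b + b * ha + g2 + b * ha * b + h3 * (a * b + b * a)

theorem br_FMod (ha : a * a = 0) (hb : b * b = 0)
    (h : (1 + a) * (1 + b) * (1 + a) = (1 + b) * (1 + a) * (1 + b)) :
    a + a * b * a = b + b * a * b ∧ (a * b + b * a) * (a * (1 + b * a)) = 0 := by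
  have e : a + a * b * a = b + b * a * b := by
    linear_combination (norm := noncomm_ring) h - ha + hb
  refine ⟨e, ?_⟩
  linear_combination (norm := noncomm_ring) b * ha + b * ha * b * a - a * e * a + ha * a +
    ha * b * a * a

theorem gt_FMod (ha : a * a = 0) (hb : b * b = 0)
    (e : a + a * b * a = b + b * a * b) (x : R) (hx : x = 1 + a ∨ x = 1 + b) :
    (a + a * b * a) * x = a + a * b * a := by
  rcases hx with rfl | rfl
  · linear_combination (norm := noncomm_ring) ha + a * b * ha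
  · rw [e]
    linear_combination (norm := noncomm_ring) hb + b * a * hb

end ring

variable {G : Type u} {V : Type v} [Group G] [Finite G] [AddCommGroup V] [Finite V]
  {ρ : G →* AddMonoid.End V} {M : Subgroup G}

set_option linter.unusedSectionVars false

theorem one_FMod (x : G) : ρ x = 1 + (ρ x - 1) := (add_sub_cancel _ _).symm

theorem mul_FMod (g h : G) (v : V) : ρ (g * h) v = ρ g (ρ h v) := by rw [map_mul]; rfl

theorem inv_FMod (g : G) : ρ g⁻¹ * ρ g = 1 := by rw [← map_mul, inv_mul_cancel, map_one]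

/-- The stabiliser of a vector. -/
def st_FMod (ρ : G →* AddMonoid.End V) (v : V) : Subgroup G where
  carrier := {g | ρ g v = v}
  one_mem' := by simp
  mul_mem' := fun {g h} (hg : ρ g v = v) (hh : ρ h v = v) =>
    show ρ (g * h) v = v by rw [mul_FMod, hh, hg]
  inv_mem' := fun {g} (hg : ρ g v = v) => show ρ g⁻¹ v = v by
    conv_lhs => rw [← hg, ← mul_FMod, inv_mul_cancel, map_one, AddMonoid.End.one_apply]

theorem three_FMod (h3 : (3 : AddMonoid.End V) = 0) (v : V) : 3 • v = 0 :=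
  DFunLike.congr_fun h3 v

theorem Quad.cube (h3 : (3 : AddMonoid.End V) = 0) {x : G} (h : Quad ρ x) : ρ x ^ 3 = 1 := by
  unfold Quad at h
  linear_combination (norm := noncomm_ring) ρ x * h + h + h + (ρ x - 1) * h3

theorem Quad.inv {x : G} (h : Quad ρ x) : Quad ρ x⁻¹ ∧ ρ x⁻¹ - 1 = -(ρ x - 1) := by
  unfold Quad at h ⊢
  have e := inv_FMod (ρ := ρ) x
  have k : ρ x⁻¹ - 1 = -(ρ x - 1) := by
    linear_combination (norm := noncomm_ring) ρ x⁻¹ * h - e * ρ x + e + e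
  exact ⟨by rw [k, neg_mul_neg, h], k⟩

theorem Quad.conj {x : G} (h : Quad ρ x) (g : G) : Quad ρ (g * x * g⁻¹) := by
  unfold Quad at h ⊢
  have e := inv_FMod (ρ := ρ) g
  have e' := inv_FMod (ρ := ρ) g⁻¹
  rw [inv_inv] at e'
  have k : ρ (g * x * g⁻¹) - 1 = ρ g * (ρ x - 1) * ρ g⁻¹ := by
    rw [map_mul, map_mul, mul_sub, sub_mul, mul_one, e']
  rw [k]
  generalize ρ x - 1 = a at h
  linear_combination (norm := noncomm_ring) ρ g * a * e * a * ρ g⁻¹ + ρ g * h * ρ g⁻¹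

theorem ac_comm {d w : G} (hd : Quad ρ d) (hw : Quad ρ w) {x : G}
    (hx : x ∈ Subgroup.closure {d, w}) : Commute (ac ρ d w) (ρ x) := by
  induction hx using Subgroup.closure_induction with
  | mem x hx =>
    unfold Quad at hd hw
    rw [one_FMod x, ac]
    refine (Commute.one_right _).add_right ?_
    rw [commute_iff_eq]
    rcases hx with rfl | rfl
    · linear_combination (norm := noncomm_ring) (ρ w - 1) * hd - hd * (ρ w - 1)
    · linear_combination (norm := noncomm_ring) (ρ d - 1) * hw - hw * (ρ d - 1)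
  | one => rw [map_one]; exact Commute.one_right _
  | mul x y _ _ a b => rw [map_mul]; exact a.mul_right b
  | inv x _ a => exact Commute.units_inv_right (u := ρ.toHomUnits x) a

theorem fixvec (h3 : (3 : AddMonoid.End V) = 0) [Nontrivial V] {S : Subgroup G}
    (hS : IsPGroup 3 S) : ∃ v, v ≠ 0 ∧ v ∈ Fx ρ S := by
  have : Fact (Nat.Prime 3) := ⟨Nat.prime_three⟩
  letI : MulAction S V := MulAction.compHom V (ρ.comp S.subtype)
  obtain ⟨w, hw⟩ := exists_ne (0 : V)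
  obtain ⟨v, h1, h2⟩ := hS.exists_fixed_point_of_prime_dvd_card_of_fixed_point V
    (addOrderOf_eq_prime (three_FMod h3 w) hw ▸ addOrderOf_dvd_natCard w) (a := 0)
    fun g => map_zero (ρ g)
  exact ⟨v, h2.symm, fun g hg => h1 ⟨g, hg⟩⟩

theorem fx_FMod {K : Subgroup G} (hK : K.Normal) : Inv ρ ⊤ (Fx ρ K) := fun g _ v hv k hk => by
  conv_rhs => rw [← hv _ (hK.conj_mem' k hk g), ← mul_FMod, mul_assoc, mul_inv_cancel_left]
  rw [mul_FMod]

theorem o3_triv (h3 : (3 : AddMonoid.End V) = 0) (hs : Smp ρ) {K : Subgroup G} (hK : K.Normal)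
    (pK : IsPGroup 3 K) : ∀ x ∈ K, ρ x = 1 := by
  intro x hx
  ext v
  rcases subsingleton_or_nontrivial V with _ | _
  · exact Subsingleton.elim _ _
  obtain ⟨w, h1, h2⟩ := fixvec (ρ := ρ) h3 pK
  rcases hs _ (fx_FMod hK) with e | e
  · exact absurd (AddSubgroup.mem_bot.1 (e ▸ h2)) h1
  · exact (show v ∈ Fx ρ K from e ▸ AddSubgroup.mem_top v) x hx

theorem fx_top (hs : Smp ρ) (nt : ∃ g, ρ g ≠ 1) {v : V} (hv : ∀ g, ρ g v = v) : v = 0 := by
  obtain ⟨g, hg⟩ := nt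
  rcases hs _ (fx_FMod (K := ⊤) inferInstance) with e | e
  · exact AddSubgroup.mem_bot.1 (e ▸ fun g _ => hv g)
  · refine absurd ?_ hg
    ext w
    exact (show w ∈ Fx ρ ⊤ from e ▸ AddSubgroup.mem_top w) g trivial

theorem um_FMod {R : Subgroup G} (h : UM R M) (hs : Smp ρ) (nt : ∃ g, ρ g ≠ 1) {v : V}
    (hv : v ≠ 0) (hf : v ∈ Fx ρ R) {g : G} (hg : ρ g v = v) : g ∈ M :=
  (h.um (st_FMod ρ v) hf).elim (fun e => e hg) fun e =>
    absurd (fx_top hs nt fun x => show x ∈ st_FMod ρ v from e ▸ trivial) hv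

theorem UM.f2 {R : Subgroup G} (h : UM R M) (h3 : (3 : AddMonoid.End V) = 0) (hs : Smp ρ)
    (nt : ∃ g, ρ g ≠ 1) : ∀ g, ρ g = 1 → g ∈ M := by
  intro g hg
  rcases subsingleton_or_nontrivial V with _ | _
  · obtain ⟨x, hx⟩ := nt
    exact absurd (by ext; exact Subsingleton.elim _ _) hx
  obtain ⟨w, h1, h2⟩ := fixvec (ρ := ρ) h3 h.pR
  exact um_FMod h hs nt h1 h2 (by rw [hg]; rfl)

theorem UM.vec {R : Subgroup G} (h : UM R M) (hs : Smp ρ) (nt : ∃ g, ρ g ≠ 1) (S : Sylow 3 G)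
    (hS : (S : Subgroup G) ≤ M) {v : V} (hv : v ≠ 0) (hf : v ∈ Fx ρ S) :
    ∀ g, ρ g v = v → g ∈ M := by
  intro g hg
  obtain ⟨m, hm, S', h1, h2, -, h4⟩ := h.conj_le S.isPGroup' hS
  rw [S.is_maximal' h1 h2] at h4
  have k : ∀ x, ρ x v = v → ρ (m⁻¹ * x * m) (ρ m⁻¹ v) = ρ m⁻¹ v := fun x e => by
    rw [← mul_FMod, mul_inv_cancel_right, mul_FMod, e]
  have := um_FMod h hs nt (v := ρ m⁻¹ v) (fun e => hv (by
    rw [← map_zero (ρ m), ← e, ← mul_FMod, mul_inv_cancel, map_one, AddMonoid.End.one_apply]))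
    (fun r hr => by simpa [mul_assoc] using k _ (hf _ (h4 r hr))) (k g hg)
  simpa [mul_assoc] using M.mul_mem (M.mul_mem hm this) (M.inv_mem hm)

theorem cop (h3 : (3 : AddMonoid.End V) = 0) {g : G} (hg : El3' g) {v : V}
    (h : ρ g (ρ g v - v) = ρ g v - v) : ρ g v = v := by
  obtain ⟨m, h1, h2⟩ := hg
  have k : ∀ n : ℕ, ρ (g ^ n) v = v + n • (ρ g v - v) := fun n => by
    induction n with
    | zero => simp
    | succ n ih => rw [pow_succ', mul_FMod, ih, map_add, map_nsmul, h, succ_nsmul]; abel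
  have e := k m
  rw [h2, map_one, AddMonoid.End.one_apply, left_eq_add] at e
  exact sub_eq_zero.1 (AddMonoid.addOrderOf_eq_one_iff.1 (Nat.eq_one_of_dvd_coprimes
    ((Nat.Prime.coprime_iff_not_dvd Nat.prime_three).2 h1)
    (addOrderOf_dvd_of_nsmul_eq_zero (three_FMod h3 _)) (addOrderOf_dvd_of_nsmul_eq_zero e)))

theorem q3 (h3 : (3 : AddMonoid.End V) = 0) {y r : G} (hc : Commute y r) (hr : r ^ 3 = 1)
    (h₀ : Quad ρ y) (h₁ : Quad ρ (y * r)) (h₂ : Quad ρ (y * r ^ 2)) : Quad ρ r := by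
  have e : ρ y * ρ r = ρ r * ρ y := (hc.map ρ).eq
  refine q3_FMod h3 (by linear_combination (norm := noncomm_ring) -e) h₀ ?_ ?_ ?_
  · rw [← one_FMod, ← map_pow, hr, map_one]
  · rwa [← one_FMod, ← one_FMod, ← map_mul]
  · rwa [← one_FMod, ← one_FMod, ← map_pow, ← map_mul]

theorem Gen.braid (inj : Function.Injective ρ) {d w : G} (hd : Quad ρ d) (hw : Quad ρ w)
    (h : Gen ρ d w) : Braid d w := by
  refine inj ?_
  unfold Quad at hd hw
  simp only [map_mul]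
  linear_combination (norm := noncomm_ring) hd - hw + h.1 - h.2

theorem Gen.t (h3 : (3 : AddMonoid.End V) = 0) {d w : G} (hd : Quad ρ d) (hw : Quad ρ w)
    (h : Gen ρ d w) : ρ ((d * w) ^ 3) = 1 - ac ρ d w ∧ ac ρ d w * ac ρ d w = -ac ρ d w := by
  refine ⟨?_, ?_⟩
  · rw [map_pow, map_mul, one_FMod d, one_FMod w]
    exact t_FMod h3 hd hw h.1 h.2
  · obtain ⟨g1, g2⟩ := h
    unfold Quad at hd hw
    unfold ac
    generalize ρ d - 1 = a, ρ w - 1 = b at *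
    linear_combination (norm := noncomm_ring) g1 * b + g2 * a + a * hw * a + b * hd * b

theorem br2_FMod {d w : G} (hd : Quad ρ d) (hw : Quad ρ w) (hb : Braid d w) :
    ρ d - 1 + (ρ d - 1) * (ρ w - 1) * (ρ d - 1) = ρ w - 1 + (ρ w - 1) * (ρ d - 1) * (ρ w - 1) ∧
      ac ρ d w * ((ρ d - 1) * (1 + (ρ w - 1) * (ρ d - 1))) = 0 :=
  br_FMod hd hw (by simpa only [← one_FMod, ← map_mul] using congrArg ρ hb)

theorem gen_of_gnc {d w : G} (hd : Quad ρ d) (hw : Quad ρ w) (hb : Braid d w) (h : Gnc ρ d w) :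
    Gen ρ d w := by
  obtain ⟨e1, e2⟩ := br2_FMod hd hw hb
  have k : (ρ d - 1) * (1 + (ρ w - 1) * (ρ d - 1)) = 0 := by
    ext v
    exact h.1 _ (DFunLike.congr_fun e2 v)
  exact ⟨by linear_combination (norm := noncomm_ring) k,
    by linear_combination (norm := noncomm_ring) k - e1⟩

theorem Gnc.inv {d w : G} (hw : Quad ρ w) (h : Gnc ρ d w) : Gnc ρ d w⁻¹ := by
  have e : ac ρ d w⁻¹ = -ac ρ d w := by rw [ac, hw.inv.2, ac, mul_neg, neg_mul, neg_add]
  rw [Gnc, e, hw.inv.2]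
  refine ⟨fun v hv => h.1 v (neg_eq_zero.1 hv), fun v hv => neg_eq_zero.2 (h.2 v ?_)⟩
  change -ac ρ d w (-(ρ w - 1) v) = 0 at hv
  rwa [map_neg, neg_neg] at hv

theorem gen_of_t (h3 : (3 : AddMonoid.End V) = 0) {d w : G} (hd : Quad ρ d) (hw : Quad ρ w)
    (hb : Braid d w) (ht : ((d * w) ^ 3) ^ 2 = 1)
    (h : ∀ v, ρ ((d * w) ^ 3) v = v → ρ d v = v ∧ ρ w v = v) : Gen ρ d w := by
  have e1 := (br2_FMod hd hw hb).1
  have k1 : (ρ d - 1) * (ρ ((d * w) ^ 3) + 1) = 0 := by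
    ext v
    refine sub_eq_zero.2 (h (ρ ((d * w) ^ 3) v + v) ?_).1
    rw [map_add, ← mul_FMod, ← sq, ht, map_one, AddMonoid.End.one_apply, add_comm]
  have k2 := gt_FMod hd hw e1 _ (Or.inl (one_FMod d))
  have k3 := gt_FMod hd hw e1 _ (Or.inr (one_FMod w))
  have k4 : (ρ d - 1 + (ρ d - 1) * (ρ w - 1) * (ρ d - 1)) * ρ ((d * w) ^ 3) =
      ρ d - 1 + (ρ d - 1) * (ρ w - 1) * (ρ d - 1) := by
    simp only [pow_succ, pow_zero, one_mul, map_mul, ← mul_assoc, k2, k3]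
  rw [Gen]
  generalize ρ d - 1 = a, ρ w - 1 = b, ρ ((d * w) ^ 3) = t at *
  have k : a + a * b * a = 0 := by
    linear_combination (norm := noncomm_ring) h3 * (a + a * b * a) - (1 + a * b) * k1 + k4
  exact ⟨by linear_combination (norm := noncomm_ring) k,
    by linear_combination (norm := noncomm_ring) k - e1⟩

theorem TI.cube (h : TI ρ M) {x : G} (hx : Quad ρ x) : x ^ 3 = 1 :=
  h.inj (by rw [map_pow, hx.cube h.three, map_one])

theorem TI.syl (h : TI ρ M) {d : G} (dM : d ∈ M) (d1 : d ≠ 1) (hd : Quad ρ d) {S : Subgroup G}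
    (hS : IsPGroup 3 S) (dS : d ∈ S) : S ≤ M := by
  obtain ⟨g, hg⟩ := ex_fix h.idx hS
  have k := h.h2 d dM d1 hd g (hg d dS)
  intro s hs
  simpa [mul_assoc] using M.mul_mem (M.mul_mem k (hg s hs)) (M.inv_mem k)

theorem TI.sub (h : TI ρ M) {d : G} (dM : d ∈ M) (d1 : d ≠ 1) (hd : Quad ρ d) {H : Subgroup G}
    (dH : d ∈ H) : TI (ρ.comp H.subtype) (M.subgroupOf H) := by
  have : Fact (Nat.Prime 3) := ⟨Nat.prime_three⟩
  refine ⟨h.three, h.inj.comp Subtype.val_injective, fun e => ?_, fun x hx x1 q g hg =>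
    h.h2 x hx (fun e => x1 (Subtype.ext e)) q g hg⟩
  obtain ⟨P, hP⟩ := (IsPGroup.of_card_dvd_pow (p := 3) (n := 1)
    (G := Subgroup.zpowers (⟨d, dH⟩ : H)) (by
      rw [Nat.card_zpowers, pow_one]
      exact orderOf_dvd_of_pow_eq_one (Subtype.ext (h.cube hd)))).exists_le_sylow
  have k := h.syl dM d1 hd (P.isPGroup'.map H.subtype) ⟨_, hP (Subgroup.mem_zpowers _), rfl⟩
  exact P.not_dvd_index (e.trans (Subgroup.index_dvd_of_le fun x hx => k ⟨x, hx, rfl⟩))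

theorem AB.sub (h : AB ρ) (H : Subgroup G) : AB (ρ.comp H.subtype) := fun u z hu hz hp => by
  have k := hp.map H.subtype
  rw [MonoidHom.map_closure, Set.image_pair] at k
  exact Subtype.ext (h u z hu hz k)

theorem CFx.sub (h : CFx ρ M) (H : Subgroup G) : CFx (ρ.comp H.subtype) (M.subgroupOf H) := by
  intro S hS hle f hf f1 g hg
  refine h (S.map H.subtype) (hS.map _) (by rintro _ ⟨x, hx, rfl⟩; exact hle hx) f ?_
    (fun e => f1 (Subtype.ext e)) g (hg.map H.subtype)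
  have k := Subgroup.mem_map_of_mem H.subtype hf
  rw [MonoidHom.map_closure] at k
  exact Subgroup.closure_mono (by rintro _ ⟨x, hx, rfl⟩; exact ⟨⟨x, hx.1, rfl⟩, hx.2⟩) k

/-- The quadratic elements of a 3-subgroup generate an elementary abelian group. -/
theorem AB.abl (h : AB ρ) (t : TI ρ M) {S : Subgroup G} (hS : IsPGroup 3 S) :
    Abl (Subgroup.closure {x | x ∈ S ∧ Quad ρ x}) ∧
      ∀ f ∈ Subgroup.closure {x | x ∈ S ∧ Quad ρ x}, f ^ 3 = 1 := by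
  have k : Abl (Subgroup.closure {x | x ∈ S ∧ Quad ρ x}) := fun c hc d hd =>
    Set.centralizer_centralizer_comm_of_comm (fun x hx y hy => h x y hx.2 hy.2 (hS.to_le
      ((Subgroup.closure_le _).2 (Set.pair_subset hx.1 hy.1)))) _
      (Subgroup.closure_le_centralizer_centralizer _ hc) _
      (Subgroup.closure_le_centralizer_centralizer _ hd)
  refine ⟨k, fun f hf => ?_⟩
  induction hf using Subgroup.closure_induction with
  | mem x hx => exact t.cube hx.2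
  | one => exact one_pow 3
  | mul x y hx hy a b => rw [Commute.mul_pow (k x hx y hy), a, b, mul_one]
  | inv x _ a => rw [inv_pow, a, inv_one]

end Pool.Agent.MP_a5588a_al.Full

end

section

namespace Pool.Agent.MP_a5588a_al.Full

open Pool.Agent.MP_a5588a_al.Solv
open scoped commutatorElement

universe u v

variable {G : Type u} {V : Type v} [Group G] [Finite G] [AddCommGroup V] [Finite V]
  {ρ : G →* AddMonoid.End V} {M : Subgroup G}

omit [Finite G] in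
theorem quo_FSect {A B : AddSubgroup V} (hA : Inv ρ ⊤ A) (hB : Inv ρ ⊤ B) :
    ∃ (N : Type v) (_ : AddCommGroup N) (_ : Finite N) (σ : G →* AddMonoid.End N) (p : V → N),
      MSect ρ A B σ p ∧ ∀ v ∈ B, p v = 0 → v ∈ A := by
  classical
  let c : G → B →+ B := fun g =>
    AddMonoidHom.mk' (fun x => ⟨ρ g x, hB g trivial x x.2⟩) fun x y => Subtype.ext (by simp)
  have hz : ∀ v (hv : v ∈ B), (QuotientAddGroup.mk ⟨v, hv⟩ : B ⧸ A.addSubgroupOf B) = 0 ↔ v ∈ A :=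
    fun v hv => QuotientAddGroup.eq_zero_iff (N := A.addSubgroupOf B) ⟨v, hv⟩
  refine ⟨B ⧸ A.addSubgroupOf B, inferInstance, inferInstance,
    { toFun := fun g => QuotientAddGroup.map _ _ (c g) fun x hx => hA g trivial x hx
      map_one' := AddMonoidHom.ext ?_
      map_mul' := fun g k => AddMonoidHom.ext ?_ },
    fun x => if h : x ∈ B then QuotientAddGroup.mk ⟨x, h⟩ else 0,
    ⟨hB, fun x hx y hy => ?_, fun x hx ha => ?_, ?_, fun g x hx => ?_⟩, fun x hx h => ?_⟩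
  · rintro ⟨x⟩
    exact congrArg (QuotientAddGroup.mk (s := A.addSubgroupOf B)) (Subtype.ext (by simp [c]))
  · rintro ⟨x⟩
    exact congrArg (QuotientAddGroup.mk (s := A.addSubgroupOf B)) (Subtype.ext (by simp [c]))
  · rw [dif_pos hx, dif_pos hy, dif_pos (B.add_mem hx hy)]
    rfl
  · rw [dif_pos hx]
    exact (hz x hx).2 ha
  · rintro ⟨x⟩
    exact ⟨x, x.2, dif_pos x.2⟩
  · rw [dif_pos hx, dif_pos (hB g trivial x hx)]
    rfl
  · exact (hz x hx).1 ((dif_pos hx).symm.trans h)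

omit [Finite G] [Finite V] in
theorem cop_FSect (h3 : (3 : AddMonoid.End V) = 0) {A : AddSubgroup V} (hA : Inv ρ ⊤ A) {g : G}
    (hg : El3' g) {v : V} (h : ρ g (ρ g v - v) - (ρ g v - v) ∈ A) : ρ g v - v ∈ A := by
  obtain ⟨m, hm, e⟩ := hg
  have key : ∀ n : ℕ, ρ (g ^ n) v - v - n • (ρ g v - v) ∈ A := fun n => by
    induction n with
    | zero => simp
    | succ n ih =>
      have e1 : ρ (g ^ (n + 1)) v - v - (n + 1) • (ρ g v - v) =
          ρ g (ρ (g ^ n) v - v - n • (ρ g v - v)) + n • (ρ g (ρ g v - v) - (ρ g v - v)) := by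
        rw [pow_succ', map_mul, AddMonoid.End.coe_mul, Function.comp_apply, map_sub (ρ g) (_ - v),
          map_sub (ρ g) _ v, map_nsmul]
        generalize ρ g (ρ g v - v) = y
        simp only [smul_sub, add_smul, one_smul]
        abel
      rw [e1]
      exact A.add_mem (hA g trivial _ ih) (A.nsmul_mem h n)
  have h1 := key m
  rw [e, map_one, AddMonoid.End.coe_one, id, sub_self, zero_sub, neg_mem_iff] at h1
  generalize ρ g v - v = w at h1
  have h0 : 3 • w = 0 := DFunLike.congr_fun h3 w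
  rw [← Nat.div_add_mod m 3, add_nsmul, mul_nsmul, h0, nsmul_zero, zero_add] at h1
  have h2 := A.nsmul_mem h1 (m % 3)
  obtain h4 | h4 : m % 3 = 1 ∨ m % 3 = 2 := by omega
  · simpa [h4] using h1
  · rwa [h4, ← mul_nsmul, show 2 * 2 = 3 + 1 from rfl, succ_nsmul, h0, zero_add] at h2

theorem MSect.zero {N : Type*} [AddCommGroup N] {A B : AddSubgroup V} {σ : G →* AddMonoid.End N}
    {p : V → N} (h : MSect ρ A B σ p) : p 0 = 0 := by
  simpa using h.add 0 B.zero_mem 0 B.zero_mem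

theorem neg_FSect {N : Type*} [AddCommGroup N] {A B : AddSubgroup V} {σ : G →* AddMonoid.End N}
    {p : V → N} (h : MSect ρ A B σ p) {v : V} (hv : v ∈ B) : p (-v) = -p v :=
  eq_neg_of_add_eq_zero_right (by rw [← h.add v hv _ (B.neg_mem hv), add_neg_cancel, h.zero])

/-- Commutators in a section. -/
theorem MSect.sub {N : Type*} [AddCommGroup N] {A B : AddSubgroup V} {σ : G →* AddMonoid.End N}
    {p : V → N} (h : MSect ρ A B σ p) (g : G) {v : V} (hv : v ∈ B) :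
    (ρ g - 1) v ∈ B ∧ p ((ρ g - 1) v) = (σ g - 1) (p v) := by
  have m := h.inv g trivial v hv
  refine ⟨B.sub_mem m hv, ?_⟩
  change p (ρ g v - v) = σ g (p v) - p v
  rw [sub_eq_add_neg, h.add _ m _ (B.neg_mem hv), neg_FSect h hv, h.conj g v hv, sub_eq_add_neg]

theorem exists_msect (h3 : (3 : AddMonoid.End V) = 0) {A₀ B₀ : AddSubgroup V} (hA : Inv ρ ⊤ A₀)
    (hB : Inv ρ ⊤ B₀) {g : G} (hg : El3' g) (hv : ∃ v ∈ B₀, ρ g v - v ∉ A₀) :
    ∃ (N : Type v) (_ : AddCommGroup N) (_ : Finite N) (σ : G →* AddMonoid.End N)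
      (B : AddSubgroup V) (p : V → N), B ≤ B₀ ∧ MSect ρ A₀ B σ p ∧
        (3 : AddMonoid.End N) = 0 ∧ Smp σ ∧ σ g ≠ 1 := by
  obtain ⟨B, ⟨b1, b2, v, b3, b4⟩, hmin⟩ := exists_minimal_of_wellFoundedLT
    (fun B : AddSubgroup V => B ≤ B₀ ∧ Inv ρ ⊤ B ∧ ∃ v ∈ B, ρ g v - v ∉ A₀) ⟨B₀, le_rfl, hB, hv⟩
  obtain ⟨A, ⟨a1, a2, a3, a4⟩, hmax⟩ := exists_maximal_of_wellFoundedGT
    (fun A : AddSubgroup V => Inv ρ ⊤ A ∧ A₀ ⊓ B ≤ A ∧ A ≤ B ∧ ¬ B ≤ A)
    ⟨A₀ ⊓ B, fun k hk w hw => ⟨hA k hk w hw.1, b2 k hk w hw.2⟩, le_rfl, inf_le_right,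
      fun h => b4 (h (B.sub_mem (b2 g trivial v b3) b3)).1⟩
  obtain ⟨N, _, _, σ, p, h, hk⟩ := quo_FSect a1 b2
  refine ⟨N, inferInstance, inferInstance, σ, B, p, b1,
    ⟨b2, h.add, fun w hw ha => h.ker w hw (a2 ⟨ha, hw⟩), h.surj, h.conj⟩,
    AddMonoidHom.ext fun n => ?_, fun U hU => ?_, fun e => b4 (cop_FSect h3 hA hg ?_)⟩
  · obtain ⟨w, hw, rfl⟩ := h.surj n
    have h0 : 3 • w = 0 := DFunLike.congr_fun h3 w
    change 3 • p w = 0
    rw [three_nsmul, ← h.add w hw w hw, ← h.add w hw _ (B.add_mem hw hw), ← three_nsmul, h0,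
      h.zero]
  · let U' : AddSubgroup V :=
      { carrier := {x | x ∈ B ∧ p x ∈ U}
        zero_mem' := ⟨B.zero_mem, h.zero ▸ U.zero_mem⟩
        add_mem' := fun a b => ⟨B.add_mem a.1 b.1, h.add _ a.1 _ b.1 ▸ U.add_mem a.2 b.2⟩
        neg_mem' := fun a => ⟨B.neg_mem a.1, neg_FSect h a.1 ▸ U.neg_mem a.2⟩ }
    have hle : A ≤ U' := fun x hx => ⟨a3 hx, h.ker x (a3 hx) hx ▸ U.zero_mem⟩
    by_cases hb : B ≤ U'
    · refine Or.inr (eq_top_iff.2 fun n _ => ?_)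
      obtain ⟨w, hw, rfl⟩ := h.surj n
      exact (hb hw).2
    · refine Or.inl (eq_bot_iff.2 fun n hn => ?_)
      obtain ⟨w, hw, rfl⟩ := h.surj n
      exact h.ker w hw (hmax (y := U') ⟨fun k hk x hx => ⟨b2 k hk x hx.1,
        h.conj k x hx.1 ▸ hU k hk _ hx.2⟩, a2.trans hle, fun x hx => hx.1, hb⟩ hle ⟨hw, hn⟩)
  · obtain ⟨m, e1⟩ := h.sub g b3
    rw [e, sub_self] at e1
    by_contra hn
    exact a4 (hmin ⟨a3.trans b1, a1, _, hk _ m e1, hn⟩ a3)

theorem descend {R : Subgroup G} (h : UM R M) (h3 : (3 : AddMonoid.End V) = 0) (hs : Smp ρ)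
    (nt : ∃ g, ρ g ≠ 1) :
    ∃ (H : Type u) (_ : Group H) (_ : Finite H) (p : G →* H) (σ : H →* AddMonoid.End V),
      Function.Surjective p ∧ Function.Injective σ ∧ (∀ g, σ (p g) = ρ g) ∧ Smp σ ∧
        UM (R.map p) (M.map p) ∧ ∀ g, p g ∈ M.map p ↔ g ∈ M := by
  have hk : ρ.ker ≤ M := h.f2 h3 hs nt
  have hm : ∀ g, QuotientGroup.mk' ρ.ker g ∈ M.map (QuotientGroup.mk' ρ.ker) ↔ g ∈ M := fun g => by
    rw [← Subgroup.mem_comap, Subgroup.comap_map_eq_self (by rwa [QuotientGroup.ker_mk'])]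
  have hi : Function.Injective (QuotientGroup.lift ρ.ker ρ le_rfl) := by
    rintro ⟨a⟩ ⟨b⟩ e
    have e' : ρ a = ρ b := e
    exact QuotientGroup.eq.2 (by rw [MonoidHom.mem_ker, map_mul, ← e', ← map_mul]; simp)
  have hs' : Smp (QuotientGroup.lift ρ.ker ρ le_rfl) := fun U hU =>
    hs U fun g _ => hU (QuotientGroup.mk g) trivial
  refine ⟨G ⧸ ρ.ker, inferInstance, inferInstance, QuotientGroup.mk' _,
    QuotientGroup.lift _ ρ le_rfl, QuotientGroup.mk'_surjective _, hi, fun _ => rfl, hs',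
    ⟨h.pR.map _, fun e => h.ne (eq_top_iff.2 fun g _ => (hm g).1 (e ▸ trivial)),
      fun K hK => ?_, fun K hK pK hR => ?_⟩, hm⟩
  · refine (h.um _ (Subgroup.map_le_iff_le_comap.1 hK)).imp ?_ fun e => eq_top_iff.2 ?_
    · rintro e ⟨g⟩ hg
      exact (hm g).2 (e hg)
    · rintro ⟨g⟩ -
      exact (e.ge (Subgroup.mem_top g) :)
  · obtain ⟨K', n, pK', hK'⟩ := h.f1 inferInstance hk
    refine h.nn K' n pK' fun r hr => hK' r
      (o3_triv h3 hs' hK pK _ (hR (Subgroup.mem_map_of_mem _ hr))) ?_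
    obtain ⟨k, e⟩ := h.pR ⟨r, hr⟩
    exact ⟨k, congrArg Subtype.val e⟩

end Pool.Agent.MP_a5588a_al.Full

end

section

/-! Pairs of quadratic elements with nilpotent anticommutator, and in 3-groups. -/

namespace Pool.Agent.MP_a5588a_al.Full

open Pool.Agent.MP_a5588a_al.Solv
open scoped commutatorElement

universe u v

section ring

variable {E : Type*} [Ring E] {a b : E}

/-- The augmentation ideal of the ring generated by `a` and `b`. -/
def Aug_FNil (a b f : E) : Prop := ∃ (α β γ : ℤ) (g : E), Commute (a * b + b * a) g ∧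
  f = α • a + β • b + γ • (a * b) + (a * b + b * a) * g

theorem com_FNil (ha : a * a = 0) : Commute (a * b + b * a) a := by
  change _ = _
  rw [add_mul, mul_add, mul_assoc b, ← mul_assoc a a, ha]
  simp [mul_assoc]

theorem Aug_FNil.left (ha : a * a = 0) {f : E} (h : Aug_FNil a b f) (ε : ℤ) :
    Aug_FNil a b ((1 + ε • a) * (1 + f) - 1) := by
  obtain ⟨α, β, γ, g, hg, rfl⟩ := h
  have h1 : ∀ x, a * (a * x) = 0 := fun x => by rw [← mul_assoc, ha, zero_mul]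
  refine ⟨α + ε, β, γ + ε * β, g + ε • (a * g),
    hg.add_right (((com_FNil ha).mul_right hg).smul_right ε), ?_⟩
  simp only [mul_add, add_mul, mul_one, one_mul, mul_assoc, smul_mul_assoc, mul_smul_comm, ha, h1,
    mul_zero]
  module

theorem Aug_FNil.right (hb : b * b = 0) {f : E} (h : Aug_FNil a b f) (ε : ℤ) :
    Aug_FNil a b ((1 + ε • b) * (1 + f) - 1) := by
  obtain ⟨α, β, γ, g, hg, rfl⟩ := h
  have h1 : ∀ x, b * (b * x) = 0 := fun x => by rw [← mul_assoc, hb, zero_mul]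
  have h2 : Commute (a * b + b * a) b := add_comm (b * a) (a * b) ▸ com_FNil hb
  refine ⟨α, β + ε, γ - ε * α, g + ε • (b * g) + (ε * α) • 1 + (ε * γ) • b,
    ((hg.add_right ((h2.mul_right hg).smul_right ε)).add_right
      ((Commute.one_right _).smul_right _)).add_right (h2.smul_right _), ?_⟩
  simp only [mul_add, add_mul, mul_one, one_mul, mul_assoc, smul_mul_assoc, mul_smul_comm, hb, h1,
    mul_zero]
  module

theorem Aug_FNil.sq (ha : a * a = 0) (hb : b * b = 0) {f : E} (h : Aug_FNil a b f) (k : ℕ) :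
    ∃ g, f ^ (2 * k) = g * (a * b + b * a) ^ k := by
  obtain ⟨α, β, γ, g, hg, rfl⟩ := h
  have h1 : ∀ x, a * (a * x) = 0 := fun x => by rw [← mul_assoc, ha, zero_mul]
  have h2 : Commute (a * b + b * a) a := com_FNil ha
  have h3 : Commute (a * b + b * a) b := add_comm (b * a) (a * b) ▸ com_FNil hb
  have h4 : Commute (a * b + b * a) (α • a + β • b + γ • (a * b)) :=
    ((h2.smul_right _).add_right (h3.smul_right _)).add_right ((h2.mul_right h3).smul_right _)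
  have h5 : (α • a + β • b + γ • (a * b)) * (α • a + β • b + γ • (a * b)) =
      (a * b + b * a) * ((α * β) • 1 + γ • (α • a + β • b + γ • (a * b))) := by
    simp only [mul_add, add_mul, mul_one, mul_assoc, smul_mul_assoc, mul_smul_comm, ha, hb, h1,
      mul_zero]
    module
  generalize α • a + β • b + γ • (a * b) = x at h4 h5
  generalize a * b + b * a = c at hg h4 h5
  have h6 : Commute c ((α * β) • 1 + γ • x + (x * g + g * x + g * c * g)) :=
    (((Commute.one_right _).smul_right _).add_right (h4.smul_right _)).add_right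
      (((h4.mul_right hg).add_right (hg.mul_right h4)).add_right
        ((hg.mul_right (Commute.refl c)).mul_right hg))
  refine ⟨((α * β) • 1 + γ • x + (x * g + g * x + g * c * g)) ^ k, ?_⟩
  rw [← h6.symm.mul_pow, ← h6.eq, pow_mul, pow_two, mul_add c, ← h5]
  congr 1
  simp only [mul_add, add_mul, ← mul_assoc, h4.eq]
  abel

theorem pow_FNil (h3 : (3 : E) = 0) (f : E) (n : ℕ) : (1 + f) ^ 3 ^ n = 1 + f ^ 3 ^ n := by
  induction n with
  | zero => simp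
  | succ n ih =>
    rw [pow_succ, pow_mul, pow_mul, ih]
    generalize f ^ 3 ^ n = g
    have : (1 + g) ^ 3 = 1 + g ^ 3 + 3 * (g + g * g) := by noncomm_ring
    rw [this, h3, zero_mul, add_zero]

theorem tri_FNil (h3 : (3 : E) = 0) (ha : a * a = 0) (hb : b * b = 0)
    (h₁ : Commute (1 + a) ((1 + b) * (1 + a) * (1 - b)))
    (h₂ : Commute (1 + a) ((1 - b) * (1 + a) * (1 + b))) : a * b * a = 0 := by
  have h1 : ∀ x, a * (a * x) = 0 := fun x => by rw [← mul_assoc, ha, zero_mul]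
  have e₁ := h₁.eq
  have e₂ := h₂.eq
  have e₃ : a * (b * a) + a * (b * a) + a * (b * a) = 0 := by
    rw [← zero_mul (a * (b * a)), ← h3]
    noncomm_ring
  simp only [mul_add, add_mul, mul_sub, sub_mul, mul_one, one_mul, mul_assoc, ha, hb, h1, mul_zero,
    zero_mul] at e₁ e₂
  rw [mul_assoc]
  linear_combination (norm := abel) e₁ - e₂ - e₃

end ring

variable {G : Type u} {V : Type v} [Group G] [Finite G] [AddCommGroup V] [Finite V]
  {ρ : G →* AddMonoid.End V} {M : Subgroup G}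

theorem nil0 (h3 : (3 : AddMonoid.End V) = 0) {d w : G} (hd : Quad ρ d) (hw : Quad ρ w) {x : G}
    (hx : x ∈ Subgroup.closure {d, w}) :
    ∃ n : ℕ, ∀ v, (∃ k : ℕ, (ac ρ d w ^ k) v = 0) → ρ (x ^ 3 ^ n) v = v := by
  have h1 : Aug_FNil (ρ d - 1) (ρ w - 1) (ρ x - 1) := by
    induction hx using Subgroup.closure_induction_left with
    | one => exact ⟨0, 0, 0, 0, Commute.zero_right _, by simp⟩
    | mul_left y hy z _ ih =>
      rcases hy with rfl | rfl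
      · simpa using ih.left hd 1
      · simpa using ih.right hw 1
    | inv_mul_cancel y hy z _ ih =>
      rw [map_mul, ← add_sub_cancel 1 (ρ y⁻¹), ← add_sub_cancel 1 (ρ z)]
      rcases hy with rfl | rfl
      · rw [hd.inv.2, ← neg_one_zsmul]
        exact ih.left hd _
      · rw [hw.inv.2, ← neg_one_zsmul]
        exact ih.right hw _
  obtain ⟨K, hK⟩ : ∃ K, ∀ v, (∃ k : ℕ, (ac ρ d w ^ k) v = 0) → (ac ρ d w ^ K) v = 0 := by
    choose! f hf using fun v (h : ∃ k : ℕ, (ac ρ d w ^ k) v = 0) => h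
    obtain ⟨K, hK⟩ := (Set.finite_range f).bddAbove
    refine ⟨K, fun v hv => ?_⟩
    rw [← Nat.sub_add_cancel (hK ⟨v, rfl⟩), pow_add]
    exact (congrArg _ (hf v hv)).trans (map_zero (ac ρ d w ^ _))
  obtain ⟨g, hg⟩ := h1.sq hd hw K
  refine ⟨2 * K, fun v hv => ?_⟩
  rw [map_pow, ← add_sub_cancel 1 (ρ x), pow_FNil h3,
    ← Nat.sub_add_cancel (Nat.lt_pow_self (n := 2 * K) (by norm_num : 1 < 3)).le, pow_add, hg,
    ← mul_assoc]
  generalize _ * g = e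
  change v + e ((ac ρ d w ^ K) v) = v
  rw [hK v hv, map_zero, add_zero]

theorem nil (h3 : (3 : AddMonoid.End V) = 0) (inj : Function.Injective ρ) {d w : G}
    (hd : Quad ρ d) (hw : Quad ρ w) {k : ℕ} (hk : ac ρ d w ^ k = 0) :
    IsPGroup 3 (Subgroup.closure {d, w}) := fun x => by
  obtain ⟨n, hn⟩ := nil0 h3 hd hw x.2
  refine ⟨n, Subtype.ext (inj ?_)⟩
  rw [Subgroup.coe_one, map_one]
  exact AddMonoidHom.ext fun v => hn v ⟨k, by rw [hk]; rfl⟩

theorem small_FNil {R : Subgroup G} (hp : IsPGroup 3 R) {u z : G} (hu : u ∈ R) (hz : z ∈ R)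
    (hn : ¬ Commute u z) : ∃ K < R, ∀ g ∈ R, g * u * g⁻¹ ∈ K := by
  have := hp.isNilpotent
  obtain h | ⟨K, h1, h2⟩ := eq_top_or_exists_le_coatom (Subgroup.zpowers (⟨u, hu⟩ : R))
  · obtain ⟨k, hk⟩ : (⟨z, hz⟩ : R) ∈ Subgroup.zpowers (⟨u, hu⟩ : R) := h ▸ Subgroup.mem_top _
    obtain rfl : u ^ k = z := congrArg Subtype.val hk
    exact absurd ((Commute.refl u).zpow_right k) hn
  have hK := Subgroup.NormalizerCondition.normal_of_coatom K
    Group.normalizerCondition_of_isNilpotent h1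
  refine ⟨K.map R.subtype, lt_of_le_of_ne (Subgroup.map_subtype_le K) fun e => h1.1 ?_,
    fun g hg => ⟨_, hK.conj_mem _ (h2 (Subgroup.mem_zpowers _)) ⟨g, hg⟩, rfl⟩⟩
  rw [← K.comap_map_eq_self_of_injective R.subtype_injective, e]
  exact R.subgroupOf_self

theorem half_FNil (h3 : (3 : AddMonoid.End V) = 0) {u z : G} (hu : Quad ρ u) (hz : Quad ρ z)
    (h₁ : Commute u (z * u * z⁻¹)) (h₂ : Commute u (z⁻¹ * u * z⁻¹⁻¹)) :
    (ρ u - 1) * (ρ z - 1) * (ρ u - 1) = 0 := by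
  have e : ρ z⁻¹ = 1 - (ρ z - 1) := by rw [sub_eq_add_neg, ← hz.inv.2, add_sub_cancel]
  refine tri_FNil h3 hu hz ?_ ?_ <;> rw [← e, add_sub_cancel, add_sub_cancel]
  · simpa only [map_mul] using h₁.map ρ
  · simpa only [map_mul, inv_inv] using h₂.map ρ

theorem qc (h3 : (3 : AddMonoid.End V) = 0) {u z : G} (hu : Quad ρ u) (hz : Quad ρ z)
    (hp : IsPGroup 3 (Subgroup.closure {u, z})) (hn : ¬ Commute u z) :
    ∃ u' ∈ Subgroup.closure {u, z}, ∃ z' ∈ Subgroup.closure {u, z}, Quad ρ u' ∧ Quad ρ z' ∧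
      ¬ Commute u' z' ∧ (ρ u' - 1) * (ρ z' - 1) * (ρ u' - 1) = 0 ∧
        (ρ z' - 1) * (ρ u' - 1) * (ρ z' - 1) = 0 := by
  induction hR : Subgroup.closure {u, z} using WellFoundedLT.induction generalizing u z with
  | ind R ih =>
  have uR : u ∈ R := hR ▸ Subgroup.subset_closure (by simp)
  have zR : z ∈ R := hR ▸ Subgroup.subset_closure (by simp)
  rw [hR] at hp
  by_cases h : ∃ x ∈ R, ∃ y ∈ R, ∃ g ∈ R, Quad ρ x ∧ ¬ Commute x y ∧ ¬ Commute x (g * x * g⁻¹)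
  · obtain ⟨x, hx, y, hy, g, hg, q, n1, n2⟩ := h
    obtain ⟨K, h1, h2⟩ := small_FNil hp hx hy n1
    have h4 : Subgroup.closure {x, g * x * g⁻¹} < R := by
      refine lt_of_le_of_lt ((Subgroup.closure_le K).2 ?_) h1
      rintro _ (rfl | rfl)
      exacts [by simpa using h2 1 R.one_mem, h2 g hg]
    obtain ⟨u', a1, z', a2, a3⟩ := ih _ h4 q (q.conj g) (hp.to_le h4.le) n2 rfl
    exact ⟨u', h4.le a1, z', h4.le a2, a3⟩
  · simp only [not_exists, not_and, not_not] at h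
    have hn' : ¬ Commute z u := fun e => hn e.symm
    exact ⟨u, uR, z, zR, hu, hz, hn,
      half_FNil h3 hu hz (h u uR z zR z zR hu hn) (h u uR z zR _ (R.inv_mem zR) hu hn),
      half_FNil h3 hz hu (h z zR u uR u uR hz hn') (h z zR u uR _ (R.inv_mem uR) hz hn')⟩

theorem qc_n {u z : G} (hu : Quad ρ u) (hz : Quad ρ z)
    (h₁ : (ρ u - 1) * (ρ z - 1) * (ρ u - 1) = 0) (h₂ : (ρ z - 1) * (ρ u - 1) * (ρ z - 1) = 0) :
    Quad ρ ⁅z, u⁆ ∧ (ρ ⁅z, u⁆ - 1) * (ρ u - 1) = 0 ∧ (ρ u - 1) * (ρ ⁅z, u⁆ - 1) = 0 ∧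
      (ρ ⁅z, u⁆ - 1) * (ρ z - 1) = 0 ∧ (ρ z - 1) * (ρ ⁅z, u⁆ - 1) = 0 := by
  have e : ρ ⁅z, u⁆ = (1 + (ρ z - 1)) * (1 + (ρ u - 1)) * (1 - (ρ z - 1)) * (1 - (ρ u - 1)) := by
    rw [commutatorElement_def, map_mul, map_mul, map_mul, eq_add_of_sub_eq' hu.inv.2,
      eq_add_of_sub_eq' hz.inv.2]
    simp only [add_sub_cancel, ← sub_eq_add_neg]
  unfold Quad at *
  rw [e]
  generalize ρ u - 1 = s at *
  generalize ρ z - 1 = g at *
  rw [mul_assoc] at h₁ h₂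
  have a1 : ∀ x, s * (s * x) = 0 := fun x => by rw [← mul_assoc, hu, zero_mul]
  have a2 : ∀ x, g * (g * x) = 0 := fun x => by rw [← mul_assoc, hz, zero_mul]
  have e' : (1 + g) * (1 + s) * (1 - g) * (1 - s) - 1 = g * s - s * g := by
    simp only [mul_add, add_mul, mul_sub, sub_mul, mul_one, one_mul, mul_assoc, hu, hz, h₁, h₂,
      mul_zero, zero_mul]
    abel
  rw [e']
  simp [mul_sub, sub_mul, mul_assoc, hu, hz, h₁, h₂, a1, a2]

end Pool.Agent.MP_a5588a_al.Full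

end

section

namespace Pool.Agent.MP_a5588a_al.Full

open Pool.Agent.MP_a5588a_al.Solv
open scoped commutatorElement

universe u v

variable {G : Type u} [Group G] [Finite G] {A : Type v} [CommGroup A] {Q P : Subgroup G} [Q.Normal]
  {Y : Set G} {θ : G → A}

omit [Finite G] in
theorem Top.chief {C B : Subgroup G} (h : Top C B) : Chief C B :=
  ⟨h.nC, h.nB, h.le, h.ne, fun K nK a b => (h.max K nK b).imp_right fun c => c.antisymm a⟩

theorem Chief.comm {C B P : Subgroup G} (h : Chief C B) (nP : P.Normal) (pP : IsPGroup 3 P)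
    (hC : C ≤ P) : ⁅C, P⁆ ≤ B := by
  have := h.nC
  have := h.nB
  rcases h.max (B ⊔ ⁅C, P⁆) inferInstance le_sup_left
    (sup_le h.le (Subgroup.commutator_le_left C P)) with e | e
  · refine absurd ?_ h.ne
    have : (C.map (QuotientGroup.mk' B)).Normal := h.nC.map _ (QuotientGroup.mk'_surjective B)
    have k := comm_lt (pP.map (QuotientGroup.mk' B)) (Subgroup.map_mono hC) (by
      rw [← Subgroup.map_commutator]
      conv_lhs => rw [← e, Subgroup.map_sup, QuotientGroup.map_mk'_self, bot_sup_eq])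
    rwa [Subgroup.map_eq_bot_iff, QuotientGroup.ker_mk'] at k
  · exact le_sup_right.trans e.le

theorem Chief.cube {C B P : Subgroup G} (h : Chief C B) (nP : P.Normal) (pP : IsPGroup 3 P)
    (hC : C ≤ P) : ∀ x ∈ C, x ^ 3 ∈ B := by
  have := h.nC
  have := h.nB
  have hc : ∀ x ∈ C, ∀ y ∈ C, Commute (x : G ⧸ B) y := fun x hx y hy => by
    rw [← commutatorElement_eq_one_iff_commute]
    exact (QuotientGroup.eq_one_iff ⁅x, y⁆).2
      (h.comm nP pP hC (Subgroup.commutator_mem_commutator hx (hC hy)))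
  let K : Subgroup G :=
    { carrier := {x | x ∈ C ∧ (x : G ⧸ B) ^ 3 = 1}
      one_mem' := ⟨C.one_mem, by simp⟩
      mul_mem' := fun {a b} ha hb => ⟨C.mul_mem ha.1 hb.1, by
        rw [QuotientGroup.mk_mul, (hc a ha.1 b hb.1).mul_pow, ha.2, hb.2, one_mul]⟩
      inv_mem' := fun {a} ha => ⟨C.inv_mem ha.1, by
        rw [QuotientGroup.mk_inv, inv_pow, ha.2, inv_one]⟩ }
  have nK : K.Normal := ⟨fun x hx g => ⟨h.nC.conj_mem x hx.1 g, by
    rw [QuotientGroup.mk_mul, QuotientGroup.mk_mul, QuotientGroup.mk_inv, conj_pow, hx.2]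
    simp⟩⟩
  rcases h.max K nK (fun x hx => ⟨h.le hx, by rw [(QuotientGroup.eq_one_iff x).2 hx, one_pow]⟩)
    (fun _ hx => hx.1) with e | e
  · exact fun x hx => (QuotientGroup.eq_one_iff _).1 (e.ge hx).2
  · refine absurd (fun x hx => ?_) h.ne
    obtain ⟨n, hn⟩ := pP ⟨x, hC hx⟩
    replace hn : x ^ 3 ^ n ∈ B := by
      rw [show x ^ 3 ^ n = 1 from congrArg Subtype.val hn]
      exact B.one_mem
    induction n with
    | zero => simpa using hn
    | succ n ih =>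
      refine ih (e.le ⟨C.pow_mem hx _, ?_⟩)
      rw [← QuotientGroup.mk_pow, ← pow_mul, ← pow_succ]
      exact (QuotientGroup.eq_one_iff _).2 hn

theorem Chief.sect {C B P : Subgroup G} (h : Chief C B) (nP : P.Normal) (pP : IsPGroup 3 P)
    (hC : C ≤ P) : ∃ (V : Type u) (_ : AddCommGroup V) (_ : Finite V) (ρ : G →* AddMonoid.End V)
      (π : G → V), Sect (MonoidHom.id G) C B ρ π ∧ (3 : AddMonoid.End V) = 0 ∧ Smp ρ ∧
        ∀ p ∈ P, ρ p = 1 := by
  have hc := h.comm nP pP hC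
  have nC : ∀ g : G, ∀ x ∈ C, MonoidHom.id G g * x * (MonoidHom.id G g)⁻¹ ∈ C :=
    fun g x hx => h.nC.conj_mem x hx g
  obtain ⟨V, _, ρ, π, s⟩ := exists_sect (MonoidHom.id G) C B h.le nC
    (fun g x hx => h.nB.conj_mem x hx g)
    (fun x hx y hy => hc (Subgroup.commutator_mem_commutator hx (hC hy)))
  refine ⟨V, inferInstance, s.finite, ρ, π, s, s.three (h.cube nP pP hC), fun U hU => ?_,
    fun p hp => s.triv nC fun x hx => hc (Subgroup.commutator_comm C P ▸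
      Subgroup.commutator_mem_commutator hp hx)⟩
  rcases h.max (s.pre U) ⟨fun x hx g => ⟨nC g x hx.1, by
      rw [show π (g * x * g⁻¹) = ρ g (π x) from s.conj g x hx.1]
      exact hU g trivial _ hx.2⟩⟩
    (fun x hx => ⟨h.le hx, by rw [(s.ker x (h.le hx)).2 hx]; exact U.zero_mem⟩)
    (fun _ hx => hx.1) with e | e
  · refine .inr (eq_top_iff.2 fun v _ => ?_)
    obtain ⟨x, hx, rfl⟩ := s.surj v
    exact (e.ge hx).2
  · refine .inl (eq_bot_iff.2 fun v hv => ?_)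
    obtain ⟨x, hx, rfl⟩ := s.surj v
    exact (s.ker x hx).2 (e.le ⟨hx, hv⟩)

theorem exists_chief {C D : Subgroup G} (hC : C.Normal) (hD : D.Normal) (hle : D ≤ C)
    (hne : ¬ C ≤ D) : ∃ B, D ≤ B ∧ Chief C B := by
  obtain ⟨B, ⟨a, b, c, d⟩, m⟩ := (wellFounded_gt (α := Subgroup G)).has_min
    {B | B.Normal ∧ D ≤ B ∧ B ≤ C ∧ ¬ C ≤ B} ⟨D, hD, le_rfl, hle, hne⟩
  refine ⟨B, b, hC, a, c, d, fun K nK k1 k2 => or_iff_not_imp_left.2 fun e => ?_⟩
  exact by_contra fun e' => m K ⟨nK, b.trans k1, k2, fun f => e (k2.antisymm f)⟩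
    (lt_of_le_of_ne k1 (Ne.symm e'))

theorem exists_chief_nt {A₀ : Subgroup G} (hA : A₀.Normal) (pA : IsPGroup 3 A₀) {g : G}
    (hg : El3' g) (h : ∃ x ∈ A₀, ¬ Commute g x) :
    ∃ C B, C ≤ A₀ ∧ Chief C B ∧ ∃ x ∈ C, ⁅g, x⁆ ∉ B := by
  obtain ⟨C, ⟨a, b, x, hx, c⟩, m⟩ := (wellFounded_lt (α := Subgroup G)).has_min
    {C | C.Normal ∧ C ≤ A₀ ∧ ∃ x ∈ C, ¬ Commute g x} ⟨A₀, hA, le_rfl, h⟩
  obtain ⟨B, -, hB⟩ := exists_chief a inferInstance bot_le fun e => c (by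
    rw [Subgroup.mem_bot.1 (e hx)]
    exact Commute.one_right g)
  obtain ⟨k, k1, k2⟩ := hg
  refine ⟨C, B, b, hB, x, hx, fun e => c (cp1 pA (hB.le.trans b) k1 k2 (fun w hw => ?_) e)⟩
  exact by_contra fun e' => m B ⟨hB.nB, hB.le.trans b, w, hw, e'⟩
    (lt_of_le_of_ne hB.le fun f => hB.ne f.ge)

theorem bad (h : Nd Q P Y θ) : ∃ (E E₀ : Subgroup G) (θ' : G → A), Top E E₀ ∧ E ≤ Q ∧
    MulOn E θ' ∧ (∀ x ∈ E₀, θ' x = 1) ∧
      ∀ g, g ∈ Stab Q θ ↔ ∀ x ∈ E, θ' (g * x * g⁻¹) = θ' x := by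
  have nQ : Q.Normal := inferInstance
  have := Fintype.ofFinite (G ⧸ Stab Q θ)
  obtain ⟨E, ⟨nE, EQ, hE⟩, m⟩ := (wellFounded_lt (α := Subgroup G)).has_min
    {E | E.Normal ∧ E ≤ Q ∧ ¬ ∀ g, ∀ x ∈ E, θ (g * x * g⁻¹) = θ x}
    ⟨Q, nQ, le_rfl, fun e => h.um.ne (eq_top_iff.2 fun g _ => e g)⟩
  let φ : Q →* A := MonoidHom.mk' (fun x => θ x) fun x y => h.mul x x.2 y y.2
  have hc : ∀ g, ∀ x ∈ Q, g⁻¹ * x * g ∈ Q := fun g x hx => nQ.conj_mem' x hx g
  let τ : G → A := fun x => ∏ q : G ⧸ Stab Q θ, θ (q.out⁻¹ * x * q.out)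
  have hτ : ∀ g, ∀ x ∈ Q, τ (g * x * g⁻¹) = τ x := fun g x hx => by
    refine (Fintype.prod_equiv (MulAction.toPerm g) _ _ fun q => ?_).symm
    have k : (g • q).out⁻¹ * (g * q.out) ∈ Stab Q θ := QuotientGroup.eq.1 (by
      rw [QuotientGroup.out_eq']
      conv_lhs => rw [← QuotientGroup.out_eq' q]
      rfl)
    rw [← k _ (hc q.out x hx)]
    congr 1
    change _ = (g • q).out⁻¹ * _ * (g • q).out
    group
  let E₀ : Subgroup G :=
    { carrier := {x | x ∈ E ∧ ∀ g, θ (g * x * g⁻¹) = θ x}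
      one_mem' := ⟨E.one_mem, fun g => by simp⟩
      mul_mem' := fun {a b} ha hb => ⟨E.mul_mem ha.1 hb.1, fun g => by
        rw [← conj_mul, h.mul _ (nQ.conj_mem a (EQ ha.1) g) _ (nQ.conj_mem b (EQ hb.1) g),
          h.mul _ (EQ ha.1) _ (EQ hb.1), ha.2, hb.2]⟩
      inv_mem' := fun {a} ha => ⟨E.inv_mem ha.1, fun g => by
        have k1 := φ.map_inv ⟨_, EQ ha.1⟩
        have k2 := φ.map_inv ⟨_, nQ.conj_mem a (EQ ha.1) g⟩
        change θ _ = (θ _)⁻¹ at k1 k2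
        rw [← conj_inv]
        exact k2.trans ((congrArg _ (ha.2 g)).trans k1.symm)⟩ }
  have key : ∀ g, (∀ x ∈ E, θ (g * x * g⁻¹) ^ (Stab Q θ).index / τ (g * x * g⁻¹) =
      θ x ^ (Stab Q θ).index / τ x) ↔ g ∈ Stab E θ := fun g => by
    refine forall₂_congr fun x hx => ?_
    rw [hτ g x (EQ hx), div_left_inj]
    refine ⟨fun e => ?_, fun e => by rw [e]⟩
    let y : Q := ⟨_, nQ.conj_mem x (EQ hx) g⟩ * ⟨x, EQ hx⟩⁻¹
    obtain ⟨n, hn⟩ := h.pP.to_le h.QP y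
    have k : φ y = θ (g * x * g⁻¹) / θ x := by
      rw [map_mul, map_inv, div_eq_mul_inv]
      rfl
    rw [← div_eq_one, ← k]
    refine (pow_eq_one_iff_of_coprime (Nat.Coprime.pow_left n
      ((Nat.Prime.coprime_iff_not_dvd Nat.prime_three).2 h.um.idx))).1 ⟨?_, ?_⟩
    · rw [← map_pow, hn, map_one]
    · rw [k, div_pow, e, div_self']
  refine ⟨E, E₀, fun x => θ x ^ (Stab Q θ).index / τ x, ⟨nE, ⟨fun x hx g =>
    ⟨nE.conj_mem x hx.1 g, fun k => ?_⟩⟩, fun _ hx => hx.1, fun e => hE fun g x hx => (e hx).2 g,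
    fun K nK k => or_iff_not_imp_left.2 fun e x hx => ⟨k hx, fun g => ?_⟩⟩, EQ,
    fun x hx y hy => ?_, fun x hx => ?_, fun g => ?_⟩
  · rw [hx.2 g, ← hx.2 (k * g)]
    congr 1
    group
  · exact by_contra fun e' => m K ⟨nK, k.trans EQ, fun f => e' (f g x hx)⟩ (lt_of_le_of_ne k e)
  · simp only [τ]
    rw [h.mul x (EQ hx) y (EQ hy), mul_pow, div_mul_div_comm, ← Finset.prod_mul_distrib]
    congr 2
    funext q
    rw [← h.mul _ (hc _ x (EQ hx)) _ (hc _ y (EQ hy))]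
    congr 1
    group
  · rw [div_eq_one, Subgroup.index, Nat.card_eq_fintype_card, ← Finset.card_univ,
      ← Finset.prod_const]
    exact Finset.prod_congr rfl fun q _ => by simpa using (hx.2 q.out⁻¹).symm
  · rw [key]
    have k : Stab Q θ ≤ Stab E θ := fun g hg x hx => hg x (EQ hx)
    exact ⟨fun e => k e, fun e => (h.um.um _ (h.um.le.trans k)).resolve_right
      (fun f => hE fun g => (f.ge (Subgroup.mem_top g) :)) e⟩

end Pool.Agent.MP_a5588a_al.Full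

end

section

namespace Pool.Agent.MP_a5588a_al.Full

open Pool.Agent.MP_a5588a_al.Solv
open scoped commutatorElement

universe u v

section forms

variable {V W : Type*} [AddCommGroup V] [AddCommGroup W] {β : V →+ V →+ W}
  {a : AddMonoid.End V}

lemma adj_FStable (hi : ∀ v w, β (a v) (a w) = β v w) (u w : V) :
    β (a (a u - u) - (a u - u)) (a w) = β (a u) (a (a w - w) - (a w - w)) := by
  simp only [map_sub, AddMonoidHom.sub_apply, hi]
  abel

lemma zero_FStable (hi : ∀ v w, β (a v) (a w) = β v w) (al : ∀ v, β v v = 0) (c : V) :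
    β (a (a c - c) - (a c - c)) (a c) = 0 := by
  have := al (a c - c)
  simp only [map_sub, AddMonoidHom.sub_apply, hi] at this ⊢
  rw [← neg_eq_zero, ← this]
  abel

lemma rank_FStable (hi : ∀ v w, β (a v) (a w) = β v w) (al : ∀ v, β v v = 0)
    (nd : ∀ x, (∀ v, β v x = 0) → x = 0) (su : Function.Surjective a) {T : V → V}
    (hT : ∀ v, T v = a (a v - v) - (a v - v)) {l : V} (hl : T l ≠ 0) (c₀ : V) :
    ∃ c, T c ≠ 0 ∧ -T c₀ + T c ≠ 0 ∧ T c₀ + T c ≠ 0 := by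
  by_contra hn
  have key : ∀ c, T c = 0 ∨ T c = T c₀ ∨ T c = -T c₀ := by
    intro c
    by_contra hc
    rw [not_or, not_or] at hc
    exact hn ⟨c, hc.1, fun e => hc.2.1 (neg_add_eq_zero.1 e).symm,
      fun e => hc.2.2 (eq_neg_of_add_eq_zero_right e)⟩
  have z : β (T c₀) (a c₀) = 0 := by rw [hT]; exact zero_FStable hi al c₀
  have z0 : T c₀ = 0 := by
    refine nd _ fun v => ?_
    obtain ⟨u, rfl⟩ := su v
    rw [hT, ← adj_FStable hi, ← hT]
    rcases key u with e | e | e <;> simp [e, z]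
  rcases key l with e | e | e <;> simp [e, z0] at hl

lemma quad_FStable (hi : ∀ v w, β (a v) (a w) = β v w) (nd : ∀ x, (∀ v, β v x = 0) → x = 0)
    (su : Function.Surjective a) (hz : ∀ u v, β (a u - u) (a v - v) = 0) (v : V) :
    a (a v - v) - (a v - v) = 0 := by
  refine nd _ fun w => ?_
  obtain ⟨u, rfl⟩ := su w
  have := hz u v
  simp only [map_sub, AddMonoidHom.sub_apply, hi] at this ⊢
  rw [← neg_eq_zero, ← this]
  abel

end forms

variable {G : Type u} [Group G] [Finite G] {A : Type v} [CommGroup A] {Q P : Subgroup G} [Q.Normal]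
  {Y : Set G} {θ : G → A}

omit [Finite G] in
lemma nm_FStable {H K : Subgroup G} {g : G} (hH : g ∈ Subgroup.normalizer (H : Set G))
    (hK : g ∈ Subgroup.normalizer (K : Set G)) :
    g ∈ Subgroup.normalizer ((⁅H, K⁆ : Subgroup G) : Set G) := by
  rw [Subgroup.mem_normalizer_iff_map_conj_eq] at hH hK ⊢
  rw [Subgroup.map_commutator, hH, hK]

omit [Finite G] in
lemma cn_FStable {D : Subgroup G} {g : G} (h : ∀ x ∈ D, Commute g x) :
    g ∈ Subgroup.normalizer (D : Set G) :=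
  Subgroup.centralizer_le_normalizer _ fun x hx => (h x hx).symm.eq

lemma form_FStable (h : Nd Q P Y θ) {Γ Γ₀ : Subgroup G} (hΓ : Top Γ Γ₀) (hQ : Γ ≤ Q)
    (hc : ∀ c ∈ Γ₀, ∀ x ∈ Γ, c * x = x * c) (h1 : ⁅Γ, Γ⁆ ≤ Γ₀) {g₀ : G} (hg : g₀ ∉ Stab Q θ)
    (cg : ∀ x ∈ ⁅Γ, Γ⁆, Commute g₀ x) {V : Type*} [AddCommGroup V] {ρ : G →* AddMonoid.End V}
    {π : G → V} (s : Sect (MonoidHom.id G) Γ Γ₀ ρ π) (hs : Smp ρ) {D : Subgroup G}
    (hD : D.Normal) (hle : D ≤ ⁅Γ, Γ⁆) (hne : ¬ ⁅Γ, Γ⁆ ≤ D) :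
    ∃ (W : Type u) (_ : AddCommGroup W) (β : V →+ V →+ W),
      (∀ g v w, β (ρ g v) (ρ g w) = β v w) ∧ (∀ v, β v v = 0) ∧
        (∀ x, (∀ v, β v x = 0) → x = 0) ∧
          ∀ x ∈ Γ, ∀ y ∈ Γ, ⁅x, y⁆ ∈ D → β (π x) (π y) = 0 := by
  have := hΓ.nC
  have n' : (⁅Γ, Γ⁆ : Subgroup G).Normal := inferInstance
  have le' : ⁅Γ, Γ⁆ ≤ Γ := Subgroup.commutator_le_right _ _
  obtain ⟨B, hB, cB⟩ := exists_chief n' hD hle hne
  have := cB.nB
  obtain ⟨W, iW, fW, σ, p, t, t3, ts, -⟩ := cB.sect h.nP h.pP (le'.trans (hQ.trans h.QP))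
  have one : ∀ {x y : G}, x * y = y * x → ⁅x, y⁆ ∈ B := fun e => by
    rw [commutatorElement_eq_one_iff_mul_comm.2 e]; exact B.one_mem
  have tr : ∀ g, σ g = 1 := by
    by_contra nt
    exact hg (h.um.f2 t3 ts (not_forall.1 nt) g₀
      (t.triv (fun g x hx => n'.conj_mem x hx g) fun x hx => one (cg x hx).eq))
  have nn : ∀ g : G, ∀ x ∈ Γ, MonoidHom.id G g * x * (MonoidHom.id G g)⁻¹ ∈ Γ :=
    fun g x hx => hΓ.nC.conj_mem x hx g
  have cm : ∀ x ∈ Γ, ∀ y ∈ Γ, ⁅x, y⁆ ∈ ⁅Γ, Γ⁆ := fun x hx y hy =>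
    Subgroup.commutator_mem_commutator hx hy
  obtain ⟨β, b1, b2⟩ := Solv.exists_pair s s t nn nn cm (fun x _ hx y hy => one (hc x hx y hy))
    (fun x hx y _ hy => one (hc y hy x hx).symm) (fun z hz x hx => one (hc z (h1 hz) x hx).symm)
    (fun z hz x hx => one (hc z (h1 hz) x hx).symm)
  have hi : ∀ g v w, β (ρ g v) (ρ g w) = β v w := fun g v w => by rw [b2, tr]; rfl
  refine ⟨W, iW, β, hi, fun v => ?_, fun x hx => ?_, fun x hx y hy hd => ?_⟩
  · obtain ⟨x, hx, rfl⟩ := s.surj v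
    rw [b1 x hx x hx, commutatorElement_self, t.one]
  · let U : AddSubgroup V :=
      { carrier := {x | ∀ v, β v x = 0}
        zero_mem' := fun v => map_zero _
        add_mem' := fun {a b} ha hb v => by rw [map_add, ha v, hb v, add_zero]
        neg_mem' := fun {a} ha v => by rw [map_neg, ha v, neg_zero] }
    have iU : Inv ρ ⊤ U := fun g _ x hx v => by
      have e : v = ρ g (ρ g⁻¹ v) := by
        change v = (ρ g * ρ g⁻¹) v
        rw [← map_mul, mul_inv_cancel, map_one]; rfl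
      rw [e, hi]; exact hx _
    rcases hs U iU with e | e
    · exact AddSubgroup.mem_bot.1 (e ▸ (hx : x ∈ U))
    · refine absurd (Subgroup.commutator_le.2 fun x hx y hy => ?_) cB.ne
      have : π y ∈ U := e ▸ AddSubgroup.mem_top _
      exact (t.ker _ (cm x hx y hy)).1 ((b1 x hx y hy).symm.trans (this _))
  · rw [b1 x hx y hy]
    exact (t.ker _ (cm x hx y hy)).2 (hB hd)

theorem stable (h : Nd Q P Y θ) {Γ Γ₀ : Subgroup G} (hΓ : Top Γ Γ₀) (hQ : Γ ≤ Q)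
    (hc : ∀ c ∈ Γ₀, ∀ x ∈ Γ, c * x = x * c) (na : ¬ Abl Γ)
    (st : ∀ F : Subgroup G, F.Normal → F ≤ Q → Abl F → ∀ g, El3' g → ∀ x ∈ F, Commute g x)
    (nq : ∀ y ∈ Y, y ∉ P → ∃ l ∈ Γ, ⁅y, ⁅y, l⁆⁆ ∉ Γ₀) : Wt Q Y P Γ := by
  have := hΓ.nC
  have hP : Γ ≤ P := hQ.trans h.QP
  have h0 : ⁅Γ, P⁆ ≤ Γ₀ := hΓ.chief.comm h.nP h.pP hP
  have h1 : ⁅Γ, Γ⁆ ≤ Γ₀ := (Subgroup.commutator_mono le_rfl hP).trans h0
  have le' : ⁅Γ, Γ⁆ ≤ Γ := h1.trans hΓ.le
  obtain ⟨g₀, hg, g3⟩ := h.um.ex3'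
  have cg : ∀ x ∈ ⁅Γ, Γ⁆, Commute g₀ x :=
    st _ inferInstance (le'.trans hQ) (fun c a d b => hc c (h1 a) d (le' b)) g₀ g3
  obtain ⟨V, iV, fV, ρ, π, s, -, hs, -⟩ := hΓ.chief.sect h.nP h.pP hP
  have nn : ∀ g : G, ∀ x ∈ Γ, MonoidHom.id G g * x * (MonoidHom.id G g)⁻¹ ∈ Γ :=
    fun g x hx => hΓ.nC.conj_mem x hx g
  have cm : ∀ g : G, ∀ x ∈ Γ, ⁅g, x⁆ ∈ Γ := fun g x hx => Γ.mul_mem (nn g x hx) (Γ.inv_mem hx)
  have c1 : ∀ g : G, ∀ x ∈ Γ, π ⁅g, x⁆ = ρ g (π x) - π x := fun g x hx => s.comm nn g hx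
  have c2 : ∀ g : G, ∀ x ∈ Γ, π ⁅g, ⁅g, x⁆⁆ = ρ g (ρ g (π x) - π x) - (ρ g (π x) - π x) :=
    fun g x hx => by rw [c1 g _ (cm g x hx), c1 g x hx]
  have su : ∀ g, Function.Surjective (ρ g) := fun g v => ⟨ρ g⁻¹ v, by
    change (ρ g * ρ g⁻¹) v = v
    rw [← map_mul, mul_inv_cancel, map_one]; rfl⟩
  have ne : ∃ y ∈ Y, y ∉ P := by
    by_contra hn
    refine h.um.nn P h.nP h.pP (sup_le le_rfl (sup_le h.QP ((Subgroup.closure_le _).2 ?_)))
    intro y hy
    by_contra hy'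
    exact hn ⟨y, hy, hy'⟩
  refine ⟨h.QP, ne, hQ, fun y _ c hx => nn y c hx, fun c a z b => (hc z (h0 b) c a).symm,
    fun y hy hy' => ?_, Or.inr fun y hy hy' c₀ m₀ => ?_, Or.inr ⟨fun y hy hy' => ?_, ?_⟩⟩
  · obtain ⟨l, hl, e⟩ := nq y hy hy'
    exact ⟨l, hl, fun e' => e (e' ▸ Γ₀.one_mem)⟩
  · have nb : ¬ ⁅Γ, Γ⁆ ≤ ⊥ := fun e => na fun c a d b => commutatorElement_eq_one_iff_mul_comm.1
      (Subgroup.mem_bot.1 (e (Subgroup.commutator_mem_commutator a b)))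
    obtain ⟨W, iW, β, hi, al, nd, -⟩ :=
      form_FStable h hΓ hQ hc h1 hg cg s hs inferInstance bot_le nb
    obtain ⟨l, hl, e⟩ := nq y hy hy'
    let T : V →+ V := (ρ y - 1) * (ρ y - 1)
    have hT : ∀ v, T v = ρ y (ρ y v - v) - (ρ y v - v) := fun v => rfl
    have k : ∀ x ∈ Γ, T (π x) ≠ 0 → ⁅y, ⁅y, x⁆⁆ ≠ 1 := fun x hx e e' =>
      e (by rw [hT, ← c2 y x hx, e', s.one])
    obtain ⟨c, e1, e2, e3⟩ := rank_FStable (hi y) al nd (su y) hT (l := π l)
      (fun e' => e ((s.ker _ (cm y _ (cm y l hl))).1 (by rw [c2 y l hl, ← hT, e']))) (π c₀)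
    obtain ⟨x, hx, rfl⟩ := s.surj c
    refine ⟨x, hx, k x hx e1, k _ (Γ.mul_mem (Γ.inv_mem m₀) hx) ?_, k _ (Γ.mul_mem m₀ hx) ?_⟩
    · rwa [s.add _ (Γ.inv_mem m₀) x hx, s.inv m₀, map_add, map_neg]
    · rwa [s.add _ m₀ x hx, map_add]
  · obtain ⟨l, hl, e⟩ := nq y hy hy'
    exact ⟨l, hl, fun e' => e (h1 e')⟩
  · by_contra hne
    have lL : ⁅EE Q Y, Γ⁆ ≤ Γ := Subgroup.commutator_le_right _ _
    have hle : ⁅⁅EE Q Y, Γ⁆, ⁅EE Q Y, Γ⁆⁆ ≤ ⁅Γ, Γ⁆ := Subgroup.commutator_mono lL lL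
    have cP : ∀ p ∈ P, ⁅Γ, Γ⁆ ≤ Subgroup.centralizer {p} := by
      intro p hp
      refine Subgroup.commutator_le.2 fun x hx z hz => Subgroup.mem_centralizer_singleton_iff.2 ?_
      have m : ∀ w ∈ Γ, ⁅p, w⁆ ∈ Γ₀ := fun w hw =>
        h0 (Subgroup.commutator_comm P Γ ▸ Subgroup.commutator_mem_commutator hp hw)
      have a1 : Commute ⁅p, x⁆ ⁅x, z⁆ := hc _ (m x hx) _ (cm x z hz)
      have a2 : Commute ⁅p, x⁆ z := hc _ (m x hx) _ hz
      have a3 : Commute ⁅p, z⁆ x := hc _ (m z hz) _ hx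
      have a4 : Commute ⁅p, z⁆ z := hc _ (m z hz) _ hz
      have a5 : Commute ⁅p, x⁆ ⁅p, z⁆ := hc _ (m x hx) _ (cm p z hz)
      have a6 : Commute ⁅p, x⁆ x := hc _ (m x hx) _ hx
      have e : p * ⁅x, z⁆ * p⁻¹ = ⁅⁅p, x⁆ * x, ⁅p, z⁆ * z⁆ := by group
      generalize ⁅p, x⁆ = c at *
      generalize ⁅p, z⁆ = d at *
      have e1 : ⁅x, d * z⁆ = ⁅x, z⁆ := by
        rw [show ⁅x, d * z⁆ = x * d * z * x⁻¹ * z⁻¹ * d⁻¹ by group, ← a3.eq,
          show d * x * z * x⁻¹ * z⁻¹ * d⁻¹ = d * ⁅x, z⁆ * d⁻¹ by group,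
          (show Commute d ⁅x, z⁆ from
            ((a3.mul_right a4).mul_right a3.inv_right).mul_right a4.inv_right).eq,
          mul_inv_cancel_right]
      rw [show ⁅c * x, d * z⁆ = c * ⁅x, d * z⁆ * c⁻¹ * ⁅c, d * z⁆ by group, e1, a1.eq,
        (a5.mul_right a2).commutator_eq, mul_one, mul_inv_cancel_right] at e
      exact (mul_inv_eq_iff_eq_mul.1 e).symm
    have hD : (⁅⁅EE Q Y, Γ⁆, ⁅EE Q Y, Γ⁆⁆ : Subgroup G).Normal := by
      rw [← Subgroup.normalizer_eq_top_iff]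
      refine (h.um.um _ (sup_le (fun p hp => cn_FStable fun x hx => ?_) fun e he => ?_)).resolve_left
        fun hM => hg (hM (cn_FStable fun x hx => cg x (hle hx)))
      · exact (Subgroup.mem_centralizer_singleton_iff.1 (cP p hp (hle hx))).symm
      · exact nm_FStable (Subgroup.normalizer_commutator_ge_left _ _ he)
          (Subgroup.normalizer_commutator_ge_left _ _ he)
    obtain ⟨W, iW, β, hi, -, nd, hz⟩ := form_FStable h hΓ hQ hc h1 hg cg s hs hD hle hne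
    obtain ⟨y, hy, hy'⟩ := ne
    obtain ⟨l, hl, e⟩ := nq y hy hy'
    have yE : y ∈ EE Q Y := Subgroup.mem_sup_right (Subgroup.subset_closure hy)
    refine e ((s.ker _ (cm y _ (cm y l hl))).1 ?_)
    rw [c2 y l hl]
    refine quad_FStable (hi y) nd (su y) (fun u v => ?_) _
    obtain ⟨x, hx, rfl⟩ := s.surj u
    obtain ⟨z, hz', rfl⟩ := s.surj v
    rw [← c1 y x hx, ← c1 y z hz']
    exact hz _ (cm y x hx) _ (cm y z hz') (Subgroup.commutator_mem_commutator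
      (Subgroup.commutator_mem_commutator yE hx) (Subgroup.commutator_mem_commutator yE hz'))

end Pool.Agent.MP_a5588a_al.Full

end
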