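import Pool.Agent.Mg.Fa5588aa.G63f2b0
import Pool.Agent.Mg.Fa5588aa.Ge45d38

section

/-! The configuration for the three axes argument. -/

namespace Pool.Agent.MP_a5588a_al.Full

open Pool.Agent.MP_a5588a_al.Solv
open scoped commutatorElement

universe u v

variable {G : Type u} {V : Type v} [Group G] [Finite G] [AddCommGroup V] [Finite V]
  {ρ : G →* AddMonoid.End V} {M : Subgroup G}

/-- The cyclic groups generated by quadratic elements. -/
def fam_FH2a (ρ : G →* AddMonoid.End V) : Set (Subgroup G) :=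
  {C | ∃ x, Quad ρ x ∧ C = Subgroup.zpowers x}

theorem conj_FH2a : ∀ C ∈ fam_FH2a ρ, ∀ g : G, C.map (MulAut.conj g).toMonoidHom ∈ fam_FH2a ρ := by
  rintro _ ⟨x, hx, rfl⟩ g
  exact ⟨g * x * g⁻¹, hx.conj g, MonoidHom.map_zpowers _ _⟩

omit [Finite G] [Finite V] in
theorem le_iff_FH2a {S K : Subgroup G} :
    gn (fam_FH2a ρ) S ≤ K ↔ ∀ x ∈ S, Quad ρ x → x ∈ K := by
  rw [gn, sSup_le_iff]
  refine ⟨fun h x hx hq => Subgroup.zpowers_le.1 (h _ ⟨⟨x, hq, rfl⟩, Subgroup.zpowers_le.2 hx⟩), ?_⟩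
  rintro h _ ⟨⟨x, hq, rfl⟩, hx⟩
  exact Subgroup.zpowers_le.2 (h x (Subgroup.zpowers_le.1 hx) hq)

omit [Finite G] [Finite V] in
theorem mem_FH2a {S : Subgroup G} {x : G} (hx : x ∈ S) (hq : Quad ρ x) : x ∈ gn (fam_FH2a ρ) S :=
  le_iff_FH2a.1 le_rfl x hx hq

omit [Finite G] [Finite V] in
theorem le_FH2a (S : Subgroup G) : gn (fam_FH2a ρ) S ≤ S := le_iff_FH2a.2 fun _ hx _ => hx

omit [Finite G] [Finite V] in
theorem mono_FH2a {S K : Subgroup G} (h : S ≤ K) : gn (fam_FH2a ρ) S ≤ gn (fam_FH2a ρ) K :=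
  le_iff_FH2a.2 fun _ hx hq => mem_FH2a (h hx) hq

theorem gen_FH2a {Y : Set G} (h : QN ρ Y M) {K : Subgroup G} {m : G}
    (hK : ∀ r ∈ Subgroup.closure Y, m * r * m⁻¹ ∈ K) :
    Subgroup.closure Y ≤ (gn (fam_FH2a ρ) K).comap (MulAut.conj m).toMonoidHom :=
  (Subgroup.closure_le _).2 fun y hy =>
    mem_FH2a (hK y (Subgroup.subset_closure hy)) ((h.quad y hy).conj m)

theorem syl_FH2a {Y : Set G} (h : QN ρ Y M) (S : Sylow 3 G) (hS : (S : Subgroup G) ≤ M) :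
    UFix (gn (fam_FH2a ρ) S) M := by
  obtain ⟨m, mM, S', p1, p2, -, p3⟩ := h.um.conj_le S.isPGroup' hS
  rw [S.is_maximal' p1 p2] at p3
  intro g hg
  have := h.um.ufix (m⁻¹ * g) fun r hr => by
    simpa [mul_assoc] using hg (m * r * m⁻¹) (gen_FH2a h p3 hr)
  simpa using M.mul_mem mM this

theorem h2_setup {Y : Set G} (h : QN ρ Y M) {d g : G} (dM : d ∈ M) (d1 : d ≠ 1) (hd : Quad ρ d)
    (hg : g⁻¹ * d * g ∈ M) (gM : g ∉ M) :
    ∃ (D : Subgroup G) (z u : G), Ax ρ D z u ∧ IsPGroup 3 (D3 D z) ∧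
      UFix (D ⊔ Subgroup.zpowers (z * u * z⁻¹)) M ∧
        ¬ Subgroup.normalizer (D : Set G) ≤ M := by
  have d3 : d ^ 3 = 1 := h.inj (by rw [map_pow, hd.cube h.three, map_one])
  obtain ⟨D, pD, gD, DM, -, cD, hmax, nD⟩ := mx (D₁ := Subgroup.zpowers d) conj_FH2a h.um.idx
    (syl_FH2a h) (by
      rintro ⟨_, n, rfl⟩
      exact ⟨1, Subtype.ext (show (d ^ n) ^ 3 = 1 by
        rw [← zpow_natCast, ← zpow_mul, mul_comm, zpow_mul, zpow_natCast, d3, one_zpow])⟩)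
    ((le_FH2a _).antisymm (Subgroup.zpowers_le.2 (mem_FH2a (Subgroup.mem_zpowers d) hd)))
    (Subgroup.zpowers_le.2 dM) fun hu => gM (hu g (by
      rintro _ ⟨n, rfl⟩
      have e := conj_zpow (i := n) (a := g⁻¹) (b := d)
      rw [inv_inv] at e
      exact e ▸ M.zpow_mem hg n))
  have D0 : D ≠ ⊥ := (Subgroup.one_lt_card_iff_ne_bot D).1
    (((Subgroup.one_lt_card_iff_ne_bot _).2 (Subgroup.zpowers_ne_bot.2 d1)).trans_le cD)
  obtain ⟨m, mM, S, pS, DS, SM, RS⟩ := h.um.conj_le pD DM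
  have h1 : gn (fam_FH2a ρ) (S ⊓ Subgroup.normalizer (D : Set G)) ≤
      Subgroup.normalizer (D : Set G) := (le_FH2a _).trans inf_le_right
  have h2 : D ≤ gn (fam_FH2a ρ) (S ⊓ Subgroup.normalizer (D : Set G)) :=
    gD.ge.trans (mono_FH2a (le_inf DS Subgroup.le_normalizer))
  obtain ⟨_, ⟨z, qz, rfl⟩, zS, zN, zR⟩ := chain conj_FH2a pS ((le_FH2a _).trans inf_le_left)
    ((le_FH2a _).antisymm (le_iff_FH2a.2 fun x hx hq => mem_FH2a (mem_FH2a hx hq) hq))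
    (D := gn (fam_FH2a ρ) (S ⊓ Subgroup.normalizer (D : Set G))) fun e => by
      rcases h.um.um _ ((gen_FH2a h RS).trans (Subgroup.comap_mono (e.le.trans h1))) with k | k
      · refine nD fun n hn => ?_
        have : m⁻¹ * n * m ∈ M := k (by simpa [mul_assoc] using hn)
        simpa [mul_assoc] using M.mul_mem (M.mul_mem mM this) (M.inv_mem mM)
      · have hN : D.Normal := Subgroup.normalizer_eq_top_iff.1 (top_unique fun n _ => by
          simpa [mul_assoc] using k.ge (Subgroup.mem_top (m⁻¹ * n * m)))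
        exact D0 (bot_unique fun x hx =>
          h.inj ((o3_triv h.three h.smp hN pD x hx).trans (map_one ρ).symm))
  rw [Subgroup.zpowers_le] at zS zN zR
  obtain ⟨u, uD, qu, hu⟩ : ∃ u ∈ D, Quad ρ u ∧ z * u * z⁻¹ ∉ D := by
    by_contra hn
    push Not at hn
    refine zR (mem_FH2a ⟨zS, Subgroup.mem_normalizer_fintype fun x hx => ?_⟩ qz)
    exact (gD.ge.trans (le_iff_FH2a.2 hn : _ ≤ D.comap (MulAut.conj z).toMonoidHom)) hx
  have uS : z * u * z⁻¹ ∈ S := S.mul_mem (S.mul_mem zS (DS uD)) (S.inv_mem zS)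
  have hle : D ⊔ Subgroup.zpowers (z * u * z⁻¹) ≤ S := sup_le DS (Subgroup.zpowers_le.2 uS)
  have hmem : z * u * z⁻¹ ∈ D ⊔ Subgroup.zpowers (z * u * z⁻¹) :=
    Subgroup.mem_sup_right (Subgroup.mem_zpowers _)
  refine ⟨D, z, u, ⟨h.three, h.inj, qz, qu, uD,
    fun x hx => h1 ((Subgroup.mem_normalizer_iff.1 zN x).1 (h2 hx)),
    fun x hx => h1 ((Subgroup.mem_normalizer_iff''.1 zN x).1 (h2 hx))⟩,
    pS.to_le ((Subgroup.closure_le _).2 ?_), fun k hk => ?_, nD⟩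
  · rintro x (hx | hx | hx)
    · exact DS hx
    · simpa [mul_assoc] using S.mul_mem (S.mul_mem zS (DS hx)) (S.inv_mem zS)
    · simpa [mul_assoc] using S.mul_mem (S.mul_mem (S.inv_mem zS) (DS hx)) zS
  · simpa using hmax _ (pS.to_le hle) ((le_FH2a _).antisymm (sup_le
      (gD.ge.trans (mono_FH2a le_sup_left)) (Subgroup.zpowers_le.2 (mem_FH2a hmem (qu.conj z)))))
      (lt_of_not_ge fun e => hu (Subgroup.eq_of_le_of_card_ge le_sup_left e ▸ hmem)) 1 k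
      (fun x hx => by simpa using SM (hle hx)) hk

end Pool.Agent.MP_a5588a_al.Full

end

section

/-! The three axes argument. -/

namespace Pool.Agent.MP_a5588a_al.Full

open Pool.Agent.MP_a5588a_al.Solv
open scoped commutatorElement

universe u v

section aux

variable {G : Type u} {V : Type v} [Group G] [AddCommGroup V] {ρ : G →* AddMonoid.End V}
  {D : Subgroup G} {z u : G}

theorem mul_FAx (a b : G) (v : V) : ρ (a * b) v = ρ a (ρ b v) := by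
  rw [map_mul]
  rfl

theorem one_FAx (v : V) : ρ 1 v = v := by
  rw [map_one]
  rfl

theorem can_FAx (a : G) (v : V) : ρ a (ρ a⁻¹ v) = v := by rw [← mul_FAx, mul_inv_cancel, one_FAx]

theorem can'_FAx (a : G) (v : V) : ρ a⁻¹ (ρ a v) = v := by rw [← mul_FAx, inv_mul_cancel, one_FAx]

theorem three_FAx (h3 : (3 : AddMonoid.End V) = 0) (w : V) : w + w + w = 0 := by
  have : (1 + 1 + 1 : AddMonoid.End V) = 0 := by rw [← h3]; norm_num
  exact DFunLike.congr_fun this w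

theorem sq_FAx (h3 : (3 : AddMonoid.End V) = 0) {x : G} (q : Quad ρ x) (w : V) :
    ρ x (ρ x w) = -w - ρ x w := by
  have e : ρ x (ρ x w - w) - (ρ x w - w) = 0 := DFunLike.congr_fun q w
  rw [map_sub] at e
  linear_combination (norm := abel) e + three_FAx h3 (ρ x w)

theorem inv_FAx (h3 : (3 : AddMonoid.End V) = 0) {x : G} (q : Quad ρ x) (w : V) :
    ρ x⁻¹ w = -w - ρ x w := by
  have e := sq_FAx h3 q (ρ x⁻¹ w)
  rw [can_FAx] at e
  linear_combination (norm := abel) e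

theorem nrm_FAx {x : G} (n : x ∈ Subgroup.normalizer (D : Set G)) {v : V} (hv : v ∈ Fx ρ D) :
    ρ x v ∈ Fx ρ D := fun d hd => by
  have := congrArg (ρ x) (hv _ ((Subgroup.mem_normalizer_iff''.1 n d).1 hd))
  rwa [mul_FAx, mul_FAx, can_FAx] at this

/-- The stabiliser of a vector. -/
def St_FAx (ρ : G →* AddMonoid.End V) (v : V) : Subgroup G where
  carrier := {g | ρ g v = v}
  one_mem' := one_FAx v
  mul_mem' {a b} ha hb := (mul_FAx a b v).trans ((congrArg (ρ a) hb).trans ha)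
  inv_mem' {a} ha := (congrArg (ρ a⁻¹) ha).symm.trans (can'_FAx a v)

/-- The stabiliser of a vector modulo the fixed points. -/
def Kp_FAx (ρ : G →* AddMonoid.End V) (H : Subgroup G) (v : V) : Subgroup G where
  carrier := {g | g ∈ H ∧ ρ g v - v ∈ Fx ρ H}
  one_mem' := ⟨H.one_mem, by rw [one_FAx, sub_self]; exact zero_mem _⟩
  mul_mem' {a b} ha hb := ⟨H.mul_mem ha.1 hb.1, by
    have e := hb.2 a ha.1
    rw [map_sub] at e
    convert add_mem ha.2 hb.2 using 1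
    rw [mul_FAx]
    linear_combination (norm := abel) e⟩
  inv_mem' {a} ha := ⟨H.inv_mem ha.1, by
    have e := ha.2 _ (H.inv_mem ha.1)
    rw [map_sub, can'_FAx] at e
    convert neg_mem ha.2 using 1
    linear_combination (norm := abel) -e⟩

/-- The vectors fixed by the elements of order prime to three. -/
def Nil_FAx (ρ : G →* AddMonoid.End V) (L : Subgroup G) : AddSubgroup V where
  carrier := {v | ∀ g ∈ L, El3' g → ρ g v = v}
  zero_mem' := fun g _ _ => map_zero _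
  add_mem' := fun {a b} ha hb g hg e => by rw [map_add, ha g hg e, hb g hg e]
  neg_mem' := fun {a} ha g hg e => by rw [map_neg, ha g hg e]

theorem nil_FAx {L : Subgroup G} {x : G} (hx : x ∈ L) {v : V} (hv : v ∈ Nil_FAx ρ L) :
    ρ x v ∈ Nil_FAx ρ L := fun g hg ⟨m, h1, h2⟩ => by
  have := congrArg (ρ x) (hv (x⁻¹ * g * x⁻¹⁻¹)
    (L.mul_mem (L.mul_mem (L.inv_mem hx) hg) (L.inv_mem (L.inv_mem hx)))
    ⟨m, h1, by rw [conj_pow, h2, mul_one, mul_inv_cancel]⟩)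
  rwa [inv_inv, mul_FAx, mul_FAx, can_FAx] at this

theorem d0_FAx {x : G} (hx : x ∈ D) : x ∈ D3 D z := Subgroup.subset_closure (.inl hx)

theorem d1_FAx {x : G} (hx : x ∈ D) : z * x * z⁻¹ ∈ D3 D z :=
  Subgroup.subset_closure (.inr (.inl (by simpa [mul_assoc] using hx)))

theorem d2_FAx {x : G} (hx : x ∈ D) : z⁻¹ * x * z ∈ D3 D z :=
  Subgroup.subset_closure (.inr (.inr (by simpa [mul_assoc] using hx)))

theorem le_FAx {v : V} (hv : v ∈ Fx ρ (D3 D z)) : v ∈ Fx ρ D := fun _ hx => hv _ (d0_FAx hx)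

theorem star_FAx (h : Ax ρ D z u) {v : V} (h0 : v ∈ Fx ρ D) (h1 : ρ z v ∈ Fx ρ D) :
    v ∈ Fx ρ (D3 D z) := by
  have h2 : ρ z⁻¹ v ∈ Fx ρ D := inv_FAx h.three h.qz v ▸ sub_mem (neg_mem h0) h1
  refine (Subgroup.closure_le (St_FAx ρ v)).2 ?_
  rintro x (hx | hx | hx) <;> change ρ x v = v
  · exact h0 x hx
  · simpa only [mul_FAx, can_FAx] using congrArg (ρ z) (h2 _ hx)
  · simpa only [mul_FAx, can'_FAx] using congrArg (ρ z⁻¹) (h1 _ hx)

theorem zs_FAx (h : Ax ρ D z u) {v : V} (hv : v ∈ Fx ρ (D3 D z)) : ρ z v ∈ Fx ρ (D3 D z) := by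
  have h1 : ρ z v ∈ Fx ρ D := fun x hx => by
    simpa only [mul_FAx, can_FAx] using congrArg (ρ z) (hv _ (d2_FAx hx))
  exact star_FAx h h1 (sq_FAx h.three h.qz v ▸ sub_mem (neg_mem (le_FAx hv)) h1)

theorem gen_FAx (h : Ax ρ D z u) {x : G} (hx : x ∈ D) {v : V} (hv : v ∈ Fx ρ D) :
    ρ (z * x * z⁻¹) v - v ∈ Fx ρ (D3 D z) ∧ ρ (z⁻¹ * x * z) v - v ∈ Fx ρ (D3 D z) ∧
      ρ x (ρ z v) - ρ z v ∈ Fx ρ (D3 D z) := by
  have e : ρ z (ρ (z * x * z⁻¹) v - v) = -(ρ (z⁻¹ * x * z) v - v) := by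
    simp only [mul_FAx, inv_FAx h.three h.qz, map_sub, map_neg, sq_FAx h.three h.qz, hv x hx]
    abel
  have h1 := star_FAx h (sub_mem (nrm_FAx (h.n1 x hx) hv) hv)
    (e ▸ neg_mem (sub_mem (nrm_FAx (h.n2 x hx) hv) hv))
  have h2 := neg_mem_iff.1 (e ▸ zs_FAx h h1)
  exact ⟨h1, h2, by simpa only [map_sub, mul_FAx, can_FAx] using zs_FAx h h2⟩

theorem ac_FAx {v : V} (hv : ρ u v = v) : ac ρ u z v = ρ u (ρ z v) - ρ z v := by
  change ρ u (ρ z v - v) - (ρ z v - v) + (ρ z (ρ u v - v) - (ρ u v - v)) = _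
  rw [map_sub, hv, sub_self, map_zero]
  abel

theorem dif_FAx (h : Ax ρ D z u) (w : V) :
    ρ (z * u * z⁻¹) w - ρ (z⁻¹ * u * z) w = ρ u (ρ z w) - ρ z (ρ u w) := by
  simp only [mul_FAx, inv_FAx h.three h.qz, map_sub, map_neg]
  abel

end aux

variable {G : Type u} {V : Type v} [Group G] [Finite G] [AddCommGroup V] [Finite V]
  {ρ : G →* AddMonoid.End V} {M : Subgroup G}

variable {D : Subgroup G} {z u : G}

set_option linter.unusedSectionVars false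

theorem Ax.norm (h : Ax ρ D z u) : D3 D z ≤ Subgroup.normalizer (D : Set G) := by
  refine (Subgroup.closure_le _).2 ?_
  rintro x (hx | hx | hx)
  · exact Subgroup.le_normalizer hx
  · simpa [mul_assoc] using h.n1 _ hx
  · simpa [mul_assoc] using h.n2 _ hx

theorem Ax.comm (h : Ax ρ D z u) {x : G} (hx : x ∈ D3 D z) {v : V} (hv : v ∈ Fx ρ D) :
    ρ x v - v ∈ Fx ρ (D3 D z) := by
  refine ((Subgroup.closure_le (Kp_FAx ρ (D3 D z) v)).2 (fun y hy => ?_) hx).2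
  refine ⟨Subgroup.subset_closure hy, ?_⟩
  rcases hy with hy | hy | hy
  · rw [hv y hy, sub_self]
    exact zero_mem _
  · simpa [mul_assoc] using (gen_FAx h hy hv).1
  · simpa [mul_assoc] using (gen_FAx h hy hv).2.1

theorem Ax.u1 (h : Ax ρ D z u) {v : V} (hv : v ∈ Fx ρ D) :
    ρ (z * u * z⁻¹) v = v - ρ z (ac ρ u z v) := by
  simp only [ac_FAx (hv u h.uD), mul_FAx, inv_FAx h.three h.qz, map_sub, map_neg,
    sq_FAx h.three h.qz, hv u h.uD]
  abel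

theorem Ax.e (h : Ax ρ D z u) {v : V} (hv : v ∈ Fx ρ D) :
    ρ (z * u * z⁻¹ * (z⁻¹ * u * z)⁻¹) v = v + ac ρ u z v := by
  have h2 := (gen_FAx h h.uD hv).2.1
  have e1 := h2 _ (inv_mem (d2_FAx h.uD))
  have e2 := h2 _ (d1_FAx h.uD)
  have e3 := dif_FAx h v
  rw [map_sub, can'_FAx, sub_eq_iff_eq_add, ← sub_eq_iff_eq_add'] at e1
  rw [hv u h.uD] at e3
  rw [mul_FAx, ← e1, map_sub, e2, ac_FAx (hv u h.uD)]
  linear_combination (norm := abel) e3

theorem nil0_FAx (h : Ax ρ D z u) {u' : G} (q : Quad ρ u')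
    (n : u' ∈ Subgroup.normalizer (D : Set G)) {v : V} (hv : v ∈ Fx ρ D) {x : G} (hx : x ∈ D) :
    ρ u' (ρ x (ρ z v)) - ρ x (ρ u' (ρ z v)) ∈ Fx ρ (D3 D z) ∧
      ρ u' (ρ x (ρ z v)) - ρ x (ρ u' (ρ z v)) ∈ Nil_FAx ρ (D3 D z ⊔ Subgroup.zpowers u') := by
  have h0 := (gen_FAx h hx hv).2.2
  have h1 := (gen_FAx h ((Subgroup.mem_normalizer_iff''.1 n x).1 hx) hv).2.2
  have h2 := (gen_FAx h ((Subgroup.mem_normalizer_iff.1 n x).1 hx) hv).2.2
  have h3 := three_FAx h.three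
  simp only [mul_FAx, inv_FAx h.three q, map_sub, map_neg] at h1 h2
  obtain ⟨e, he⟩ : ∃ e, e = ρ u' (ρ x (ρ z v)) - ρ x (ρ u' (ρ z v)) := ⟨_, rfl⟩
  have a1 : e ∈ Fx ρ (D3 D z) := by
    convert sub_mem h1 h2 using 1
    rw [he]
    abel
  have a2 : ρ u' e - e ∈ Fx ρ (D3 D z) := by
    convert neg_mem (add_mem h0 (add_mem h1 h2)) using 1
    rw [he, map_sub, sq_FAx h.three q]
    linear_combination (norm := abel) -h3 (ρ u' (ρ x (ρ z v))) -
      h3 (ρ u' (ρ x (ρ u' (ρ z v)))) - h3 (ρ z v)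
  have a3 : ρ u' e - e ∈ Fx ρ (D3 D z ⊔ Subgroup.zpowers u') := fun g hg =>
    sup_le (c := St_FAx ρ (ρ u' e - e)) a2 (Subgroup.zpowers_le_of_mem (by
      change ρ u' _ = _
      rw [map_sub, sq_FAx h.three q]
      linear_combination (norm := abel) -h3 (ρ u' e))) hg
  refine he ▸ ⟨a1, fun g hg g3 => cop h.three g3 ?_⟩
  refine (sup_le (c := Kp_FAx ρ (D3 D z ⊔ Subgroup.zpowers u') e) (fun y hy => ?_)
    (Subgroup.zpowers_le_of_mem ?_) hg).2 g hg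
  · exact ⟨Subgroup.mem_sup_left hy, by rw [a1 y hy, sub_self]; exact zero_mem _⟩
  · exact ⟨Subgroup.mem_sup_right (Subgroup.mem_zpowers u'), a3⟩

theorem Ax.main (h : Ax ρ D z u) {u' : G} (q : Quad ρ u')
    (n : u' ∈ Subgroup.normalizer (D : Set G)) {v : V} (hv : v ∈ Fx ρ D) {g : G}
    (hg : g ∈ D3 D z ⊔ Subgroup.zpowers u') (g3 : El3' g) :
    ρ g (ac ρ u z ((ρ u' - 1) (ac ρ u z v))) = ac ρ u z ((ρ u' - 1) (ac ρ u z v)) := by
  have h3 := three_FAx h.three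
  obtain ⟨c, hc⟩ : ∃ c, c = ρ u (ρ z v) - ρ z v := ⟨_, rfl⟩
  have c1 : c ∈ Fx ρ (D3 D z) := hc ▸ (gen_FAx h h.uD hv).2.2
  have c2 := nrm_FAx n (le_FAx c1)
  have key : ∀ x ∈ D3 D z, ρ x (ρ z v) - ρ z v ∈ Fx ρ (D3 D z) →
      ρ x (ρ u' (ρ z v)) + ρ x (ρ u' c) - ρ u (ρ x (ρ u' (ρ z v))) ∈
        Nil_FAx ρ (D3 D z ⊔ Subgroup.zpowers u') := fun x hx hr => by
    have a1 := nil_FAx (Subgroup.mem_sup_left hx)
      (nil0_FAx h q n hv ((Subgroup.mem_normalizer_iff''.1 (h.norm hx) u).1 h.uD)).2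
    have a2 := le_FAx hr u h.uD
    have a3 : ρ u (ρ x (ρ z v)) = ρ x (ρ z v + c) := by
      rw [map_sub] at a2
      rw [map_add, c1 x hx, hc]
      linear_combination (norm := abel) a2
    simpa only [mul_FAx, a3, can'_FAx, can_FAx, map_sub, map_add] using a1
  have k1 := key _ (d1_FAx h.uD) (by
    rw [mul_FAx, mul_FAx, can'_FAx, hv u h.uD, sub_self]
    exact zero_mem _)
  have k2 := key _ (d2_FAx h.uD) (by
    convert add_mem c1 (zs_FAx h c1) using 1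
    simp only [hc, mul_FAx, inv_FAx h.three h.qz, sq_FAx h.three h.qz, map_sub, map_neg, hv u h.uD]
    abel)
  have d1 := dif_FAx h (ρ u' (ρ z v))
  have d2 := congrArg (ρ u) d1
  have d3 := dif_FAx h (ρ u' c)
  have d4 := le_FAx (zs_FAx h (nil0_FAx h q n hv h.uD).1) u h.uD
  have d5 := le_FAx (zs_FAx h c1) u h.uD
  have d6 : ρ u' c = ρ u' (ρ u (ρ z v)) - ρ u' (ρ z v) := by rw [hc, map_sub]
  have d7 := congrArg (ρ z) d6
  have d8 := congrArg (ρ u) d7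
  simp only [map_sub, sq_FAx h.three h.qu, c2 u h.uD] at d2 d3 d4 d7 d8
  rw [ac_FAx (hv u h.uD), ← hc, show (ρ u' - 1) c = ρ u' c - c from rfl,
    ac_FAx (sub_mem c2 (le_FAx c1) u h.uD)]
  refine (?_ : _ ∈ Nil_FAx ρ (D3 D z ⊔ Subgroup.zpowers u')) g hg g3
  convert neg_mem (sub_mem k1 k2) using 1
  simp only [map_sub, d5]
  linear_combination (norm := abel) d1 + d3 - d2 - d4 - d8 + d7 + h3 (ρ u (ρ z (ρ u' c))) -
    h3 (ρ z (ρ u' c)) + h3 (ρ u (ρ z (ρ u' (ρ z v))))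

end Pool.Agent.MP_a5588a_al.Full

end

section

/-! Every quadratic element fixes only one point. -/

namespace Pool.Agent.MP_a5588a_al.Full

open Pool.Agent.MP_a5588a_al.Solv
open scoped commutatorElement

universe u v

variable {G : Type u} {V : Type v} [Group G] [Finite G] [AddCommGroup V] [Finite V]
  {ρ : G →* AddMonoid.End V} {M : Subgroup G}

omit [Finite G] [Finite V] in
theorem mul_FH2 (ρ : G →* AddMonoid.End V) (g k : G) (v : V) : ρ (g * k) v = ρ g (ρ k v) := by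
  rw [map_mul]
  rfl

omit [Finite G] [Finite V] in
theorem one_FH2 (ρ : G →* AddMonoid.End V) (v : V) : ρ 1 v = v := by
  rw [map_one]
  rfl

omit [Finite G] [Finite V] in
theorem fx_inv_FH2 {P : Subgroup G} {g : G} (h : ∀ r ∈ P, g⁻¹ * r * g ∈ P) {v : V}
    (hv : v ∈ Fx ρ P) : ρ g v ∈ Fx ρ P := fun r hr => by
  rw [← mul_FH2, show r * g = g * (g⁻¹ * r * g) by group, mul_FH2, hv _ (h r hr)]

/-- the stabiliser of a vector -/
def stab_FH2 (ρ : G →* AddMonoid.End V) (v : V) : Subgroup G where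
  carrier := {g | ρ g v = v}
  one_mem' := one_FH2 ρ v
  mul_mem' := fun {a b} ha hb => by
    change ρ (a * b) v = v
    rw [mul_FH2, show ρ b v = v from hb, show ρ a v = v from ha]
  inv_mem' := fun {a} ha => by
    change ρ a⁻¹ v = v
    conv_lhs => rw [← show ρ a v = v from ha, ← mul_FH2, inv_mul_cancel, one_FH2]

/-- the vectors fixed by all elements of order prime to three -/
def nil_FH2 (ρ : G →* AddMonoid.End V) : AddSubgroup V where
  carrier := {v | ∀ g, El3' g → ρ g v = v}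
  zero_mem' := fun g _ => map_zero _
  add_mem' := fun {a b} ha hb g hg => by rw [map_add, ha g hg, hb g hg]
  neg_mem' := fun {a} ha g hg => by rw [map_neg, ha g hg]

omit [Finite G] [Finite V] in
theorem nil_inv_FH2 (ρ : G →* AddMonoid.End V) : Inv ρ ⊤ (nil_FH2 ρ) := by
  rintro k - v hv g ⟨m, hm, e⟩
  rw [← mul_FH2, show g * k = k * (k⁻¹ * g * k⁻¹⁻¹) by group, mul_FH2,
    hv _ ⟨m, hm, by rw [conj_pow, e]; group⟩]

omit [Finite G] in
theorem exP_FH2 {D L : Subgroup G} (pD : IsPGroup 3 D) (DL : D ≤ L)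
    (LN : L ≤ Subgroup.normalizer (D : Set G)) {K : Subgroup L} (nK : K.Normal)
    (pK : IsPGroup 3 K) : ∃ P : Subgroup G, IsPGroup 3 P ∧ D ≤ P ∧ (∀ k ∈ K, (k : G) ∈ P) ∧
      ∀ g ∈ L, ∀ r ∈ P, g⁻¹ * r * g ∈ P := by
  have nD : (D.subgroupOf L).Normal := (Subgroup.normal_subgroupOf_iff_le_normalizer DL).2 LN
  refine ⟨(D.subgroupOf L ⊔ K).map L.subtype,
    (IsPGroup.to_sup_of_normal_right (pD.comap_subtype) pK).map _, fun x hx => ?_,
    fun k hk => ⟨k, Subgroup.mem_sup_right hk, rfl⟩, ?_⟩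
  · exact ⟨⟨x, DL hx⟩, Subgroup.mem_sup_left hx, rfl⟩
  · rintro g hg _ ⟨r, hr, rfl⟩
    exact ⟨_, (Subgroup.sup_normal _ _).conj_mem' r hr ⟨g, hg⟩, rfl⟩

theorem vec_FH2 {Y : Set G} (h : QN ρ Y M) (nt : ∃ g, ρ g ≠ 1) {U P : Subgroup G}
    (hU : UFix U M) (pP : IsPGroup 3 P) (UP : U ≤ P) :
    ∃ v ∈ Fx ρ P, ∀ g, ρ g v = v → g ∈ M := by
  have : Nontrivial V := by
    by_contra h0
    rw [not_nontrivial_iff_subsingleton] at h0
    obtain ⟨g, hg⟩ := nt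
    exact hg (AddMonoidHom.ext fun _ => Subsingleton.elim _ _)
  obtain ⟨S, hS⟩ := pP.exists_le_sylow
  obtain ⟨v, h0, hv⟩ := fixvec (ρ := ρ) h.three S.isPGroup'
  exact ⟨v, fun g hg => hv g (hS hg),
    h.um.vec h.smp nt S (hU.le h.um.idx S.isPGroup' (UP.trans hS)) h0 hv⟩

/-- the last step, in a simple module -/
theorem last_FH2 {U : Subgroup G} (h : UM U M) (h3 : (3 : AddMonoid.End V) = 0) (hs : Smp ρ)
    (nt : ∃ g, ρ g ≠ 1) (fq : ∀ x ∈ U, ∀ y ∈ U, (ρ x - 1) * (ρ y - 1) = 0) {e w : G} (he : e ∈ U)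
    (hn : ∀ K : Subgroup G, K.Normal → IsPGroup 3 K → e ∉ K) (wM : w ∉ M)
    (q : ∀ n, (ρ w - 1) ((ρ w - 1) n) = 0)
    (bab : ∀ n, (ρ e - 1) ((ρ w - 1) ((ρ e - 1) n)) = 0) : False := by
  have h1 := (t2 h h3 hs nt fq he hn).1
  have h2 : ∀ m ∈ Fx ρ U, (ρ w - 1) m = 0 → m = 0 := by
    intro m hm h0
    rcases h.um (stab_FH2 ρ m) hm with h4 | h4
    · exact absurd (h4 (sub_eq_zero.1 h0)) wM
    · exact fx_top hs nt fun g => (h4 ▸ Subgroup.mem_top g : g ∈ stab_FH2 ρ m)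
  have h4 : ∀ n, n ∈ Fx ρ U := fun n => h1 n (sub_eq_zero.1 (h2 ((ρ e - 1) n)
    (fun x hx => sub_eq_zero.1 (DFunLike.congr_fun (fq x hx e he) n))
    (h2 _ (h1 _ (sub_eq_zero.1 (bab n))) (q _))))
  obtain ⟨g, hg⟩ := nt
  refine hg (AddMonoidHom.ext fun n => ?_)
  rw [h2 n (h4 n) (h2 _ (h4 _) (q n)), map_zero, map_zero]

theorem h2 {Y : Set G} (h : QN ρ Y M) : TI ρ M := by
  refine ⟨h.three, h.inj, h.um.idx, fun d dM d1 hd g hg => by_contra fun gM => ?_⟩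
  obtain ⟨D, z, u, hA, pU, hF, hN⟩ := h2_setup h dM d1 hd hg gM
  have nt : ∃ g, ρ g ≠ 1 := ⟨d, fun e => d1 (h.inj (e.trans (map_one ρ).symm))⟩
  have DU : D ≤ D3 D z := fun x hx => Subgroup.subset_closure (Or.inl hx)
  have u1U : z * u * z⁻¹ ∈ D3 D z := Subgroup.subset_closure (Or.inr (Or.inl (by
    rw [show z⁻¹ * (z * u * z⁻¹) * z = u by group]
    exact hA.uD)))
  have u2U : z⁻¹ * u * z ∈ D3 D z := Subgroup.subset_closure (Or.inr (Or.inr (by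
    rw [show z * (z⁻¹ * u * z) * z⁻¹ = u by group]
    exact hA.uD)))
  have eU := mul_mem u1U (inv_mem u2U)
  have hU : UFix (D3 D z) M := fun g hg => hF g fun r hr =>
    hg r (sup_le DU ((Subgroup.zpowers_le).2 u1U) hr)
  obtain ⟨L, UL, LN, nLM, hL⟩ := exists_um h.um.idx pU hA.norm hU hN
  have pD : IsPGroup 3 D := pU.to_le DU
  have c1 : ∀ K : Subgroup L, K.Normal → IsPGroup 3 K → (⟨_, UL u1U⟩ : L) ∉ K := by
    intro K nK pK hK
    obtain ⟨P, pP, DP, KP, nP⟩ := exP_FH2 pD (DU.trans UL) LN nK pK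
    have h1 : D ⊔ Subgroup.zpowers (z * u * z⁻¹) ≤ P :=
      sup_le DP ((Subgroup.zpowers_le).2 (KP _ hK))
    exact nLM fun g hg => hF g fun r hr => hF.le h.um.idx pP h1 (nP g hg r (h1 hr))
  obtain ⟨k, hk⟩ := hL.ex_conj (x := ⟨_, UL u1U⟩) (by
    obtain ⟨n, hn⟩ := pU ⟨_, u1U⟩
    have h1 : (z * u * z⁻¹) ^ 3 ^ n = 1 := congrArg Subtype.val hn
    exact ⟨n, Subtype.ext h1⟩) c1
  obtain ⟨w, hw⟩ : ∃ w : L, w = k * ⟨_, UL u1U⟩ * k⁻¹ := ⟨_, rfl⟩
  rw [← hw] at hk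
  have hw' : (w : G) = k * (z * u * z⁻¹) * (k : G)⁻¹ := by rw [hw]; rfl
  have qw : Quad ρ (w : G) := hw' ▸ (hA.qu.conj z).conj _
  have gen : ∀ g : L, (g : G) ∈ D3 D z ⊔ Subgroup.zpowers (w : G) := by
    intro g
    rcases hL.um ((D3 D z ⊔ Subgroup.zpowers (w : G)).subgroupOf L)
      (fun x hx => Subgroup.mem_sup_left hx) with h1 | h1
    · exact absurd (h1 (Subgroup.mem_sup_right (Subgroup.mem_zpowers _))) hk
    · exact (h1 ▸ Subgroup.mem_top g : g ∈ (D3 D z ⊔ Subgroup.zpowers (w : G)).subgroupOf L)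
  have c2 : ∀ K : Subgroup L, K.Normal → IsPGroup 3 K → (⟨_, UL eU⟩ : L) ∉ K := by
    intro K nK pK hK
    obtain ⟨P, pP, DP, KP, nP⟩ := exP_FH2 pD (DU.trans UL) LN nK pK
    have h1 : D3 D z ≤ Subgroup.normalizer (P : Set G) := fun x hx =>
      Subgroup.mem_normalizer_iff.2 fun r => ⟨fun hr => by
        simpa using nP _ (inv_mem (UL hx)) r hr, fun hr => by
        simpa [mul_assoc] using nP _ (UL hx) _ hr⟩
    obtain ⟨v, hv, hv'⟩ := vec_FH2 h nt hU (pU.to_sup_of_normal_right' pP h1) le_sup_left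
    have h2 : ρ (k : G)⁻¹ v ∈ Fx ρ P :=
      fx_inv_FH2 (nP _ (inv_mem k.2)) fun r hr => hv r (Subgroup.mem_sup_right hr)
    have h3 : ρ (k : G)⁻¹ v ∈ Fx ρ D := fun r hr => h2 r (DP hr)
    have h4 : ac ρ u z (ρ (k : G)⁻¹ v) = 0 :=
      add_eq_left.1 ((hA.e h3).symm.trans (h2 _ (KP _ hK)))
    refine hk (hv' w ?_)
    rw [hw', mul_FH2, mul_FH2, hA.u1 h3, h4, map_zero, sub_zero, ← mul_FH2, mul_inv_cancel,
      one_FH2]
  obtain ⟨v, hv, hv'⟩ := vec_FH2 h nt hU pU le_rfl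
  obtain ⟨g0, g0M, g3⟩ := hL.ex3'
  have hB : Inv (ρ.comp L.subtype) ⊤ (Fx ρ D) := fun x _ y hy =>
    fx_inv_FH2 (ρ := ρ) (g := x) (fun r hr => (Subgroup.mem_normalizer_iff''.1 (LN x.2) r).1 hr) hy
  obtain ⟨N, _, _, σ, B, p, BD, hS, h3, hs, hne⟩ := exists_msect (ρ := ρ.comp L.subtype) h.three
    (nil_inv_FH2 _) hB g3 ⟨v, fun r hr => hv r (DU hr), fun h0 =>
      g0M (hv' g0 (cop (ρ := ρ.comp L.subtype) h.three g3 (h0 g0 g3)))⟩
  refine last_FH2 hL h3 hs ⟨g0, hne⟩ (fun x hx y hy => AddMonoidHom.ext fun n => ?_)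
    (e := ⟨_, UL eU⟩) eU c2 hk (fun n => ?_) fun n => ?_
  · obtain ⟨a, ha, rfl⟩ := hS.surj n
    obtain ⟨a1, a2⟩ := hS.sub y ha
    change (σ x - 1) ((σ y - 1) (p a)) = 0
    rw [← a2, ← (hS.sub x a1).2, ← hS.zero]
    exact congrArg p (sub_eq_zero.2 (hA.comm hy (BD ha) x hx))
  · obtain ⟨a, ha, rfl⟩ := hS.surj n
    obtain ⟨a1, a2⟩ := hS.sub w ha
    rw [← a2, ← (hS.sub w a1).2, ← hS.zero]
    exact congrArg p (DFunLike.congr_fun qw a)
  · obtain ⟨a, ha, rfl⟩ := hS.surj n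
    have hc : ∀ b ∈ B, ((ρ.comp L.subtype) ⟨_, UL eU⟩ - 1) b = ac ρ u z b := fun b hb =>
      sub_eq_iff_eq_add'.2 (hA.e (BD hb))
    obtain ⟨a1, a2⟩ := hS.sub ⟨_, UL eU⟩ ha
    obtain ⟨a3, a4⟩ := hS.sub w a1
    obtain ⟨a5, a6⟩ := hS.sub ⟨_, UL eU⟩ a3
    rw [← a2, ← a4, ← a6]
    refine hS.ker _ a5 ?_
    rw [hc _ a3, hc _ ha]
    rintro g ⟨m, hm, e⟩
    exact hA.main qw (LN w.2) (BD ha) (gen g) ⟨m, hm, congrArg Subtype.val e⟩

end Pool.Agent.MP_a5588a_al.Full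

end
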