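import Mathlib

section

/-! Definitions for the 3-solvable case. -/

namespace Pool.Agent.MP_a5588a_al.Solv

open scoped commutatorElement

section groups

variable {G : Type*} [Group G]

/-- `P` has index at most 3 in `E`, elementwise. -/
def Idx3 (E P : Subgroup G) : Prop :=
  ∀ y ∈ E, y ∉ P → ∀ z ∈ E, z ∈ P ∨ y⁻¹ * z ∈ P ∨ y * z ∈ P

/-- `y` has rank at least two on `C`, elementwise. -/
def Rank2 (C : Subgroup G) (y : G) : Prop :=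
  ∀ c₀ ∈ C, ∃ c ∈ C, ⁅y, ⁅y, c⁆⁆ ≠ 1 ∧ ⁅y, ⁅y, c₀⁻¹ * c⁆⁆ ≠ 1 ∧ ⁅y, ⁅y, c₀ * c⁆⁆ ≠ 1

/-- `C` is a witness for `Q ≤ P ≤ E`. -/
structure Wit (Q E P C : Subgroup G) : Prop where
  QP : Q ≤ P
  PE : P ≤ E
  idx : Idx3 E P
  CQ : C ≤ Q
  exp : ∀ c ∈ C, c ^ 3 = 1
  norm : ∀ y ∈ E, ∀ c ∈ C, y * c * y⁻¹ ∈ C
  cub : ∀ c ∈ C, ∀ z ∈ ⁅C, P⁆, c * z = z * c
  n1 : ∀ y ∈ E, y ∉ P → ∃ l ∈ C, ⁅y, ⁅y, l⁆⁆ ∉ ⁅C, P⁆
  n2 : (∀ c ∈ C, ∀ d ∈ C, c * d = d * c) ∨ ∀ y ∈ E, y ∉ P → Rank2 C y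

/-- The normal subgroup `Q` has witnesses for all elementary abelian subgroups of `G / Q`. -/
def CP (Q : Subgroup G) : Prop :=
  Q.Normal ∧ ∀ E : Subgroup G, Q ≤ E → (∀ y ∈ E, ∀ z ∈ E, ⁅y, z⁆ ∈ Q) → (∀ y ∈ E, y ^ 3 ∈ Q) →
    ∀ x ∈ E, x ∉ Q → ∃ P C : Subgroup G, x ∉ P ∧ Wit Q E P C

/-- Weak witnesses. -/
structure WW (Q C : Subgroup G) : Prop where
  CQ : C ≤ Q
  exp : ∀ c ∈ C, c ^ 3 = 1
  norm : ∀ y ∈ Q, ∀ c ∈ C, y * c * y⁻¹ ∈ C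
  cub : ∀ c ∈ C, ∀ z ∈ ⁅C, Q⁆, c * z = z * c

/-- The join of the weak witnesses. -/
def UU (Q : Subgroup G) : Subgroup G := sSup {C | WW Q C}

/-- `W` lies in every `CP` subgroup and is characteristic in it. -/
def PA (W : Subgroup G) : Prop :=
  ∀ Q : Subgroup G, CP Q → W ≤ Q ∧ ∀ (α : Q ≃* Q) (x : Q), (x : G) ∈ W → ((α x : Q) : G) ∈ W

/-- `θ` is multiplicative on `L`. -/
def MulOn {A : Type*} [CommGroup A] (L : Subgroup G) (θ : G → A) : Prop :=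
  ∀ x ∈ L, ∀ y ∈ L, θ (x * y) = θ x * θ y

/-- `θ` on `T` is invariant under the fusion induced by `L`. -/
def FI {A : Type*} (T : Subgroup G) (θ : G → A) (L : Subgroup G) : Prop :=
  ∀ g ∈ L, ∀ s ∈ T, g * s * g⁻¹ ∈ T → θ (g * s * g⁻¹) = θ s

/-- The elements that preserve `θ` on the normal subgroup `Q`. -/
def Stab {A : Type*} (Q : Subgroup G) [hQ : Q.Normal] (θ : G → A) : Subgroup G where
  carrier := {g | ∀ x ∈ Q, θ (g * x * g⁻¹) = θ x}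
  one_mem' := by intro x _; simp
  mul_mem' := by
    intro g h hg hh x hx
    have e : g * h * x * (g * h)⁻¹ = g * (h * x * h⁻¹) * g⁻¹ := by group
    rw [e, hg _ (hQ.conj_mem x hx h), hh x hx]
  inv_mem' := by
    intro g hg x hx
    have := hg (g⁻¹ * x * g⁻¹⁻¹) (hQ.conj_mem x hx g⁻¹)
    rw [← this]
    congr 1; group

/-- 3-solvable, elementwise. -/
def Solv3 (G : Type*) [Group G] : Prop :=
  ∃ (n : ℕ) (s : ℕ → Subgroup G), s 0 = ⊥ ∧ s n = ⊤ ∧ (∀ i, (s i).Normal) ∧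
    ∀ i, (∀ x ∈ s (i + 1), ∃ k : ℕ, x ^ 3 ^ k ∈ s i) ∨
      (∀ x ∈ s (i + 1), ∃ m : ℕ, ¬ 3 ∣ m ∧ x ^ m ∈ s i)

/-- `i`, `j` satisfy the quaternion relations in their action on `E`. -/
structure Rel (i j : G) (E : Subgroup G) : Prop where
  r1 : ∀ x ∈ E, Commute (i ^ 4) x
  r2 : ∀ x ∈ E, Commute (i ^ 2 * (j ^ 2)⁻¹) x
  r3 : ∀ x ∈ E, Commute (i * j * i * j⁻¹) x

/-- The relations hold and the fixed points of `i ^ 2` are fixed by `i` and `j`. -/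
structure Good (i j : G) (E : Subgroup G) : Prop where
  rel : Rel i j E
  fix : ∀ x ∈ E, Commute (i ^ 2) x → Commute i x ∧ Commute j x

/-- The setting of part C. -/
structure Ctx (P Q K : Subgroup G) (i j k a : G) : Prop where
  nP : P.Normal
  nQ : Q.Normal
  QP : Q ≤ P
  pP : IsPGroup 3 P
  hj : j = a⁻¹ * i * a
  hk : k = a⁻¹ * j * a
  hi : i = a⁻¹ * k * a
  kji : k * j * i = 1
  iK : i ∈ K
  aK : ∀ x ∈ K, a⁻¹ * x * a ∈ K
  cK : ¬ 3 ∣ Nat.card K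
  a3 : a ^ 3 ∈ P
  gen : ∀ L : Subgroup G, P ≤ L → i ∈ L → a ∈ L → L = ⊤

/-- The conclusion of part C. -/
structure Res (P Q : Subgroup G) (a : G) (C : Subgroup G) : Prop where
  nC : C.Normal
  CQ : C ≤ Q
  exp : ∀ c ∈ C, c ^ 3 = 1
  cub : ∀ c ∈ C, ∀ z ∈ ⁅C, P⁆, c * z = z * c
  n1 : ∃ l ∈ C, ⁅a, ⁅a, l⁆⁆ ∉ ⁅C, P⁆
  n2 : (∀ c ∈ C, ∀ d ∈ C, c * d = d * c) ∨ ∀ y, (a⁻¹ * y ∈ P ∨ a * y ∈ P) → Rank2 C y

/-- `a` is quadratic on `A / [A, P]` for all elementary abelian normal `A ≤ Q`. -/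
def H1 (P Q : Subgroup G) (a : G) : Prop :=
  ∀ A : Subgroup G, A.Normal → A ≤ Q → (∀ x ∈ A, ∀ y ∈ A, x * y = y * x) → (∀ x ∈ A, x ^ 3 = 1) →
    ∀ l ∈ A, ⁅a, ⁅a, l⁆⁆ ∈ ⁅A, P⁆

/-- `E` is a minimal normal subgroup that is not good, `E₀` its largest proper normal subgroup. -/
structure MinBad (Q : Subgroup G) (i j : G) (E E₀ : Subgroup G) : Prop where
  nE : E.Normal
  nE₀ : E₀.Normal
  EQ : E ≤ Q
  le : E₀ ≤ E
  good : Good i j E₀
  bad : ¬ Good i j E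
  max : ∀ A : Subgroup G, A.Normal → A ≤ E → A = E ∨ A ≤ E₀

/-- The three special generators of `E` in case II; `g = ![i, j, k]`. -/
structure EP (P E : Subgroup G) (g : Fin 3 → G) (a : G) (e : Fin 3 → G) : Prop where
  mem : ∀ r, e r ∈ E
  cube : ∀ r, e r ^ 3 = 1
  fix : ∀ r, g r * e r * (g r)⁻¹ = e r
  inv : ∀ r s, r ≠ s → g r * e s * (g r)⁻¹ = (e s)⁻¹
  next : ∀ r, e (r + 1) = a⁻¹ * e r * a
  even : ∀ x ∈ E, Commute (g 0 ^ 2) x → ∀ r, Commute x (e r)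
  gen : ∀ L : Subgroup G, (∀ p ∈ P, ∀ r, p * e r * p⁻¹ ∈ L) → E ≤ L

/-- `V` is the abelian section `A / B`, with the conjugation action of `D` through `f`. -/
structure Sect {D : Type*} [Group D] (f : D →* G) (A B : Subgroup G) {V : Type*} [AddCommGroup V]
    (ρ : D →* AddMonoid.End V) (π : G → V) : Prop where
  add : ∀ x ∈ A, ∀ y ∈ A, π (x * y) = π x + π y
  ker : ∀ x ∈ A, π x = 0 ↔ x ∈ B
  surj : ∀ v, ∃ x ∈ A, π x = v
  conj : ∀ g : D, ∀ x ∈ A, π (f g * x * (f g)⁻¹) = ρ g (π x)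

end groups

section rings

variable {R : Type*} [Ring R]

/-- The relations of `SL(2,3)` in characteristic 3: `u = ![i, j, k]`, `t = i²`, `b = a⁻¹`. -/
structure Q8 (u : Fin 3 → R) (t a b : R) : Prop where
  three : (3 : R) = 0
  sq : ∀ r, u r * u r = t
  tt : t * t = 1
  mul : ∀ r, u r * u (r + 1) = u (r + 2)
  mul' : ∀ r, u (r + 1) * u r = t * u (r + 2)
  ab : a * b = 1
  ba : b * a = 1
  conj : ∀ r, u r * a = a * u (r + 1)

variable {H : Type*} [Group H] (ρ : H →* R) (P : Subgroup H)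

/-- `[U, P]` in a module. -/
def Low {V : Type*} [AddCommGroup V] [Module R V] (U : AddSubgroup V) : AddSubgroup V :=
  AddSubgroup.closure {w | ∃ p ∈ P, ∃ v ∈ U, w = ρ p • v - v}

/-- The filtration `V ≥ [V, P] ≥ [V, P, P] ≥ ⋯`. -/
def Fil (V : Type*) [AddCommGroup V] [Module R V] : ℕ → AddSubgroup V
  | 0 => ⊤
  | n + 1 => Low ρ P (Fil V n)

/-- `a` is quadratic on `U / [U, P]` for every invariant subgroup `U`. -/
def QuadAll (a : R) (V : Type*) [AddCommGroup V] [Module R V] : Prop :=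
  ∀ U : AddSubgroup V, (∀ h : H, ∀ v ∈ U, ρ h • v ∈ U) →
    ∀ v ∈ U, (a - 1) • (a - 1) • v ∈ Low ρ P U

/-- The data on `V` common to the two module lemmas of case II. -/
structure EV (u : Fin 3 → R) (t a b : R) {V : Type*} [AddCommGroup V] [Module R V]
    (e : Fin 3 → V) : Prop where
  q : Q8 u t a b
  hu : ∀ r, ∃ h, ρ h = u r
  ha : ∃ h, ρ h = a
  hb : ∃ h, ρ h = b
  fix : ∀ r, u r • e r = e r
  inv : ∀ r s, r ≠ s → u r • e s = -e s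
  next : ∀ r, e (r + 1) = b • e r
  gen : ∀ L : AddSubgroup V, (∀ p ∈ P, ∀ r, ρ p • e r ∈ L) → L = ⊤
  good : ∀ v ∈ Fil ρ P V 1, t • v = v → ∀ r, u r • v = v

/-- The filtration of the target of a pairing on `V`. -/
def CF {V C : Type*} [AddCommGroup V] [Module R V] [AddCommGroup C] (β : V →+ V →+ C) (n : ℕ) :
    AddSubgroup C :=
  AddSubgroup.closure
    {z | ∃ k l, n ≤ k + l ∧ ∃ v ∈ Fil ρ P V k, ∃ w ∈ Fil ρ P V l, z = β v w}

/-- The class two setting. -/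
structure C2 (u : Fin 3 → R) (t a b : R) {V C : Type*} [AddCommGroup V] [Module R V]
    [AddCommGroup C] [Module R C] (e : Fin 3 → V) (β : V →+ V →+ C) : Prop where
  ev : EV ρ P u t a b e
  alt : ∀ v, β v v = 0
  eqv : ∀ h v w, β (ρ h • v) (ρ h • w) = ρ h • β v w
  even : ∀ v, t • v = v → ∀ r, β v (e r) = 0
  quad : QuadAll ρ P a C

end rings

end Pool.Agent.MP_a5588a_al.Solv

end

section

/-! Definitions for the general case. -/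

namespace Pool.Agent.MP_a5588a_al.Full

open Pool.Agent.MP_a5588a_al.Solv
open scoped commutatorElement

section groups

variable {G : Type*} [Group G]

/-- `H` normalises `C`, elementwise. -/
def Nm (H C : Subgroup G) : Prop := ∀ y ∈ H, ∀ c ∈ C, y * c * y⁻¹ ∈ C

/-- `C` commutes with `[C, P]`. -/
def Cub (C P : Subgroup G) : Prop := ∀ c ∈ C, ∀ z ∈ ⁅C, P⁆, c * z = z * c

/-- `C` is abelian. -/
def Abl (C : Subgroup G) : Prop := ∀ c ∈ C, ∀ d ∈ C, c * d = d * c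

/-- `x` has order a power of 3. -/
def El3 (x : G) : Prop := ∃ n : ℕ, x ^ 3 ^ n = 1

/-- `x` has order prime to 3. -/
def El3' (x : G) : Prop := ∃ m : ℕ, ¬ 3 ∣ m ∧ x ^ m = 1

/-- Weak witnesses. -/
structure WWf (Q C : Subgroup G) : Prop where
  CQ : C ≤ Q
  norm : Nm Q C
  cub : Cub C Q

/-- The join of the weak witnesses. -/
def UUf (Q : Subgroup G) : Subgroup G := sSup {C | WWf Q C}

/-- The subgroup generated by `Q` and `Y`. -/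
def EE (Q : Subgroup G) (Y : Set G) : Subgroup G := Q ⊔ Subgroup.closure Y

/-- Strong witnesses. -/
structure Wt (Q : Subgroup G) (Y : Set G) (P C : Subgroup G) : Prop where
  QP : Q ≤ P
  ne : ∃ y ∈ Y, y ∉ P
  CQ : C ≤ Q
  norm : Nm (EE Q Y) C
  cub : Cub C P
  n1 : ∀ y ∈ Y, y ∉ P → ∃ l ∈ C, ⁅y, ⁅y, l⁆⁆ ≠ 1
  n2 : Abl C ∨ ∀ y ∈ Y, y ∉ P → Rank2 C y
  n3 : Idx3 (EE Q Y) P ∨ ((∀ y ∈ Y, y ∉ P → ∃ l ∈ C, ⁅y, ⁅y, l⁆⁆ ∉ ⁅C, C⁆) ∧
    ⁅C, C⁆ ≤ ⁅⁅EE Q Y, C⁆, ⁅EE Q Y, C⁆⁆)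

/-- A generator is not quadratic on an abelian subgroup. -/
def Va (Q : Subgroup G) (Y : Set G) : Prop :=
  ∃ F : Subgroup G, F ≤ Q ∧ Nm (EE Q Y) F ∧ Abl F ∧ ∃ y ∈ Y, ∃ f ∈ F, ⁅y, ⁅y, f⁆⁆ ≠ 1

/-- A generator is not quadratic on the commutators of a weak witness with a generator. -/
def Vb (Q : Subgroup G) (Y : Set G) : Prop :=
  ∃ C : Subgroup G, C ≤ Q ∧ Nm (EE Q Y) C ∧ Cub C Q ∧
    ∃ x ∈ Y, ∃ y ∈ Y, ∃ l ∈ C, ⁅y, ⁅y, ⁅x, l⁆⁆⁆ ≠ 1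

/-- The three possible outcomes. -/
def Out (Q : Subgroup G) (Y : Set G) : Prop := Va Q Y ∨ Vb Q Y ∨ ∃ P C, Wt Q Y P C

/-- The normal subgroup `Q` has an outcome for every set not contained in it. -/
def CPf (Q : Subgroup G) : Prop := Q.Normal ∧ ∀ Y : Set G, (∃ y ∈ Y, y ∉ Q) → Out Q Y

/-- `W` lies in every `CPf` subgroup and is characteristic in it. -/
def PAf (W : Subgroup G) : Prop :=
  ∀ Q : Subgroup G, CPf Q → W ≤ Q ∧ ∀ (α : Q ≃* Q) (x : Q), (x : G) ∈ W → ((α x : Q) : G) ∈ W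

/-- `M` is the only maximal subgroup above the 3-subgroup `R`, which lies in no normal
3-subgroup. -/
structure UM (R M : Subgroup G) : Prop where
  pR : IsPGroup 3 R
  ne : M ≠ ⊤
  um : ∀ K : Subgroup G, R ≤ K → K ≤ M ∨ K = ⊤
  nn : ∀ K : Subgroup G, K.Normal → IsPGroup 3 K → ¬ R ≤ K

/-- `R` fixes only the base point of `G / M`. -/
def UFix (R M : Subgroup G) : Prop := ∀ g : G, (∀ r ∈ R, g⁻¹ * r * g ∈ M) → g ∈ M

/-- The setting of the node theorem. -/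
structure Nd {A : Type*} [CommGroup A] (Q P : Subgroup G) [Q.Normal] (Y : Set G) (θ : G → A) :
    Prop where
  nP : P.Normal
  pP : IsPGroup 3 P
  maxP : ∀ K : Subgroup G, K.Normal → IsPGroup 3 K → K ≤ P
  QP : Q ≤ P
  mul : MulOn Q θ
  um : UM (P ⊔ EE Q Y) (Stab Q θ)

/-- `B` is the largest normal subgroup of `G` properly contained in the normal subgroup `C`. -/
structure Top (C B : Subgroup G) : Prop where
  nC : C.Normal
  nB : B.Normal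
  le : B ≤ C
  ne : ¬ C ≤ B
  max : ∀ K : Subgroup G, K.Normal → K ≤ C → K = C ∨ K ≤ B

/-- `C / B` is a chief factor of `G`. -/
structure Chief (C B : Subgroup G) : Prop where
  nC : C.Normal
  nB : B.Normal
  le : B ≤ C
  ne : ¬ C ≤ B
  max : ∀ K : Subgroup G, K.Normal → B ≤ K → K ≤ C → K = C ∨ K = B

/-- The braid relation. -/
def Braid (d w : G) : Prop := d * w * d = w * d * w

/-- `M` is strongly 3-embedded. -/
def SE (M : Subgroup G) : Prop :=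
  ∀ x ∈ M, x ≠ 1 → El3 x → ∀ g : G, g⁻¹ * x * g ∈ M → g ∈ M

/-- A component of the pair `d`, `w`. -/
structure Cmp {K : Type*} [Field K] (d w : G) (π : G →* GL (Fin 2) K) (l : K) : Prop where
  ne : l ≠ 0
  hd : (π d : Matrix (Fin 2) (Fin 2) K) = !![1, l; 0, 1]
  hw : (π w : Matrix (Fin 2) (Fin 2) K) = !![1, 0; 1, 1]

/-- The field of the components. -/
abbrev KK : Type := AlgebraicClosure (ZMod 3)

/-- The setting of the pair theorem without the module. -/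
structure Pr (M : Subgroup G) (d w : G) : Prop where
  gen : Subgroup.closure {d, w} = ⊤
  d3 : d ^ 3 = 1
  w3 : w ^ 3 = 1
  d1 : d ≠ 1
  dM : d ∈ M
  wM : w ∉ M
  idx : ¬ 3 ∣ M.index
  se : SE M
  faith : ∀ x : G, (∀ (π : G →* GL (Fin 2) KK) (l : KK), Cmp d w π l → π x = 1) → x = 1

end groups

/-- The main statement for one group. -/
def MainF.{u} (A : Type*) [CommGroup A] (G : Type u) [Group G] : Prop :=
  ∀ (T₀ : Type u) [Group T₀] (W : Subgroup T₀), PAf W → ∀ (T : Sylow 3 G) (f : T₀ →* G),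
    Function.Injective f → f.range = T → ∀ θ : G → A, MulOn (T : Subgroup G) θ →
      FI (T : Subgroup G) θ (Subgroup.normalizer ((W.map f : Subgroup G) : Set G)) →
        FI (T : Subgroup G) θ ⊤

section modules

variable {G V : Type*} [Group G] [AddCommGroup V]

/-- `x` acts quadratically. -/
def Quad (ρ : G →* AddMonoid.End V) (x : G) : Prop := (ρ x - 1) * (ρ x - 1) = 0

/-- The anticommutator. -/
def ac (ρ : G →* AddMonoid.End V) (x y : G) : AddMonoid.End V :=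
  (ρ x - 1) * (ρ y - 1) + (ρ y - 1) * (ρ x - 1)

/-- `U` is invariant under `H`. -/
def Inv (ρ : G →* AddMonoid.End V) (H : Subgroup G) (U : AddSubgroup V) : Prop :=
  ∀ g ∈ H, ∀ v ∈ U, ρ g v ∈ U

/-- The module has no proper nonzero submodule. -/
def Smp (ρ : G →* AddMonoid.End V) : Prop := ∀ U : AddSubgroup V, Inv ρ ⊤ U → U = ⊥ ∨ U = ⊤

/-- The fixed points of `H`. -/
def Fx (ρ : G →* AddMonoid.End V) (H : Subgroup G) : AddSubgroup V where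
  carrier := {v | ∀ g ∈ H, ρ g v = v}
  zero_mem' := fun g _ => map_zero _
  add_mem' := fun {a b} ha hb g hg => by rw [map_add, ha g hg, hb g hg]
  neg_mem' := fun {a} ha g hg => by rw [map_neg, ha g hg]

/-- A faithful simple module with a subgroup generated by quadratic elements. -/
structure QN (ρ : G →* AddMonoid.End V) (Y : Set G) (M : Subgroup G) : Prop where
  three : (3 : AddMonoid.End V) = 0
  inj : Function.Injective ρ
  smp : Smp ρ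
  quad : ∀ y ∈ Y, Quad ρ y
  um : UM (Subgroup.closure Y) M

/-- Every quadratic element fixes only one point of `G / M`. -/
structure TI (ρ : G →* AddMonoid.End V) (M : Subgroup G) : Prop where
  three : (3 : AddMonoid.End V) = 0
  inj : Function.Injective ρ
  idx : ¬ 3 ∣ M.index
  h2 : ∀ d ∈ M, d ≠ 1 → Quad ρ d → ∀ g : G, g⁻¹ * d * g ∈ M → g ∈ M

/-- Quadratic elements in a common 3-subgroup commute. -/
def AB (ρ : G →* AddMonoid.End V) : Prop :=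
  ∀ u z : G, Quad ρ u → Quad ρ z → IsPGroup 3 (Subgroup.closure {u, z}) → Commute u z

/-- Centralisers of products of quadratic elements of a 3-subgroup of `M` lie in `M`. -/
def CFx (ρ : G →* AddMonoid.End V) (M : Subgroup G) : Prop :=
  ∀ S : Subgroup G, IsPGroup 3 S → S ≤ M → ∀ f ∈ Subgroup.closure {x | x ∈ S ∧ Quad ρ x}, f ≠ 1 →
    ∀ g : G, Commute f g → g ∈ M

/-- The anticommutator is injective on both commutator spaces. -/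
def Gnc (ρ : G →* AddMonoid.End V) (d w : G) : Prop :=
  (∀ v, ac ρ d w ((ρ d - 1) v) = 0 → (ρ d - 1) v = 0) ∧
    ∀ v, ac ρ d w ((ρ w - 1) v) = 0 → (ρ w - 1) v = 0

/-- The pair acts as the standard generators of `SL(2,3)` on natural and trivial modules. -/
def Gen (ρ : G →* AddMonoid.End V) (d w : G) : Prop :=
  (ρ d - 1) * (ρ w - 1) * (ρ d - 1) = -(ρ d - 1) ∧ (ρ w - 1) * (ρ d - 1) * (ρ w - 1) = -(ρ w - 1)

/-- The module `N` is a quotient of the submodule `B` by a submodule containing `A ⊓ B`. -/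
structure MSect {N : Type*} [AddCommGroup N] (ρ : G →* AddMonoid.End V) (A B : AddSubgroup V)
    (σ : G →* AddMonoid.End N) (p : V → N) : Prop where
  inv : Inv ρ ⊤ B
  add : ∀ v ∈ B, ∀ w ∈ B, p (v + w) = p v + p w
  ker : ∀ v ∈ B, v ∈ A → p v = 0
  surj : ∀ n, ∃ v ∈ B, p v = n
  conj : ∀ g, ∀ v ∈ B, p (ρ g v) = σ g (p v)

/-- `y` and `z` generate modulo the core a group of order 9 acting freely on the orbit of `J`
outside the base point. -/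
structure Free (M J : Subgroup G) (y z : G) : Prop where
  yJ : y ∈ J
  zJ : z ∈ J
  yM : y ∈ M
  zM : z ∈ M
  nle : ¬ J ≤ M
  y3 : ∀ g : G, g⁻¹ * y ^ 3 * g ∈ M
  z3 : ∀ g : G, g⁻¹ * z ^ 3 * g ∈ M
  yz : ∀ g : G, g⁻¹ * ⁅y, z⁆ * g ∈ M
  free : ∀ i j : ℕ, i < 3 → j < 3 → ∀ g ∈ J, g⁻¹ * (y ^ i * z ^ j) * g ∈ M →
    g ∈ M ∨ (i = 0 ∧ j = 0)

/-- `T` is invariant, contains the image of the product of `y - 1`, `z - 1`, and is killed by it. -/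
structure Tee (ρ : G →* AddMonoid.End V) (J : Subgroup G) (y z : G) (T : AddSubgroup V) :
    Prop where
  inv : Inv ρ J T
  mem : ∀ v, ((ρ y - 1) * (ρ z - 1)) v ∈ T
  kill : ∀ v ∈ T, ((ρ y - 1) * (ρ z - 1)) v = 0

/-- The data of the three axes argument. -/
structure Ax (ρ : G →* AddMonoid.End V) (D : Subgroup G) (z u : G) : Prop where
  three : (3 : AddMonoid.End V) = 0
  inj : Function.Injective ρ
  qz : Quad ρ z
  qu : Quad ρ u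
  uD : u ∈ D
  n1 : ∀ x ∈ D, z * x * z⁻¹ ∈ Subgroup.normalizer (D : Set G)
  n2 : ∀ x ∈ D, z⁻¹ * x * z ∈ Subgroup.normalizer (D : Set G)

/-- The join of the three conjugates of `D` under `z`. -/
def D3 (D : Subgroup G) (z : G) : Subgroup G :=
  Subgroup.closure {x | x ∈ D ∨ z⁻¹ * x * z ∈ D ∨ z * x * z⁻¹ ∈ D}

/-- Three modules with a pairing and a functional whose stabiliser is `M`. -/
structure Tri {X₁ X X₂ B : Type*} [AddCommGroup X₁] [AddCommGroup X] [AddCommGroup X₂]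
    [AddCommGroup B] (ρ₁ : G →* AddMonoid.End X₁) (σ : G →* AddMonoid.End X)
    (ρ₂ : G →* AddMonoid.End X₂) (β : X₁ →+ X →+ X₂) (φ : X →+ B) (M : Subgroup G) : Prop where
  t₁ : (3 : AddMonoid.End X₁) = 0
  t : (3 : AddMonoid.End X) = 0
  t₂ : (3 : AddMonoid.End X₂) = 0
  eqv : ∀ g v x, β (ρ₁ g v) (σ g x) = ρ₂ g (β v x)
  nd : ∀ x, (∀ v, β v x = 0) → x = 0
  stab : ∀ g, g ∈ M ↔ ∀ x, φ (σ g x) = φ x

end modules

end Pool.Agent.MP_a5588a_al.Full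

end

section

namespace Pool.Agent.MP_a5588a_al.Solv

open scoped commutatorElement

set_option linter.unusedSectionVars false

variable {G : Type*} [Group G] [Finite G]

lemma one_Good {A : Type*} [Group A] {z : A} {n m : ℕ} (h : z ^ 3 ^ n = 1) (hm : ¬ 3 ∣ m)
    (h2 : z ^ m = 1) : z = 1 :=
  orderOf_eq_one_iff.1 (Nat.eq_one_of_dvd_coprimes
    (((Nat.prime_three.coprime_iff_not_dvd).2 hm).pow_left n) (orderOf_dvd_of_pow_eq_one h)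
    (orderOf_dvd_of_pow_eq_one h2))

omit [Finite G] in
lemma pow_Good {P : Subgroup G} (hP : IsPGroup 3 P) {x : G} (hx : x ∈ P) : ∃ n, x ^ 3 ^ n = 1 :=
  (hP ⟨x, hx⟩).imp fun _ h => congrArg Subtype.val h

omit [Finite G] in
lemma cp0_Good {P : Subgroup G} (hP : IsPGroup 3 P) {κ x : G} {m : ℕ} (hm : ¬ 3 ∣ m)
    (hκ : κ ^ m = 1) (h₀ : Commute κ ⁅κ, x⁆) (hx : ⁅κ, x⁆ ∈ P) : Commute κ x := by
  have h : ∀ n : ℕ, κ ^ n * x = ⁅κ, x⁆ ^ n * x * κ ^ n := fun n => by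
    induction n with
    | zero => simp
    | succ n ih =>
      rw [pow_succ', mul_assoc, ih, ← mul_assoc, ← mul_assoc, (h₀.pow_right n).eq, pow_succ ⁅κ, x⁆,
        commutatorElement_def]
      group
  obtain ⟨n, hn⟩ := pow_Good hP hx
  refine commutatorElement_eq_one_iff_commute.1 (one_Good hn hm ?_)
  simpa [hκ] using h m

/-- Coprime action, elementwise. -/
theorem cp1 {P E₀ : Subgroup G} (hP : IsPGroup 3 P) (hE : E₀ ≤ P) {κ x : G} {m : ℕ}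
    (hm : ¬ 3 ∣ m) (hκ : κ ^ m = 1) (h₀ : ∀ w ∈ E₀, Commute κ w) (hx : ⁅κ, x⁆ ∈ E₀) :
    Commute κ x := cp0_Good hP hm hκ (h₀ _ hx) (hE hx)

/-- An element is a fixed element times an inverted element. -/
theorem dec_inv {E : Subgroup G} (hE : IsPGroup 3 E) {t : G} (ht : ∀ x ∈ E, t * x * t⁻¹ ∈ E)
    (h2 : ∀ x ∈ E, Commute (t ^ 2) x) {x : G} (hx : x ∈ E) :
    ∃ c ∈ E, ∃ y ∈ E, x = c * y ∧ Commute t c ∧ t * y * t⁻¹ = y⁻¹ := by
  have hv : (t * x * t⁻¹)⁻¹ * x ∈ E := mul_mem (inv_mem (ht x hx)) hx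
  obtain ⟨n, hn⟩ := pow_Good hE hv
  obtain ⟨l, hl⟩ : Odd (3 ^ n) := Odd.pow (by decide)
  have e : t * ((t * x * t⁻¹)⁻¹ * x) * t⁻¹ = ((t * x * t⁻¹)⁻¹ * x)⁻¹ := by
    calc _ = t ^ 2 * x⁻¹ * (t ^ 2)⁻¹ * (t * x * t⁻¹) := by
          rw [pow_two]
          group
      _ = _ := by
        rw [(h2 x hx).inv_right.eq]
        group
  generalize hw : (t * x * t⁻¹)⁻¹ * x = v at hv hn e
  have e1 : t * v ^ (l + 1) * t⁻¹ = (v ^ (l + 1))⁻¹ := by rw [← conj_pow, e, inv_pow]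
  have e2 : v ^ (l + 1) * v ^ (l + 1) = v := by
    rw [← pow_add, show l + 1 + (l + 1) = 3 ^ n + 1 by omega, pow_succ, hn, one_mul]
  refine ⟨x * (v ^ (l + 1))⁻¹, mul_mem hx (inv_mem (pow_mem hv _)), _, pow_mem hv (l + 1),
    by group, ?_, e1⟩
  generalize v ^ (l + 1) = y at e1 e2
  calc t * (x * y⁻¹) = t * x * t⁻¹ * (t * y * t⁻¹)⁻¹ * t := by group
    _ = t * x * t⁻¹ * (y * y) * y⁻¹ * t := by
      rw [e1]
      group
    _ = _ := by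
      rw [e2, ← hw]
      group

theorem comm_lt {P X : Subgroup G} (hP : IsPGroup 3 P) [X.Normal] (hXP : X ≤ P)
    (h : X ≤ ⁅X, P⁆) : X = ⊥ := by
  have := Fact.mk Nat.prime_three
  obtain ⟨n, hn⟩ := P.isNilpotent_iff_lowerCentralSeries.1 hP.isNilpotent
  have : ∀ n, X ≤ P.lowerCentralSeries n := fun n => by
    induction n with
    | zero => exact hXP
    | succ n ih => exact h.trans (Subgroup.commutator_mono ih le_rfl)
  exact le_bot_iff.1 (hn ▸ this n)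

omit [Finite G] in
theorem Good.mono {i j : G} {E F : Subgroup G} (h : Good i j F) (hle : E ≤ F) : Good i j E :=
  ⟨⟨fun x hx => h.rel.r1 x (hle hx), fun x hx => h.rel.r2 x (hle hx),
    fun x hx => h.rel.r3 x (hle hx)⟩, fun x hx => h.fix x (hle hx)⟩

variable {P Q K : Subgroup G} {i j k a : G}

theorem good_ext (c : Ctx P Q K i j k a) {E E₀ : Subgroup G} [E.Normal] [E₀.Normal] (hE : E ≤ P)
    (hle : E₀ ≤ E) (h₀ : Good i j E₀) (r1 : ∀ x ∈ E, ⁅i ^ 4, x⁆ ∈ E₀)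
    (r2 : ∀ x ∈ E, ⁅i ^ 2 * (j ^ 2)⁻¹, x⁆ ∈ E₀) (r3 : ∀ x ∈ E, ⁅i * j * i * j⁻¹, x⁆ ∈ E₀)
    (fix : ∀ x ∈ E, ⁅i ^ 2, x⁆ ∈ E₀ → ⁅i, x⁆ ∈ E₀ ∧ ⁅j, x⁆ ∈ E₀) : Good i j E := by
  have hi := c.iK
  have hj : j ∈ K := c.hj ▸ c.aK i hi
  have hK : ∀ {κ x}, κ ∈ K → Commute κ ⁅κ, x⁆ → ⁅κ, x⁆ ∈ E₀ → Commute κ x := fun hκ h1 h2 =>
    cp0_Good c.pP c.cK (congrArg Subtype.val (pow_card_eq_one' (x := (⟨_, hκ⟩ : K)))) h1
      (hE (hle h2))
  have s2 : ∀ x ∈ E, Commute (i ^ 2 * (j ^ 2)⁻¹) x := fun x hx =>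
    hK (mul_mem (pow_mem hi 2) (inv_mem (pow_mem hj 2))) (h₀.rel.r2 _ (r2 x hx)) (r2 x hx)
  refine ⟨⟨fun x hx => hK (pow_mem hi 4) (h₀.rel.r1 _ (r1 x hx)) (r1 x hx), s2, fun x hx =>
    hK (mul_mem (mul_mem (mul_mem hi hj) hi) (inv_mem hj)) (h₀.rel.r3 _ (r3 x hx)) (r3 x hx)⟩,
    fun x hx h => ?_⟩
  obtain ⟨f1, f2⟩ := fix x hx (commutatorElement_eq_one_iff_commute.2 h ▸ one_mem _)
  have ii : Commute (i ^ 2) i := (Commute.refl i).pow_left 2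
  have jj : Commute (j ^ 2) j := (Commute.refl j).pow_left 2
  refine ⟨hK hi (h₀.fix _ f1 (((ii.mul_right h).mul_right ii.inv_right).mul_right h.inv_right)).1
    f1, hK hj (h₀.fix _ f2 (Commute.mul_right ?_ h.inv_right)).2 f2⟩
  have j2 : Commute (j ^ 2) x := by simpa using (s2 x hx).inv_left.mul_left h
  simpa using (s2 _ (‹E.Normal›.conj_mem x hx j)).mul_left
    ((jj.mul_right j2).mul_right jj.inv_right)

theorem good_sup (c : Ctx P Q K i j k a) {E F : Subgroup G} [E.Normal] [F.Normal] (hE : E ≤ P)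
    (hF : F ≤ P) (h₁ : Good i j E) (h₂ : Good i j F) : Good i j (E ⊔ F) := by
  have q : ∀ g x, ⁅g, x⁆ ∈ E ↔ Commute (QuotientGroup.mk' E g) (QuotientGroup.mk' E x) :=
    fun g x => by
      rw [← commutatorElement_eq_one_iff_commute, ← map_commutatorElement]
      exact (QuotientGroup.eq_one_iff _).symm
  have d : ∀ x ∈ E ⊔ F, ∃ f ∈ F, QuotientGroup.mk' E x = QuotientGroup.mk' E f := fun x hx => by
    obtain ⟨e, he, f, hf, rfl⟩ := Subgroup.mem_sup_of_normal_left.1 hx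
    exact ⟨f, hf, by
      rw [map_mul, show QuotientGroup.mk' E e = 1 from (QuotientGroup.eq_one_iff _).2 he, one_mul]⟩
  have r : ∀ g, (∀ f ∈ F, Commute g f) → ∀ x ∈ E ⊔ F, ⁅g, x⁆ ∈ E := fun g hg x hx => by
    obtain ⟨f, hf, e⟩ := d x hx
    rw [q, e]
    exact (hg f hf).map _
  refine good_ext c (sup_le hE hF) le_sup_left h₁ (r _ h₂.rel.r1) (r _ h₂.rel.r2) (r _ h₂.rel.r3)
    fun x hx h => ?_
  obtain ⟨f, hf, e⟩ := d x hx
  obtain ⟨z, hz, y, hy, rfl, c1, c2⟩ := dec_inv (c.pP.to_le hF) (t := i ^ 2)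
    (fun x hx => ‹F.Normal›.conj_mem x hx _) (fun x hx => pow_mul i 2 2 ▸ h₂.rel.r1 x hx) hf
  obtain ⟨n, hn⟩ := pow_Good c.pP (hF hy)
  rw [q, e, map_mul] at h
  have c3 : Commute (QuotientGroup.mk' E (i ^ 2)) (QuotientGroup.mk' E y) := by
    simpa using (c1.map (QuotientGroup.mk' E)).inv_right.mul_right h
  have c4 : QuotientGroup.mk' E y = 1 := by
    refine one_Good (n := n) (m := 2) (by rw [← map_pow, hn, map_one]) (by decide) ?_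
    have := congrArg (QuotientGroup.mk' E) c2
    rw [map_mul, map_mul, map_inv, map_inv, c3.eq, mul_inv_cancel_right] at this
    rw [pow_two, ← eq_inv_iff_mul_eq_one]
    exact this
  rw [q, q, e, map_mul, c4, mul_one]
  exact (h₂.fix z hz c1).imp (·.map _) (·.map _)

theorem exists_minBad (c : Ctx P Q K i j k a) (h : ¬ Good i j Q) :
    ∃ E E₀, MinBad Q i j E E₀ := by
  obtain ⟨E, ⟨a1, a2, a3⟩, a4⟩ := exists_minimal_of_wellFoundedLT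
    (fun E : Subgroup G => E.Normal ∧ E ≤ Q ∧ ¬ Good i j E) ⟨Q, c.nQ, le_rfl, h⟩
  obtain ⟨E₀, ⟨b1, b2, b3⟩, b4⟩ := exists_maximal_of_wellFoundedGT
    (fun F : Subgroup G => F.Normal ∧ F ≤ E ∧ Good i j F) ⟨⊥, inferInstance, bot_le,
      ⟨by simp, by simp, by simp⟩, by simp⟩
  refine ⟨E, E₀, a1, b1, a2, b2, b3, a3, fun A hA k => ?_⟩
  by_cases g : Good i j A
  · exact .inr (le_sup_left.trans (b4 ⟨inferInstance, sup_le k b2,
      good_sup c ((k.trans a2).trans c.QP) ((b2.trans a2).trans c.QP) g b3⟩ le_sup_right))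
  · exact .inl (k.antisymm (a4 ⟨hA, k.trans a2, g⟩ k))

theorem notGood {A : Type*} [CommGroup A] {Q : Subgroup G} [Q.Normal] (hQ : IsPGroup 3 Q)
    {θ : G → A} (hθ : MulOn Q θ) {i j : G} (hij : ⁅i, j⁆ ∈ Stab Q θ) (h : Good i j Q) :
    i ∈ Stab Q θ := by
  have N : ∀ x ∈ Q, ∀ g, g * x * g⁻¹ ∈ Q := ‹Q.Normal›.conj_mem
  let φ : Q →* A := MonoidHom.mk' (fun x => θ x) fun x y => hθ x x.2 y y.2
  have z : ∀ y ∈ Q, i ^ 2 * y * (i ^ 2)⁻¹ = y⁻¹ → θ y = 1 := fun y hy e => by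
    obtain ⟨n, hn⟩ := hQ ⟨y, hy⟩
    refine one_Good (z := φ ⟨y, hy⟩) (n := n) (m := 2) (by rw [← map_pow, hn, map_one])
      (by decide) ?_
    have e1 : ⁅i, j⁆ * y * ⁅i, j⁆⁻¹ = y⁻¹ := by
      calc _ = i * ((i * j * i * j⁻¹)⁻¹ * (i * y * i⁻¹)) * (i * j * i * j⁻¹) * i⁻¹ := by
            rw [commutatorElement_def]
            group
        _ = _ := by
          rw [(h.rel.r3 _ (N y hy i)).inv_left.eq, ← e, pow_two]
          group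
    rw [pow_two, ← eq_inv_iff_mul_eq_one, ← map_inv]
    exact (hij y hy).symm.trans (congrArg θ e1)
  intro x hx
  obtain ⟨c, hc, y, hy, rfl, c1, c2⟩ := dec_inv hQ (t := i ^ 2) (fun x hx => N x hx _)
    (fun x hx => pow_mul i 2 2 ▸ h.rel.r1 x hx) hx
  have e : i * (c * y) * i⁻¹ = c * (i * y * i⁻¹) := by
    rw [← mul_assoc, (h.fix c hc c1).1.eq]
    group
  rw [e, hθ c hc y hy, hθ c hc _ (N y hy i), z y hy c2, z _ (N y hy i)]
  calc _ = i * (i ^ 2 * y * (i ^ 2)⁻¹) * i⁻¹ := by group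
    _ = _ := by
      rw [c2]
      group

end Pool.Agent.MP_a5588a_al.Solv

end

section

namespace Pool.Agent.MP_a5588a_al.Solv

open scoped commutatorElement

universe u

variable {G : Type u} {D : Type*} [Group G] [Group D]

section basic

variable {f : D →* G} {A B : Subgroup G} {V : Type*} [AddCommGroup V]
  {ρ : D →* AddMonoid.End V} {π : G → V} (h : Sect f A B ρ π) {x y : G}
include h

theorem Sect.one : π 1 = 0 := by simpa using h.add 1 A.one_mem 1 A.one_mem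

theorem Sect.inv (hx : x ∈ A) : π x⁻¹ = -π x :=
  eq_neg_of_add_eq_zero_right (by rw [← h.add x hx _ (A.inv_mem hx), mul_inv_cancel, h.one])

theorem Sect.pow (hx : x ∈ A) (n : ℕ) : π (x ^ n) = n • π x := by
  induction n with
  | zero => rw [pow_zero, zero_smul, h.one]
  | succ n ih => rw [pow_succ, h.add _ (A.pow_mem hx n) x hx, ih, succ_nsmul]

theorem Sect.comm (hA : ∀ g : D, ∀ x ∈ A, f g * x * (f g)⁻¹ ∈ A) (g : D) (hx : x ∈ A) :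
    π ⁅f g, x⁆ = ρ g (π x) - π x := by
  rw [commutatorElement_def, h.add _ (hA g x hx) _ (A.inv_mem hx), h.conj g x hx, h.inv hx,
    sub_eq_add_neg]

theorem Sect.three (h3 : ∀ x ∈ A, x ^ 3 ∈ B) : (3 : AddMonoid.End V) = 0 := by
  refine AddMonoidHom.ext fun v => ?_
  obtain ⟨x, hx, rfl⟩ := h.surj v
  exact (h.pow hx 3).symm.trans ((h.ker _ (A.pow_mem hx 3)).2 (h3 x hx))

theorem Sect.triv (hA : ∀ g : D, ∀ x ∈ A, f g * x * (f g)⁻¹ ∈ A) {g : D}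
    (hg : ∀ x ∈ A, ⁅f g, x⁆ ∈ B) : ρ g = 1 := by
  refine AddMonoidHom.ext fun v => ?_
  obtain ⟨x, hx, rfl⟩ := h.surj v
  exact sub_eq_zero.1 ((h.comm hA g hx).symm.trans
    ((h.ker _ (A.mul_mem (hA g x hx) (A.inv_mem hx))).2 (hg x hx)))

theorem Sect.finite [Finite G] : Finite V :=
  Finite.of_surjective π fun v => (h.surj v).imp fun _ c => c.2

/-- The preimage of a subgroup of the section. -/
def Sect.pre (U : AddSubgroup V) : Subgroup G where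
  carrier := {x | x ∈ A ∧ π x ∈ U}
  one_mem' := ⟨A.one_mem, h.one ▸ U.zero_mem⟩
  mul_mem' a b := ⟨A.mul_mem a.1 b.1, h.add _ a.1 _ b.1 ▸ U.add_mem a.2 b.2⟩
  inv_mem' a := ⟨A.inv_mem a.1, h.inv a.1 ▸ U.neg_mem a.2⟩

theorem Sect.mem_pre {U : AddSubgroup V} : x ∈ h.pre U ↔ x ∈ A ∧ π x ∈ U := Iff.rfl

theorem Sect.eq_iff (hx : x ∈ A) (hy : y ∈ A) : π x = π y ↔ x⁻¹ * y ∈ B := by
  rw [← h.ker _ (A.mul_mem (A.inv_mem hx) hy), h.add _ (A.inv_mem hx) y hy, h.inv hx,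
    neg_add_eq_zero]

theorem Sect.conj_eq [hA : A.Normal] (hy : y ∈ A) (hc : ⁅x, y⁆ ∈ B) :
    π (x * y * x⁻¹) = π y := by
  have m : ⁅x, y⁆ ∈ A := A.mul_mem (hA.conj_mem y hy x) (A.inv_mem hy)
  rw [show x * y * x⁻¹ = ⁅x, y⁆ * y by group, h.add _ m y hy, (h.ker _ m).2 hc, zero_add]

end basic

theorem exists_sect (f : D →* G) (A B : Subgroup G) (hBA : B ≤ A)
    (hA : ∀ g : D, ∀ x ∈ A, f g * x * (f g)⁻¹ ∈ A) (hB : ∀ g : D, ∀ x ∈ B, f g * x * (f g)⁻¹ ∈ B)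
    (hc : ∀ x ∈ A, ∀ y ∈ A, ⁅x, y⁆ ∈ B) :
    ∃ (V : Type u) (_ : AddCommGroup V) (ρ : D →* AddMonoid.End V) (π : G → V),
      Sect f A B ρ π := by
  classical
  have hN : (B.subgroupOf A).Normal := ⟨fun n hn g => by
    have := B.mul_mem (hc g g.2 n n.2) (Subgroup.mem_subgroupOf.1 hn)
    rwa [commutatorElement_def, inv_mul_cancel_right] at this⟩
  let i : CommGroup (A ⧸ B.subgroupOf A) :=
    { (inferInstance : Group (A ⧸ B.subgroupOf A)) with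
      mul_comm := by
        rintro ⟨a⟩ ⟨b⟩
        refine QuotientGroup.eq.2 ?_
        have := hc b⁻¹ (A.inv_mem b.2) a⁻¹ (A.inv_mem a.2)
        rw [commutatorElement_def, inv_inv, inv_inv] at this
        simpa [Subgroup.mem_subgroupOf, mul_assoc] using this }
  let c : D → A →* A := fun g =>
    MonoidHom.mk' (fun x => ⟨f g * x * (f g)⁻¹, hA g x x.2⟩) fun x y => Subtype.ext (by simp)
  refine ⟨Additive (A ⧸ B.subgroupOf A), inferInstance,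
    { toFun := fun g => MonoidHom.toAdditive
        (QuotientGroup.map _ _ (c g) fun x hx => hB g x hx)
      map_one' := AddMonoidHom.ext ?_
      map_mul' := fun g k => AddMonoidHom.ext ?_ },
    fun x => if h : x ∈ A then Additive.ofMul (QuotientGroup.mk ⟨x, h⟩) else 0,
    fun x hx y hy => ?_, fun x hx => ?_, ?_, fun g x hx => ?_⟩
  · rintro ⟨x⟩
    exact congrArg (QuotientGroup.mk (s := B.subgroupOf A)) (Subtype.ext (by simp [c]))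
  · rintro ⟨x⟩
    exact congrArg (QuotientGroup.mk (s := B.subgroupOf A)) (Subtype.ext (by simp [c, mul_assoc]))
  · rw [dif_pos hx, dif_pos hy, dif_pos (A.mul_mem hx hy)]
    rfl
  · rw [dif_pos hx]
    exact QuotientGroup.eq_one_iff (N := B.subgroupOf A) ⟨x, hx⟩
  · rintro ⟨x⟩
    exact ⟨x, x.2, dif_pos x.2⟩
  · rw [dif_pos hx, dif_pos (hA g x hx)]
    rfl

theorem exists_pair {f : D →* G} {A₁ B₁ A₂ B₂ A₃ B₃ : Subgroup G} [A₃.Normal] [B₃.Normal]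
    {V₁ V₂ V₃ : Type*} [AddCommGroup V₁] [AddCommGroup V₂] [AddCommGroup V₃]
    {ρ₁ : D →* AddMonoid.End V₁} {ρ₂ : D →* AddMonoid.End V₂} {ρ₃ : D →* AddMonoid.End V₃}
    {π₁ : G → V₁} {π₂ : G → V₂} {π₃ : G → V₃}
    (h₁ : Sect f A₁ B₁ ρ₁ π₁) (h₂ : Sect f A₂ B₂ ρ₂ π₂) (h₃ : Sect f A₃ B₃ ρ₃ π₃)
    (n₁ : ∀ g : D, ∀ x ∈ A₁, f g * x * (f g)⁻¹ ∈ A₁)
    (n₂ : ∀ g : D, ∀ x ∈ A₂, f g * x * (f g)⁻¹ ∈ A₂)
    (hA : ∀ x ∈ A₁, ∀ y ∈ A₂, ⁅x, y⁆ ∈ A₃)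
    (hB₁ : ∀ x ∈ A₁, x ∈ B₁ → ∀ y ∈ A₂, ⁅x, y⁆ ∈ B₃)
    (hB₂ : ∀ x ∈ A₁, ∀ y ∈ A₂, y ∈ B₂ → ⁅x, y⁆ ∈ B₃)
    (hz₁ : ∀ z ∈ A₃, ∀ x ∈ A₁, ⁅x, z⁆ ∈ B₃) (hz₂ : ∀ z ∈ A₃, ∀ y ∈ A₂, ⁅y, z⁆ ∈ B₃) :
    ∃ β : V₁ →+ V₂ →+ V₃, (∀ x ∈ A₁, ∀ y ∈ A₂, β (π₁ x) (π₂ y) = π₃ ⁅x, y⁆) ∧
      ∀ g v w, β (ρ₁ g v) (ρ₂ g w) = ρ₃ g (β v w) := by
  have L : ∀ x ∈ A₁, ∀ x' ∈ A₁, ∀ y ∈ A₂, π₃ ⁅x * x', y⁆ = π₃ ⁅x, y⁆ + π₃ ⁅x', y⁆ := by
    intro x hx x' hx' y hy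
    have m := hA x' hx' y hy
    rw [show ⁅x * x', y⁆ = x * ⁅x', y⁆ * x⁻¹ * ⁅x, y⁆ by group,
      h₃.add _ (Subgroup.Normal.conj_mem inferInstance _ m x) _ (hA x hx y hy),
      h₃.conj_eq m (hz₁ _ m x hx), add_comm]
  have R : ∀ x ∈ A₁, ∀ y ∈ A₂, ∀ y' ∈ A₂, π₃ ⁅x, y * y'⁆ = π₃ ⁅x, y⁆ + π₃ ⁅x, y'⁆ := by
    intro x hx y hy y' hy'
    have m := hA x hx y' hy'
    rw [show ⁅x, y * y'⁆ = ⁅x, y⁆ * (y * ⁅x, y'⁆ * y⁻¹) by group,
      h₃.add _ (hA x hx y hy) _ (Subgroup.Normal.conj_mem inferInstance _ m y),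
      h₃.conj_eq m (hz₂ _ m y hy)]
  have W : ∀ x ∈ A₁, ∀ x' ∈ A₁, ∀ y ∈ A₂, ∀ y' ∈ A₂, π₁ x = π₁ x' → π₂ y = π₂ y' →
      π₃ ⁅x, y⁆ = π₃ ⁅x', y'⁆ := by
    intro x hx x' hx' y hy y' hy' e e'
    have m := A₁.mul_mem (A₁.inv_mem hx) hx'
    have m' := A₂.mul_mem (A₂.inv_mem hy) hy'
    have a := L x hx _ m y' hy'
    have b := R x hx y hy _ m'
    rw [mul_inv_cancel_left] at a b
    rw [a, b, (h₃.ker _ (hA _ m y' hy')).2 (hB₁ _ m ((h₁.eq_iff hx hx').1 e) y' hy'),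
      (h₃.ker _ (hA x hx _ m')).2 (hB₂ x hx _ m' ((h₂.eq_iff hy hy').1 e')), add_zero, add_zero]
  choose r₁ m₁ e₁ using h₁.surj
  choose r₂ m₂ e₂ using h₂.surj
  have key : ∀ x ∈ A₁, ∀ y ∈ A₂, π₃ ⁅r₁ (π₁ x), r₂ (π₂ y)⁆ = π₃ ⁅x, y⁆ := fun x hx y hy =>
    W _ (m₁ _) x hx _ (m₂ _) y hy (e₁ _) (e₂ _)
  refine ⟨AddMonoidHom.mk' (fun v => AddMonoidHom.mk' (fun w => π₃ ⁅r₁ v, r₂ w⁆) fun w w' => ?_)
    fun v v' => AddMonoidHom.ext fun w => ?_, key, fun g v w => ?_⟩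
  · rw [← R _ (m₁ v) _ (m₂ w) _ (m₂ w')]
    exact W _ (m₁ _) _ (m₁ _) _ (m₂ _) _ (A₂.mul_mem (m₂ _) (m₂ _)) rfl
      (by rw [h₂.add _ (m₂ _) _ (m₂ _), e₂, e₂, e₂])
  · refine Eq.trans ?_ (L _ (m₁ v) _ (m₁ v') _ (m₂ w))
    exact W _ (m₁ _) _ (A₁.mul_mem (m₁ _) (m₁ _)) _ (m₂ _) _ (m₂ _)
      (by rw [h₁.add _ (m₁ _) _ (m₁ _), e₁, e₁, e₁]) rfl
  · have a := key _ (n₁ g _ (m₁ v)) _ (n₂ g _ (m₂ w))
    rw [h₁.conj g _ (m₁ v), h₂.conj g _ (m₂ w), e₁, e₂, ← conjugate_commutatorElement,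
      h₃.conj g _ (hA _ (m₁ v) _ (m₂ w))] at a
    exact a

end Pool.Agent.MP_a5588a_al.Solv

end

section

namespace Pool.Agent.MP_a5588a_al.Full

open Pool.Agent.MP_a5588a_al.Solv
open scoped commutatorElement

universe u v

variable {G : Type u} [Group G] [Finite G] {X B : Type*} [AddCommGroup X] [AddCommGroup B]
  {σ : G →* AddMonoid.End X} {φ : X →+ B} {M : Subgroup G}

open Finset in
theorem part_FOrb {Ω : Type*} {a b : Equiv.Perm Ω} (hab : Commute a b) (a3 : a ^ 3 = 1)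
    (b3 : b ^ 3 = 1) (S : Finset Ω) (f : Ω → B) (hS : ∀ i j, ∀ c ∈ S, (a ^ i * b ^ j) c ∈ S)
    (fr : ∀ c ∈ S, ∀ i < 3, ∀ j < 3, (a ^ i * b ^ j) c = c → i = 0 ∧ j = 0)
    (h0 : ∀ c ∈ S, ∑ p ∈ range 3 ×ˢ range 3, f ((a ^ p.1 * b ^ p.2) c) = 0) :
    ∑ c ∈ S, f c = 0 := by
  classical
  have ad : ∀ i j k l c, (a ^ i * b ^ j) ((a ^ k * b ^ l) c) = (a ^ (i + k) * b ^ (j + l)) c :=
    fun i j k l c => by
      rw [← Equiv.Perm.mul_apply, (hab.symm.pow_pow j k).mul_mul_mul_comm, pow_add, pow_add]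
  have md : ∀ i j, a ^ i * b ^ j = a ^ (i % 3) * b ^ (j % 3) := fun i j => by
    rw [← pow_eq_pow_mod i a3, ← pow_eq_pow_mod j b3]
  have iv : ∀ i j c, (a ^ (2 * i) * b ^ (2 * j)) ((a ^ i * b ^ j) c) = c := fun i j c => by
    rw [ad, md, show (2 * i + i) % 3 = 0 by omega, show (2 * j + j) % 3 = 0 by omega]
    simp
  let R : Setoid Ω := ⟨fun c d => ∃ i j, c = (a ^ i * b ^ j) d, fun c => ⟨0, 0, by simp⟩,
    fun ⟨i, j, h⟩ => ⟨2 * i, 2 * j, by rw [h, iv]⟩,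
    fun ⟨i, j, h⟩ ⟨k, l, h'⟩ => ⟨i + k, j + l, by rw [h, h', ad]⟩⟩
  refine sum_cancels_of_partition_cancels R fun c hc => ?_
  rw [← h0 c hc]
  refine (sum_nbij (fun p : ℕ × ℕ => (a ^ p.1 * b ^ p.2) c) (fun p _ => mem_filter.2
    ⟨hS _ _ c hc, _, _, rfl⟩) ?_ ?_ fun _ _ => rfl).symm
  · rintro ⟨i, j⟩ h1 ⟨k, l⟩ h2 e
    simp only [coe_product, Set.mem_prod, coe_range, Set.mem_Iio] at h1 h2
    have := fr c hc _ (Nat.mod_lt (2 * i + k) (by omega)) _ (Nat.mod_lt (2 * j + l) (by omega))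
      (by rw [← md, ← ad, ← show (a ^ i * b ^ j) c = (a ^ k * b ^ l) c from e, iv])
    exact Prod.ext (by omega) (by omega)
  · intro d hd
    obtain ⟨-, i, j, rfl⟩ := mem_filter.1 hd
    exact ⟨(i % 3, j % 3), by simp [Nat.mod_lt], by rw [md i j]⟩

open Finset in
theorem orb (h3 : (3 : AddMonoid.End X) = 0) (stab : ∀ g, g ∈ M ↔ ∀ x, φ (σ g x) = φ x)
    {J : Subgroup G} {y z : G} (hF : Free M J y z) {U : AddSubgroup X} (hU : Inv σ J U)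
    {N : AddMonoid.End X} (hN : N = (1 + σ y + σ y ^ 2) * (1 + σ z + σ z ^ 2))
    (h₁ : ∀ x, N x ∈ U) (h₂ : ∀ x ∈ U, N x = 0) : False := by
  classical
  have := Fintype.ofFinite (G ⧸ M)
  obtain ⟨Θ, hΘ⟩ : ∃ Θ : G ⧸ M → X →+ B, ∀ (g : G) x, Θ g x = φ (σ g⁻¹ x) :=
    ⟨fun c => φ.comp (σ c.out⁻¹), fun g x => by
      obtain ⟨m, hm⟩ := QuotientGroup.mk_out_eq_mul M g
      change φ (σ (Quotient.out (g : G ⧸ M))⁻¹ x) = _
      rw [hm, mul_inv_rev, map_mul]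
      exact (stab _).1 (inv_mem m.2) _⟩
  have act : ∀ (w : G) (c : G ⧸ M) x, Θ (w⁻¹ • c) x = Θ c (σ w x) := fun w c x => by
    induction c using QuotientGroup.induction_on with | H g =>
    rw [MulAction.Quotient.smul_mk, hΘ, hΘ, smul_eq_mul, mul_inv_rev, inv_inv, map_mul]
    rfl
  obtain ⟨O, hO⟩ : ∃ O : Finset (G ⧸ M), ∀ c, c ∈ O ↔ ∃ g ∈ J, (g : G ⧸ M) = c :=
    ⟨univ.filter _, fun c => mem_filter_univ c⟩
  have oi : ∀ w ∈ J, ∀ c ∈ O, w • c ∈ O := fun w hw c hc => by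
    obtain ⟨g, hg, rfl⟩ := (hO c).1 hc
    exact (hO _).2 ⟨w * g, mul_mem hw hg, rfl⟩
  obtain ⟨τ, hτ⟩ : ∃ τ : X →+ B, ∀ x, τ x = ∑ c ∈ O, Θ c x :=
    ⟨∑ c ∈ O, Θ c, fun x => AddMonoidHom.finsetSum_apply _ _ _⟩
  have ti : ∀ w ∈ J, ∀ x, τ (σ w x) = τ x := fun w hw x => by
    rw [hτ, hτ]
    refine sum_equiv (MulAction.toPerm w⁻¹) (fun c => ⟨oi _ (inv_mem hw) c, fun h => ?_⟩)
      fun c _ => (act w c x).symm
    simpa using oi w hw _ h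
  have wJ : ∀ i j : ℕ, y ^ i * z ^ j ∈ J := fun i j => mul_mem (pow_mem hF.yJ i) (pow_mem hF.zJ j)
  have eN : ∀ (ψ : X →+ B) x, ψ (N x) = ∑ p ∈ range 3 ×ˢ range 3, ψ (σ (y ^ p.1 * z ^ p.2) x) :=
    fun ψ x => by
      have : N = ∑ p ∈ range 3 ×ˢ range 3, σ (y ^ p.1 * z ^ p.2) := by
        simp only [hN, sum_product, sum_range_succ, sum_range_zero, map_mul, map_pow]
        noncomm_ring
      rw [this, ← map_sum ψ]
      exact congrArg ψ (AddMonoidHom.finsetSum_apply _ _ _)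
  obtain ⟨P, hP⟩ : ∃ P, P = MulAction.toPermHom G (G ⧸ M) := ⟨_, rfl⟩
  have p1 : ∀ k : G, (∀ g : G, g⁻¹ * k * g ∈ M) → P k = 1 := fun k hk => by
    ext c
    induction c using QuotientGroup.induction_on with | H g =>
    rw [hP]
    exact (QuotientGroup.eq.2 (mul_assoc g⁻¹ k g ▸ hk g)).symm
  have pc : Commute (P y)⁻¹ (P z)⁻¹ := (commutatorElement_eq_one_iff_commute.1
    (by rw [← map_commutatorElement, p1 _ hF.yz])).inv_inv
  have pe : ∀ (i j : ℕ) c, ((P y)⁻¹ ^ i * (P z)⁻¹ ^ j) c = (y ^ i * z ^ j)⁻¹ • c := fun i j c => by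
    rw [(pc.pow_pow i j).eq, inv_pow, inv_pow, ← mul_inv_rev, ← map_pow, ← map_pow, ← map_mul,
      ← map_inv, hP]
    rfl
  have o1 : ((1 : G) : G ⧸ M) ∈ O := (hO _).2 ⟨1, one_mem _, rfl⟩
  have m1 : ∀ g ∈ M, (g : G ⧸ M) = (1 : G) := fun g hg => QuotientGroup.eq.2 (by simpa using hg)
  have key : ∀ x, (∀ c ∈ O, Θ c (N x) = 0) → τ x = φ x := fun x hx => by
    rw [hτ, ← add_sum_erase _ _ o1, hΘ, part_FOrb pc
      (by rw [inv_pow, ← map_pow, p1 _ hF.y3, inv_one])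
      (by rw [inv_pow, ← map_pow, p1 _ hF.z3, inv_one]) _ (fun c => Θ c x) ?_ ?_ ?_]
    · simp
    · intro i j c hc
      rw [pe]
      refine mem_erase.2 ⟨fun e => (mem_erase.1 hc).1 ?_, oi _ (inv_mem (wJ i j)) _
        (mem_erase.1 hc).2⟩
      rw [inv_smul_eq_iff.1 e, MulAction.Quotient.smul_mk, smul_eq_mul, mul_one]
      exact m1 _ (mul_mem (pow_mem hF.yM i) (pow_mem hF.zM j))
    · intro c hc i hi j hj e
      obtain ⟨g, hg, rfl⟩ := (hO c).1 (mem_erase.1 hc).2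
      rw [pe, inv_smul_eq_iff, MulAction.Quotient.smul_mk, QuotientGroup.eq, smul_eq_mul,
        ← mul_assoc] at e
      exact (hF.free i j hi hj g hg e).resolve_left fun h => (mem_erase.1 hc).1 (m1 g h)
    · intro c hc
      simp only [pe, act]
      rw [← eN, hx c (mem_erase.1 hc).2]
  have all : ∀ x, τ x = φ x := fun x => key x fun c hc => by
    obtain ⟨g, hg, rfl⟩ := (hO c).1 hc
    have x3 : 3 • x = 0 := DFunLike.congr_fun h3 x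
    rw [hΘ, ← key _ fun c _ => by rw [h₂ _ (hU _ (inv_mem hg) _ (h₁ x)), map_zero],
      ti _ (inv_mem hg), eN, sum_congr rfl fun p _ => ti _ (wJ _ _) x, sum_const, card_product,
      card_range, mul_smul, ← map_nsmul, x3, map_zero, smul_zero]
  exact hF.nle fun g hg => (stab g).2 fun x => by rw [← all, ti g hg, all]

theorem ap_FOrb (f g : AddMonoid.End X) (x : X) : f (g x) = (f * g) x := rfl

omit [Finite G] in
theorem one_FOrb {X₁ X₂ : Type*} [AddCommGroup X₁] [AddCommGroup X₂]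
    {ρ₁ : G →* AddMonoid.End X₁} {ρ₂ : G →* AddMonoid.End X₂} {β : X₁ →+ X →+ X₂}
    (h : Tri ρ₁ σ ρ₂ β φ M) {g : G} (q : Quad ρ₂ g) (g3 : (ρ₁ g - 1) ^ 3 = 0) (v : X₁) (x : X) :
    β v ((1 + σ g + σ g ^ 2 : AddMonoid.End X) x) =
      β (((ρ₁ g - 1) ^ 2 : AddMonoid.End X₁) v) x +
      (ρ₂ g - 1) (β ((ρ₁ g * (ρ₁ g - 1)) v) x) := by
  have e : ρ₁ g * ρ₁ g * ρ₁ g = 1 := by
    rw [← sub_eq_zero, show ρ₁ g * ρ₁ g * ρ₁ g - 1 = (ρ₁ g - 1) ^ 3 + 3 * (ρ₁ g * ρ₁ g - ρ₁ g) by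
      noncomm_ring, g3, h.t₁, zero_mul, add_zero]
  have e1 : ∀ x, β v (σ g x) = ρ₂ g (β (ρ₁ g (ρ₁ g v)) x) := fun x => by
    rw [← h.eqv]
    exact congrArg (β · _) (DFunLike.congr_fun e v).symm
  have e2 : ρ₂ g (ρ₂ g (β (ρ₁ g v) x) - β (ρ₁ g v) x) - (ρ₂ g (β (ρ₁ g v) x) - β (ρ₁ g v) x) = 0 :=
    DFunLike.congr_fun q _
  have e3 : 3 • ρ₂ g (β (ρ₁ g v) x) = 0 := DFunLike.congr_fun h.t₂ _
  rw [sq, sq]
  change β v (x + σ g x + σ g (σ g x)) = β (ρ₁ g (ρ₁ g v - v) - (ρ₁ g v - v)) x +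
    (ρ₂ g (β (ρ₁ g (ρ₁ g v - v)) x) - β (ρ₁ g (ρ₁ g v - v)) x)
  rw [map_add, map_add, e1, e1, h.eqv]
  simp only [map_sub, AddMonoidHom.sub_apply] at e2 ⊢
  linear_combination (norm := module) e2 + e3

theorem kill {X₁ X₂ : Type*} [AddCommGroup X₁] [AddCommGroup X₂] {ρ₁ : G →* AddMonoid.End X₁}
    {ρ₂ : G →* AddMonoid.End X₂} {β : X₁ →+ X →+ X₂} (h : Tri ρ₁ σ ρ₂ β φ M) {J : Subgroup G}
    {y z : G} (hF : Free M J y z) {T : AddSubgroup X₂} (hT : Tee ρ₂ J y z T) (qy : Quad ρ₂ y)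
    (qz : Quad ρ₂ z) (hc : Commute (ρ₁ y) (ρ₁ z)) (y3 : (ρ₁ y - 1) ^ 3 = 0)
    (z3 : (ρ₁ z - 1) ^ 3 = 0) (yz : (ρ₁ y - 1) ^ 2 * (ρ₁ z - 1) = 0)
    (zy : (ρ₁ z - 1) ^ 2 * (ρ₁ y - 1) = 0) : False := by
  have c1 : Commute (ρ₁ z - 1) (ρ₁ y) := (hc.symm.sub_left (Commute.one_left _))
  have c2 : Commute (ρ₁ z - 1) ((ρ₁ y - 1) ^ 2) :=
    (c1.sub_right (Commute.one_right _)).pow_right 2
  have key : ∀ v x, β v (((1 + σ y + σ y ^ 2) * (1 + σ z + σ z ^ 2) : AddMonoid.End X) x) =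
      ((ρ₂ y - 1) * (ρ₂ z - 1)) (β ((ρ₁ z * (ρ₁ z - 1) * (ρ₁ y * (ρ₁ y - 1))) v) x) := by
    intro v x
    have a1 : ((ρ₁ z - 1) ^ 2 : AddMonoid.End X₁) (((ρ₁ y - 1) ^ 2 : AddMonoid.End X₁) v) = 0 := by
      rw [ap_FOrb, sq (ρ₁ y - 1), ← mul_assoc, zy, zero_mul]
      rfl
    have a2 : (ρ₁ z * (ρ₁ z - 1)) (((ρ₁ y - 1) ^ 2 : AddMonoid.End X₁) v) = 0 := by
      rw [ap_FOrb, mul_assoc, c2.eq, yz, mul_zero]
      rfl
    have a3 : ((ρ₁ z - 1) ^ 2 : AddMonoid.End X₁) ((ρ₁ y * (ρ₁ y - 1)) v) = 0 := by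
      rw [ap_FOrb, ← mul_assoc, (c1.pow_left 2).eq, mul_assoc, zy, mul_zero]
      rfl
    rw [← ap_FOrb, one_FOrb h qy y3, one_FOrb h qz z3, one_FOrb h qz z3, a1, a2, a3]
    simp only [map_zero, AddMonoidHom.zero_apply, zero_add]
    rfl
  refine orb h.t h.stab hF (U := ⨅ v, T.comap (β v)) (fun g hg x hx => ?_) rfl (fun x => ?_)
    fun x hx => h.nd _ fun v => ?_
  · refine AddSubgroup.mem_iInf.2 fun v => ?_
    have e : v = ρ₁ g (ρ₁ g⁻¹ v) := by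
      rw [ap_FOrb, ← map_mul, mul_inv_cancel, map_one]
      rfl
    rw [AddSubgroup.mem_comap, e, h.eqv]
    exact hT.inv g hg _ (AddSubgroup.mem_iInf.1 hx _)
  · refine AddSubgroup.mem_iInf.2 fun v => ?_
    rw [AddSubgroup.mem_comap, key]
    exact hT.mem _
  · rw [key]
    exact hT.kill _ (AddSubgroup.mem_iInf.1 hx _)

end Pool.Agent.MP_a5588a_al.Full

end
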