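import Mathlib

section

/-! The counting part of Dickson's argument, for an abstract action. -/

namespace Pool.Agent.MP_a5588a_al.Full

open MulAction Finset

variable {Γ X : Type*} [Group Γ] [Finite Γ] [MulAction Γ X]

theorem fix_orbit_R2 (x₀ : X)
    (ha : ∀ g : Γ, g ≠ 1 → ∃ p q : X, (∀ x, g • x = x ↔ x = p ∨ x = q) ∧ (p = q → g ^ 3 = 1))
    (u : Γ) (hu1 : u ≠ 1) (hu : ∀ x, u • x = x ↔ x = x₀) (g : Γ) (hg : g ^ 3 = 1) :
    ∃ h : Γ, g • h • x₀ = h • x₀ := by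
  have : Fact (Nat.Prime 3) := ⟨Nat.prime_three⟩
  have pg : ∀ y : Γ, y ^ 3 = 1 → IsPGroup 3 (Subgroup.zpowers y) := fun y hy => by
    rintro ⟨_, k, rfl⟩
    refine ⟨1, Subtype.ext ?_⟩
    change (y ^ k) ^ 3 ^ 1 = 1
    rw [pow_one, ← zpow_natCast, ← zpow_mul, mul_comm, zpow_mul, zpow_natCast, hy, one_zpow]
  have u3 : u ^ 3 = 1 := by
    obtain ⟨p, q, h, e⟩ := ha u hu1
    exact e (((hu p).1 ((h p).2 (.inl rfl))).trans ((hu q).1 ((h q).2 (.inr rfl))).symm)
  obtain ⟨S, hS⟩ := (pg u u3).exists_le_sylow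
  obtain ⟨S', hS'⟩ := (pg g hg).exists_le_sylow
  obtain ⟨h, rfl⟩ := MulAction.exists_smul_eq Γ S S'
  have uS : u ∈ S := hS (Subgroup.mem_zpowers u)
  have : Nontrivial S := ⟨⟨⟨u, uS⟩, 1, fun e => hu1 (congrArg Subtype.val e)⟩⟩
  obtain ⟨⟨z, hz⟩, z1⟩ := @exists_ne _ S.isPGroup'.center_nontrivial 1
  have zc : ∀ s ∈ S, s * z = z * s := fun s hs =>
    congrArg Subtype.val (Subgroup.mem_center_iff.1 hz ⟨s, hs⟩)
  have zx : (z : Γ) • x₀ = x₀ := (hu _).1 (by rw [← mul_smul, zc u uS, mul_smul, (hu x₀).2 rfl])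
  obtain ⟨p, q, hpq, -⟩ := ha z fun e => z1 (Subtype.ext (Subtype.ext e))
  have zu : ∀ y, (z : Γ) • y = y → y = x₀ := fun y hy => by
    have h1 : (z : Γ) • u • y = u • y := by rw [← mul_smul, ← zc u uS, mul_smul, hy]
    have h2 : u • y = x₀ → y = x₀ := fun e => by
      rw [← (hu x₀).2 rfl] at e
      exact smul_left_cancel u e
    rcases (hpq _).1 zx with a | a <;> rcases (hpq _).1 hy with b | b <;>
      rcases (hpq _).1 h1 with c | c
    all_goals first
      | exact b.trans a.symm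
      | exact h2 (c.trans a.symm)
      | exact (hu y).1 (c.trans b.symm)
  have gS : h⁻¹ * g * h ∈ (S : Subgroup Γ) := by
    have := hS' (Subgroup.mem_zpowers g)
    rw [Sylow.coe_subgroup_smul, Subgroup.mem_pointwise_smul_iff_inv_smul_mem] at this
    simpa using this
  refine ⟨h, ?_⟩
  have := zu ((h⁻¹ * g * h) • x₀) (by rw [← mul_smul, ← zc _ gS, mul_smul, zx])
  rw [mul_smul, mul_smul, inv_smul_eq_iff] at this
  exact this

theorem count_R2 (x₀ : X)
    (ha : ∀ g : Γ, g ≠ 1 → ∃ p q : X, (∀ x, g • x = x ↔ x = p ∨ x = q) ∧ (p = q → g ^ 3 = 1))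
    (u : Γ) (hu1 : u ≠ 1) (hu : ∀ x, u • x = x ↔ x = x₀) (hn : ∃ g : Γ, g • x₀ ≠ x₀) :
    (orbit Γ x₀).ncard + 2 ≤ 2 * Nat.card (stabilizer Γ x₀) := by
  classical
  have := Fintype.ofFinite Γ
  have hfo := fix_orbit_R2 x₀ ha u hu1 hu
  have u3 : u ^ 3 = 1 := by
    obtain ⟨p, q, h, e⟩ := ha u hu1
    exact e (((hu p).1 ((h p).2 (.inl rfl))).trans ((hu q).1 ((h q).2 (.inr rfl))).symm)
  have : Nonempty X := ⟨x₀⟩
  choose! p q hpq h3 using ha
  set S : Finset Γ := univ.erase 1 with hS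
  set Y : Finset X := S.biUnion fun g => {p g, q g} with hY
  have mY : ∀ x, x ∈ Y ↔ ∃ g : Γ, g ≠ 1 ∧ g • x = x := fun x => by
    simp only [hY, hS, mem_biUnion, mem_erase, mem_univ, and_true, mem_insert, mem_singleton]
    exact exists_congr fun g => and_congr_right fun h => (hpq g h x).symm
  set U : Finset Γ := S.filter fun g => p g = q g with hU
  have mU : ∀ g, g ∈ U ↔ g ≠ 1 ∧ ∀ x y : X, g • x = x → g • y = y → x = y := fun g => by
    simp only [hU, hS, mem_filter, mem_erase, mem_univ, and_true]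
    refine and_congr_right fun h => ⟨fun e x y hx hy => ?_, fun e =>
      e _ _ ((hpq g h _).2 (.inl rfl)) ((hpq g h _).2 (.inr rfl))⟩
    rw [hpq g h, ← e, or_self] at hx hy
    rw [hx, hy]
  set s : X → ℕ := fun x => #(univ.filter fun g : Γ => g • x = x) with hs
  set orb : X → Finset X := fun x => univ.image fun g : Γ => g • x with horb
  have mo : ∀ x y, y ∈ orb x ↔ ∃ g : Γ, g • x = y := fun x y => by simp [horb]
  have sc : ∀ x, Nat.card (stabilizer Γ x) = s x := fun x => by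
    rw [hs, Nat.card_eq_fintype_card, Fintype.card_subtype]
    rfl
  have oc : ∀ x, (orbit Γ x).ncard = #(orb x) := fun x => by
    rw [← Set.ncard_coe_finset]
    congr 1
    ext y
    simp [mo, mem_orbit_iff]
  have os : ∀ x, #(orb x) * s x = Fintype.card Γ := fun x => by
    rw [← oc, ← sc, ← index_stabilizer, Subgroup.index_mul_card, Nat.card_eq_fintype_card]
  have so : ∀ x, ∀ y ∈ orb x, s y = s x := fun x y hy => by
    obtain ⟨g, rfl⟩ := (mo x y).1 hy
    rw [← sc, ← sc, stabilizer_smul_eq_stabilizer_map_conj]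
    exact Subgroup.card_map_of_injective (MulAut.conj g).injective
  have s1 : ∀ x, #(S.filter fun g : Γ => g • x = x) + 1 = s x := fun x => by
    rw [hS, filter_erase, card_erase_add_one (by simp)]
  have s2 : ∀ x ∈ Y, 2 ≤ s x := fun x hx => by
    obtain ⟨g, g1, hg⟩ := (mY x).1 hx
    have : 0 < #(S.filter fun g : Γ => g • x = x) := card_pos.2 ⟨g, by simp [hS, g1, hg]⟩
    have := s1 x
    omega
  have oY : ∀ x ∈ Y, orb x ⊆ Y := fun x hx y hy => by
    obtain ⟨g, g1, hg⟩ := (mY x).1 hx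
    obtain ⟨h, rfl⟩ := (mo x y).1 hy
    refine (mY _).2 ⟨h * g * h⁻¹, fun e => g1 (by simpa using e), ?_⟩
    rw [mul_smul, mul_smul, inv_smul_smul, hg]
  have sumo : ∀ x, ∑ y ∈ orb x, #(S.filter fun g : Γ => g • y = y) + #(orb x) =
      Fintype.card Γ := fun x => by
    rw [card_eq_sum_ones (orb x), ← sum_add_distrib, sum_congr rfl fun y hy => (s1 y).trans
      (so x y hy), sum_const, smul_eq_mul, os]
  have dc : ∑ g ∈ S, #(Y.filter fun x => g • x = x) =
      ∑ x ∈ Y, #(S.filter fun g : Γ => g • x = x) :=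
    sum_card_bipartiteAbove_eq_sum_card_bipartiteBelow fun (g : Γ) (x : X) => g • x = x
  have e1 : ∑ g ∈ S, #(Y.filter fun x => g • x = x) + #U = 2 * #S := by
    rw [hU, card_filter, ← sum_add_distrib, card_eq_sum_ones S, mul_sum]
    refine sum_congr rfl fun g hg => ?_
    have g1 : g ≠ 1 := (mem_erase.1 hg).1
    have : Y.filter (fun x => g • x = x) = {p g, q g} := by
      ext x
      rw [mem_filter, mY, mem_insert, mem_singleton, ← hpq g g1]
      exact ⟨fun h => h.2, fun h => ⟨⟨g, g1, h⟩, h⟩⟩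
    rw [this]
    split_ifs with h
    · simp [h]
    · simp [card_pair h]
  have cS : #S + 1 = Fintype.card Γ := by rw [hS, card_erase_add_one (mem_univ _), card_univ]
  set k := #(U.filter fun g : Γ => g • x₀ = x₀) with hk
  have e2 : #U = #(orb x₀) * k := by
    have dc2 : ∑ g ∈ U, #((orb x₀).filter fun x => g • x = x) =
        ∑ x ∈ orb x₀, #(U.filter fun g : Γ => g • x = x) :=
      sum_card_bipartiteAbove_eq_sum_card_bipartiteBelow fun (g : Γ) (x : X) => g • x = x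
    rw [card_eq_sum_ones U, ← smul_eq_mul, ← sum_const]
    refine (sum_congr rfl fun g hg => ?_).trans (dc2.trans (sum_congr rfl fun x hx => ?_))
    · obtain ⟨h, e⟩ := hfo g (h3 g ((mU g).1 hg).1 (mem_filter.1 hg).2)
      refine (card_eq_one.2 ⟨h • x₀, eq_singleton_iff_unique_mem.2 ⟨?_, fun y hy => ?_⟩⟩).symm
      · exact mem_filter.2 ⟨(mo _ _).2 ⟨h, rfl⟩, e⟩
      · exact ((mU g).1 hg).2 _ _ (mem_filter.1 hy).2 e
    · obtain ⟨h, rfl⟩ := (mo _ _).1 hx
      have cU : ∀ h g : Γ, g ∈ U → h * g * h⁻¹ ∈ U := fun h g hg => by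
        refine (mU _).2 ⟨fun e => ((mU g).1 hg).1 (by simpa using e), fun x y hx hy => ?_⟩
        rw [mul_smul, mul_smul, smul_eq_iff_eq_inv_smul] at hx hy
        exact smul_left_cancel _ (((mU g).1 hg).2 _ _ hx hy)
      refine (card_bij (fun g _ => h * g * h⁻¹) (fun g hg => ?_) (fun a _ b _ e => by simpa using e)
        fun g hg => ⟨h⁻¹ * g * h⁻¹⁻¹, ?_, by group⟩).symm
      · rw [mem_filter] at hg ⊢
        exact ⟨cU h g hg.1, by rw [mul_smul, mul_smul, inv_smul_smul, hg.2]⟩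
      · rw [mem_filter] at hg ⊢
        exact ⟨cU _ g hg.1, by rw [inv_inv, mul_smul, mul_smul, hg.2, inv_smul_smul]⟩
  have k2 : 2 ≤ k := by
    have m1 : u ∈ U.filter fun g : Γ => g • x₀ = x₀ := mem_filter.2
      ⟨(mU u).2 ⟨hu1, fun x y hx hy => ((hu x).1 hx).trans ((hu y).1 hy).symm⟩, (hu _).2 rfl⟩
    have m2 : u⁻¹ ∈ U.filter fun g : Γ => g • x₀ = x₀ := by
      refine mem_filter.2 ⟨(mU _).2 ⟨inv_ne_one.2 hu1, fun x y hx hy => ?_⟩, ?_⟩
      · rw [inv_smul_eq_iff, eq_comm, hu] at hx hy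
        rw [hx, hy]
      · rw [inv_smul_eq_iff, eq_comm, hu]
    refine one_lt_card.2 ⟨u, m1, u⁻¹, m2, fun e => hu1 ?_⟩
    rw [← u3, pow_succ, pow_two, mul_eq_one_iff_eq_inv.2 e, one_mul]
  have kb : k + 1 ≤ s x₀ := by
    rw [← s1]
    exact Nat.succ_le_succ (card_le_card (filter_subset_filter _ (filter_subset _ _)))
  have n2 : 2 ≤ #(orb x₀) := by
    obtain ⟨g, hg⟩ := hn
    exact one_lt_card.2 ⟨_, (mo _ _).2 ⟨g, rfl⟩, _, (mo _ _).2 ⟨1, one_smul _ _⟩, hg⟩
  have x0Y : x₀ ∈ Y := (mY _).2 ⟨u, hu1, (hu _).2 rfl⟩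
  have e3 := sum_sdiff (f := fun y => #(S.filter fun g : Γ => g • y = y)) (oY x₀ x0Y)
  have e4 := sumo x₀
  have e5 := os x₀
  obtain ⟨j, hj⟩ : ∃ j, k = j + 2 := ⟨k - 2, by omega⟩
  rw [oc, sc]
  set n := #(orb x₀)
  set b := s x₀
  have e6 : ∑ y ∈ Y \ orb x₀, #(S.filter fun g : Γ => g • y = y) + (2 + n * (j + 1)) =
      Fintype.card Γ := by
    rw [hj] at e2
    have : n * (j + 2) = n * (j + 1) + n := by ring
    omega
  have half : ∀ x ∈ Y, 2 * #(orb x) ≤ Fintype.card Γ := fun x hx => by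
    rw [← os x, mul_comm]
    exact Nat.mul_le_mul_left _ (s2 x hx)
  have disj : ∀ x y, y ∉ orb x → Disjoint (orb x) (orb y) := fun x y hy =>
    disjoint_left.2 fun z hz hz' => by
      obtain ⟨g, rfl⟩ := (mo _ _).1 hz
      obtain ⟨h, e⟩ := (mo _ _).1 hz'
      exact hy ((mo _ _).2 ⟨h⁻¹ * g, by rw [mul_smul, ← e, inv_smul_smul]⟩)
  rcases (Y \ orb x₀).eq_empty_or_nonempty with h0 | ⟨x₁, h1⟩
  · rw [h0, sum_empty] at e6
    have : n * (j + 3) ≤ n * b := Nat.mul_le_mul_left _ (by omega)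
    have : n * (j + 3) = n * (j + 1) + 2 * n := by ring
    omega
  obtain ⟨h1Y, h1o⟩ := mem_sdiff.1 h1
  have sub : ∀ x ∈ Y \ orb x₀, orb x ⊆ Y \ orb x₀ := fun x hx =>
    subset_sdiff.2 ⟨oY x (mem_sdiff.1 hx).1, (disj _ _ (mem_sdiff.1 hx).2).symm⟩
  have all : Y \ orb x₀ = orb x₁ := by
    refine Subset.antisymm (fun x hx => by_contra fun hx' => ?_) (sub x₁ h1)
    have := sum_le_sum_of_subset (f := fun y => #(S.filter fun g : Γ => g • y = y))
      (union_subset (sub x₁ h1) (sub x hx))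
    rw [sum_union (disj _ _ hx')] at this
    have := sumo x₁
    have := sumo x
    have := half x₁ h1Y
    have := half x (mem_sdiff.1 hx).1
    omega
  rw [all] at e6
  have r : #(orb x₁) = 2 + n * (j + 1) := by
    have := sumo x₁
    omega
  have d1 : 2 + n * (j + 1) ∣ n * b := ⟨s x₁, by rw [e5, ← os x₁, r]⟩
  have d2 : 2 + n * (j + 1) ∣ 2 * b := by
    refine (Nat.dvd_add_right (d1.mul_right (j + 1))).1 ⟨b, by ring⟩
  have := Nat.le_of_dvd (by omega) d2
  have : n * (j + 1) = n * j + n := by ring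
  omega

end Pool.Agent.MP_a5588a_al.Full

end

section

/-! At most two double cosets off the Borel subgroup, for finite subgroups of `GL₂` in
characteristic three that contain a transvection. -/

namespace Pool.Agent.MP_a5588a_al.Full

open MulAction OnePoint

variable {K : Type*} [Field K] [DecidableEq K]

theorem cube_R2 (h3 : (3 : K) = 0) (g : GL (Fin 2) K)
    (h : (g 0 0 - g 1 1) ^ 2 + 4 * g 0 1 * g 1 0 = 0) (x : OnePoint K) : (g ^ 3) • x = x := by
  have e : ∀ i j, (g ^ 3) i j = (g.val * g.val * g.val) i j := fun i j => by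
    rw [pow_three', Units.val_mul, Units.val_mul]
  have e10 : (g ^ 3) 1 0 = 0 := by
    rw [e]
    simp only [Matrix.mul_apply, Fin.sum_univ_two]
    linear_combination g 1 0 * h + (g 1 0 * (g 0 0 * g 1 1 - g 0 1 * g 1 0)) * h3
  have e01 : (g ^ 3) 0 1 = 0 := by
    rw [e]
    simp only [Matrix.mul_apply, Fin.sum_univ_two]
    linear_combination g 0 1 * h + (g 0 1 * (g 0 0 * g 1 1 - g 0 1 * g 1 0)) * h3
  have e00 : (g ^ 3) 0 0 = (g ^ 3) 1 1 := by
    rw [e, e]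
    simp only [Matrix.mul_apply, Fin.sum_univ_two]
    linear_combination (g 0 0 - g 1 1) * h +
      ((g 0 0 - g 1 1) * (g 0 0 * g 1 1 - g 0 1 * g 1 0)) * h3
  have e11 : (g ^ 3) 1 1 ≠ 0 := fun z => (g ^ 3).det_ne_zero (by
    rw [Matrix.det_fin_two, z, e10]; ring)
  cases x with
  | infty => exact smul_infty_eq_self_iff.2 e10
  | coe c =>
    rw [smul_some_eq_ite, e10, e01, e00, zero_mul, zero_add, if_neg e11, add_zero,
      mul_div_cancel_left₀ _ e11]

theorem fix_R2 [IsAlgClosed K] (h3 : (3 : K) = 0) (g : GL (Fin 2) K)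
    (hg : ∃ x : OnePoint K, g • x ≠ x) :
    ∃ p q : OnePoint K, (∀ x, g • x = x ↔ x = p ∨ x = q) ∧
      (p = q → ∀ x : OnePoint K, (g ^ 3) • x = x) := by
  have h2 : (2 : K) ≠ 0 := fun e => one_ne_zero (α := K) (by linear_combination h3 - e)
  have : NeZero (2 : K) := ⟨h2⟩
  have fx : ∀ c : K, g • (c : OnePoint K) = c ↔
      g 1 0 * (c * c) + (g 1 1 - g 0 0) * c + -g 0 1 = 0 := fun c => by
    rw [← Matrix.GeneralLinearGroup.fixpointPolynomial_aeval_eq_zero_iff]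
    simp [Matrix.GeneralLinearGroup.fixpointPolynomial, sq, sub_eq_add_neg]
  by_cases hc : g 1 0 = 0
  · have hi : g • (∞ : OnePoint K) = ∞ := smul_infty_eq_self_iff.2 hc
    by_cases hd : g 1 1 - g 0 0 = 0
    · refine ⟨∞, ∞, fun x => ?_, fun _ => cube_R2 h3 g (by
        rw [hc]; linear_combination (g 1 1 - g 0 0) * hd)⟩
      cases x with
      | infty => simp [hi]
      | coe c =>
        refine ⟨fun h => ?_, fun h => by simp at h⟩
        obtain ⟨x, hx⟩ := hg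
        refine (hx ?_).elim
        cases x with
        | infty => exact hi
        | coe d =>
          rw [fx] at h ⊢
          rw [hc, hd] at h ⊢
          linear_combination h
    · refine ⟨∞, (g 0 1 / (g 1 1 - g 0 0) : K), fun x => ?_, fun h => by simp at h⟩
      cases x with
      | infty => simp [hi]
      | coe c =>
        rw [fx, hc, coe_eq_coe, eq_div_iff hd]
        simp only [coe_ne_infty, false_or]
        constructor <;> intro h <;> linear_combination h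
  · obtain ⟨s, hs⟩ := IsAlgClosed.exists_eq_mul_self (discrim (g 1 0) (g 1 1 - g 0 0) (-g 0 1))
    refine ⟨((-(g 1 1 - g 0 0) + s) / (2 * g 1 0) : K), ((-(g 1 1 - g 0 0) - s) / (2 * g 1 0) : K),
      fun x => ?_, fun h => cube_R2 h3 g ?_⟩
    · cases x with
      | infty => simp [smul_infty_eq_self_iff, hc]
      | coe c => rw [fx, quadratic_eq_zero_iff hc hs, coe_eq_coe, coe_eq_coe]
    · rw [coe_eq_coe, div_left_inj' (mul_ne_zero h2 hc)] at h
      have s0 : s = 0 := (mul_eq_zero.1 (show 2 * s = 0 by linear_combination h)).resolve_left h2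
      rw [s0, discrim] at hs
      linear_combination hs

variable {L : Type*} [Group L] (π : L →* GL (Fin 2) K)

/-- `g` acts as the affine map `x ↦ μ x + β`. -/
def Aff (g : L) (μ β : K) : Prop :=
  π g • (∞ : OnePoint K) = ∞ ∧ ∀ x : K, π g • (x : OnePoint K) = (μ * x + β : K)

variable {π}

theorem Aff.mul {g h : L} {μ β ν γ : K} (a : Aff π g μ β) (b : Aff π h ν γ) :
    Aff π (g * h) (μ * ν) (μ * γ + β) :=
  ⟨by rw [map_mul, mul_smul, b.1, a.1], fun x => by
    rw [map_mul, mul_smul, b.2, a.2, coe_eq_coe]; ring⟩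

theorem Aff.inv {g : L} {μ β : K} (a : Aff π g μ β) (h : μ ≠ 0) : Aff π g⁻¹ μ⁻¹ (-(μ⁻¹ * β)) :=
  ⟨by rw [map_inv, inv_smul_eq_iff, a.1], fun x => by
    rw [map_inv, inv_smul_eq_iff, a.2, coe_eq_coe]; field_simp; ring⟩

theorem aff_of {g : L} (h : π g • (∞ : OnePoint K) = ∞) : ∃ μ β, μ ≠ 0 ∧ Aff π g μ β := by
  have hc := smul_infty_eq_self_iff.1 h
  have hd := (π g).det_ne_zero
  rw [Matrix.det_fin_two, hc, mul_zero, sub_zero, mul_ne_zero_iff] at hd
  refine ⟨π g 0 0 / π g 1 1, π g 0 1 / π g 1 1, div_ne_zero hd.1 hd.2, h, fun x => ?_⟩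
  rw [smul_some_eq_ite, hc, zero_mul, zero_add, if_neg hd.2, coe_eq_coe]
  ring

theorem nonreg_R2 [Finite L] {x y : K} {g h : L} (gi : π g • (∞ : OnePoint K) = ∞)
    (hi : π h • (∞ : OnePoint K) = ∞) (gx : π g • (x : OnePoint K) = x)
    (hy : π h • (y : OnePoint K) = y) (g1 : ∃ z : OnePoint K, π g • z ≠ z)
    (h1 : ∃ z : OnePoint K, π h • z ≠ z) :
    ∃ m : L, π m • (∞ : OnePoint K) = ∞ ∧ π m • (y : OnePoint K) = x := by
  let U : Set K := {t | ∃ m : L, Aff π m 1 t}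
  have Uf : U.Finite := by
    refine Set.Finite.of_finite_image (f := ((↑) : K → OnePoint K))
      ((Set.finite_range fun m : L => π m • ((0 : K) : OnePoint K)).subset ?_) coe_injective.injOn
    rintro _ ⟨t, ⟨m, hm⟩, rfl⟩
    exact ⟨m, by simp [hm.2]⟩
  have key : ∀ {g : L} {x : K}, π g • (∞ : OnePoint K) = ∞ → π g • (x : OnePoint K) = x →
      (∃ z : OnePoint K, π g • z ≠ z) → ∃ μ, μ ≠ 0 ∧ Aff π g μ ((1 - μ) * x) ∧
        ∀ t, (1 - μ) * t ∈ U → t ∈ U := by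
    intro g x gi gx ⟨z, hz⟩
    obtain ⟨μ, β, m0, a⟩ := aff_of gi
    rw [a.2, coe_eq_coe] at gx
    obtain rfl : β = (1 - μ) * x := by linear_combination gx
    have m1 : 1 - μ ≠ 0 := fun e => hz (by
      cases z with
      | infty => exact gi
      | coe c => rw [a.2, coe_eq_coe]; linear_combination (x - c) * e)
    refine ⟨μ, m0, a, fun t ht => ?_⟩
    have mp : Set.MapsTo (fun t => (1 - μ) * t) U U := fun t ⟨m, hm⟩ =>
      ⟨m * (g * m * g⁻¹)⁻¹, by
        convert hm.mul (((a.mul hm).mul (a.inv m0)).inv (by simp [m0])) using 1 <;>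
          (field_simp; try ring)⟩
    obtain ⟨t', h', e⟩ := ((Uf.injOn_iff_bijOn_of_mapsTo mp).1
      (mul_right_injective₀ m1).injOn).surjOn ht
    rwa [← mul_left_cancel₀ m1 e]
  obtain ⟨μ, m0, a, ha⟩ := key gi gx g1
  obtain ⟨ν, n0, b, hb⟩ := key hi hy h1
  obtain ⟨m, hm⟩ : x - y ∈ U := hb _ (ha _ ⟨g * h * (h * g)⁻¹, by
    convert (a.mul b).mul ((b.mul a).inv (mul_ne_zero n0 m0)) using 1 <;> (field_simp; try ring)⟩)
  exact ⟨m, hm.1, by rw [hm.2, coe_eq_coe]; ring⟩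

theorem orbits_R2 [IsAlgClosed K] [Finite L] (h3 : (3 : K) = 0) (d : L) (d0 : π d 1 0 = 0)
    (d1 : π d 0 0 = π d 1 1) (d2 : π d 0 1 ≠ 0) (h : Fin 3 → L) (hh : ∀ i, π (h i) 1 0 ≠ 0) :
    ∃ i j, i ≠ j ∧ ∃ m : L, π m • (∞ : OnePoint K) = ∞ ∧
      π m • π (h i) • (∞ : OnePoint K) = π (h j) • ∞ := by
  let τ : L →* Equiv.Perm (OnePoint K) := (toPermHom (GL (Fin 2) K) (OnePoint K)).comp π
  have τa : ∀ (g : L) (x : OnePoint K), τ.rangeRestrict g • x = π g • x := fun g x => rfl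
  have sj := τ.rangeRestrict_surjective
  have : Finite τ.range := .of_surjective _ sj
  have ne1 : ∀ g : L, τ.rangeRestrict g ≠ 1 ↔ ∃ z : OnePoint K, π g • z ≠ z := fun g => by
    rw [← not_forall, not_iff_not]
    exact ⟨fun e z => by rw [← τa, e, one_smul], fun e => Subtype.ext (Equiv.ext e)⟩
  have d11 : π d 1 1 ≠ 0 := fun z => (π d).det_ne_zero (by rw [Matrix.det_fin_two, z, d0]; ring)
  have df : ∀ x : OnePoint K, π d • x = x ↔ x = ∞ := fun x => by
    cases x with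
    | infty => simp [smul_infty_eq_self_iff, d0]
    | coe c =>
      rw [smul_some_eq_ite, d0, zero_mul, zero_add, if_neg d11, coe_eq_coe, div_eq_iff d11, d1]
      exact ⟨fun e => (d2 (by linear_combination e)).elim, fun e => by simp at e⟩
  have hi : ∀ i, π (h i) • (∞ : OnePoint K) ≠ ∞ := fun i e => hh i (smul_infty_eq_self_iff.1 e)
  have cnt := count_R2 (Γ := τ.range) (∞ : OnePoint K) (fun g g1 => by
      obtain ⟨g, rfl⟩ := sj g
      obtain ⟨p, q, a, b⟩ := fix_R2 h3 (π g) ((ne1 g).1 g1)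
      refine ⟨p, q, a, fun e => ?_⟩
      rw [← map_pow]
      exact by_contra fun c => by
        obtain ⟨z, hz⟩ := (ne1 _).1 c
        exact hz (by rw [map_pow]; exact b e z))
    (τ.rangeRestrict d) ((ne1 d).2 ⟨(0 : K), fun e => by simpa using (df _).1 e⟩) df
    ⟨τ.rangeRestrict (h 0), hi 0⟩
  let Reg : Fin 3 → Prop := fun i => ∀ m : L, π m • (∞ : OnePoint K) = ∞ →
    π m • π (h i) • (∞ : OnePoint K) = π (h i) • ∞ → ∀ z : OnePoint K, π m • z = z
  by_contra! hne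
  have c1 : ∀ i j, i ≠ j → Reg i ∨ Reg j := fun i j ij => by
    by_contra! c
    simp only [Reg, not_forall] at c
    obtain ⟨⟨g, gi, gx, g1⟩, g', gi', gx', g1'⟩ := c
    obtain ⟨x, hx⟩ := ne_infty_iff_exists.1 (hi i)
    obtain ⟨y, hy⟩ := ne_infty_iff_exists.1 (hi j)
    rw [← hx] at gx
    rw [← hy] at gx'
    obtain ⟨m, a, b⟩ := nonreg_R2 gi' gi gx' gx g1' g1
    exact hne i j ij m a (by rw [← hx, ← hy, b])
  have c2 : ∀ i j, i ≠ j → Reg i → Reg j → False := fun i j ij ri rj => by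
    let B := stabilizer τ.range (∞ : OnePoint K)
    let f : Option (B ⊕ B) → orbit τ.range (∞ : OnePoint K) := fun o => match o with
      | none => ⟨∞, mem_orbit_self _⟩
      | Option.some (.inl b) => ⟨_, b * τ.rangeRestrict (h i), rfl⟩
      | Option.some (.inr b) => ⟨_, b * τ.rangeRestrict (h j), rfl⟩
    have aux : ∀ i j, ∀ b c : B, (b * τ.rangeRestrict (h i)) • (∞ : OnePoint K) =
        (c * τ.rangeRestrict (h j)) • (∞ : OnePoint K) → ∃ m : L,
        τ.rangeRestrict m = (c⁻¹ * b : B) ∧ π m • (∞ : OnePoint K) = ∞ ∧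
        π m • π (h i) • (∞ : OnePoint K) = π (h j) • ∞ := fun i j b c e => by
      obtain ⟨m, hm⟩ := sj (c⁻¹ * b : B)
      refine ⟨m, hm, by rw [← τa, hm]; exact (c⁻¹ * b).2, ?_⟩
      rw [← τa, ← τa, ← τa, hm, Subgroup.coe_mul, mul_smul, ← mul_smul (b : τ.range), e, mul_smul,
        Subgroup.coe_inv, inv_smul_smul]
    have a0 : ∀ i, ∀ b : B, (b * τ.rangeRestrict (h i)) • (∞ : OnePoint K) ≠ ∞ := fun i b e =>
      hi i (by rw [mul_smul, smul_eq_iff_eq_inv_smul] at e; exact e.trans b⁻¹.2)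
    have a1 : ∀ i, Reg i → ∀ b c : B, (b * τ.rangeRestrict (h i)) • (∞ : OnePoint K) =
        (c * τ.rangeRestrict (h i)) • (∞ : OnePoint K) → b = c := fun i r b c e => by
      obtain ⟨m, e1, e2, e3⟩ := aux i i b c e
      have : τ.rangeRestrict m = 1 := by_contra fun c => by
        obtain ⟨z, hz⟩ := (ne1 _).1 c
        exact hz (r m e2 e3 z)
      rw [this] at e1
      exact (inv_mul_eq_one.1 (Subtype.ext e1.symm)).symm
    have fi : Function.Injective f := by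
      rintro (_ | b | b) (_ | c | c) e <;> replace e := congrArg Subtype.val e
      · rfl
      · exact (a0 _ _ e.symm).elim
      · exact (a0 _ _ e.symm).elim
      · exact (a0 _ _ e).elim
      · rw [a1 i ri b c e]
      · obtain ⟨m, -, e2, e3⟩ := aux _ _ b c e
        exact (hne i j ij m e2 e3).elim
      · exact (a0 _ _ e).elim
      · obtain ⟨m, -, e2, e3⟩ := aux _ _ b c e
        exact (hne j i ij.symm m e2 e3).elim
      · rw [a1 j rj b c e]
    have : Finite (orbit τ.range (∞ : OnePoint K)) := Set.finite_range _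
    have := Nat.card_le_card_of_injective f fi
    rw [Finite.card_option, Nat.card_sum, Nat.card_coe_set_eq] at this
    change Nat.card (stabilizer τ.range (∞ : OnePoint K)) +
      Nat.card (stabilizer τ.range (∞ : OnePoint K)) + 1 ≤ _ at this
    omega
  rcases c1 0 1 (by decide) with a | a <;> rcases c1 0 2 (by decide) with b | b <;>
    rcases c1 1 2 (by decide) with c | c
  all_goals first
    | exact c2 0 1 (by decide) a c
    | exact c2 0 2 (by decide) a c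
    | exact c2 0 1 (by decide) b a
    | exact c2 1 2 (by decide) a b

/-- At most two double cosets off the upper triangular subgroup. -/
theorem dl_R2 [IsAlgClosed K] [Finite L] (h3 : (3 : K) = 0) (d : L) (d0 : π d 1 0 = 0)
    (d1 : π d 0 0 = π d 1 1) (d2 : π d 0 1 ≠ 0) (h : Fin 3 → L) (hh : ∀ i, π (h i) 1 0 ≠ 0) :
    ∃ i j, i ≠ j ∧ ∃ m m' : L, π m 1 0 = 0 ∧ π m' 1 0 = 0 ∧ h j = m * h i * m' := by
  obtain ⟨i, j, ij, m, a, b⟩ := orbits_R2 h3 d d0 d1 d2 h hh
  refine ⟨i, j, ij, m, (m * h i)⁻¹ * h j, smul_infty_eq_self_iff.1 a,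
    smul_infty_eq_self_iff.1 ?_, by group⟩
  rw [map_mul, mul_smul, ← b, map_inv, map_mul, inv_smul_eq_iff, mul_smul]

end Pool.Agent.MP_a5588a_al.Full

end

section

/-! Two quadratic elements act through two by two matrices over the ring generated by their
anticommutator. -/

namespace Pool.Agent.MP_a5588a_al.Full

variable {J V R : Type*} [Group J] [AddCommGroup V] [CommRing R] [Module R V]

/-- `d = 1 + B` and `w = 1 + B'` are quadratic, `X` acts as the anticommutator, and `X ^ N` as an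
idempotent. -/
structure Two (ρ : J →* AddMonoid.End V) (d w : J) (X : R) (B B' : V →ₗ[R] V) (N : ℕ) : Prop where
  hd : ∀ v, ρ d v = v + B v
  hw : ∀ v, ρ w v = v + B' v
  BB : ∀ v, B (B v) = 0
  BB' : ∀ v, B' (B' v) = 0
  hX : ∀ v, X • v = B (B' v) + B' (B v)
  N0 : 0 < N
  hN : ∀ v : V, X ^ N • X ^ N • v = X ^ N • v

/-- The matrix `A` describes the action of `x` on `ker B + B' (ker B)`. -/
def Rel (ρ : J →* AddMonoid.End V) (B B' : V →ₗ[R] V) (x : J) (A : Matrix (Fin 2) (Fin 2) R) :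
    Prop :=
  ∀ u v, B u = 0 → B v = 0 →
    ρ x (u + B' v) = (A 0 0 • u + A 0 1 • v) + B' (A 1 0 • u + A 1 1 • v)

variable {ρ : J →* AddMonoid.End V} {d w : J} {X : R} {B B' : V →ₗ[R] V} {N : ℕ}

theorem mul_ap (ρ : J →* AddMonoid.End V) (x y : J) (v : V) : ρ (x * y) v = ρ x (ρ y v) := by
  rw [map_mul]; rfl

theorem Rel.mul {x y : J} {A A' : Matrix (Fin 2) (Fin 2) R} (h : Rel ρ B B' x A)
    (h' : Rel ρ B B' y A') : Rel ρ B B' (x * y) (A * A') := fun u v hu hv => by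
  rw [mul_ap, h' u v hu hv, h _ _ (by simp [hu, hv]) (by simp [hu, hv])]
  simp only [Matrix.mul_apply, Fin.sum_univ_two]
  congr 1
  · module
  · congr 1
    module

theorem Rel.one : Rel ρ B B' 1 1 := fun u v _ _ => by simp

theorem Rel.fst {x : J} {A : Matrix (Fin 2) (Fin 2) R} (h : Rel ρ B B' x A) {u : V}
    (hu : B u = 0) : ρ x u = A 0 0 • u + B' (A 1 0 • u) := by
  simpa using h u 0 hu (map_zero B)

theorem inv_quad {g : J} {C : V →ₗ[R] V} (h : ∀ v, ρ g v = v + C v) (h2 : ∀ v, C (C v) = 0)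
    (v : V) : ρ g⁻¹ v = v - C v := by
  have : ρ g (v - C v) = v := by rw [h, map_sub, h2]; abel
  conv_lhs => rw [← this, ← mul_ap, inv_mul_cancel, map_one]
  rfl

namespace Two

variable (t : Two ρ d w X B B' N)
include t

theorem BB'_eq {v : V} (hv : B v = 0) : B (B' v) = X • v := by rw [t.hX, hv, map_zero, add_zero]

theorem rel_d : Rel ρ B B' d !![1, X; 0, 1] := fun u v hu hv => by
  rw [t.hd, map_add, hu, t.BB'_eq hv]
  simp
  abel

theorem rel_di : Rel ρ B B' d⁻¹ !![1, -X; 0, 1] := fun u v hu hv => by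
  rw [inv_quad t.hd t.BB, map_add, hu, t.BB'_eq hv]
  simp
  abel

theorem rel_w : Rel ρ B B' w !![1, 0; 1, 1] := fun u v _ _ => by
  rw [t.hw, map_add, t.BB']
  simp
  abel

theorem rel_wi : Rel ρ B B' w⁻¹ !![1, 0; -1, 1] := fun u v _ _ => by
  rw [inv_quad t.hw t.BB', map_add, t.BB']
  simp
  abel

theorem lin {x : J} (hx : x ∈ Subgroup.closure {d, w}) (r : R) (v : V) :
    ρ x (r • v) = r • ρ x v := by
  induction hx using Subgroup.closure_induction'' generalizing v with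
  | one => simp
  | mem x hx => rcases hx with rfl | rfl <;> simp [t.hd, t.hw]
  | inv_mem x hx =>
    rcases hx with rfl | rfl <;> simp [inv_quad t.hd t.BB, inv_quad t.hw t.BB', smul_sub]
  | mul x y _ _ hx hy => rw [mul_ap, mul_ap, hy, hx]

theorem ex {x : J} (hx : x ∈ Subgroup.closure {d, w}) : ∃ A : Matrix (Fin 2) (Fin 2) R,
    Rel ρ B B' x A ∧ A.det = 1 ∧ (∃ g, A 0 0 = 1 + X * g) ∧ ∃ g, A 0 1 = X * g := by
  induction hx using Subgroup.closure_induction'' with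
  | one => exact ⟨1, .one, by simp, ⟨0, by simp⟩, 0, by simp⟩
  | mem x hx =>
    rcases hx with rfl | rfl
    · exact ⟨_, t.rel_d, by simp, ⟨0, by simp⟩, 1, by simp⟩
    · exact ⟨_, t.rel_w, by simp, ⟨0, by simp⟩, 0, by simp⟩
  | inv_mem x hx =>
    rcases hx with rfl | rfl
    · exact ⟨_, t.rel_di, by simp, ⟨0, by simp⟩, -1, by simp⟩
    · exact ⟨_, t.rel_wi, by simp, ⟨0, by simp⟩, 0, by simp⟩
  | mul x y _ _ hx hy =>
    obtain ⟨A, a, a1, ⟨g, a2⟩, g', a3⟩ := hx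
    obtain ⟨A', b, b1, ⟨h, b2⟩, h', b3⟩ := hy
    refine ⟨_, a.mul b, by rw [Matrix.det_mul, a1, b1, one_mul],
      ⟨g + h + X * g * h + g' * A' 1 0, ?_⟩, A 0 0 * h' + g' * A' 1 1, ?_⟩
    · rw [Matrix.mul_apply, Fin.sum_univ_two, a2, a3, b2]; ring
    · rw [Matrix.mul_apply, Fin.sum_univ_two, a3, b3]; ring

theorem uniq {s v : V} (hs : B s = 0) (hv : B v = 0) (h1 : X ^ N • v = v) (h : s + B' v = 0) :
    s = 0 ∧ v = 0 := by
  have h2 : X • v = 0 := by rw [← t.BB'_eq hv, ← zero_add (B (B' v)), ← hs, ← map_add, h, map_zero, hs]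
  have h3 : v = 0 := by
    obtain ⟨k, rfl⟩ := Nat.exists_eq_succ_of_ne_zero t.N0.ne'
    rw [← h1, pow_succ, mul_smul, h2, smul_zero]
  rw [h3, map_zero, add_zero] at h
  exact ⟨h, h3⟩

theorem rel_uniq {x : J} {A A' : Matrix (Fin 2) (Fin 2) R} (h : Rel ρ B B' x A)
    (h' : Rel ρ B B' x A') {u : V} (hu : B u = 0) (i j : Fin 2) :
    (A i j - A' i j) • X ^ N • u = 0 := by
  have hy : B (X ^ N • u) = 0 := by simp [hu]
  have e : ∀ r : R, X ^ N • r • X ^ N • u = r • X ^ N • u := fun r => by rw [smul_comm, t.hN]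
  have h0 := t.uniq (s := (A 0 0 - A' 0 0) • X ^ N • u) (v := (A 1 0 - A' 1 0) • X ^ N • u)
    (by simp [hu]) (by simp [hu]) (e _) (by
      have := (h.fst hy).symm.trans (h'.fst hy)
      rw [sub_smul, sub_smul, map_sub, ← sub_eq_zero.2 this]
      abel)
  have h1 := t.uniq (s := (A 0 1 - A' 0 1) • X ^ N • u) (v := (A 1 1 - A' 1 1) • X ^ N • u)
    (by simp [hu]) (by simp [hu]) (e _) (by
      have := (h 0 _ (map_zero B) hy).symm.trans (h' 0 _ (map_zero B) hy)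
      simp only [smul_zero, zero_add] at this
      rw [sub_smul, sub_smul, map_sub, ← sub_eq_zero.2 this]
      abel)
  fin_cases i <;> fin_cases j
  exacts [h0.1, h1.1, h0.2, h1.2]

theorem exists_hom {K : Type*} [Field K] (ψ : R →+* K) (Z : AddSubgroup V)
    (hZ : ∀ u ∈ Z, B u = 0) (hψ : ∀ r : R, (∀ u ∈ Z, r • X ^ N • u = 0) → ψ r = 0) :
    ∃ π : Subgroup.closure ({d, w} : Set J) →* GL (Fin 2) K, ∀ x A, Rel ρ B B' x.1 A →
      ∀ i j, π x i j = ψ (A i j) := by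
  choose A hA _ using fun x : Subgroup.closure ({d, w} : Set J) => t.ex x.2
  have e : ∀ x A', Rel ρ B B' x.1 A' → (A x).map ψ = A'.map ψ := fun x A' h => by
    ext i j
    rw [Matrix.map_apply, Matrix.map_apply, ← sub_eq_zero, ← map_sub]
    exact hψ _ fun u hu => t.rel_uniq (hA x) h (hZ u hu) i j
  let f : Subgroup.closure ({d, w} : Set J) →* Matrix (Fin 2) (Fin 2) K :=
    { toFun := fun x => (A x).map ψ
      map_one' := by rw [e 1 1 .one, Matrix.map_one _ ψ.map_zero ψ.map_one]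
      map_mul' := fun x y => by rw [e (x * y) _ ((hA x).mul (hA y)), Matrix.map_mul] }
  exact ⟨f.toHomUnits, fun x A' h i j => congrFun (congrFun (e x A' h) i) j⟩

end Two

end Pool.Agent.MP_a5588a_al.Full

end

section

/-! An invariant subgroup fixed by the quadratic elements of `M` is invariant under the
anticommutator. -/

namespace Pool.Agent.MP_a5588a_al.Full

variable {J V : Type*} [Group J] [AddCommGroup V]

/-- The anticommutator of `d - 1` and `w - 1`. -/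
def cc (ρ : J →* AddMonoid.End V) (d w : J) : AddMonoid.End V :=
  (ρ d - 1) * (ρ w - 1) + (ρ w - 1) * (ρ d - 1)

/-- `D` is a normal set of quadratic elements, each in exactly one conjugate of `M`, and `Z` is an
`M`-invariant subgroup fixed by `D ∩ M`. -/
structure HypR2 (ρ : J →* AddMonoid.End V) (M : Subgroup J) (D : Set J) (Z : AddSubgroup V) :
    Prop where
  three : ∀ v : V, v + v + v = 0
  conj : ∀ d ∈ D, ∀ g, g * d * g⁻¹ ∈ D
  quad : ∀ d ∈ D, ∀ v, ρ d (ρ d v - v) = ρ d v - v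
  inv : ∀ m ∈ M, ∀ u ∈ Z, ρ m u ∈ Z
  h1 : ∀ d ∈ D, d ∈ M → ∀ u ∈ Z, ρ d u = u
  h2 : ∀ d ∈ D, d ∈ M → ∀ x, x * d * x⁻¹ ∈ M → x ∈ M
  h3 : ∀ w ∈ D, w ∉ M → ∀ u ∈ Z, ρ w u = u → u = 0
  h4 : ∀ d ∈ D, d ∈ M → ∀ w ∈ D, ∃ x ∈ Subgroup.closure {d, w}, x⁻¹ * w * x ∈ M

theorem cc_ap (ρ : J →* AddMonoid.End V) (d w : J) (v : V) :
    cc ρ d w v = (ρ d (ρ w v - v) - (ρ w v - v)) + (ρ w (ρ d v - v) - (ρ d v - v)) := rfl

variable {R : Type*} [CommRing R] [Module R V] {ρ : J →* AddMonoid.End V} {d w : J} {X : R}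
  {B B' : V →ₗ[R] V} {N : ℕ} {M : Subgroup J} {D : Set J} {Z : AddSubgroup V}

namespace Two

variable (t : Two ρ d w X B B' N) (H : HypR2 ρ M D Z) (hd : d ∈ D) (hdM : d ∈ M)
include t H hd hdM

theorem kerB {u : V} (hu : u ∈ Z) : B u = 0 := by
  simpa [t.hd] using H.h1 d hd hdM u hu

theorem p0 (hw : w ∈ D) {u : V} (hu : u ∈ Z) : B' (u - X ^ N • u) = 0 := by
  obtain ⟨x, hx, hM⟩ := H.h4 d hd hdM w hw
  obtain ⟨A, a, -, ⟨g, hg⟩, -⟩ := t.ex hx
  have h1 := H.h1 _ (by simpa using H.conj w hw x⁻¹) hM u hu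
  have h2 : ρ w (ρ x u) = ρ x u := by
    conv_rhs => rw [← h1, ← mul_ap]
    rw [← mul_ap]
    congr 2
    group
  rw [t.hw, add_eq_left, a.fst (t.kerB H hd hdM hu), map_add, t.BB', add_zero, map_smul, hg] at h2
  set y := B' (u - X ^ N • u) with hy
  have h3 : X ^ N • y = 0 := by rw [hy, ← map_smul, smul_sub, t.hN, sub_self, map_zero]
  have h4 : (-g * X) • y = y := by
    rw [hy, map_sub, map_smul]
    linear_combination (norm := module) (X ^ N - 1) • h2
  have h5 : ∀ k : ℕ, (-g * X) ^ k • y = y := fun k => by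
    induction k with
    | zero => simp
    | succ k ih => rw [pow_succ, mul_smul, h4, ih]
  rw [← h5 N, mul_pow, mul_smul, h3, smul_zero]

theorem fix0 (hw : w ∈ D) {u : V} (hu : u ∈ Z) {x : J} (hx : x ∈ Subgroup.closure {d, w}) :
    ρ x (u - X ^ N • u) = u - X ^ N • u := by
  obtain ⟨A, a, -, ⟨g, hg⟩, -⟩ := t.ex hx
  have h1 : B (u - X ^ N • u) = 0 := by simp [t.kerB H hd hdM hu]
  have h2 := t.p0 H hd hdM hw hu
  have h3 : X • (u - X ^ N • u) = 0 := by rw [← t.BB'_eq h1, h2, map_zero]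
  rw [a.fst h1, map_smul, h2, smul_zero, add_zero, hg, add_smul, one_smul, mul_comm, mul_smul, h3,
    smul_zero, add_zero]

theorem upper {m : J} (hm : m ∈ Subgroup.closure {d, w}) (hM : m ∈ M)
    {A : Matrix (Fin 2) (Fin 2) R} (a : Rel ρ B B' m A) {u : V} (hu : u ∈ Z) :
    A 0 0 • X ^ N • u = X ^ N • ρ m u ∧ A 1 0 • X ^ N • u = 0 := by
  have h0 := t.kerB H hd hdM hu
  have h1 := t.kerB H hd hdM (H.inv m hM u hu)
  have := t.uniq (s := A 0 0 • X ^ N • u - X ^ N • ρ m u) (v := A 1 0 • X ^ N • u)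
    (by simp [h0, h1]) (by simp [h0]) (by rw [smul_comm, t.hN]) (by
      rw [← t.lin hm, a.fst (u := X ^ N • u) (by simp [h0])]
      abel)
  exact ⟨sub_eq_zero.1 this.1, this.2⟩

theorem borel (IH : ∀ w' ∈ D, w' ∉ M → Subgroup.closure {d, w'} < Subgroup.closure {d, w} →
      ∃ k, 0 < k ∧ ∀ u ∈ Z, (cc ρ d w' ^ k) u = u)
    {K : Type*} [Field K] (ψ : R →+* K) (hψ : ∀ r : R, (∀ u ∈ Z, r • X ^ N • u = 0) → ψ r = 0) :
    ∃ π : Subgroup.closure ({d, w} : Set J) →* GL (Fin 2) K, (∀ x A, Rel ρ B B' x.1 A →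
      ∀ i j, π x i j = ψ (A i j)) ∧ ∀ x, π x 1 0 = 0 → x.1 ∈ M := by
  classical
  obtain ⟨π, hπ⟩ := t.exists_hom ψ Z (fun u => t.kerB H hd hdM) hψ
  refine ⟨π, hπ, fun x hx => by_contra fun xM => ?_⟩
  have dL : d ∈ Subgroup.closure ({d, w} : Set J) := Subgroup.subset_closure (by simp)
  have wL : w ∈ Subgroup.closure ({d, w} : Set J) := Subgroup.subset_closure (by simp)
  let S := (MulAction.stabilizer (GL (Fin 2) K) (OnePoint.infty : OnePoint K)).comap π
  have mS : ∀ y, y ∈ S ↔ π y 1 0 = 0 := fun y => OnePoint.smul_infty_eq_self_iff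
  have dS : ⟨d, dL⟩ ∈ S := (mS _).2 (by simp [hπ ⟨d, dL⟩ _ t.rel_d])
  have le : Subgroup.closure {d, x.1 * d * x.1⁻¹} ≤ S.map (Subgroup.subtype _) := by
    rw [Subgroup.closure_le]
    rintro _ (rfl | rfl)
    · exact ⟨_, dS, rfl⟩
    · exact ⟨_, S.mul_mem (S.mul_mem ((mS x).2 hx) dS) (S.inv_mem ((mS x).2 hx)), rfl⟩
  obtain ⟨k, k0, hk⟩ := IH _ (H.conj d hd x) (fun h => xM (H.h2 d hd hdM x h))
    (lt_of_le_of_lt le (lt_of_le_of_ne (Subgroup.map_subtype_le _) fun e => by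
      obtain ⟨y, hy, e'⟩ : w ∈ S.map (Subgroup.subtype _) := by rw [e]; exact wL
      obtain rfl : y = ⟨w, wL⟩ := Subtype.ext e'
      simpa [hπ ⟨w, wL⟩ _ t.rel_w] using (mS _).1 hy))
  obtain ⟨A, a, -⟩ := t.ex x.2
  obtain ⟨A', a', -⟩ := t.ex (Subgroup.inv_mem _ x.2)
  have c1 : ∀ y, B y = 0 → cc ρ d (x.1 * d * x.1⁻¹) y = (X * A 1 0 * (X * A' 1 0)) • y := by
    intro y hy
    have e1 : ρ (x.1 * d * x.1⁻¹) y - y = ρ x ((X * A' 1 0) • y) := by
      have : ρ x (ρ x.1⁻¹ y) = y := by rw [← mul_ap, mul_inv_cancel, map_one]; rfl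
      rw [mul_ap, mul_ap, t.hd, map_add, this, add_sub_cancel_left]
      congr 1
      rw [a'.fst hy, map_add, t.BB'_eq (by simp [hy]), map_smul, hy, smul_zero, zero_add, mul_smul]
    rw [cc_ap, e1, t.hd y, hy, add_zero, sub_self, map_zero, sub_self, add_zero, t.hd,
      add_sub_cancel_left, a.fst (by simp [hy]), map_add, t.BB'_eq (by simp [hy])]
    simp only [map_smul, hy, smul_zero, zero_add, mul_smul]
  have c2 : ∀ (n : ℕ) y, B y = 0 →
      (cc ρ d (x.1 * d * x.1⁻¹) ^ n) y = (X * A 1 0 * (X * A' 1 0)) ^ n • y := fun n => by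
    induction n with
    | zero => simp
    | succ n ih =>
      intro y hy
      rw [pow_succ, pow_succ, mul_smul, ← ih _ (by simp [hy]), ← c1 y hy]
      rfl
  have := hψ ((X * A 1 0 * (X * A' 1 0)) ^ k - 1) fun u hu => by
    rw [smul_comm, sub_smul, ← c2 k u (t.kerB H hd hdM hu), hk u hu, one_smul, sub_self, smul_zero]
  rw [hπ x A a] at hx
  simp [hx, k0.ne'] at this

theorem step [Finite J] [Finite V] (hw : w ∈ D)
    (hgen : ∀ S : Subring R, X ∈ S → S = ⊤)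
    (IH : ∀ w' ∈ D, w' ∉ M → Subgroup.closure {d, w'} < Subgroup.closure {d, w} →
      ∃ k, 0 < k ∧ ∀ u ∈ Z, (cc ρ d w' ^ k) u = u) (hwM : w ∉ M) :
    (∀ r : R, ∀ u ∈ Z, r • u ∈ Z) ∧ ∀ u ∈ Z, X ^ N • u = u := by
  classical
  have dL : d ∈ Subgroup.closure ({d, w} : Set J) := Subgroup.subset_closure (by simp)
  have wL : w ∈ Subgroup.closure ({d, w} : Set J) := Subgroup.subset_closure (by simp)
  have fin : ∀ u ∈ Z, X ^ N • u ∈ Z → X ^ N • u = u := fun u hu h =>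
    (sub_eq_zero.1 (H.h3 w hw hwM _ (Z.sub_mem hu h) (t.fix0 H hd hdM hw hu wL))).symm
  let a : Ideal R :=
    { carrier := {r | ∀ u ∈ Z, r • X ^ N • u = 0}
      add_mem' := fun h h' u hu => by rw [add_smul, h u hu, h' u hu, add_zero]
      zero_mem' := fun u _ => zero_smul _ _
      smul_mem' := fun r s h u hu => by rw [smul_eq_mul, mul_smul, h u hu, smul_zero] }
  have a3 : (3 : R) ∈ a := fun u _ => by
    rw [show (3 : R) = 1 + 1 + 1 by norm_num, add_smul, add_smul, one_smul, H.three]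
  let T : Subring R :=
    { carrier := {r | ∀ u ∈ Z, X ^ N • u = u → r • u ∈ Z}
      mul_mem' := fun h h' u hu e => by
        rw [mul_smul]
        exact h _ (h' u hu e) (by rw [smul_comm, e])
      one_mem' := fun u hu _ => by rwa [one_smul]
      add_mem' := fun h h' u hu e => by
        rw [add_smul]
        exact Z.add_mem (h u hu e) (h' u hu e)
      zero_mem' := fun u _ _ => by rw [zero_smul]; exact Z.zero_mem
      neg_mem' := fun h u hu e => by rw [neg_smul]; exact Z.neg_mem (h u hu e) }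
  have aT : ∀ r ∈ a, r ∈ T := fun r h u hu e => by rw [← e, h u hu]; exact Z.zero_mem
  let Hp : R → Prop := fun η => η ∈ T ∧ ∀ u ∈ Z, (η - 1) • X ^ N • u ∈ Z
  have Hm : ∀ m ∈ Subgroup.closure ({d, w} : Set J), m ∈ M → ∀ A, Rel ρ B B' m A →
      Hp (A 0 0) ∧ A 1 0 ∈ a := fun m hm hM A r => by
    refine ⟨⟨fun u hu e => ?_, fun u hu => ?_⟩, fun u hu => (t.upper H hd hdM hm hM r hu).2⟩
    · rw [← e, (t.upper H hd hdM hm hM r hu).1, ← t.lin hm, e]
      exact H.inv m hM u hu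
    · have := t.fix0 H hd hdM hw hu hm
      rw [map_sub, t.lin hm, sub_eq_iff_eq_add] at this
      rw [sub_smul, one_smul, (t.upper H hd hdM hm hM r hu).1,
        show X ^ N • ρ m u - X ^ N • u = ρ m u - u by
          linear_combination (norm := abel) -this]
      exact Z.sub_mem (H.inv m hM u hu) hu
  have Hmul : ∀ η η', Hp η → Hp η' → Hp (η * η') := fun η η' h h' =>
    ⟨T.mul_mem h.1 h'.1, fun u hu => by
      rw [show η * η' - 1 = η * (η' - 1) + (η - 1) by ring, add_smul, mul_smul]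
      exact Z.add_mem (h.1 _ (h'.2 u hu) (by rw [smul_comm, t.hN])) (h.2 u hu)⟩
  have dc : ∀ m ∈ Subgroup.closure ({d, w} : Set J), m ∈ M →
      ∀ m' ∈ Subgroup.closure ({d, w} : Set J), m' ∈ M → ∀ h A A', Rel ρ B B' h A →
      Rel ρ B B' (m * h * m') A' → ∃ η, Hp η ∧ A' 1 0 - η * A 1 0 ∈ a := by
    intro m hm hM m' hm' hM' h A A' r r'
    obtain ⟨C, c, c1, -⟩ := t.ex hm
    obtain ⟨C', c', -⟩ := t.ex hm'
    obtain ⟨E, e, -⟩ := t.ex (Subgroup.inv_mem _ hm)
    have h1 := (Hm m hm hM C c).2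
    have h2 := (Hm m' hm' hM' C' c').2
    have h3 : (E * C) 0 0 - (1 : Matrix (Fin 2) (Fin 2) R) 0 0 ∈ a := fun u hu =>
      t.rel_uniq (e.mul c) (by rw [inv_mul_cancel]; exact .one) (t.kerB H hd hdM hu) 0 0
    have h4 : A' 1 0 - (C * A * C') 1 0 ∈ a := fun u hu =>
      t.rel_uniq r' ((c.mul r).mul c') (t.kerB H hd hdM hu) 1 0
    refine ⟨E 0 0 * C' 0 0, Hmul _ _ (Hm _ (Subgroup.inv_mem _ hm) (M.inv_mem hM) E e).1
      (Hm m' hm' hM' C' c').1, ?_⟩
    rw [Matrix.det_fin_two] at c1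
    simp only [Matrix.mul_apply, Fin.sum_univ_two, Matrix.one_apply_eq] at h3 h4
    convert a.add_mem (a.add_mem h4 (a.mul_mem_left (-(C 1 1 * A 1 0 * C' 0 0)) h3))
      (a.add_mem (a.mul_mem_left (A 0 0 * C' 0 0 + A 0 1 * C' 1 0 +
        (E 0 0 * C 0 1 + E 0 1 * C 1 1) * A 1 0 * C' 0 0) h1)
        (a.mul_mem_left (C 1 1 * A 1 1) h2)) using 1
    linear_combination (E 0 0 * A 1 0 * C' 0 0) * c1
  by_cases a1 : (1 : R) ∈ a
  · have z : ∀ u ∈ Z, u = 0 := fun u hu => by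
      have := a1 u hu
      rw [one_smul] at this
      rw [← fin u hu (this ▸ Z.zero_mem), this]
    exact ⟨fun r u hu => by rw [z u hu, smul_zero]; exact Z.zero_mem,
      fun u hu => by rw [z u hu, smul_zero]⟩
  have Xu : ∀ {K : Type _} [Field K] (ψ : R →+* K), (∀ r ∈ a, ψ r = 0) → ψ X ≠ 0 :=
    fun ψ h e => by
      have := h (X ^ N - 1) fun u _ => by rw [sub_smul, t.hN, one_smul, sub_self]
      simp [e, t.N0.ne'] at this
  have r1 := t.rel_w.mul t.rel_d
  have four : X - 1 ∈ a ∨ ∃ η, Hp η ∧ (X + η ∈ a ∨ X - 1 - η ∈ a ∨ X * (1 + η) - 1 ∈ a) := by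
    obtain ⟨P, hP, le⟩ := a.exists_le_maximal ((Ideal.ne_top_iff_one a).2 a1)
    let _ := Ideal.Quotient.field P
    let ψ : R →+* AlgebraicClosure (R ⧸ P) := (algebraMap (R ⧸ P) _).comp (Ideal.Quotient.mk P)
    have hψ : ∀ r ∈ a, ψ r = 0 := fun r h => by
      simp [ψ, Ideal.Quotient.eq_zero_iff_mem.2 (le h)]
    obtain ⟨π, hπ, hB⟩ := t.borel H hd hdM IH ψ hψ
    let h : Fin 3 → Subgroup.closure ({d, w} : Set J) :=
      ![⟨w, wL⟩, ⟨w, wL⟩ * ⟨d, dL⟩ * ⟨w, wL⟩⁻¹, ⟨w, wL⟩ * ⟨d, dL⟩ * ⟨w, wL⟩]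
    let γ : Fin 3 → R := ![1, -X, X - 1]
    have hA : ∀ i, ∃ A, Rel ρ B B' (h i).1 A ∧ A 1 0 - γ i ∈ a := fun i => by
      fin_cases i
      · exact ⟨_, t.rel_w, by simp [γ]⟩
      · exact ⟨_, r1.mul t.rel_wi, by simp [γ]⟩
      · exact ⟨_, r1.mul t.rel_w, by convert a3 using 1; simp [γ]; ring⟩
    choose A hA hγ using hA
    by_cases h2 : π (h 2) 1 0 = 0
    · exact .inl (by simpa [γ] using a.sub_mem (Hm _ (h 2).2 (hB _ h2) _ (hA 2)).2 (hγ 2))
    have sym : ∀ i j, (∃ m m', π m 1 0 = 0 ∧ π m' 1 0 = 0 ∧ h j = m * h i * m') →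
        (∃ η, Hp η ∧ γ j - η * γ i ∈ a) ∧ ∃ η, Hp η ∧ γ i - η * γ j ∈ a := by
      have : ∀ i j, ∀ m m' : Subgroup.closure ({d, w} : Set J), m.1 ∈ M → m'.1 ∈ M →
          h j = m * h i * m' → ∃ η, Hp η ∧ γ j - η * γ i ∈ a := fun i j m m' b c e => by
        obtain ⟨η, h1, h2⟩ := dc m m.2 b m' m'.2 c _ _ (A j) (hA i) (by
          have := hA j
          rwa [e] at this)
        refine ⟨η, h1, ?_⟩
        convert a.add_mem (a.sub_mem h2 (hγ j)) (a.mul_mem_left η (hγ i)) using 1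
        ring
      rintro i j ⟨m, m', b, c, e⟩
      exact ⟨this i j m m' (hB _ b) (hB _ c) e, this j i m⁻¹ m'⁻¹ (M.inv_mem (hB _ b))
        (M.inv_mem (hB _ c)) (by rw [e]; group)⟩
    obtain ⟨i, j, ij, e⟩ := dl_R2 (π := π) ((map_ofNat ψ 3).symm.trans (hψ 3 a3)) ⟨d, dL⟩
      (by simp [hπ ⟨d, dL⟩ _ t.rel_d]) (by simp [hπ ⟨d, dL⟩ _ t.rel_d])
      (by simpa [hπ ⟨d, dL⟩ _ t.rel_d] using Xu ψ hψ) h fun i => by
        have := hψ _ (hγ i)
        rw [map_sub, sub_eq_zero, ← hπ _ _ (hA i)] at this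
        fin_cases i
        · simpa [γ] using this.trans_ne (by simp [γ])
        · simpa [γ] using this.trans_ne (by simpa [γ] using Xu ψ hψ)
        · exact h2
    obtain ⟨⟨η, h1, h2⟩, η', h1', h2'⟩ := sym i j e
    right
    fin_cases i <;> fin_cases j <;> simp only [γ] at h2 h2'
    all_goals first
      | exact (ij rfl).elim
      | skip
    · exact ⟨η, h1, .inl (by convert a.neg_mem h2 using 1; simp; ring)⟩
    · exact ⟨η, h1, .inr (.inl (by simpa using h2))⟩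
    · exact ⟨η', h1', .inl (by convert a.neg_mem h2' using 1; simp; ring)⟩
    · exact ⟨η, h1, .inr (.inr (by convert h2 using 1; simp; ring))⟩
    · exact ⟨η', h1', .inr (.inl (by simpa using h2'))⟩
    · exact ⟨η', h1', .inr (.inr (by convert h2' using 1; simp; ring))⟩
  have XT : X ∈ T := by
    rcases four with h | ⟨η, h1, h | h | h⟩
    · simpa using T.add_mem (aT _ h) T.one_mem
    · simpa using T.sub_mem (aT _ h) h1.1
    · simpa using T.add_mem (T.add_mem (aT _ h) h1.1) T.one_mem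
    · intro u hu e
      let W : Set V := {y | y ∈ Z ∧ X ^ N • y = y}
      have xi : ∀ y ∈ W, X • (1 + η) • y = y := fun y hy => by
        have := h y hy.1
        rwa [hy.2, sub_smul, one_smul, sub_eq_zero, mul_smul] at this
      obtain ⟨y, hy, rfl⟩ := ((Set.toFinite W).injOn_iff_bijOn_of_mapsTo (f := fun y => (1 + η) • y)
        fun y hy => ⟨T.add_mem T.one_mem h1.1 y hy.1 hy.2, by rw [smul_comm, hy.2]⟩).1
        (fun y hy y' hy' e => by rw [← xi y hy, ← xi y' hy']; exact congrArg _ e) |>.surjOn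
        (show u ∈ W from ⟨hu, e⟩)
      rw [xi y hy]
      exact hy.1
  have TT : ∀ r, r ∈ T := fun r => hgen T XT ▸ Subring.mem_top r
  let I : Ideal R :=
    { carrier := {r | ∀ u ∈ Z, r • X ^ N • u ∈ Z}
      add_mem' := fun h h' u hu => by rw [add_smul]; exact Z.add_mem (h u hu) (h' u hu)
      zero_mem' := fun u _ => by rw [zero_smul]; exact Z.zero_mem
      smul_mem' := fun r s h u hu => by
        rw [smul_eq_mul, mul_smul]
        exact TT r _ (h u hu) (by rw [smul_comm, t.hN]) }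
  have I1 : (1 : R) ∈ I := by_contra fun c => by
    obtain ⟨P, hP, le⟩ := I.exists_le_maximal ((Ideal.ne_top_iff_one I).2 c)
    let _ := Ideal.Quotient.field P
    let ψ := Ideal.Quotient.mk P
    have hI : ∀ r ∈ I, ψ r = 0 := fun r h => Ideal.Quotient.eq_zero_iff_mem.2 (le h)
    have hψ : ∀ r ∈ a, ψ r = 0 := fun r h => hI r fun u hu => by rw [h u hu]; exact Z.zero_mem
    have hη : ∀ η, Hp η → ψ η = 1 := fun η h => by simpa [sub_eq_zero] using hI _ h.2
    have p3 : (3 : R ⧸ P) = 0 := (map_ofNat ψ 3).symm.trans (hψ 3 a3)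
    obtain ⟨π, hπ, hB⟩ := t.borel H hd hdM IH ψ hψ
    have no : ∀ x : Subgroup.closure ({d, w} : Set J), ∀ A, Rel ρ B B' x.1 A → ψ (A 1 0) = 0 →
        ψ (A 0 0) = 5 → False := fun x A r e e' => by
      rw [hη _ (Hm x x.2 (hB x (by rw [hπ x A r, e])) A r).1] at e'
      exact one_ne_zero (α := R ⧸ P) (by linear_combination -e' - p3)
    have pm : ψ X = 1 ∨ ψ X = -1 := by
      rcases four with h | ⟨η, h1, h | h | h⟩ <;> have := hψ _ h <;>
        simp only [map_sub, map_add, map_mul, map_one] at this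
      · exact .inl (by linear_combination this)
      · exact .inr (by linear_combination this - hη η h1)
      · exact .inr (by linear_combination this + hη η h1 + p3)
      · exact .inr (by linear_combination -this + ψ X * hη η h1 + ψ X * p3)
    rcases pm with e | e
    · have r := t.rel_d.mul t.rel_w
      exact no (⟨d, dL⟩ * ⟨w, wL⟩ * (⟨d, dL⟩ * ⟨w, wL⟩)) _ (r.mul r)
        (by simp [e]; linear_combination p3) (by simp [e]; norm_num)
    · have r := t.rel_d.mul t.rel_wi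
      exact no (⟨d, dL⟩ * ⟨w, wL⟩⁻¹ * (⟨d, dL⟩ * ⟨w, wL⟩⁻¹)) _ (r.mul r)
        (by simp [e]; linear_combination -p3) (by simp [e]; norm_num)
  have e : ∀ u ∈ Z, X ^ N • u = u := fun u hu => fin u hu (by simpa using I1 u hu)
  exact ⟨fun r u hu => TT r u hu (e u hu), e⟩

end Two

end Pool.Agent.MP_a5588a_al.Full

end

section

/-! Quadratic elements with a unique fixed point move an irreducible module into any invariant
subgroup that they fix. -/

namespace Pool.Agent.MP_a5588a_al.Full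

open Polynomial

variable {J V : Type*} [Group J] [AddCommGroup V] {ρ : J →* AddMonoid.End V} {M : Subgroup J}
  {D : Set J} {Z : AddSubgroup V}

theorem exists_idem {A : Type*} [Monoid A] [Finite A] (c : A) :
    ∃ N, 0 < N ∧ c ^ N * c ^ N = c ^ N := by
  obtain ⟨i, j, ij, e⟩ := Finite.exists_ne_map_eq_of_infinite fun n : ℕ => c ^ n
  wlog h : i < j generalizing i j
  · exact this j i ij.symm e.symm (by omega)
  obtain ⟨k, rfl⟩ := Nat.exists_eq_add_of_lt h
  have : ∀ n, c ^ (i + n * (k + 1)) = c ^ i := fun n => by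
    induction n with
    | zero => simp
    | succ n ih =>
      rw [show i + (n + 1) * (k + 1) = i + k + 1 + n * (k + 1) by ring, pow_add, ← e, ← pow_add, ih]
  refine ⟨(i + 1) * (k + 1), by positivity, ?_⟩
  rw [← pow_add, show (i + 1) * (k + 1) + (i + 1) * (k + 1) =
    i + (i + 1) * (k + 1) + (i * k + k + 1) by ring, pow_add, this, ← pow_add]
  congr 1
  ring

theorem exists_two [Finite V] {d w : J} (hd : ∀ v, ρ d (ρ d v - v) = ρ d v - v)
    (hw : ∀ v, ρ w (ρ w v - v) = ρ w v - v) : ∃ (_ : Module ℤ[X] V) (B B' : V →ₗ[ℤ[X]] V) (N : ℕ),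
    Two ρ d w (X : ℤ[X]) B B' N ∧ ∀ (k : ℕ) v, (X : ℤ[X]) ^ k • v = (cc ρ d w ^ k) v := by
  have : Finite (AddMonoid.End V) := .of_injective _ DFunLike.coe_injective
  let φ : ℤ[X] →+* AddMonoid.End V := (aeval (cc ρ d w)).toRingHom
  let _ : Module ℤ[X] V := Module.compHom V φ
  have sm : ∀ (f : ℤ[X]) (v : V), f • v = aeval (cc ρ d w) f v := fun _ _ => rfl
  have q : ∀ g : J, (∀ v, ρ g (ρ g v - v) = ρ g v - v) → (ρ g - 1) * (ρ g - 1) = 0 := fun g h =>
    AddMonoidHom.ext fun v => sub_eq_zero.2 (h v)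
  have lin : ∀ b : AddMonoid.End V, Commute b (cc ρ d w) → ∀ (f : ℤ[X]) v, b (f • v) = f • b v := by
    intro b h f v
    have : Commute b (aeval (cc ρ d w) f) := by
      rw [aeval_eq_sum_range]
      exact .sum_right _ _ _ fun i _ => (h.pow_right i).smul_right _
    exact DFunLike.congr_fun this.eq v
  have c1 : Commute (ρ d - 1) (cc ρ d w) := by
    have := q d hd
    unfold cc Commute SemiconjBy
    generalize ρ d - 1 = b at *
    linear_combination (norm := noncomm_ring) this * (ρ w - 1) - (ρ w - 1) * this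
  have c2 : Commute (ρ w - 1) (cc ρ d w) := by
    have := q w hw
    unfold cc Commute SemiconjBy
    generalize ρ w - 1 = b at *
    linear_combination (norm := noncomm_ring) this * (ρ d - 1) - (ρ d - 1) * this
  have pw : ∀ (k : ℕ) (v : V), (X : ℤ[X]) ^ k • v = (cc ρ d w ^ k) v := fun k v => by
    rw [sm, map_pow, aeval_X]
  obtain ⟨N, N0, hN⟩ := exists_idem (cc ρ d w)
  exact ⟨inferInstance, ⟨⟨fun v => ρ d v - v, (ρ d - 1).map_add⟩, lin _ c1⟩,
    ⟨⟨fun v => ρ w v - v, (ρ w - 1).map_add⟩, lin _ c2⟩, N,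
    ⟨fun v => (add_sub_cancel _ _).symm, fun v => (add_sub_cancel _ _).symm,
      fun v => sub_eq_zero.2 (hd v), fun v => sub_eq_zero.2 (hw v),
      fun v => by rw [sm, aeval_X]; rfl, N0,
      fun v => by rw [pw, pw]; exact DFunLike.congr_fun hN v⟩, pw⟩

theorem gen_X (S : Subring ℤ[X]) (h : X ∈ S) : S = ⊤ := by
  refine eq_top_iff.2 fun f _ => ?_
  induction f using Polynomial.induction_on' with
  | add p q hp hq => exact S.add_mem (hp trivial) (hq trivial)
  | monomial n a =>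
    rw [← C_mul_X_pow_eq_monomial]
    exact S.mul_mem (by simp) (S.pow_mem h n)

variable [Finite J] [Finite V]

theorem HypR2.pow (H : HypR2 ρ M D Z) {d : J} (hd : d ∈ D) (hdM : d ∈ M) (w : J) (hw : w ∈ D)
    (hwM : w ∉ M) : ∃ k, 0 < k ∧ ∀ u ∈ Z, (cc ρ d w ^ k) u = u := by
  induction h : Nat.card (Subgroup.closure ({d, w} : Set J)) using Nat.strong_induction_on
    generalizing w with
  | _ n ih =>
    obtain ⟨_, B, B', N, t, pw⟩ := exists_two (H.quad d hd) (H.quad w hw)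
    refine ⟨N, t.N0, fun u hu => ?_⟩
    rw [← pw]
    exact (t.step H hd hdM hw gen_X (fun w' a b c => ih _
      (h ▸ Set.Finite.card_lt_card (Set.toFinite _) c) w' a b rfl) hwM).2 u hu

/-- The subgroup `Z` is invariant under the anticommutator of `d - 1` and `w - 1`. -/
theorem HypR2.cc_mem (H : HypR2 ρ M D Z) {d : J} (hd : d ∈ D) (hdM : d ∈ M) {w : J} (hw : w ∈ D)
    (hwM : w ∉ M) {u : V} (hu : u ∈ Z) : cc ρ d w u ∈ Z := by
  obtain ⟨_, B, B', N, t, pw⟩ := exists_two (H.quad d hd) (H.quad w hw)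
  have := (t.step H hd hdM hw gen_X (fun w' a b _ => H.pow hd hdM w' a b) hwM).1 (X ^ 1) u hu
  rwa [pw, pow_one] at this

/-- `[g Z, d] ≤ Z` for every `g`. -/
theorem HypR2.sub_mem (H : HypR2 ρ M D Z) {d : J} (hd : d ∈ D) (hdM : d ∈ M) (g : J) {u : V}
    (hu : u ∈ Z) : ρ d (ρ g u) - ρ g u ∈ Z := by
  by_cases hg : g ∈ M
  · rw [H.h1 d hd hdM _ (H.inv g hg u hu), sub_self]
    exact Z.zero_mem
  have hw := H.conj d hd g
  obtain ⟨_, B, B', N, t, -⟩ := exists_two (H.quad d hd) (H.quad _ hw)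
  have st := (t.step H hd hdM hw gen_X (fun w' a b _ => H.pow hd hdM w' a b)
    fun h => hg (H.h2 d hd hdM g h)).1
  obtain ⟨x, hx, hM⟩ := H.h4 d hd hdM _ hw
  have h1 := H.inv _ (H.h2 d hd hdM (x⁻¹ * g) (by convert hM using 1; group)) u hu
  obtain ⟨A, a, -⟩ := t.ex hx
  have h0 := t.kerB H hd hdM h1
  rw [show g = x * (x⁻¹ * g) by group, mul_ap, t.hd, add_sub_cancel_left, a.fst h0, map_add,
    t.BB'_eq (by rw [map_smul, h0, smul_zero]), map_smul, h0, smul_zero, zero_add]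
  exact st _ _ (st _ _ h1)

/-- On an irreducible module, `[V, d] ≤ Z`. -/
theorem HypR2.irr (H : HypR2 ρ M D Z) (hZ : Z ≠ ⊥)
    (hV : ∀ U : AddSubgroup V, (∀ g, ∀ v ∈ U, ρ g v ∈ U) → U = ⊥ ∨ U = ⊤)
    {d : J} (hd : d ∈ D) (hdM : d ∈ M) (v : V) : ρ d v - v ∈ Z := by
  let U := AddSubgroup.closure {v | ∃ g, ∃ u ∈ Z, ρ g u = v}
  have hU : U = ⊤ := (hV U fun g v hv => by
    refine (AddSubgroup.closure_le (U.comap (ρ g))).2 ?_ hv
    rintro _ ⟨h, u, hu, rfl⟩
    exact AddSubgroup.subset_closure ⟨g * h, u, hu, mul_ap ρ g h u⟩).resolve_left fun e =>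
      hZ (eq_bot_iff.2 fun u hu => e ▸ AddSubgroup.subset_closure ⟨1, u, hu, by simp⟩)
  refine (AddSubgroup.closure_le (Z.comap (ρ d - 1))).2 ?_ (show v ∈ U from hU ▸ trivial)
  rintro _ ⟨g, u, hu, rfl⟩
  exact H.sub_mem hd hdM g hu

/-- The fourth hypothesis follows from Sylow's theorem. -/
theorem h4_of_sylow {d w : J} (hd : ∃ n, d ^ 3 ^ n = 1) (hw : ∃ n, w ^ 3 ^ n = 1)
    (h : ∀ S : Subgroup J, IsPGroup 3 S → d ∈ S → S ≤ M) :
    ∃ x ∈ Subgroup.closure {d, w}, x⁻¹ * w * x ∈ M := by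
  have : Fact (Nat.Prime 3) := ⟨Nat.prime_three⟩
  have pg : ∀ y : Subgroup.closure ({d, w} : Set J), (∃ n, y.1 ^ 3 ^ n = 1) →
      IsPGroup 3 (Subgroup.zpowers y) := fun y ⟨n, hy⟩ => by
    rintro ⟨_, k, rfl⟩
    refine ⟨n, Subtype.ext (Subtype.ext ?_)⟩
    change (y.1 ^ k) ^ 3 ^ n = 1
    rw [← zpow_natCast, ← zpow_mul, mul_comm, zpow_mul, zpow_natCast, hy, one_zpow]
  obtain ⟨S, hS⟩ := (pg ⟨d, Subgroup.subset_closure (by simp)⟩ hd).exists_le_sylow
  obtain ⟨S', hS'⟩ := (pg ⟨w, Subgroup.subset_closure (by simp)⟩ hw).exists_le_sylow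
  obtain ⟨x, rfl⟩ := MulAction.exists_smul_eq (Subgroup.closure ({d, w} : Set J)) S S'
  have := hS' (Subgroup.mem_zpowers _)
  rw [Sylow.coe_subgroup_smul, Subgroup.mem_pointwise_smul_iff_inv_smul_mem] at this
  exact ⟨x, x.2, h _ (S.isPGroup'.map (Subgroup.subtype _)) ⟨_, hS (Subgroup.mem_zpowers _), rfl⟩
    ⟨_, this, by simp⟩⟩

/-- The form for one conjugacy class. Let `z ∈ M` be a quadratic element of order a power of three
that lies in no other conjugate of `M`, let every three-subgroup that contains `z` lie in `M`, and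
let `Z ≠ 0` be `M`-invariant, fixed by `z`, without nonzero vector fixed by a conjugate of `z`
outside `M`. Then `[V, z] ≤ Z` if `V` is irreducible. -/
theorem r2 (h3 : ∀ v : V, v + v + v = 0) {z : J} (hz : ∃ n, z ^ 3 ^ n = 1) (hzM : z ∈ M)
    (hq : ∀ v, ρ z (ρ z v - v) = ρ z v - v) (hM : ∀ m ∈ M, ∀ u ∈ Z, ρ m u ∈ Z)
    (h1 : ∀ u ∈ Z, ρ z u = u) (h2 : ∀ g, g * z * g⁻¹ ∈ M → g ∈ M)
    (hf : ∀ g, g ∉ M → ∀ u ∈ Z, ρ (g * z * g⁻¹) u = u → u = 0)
    (hS : ∀ S : Subgroup J, IsPGroup 3 S → z ∈ S → S ≤ M) (hZ : Z ≠ ⊥)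
    (hV : ∀ U : AddSubgroup V, (∀ g, ∀ v ∈ U, ρ g v ∈ U) → U = ⊥ ∨ U = ⊤) (v : V) :
    ρ z v - v ∈ Z := by
  have iv : ∀ g v, ρ g (ρ g⁻¹ v) = v := fun g v => by rw [← mul_ap, mul_inv_cancel, map_one]; rfl
  have iv' : ∀ g v, ρ g⁻¹ (ρ g v) = v := fun g v => by rw [← mul_ap, inv_mul_cancel, map_one]; rfl
  have p3 : ∀ g, ∃ n, (g * z * g⁻¹) ^ 3 ^ n = 1 := fun g => hz.imp fun n h => by
    rw [conj_pow, h, mul_one, mul_inv_cancel]
  refine HypR2.irr (M := M) (D := {d | ∃ g, g * z * g⁻¹ = d}) ⟨h3, ?_, ?_, hM, ?_, ?_, ?_, ?_⟩ hZ hV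
    ⟨1, by simp⟩ hzM v
  · rintro _ ⟨g, rfl⟩ h
    exact ⟨h * g, by group⟩
  · rintro _ ⟨g, rfl⟩ v
    simp only [mul_ap]
    rw [map_sub (ρ g⁻¹), iv', hq, map_sub, iv]
  · rintro _ ⟨g, rfl⟩ h u hu
    rw [mul_ap, mul_ap, h1 _ (hM _ (M.inv_mem (h2 g h)) u hu), iv]
  · rintro _ ⟨g, rfl⟩ h x hx
    exact (M.mul_mem_cancel_right (h2 g h)).1 (h2 _ (by convert hx using 1; group))
  · rintro _ ⟨g, rfl⟩ h
    exact hf g fun c => h (M.mul_mem (M.mul_mem c hzM) (M.inv_mem c))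
  · rintro _ ⟨g, rfl⟩ h _ ⟨k, rfl⟩
    refine h4_of_sylow (p3 g) (p3 k) fun S a b s hs => ?_
    have := hS _ (a.map (MulAut.conj g⁻¹).toMonoidHom) ⟨_, b, by simp [mul_assoc]⟩ ⟨s, hs, rfl⟩
    have c := h2 g h
    simpa [mul_assoc] using M.mul_mem (M.mul_mem c this) (M.inv_mem c)

end Pool.Agent.MP_a5588a_al.Full

end
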