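import Pool.Agent.Mg.Fa5588aa.Ga63474
import Pool.Agent.Mg.Fa5588aa.Ge45d38
import Pool.Agent.Mg.Fa5588aa.Gf1aec1

section

/-! Pairs with a component of parameter `-1` satisfy the braid relation. -/

namespace Pool.Agent.MP_a5588a_al.Full

open Pool.Agent.MP_a5588a_al.Solv
open scoped commutatorElement

universe u v

variable {G : Type u} [Group G] [Finite G]

variable {M : Subgroup G} {d w : G}

theorem three_FNG : (3 : KK) = 0 := by
  simpa using CharP.cast_eq_zero KK 3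

omit [Finite G] in
theorem el3_FNG {H : Type*} [Group H] (π : G →* H) {S : Subgroup G} (hS : IsPGroup 3 S) {x : G}
    (hx : x ∈ S) : El3 (π x) := by
  obtain ⟨k, hk⟩ := hS ⟨x, hx⟩
  refine ⟨k, ?_⟩
  have : x ^ 3 ^ k = 1 := congrArg Subtype.val hk
  rw [← map_pow, this, map_one]

omit [Finite G] in
theorem comm_FNG (h : Pr M d w) {x y : G}
    (e : ∀ (π : G →* GL (Fin 2) KK) (l : KK), Cmp d w π l → π x * π y = π y * π x) :
    x * y = y * x := by
  rw [← mul_inv_eq_one]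
  refine h.faith _ fun π l hc => ?_
  rw [map_mul, map_inv, map_mul, map_mul, e π l hc, mul_inv_cancel]

omit [Finite G] in
theorem ne_FNG {π : G →* GL (Fin 2) KK} {l : KK} (hc : Cmp d w π l) : π d ≠ 1 := fun e => by
  have := congrFun (congrFun hc.hd 0) 1
  rw [e] at this
  exact hc.ne (by simpa using this.symm)

omit [Finite G] in
theorem six_FNG {π : G →* GL (Fin 2) KK} (hc : Cmp d w π (-1)) :
    π (d * w) ^ 6 = 1 ∧ π (d * w) ^ 4 * π w * π d = π w ∧ π (d * w * d) = π (w * d * w) := by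
  have h3 := three_FNG
  have e1 : (π (d * w) : Matrix (Fin 2) (Fin 2) KK) = !![0, -1; 1, 1] := by
    rw [map_mul, Units.val_mul, hc.hd, hc.hw]
    simp
  have e2 : (π (d * w) : Matrix (Fin 2) (Fin 2) KK) ^ 3 = -1 := by
    rw [e1, pow_three, Matrix.one_fin_two]
    simp
  refine ⟨Units.ext ?_, Units.ext ?_, Units.ext ?_⟩
  · rw [Units.val_pow_eq_pow_val, show 6 = 3 * 2 by rfl, pow_mul, e2]
    simp
  · rw [Units.val_mul, Units.val_mul, Units.val_pow_eq_pow_val, pow_succ, e2, e1, hc.hd, hc.hw]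
    ext i j
    fin_cases i <;> fin_cases j <;> simp
    linear_combination -h3
  · rw [map_mul (π) (d * w), mul_assoc w, map_mul π w, Units.val_mul, Units.val_mul, e1, hc.hd,
      hc.hw]
    simp

theorem Pr.syl (h : Pr M d w) {S : Subgroup G} (hS : IsPGroup 3 S) (hd : d ∈ S) : S ≤ M := by
  obtain ⟨g, hg⟩ := ex_fix h.idx hS
  have gM := h.se d h.dM h.d1 ⟨1, by simpa using h.d3⟩ g (hg d hd)
  intro s hs
  have := M.mul_mem (M.mul_mem gM (hg s hs)) (M.inv_mem gM)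
  simpa [mul_assoc] using this

theorem Pr.abl (h : Pr M d w) {S : Subgroup G} (hS : IsPGroup 3 S) (hd : d ∈ S) : Abl S := by
  intro a ha b hb
  refine comm_FNG h fun π l hc => Units.ext ?_
  obtain ⟨a1, a2, a3⟩ := tri3 three_FNG hc.ne hc.hd (el3_FNG π hS ha) (el3_FNG π hS (S.mul_mem ha hd))
  obtain ⟨b1, b2, b3⟩ := tri3 three_FNG hc.ne hc.hd (el3_FNG π hS hb) (el3_FNG π hS (S.mul_mem hb hd))
  rw [Units.val_mul, Units.val_mul]
  ext i j
  fin_cases i <;> fin_cases j <;> simp [Matrix.mul_apply, a1, a2, a3, b1, b2, b3, add_comm]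

theorem ng (h : Pr M d w) {π : G →* GL (Fin 2) KK} (hπ : Cmp d w π (-1)) : Braid d w := by
  obtain ⟨k, m, hm, e⟩ := Nat.exists_eq_pow_mul_and_not_dvd (orderOf_pos (d * w)).ne' 3 (by decide)
  have hj : 4 * m ^ 2 % 6 = 4 := by
    have : m % 3 = 1 ∨ m % 3 = 2 := by omega
    have e2 : m ^ 2 % 3 = 1 := by rcases this with e | e <;> simp [pow_two, Nat.mul_mod, e]
    omega
  have x3 : ((d * w) ^ (4 * m ^ 2)) ^ 3 ^ k = 1 := by
    rw [← pow_mul, ← orderOf_dvd_iff_pow_eq_one, e]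
    exact ⟨4 * m, by ring⟩
  obtain ⟨x, hx⟩ : ∃ x, x = w⁻¹ * (d * w) ^ (4 * m ^ 2) * w := ⟨_, rfl⟩
  have x3' : x ^ 3 ^ k = 1 := by
    have := conj_pow (a := w⁻¹) (b := (d * w) ^ (4 * m ^ 2)) (i := 3 ^ k)
    rw [inv_inv] at this
    rw [hx, this, x3, mul_one, inv_mul_cancel]
  have k1 : ∀ ρ : G →* GL (Fin 2) KK, Cmp d w ρ (-1) → ρ x * ρ d = 1 := fun ρ hc => by
    obtain ⟨a, b, -⟩ := six_FNG hc
    rw [hx, map_mul, map_mul, map_pow, pow_eq_pow_mod _ a, hj, mul_assoc, mul_assoc,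
      ← mul_assoc (_ ^ _), b, map_inv, inv_mul_cancel]
  have k2 : ∀ (ρ : G →* GL (Fin 2) KK) (l : KK), Cmp d w ρ l → l ≠ -1 → ρ x = 1 :=
    fun ρ l hc hl => by
      have := part3 three_FNG hc hl (j := 4 * m ^ 2) ⟨k, by rw [← map_pow, x3, map_one]⟩
      rw [hx, map_mul, map_mul, this, mul_one, map_inv, inv_mul_cancel]
  have xd : x * d = d * x := comm_FNG h fun ρ l hc => by
    by_cases hl : l = -1
    · subst hl
      rw [k1 ρ hc, mul_eq_one_comm.1 (k1 ρ hc)]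
    · rw [k2 ρ l hc hl, one_mul, mul_one]
  have x1 : x ≠ 1 := fun e => ne_FNG hπ (by simpa [e] using k1 π hπ)
  have xM : x ∈ M := h.se d h.dM h.d1 ⟨1, by simpa using h.d3⟩ x (by
    rw [mul_assoc, ← xd, inv_mul_cancel_left]
    exact h.dM)
  have s1 : x * d = 1 := by
    by_contra s1
    have s3 : El3 (x * d) := ⟨k + 1, by
      rw [Commute.mul_pow xd, pow_succ, pow_mul, x3', one_pow, mul_comm, pow_mul, h.d3, one_pow,
        mul_one]⟩
    have c : (x * d) * (w⁻¹ * x * w) = (w⁻¹ * x * w) * (x * d) := comm_FNG h fun ρ l hc => by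
      by_cases hl : l = -1
      · subst hl
        rw [map_mul, k1 ρ hc, one_mul, mul_one]
      · simp [k2 ρ l hc hl]
    refine h.wM (h.se x xM x1 ⟨k, x3'⟩ w (h.se _ (M.mul_mem xM h.dM) s1 s3 _ ?_))
    rw [mul_assoc, c, inv_mul_cancel_left]
    exact M.mul_mem xM h.dM
  rw [Braid, ← mul_inv_eq_one]
  refine h.faith _ fun ρ l hc => ?_
  by_cases hl : l = -1
  · subst hl
    rw [map_mul, map_inv, (six_FNG hc).2.2, mul_inv_cancel]
  · have := congrArg ρ s1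
    rw [map_mul, k2 ρ l hc hl, one_mul, map_one] at this
    exact absurd this (ne_FNG hc)

end Pool.Agent.MP_a5588a_al.Full

end

section

namespace Pool.Agent.MP_a5588a_al.Full

open Pool.Agent.MP_a5588a_al.Solv
open scoped commutatorElement

universe u v

variable {G : Type u} [Group G] [Finite G]

variable {M : Subgroup G} {d w : G}

theorem h3_FN3 : (3 : KK) = 0 := by
  have : CharP KK 3 := inferInstance
  exact_mod_cast CharP.cast_eq_zero KK 3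

omit [Finite G] in
theorem mul_FN3 (π : G →* GL (Fin 2) KK) (x y : G) :
    (π (x * y) : Matrix (Fin 2) (Fin 2) KK) = (π x : Matrix (Fin 2) (Fin 2) KK) * π y := by
  rw [map_mul, Units.val_mul]

omit [Finite G] in
theorem inv_FN3 {π : G →* GL (Fin 2) KK} {x : G} {p q r s : KK}
    (hx : (π x : Matrix (Fin 2) (Fin 2) KK) = !![p, q; r, s]) (det : p * s - q * r = 1) :
    (π x⁻¹ : Matrix (Fin 2) (Fin 2) KK) = !![s, -q; -r, p] := by
  rw [map_inv]
  apply Units.inv_eq_of_mul_eq_one_right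
  rw [hx]
  ext i j
  fin_cases i <;> fin_cases j <;> simp [Matrix.mul_apply, Fin.sum_univ_two] <;>
    first | ring1 | linear_combination det

omit [Finite G] in
theorem eta_FN3 (π : G →* GL (Fin 2) KK) (x : G) :
    (π x : Matrix (Fin 2) (Fin 2) KK) = !![π x 0 0, π x 0 1; π x 1 0, π x 1 1] :=
  Matrix.eta_fin_two _

omit [Finite G] in
theorem cj_FN3 {π : G →* GL (Fin 2) KK} {x k : G} {l p q r s : KK}
    (hx : (π x : Matrix (Fin 2) (Fin 2) KK) = !![1, l; 0, 1])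
    (hk : (π k : Matrix (Fin 2) (Fin 2) KK) = !![p, q; r, s]) (det : p * s - q * r = 1) :
    (π (k * x * k⁻¹) : Matrix (Fin 2) (Fin 2) KK) =
      !![1 - l * p * r, l * p ^ 2; -(l * r ^ 2), 1 + l * p * r] := by
  rw [mul_FN3, mul_FN3, inv_FN3 hk det, hx, hk]
  ext i j
  fin_cases i <;> fin_cases j <;> simp [Matrix.mul_apply, Fin.sum_univ_two] <;>
    first | ring1 | linear_combination det

omit [Finite G] in
theorem cm_FN3 {π : G →* GL (Fin 2) KK} {x k : G} {l p q r s : KK}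
    (hx : (π x : Matrix (Fin 2) (Fin 2) KK) = !![1, l; 0, 1])
    (hk : (π k : Matrix (Fin 2) (Fin 2) KK) = !![p, q; r, s]) (det : p * s - q * r = 1) :
    (π (x⁻¹ * (k * x * k⁻¹)) : Matrix (Fin 2) (Fin 2) KK) =
      !![1 - l * p * r + l ^ 2 * r ^ 2, l * (p ^ 2 - 1 - l * r * p); -(l * r ^ 2), 1 + l * p * r] := by
  rw [mul_FN3, cj_FN3 hx hk det, inv_FN3 hx (by ring)]
  ext i j
  fin_cases i <;> fin_cases j <;> simp [Matrix.mul_apply, Fin.sum_univ_two] <;> ring1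

omit [Finite G] in
theorem c3_FN3 {x : G} (k : G) (hx : x ^ 3 = 1) : (k * x * k⁻¹) ^ 3 = 1 := by
  rw [conj_pow, hx, mul_one, mul_inv_cancel]

theorem low_FN3 {π : G →* GL (Fin 2) KK} {N : Subgroup G} (hN : N.Normal) (h3 : ¬ 3 ∣ Nat.card N)
    {x k : G} {l p q r s : KK} (hl : l ≠ 0) (x3 : x ^ 3 = 1)
    (hx : (π x : Matrix (Fin 2) (Fin 2) KK) = !![1, l; 0, 1])
    (hk : (π k : Matrix (Fin 2) (Fin 2) KK) = !![p, q; r, s]) (det : p * s - q * r = 1)
    (hi : x⁻¹ * (k * x * k⁻¹) ∈ N) : r = 0 ∨ (l * r) ^ 2 = 1 := by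
  rcases qg2 (π := π) h3_FN3 h3 (fun y hy => hN.conj_mem' y hy x) hi x3 (c3_FN3 k x3) with e | e
  · left
    have e2 := cj_FN3 hx hk det
    rw [← e, hx] at e2
    have e3 := congrFun (congrFun e2 1) 0
    simp [hl] at e3
    exact e3
  · right
    rw [cm_FN3 hx hk det, Matrix.trace_fin_two_of] at e
    linear_combination e - h3_FN3

theorem upp_FN3 {π : G →* GL (Fin 2) KK} {N : Subgroup G} (hN : N.Normal) (h3 : ¬ 3 ∣ Nat.card N)
    {x k : G} {p q r s : KK} (x3 : x ^ 3 = 1)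
    (hx : (π x : Matrix (Fin 2) (Fin 2) KK) = !![1, 0; 1, 1])
    (hk : (π k : Matrix (Fin 2) (Fin 2) KK) = !![p, q; r, s]) (det : p * s - q * r = 1)
    (kN : k ∈ N) : q ^ 3 = q := by
  have hi : x⁻¹ * (k * x * k⁻¹) ∈ N := by
    have := N.mul_mem (hN.conj_mem' k kN x) (N.inv_mem kN)
    simpa only [mul_assoc] using this
  have e2 : (π (k * x * k⁻¹) : Matrix (Fin 2) (Fin 2) KK) =
      !![1 + q * s, -(q ^ 2); s ^ 2, 1 - q * s] := by
    rw [mul_FN3, mul_FN3, inv_FN3 hk det, hx, hk]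
    ext i j
    fin_cases i <;> fin_cases j <;> simp [Matrix.mul_apply, Fin.sum_univ_two] <;>
      first | ring1 | linear_combination det
  rcases qg2 (π := π) h3_FN3 h3 (fun y hy => hN.conj_mem' y hy x) hi x3 (c3_FN3 k x3) with e | e
  · rw [← e, hx] at e2
    have e3 := congrFun (congrFun e2 0) 1
    simp at e3
    rw [e3]
    ring
  · rw [mul_FN3, e2, inv_FN3 hx (by ring), Matrix.trace_fin_two] at e
    simp [Matrix.mul_apply, Fin.sum_univ_two] at e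
    linear_combination q * e - q * h3_FN3

omit [Finite G] in
theorem one_FN3 {π : G →* GL (Fin 2) KK} {x : G}
    (hx : (π x : Matrix (Fin 2) (Fin 2) KK) = !![1, 0; 0, 1]) : π x = 1 := by
  apply Units.ext
  rw [hx, Units.val_one, Matrix.one_fin_two]

omit [Finite G] in
theorem el3_FN3 {x : G} (hx : x ^ 3 = 1) : El3 x := ⟨1, by simpa using hx⟩

theorem n3 (h : Pr M d w)
    (no : ∀ (π : G →* GL (Fin 2) KK) (l : KK), Cmp d w π l → l ≠ 1 ∧ l ≠ -1) {N : Subgroup G}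
    (hN : N.Normal) (h3 : ¬ 3 ∣ Nat.card N) : N ≤ M := by
  have cmN : ∀ k ∈ N, d⁻¹ * (k * d * k⁻¹) ∈ N := fun k kN => by
    have := N.mul_mem (hN.conj_mem' k kN d) (N.inv_mem kN)
    simpa only [mul_assoc] using this
  have low : ∀ (π : G →* GL (Fin 2) KK) (l : KK), Cmp d w π l → ∀ k ∈ N, π k 1 0 = 0 := by
    intro π l c k kN
    have U : ∀ k ∈ N, (l * (π k 0 0 ^ 2 - 1 - l * π k 1 0 * π k 0 0)) ^ 3 =
        l * (π k 0 0 ^ 2 - 1 - l * π k 1 0 * π k 0 0) := fun k kN => by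
      have e := cm_FN3 c.hd (eta_FN3 π k) (c.det h.gen k)
      refine upp_FN3 hN h3 h.w3 c.hw e ?_ (cmN k kN)
      ring
    rcases low_FN3 hN h3 c.ne h.d3 c.hd (eta_FN3 π k) (c.det h.gen k) (cmN k kN) with e | e
    · exact e
    exfalso
    have hi := inv_FN3 c.hd (by ring)
    have a : ∀ i, π (d * k * d⁻¹) i 0 = ![π k 0 0 + l * π k 1 0, π k 1 0] i := fun i => by
      rw [mul_FN3, mul_FN3, hi, c.hd, eta_FN3 π k]
      fin_cases i <;> simp [Matrix.mul_apply, Fin.sum_univ_two]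
    have b : ∀ i, π (d⁻¹ * k * d) i 0 = ![π k 0 0 - l * π k 1 0, π k 1 0] i := fun i => by
      rw [mul_FN3, mul_FN3, hi, c.hd, eta_FN3 π k]
      fin_cases i <;> simp [Matrix.mul_apply, Fin.sum_univ_two, sub_eq_add_neg]
    have u0 := U k kN
    have u1 := U _ (hN.conj_mem k kN d)
    have u2 := U _ (hN.conj_mem' k kN d)
    rw [a 0, a 1] at u1
    rw [b 0, b 1] at u2
    simp only [Matrix.cons_val_zero, Matrix.cons_val_one] at u1 u2
    have cube : ∀ a b c : KK, a ^ 3 = a → b ^ 3 = b → c ^ 3 = c → (a + b + c) ^ 3 = a + b + c :=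
      fun a b c ha hb hc => by
        linear_combination ha + hb + hc + (a ^ 2 * b + a ^ 2 * c + b ^ 2 * a + b ^ 2 * c + c ^ 2 * a +
          c ^ 2 * b + 2 * a * b * c) * h3_FN3
    have t := cube _ _ _ u0 u1 u2
    generalize π k 0 0 = p at *
    generalize π k 1 0 = r at *
    have s : l * (p ^ 2 - 1 - l * r * p) + l * ((p + l * r) ^ 2 - 1 - l * r * (p + l * r)) +
        l * ((p - l * r) ^ 2 - 1 - l * r * (p - l * r)) = -l := by
      linear_combination (2 * l) * e + (l * p ^ 2 - l * l * r * p) * h3_FN3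
    rw [s] at t
    have : l * (l - 1) * (l + 1) = 0 := by linear_combination -t
    rcases mul_eq_zero.1 this with t | t
    · rcases mul_eq_zero.1 t with t | t
      · exact c.ne t
      · exact (no π l c).1 (by linear_combination t)
    · exact (no π l c).2 (by linear_combination t)
  intro k kN
  have z3 : (d⁻¹ * (k * d * k⁻¹)) ^ 3 = 1 := h.faith _ fun π l c => by
    have e := cm_FN3 c.hd (eta_FN3 π k) (c.det h.gen k)
    rw [low π l c k kN] at e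
    apply one_FN3
    rw [pow_three, mul_FN3, mul_FN3 π (d⁻¹ * (k * d * k⁻¹)), e]
    ext i j
    fin_cases i <;> fin_cases j <;> simp [Matrix.mul_apply, Fin.sum_univ_two]
    linear_combination (l * (π k 0 0 ^ 2 - 1)) * h3_FN3
  have z1 : d⁻¹ * (k * d * k⁻¹) = 1 := by
    have o1 := orderOf_dvd_of_pow_eq_one z3
    have o2 := Subgroup.orderOf_dvd_natCard N (cmN k kN)
    rcases (Nat.dvd_prime Nat.prime_three).1 o1 with o | o
    · exact orderOf_eq_one_iff.1 o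
    · exact absurd (o ▸ o2) h3
  refine h.se d h.dM h.d1 (el3_FN3 h.d3) k ?_
  have : k⁻¹ * d * k = d := by
    have e : k * d * k⁻¹ = d := (inv_mul_eq_one.1 z1).symm
    calc k⁻¹ * d * k = k⁻¹ * (k * d * k⁻¹) * k := by rw [e]
      _ = d := by group
  rw [this]
  exact h.dM

/-- The elements trivial in all components with the property `P`. -/
def ker_FN3 (d w : G) (P : (G →* GL (Fin 2) KK) → Prop) : Subgroup G where
  carrier := {g | ∀ (π : G →* GL (Fin 2) KK) (l : KK), Cmp d w π l → P π → π g = 1}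
  one_mem' := fun π _ _ _ => map_one π
  mul_mem' := fun {a b} ha hb π l c p => by rw [map_mul, ha π l c p, hb π l c p, mul_one]
  inv_mem' := fun {a} ha π l c p => by rw [map_inv, ha π l c p, inv_one]

omit [Finite G] in
theorem kerN_FN3 (d w : G) (P : (G →* GL (Fin 2) KK) → Prop) : (ker_FN3 d w P).Normal :=
  ⟨fun a ha g π l c p => by rw [map_mul, map_mul, ha π l c p, mul_one, ← map_mul, mul_inv_cancel,
    map_one]⟩

omit [Finite G] in
theorem el3S_FN3 {S : Subgroup G} (hS : IsPGroup 3 S) {x : G} (hx : x ∈ S)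
    (π : G →* GL (Fin 2) KK) : El3 (π x) := by
  obtain ⟨n, hn⟩ := hS ⟨x, hx⟩
  refine ⟨n, ?_⟩
  have : x ^ 3 ^ n = 1 := by simpa using congrArg Subtype.val hn
  rw [← map_pow, this, map_one]

omit [Finite G] in
theorem diag_FN3 {π : G →* GL (Fin 2) KK} {x : G} (hx : El3 x) (h0 : π x 1 0 = 0) :
    π x 0 0 = 1 := by
  have key : ∀ k : ℕ, π (x ^ k) 1 0 = 0 ∧ π (x ^ k) 0 0 = π x 0 0 ^ k := fun k => by
    induction k with
    | zero => simp
    | succ k ih =>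
      rw [pow_succ, mul_FN3]
      simp only [Matrix.mul_apply, Fin.sum_univ_two, ih.1, ih.2, h0, pow_succ]
      constructor <;> ring
  obtain ⟨n, hn⟩ := hx
  have e := (key (3 ^ n)).2
  rw [hn, map_one] at e
  have : Fact (Nat.Prime 3) := ⟨Nat.prime_three⟩
  have e2 : (π x 0 0 - 1) ^ 3 ^ n = 0 := by
    rw [sub_pow_char_pow, ← e]
    simp
  exact sub_eq_zero.1 (pow_eq_zero_iff (by positivity) |>.1 e2)

theorem k3S_FN3 (h : Pr M d w)
    (no : ∀ (π : G →* GL (Fin 2) KK) (l : KK), Cmp d w π l → l ≠ 1 ∧ l ≠ -1) (S : Sylow 3 G)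
    (dS : d ∈ (S : Subgroup G)) {x : G} (xS : x ∈ (S : Subgroup G))
    (x1 : x ≠ 1) {π : G →* GL (Fin 2) KK} {l : KK} (hπ : Cmp d w π l) : π x ≠ 1 := by
  intro px
  have : Fact (Nat.Prime 3) := ⟨Nat.prime_three⟩
  have hS : IsPGroup 3 (S : Subgroup G) := S.isPGroup'
  have hx : El3 x := by
    obtain ⟨n, hn⟩ := hS ⟨x, xS⟩
    exact ⟨n, by simpa using congrArg Subtype.val hn⟩
  set N := ker_FN3 d w fun ρ => ρ x = 1 with hN
  set K := ker_FN3 d w fun ρ => ρ x ≠ 1 with hK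
  have nN : N.Normal := kerN_FN3 _ _ _
  have nK : K.Normal := kerN_FN3 _ _ _
  have xN : x ∈ N := fun ρ _ _ p => p
  have com : ∀ a ∈ N, ∀ b ∈ K, a⁻¹ * b * a = b := fun a ha b hb => by
    have : a⁻¹ * b * a * b⁻¹ = 1 := h.faith _ fun ρ m c => by
      by_cases p : ρ x = 1
      · simp [ha ρ m c p]
      · simp [hb ρ m c p]
    exact mul_inv_eq_one.1 this
  have K3 : ¬ 3 ∣ Nat.card K := fun hd => by
    obtain ⟨y, hy⟩ := exists_prime_orderOf_dvd_card' 3 hd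
    have y3 : (y : G) ^ 3 = 1 := by
      have := pow_orderOf_eq_one y
      rw [hy] at this
      simpa using congrArg Subtype.val this
    have y1 : (y : G) ≠ 1 := fun e => by
      have : y = 1 := Subtype.ext e
      rw [this, orderOf_one] at hy
      omega
    have pz : IsPGroup 3 (Subgroup.zpowers (y : G)) :=
      IsPGroup.of_card (n := 1) (by rw [Nat.card_zpowers, Subgroup.orderOf_coe, hy, pow_one])
    obtain ⟨g, hg⟩ := ex_fix h.idx pz
    have m := hg _ (Subgroup.mem_zpowers _)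
    have NM : N ≤ M := fun a ha => by
      refine h.se _ m (fun e => y1 ?_) (el3_FN3 ?_) a ?_
      · calc (y : G) = g * (g⁻¹ * y * g) * g⁻¹ := by group
          _ = 1 := by rw [e]; group
      · simpa using c3_FN3 g⁻¹ y3
      · rw [com a ha _ (nK.conj_mem' _ y.2 g)]
        exact m
    exact h.wM (h.se x (NM xN) x1 hx w (NM (nN.conj_mem' x xN w)))
  have pR : IsPGroup 3 ((S : Subgroup G) ⊓ N : Subgroup G) := hS.to_le inf_le_left
  have mx : ∀ R' : Subgroup G, R' ≤ N → IsPGroup 3 R' → (S : Subgroup G) ⊓ N ≤ R' →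
      R' = (S : Subgroup G) ⊓ N := fun R' le p ge => by
    obtain ⟨y, -, hy⟩ := sylow_conj (Y := ⊤) le_top hS (fun T _ pT hT => S.is_maximal' pT hT)
      le_top p
    refine (Subgroup.eq_of_le_of_card_ge ge ?_).symm
    refine Nat.card_le_card_of_injective
      (fun a : R' => (⟨y⁻¹ * a * y, hy a a.2, nN.conj_mem' _ (le a.2) y⟩ :
        ((S : Subgroup G) ⊓ N : Subgroup G))) fun a b e => ?_
    have := congrArg Subtype.val e
    exact Subtype.ext (by simpa using this)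
  obtain ⟨y, yN, hy⟩ := sylow_conj (Q := ((S : Subgroup G) ⊓ N).map (MulAut.conj w).toMonoidHom)
    inf_le_right pR mx (by
      rintro _ ⟨a, ha, rfl⟩
      exact nN.conj_mem a ha.2 w) (pR.map _)
  have nm : ∀ k : ℕ, (y⁻¹ * w) ^ k * x * ((y⁻¹ * w) ^ k)⁻¹ ∈ (S : Subgroup G) ⊓ N := fun k => by
    induction k with
    | zero => simpa using ⟨xS, xN⟩
    | succ k ih =>
      have := hy _ ⟨_, ih, rfl⟩
      convert this using 1
      simp only [MulEquiv.toMonoidHom_eq_coe, MonoidHom.coe_coe, MulAut.conj_apply, pow_succ']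
      generalize (y⁻¹ * w) ^ k = u
      group
  obtain ⟨a, m, hm, ho⟩ := Nat.exists_eq_pow_mul_and_not_dvd (orderOf_pos (y⁻¹ * w)).ne' 3 (by norm_num)
  obtain ⟨t, ht⟩ : ∃ t, m * m = 3 * t + 1 := by
    have : m % 3 = 1 ∨ m % 3 = 2 := by omega
    refine ⟨m * m / 3, ?_⟩
    have : m * m % 3 = 1 := by rcases this with e | e <;> simp [Nat.mul_mod, e]
    omega
  set v := (y⁻¹ * w) ^ (m * m) with hv
  have v3 : El3 v := ⟨a, by
    rw [hv, ← pow_mul, show m * m * 3 ^ a = orderOf (y⁻¹ * w) * m by rw [ho]; ring, pow_mul,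
      pow_orderOf_eq_one, one_pow]⟩
  have pv : π v = π w := by
    rw [hv, map_pow, map_mul, map_inv, yN π l hπ px, inv_one, one_mul, ← map_pow, ht, pow_succ,
      pow_mul, h.w3, one_pow, one_mul]
  have zK : d⁻¹ * (v * d * v⁻¹) ∈ K := fun ρ n c p => by
    have tri : ∀ s ∈ (S : Subgroup G), ρ s 1 0 = 0 ∧ ρ s 0 0 = 1 ∧ ρ s 1 1 = 1 := fun s hs =>
      tri3 h3_FN3 c.ne c.hd (el3S_FN3 hS hs ρ) (el3S_FN3 hS (Subgroup.mul_mem _ hs dS) ρ)
    have ex := eta_FN3 ρ x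
    rw [(tri x xS).1, (tri x xS).2.1, (tri x xS).2.2] at ex
    have b0 : ρ x 0 1 ≠ 0 := fun e => p (one_FN3 (by rw [ex, e]))
    have e1 := (tri _ (nm (m * m)).1).1
    rw [← hv, cj_FN3 ex (eta_FN3 ρ v) (c.det h.gen v)] at e1
    have r0 : ρ v 1 0 = 0 := by simpa [b0] using e1
    apply one_FN3
    rw [cm_FN3 c.hd (eta_FN3 ρ v) (c.det h.gen v), r0, diag_FN3 v3 r0]
    simp
  rcases low_FN3 nK K3 hπ.ne h.d3 hπ.hd (pv ▸ hπ.hw) (by ring) zK with e | e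
  · exact one_ne_zero e
  · have : (l - 1) * (l + 1) = 0 := by linear_combination e
    rcases mul_eq_zero.1 this with t | t
    · exact (no π l hπ).1 (by linear_combination t)
    · exact (no π l hπ).2 (by linear_combination t)

theorem k3 (h : Pr M d w)
    (no : ∀ (π : G →* GL (Fin 2) KK) (l : KK), Cmp d w π l → l ≠ 1 ∧ l ≠ -1) {x : G} (hx : El3 x)
    (x1 : x ≠ 1) {π : G →* GL (Fin 2) KK} {l : KK} (hπ : Cmp d w π l) : π x ≠ 1 := by
  have : Fact (Nat.Prime 3) := ⟨Nat.prime_three⟩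
  have pz : ∀ y : G, El3 y → IsPGroup 3 (Subgroup.zpowers y) := fun y ⟨n, hn⟩ => by
    obtain ⟨k, -, hk⟩ := (Nat.dvd_prime_pow Nat.prime_three).1 (orderOf_dvd_of_pow_eq_one hn)
    exact IsPGroup.of_card (n := k) (by rw [Nat.card_zpowers, hk])
  obtain ⟨S, hS⟩ := (pz d (el3_FN3 h.d3)).exists_le_sylow
  obtain ⟨y, -, hy⟩ := sylow_conj (Y := ⊤) le_top S.isPGroup'
    (fun T _ pT hT => S.is_maximal' pT hT) le_top (pz x hx)
  intro px
  refine k3S_FN3 h no S (hS (Subgroup.mem_zpowers d)) (hy x (Subgroup.mem_zpowers x))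
    (fun e => x1 ?_) hπ (by simp [px])
  calc x = y * (y⁻¹ * x * y) * y⁻¹ := by group
    _ = 1 := by rw [e]; group

end Pool.Agent.MP_a5588a_al.Full

end

section

namespace Pool.Agent.MP_a5588a_al.Full

open Pool.Agent.MP_a5588a_al.Solv
open scoped commutatorElement

universe u v

variable {G : Type u} [Group G] [Finite G]

variable {M : Subgroup G} {d w : G}

theorem three_FBM : (3 : KK) = 0 := by exact_mod_cast CharP.cast_eq_zero KK 3

section
omit [Finite G]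
variable {π : G →* GL (Fin 2) KK} {l : KK}

theorem mul_FBM (π : G →* GL (Fin 2) KK) (x y : G) (i j : Fin 2) :
    π (x * y) i j = π x i 0 * π y 0 j + π x i 1 * π y 1 j := by
  rw [map_mul, Units.val_mul, Matrix.mul_apply, Fin.sum_univ_two]

theorem one_FBM {x : G} (a : π x 1 0 = 0) (b : π x 0 0 = 1) (c : π x 1 1 = 1) (e : π x 0 1 = 0) :
    π x = 1 := by
  ext i j
  fin_cases i <;> fin_cases j <;> simp [a, b, c, e]

theorem inv_FBM (hπ : Cmp d w π l) (gen : Subgroup.closure {d, w} = ⊤) (x : G) :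
    π x⁻¹ 0 0 = π x 1 1 ∧ π x⁻¹ 0 1 = -π x 0 1 ∧ π x⁻¹ 1 0 = -π x 1 0 ∧ π x⁻¹ 1 1 = π x 0 0 := by
  have e := fun i j => mul_FBM π x⁻¹ x i j
  simp only [inv_mul_cancel, map_one, Units.val_one] at e
  have a := e 0 0
  have b := e 0 1
  have c := e 1 0
  have f := e 1 1
  have t := hπ.det gen x
  simp only [Matrix.one_apply_eq, ne_eq, zero_ne_one, one_ne_zero, not_false_eq_true,
    Matrix.one_apply_ne] at a b c f
  exact ⟨by linear_combination π x 1 0 * b - π x 1 1 * a - π x⁻¹ 0 0 * t,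
    by linear_combination π x 0 1 * a - π x 0 0 * b - π x⁻¹ 0 1 * t,
    by linear_combination π x 1 0 * f - π x 1 1 * c - π x⁻¹ 1 0 * t,
    by linear_combination π x 0 1 * c - π x 0 0 * f - π x⁻¹ 1 1 * t⟩

theorem ent_FBM (hπ : Cmp d w π l) : (π d 0 0 = 1 ∧ π d 0 1 = l ∧ π d 1 0 = 0 ∧ π d 1 1 = 1) ∧
    π w 0 0 = 1 ∧ π w 0 1 = 0 ∧ π w 1 0 = 1 ∧ π w 1 1 = 1 := by
  rw [hπ.hd, hπ.hw]
  simp

/-- The unitriangular elements. -/
def U_FBM (hπ : Cmp d w π l) (gen : Subgroup.closure {d, w} = ⊤) : Subgroup G where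
  carrier := {x | π x 1 0 = 0 ∧ π x 0 0 = 1 ∧ π x 1 1 = 1}
  one_mem' := by simp
  mul_mem' := fun {x y} a b => by
    simp only [Set.mem_ofPred_eq, mul_FBM, a.1, a.2.1, a.2.2, b.1, b.2.1, b.2.2]
    simp
  inv_mem' := fun {x} a => by
    obtain ⟨e1, -, e3, e4⟩ := inv_FBM hπ gen x
    exact ⟨by rw [e3, a.1, neg_zero], e1.trans a.2.2, e4.trans a.2.1⟩

theorem conj_FBM (hπ : Cmp d w π l) (gen : Subgroup.closure {d, w} = ⊤) (g : G) {x : G}
    (hx : x ∈ U_FBM hπ gen) : π (g * x * g⁻¹) 1 0 = -(π x 0 1 * π g 1 0 ^ 2) ∧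
      π (g * x * g⁻¹) 0 1 = π g 0 0 ^ 2 * π x 0 1 ∧ (π g 1 0 = 0 → g * x * g⁻¹ ∈ U_FBM hπ gen) := by
  obtain ⟨e1, e2, e3, e4⟩ := inv_FBM hπ gen g
  have t := hπ.det gen g
  refine ⟨?_, ?_, fun k => ⟨?_, ?_, ?_⟩⟩ <;>
    simp only [mul_FBM, e1, e2, e3, e4, hx.1, hx.2.1, hx.2.2]
  · ring
  · ring
  · rw [k]; ring
  · linear_combination t - π g 0 0 * π x 0 1 * k
  · linear_combination t + π g 0 0 * π x 0 1 * k

end

theorem dl_FBM (gen : Subgroup.closure {d, w} = ⊤) {π : G →* GL (Fin 2) KK} {l : KK}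
    (hπ : Cmp d w π l) {x y z : G} (hx : π x 1 0 ≠ 0) (hy : π y 1 0 ≠ 0) (hz : π z 1 0 ≠ 0) :
    ∃ m, π m 1 0 = 0 ∧ (π y 1 0 = π m 0 0 * π x 1 0 ∨ π z 1 0 = π m 0 0 * π x 1 0 ∨
      π z 1 0 = π m 0 0 * π y 1 0) := by
  classical
  obtain ⟨⟨d1, d2, d3, d4⟩, -⟩ := ent_FBM hπ
  obtain ⟨i, j, ij, m, m', a, b, e⟩ := dl_R2 (π := π) three_FBM d d3 (d1.trans d4.symm)
    (d2 ▸ hπ.ne) ![x, y, z] fun i => by fin_cases i <;> assumption
  obtain ⟨e1, -, e3, -⟩ := inv_FBM hπ gen m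
  obtain ⟨f1, -, f3, -⟩ := inv_FBM hπ gen m'
  have t := hπ.det gen m
  have t' := hπ.det gen m'
  rw [a, mul_zero, sub_zero] at t
  rw [b, mul_zero, sub_zero] at t'
  have k0 : π (![x, y, z] j) 1 0 = π m 1 1 * π m' 0 0 * π (![x, y, z] i) 1 0 := by
    simp only [e, mul_FBM, a, b]
    ring
  have k1 : π (m⁻¹ * m') 1 0 = 0 ∧
      π (![x, y, z] j) 1 0 = π (m⁻¹ * m') 0 0 * π (![x, y, z] i) 1 0 := by
    simp only [k0, mul_FBM, e1, e3, a, b]
    constructor <;> ring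
  have k2 : π (m * m'⁻¹) 1 0 = 0 ∧
      π (![x, y, z] i) 1 0 = π (m * m'⁻¹) 0 0 * π (![x, y, z] j) 1 0 := by
    simp only [k0, mul_FBM, f1, f3, a, b]
    refine ⟨by ring, ?_⟩
    linear_combination (-π (![x, y, z] i) 1 0) * t -
      π m 0 0 * π m 1 1 * π (![x, y, z] i) 1 0 * t'
  fin_cases i <;> fin_cases j <;> first
    | exact absurd rfl ij
    | exact ⟨_, k1.1, Or.inl k1.2⟩
    | exact ⟨_, k1.1, Or.inr (Or.inl k1.2)⟩
    | exact ⟨_, k1.1, Or.inr (Or.inr k1.2)⟩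
    | exact ⟨_, k2.1, Or.inl k2.2⟩
    | exact ⟨_, k2.1, Or.inr (Or.inl k2.2)⟩
    | exact ⟨_, k2.1, Or.inr (Or.inr k2.2)⟩

theorem ker_FBM (h : Pr M d w)
    (no : ∀ (π : G →* GL (Fin 2) KK) (l : KK), Cmp d w π l → l ≠ 1 ∧ l ≠ -1)
    {π : G →* GL (Fin 2) KK} {l : KK} (hπ : Cmp d w π l) : ¬ 3 ∣ Nat.card π.ker := fun k => by
  have : Fact (Nat.Prime 3) := ⟨Nat.prime_three⟩
  obtain ⟨x, hx⟩ := exists_prime_orderOf_dvd_card' 3 k
  rw [← Subgroup.orderOf_coe] at hx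
  refine k3 h no (x := x) ⟨1, orderOf_dvd_iff_pow_eq_one.1 hx.dvd⟩ (fun e => ?_) hπ x.2
  rw [e, orderOf_one] at hx
  omega

theorem bm (h : Pr M d w)
    (no : ∀ (π : G →* GL (Fin 2) KK) (l : KK), Cmp d w π l → l ≠ 1 ∧ l ≠ -1)
    {π : G →* GL (Fin 2) KK} {l : KK} (hπ : Cmp d w π l) {m : G} (hm : π m 1 0 = 0) : m ∈ M := by
  obtain ⟨⟨d1, -, d3, d4⟩, -⟩ := ent_FBM hπ
  have dU : d ∈ U_FBM hπ h.gen := ⟨d3, d1, d4⟩
  have e3 : El3 d := ⟨1, h.d3⟩
  have hU : U_FBM hπ h.gen ≤ M := le_of_quot3 π.normal_ker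
    (n3 h no π.normal_ker (ker_FBM h no hπ)) (fun x hx => ⟨1, by
      have k := pow_mem hx (3 ^ 1)
      refine one_FBM k.1 k.2.1 k.2.2 ?_
      rw [pow_one, pow_three]
      simp only [mul_FBM, hx.1, hx.2.1, hx.2.2]
      linear_combination π x 0 1 * three_FBM⟩) dU e3 fun S a b => h.syl a b
  refine inv_mem_iff.1 (h.se d h.dM h.d1 e3 m⁻¹ ?_)
  rw [inv_inv]
  exact hU ((conj_FBM hπ h.gen m dU).2.2 hm)

theorem perf (h : Pr M d w)
    (no : ∀ (π : G →* GL (Fin 2) KK) (l : KK), Cmp d w π l → l ≠ 1 ∧ l ≠ -1) {K₀ : Subgroup G}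
    (hK : K₀.Normal) (h3 : ∀ x : G, ∃ n : ℕ, x ^ 3 ^ n ∈ K₀) : K₀ = ⊤ := by
  have : Fact (Nat.Prime 3) := ⟨Nat.prime_three⟩
  obtain ⟨π, l, hπ⟩ : ∃ (π : G →* GL (Fin 2) KK) (l : KK), Cmp d w π l := by
    by_contra k
    exact h.d1 (h.faith d fun π l a => absurd ⟨π, l, a⟩ k)
  obtain ⟨⟨d1, d2, d3, d4⟩, w1, w2, w3, w4⟩ := ent_FBM hπ
  obtain ⟨n1, n2⟩ := no π l hπ
  have dU : d ∈ U_FBM hπ h.gen := ⟨d3, d1, d4⟩
  have g1 : π (w * d * w⁻¹) 1 0 = -l := by rw [(conj_FBM hπ h.gen w dU).1, d2, w3]; ring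
  have g2 : π (w * d * w) 1 0 = l - 1 := by
    simp only [mul_FBM, d1, d2, d3, d4, w1, w3, w4]
    linear_combination three_FBM
  obtain ⟨m, m0, hm⟩ := dl_FBM h.gen hπ (x := w) (y := w * d * w⁻¹) (z := w * d * w)
    (w3 ▸ one_ne_zero) (g1 ▸ neg_ne_zero.2 hπ.ne) (g2 ▸ sub_ne_zero.2 n1)
  have al : π m 0 0 ^ 2 - 1 ≠ 0 := fun k => by
    rw [g1, g2, w3] at hm
    rcases hm with e | e | e
    · exact mul_ne_zero (sub_ne_zero.2 n1) (sub_ne_zero.2 n2)
        (by linear_combination k + (l - π m 0 0) * -e)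
    · exact mul_ne_zero hπ.ne (sub_ne_zero.2 n2)
        (by linear_combination k + (l - 1 + π m 0 0) * e + l * three_FBM)
    · exact sub_ne_zero.2 n2 (by
        linear_combination l ^ 2 * k + (l - 1 - π m 0 0 * l) * e + l * three_FBM)
  have pd : IsPGroup 3 (Subgroup.zpowers d) := by
    rintro ⟨_, k, rfl⟩
    exact ⟨1, Subtype.ext (by
      show (d ^ k) ^ 3 = 1
      rw [← zpow_natCast, ← zpow_mul, mul_comm, zpow_mul, zpow_natCast, h.d3, one_zpow])⟩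
  obtain ⟨S, hS⟩ := pd.exists_le_sylow
  have dS : d ∈ (S : Subgroup G) := hS (Subgroup.mem_zpowers d)
  have sur : ∀ x : G, ∃ s ∈ (S : Subgroup G), (s : G ⧸ K₀) = x := fun x => by
    have t := (S.mapSurjective (QuotientGroup.mk'_surjective K₀)).is_maximal' (Q := ⊤)
      (fun y => by
        obtain ⟨y, -⟩ := y
        obtain ⟨y, rfl⟩ := QuotientGroup.mk_surjective y
        obtain ⟨n, hn⟩ := h3 y
        exact ⟨n, Subtype.ext ((QuotientGroup.eq_one_iff (y ^ 3 ^ n)).2 hn)⟩) le_top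
    exact t.le (Subgroup.mem_top (x : G ⧸ K₀))
  have cm : ∀ x y : G, x * y * x⁻¹ * y⁻¹ ∈ K₀ := fun x y => by
    obtain ⟨s, a, e⟩ := sur x
    obtain ⟨t, b, f⟩ := sur y
    rw [← QuotientGroup.eq_one_iff]
    simp only [QuotientGroup.mk_mul, QuotientGroup.mk_inv, ← e, ← f]
    rw [← QuotientGroup.mk_mul, h.abl S.isPGroup' dS s a t b, QuotientGroup.mk_mul]
    group
  have p3 : ∀ s ∈ (S : Subgroup G), El3 (π s) := fun s a => by
    obtain ⟨n, hn⟩ := S.isPGroup' ⟨s, a⟩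
    exact ⟨n, by rw [← map_pow, show s ^ 3 ^ n = 1 from congrArg Subtype.val hn, map_one]⟩
  have kr : ∀ x, π x = 1 → x ∈ K₀ := fun x a => by
    obtain ⟨n, hn⟩ := h3 x
    obtain ⟨k, hk⟩ := exists_pow_eq_self_of_coprime (x := x) (Nat.Coprime.pow_left n
      ((Nat.Prime.coprime_iff_not_dvd Nat.prime_three).2 fun e =>
        ker_FBM h no hπ (e.trans (π.ker.orderOf_dvd_natCard a))))
    exact hk ▸ pow_mem hn k
  have cj : ∀ y ∈ U_FBM hπ h.gen, m * y * m⁻¹ * y⁻¹ ∈ U_FBM hπ h.gen ∧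
      π (m * y * m⁻¹ * y⁻¹) 0 1 = (π m 0 0 ^ 2 - 1) * π y 0 1 := fun y a => by
    obtain ⟨-, c2, c3⟩ := conj_FBM hπ h.gen m a
    obtain ⟨-, e2, -, e4⟩ := inv_FBM hπ h.gen y
    refine ⟨mul_mem (c3 m0) (inv_mem a), ?_⟩
    rw [mul_FBM, c2, (c3 m0).2.1, e2, e4, a.2.1]
    ring
  have bij := (((U_FBM hπ h.gen : Set G).toFinite.image fun x => π x 0 1).injOn_iff_bijOn_of_mapsTo
    (f := fun b => (π m 0 0 ^ 2 - 1) * b) (by
      rintro _ ⟨y, a, rfl⟩
      exact ⟨_, (cj y a).1, (cj y a).2⟩)).1 fun _ _ _ _ e => mul_left_cancel₀ al e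
  refine eq_top_iff.2 fun x _ => ?_
  obtain ⟨s, a, e⟩ := sur x
  have sU : s ∈ U_FBM hπ h.gen := tri3 three_FBM hπ.ne hπ.hd (p3 s a) (p3 _ (mul_mem a dS))
  obtain ⟨_, ⟨y, b, rfl⟩, f⟩ := bij.surjOn ⟨s, sU, rfl⟩
  obtain ⟨c1, c2⟩ := cj y b
  have k := mul_mem sU (inv_mem c1)
  have k' := kr _ (one_FBM k.1 k.2.1 k.2.2 (by
    obtain ⟨-, e2, -, e4⟩ := inv_FBM hπ h.gen (m * y * m⁻¹ * y⁻¹)
    rw [mul_FBM, e2, e4, c2, c1.2.1, sU.2.1]
    linear_combination -f))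
  rw [← QuotientGroup.eq_one_iff, ← e, QuotientGroup.eq_one_iff]
  exact inv_mul_cancel_right s (m * y * m⁻¹ * y⁻¹) ▸ mul_mem k' (cm m y)

theorem partner (h : Pr M d w)
    (no : ∀ (π : G →* GL (Fin 2) KK) (l : KK), Cmp d w π l → l ≠ 1 ∧ l ≠ -1)
    {π : G →* GL (Fin 2) KK} {l : KK} (hπ : Cmp d w π l) :
    ∃ g, g ∉ M ∧ (π g 1 0 * l) ^ 2 = 1 := by
  obtain ⟨⟨d1, d2, d3, d4⟩, -, -, w3, -⟩ := ent_FBM hπ
  have dU : d ∈ U_FBM hπ h.gen := ⟨d3, d1, d4⟩
  have g1 : π (w * d * w⁻¹) 1 0 = -l := by rw [(conj_FBM hπ h.gen w dU).1, d2, w3]; ring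
  have g2 : π (w * d * w⁻¹ * d * (w * d * w⁻¹)⁻¹) 1 0 = (-l) ^ 3 := by
    rw [(conj_FBM hπ h.gen _ dU).1, d2, g1]; ring
  have key : ∀ m x, π m 1 0 = 0 → x ∉ M → π m 0 0 ^ 2 = (π x 1 0 * l) ^ 2 →
      ∃ g, g ∉ M ∧ (π g 1 0 * l) ^ 2 = 1 := fun m x a b c => by
    refine ⟨m * x, fun k => b ((mul_mem_cancel_left (bm h no hπ a)).1 k), ?_⟩
    have t := hπ.det h.gen m
    rw [a, mul_zero, sub_zero] at t
    rw [mul_FBM, a]
    linear_combination (π m 0 0 * π m 1 1 + 1) * t - π m 1 1 ^ 2 * c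
  obtain ⟨m, m0, hm⟩ := dl_FBM h.gen hπ (x := w) (y := w * d * w⁻¹)
    (z := w * d * w⁻¹ * d * (w * d * w⁻¹)⁻¹) (w3 ▸ one_ne_zero) (g1 ▸ neg_ne_zero.2 hπ.ne)
    (g2 ▸ pow_ne_zero 3 (neg_ne_zero.2 hπ.ne))
  rw [g1, g2, w3, mul_one] at hm
  rcases hm with e | e | e
  · exact key m w m0 h.wM (by rw [← e, w3]; ring)
  · have inj : ∀ a b : KK, a ^ 3 = b ^ 3 → a = b := fun a b k => sub_eq_zero.1
      (pow_eq_zero_iff three_ne_zero |>.1 (by
        linear_combination k + (a * b ^ 2 - a ^ 2 * b) * three_FBM))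
    have bij := (({x | π x 1 0 = 0} : Set G).toFinite.image
      fun x => π x 0 0).injOn_iff_bijOn_of_mapsTo (f := fun b => b ^ 3) (by
        rintro _ ⟨y, a, rfl⟩
        have a' : π y 1 0 = 0 := a
        refine ⟨y * y * y, ?_, ?_⟩ <;> simp only [Set.mem_ofPred_eq, mul_FBM, a'] <;> ring)
      |>.1 fun a _ b _ k => inj a b k
    obtain ⟨_, ⟨y, b, rfl⟩, f⟩ := bij.surjOn ⟨m, m0, rfl⟩
    exact key y w b h.wM (by rw [inj (π y 0 0) _ (f.trans e.symm), w3]; ring)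
  · refine key m (w * d * w⁻¹) m0 (fun k => h.wM (inv_mem_iff.1
      (h.se d h.dM h.d1 ⟨1, h.d3⟩ w⁻¹ (by rwa [inv_inv])))) ?_
    rw [g1, mul_right_cancel₀ (neg_ne_zero.2 hπ.ne)
      (show π m 0 0 * -l = l ^ 2 * -l by rw [← e]; ring)]
    ring

end Pool.Agent.MP_a5588a_al.Full

end
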