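import Pool.Agent.Mg.Fa5588aa.G1ab97f

section

namespace Pool.Agent.MP_a5588a_al.Solv

open scoped commutatorElement

variable {R : Type*} [Ring R] {u : Fin 3 → R} {t a b : R}

namespace Q8

theorem tu (q : Q8 u t a b) (r : Fin 3) : t * u r = u r * t := by
  rw [← q.sq r, mul_assoc]

theorem ta (q : Q8 u t a b) : t * a = a * t := by
  rw [← q.sq 0, mul_assoc, q.conj, ← mul_assoc, q.conj, mul_assoc, q.sq, q.sq]

theorem conj' (q : Q8 u t a b) (r : Fin 3) : b * u r = u (r + 1) * b := by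
  calc b * u r = b * (u r * a) * b := by rw [mul_assoc, mul_assoc, q.ab, mul_one]
    _ = u (r + 1) * b := by rw [q.conj, ← mul_assoc, q.ba, one_mul]

theorem tb (q : Q8 u t a b) : t * b = b * t := by
  calc t * b = b * (a * t) * b := by rw [← mul_assoc, q.ba, one_mul]
    _ = b * t := by rw [← q.ta, mul_assoc, mul_assoc, q.ab, mul_one]

theorem anti (q : Q8 u t a b) {r s : Fin 3} (h : r ≠ s) : u r * u s = t * (u s * u r) := by
  have k : ∀ r s : Fin 3, r ≠ s → s = r + 1 ∨ r = s + 1 := by decide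
  rcases k r s h with rfl | rfl
  · rw [q.mul', ← mul_assoc, q.tt, one_mul, q.mul]
  · rw [q.mul', q.mul]

theorem two (q : Q8 u t a b) : (2 : R) = -1 := by
  rw [eq_neg_iff_add_eq_zero, ← q.three]; norm_num

theorem add3 (q : Q8 u t a b) (x : R) : x + x + x = 0 := by
  have : (3 : R) * x = 0 := by rw [q.three, zero_mul]
  rw [← this]; noncomm_ring

theorem prod (q : Q8 u t a b) : Q8 (fun r => (u r, u r)) (t, t) (a, a) (b, b) where
  three := Prod.ext q.three q.three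
  sq r := Prod.ext (q.sq r) (q.sq r)
  tt := Prod.ext q.tt q.tt
  mul r := Prod.ext (q.mul r) (q.mul r)
  mul' r := Prod.ext (q.mul' r) (q.mul' r)
  ab := Prod.ext q.ab q.ab
  ba := Prod.ext q.ba q.ba
  conj r := Prod.ext (q.conj r) (q.conj r)

theorem map (q : Q8 u t a b) {S : Type*} [Ring S] (φ : R →+* S) :
    Q8 (fun r => φ (u r)) (φ t) (φ a) (φ b) where
  three := by rw [← map_ofNat φ 3, q.three, map_zero]
  sq r := by rw [← map_mul, q.sq]
  tt := by rw [← map_mul, q.tt, map_one]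
  mul r := by rw [← map_mul, q.mul]
  mul' r := by rw [← map_mul, q.mul', map_mul]
  ab := by rw [← map_mul, q.ab, map_one]
  ba := by rw [← map_mul, q.ba, map_one]
  conj r := by rw [← map_mul, q.conj, map_mul]

/-- Splitting an even element with respect to one `u r`. -/
theorem split (q : Q8 u t a b) (r : Fin 3) {X : R} (hX : t * X = X * t) :
    X = -(X + t * u r * X * u r) + -(X - t * u r * X * u r) ∧
      u r * -(X + t * u r * X * u r) = -(X + t * u r * X * u r) * u r ∧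
      u r * -(X - t * u r * X * u r) = -(-(X - t * u r * X * u r) * u r) := by
  have f1 : u r * (t * u r * X * u r) = X * u r := by
    rw [← mul_assoc, ← mul_assoc, ← mul_assoc, ← q.tu, mul_assoc t, q.sq, q.tt, one_mul]
  have f2 : t * u r * X * u r * u r = u r * X := by
    rw [mul_assoc _ (u r), q.sq, mul_assoc _ X, ← hX, q.tu, mul_assoc, ← mul_assoc t, q.tt,
      one_mul]
  refine ⟨?_, ?_, ?_⟩
  · rw [← sub_eq_zero, ← q.add3 X]; abel
  · rw [mul_neg, neg_mul, mul_add, add_mul, f1, f2, add_comm]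
  · rw [mul_neg, neg_mul, mul_sub, sub_mul, f1, f2, neg_neg, neg_sub]

theorem cj_comm (q : Q8 u t a b) {r s : Fin 3} (h : r ≠ s) (X : R) :
    u r * (t * u s * X * u s) = u s * (u r * X) * u s ∧
      t * u s * X * u s * u r = t * u s * X * t * u r * u s := by
  constructor
  · rw [← mul_assoc, ← mul_assoc, ← mul_assoc, ← q.tu, mul_assoc t, q.anti h, ← mul_assoc t, q.tt,
      one_mul, mul_assoc (u s)]
  · rw [mul_assoc _ (u s) (u r), q.anti h.symm]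
    simp only [mul_assoc]

/-- Decomposition of an even element into its four types. -/
theorem dec (q : Q8 u t a b) (S : AddSubgroup R) (hS : ∀ r, ∀ X ∈ S, t * u r * X * u r ∈ S)
    {X : R} (hXS : X ∈ S) (hX : t * X = X * t) :
    ∃ X₀ ∈ S, ∃ Y : Fin 3 → R, (∀ s, Y s ∈ S) ∧ X = X₀ + Y 0 + Y 1 + Y 2 ∧
      (∀ r, u r * X₀ = X₀ * u r) ∧ (∀ s, u s * Y s = Y s * u s) ∧
      ∀ r s, r ≠ s → u r * Y s = -(Y s * u r) := by
  have ev : ∀ r, ∀ Z : R, t * Z = Z * t → t * (t * u r * Z * u r) = t * u r * Z * u r * t := by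
    intro r Z hZ
    have h1 : Commute t (u r) := q.tu r
    have h2 : Commute t Z := hZ
    exact ((((Commute.refl t).mul_right h1).mul_right h2).mul_right h1).eq
  have two : ∀ (Z : R) (ε : ℤ), Z ∈ S → t * Z = Z * t → u 0 * Z = ε • (Z * u 0) →
      ∃ A ∈ S, ∃ B ∈ S, Z = A + B ∧ u 0 * A = ε • (A * u 0) ∧ u 0 * B = ε • (B * u 0) ∧
        u 1 * A = A * u 1 ∧ u 1 * B = -(B * u 1) := by
    intro Z ε hZ h1 h2
    obtain ⟨k1, k2, k3⟩ := q.split 1 h1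
    have h3 : u 0 * (t * u 1 * Z * u 1) = ε • (t * u 1 * Z * u 1 * u 0) := by
      obtain ⟨m1, m2⟩ := q.cj_comm (r := 0) (s := 1) (by decide) Z
      rw [m1, m2, h2, mul_assoc _ Z t, ← h1, q.tu, ← mul_assoc, mul_assoc _ t t, q.tt, mul_one]
      simp only [mul_smul_comm, smul_mul_assoc, mul_assoc]
    refine ⟨_, S.neg_mem (S.add_mem hZ (hS 1 Z hZ)), _, S.neg_mem (S.sub_mem hZ (hS 1 Z hZ)), k1,
      ?_, ?_, k2, k3⟩
    · rw [mul_neg, neg_mul, mul_add, add_mul, h2, h3, smul_neg, smul_add]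
    · rw [mul_neg, neg_mul, mul_sub, sub_mul, h2, h3, smul_neg, smul_sub]
  obtain ⟨k1, k2, k3⟩ := q.split 0 hX
  obtain ⟨A, hA, B, hB, e1, a0, b0, a1, b1⟩ := two _ 1 (S.neg_mem (S.add_mem hXS (hS 0 X hXS)))
    (by rw [mul_neg, neg_mul, mul_add, add_mul, hX, ev 0 X hX]) (by rw [one_smul]; exact k2)
  obtain ⟨C, hC, D, hD, e2, c0, d0, c1, d1⟩ := two _ (-1) (S.neg_mem (S.sub_mem hXS (hS 0 X hXS)))
    (by rw [mul_neg, neg_mul, mul_sub, sub_mul, hX, ev 0 X hX]) (by rw [neg_one_smul]; exact k3)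
  rw [one_smul] at a0 b0
  rw [neg_one_smul] at c0 d0
  have u2 : u 2 = u 0 * u 1 := (q.mul 0).symm
  have a2 : u 2 * A = A * u 2 := by rw [u2, mul_assoc, a1, ← mul_assoc, a0, mul_assoc]
  have b2 : u 2 * B = -(B * u 2) := by
    rw [u2, mul_assoc, b1, mul_neg, ← mul_assoc, b0, mul_assoc]
  have c2 : u 2 * C = -(C * u 2) := by
    rw [u2, mul_assoc, c1, ← mul_assoc, c0, neg_mul, mul_assoc]
  have d2 : u 2 * D = D * u 2 := by
    rw [u2, mul_assoc, d1, mul_neg, ← mul_assoc, d0, neg_mul, neg_neg, mul_assoc]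
  refine ⟨A, hA, ![B, C, D], ?_, ?_, ?_, ?_, ?_⟩
  · intro s; fin_cases s <;> assumption
  · rw [k1, e1, e2]; simp [add_assoc]
  · intro r; fin_cases r <;> assumption
  · intro s; fin_cases s <;> assumption
  · intro r s h
    fin_cases r <;> fin_cases s <;> first | exact absurd rfl h | assumption

end Q8

end Pool.Agent.MP_a5588a_al.Solv

end

section

namespace Pool.Agent.MP_a5588a_al.Solv

open scoped commutatorElement

variable {R : Type*} [Ring R] {u : Fin 3 → R} {t a b : R} {H : Type*} [Group H] {ρ : H →* R}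
  {P : Subgroup H} {V : Type*} [AddCommGroup V] [Module R V]

namespace Q8

theorem add3v (q : Q8 u t a b) (v : V) : v + v + v = 0 := by
  have := congrArg (· • v) (q.add3 1)
  simpa only [add_smul, one_smul, zero_smul] using this

theorem neg_eq (q : Q8 u t a b) {v : V} (h : v = -v) : v = 0 := by
  have := q.add3v v
  rwa [eq_neg_iff_add_eq_zero.mp h, zero_add] at this

theorem tt_smul (q : Q8 u t a b) (v : V) : t • t • v = v := by
  rw [smul_smul, q.tt, one_smul]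

theorem odd_part (q : Q8 u t a b) (v : V) : t • (t - 1) • v = -((t - 1) • v) := by
  rw [sub_smul, one_smul, smul_sub, q.tt_smul, neg_sub]

theorem even_part (q : Q8 u t a b) (v : V) : t • (-(1 + t)) • v = (-(1 + t)) • v := by
  rw [neg_smul, add_smul, one_smul, smul_neg, smul_add, q.tt_smul, add_comm]

theorem parts (q : Q8 u t a b) (v : V) : v = (-(1 + t)) • v + (t - 1) • v := by
  rw [neg_smul, add_smul, sub_smul, one_smul, ← sub_eq_zero, ← q.add3v v]; abel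

theorem odd_fix (q : Q8 u t a b) {v : V} (h : t • v = -v) : (t - 1) • v = v := by
  rw [sub_smul, one_smul, h, ← sub_eq_zero, ← neg_eq_zero, ← q.add3v v]; abel

theorem even_fix (q : Q8 u t a b) {v : V} (h : t • v = v) : (-(1 + t)) • v = v := by
  rw [neg_smul, add_smul, one_smul, h, ← sub_eq_zero, ← neg_eq_zero, ← q.add3v v]; abel

theorem odd_smul {X : R} (hX : t * X = X * t) {v : V} (h : t • v = -v) :
    t • X • v = -(X • v) := by
  rw [smul_smul, hX, mul_smul, h, smul_neg]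

theorem even_smul {X : R} (hX : t * X = X * t) {v : V} (h : t • v = v) : t • X • v = X • v := by
  rw [smul_smul, hX, mul_smul, h]

theorem uu (q : Q8 u t a b) (r : Fin 3) {v : V} (h : t • v = -v) : u r • u r • v = -v := by
  rw [smul_smul, q.sq, h]

theorem anti_odd (q : Q8 u t a b) {r s : Fin 3} (hrs : r ≠ s) {v : V} (h : t • v = -v) :
    u r • u s • v = -(u s • u r • v) := by
  rw [smul_smul, q.anti hrs, mul_smul, mul_smul, odd_smul (q.tu s) (odd_smul (q.tu r) h)]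

theorem u01 (q : Q8 u t a b) (v : V) : u 0 • u 1 • v = u 2 • v := by
  rw [smul_smul]; exact congrArg (· • v) (q.mul 0)

theorem u12 (q : Q8 u t a b) (v : V) : u 1 • u 2 • v = u 0 • v := by
  rw [smul_smul]; exact congrArg (· • v) (q.mul 1)

theorem u20 (q : Q8 u t a b) (v : V) : u 2 • u 0 • v = u 1 • v := by
  rw [smul_smul]; exact congrArg (· • v) (q.mul 2)

theorem u10 (q : Q8 u t a b) {v : V} (h : t • v = -v) : u 1 • u 0 • v = -(u 2 • v) := by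
  rw [q.anti_odd (by decide) h, q.u01]

theorem u21 (q : Q8 u t a b) {v : V} (h : t • v = -v) : u 2 • u 1 • v = -(u 0 • v) := by
  rw [q.anti_odd (by decide) h, q.u12]

theorem u02 (q : Q8 u t a b) {v : V} (h : t • v = -v) : u 0 • u 2 • v = -(u 1 • v) := by
  rw [q.anti_odd (by decide) h, q.u20]

theorem three_index (q : Q8 u t a b) (N : AddSubgroup V)
    (hN : ∀ z ∈ N, t • z = -z → ∀ s, u s • z ∈ N) (A : Fin 3 → V) (hA : ∀ s, t • A s = -A s)
    (h : ∀ r s, u r • A s - u s • A r ∈ N) (s : Fin 3) : A s ∈ N := by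
  have od : ∀ r s, t • (u r • A s - u s • A r) = -(u r • A s - u s • A r) := fun r s => by
    rw [smul_sub, odd_smul (q.tu r) (hA s), odd_smul (q.tu s) (hA r)]; abel
  have k : ∀ r, A (r + 1) + u (r + 2) • A r ∈ N := fun r => by
    have := N.neg_mem (hN _ (h r (r + 1)) (od _ _) r)
    rw [smul_sub, q.uu r (hA _), smul_smul, q.mul] at this
    convert this using 1; abel
  have ok : ∀ r, t • (A (r + 1) + u (r + 2) • A r) = -(A (r + 1) + u (r + 2) • A r) := fun r => by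
    rw [smul_add, hA, odd_smul (q.tu _) (hA r), neg_add]
  have i1 : ∀ s : Fin 3, s + 1 + 1 = s + 2 ∧ s + 1 + 2 = s ∧ s + 2 + 1 = s ∧ s + 2 + 2 = s + 1 ∧
      s ≠ s + 2 := by decide
  obtain ⟨j1, j2, j3, j4, j5⟩ := i1 s
  have m : u s • u (s + 2) • A s = -(u (s + 1) • A s) := by
    have := q.mul (s + 2)
    rw [j3, j4] at this
    rw [q.anti_odd j5 (hA s), smul_smul, this]
  have k0 := hN _ (k s) (ok s) s
  have k1 := k (s + 1)
  have k2 := k (s + 2)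
  rw [smul_add, m] at k0
  rw [j1, j2] at k1
  rw [j3, j4] at k2
  have k3 : A (s + 2) + u (s + 1) • A s ∈ N := by
    convert N.sub_mem k1 k0 using 1; abel
  have k4 := hN _ k3 (by rw [smul_add, hA, odd_smul (q.tu _) (hA s), neg_add]) (s + 1)
  rw [smul_add, q.uu _ (hA s)] at k4
  have k5 := N.sub_mem k4 k2
  convert k5 using 1
  rw [← sub_eq_zero, ← q.add3v (A s)]; abel

theorem aN_conj (q : Q8 u t a b) (r : Fin 3) {v : V} (h : t • v = -v) :
    (1 - u 0 - u 1 - u 2) • u (r + 1) • v = u r • (1 - u 0 - u 1 - u 2) • v := by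
  have h0 := q.uu 0 h
  have h1 := q.uu 1 h
  have h2 := q.uu 2 h
  fin_cases r
  · show (1 - u 0 - u 1 - u 2) • u 1 • v = u 0 • (1 - u 0 - u 1 - u 2) • v
    simp only [sub_smul, one_smul, smul_sub, h0, h1, q.u01, q.u21 h, q.u02 h]; abel
  · show (1 - u 0 - u 1 - u 2) • u 2 • v = u 1 • (1 - u 0 - u 1 - u 2) • v
    simp only [sub_smul, one_smul, smul_sub, h1, h2, q.u12, q.u10 h, q.u02 h]; abel
  · show (1 - u 0 - u 1 - u 2) • u 0 • v = u 2 • (1 - u 0 - u 1 - u 2) • v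
    simp only [sub_smul, one_smul, smul_sub, h0, h2, q.u20, q.u10 h, q.u21 h]; abel

theorem taN (q : Q8 u t a b) : t * (1 - u 0 - u 1 - u 2) = (1 - u 0 - u 1 - u 2) * t := by
  simp only [mul_sub, sub_mul, mul_one, one_mul, q.tu]

/-- The operator `ν` commutes with the `u r` on odd elements. -/
theorem nu_u (q : Q8 u t a b) (r : Fin 3) {v : V} (h : t • v = -v) :
    (b * (1 - u 0 - u 1 - u 2) - 1) • u r • v = u r • (b * (1 - u 0 - u 1 - u 2) - 1) • v := by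
  obtain ⟨s, rfl⟩ : ∃ s, r = s + 1 := ⟨r - 1, by simp⟩
  rw [sub_smul, sub_smul, mul_smul, mul_smul, q.aN_conj s h, smul_smul b, q.conj', mul_smul,
    one_smul, one_smul, smul_sub]

theorem qg2 (q : Q8 u t a b) {U U' : AddSubgroup V}
    (hU : ∀ x ∈ U, (∀ r, u r • x ∈ U) ∧ a • x ∈ U ∧ b • x ∈ U)
    (hU' : ∀ x ∈ U', (∀ r, u r • x ∈ U') ∧ a • x ∈ U' ∧ b • x ∈ U')
    (hq : ∀ x ∈ U, (a - 1) • (a - 1) • x ∈ U') {x : V} (hx : x ∈ U) (ho : t • x = -x) :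
    a • x - (1 - u 0 - u 1 - u 2) • x ∈ U' := by
  let S : Subring R :=
    { carrier := {r | (∀ y ∈ U, r • y ∈ U) ∧ ∀ y ∈ U', r • y ∈ U'}
      one_mem' := ⟨fun y hy => by rwa [one_smul], fun y hy => by rwa [one_smul]⟩
      zero_mem' := ⟨fun y _ => by simp, fun y _ => by simp⟩
      mul_mem' := fun h k => ⟨fun y hy => by rw [mul_smul]; exact h.1 _ (k.1 y hy),
        fun y hy => by rw [mul_smul]; exact h.2 _ (k.2 y hy)⟩
      add_mem' := fun h k => ⟨fun y hy => by rw [add_smul]; exact U.add_mem (h.1 y hy) (k.1 y hy),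
        fun y hy => by rw [add_smul]; exact U'.add_mem (h.2 y hy) (k.2 y hy)⟩
      neg_mem' := fun h => ⟨fun y hy => by rw [neg_smul]; exact U.neg_mem (h.1 y hy),
        fun y hy => by rw [neg_smul]; exact U'.neg_mem (h.2 y hy)⟩ }
  have su : ∀ r, u r ∈ S := fun r => ⟨fun y hy => (hU y hy).1 r, fun y hy => (hU' y hy).1 r⟩
  have sa : a ∈ S := ⟨fun y hy => (hU y hy).2.1, fun y hy => (hU' y hy).2.1⟩
  have sb : b ∈ S := ⟨fun y hy => (hU y hy).2.2, fun y hy => (hU' y hy).2.2⟩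
  have st : t ∈ S := q.sq 0 ▸ S.mul_mem (su 0) (su 0)
  have key : ∀ l ∈ S, ∀ r ∈ S, (l * ((a - 1) * (a - 1)) * r) • x ∈ U' := fun l hl r hr => by
    rw [mul_smul, mul_smul, mul_smul]
    exact hl.2 _ (hq _ (hr.1 x hx))
  have inv : ∀ a b : R, b * a = 1 → b = 1 - (a - 1) + b * ((a - 1) * (a - 1)) := by
    intro a b h
    have : b * ((a - 1) * (a - 1)) = b * a * a - 2 * (b * a) + b := by noncomm_ring
    rw [this, h]; noncomm_ring
  have j1 : u 1 * (t * u 1) = 1 := by rw [← mul_assoc, ← q.tu, mul_assoc, q.sq, q.tt]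
  have j2 : t * u 1 * u 1 = 1 := by rw [mul_assoc, q.sq, q.tt]
  have hc : a * u 0 = t * u 1 * a * u 1 := by
    have h1 : u 1 * a = a * u 2 := q.conj 1
    have h2 : u 2 * u 1 = t * u 0 := q.mul' 1
    rw [mul_assoc t, h1, mul_assoc, mul_assoc, h2, ← mul_assoc a, ← q.ta, mul_assoc, ← mul_assoc t,
      q.tt, one_mul]
  obtain ⟨A, hA⟩ : ∃ A, a = 1 + A := ⟨a - 1, by abel⟩
  obtain ⟨B, hB⟩ : ∃ B, a * u 0 = 1 + B := ⟨a * u 0 - 1, by abel⟩
  have hA' : a - 1 = A := by rw [hA]; abel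
  have hB' : a * u 0 - 1 = B := by rw [hB]; abel
  have sA : A ∈ S := hA' ▸ S.sub_mem sa S.one_mem
  have sB : B ∈ S := hB' ▸ S.sub_mem (S.mul_mem sa (su 0)) S.one_mem
  have hB2 : B * B = t * u 1 * (A * A) * u 1 := by
    have : B = t * u 1 * A * u 1 := by
      rw [← hB', ← hA', mul_sub, sub_mul, mul_one, j2, hc]
    rw [this, mul_assoc _ (u 1), ← mul_assoc (u 1), ← mul_assoc (u 1), j1]
    simp only [one_mul, mul_assoc]
  set d := t * u 1 * b * u 1 with hd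
  have sd : d ∈ S := S.mul_mem (S.mul_mem (S.mul_mem st (su 1)) sb) (su 1)
  have dc : d * (a * u 0) = 1 := by
    rw [hc, hd, mul_assoc _ (u 1), ← mul_assoc (u 1), ← mul_assoc (u 1), j1, one_mul,
      mul_assoc _ b, ← mul_assoc b, q.ba, one_mul, j2]
  have eb := inv a b q.ba
  have ed := inv _ d dc
  rw [hA'] at eb key
  rw [hB'] at ed
  have e0 : u 0 = b * (1 + B) := by rw [← hB, ← mul_assoc, q.ba, one_mul]
  have e1 : u 1 = b * u 0 * (1 + A) := by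
    rw [← hA, mul_assoc, q.conj, ← mul_assoc, q.ba, one_mul]; rfl
  have e2 : u 2 = (1 + A) * u 0 * b := by
    have h1 : u 2 * a = a * u 0 := q.conj 2
    rw [← hA, ← h1, mul_assoc, q.ab, mul_one]
  have et : t * u 0 = d * (1 + A) := by
    have : a = a * u 0 * (t * u 0) := by
      rw [mul_assoc, ← mul_assoc (u 0), ← q.tu, mul_assoc t, q.sq, q.tt, mul_one]
    rw [← hA, this, ← mul_assoc d, dc, one_mul]
  obtain ⟨β, hβ⟩ : ∃ β, β = b * (A * A) := ⟨_, rfl⟩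
  obtain ⟨δ, hδ⟩ : ∃ δ, δ = d * (B * B) := ⟨_, rfl⟩
  rw [← hβ] at eb
  rw [← hδ] at ed
  have i1 : u 0 + u 1 + u 2 = A * u 0 * A + β * u 0 * (1 + A) + (1 + A) * u 0 * β +
      3 * (u 0 - A * u 0 * A) := by
    rw [e1, e2, eb]; noncomm_ring
  have i2 : A * u 0 * A = A * A + A * B * A - A * A * (1 + B) * A + A * β * (1 + B) * A := by
    rw [e0, eb]; noncomm_ring
  have i3 : A * (u 0 + t * u 0) = A * (2 - A * B - B * A + β * (1 + B) + δ * (1 + A)) := by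
    rw [et, ed, e0, eb]; noncomm_ring
  have i4 : A + (u 0 + u 1 + u 2) = 1 * (A * A) * (1 - B - (1 + B) * A) +
      (A * b * (A * A) * ((1 + B) * (1 + A)) + A * d * (t * u 1) * (A * A) * (u 1 * (1 + A)) +
        b * (A * A) * (u 0 * (1 + A)) + (1 + A) * u 0 * b * (A * A) * 1) -
        A * (u 0 + t * u 0) + 3 * A := by
    have h1 : A * d * (t * u 1) * (A * A) * (u 1 * (1 + A)) = A * δ * (1 + A) := by
      rw [hδ, hB2]; simp only [mul_assoc]
    have h2 : A * b * (A * A) = A * β := by rw [hβ, mul_assoc]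
    have h3 : (1 + A) * u 0 * b * (A * A) = (1 + A) * u 0 * β := by rw [hβ, mul_assoc]
    rw [i1, q.three, zero_mul, add_zero, i3, h1, h2, h3, ← hβ, i2, ← q.three]; noncomm_ring
  have i5 : (A * (u 0 + t * u 0)) • x = 0 := by
    rw [mul_smul, add_smul, mul_smul, odd_smul (q.tu 0) ho, add_neg_cancel, smul_zero]
  have i6 : a • x - (1 - u 0 - u 1 - u 2) • x = (A + (u 0 + u 1 + u 2)) • x := by
    rw [← sub_smul, hA]; congr 1; abel
  have o1 := S.add_mem S.one_mem sA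
  have o2 := S.add_mem S.one_mem sB
  rw [i6, i4, q.three, zero_mul, add_zero, sub_smul, i5, sub_zero]
  simp only [add_smul]
  exact U'.add_mem (key _ S.one_mem _ (S.sub_mem (S.sub_mem S.one_mem sB) (S.mul_mem o2 sA)))
    (U'.add_mem (U'.add_mem (U'.add_mem (key _ (S.mul_mem sA sb) _ (S.mul_mem o2 o1))
      (key _ (S.mul_mem (S.mul_mem sA sd) (S.mul_mem st (su 1))) _ (S.mul_mem (su 1) o1)))
      (key _ sb _ (S.mul_mem (su 0) o1)))
      (key _ (S.mul_mem (S.mul_mem o1 (su 0)) sb) _ S.one_mem))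

end Q8

theorem low_mem {U : AddSubgroup V} {p : H} (hp : p ∈ P) {v : V} (hv : v ∈ U) :
    ρ p • v - v ∈ Low ρ P U :=
  AddSubgroup.subset_closure ⟨p, hp, v, hv, rfl⟩

theorem low_le_iff {U L : AddSubgroup V} :
    Low ρ P U ≤ L ↔ ∀ p ∈ P, ∀ v ∈ U, ρ p • v - v ∈ L := by
  rw [Low, AddSubgroup.closure_le]
  exact ⟨fun h p hp v hv => h ⟨p, hp, v, hv, rfl⟩, by rintro h _ ⟨p, hp, v, hv, rfl⟩; exact h p hp v hv⟩

theorem low_mono {U L : AddSubgroup V} (h : U ≤ L) : Low ρ P U ≤ Low ρ P L :=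
  low_le_iff.mpr fun _ hp _ hv => low_mem hp (h hv)

theorem low_le {U : AddSubgroup V} (hU : ∀ h : H, ∀ v ∈ U, ρ h • v ∈ U) : Low ρ P U ≤ U :=
  low_le_iff.mpr fun p _ v hv => U.sub_mem (hU p v hv) hv

theorem low_inv [hP : P.Normal] {U : AddSubgroup V} (hU : ∀ h : H, ∀ v ∈ U, ρ h • v ∈ U) (h : H) :
    ∀ v ∈ Low ρ P U, ρ h • v ∈ Low ρ P U := by
  intro v hv
  refine low_le_iff (L := (Low ρ P U).comap (DistribSMul.toAddMonoidHom V (ρ h))).mpr ?_ hv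
  intro p hp v hv
  have := low_mem (ρ := ρ) (hP.conj_mem p hp h) (hU h v hv)
  rw [smul_smul, ← map_mul, inv_mul_cancel_right, map_mul, mul_smul, ← smul_sub] at this
  exact this

theorem fil_inv [P.Normal] (n : ℕ) (h : H) : ∀ v ∈ Fil ρ P V n, ρ h • v ∈ Fil ρ P V n := by
  induction n generalizing h with
  | zero => intro v _; trivial
  | succ n ih => exact low_inv ih h

theorem fil_anti [P.Normal] {m n : ℕ} (h : m ≤ n) : Fil ρ P V n ≤ Fil ρ P V m := by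
  induction h with
  | refl => exact le_rfl
  | step _ ih => exact (low_le (fil_inv _)).trans ih

theorem fil_succ {n : ℕ} {p : H} (hp : p ∈ P) {v : V} (hv : v ∈ Fil ρ P V n) :
    (ρ p - 1) • v ∈ Fil ρ P V (n + 1) := by
  rw [sub_smul, one_smul]; exact low_mem hp hv

theorem words (B : Set V)
    (gen : ∀ L : AddSubgroup V, (∀ p ∈ P, ∀ y ∈ B, ρ p • y ∈ L) → L = ⊤) (W : ℕ → Set R)
    (h0 : 1 ∈ W 0) (hs : ∀ l, ∀ w ∈ W l, ∀ p ∈ P, (ρ p - 1) * w ∈ W (l + 1)) (l : ℕ) :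
    Fil ρ P V l ≤ AddSubgroup.closure {v | ∃ w ∈ W l, ∃ y ∈ B, v = w • y} ⊔ Fil ρ P V (l + 1) := by
  induction l with
  | zero =>
    refine (gen _ fun p hp y hy => ?_).ge
    rw [← add_sub_cancel y (ρ p • y)]
    exact AddSubgroup.add_mem_sup (AddSubgroup.subset_closure ⟨1, h0, y, hy, (one_smul _ _).symm⟩)
      (low_mem hp trivial)
  | succ l ih =>
    refine low_le_iff.mpr fun p hp v hv => ?_
    have : AddSubgroup.closure {v | ∃ w ∈ W l, ∃ y ∈ B, v = w • y} ⊔ Fil ρ P V (l + 1) ≤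
        (AddSubgroup.closure {v | ∃ w ∈ W (l + 1), ∃ y ∈ B, v = w • y} ⊔
          Fil ρ P V (l + 1 + 1)).comap (DistribSMul.toAddMonoidHom V (ρ p - 1)) := by
      refine sup_le ((AddSubgroup.closure_le _).mpr ?_) fun z hz => ?_
      · rintro _ ⟨w, hw, y, hy, rfl⟩
        exact AddSubgroup.mem_sup_left
          (AddSubgroup.subset_closure ⟨_, hs l w hw p hp, y, hy, (mul_smul _ _ _).symm⟩)
      · exact AddSubgroup.mem_sup_right (fil_succ hp hz)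
    have := this (ih hv)
    rwa [AddSubgroup.mem_comap, DistribSMul.toAddMonoidHom_apply, sub_smul, one_smul] at this

end Pool.Agent.MP_a5588a_al.Solv

end

section

namespace Pool.Agent.MP_a5588a_al.Solv

open scoped commutatorElement

variable {R : Type*} [Ring R] {u : Fin 3 → R} {t a b : R} {H : Type*} [Group H] {ρ : H →* R}
  {P : Subgroup H} {V : Type*} [AddCommGroup V] [Module R V] {e : Fin 3 → V}
  {M C : Type*} [AddCommGroup M] [Module R M] [AddCommGroup C] [Module R C]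

namespace EV

theorem ht (h : EV ρ P u t a b e) : ∃ g, ρ g = t := by
  obtain ⟨g, hg⟩ := h.hu 0
  exact ⟨g * g, by rw [map_mul, hg, h.q.sq]⟩

theorem te (h : EV ρ P u t a b e) (r : Fin 3) : t • e r = e r := by
  rw [← h.q.sq r, mul_smul, h.fix, h.fix]

theorem ae (h : EV ρ P u t a b e) (r : Fin 3) : a • e (r + 1) = e r := by
  rw [h.next, smul_smul, h.q.ab, one_smul]

/-- Invariance under the group gives invariance under the named elements. -/
theorem inv_of (h : EV ρ P u t a b e) {U : AddSubgroup M} (hU : ∀ g : H, ∀ x ∈ U, ρ g • x ∈ U) :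
    ∀ x ∈ U, (∀ r, u r • x ∈ U) ∧ a • x ∈ U ∧ b • x ∈ U := by
  intro x hx
  obtain ⟨g, hg⟩ := h.ha
  obtain ⟨g', hg'⟩ := h.hb
  refine ⟨fun r => ?_, hg ▸ hU g x hx, hg' ▸ hU g' x hx⟩
  obtain ⟨g, hg⟩ := h.hu r
  exact hg ▸ hU g x hx

theorem zero (h : EV ρ P u t a b e) {W : R} {r s : Fin 3} (hrs : s ≠ r) (hW : u s * W = W * u s)
    (h1 : W • e r ∈ Fil ρ P V 1) : W • e r = 0 := by
  have ht : t * W = W * t := by rw [← h.q.sq s, mul_assoc, hW, ← mul_assoc, hW, mul_assoc]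
  have := h.good _ h1 (Q8.even_smul ht (h.te r)) s
  rw [smul_smul, hW, mul_smul, h.inv s r hrs, smul_neg] at this
  exact h.q.neg_eq this.symm

variable {β : M →+ V →+ C}

theorem eu (h : EV ρ P u t a b e) (eqv : ∀ g x w, β (ρ g • x) (ρ g • w) = ρ g • β x w)
    (r : Fin 3) (x : M) (w : V) : β (u r • x) (u r • w) = u r • β x w := by
  obtain ⟨g, hg⟩ := h.hu r
  rw [← hg, eqv]

theorem et (h : EV ρ P u t a b e) (eqv : ∀ g x w, β (ρ g • x) (ρ g • w) = ρ g • β x w)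
    (x : M) (w : V) : β (t • x) (t • w) = t • β x w := by
  obtain ⟨g, hg⟩ := h.ht
  rw [← hg, eqv]

theorem ea (h : EV ρ P u t a b e) (eqv : ∀ g x w, β (ρ g • x) (ρ g • w) = ρ g • β x w)
    (x : M) (w : V) : β (a • x) (a • w) = a • β x w := by
  obtain ⟨g, hg⟩ := h.ha
  rw [← hg, eqv]

theorem eb (h : EV ρ P u t a b e) (eqv : ∀ g x w, β (ρ g • x) (ρ g • w) = ρ g • β x w)
    (x : M) (w : V) : β (b • x) (b • w) = b • β x w := by
  obtain ⟨g, hg⟩ := h.hb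
  rw [← hg, eqv]

theorem odd_β (h : EV ρ P u t a b e) (eqv : ∀ g x w, β (ρ g • x) (ρ g • w) = ρ g • β x w)
    {x : M} (hx : t • x = -x) (r : Fin 3) : t • β x (e r) = -β x (e r) := by
  rw [← h.et eqv, hx, h.te, map_neg, AddMonoidHom.neg_apply]

theorem odd_Q (h : EV ρ P u t a b e) (eqv : ∀ g x w, β (ρ g • x) (ρ g • w) = ρ g • β x w)
    {x : M} (hx : t • x = -x) (r : Fin 3) : t • u r • β x (e r) = -(u r • β x (e r)) :=
  Q8.odd_smul (h.q.tu r) (h.odd_β eqv hx r)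

/-- `Q r x = u r • β x (e r)` commutes with the `u s` on odd elements. -/
theorem Q_u (h : EV ρ P u t a b e) (eqv : ∀ g x w, β (ρ g • x) (ρ g • w) = ρ g • β x w)
    {x : M} (hx : t • x = -x) (r s : Fin 3) :
    u r • β (u s • x) (e r) = u s • u r • β x (e r) := by
  by_cases hrs : s = r
  · subst hrs
    rw [← h.eu eqv s x, h.fix]
  · have := h.eu eqv s x (e r)
    rw [h.inv s r hrs, map_neg, neg_eq_iff_eq_neg] at this
    rw [this, smul_neg, h.q.anti_odd hrs (h.odd_β eqv hx r)]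

theorem Q_aN (h : EV ρ P u t a b e) (eqv : ∀ g x w, β (ρ g • x) (ρ g • w) = ρ g • β x w)
    {x : M} (hx : t • x = -x) (r : Fin 3) :
    u r • β ((1 - u 0 - u 1 - u 2) • x) (e r) = (1 - u 0 - u 1 - u 2) • u r • β x (e r) := by
  simp only [sub_smul, one_smul, map_sub, AddMonoidHom.sub_apply, smul_sub, h.Q_u eqv hx]

theorem Q_b (h : EV ρ P u t a b e) (eqv : ∀ g x w, β (ρ g • x) (ρ g • w) = ρ g • β x w)
    (x : M) (r : Fin 3) : u (r + 1) • β (b • x) (e (r + 1)) = b • u r • β x (e r) := by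
  rw [h.next, h.eb eqv, smul_smul, ← h.q.conj', mul_smul]

end EV

variable {β : V →+ V →+ C}

omit [Module R C] in
theorem cf_mem {n k l : ℕ} (h : n ≤ k + l) {v w : V} (hv : v ∈ Fil ρ P V k)
    (hw : w ∈ Fil ρ P V l) : β v w ∈ CF ρ P β n :=
  AddSubgroup.subset_closure ⟨k, l, h, v, hv, w, hw, rfl⟩

omit [Module R C] in
theorem cf_le_iff {n : ℕ} {L : AddSubgroup C} : CF ρ P β n ≤ L ↔
    ∀ k l, n ≤ k + l → ∀ v ∈ Fil ρ P V k, ∀ w ∈ Fil ρ P V l, β v w ∈ L := by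
  rw [CF, AddSubgroup.closure_le]
  exact ⟨fun h k l hn v hv w hw => h ⟨k, l, hn, v, hv, w, hw, rfl⟩,
    by rintro h _ ⟨k, l, hn, v, hv, w, hw, rfl⟩; exact h k l hn v hv w hw⟩

omit [Module R C] in
theorem cf_anti {m n : ℕ} (h : m ≤ n) : CF ρ P β n ≤ CF ρ P β m :=
  cf_le_iff.mpr fun _ _ hn _ hv _ hw => cf_mem (h.trans hn) hv hw

theorem cf_inv [P.Normal] (eqv : ∀ g v w, β (ρ g • v) (ρ g • w) = ρ g • β v w) (n : ℕ) (g : H) :
    ∀ z ∈ CF ρ P β n, ρ g • z ∈ CF ρ P β n := by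
  intro z hz
  refine cf_le_iff (L := (CF ρ P β n).comap (DistribSMul.toAddMonoidHom C (ρ g))).mpr ?_ hz
  intro k l hn v hv w hw
  have := cf_mem (β := β) hn (fil_inv k g v hv) (fil_inv l g w hw)
  rwa [eqv] at this

theorem β_sub_one (eqv : ∀ g v w, β (ρ g • v) (ρ g • w) = ρ g • β v w) (g : H) (v w : V) :
    (ρ g - 1) • β v w - β ((ρ g - 1) • v) w - β v ((ρ g - 1) • w) =
      β ((ρ g - 1) • v) ((ρ g - 1) • w) := by
  simp only [sub_smul, one_smul, map_sub, AddMonoidHom.sub_apply, eqv]; abel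

theorem cf_succ [P.Normal] (eqv : ∀ g v w, β (ρ g • v) (ρ g • w) = ρ g • β v w) {n : ℕ} {p : H}
    (hp : p ∈ P) : ∀ z ∈ CF ρ P β n, (ρ p - 1) • z ∈ CF ρ P β (n + 1) := by
  intro z hz
  refine cf_le_iff (L := (CF ρ P β (n + 1)).comap
    (DistribSMul.toAddMonoidHom C (ρ p - 1))).mpr ?_ hz
  intro k l hn v hv w hw
  have h := β_sub_one eqv p v w
  rw [sub_sub, sub_eq_iff_eq_add] at h
  rw [AddSubgroup.mem_comap, DistribSMul.toAddMonoidHom_apply, h]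
  exact add_mem (cf_mem (by omega) (fil_succ hp hv) (fil_succ hp hw))
    (add_mem (cf_mem (by omega) (fil_succ hp hv) hw) (cf_mem (by omega) hv (fil_succ hp hw)))

theorem C2.aN [P.Normal] (c : C2 ρ P u t a b e β) (n : ℕ) {z : C} (hz : z ∈ CF ρ P β n)
    (ho : t • z = -z) : a • z - (1 - u 0 - u 1 - u 2) • z ∈ CF ρ P β (n + 1) := by
  refine c.ev.q.qg2 (c.ev.inv_of (cf_inv c.eqv n)) (c.ev.inv_of (cf_inv c.eqv (n + 1)))
    (fun x hx => ?_) hz ho
  refine low_le_iff.mpr (fun p hp v hv => ?_) (c.quad _ (cf_inv c.eqv n) x hx)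
  have := cf_succ c.eqv hp v hv
  rwa [sub_smul, one_smul] at this

variable (ρ P β)

/-- Derivations of degree `m` modulo higher terms. -/
structure IsDer (m : ℕ) (D : R) : Prop where
  shV : ∀ n, ∀ v ∈ Fil ρ P V n, D • v ∈ Fil ρ P V (n + m)
  shC : ∀ n, ∀ z ∈ CF ρ P β n, D • z ∈ CF ρ P β (n + m)
  der : ∀ k l, ∀ v ∈ Fil ρ P V k, ∀ w ∈ Fil ρ P V l,
    D • β v w - β (D • v) w - β v (D • w) ∈ CF ρ P β (k + l + m + 1)

/-- Pairs that behave like a derivation on `β x (e r)` with `x` odd. -/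
structure IsQD (t : R) (e : Fin 3 → V) (m : ℕ) (W : R × R) : Prop where
  shC : ∀ n, ∀ z ∈ CF ρ P β n, W.1 • z ∈ CF ρ P β (n + m)
  shV : ∀ n, ∀ v ∈ Fil ρ P V n, W.2 • v ∈ Fil ρ P V (n + m)
  e1 : ∀ r, W.1 • e r ∈ Fil ρ P V 1
  qd : ∀ l, ∀ x ∈ Fil ρ P V l, t • x = -x → ∀ r,
    W.1 • β x (e r) - β (W.2 • x) (e r) - β x (W.1 • e r) ∈ CF ρ P β (l + m + 1)

/-- The hypotheses on `N` at level `n`. -/
structure HN (u : Fin 3 → R) (t : R) (e : Fin 3 → V) (n : ℕ) (N : AddSubgroup C) : Prop where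
  h1 : ∀ z ∈ N, t • z = -z → ∀ s, u s • z ∈ N
  h2 : ∀ z ∈ CF ρ P β (n + 1), t • z = -z → z ∈ N
  h3 : ∀ x ∈ Fil ρ P V n, t • x = -x → ∀ r,
    u r • β x (e r) - u (r + 1) • β x (e (r + 1)) ∈ N

/-- The statement `S(n)`. -/
def SS (u : Fin 3 → R) (t : R) (e : Fin 3 → V) (n : ℕ) : Prop :=
  ∀ N : AddSubgroup C, HN ρ P β u t e n N → ∀ z ∈ CF ρ P β n, t • z = -z → z ∈ N

end Pool.Agent.MP_a5588a_al.Solv

end

section

namespace Pool.Agent.MP_a5588a_al.Solv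

open scoped commutatorElement

variable {G : Type*} [Group G] {P Q K E E₀ A B : Subgroup G} {i j k a : G}
  {R : Type*} [Ring R] {ρ : G →* R} {V : Type*} [AddCommGroup V] [Module R V]
  {σ : G →* AddMonoid.End V} {π : G → V}

theorem q8_of_rel (c : Ctx P Q K i j k a) (h3 : (3 : R) = 0) (r1 : ρ (i ^ 4) = 1)
    (r2 : ρ (i ^ 2 * (j ^ 2)⁻¹) = 1) (r3 : ρ (i * j * i * j⁻¹) = 1) :
    Q8 ![ρ i, ρ j, ρ k] (ρ i * ρ i) (ρ a) (ρ a⁻¹) := by
  have e1 : ρ i * (ρ i * (ρ i * ρ i)) = 1 := by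
    rw [← r1, map_pow]
    simp only [pow_succ, pow_zero, one_mul, mul_assoc]
  have e2 : ρ j * ρ j = ρ i * ρ i := by
    rw [← map_mul, ← map_mul, ← pow_two, ← pow_two, ← inv_mul_cancel_right (i ^ 2) (j ^ 2),
      map_mul, r2, one_mul]
  have e3 : ρ i * (ρ j * ρ i) = ρ j := by
    rw [← map_mul, ← map_mul, ← mul_assoc, ← inv_mul_cancel_right (i * j * i) j, map_mul, r3,
      one_mul]
  have e4 : ρ k * (ρ j * ρ i) = 1 := by rw [← map_mul, ← map_mul, ← mul_assoc, c.kji, map_one]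
  have f1 : ∀ x, ρ i * (ρ i * (ρ i * (ρ i * x))) = x := fun x => by
    simpa only [mul_assoc, one_mul] using congrArg (· * x) e1
  have f2 : ∀ x, ρ j * (ρ j * x) = ρ i * (ρ i * x) := fun x => by
    simpa only [mul_assoc] using congrArg (· * x) e2
  have f3 : ∀ x, ρ i * (ρ j * (ρ i * x)) = ρ j * x := fun x => by
    simpa only [mul_assoc] using congrArg (· * x) e3
  have eK : ρ k = ρ i * ρ j := by
    have := congrArg (· * (ρ i * ρ j)) e4
    simp only [mul_assoc, one_mul] at this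
    rw [← this, ← f2, e2, f2, e1, mul_one]
  have cj : ∀ {x y : G}, y = a⁻¹ * x * a → ρ x * ρ a = ρ a * ρ y := fun h => by
    rw [← map_mul, ← map_mul, h, mul_assoc, mul_inv_cancel_left]
  refine ⟨h3, fun r => ?_, by rw [mul_assoc, e1], fun r => ?_, fun r => ?_,
    by rw [← map_mul, mul_inv_cancel, map_one], by rw [← map_mul, inv_mul_cancel, map_one],
    fun r => ?_⟩ <;> fin_cases r
  · rfl
  · exact e2
  · change ρ k * ρ k = _
    rw [eK, mul_assoc, f3, e2]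
  · exact eK.symm
  · change ρ j * ρ k = ρ i
    rw [eK, ← f1 (ρ j * _), f3, e2, ← mul_assoc (ρ i) (ρ i) (ρ i * _), ← mul_assoc, mul_assoc _ (ρ i),
      ← mul_assoc (ρ i) (ρ i) (ρ i), ← mul_assoc, mul_assoc (ρ i), e1, one_mul]
  · change ρ k * ρ i = ρ j
    rw [eK, mul_assoc, e3]
  · change ρ j * ρ i = ρ i * ρ i * ρ k
    rw [eK, ← f1 (ρ j * _), e3, mul_assoc]
  · change ρ k * ρ j = ρ i * ρ i * ρ i
    rw [eK, mul_assoc, e2, mul_assoc]
  · change ρ i * ρ k = ρ i * ρ i * ρ j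
    rw [eK, mul_assoc]
  · exact cj c.hj
  · exact cj c.hk
  · exact cj c.hi

/-- The image of a subgroup in the section. -/
def img_Glue (s : Sect (MonoidHom.id G) A B σ π) (X : Subgroup G) : AddSubgroup V where
  carrier := {v | ∃ x ∈ X, x ∈ A ∧ π x = v}
  zero_mem' := ⟨1, one_mem _, one_mem _, s.one⟩
  add_mem' := by
    rintro _ _ ⟨x, hx, h1, rfl⟩ ⟨y, hy, h2, rfl⟩
    exact ⟨_, mul_mem hx hy, mul_mem h1 h2, s.add x h1 y h2⟩
  neg_mem' := by
    rintro _ ⟨x, hx, h1, rfl⟩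
    exact ⟨_, inv_mem hx, inv_mem h1, s.inv h1⟩

theorem cm_Glue [hA : A.Normal] (s : Sect (MonoidHom.id G) A B σ π)
    (hρ : ∀ g (v : V), ρ g • v = σ g v) (g : G) {x : G} (hx : x ∈ A) :
    ⁅g, x⁆ ∈ A ∧ π ⁅g, x⁆ = ρ g • π x - π x :=
  ⟨mul_mem (hA.conj_mem x hx g) (inv_mem hx),
    hρ g _ ▸ s.comm (fun g x hx => hA.conj_mem x hx g) g hx⟩

theorem low_Glue [A.Normal] (s : Sect (MonoidHom.id G) A B σ π)
    (hρ : ∀ g (v : V), ρ g • v = σ g v) {U : AddSubgroup V} {X : Subgroup G}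
    (h : U ≤ img_Glue s X) : Low ρ P U ≤ img_Glue s ⁅X, P⁆ := by
  refine low_le_iff.2 fun p hp v hv => ?_
  obtain ⟨x, hx, h1, rfl⟩ := h hv
  exact ⟨_, Subgroup.commutator_comm P X ▸ Subgroup.commutator_mem_commutator hp hx,
    cm_Glue s hρ p h1⟩

theorem quadAll_of_H1 [A.Normal] [B.Normal] (h : H1 P Q a) (hAQ : A ≤ Q)
    (hc : ∀ x ∈ A, ∀ y ∈ A, x * y = y * x) (h3 : ∀ x ∈ A, x ^ 3 = 1)
    (s : Sect (MonoidHom.id G) A B σ π) (hρ : ∀ g (v : V), ρ g • v = σ g v) :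
    QuadAll ρ P (ρ a) V := by
  intro U hU v hv
  obtain ⟨l, hl, rfl⟩ := s.surj v
  have hX : (s.pre U).Normal := ⟨fun x hx g => ⟨‹A.Normal›.conj_mem x hx.1 g,
    ((s.conj g x hx.1).trans (hρ g _).symm).symm ▸ hU g _ hx.2⟩⟩
  have h1 : ⁅s.pre U, P⁆ ≤ s.pre (Low ρ P U) := by
    rw [Subgroup.commutator_comm, Subgroup.commutator_le]
    exact fun p hp x hx => ⟨(cm_Glue s hρ p hx.1).1, (cm_Glue s hρ p hx.1).2.symm ▸ low_mem hp hx.2⟩
  have h2 := (h1 (h _ hX (fun x hx => hAQ hx.1) (fun x hx y hy => hc x hx.1 y hy.1)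
    (fun x hx => h3 x hx.1) l ⟨hl, hv⟩)).2
  rw [(cm_Glue s hρ a (cm_Glue s hρ a hl).1).2, (cm_Glue s hρ a hl).2] at h2
  rwa [sub_smul, sub_smul, one_smul, one_smul]

theorem fil_nil [Finite G] [A.Normal] (hP : IsPGroup 3 P) (hAP : A ≤ P)
    (s : Sect (MonoidHom.id G) A B σ π) (hρ : ∀ g (v : V), ρ g • v = σ g v) :
    ∃ n, Fil ρ P V n = ⊥ := by
  have := Fact.mk Nat.prime_three
  obtain ⟨n, hn⟩ := P.isNilpotent_iff_lowerCentralSeries.1 hP.isNilpotent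
  have key : ∀ n, Fil ρ P V n ≤ img_Glue s (P.lowerCentralSeries n) := fun n => by
    induction n with
    | zero => exact fun v _ => (s.surj v).imp fun x hx => ⟨hAP hx.1, hx⟩
    | succ n ih => exact low_Glue s hρ ih
  refine ⟨n, le_bot_iff.1 fun v hv => ?_⟩
  obtain ⟨x, hx, -, rfl⟩ := key n hv
  rw [hn, Subgroup.mem_bot] at hx
  rw [hx, s.one]
  exact zero_mem _

/-- An even element of a section lifts to a fixed element, an odd one to an inverted element. -/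
theorem lift_parity [Finite G] [A.Normal] (hA : IsPGroup 3 A) {τ : G}
    (h2 : ∀ x ∈ A, Commute (τ ^ 2) x) (s : Sect (MonoidHom.id G) A B σ π)
    (h3 : ∀ v : V, v + v + v = 0) {X : Subgroup G} [X.Normal] (hX : X ≤ A) {x : G} (hx : x ∈ X) :
    (σ τ (π x) = π x → ∃ c ∈ X, π c = π x ∧ Commute τ c) ∧
      (σ τ (π x) = -π x → ∃ y ∈ X, π y = π x ∧ τ * y * τ⁻¹ = y⁻¹) := by
  obtain ⟨c, hc, y, hy, rfl, c1, c2⟩ := dec_inv (hA.to_le hX) (t := τ)
    (fun x hx => ‹X.Normal›.conj_mem x hx τ) (fun x hx => h2 x (hX hx)) hx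
  have e1 : σ τ (π c) = π c :=
    (s.conj τ c (hX hc)).symm.trans (congrArg π (mul_inv_eq_of_eq_mul c1.eq))
  have e2 : σ τ (π y) = -π y :=
    (s.conj τ y (hX hy)).symm.trans ((congrArg π c2).trans (s.inv (hX hy)))
  have z : ∀ v : V, v = -v → v = 0 := fun v hv => by
    have := h3 v
    rwa [eq_neg_iff_add_eq_zero.1 hv, zero_add] at this
  rw [s.add c (hX hc) y (hX hy), map_add, e1, e2, neg_add]
  exact ⟨fun e => ⟨c, hc, by rw [z _ (add_left_cancel e).symm, add_zero], c1⟩,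
    fun e => ⟨y, hy, by rw [z _ (add_right_cancel e), zero_add], c2⟩⟩

theorem ev_of_EP [Finite G] (c : Ctx P Q K i j k a) (m : MinBad Q i j E E₀) (h : Rel i j E)
    {e : Fin 3 → G} (he : EP P E ![i, j, k] a e) (s : Sect (MonoidHom.id G) E B σ π)
    (hρ : ∀ g (v : V), ρ g • v = σ g v)
    (q : Q8 ![ρ i, ρ j, ρ k] (ρ i * ρ i) (ρ a) (ρ a⁻¹)) :
    EV ρ P ![ρ i, ρ j, ρ k] (ρ i * ρ i) (ρ a) (ρ a⁻¹) (fun r => π (e r)) := by
  have := m.nE
  have := m.nE₀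
  have := c.nP
  have hu : ∀ r, ρ (![i, j, k] r) = ![ρ i, ρ j, ρ k] r := fun r => by fin_cases r <;> rfl
  have cj : ∀ g, ∀ x ∈ E, ρ g • π x = π (g * x * g⁻¹) := fun g x hx =>
    (hρ g _).trans (s.conj g x hx).symm
  have hEP : E ≤ P := m.EQ.trans c.QP
  refine ⟨q, fun r => ⟨_, hu r⟩, ⟨a, rfl⟩, ⟨a⁻¹, rfl⟩, fun r => ?_, fun r t hrt => ?_, fun r => ?_,
    fun L hL => ?_, fun v hv ht => ?_⟩
  · rw [← hu, cj _ _ (he.mem r), he.fix]
  · rw [← hu, cj _ _ (he.mem t), he.inv r t hrt, s.inv (he.mem t)]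
  · rw [cj _ _ (he.mem r), inv_inv, he.next]
  · refine top_le_iff.1 fun v _ => ?_
    obtain ⟨x, hx, rfl⟩ := s.surj v
    exact (he.gen (s.pre L) (fun p hp r => ⟨m.nE.conj_mem _ (he.mem r) p,
      cj p _ (he.mem r) ▸ hL p hp r⟩) hx).2
  · have h1 : ⁅E, P⁆ ≤ E₀ := (m.max _ inferInstance (Subgroup.commutator_le_left E P)).resolve_left
      fun e => m.bad (m.good.mono ((comm_lt c.pP hEP e.ge).le.trans bot_le))
    obtain ⟨x, hx, -, rfl⟩ := low_Glue (U := ⊤) (X := E) s hρ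
      (fun v _ => (s.surj v).imp fun x hx => ⟨hx.1, hx⟩) hv
    obtain ⟨z, hz, e1, c1⟩ := (lift_parity (c.pP.to_le hEP) (τ := i ^ 2)
      (fun x hx => pow_mul i 2 2 ▸ h.r1 x hx) s q.add3v m.le (h1 hx)).1
      (by rw [← hρ, pow_two, map_mul, ht])
    have f : ∀ g, Commute g z → ρ g • π x = π x := fun g hg => by
      rw [← e1, cj g z (m.le hz), mul_inv_eq_of_eq_mul hg.eq]
    have f1 := f i (m.good.fix z hz c1).1
    have f2 := f j (m.good.fix z hz c1).2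
    intro r
    fin_cases r
    · exact f1
    · exact f2
    · exact (q.u01 _).symm.trans ((congrArg (ρ i • ·) f2).trans f1)

end Pool.Agent.MP_a5588a_al.Solv

end

section

namespace Pool.Agent.MP_a5588a_al.Solv

open scoped commutatorElement

variable {R : Type*} [Ring R] {u : Fin 3 → R} {t a b : R} {H : Type*} [Group H] {ρ : H →* R}
  {P : Subgroup H} {V : Type*} [AddCommGroup V] [Module R V] {e : Fin 3 → V}
  {M C : Type*} [AddCommGroup M] [Module R M] [AddCommGroup C] [Module R C]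

variable {β : V →+ V →+ C}

variable (ρ P β t e) in
/-- The pairs of degree `m` form an additive subgroup. -/
def qdSub_GTA (m : ℕ) : AddSubgroup (R × R) where
  carrier := {W | IsQD ρ P β t e m W}
  zero_mem' := ⟨fun n z _ => by simp, fun n v _ => by simp, fun r => by simp,
    fun l x _ _ r => by simp⟩
  add_mem' := by
    intro W X hW hX
    refine ⟨fun n z hz => ?_, fun n v hv => ?_, fun r => ?_, fun l x hx ho r => ?_⟩
    · rw [Prod.fst_add, add_smul]; exact add_mem (hW.shC n z hz) (hX.shC n z hz)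
    · rw [Prod.snd_add, add_smul]; exact add_mem (hW.shV n v hv) (hX.shV n v hv)
    · rw [Prod.fst_add, add_smul]; exact add_mem (hW.e1 r) (hX.e1 r)
    · have := add_mem (hW.qd l x hx ho r) (hX.qd l x hx ho r)
      simp only [Prod.fst_add, Prod.snd_add, add_smul, map_add, AddMonoidHom.add_apply]
      convert this using 1; abel
  neg_mem' := by
    intro W hW
    refine ⟨fun n z hz => ?_, fun n v hv => ?_, fun r => ?_, fun l x hx ho r => ?_⟩
    · rw [Prod.fst_neg, neg_smul]; exact neg_mem (hW.shC n z hz)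
    · rw [Prod.snd_neg, neg_smul]; exact neg_mem (hW.shV n v hv)
    · rw [Prod.fst_neg, neg_smul]; exact neg_mem (hW.e1 r)
    · have := neg_mem (hW.qd l x hx ho r)
      simp only [Prod.fst_neg, Prod.snd_neg, neg_smul, map_neg, AddMonoidHom.neg_apply]
      convert this using 1; abel

theorem conj_GTA [P.Normal] (c : C2 ρ P u t a b e β) {m : ℕ} {g g' : R} (hg : ∃ h, ρ h = g)
    (hg' : ∃ h, ρ h = g') (hgg : g' * g = 1) (ht : t * g = g * t)
    (he : ∀ r, ∃ s, g • e r = e s ∨ g • e r = -e s) {W : R × R} (hW : IsQD ρ P β t e m W) :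
    IsQD ρ P β t e m ((g', g') * W * (g, g)) := by
  obtain ⟨h, rfl⟩ := hg
  obtain ⟨h', rfl⟩ := hg'
  have cv : ∀ v : V, ρ h' • ρ h • v = v := fun v => by rw [smul_smul, hgg, one_smul]
  refine ⟨fun n z hz => ?_, fun n v hv => ?_, fun r => ?_, fun l x hx ho r => ?_⟩
  · simp only [Prod.fst_mul, mul_smul]
    exact cf_inv c.eqv _ h' _ (hW.shC n _ (cf_inv c.eqv n h z hz))
  · simp only [Prod.snd_mul, mul_smul]
    exact fil_inv _ h' _ (hW.shV n _ (fil_inv n h v hv))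
  · simp only [Prod.fst_mul, mul_smul]
    refine fil_inv _ h' _ ?_
    obtain ⟨s, hs | hs⟩ := he r
    · rw [hs]; exact hW.e1 s
    · rw [hs, smul_neg]; exact neg_mem (hW.e1 s)
  · simp only [Prod.fst_mul, Prod.snd_mul, mul_smul]
    have k1 : β (ρ h' • W.2 • ρ h • x) (e r) = ρ h' • β (W.2 • ρ h • x) (ρ h • e r) := by
      rw [← c.eqv, cv]
    have k2 : β x (ρ h' • W.1 • ρ h • e r) = ρ h' • β (ρ h • x) (W.1 • ρ h • e r) := by
      rw [← c.eqv, cv]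
    rw [k1, k2, ← c.eqv h x, ← smul_sub, ← smul_sub]
    refine cf_inv c.eqv _ h' _ ?_
    obtain ⟨s, hs | hs⟩ := he r
    · rw [hs]; exact hW.qd l _ (fil_inv l h x hx) (Q8.odd_smul ht ho) s
    · have := neg_mem (hW.qd l _ (fil_inv l h x hx) (Q8.odd_smul ht ho) s)
      rw [hs]
      simp only [map_neg, smul_neg]
      convert this using 1; abel

theorem key_GTA [P.Normal] (c : C2 ρ P u t a b e β) {m l : ℕ} (ih : SS ρ P β u t e l)
    {N : AddSubgroup C} (hN : HN ρ P β u t e (l + m) N) {O : R}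
    (sh : ∀ n, ∀ z ∈ CF ρ P β n, O • z ∈ CF ρ P β (n + m)) (ht : t * O = O * t)
    (hu : ∀ z : C, t • z = -z → ∀ s, O • u s • z = u s • O • z)
    (h3 : ∀ x ∈ Fil ρ P V l, t • x = -x → ∀ r, ∃ y ∈ Fil ρ P V (l + m), t • y = -y ∧
      ∀ j, j = r ∨ j = r + 1 → O • u j • β x (e j) - u j • β y (e j) ∈ CF ρ P β (l + m + 1))
    {z : C} (hz : z ∈ CF ρ P β l) (ho : t • z = -z) : O • z ∈ N := by
  refine ih (N.comap (DistribSMul.toAddMonoidHom C O))
    ⟨fun w hw hwo s => ?_, fun w hw hwo => ?_, fun x hx hxo r => ?_⟩ z hz ho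
  · show O • u s • w ∈ N
    rw [hu w hwo]
    exact hN.h1 _ hw (Q8.odd_smul ht hwo) s
  · exact hN.h2 _ (cf_anti (by omega) (sh _ w hw)) (Q8.odd_smul ht hwo)
  · obtain ⟨y, hy, hyo, k⟩ := h3 x hx hxo r
    have od : ∀ j, j = r ∨ j = r + 1 → O • u j • β x (e j) - u j • β y (e j) ∈ N := fun j hj =>
      hN.h2 _ (k j hj) (by
        rw [smul_sub, Q8.odd_smul ht (c.ev.odd_Q c.eqv hxo j), c.ev.odd_Q c.eqv hyo j]; abel)
    have := add_mem (sub_mem (od r (.inl rfl)) (od (r + 1) (.inr rfl))) (hN.h3 y hy hyo r)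
    show O • (u r • β x (e r) - u (r + 1) • β x (e (r + 1))) ∈ N
    rw [smul_sub]
    convert this using 1; abel

variable (ρ P β u t e) in
/-- Pairs of type `s`. -/
structure Typ_GTA (m : ℕ) (s : Fin 3) (Y : R × R) : Prop where
  qd : IsQD ρ P β t e m Y
  c : (u s, u s) * Y = Y * (u s, u s)
  a : ∀ r, r ≠ s → (u r, u r) * Y = -(Y * (u r, u r))

theorem tcomm_GTA (q : Q8 u t a b) {s : Fin 3} {X : R} (h : u s * X = X * u s) :
    t * X = X * t := by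
  rw [← q.sq s, mul_assoc, h, ← mul_assoc, h, mul_assoc]

theorem typ_u_GTA (q : Q8 u t a b) {m : ℕ} {s : Fin 3} {Y : R × R} (h : Typ_GTA u t ρ P e β m s Y)
    (z : C) (ho : t • z = -z) (r : Fin 3) : (u s * Y.1) • u r • z = u r • (u s * Y.1) • z := by
  have c1 : u s * Y.1 = Y.1 * u s := congrArg Prod.fst h.c
  by_cases hr : r = s
  · subst hr
    rw [mul_smul, smul_smul Y.1, ← c1]
  · have a1 : u r * Y.1 = -(Y.1 * u r) := congrArg Prod.fst (h.a r hr)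
    rw [mul_smul, mul_smul, q.anti_odd hr (Q8.odd_smul (tcomm_GTA q c1) ho), smul_smul (u r), a1,
      neg_smul, smul_neg, neg_neg, mul_smul]

theorem typ_t_GTA (q : Q8 u t a b) {m : ℕ} {s : Fin 3} {Y : R × R}
    (h : Typ_GTA u t ρ P e β m s Y) : t * (u s * Y.1) = u s * Y.1 * t := by
  rw [← mul_assoc, q.tu, mul_assoc, tcomm_GTA q (congrArg Prod.fst h.c), mul_assoc]

theorem typ_sh_GTA [P.Normal] (c : C2 ρ P u t a b e β) {m : ℕ} {s : Fin 3} {Y : R × R}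
    (h : Typ_GTA u t ρ P e β m s Y) (n : ℕ) :
    ∀ z ∈ CF ρ P β n, (u s * Y.1) • z ∈ CF ρ P β (n + m) := fun z hz => by
  rw [mul_smul]
  exact (c.ev.inv_of (cf_inv c.eqv _) _ (h.qd.shC n z hz)).1 s

theorem next_GTA [P.Normal] (c : C2 ρ P u t a b e β) {m : ℕ} {s : Fin 3} {Y : R × R}
    (h : Typ_GTA u t ρ P e β m s Y) : ∃ Y', Typ_GTA u t ρ P e β m (s + 1) Y' ∧
      ∀ l, ∀ z ∈ CF ρ P β l, t • z = -z →
        (u (s + 1) * Y'.1) • z - (u s * Y.1) • z ∈ CF ρ P β (l + m + 1) := by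
  have q := c.ev.q
  have p1 := q.prod.conj
  have p2 := q.prod.conj'
  refine ⟨(b, b) * Y * (a, a), ⟨conj_GTA c c.ev.ha c.ev.hb q.ba q.ta (fun r => ⟨r - 1, .inl ?_⟩)
    h.qd, ?_, fun r hr => ?_⟩, fun l z hz ho => ?_⟩
  · rw [← c.ev.ae (r - 1), sub_add_cancel]
  · rw [← mul_assoc, ← mul_assoc, ← p2, mul_assoc _ _ Y, h.c, mul_assoc _ _ (u (s + 1), _), ← p1]
    simp only [mul_assoc]
  · obtain ⟨r, rfl⟩ : ∃ r', r = r' + 1 := ⟨r - 1, by simp⟩
    rw [← mul_assoc, ← mul_assoc, ← p2, mul_assoc _ _ Y, h.a r (fun k => hr (k ▸ rfl)),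
      mul_assoc _ _ (u (r + 1), _), ← p1]
    simp only [mul_assoc, mul_neg, neg_mul]
  · have k0 : u (s + 1) * ((b, b) * Y * (a, a)).1 = b * (u s * Y.1) * a := by
      simp only [Prod.fst_mul, ← mul_assoc, q.conj']
    have k1 := typ_sh_GTA c h _ _ (c.aN l hz ho)
    have k2 := c.aN _ (typ_sh_GTA c h _ _ hz) (Q8.odd_smul (typ_t_GTA q h) ho)
    have k3 : (u s * Y.1) • (1 - u 0 - u 1 - u 2) • z = (1 - u 0 - u 1 - u 2) • (u s * Y.1) • z := by
      simp only [sub_smul, one_smul, smul_sub, typ_u_GTA q h z ho]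
    rw [smul_sub, k3, Nat.add_right_comm] at k1
    have k4 := (c.ev.inv_of (cf_inv c.eqv _) _ (sub_mem k1 k2)).2.2
    rw [sub_sub_sub_cancel_right, smul_sub, smul_smul b a, q.ba, one_smul] at k4
    rw [k0, mul_smul, mul_smul]
    exact k4

theorem typ_GTA [P.Normal] (c : C2 ρ P u t a b e β) {m l : ℕ} (ih : SS ρ P β u t e l)
    {N : AddSubgroup C} (hN : HN ρ P β u t e (l + m) N) {s : Fin 3} {Y : R × R}
    (h : Typ_GTA u t ρ P e β m s Y) {z : C} (hz : z ∈ CF ρ P β l) (ho : t • z = -z) :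
    Y.1 • z ∈ N := by
  have q := c.ev.q
  have all : ∀ s', ∃ Y', Typ_GTA u t ρ P e β m s' Y' ∧ ∀ w ∈ CF ρ P β l, t • w = -w →
      (u s' * Y'.1) • w - (u s * Y.1) • w ∈ CF ρ P β (l + m + 1) := by
    intro s'
    obtain ⟨Y1, h1, k1⟩ := next_GTA c h
    obtain ⟨Y2, h2, k2⟩ := next_GTA c h1
    have : ∀ s s' : Fin 3, s' = s ∨ s' = s + 1 ∨ s' = s + 1 + 1 := by decide
    rcases this s s' with rfl | rfl | rfl
    · exact ⟨Y, h, fun w _ _ => by simp⟩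
    · exact ⟨Y1, h1, k1 l⟩
    · exact ⟨Y2, h2, fun w hw hwo => by simpa using add_mem (k2 l w hw hwo) (k1 l w hw hwo)⟩
  have k := key_GTA c ih hN (typ_sh_GTA c h) (typ_t_GTA q h) (typ_u_GTA q h) (fun x hx hxo r => ?_)
    hz ho
  · have := hN.h1 _ k (Q8.odd_smul (typ_t_GTA q h) ho) s
    rw [mul_smul, q.uu s (Q8.odd_smul (tcomm_GTA q (congrArg Prod.fst h.c)) ho)] at this
    exact neg_mem_iff.mp this
  obtain ⟨X, hX, kX⟩ := all (r + 2)
  have o2 : t • X.2 • x = -(X.2 • x) := Q8.odd_smul (tcomm_GTA q (congrArg Prod.snd hX.c)) hxo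
  refine ⟨-(u (r + 2) • X.2 • x), neg_mem ((c.ev.inv_of (fil_inv _) _ (hX.qd.shV l x hx)).1 _),
    by rw [smul_neg, Q8.odd_smul (q.tu _) o2], fun j hj => ?_⟩
  have hj' : r + 2 ≠ j := (by decide : ∀ r j : Fin 3, j = r ∨ j = r + 1 → r + 2 ≠ j) r j hj
  have a1 : u j * X.1 = -(X.1 * u j) := congrArg Prod.fst (hX.a j hj'.symm)
  have d := hX.qd.qd l x hx hxo j
  rw [c.ev.zero hj' (congrArg Prod.fst hX.c) (hX.qd.e1 j), map_zero, sub_zero] at d
  have d1 := (c.ev.inv_of (cf_inv c.eqv _) _ ((c.ev.inv_of (cf_inv c.eqv _) _ d).1 j)).1 (r + 2)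
  have d2 := kX _ ((c.ev.inv_of (cf_inv c.eqv l) _
    (cf_mem (β := β) (l := 0) le_rfl hx (w := e j) trivial)).1 j) (c.ev.odd_Q c.eqv hxo j)
  rw [smul_sub, smul_sub, smul_smul (u j) X.1, a1, neg_smul, mul_smul, smul_neg] at d1
  rw [mul_smul] at d2
  rw [map_neg, AddMonoidHom.neg_apply, smul_neg, c.ev.Q_u c.eqv o2]
  convert neg_mem (add_mem d1 d2) using 1; abel

theorem stepA [P.Normal] (c : C2 ρ P u t a b e β) {n : ℕ} (ih : ∀ l < n, SS ρ P β u t e l)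
    {N : AddSubgroup C} (hN : HN ρ P β u t e n N) {m l : ℕ} (hm : 1 ≤ m) (hl : n ≤ l + m)
    {W : R × R} (hW : IsQD ρ P β t e m W) (h₁ : t * W.1 = W.1 * t) (h₂ : t * W.2 = W.2 * t)
    {z : C} (hz : z ∈ CF ρ P β l) (ho : t • z = -z) : W.1 • z ∈ N := by
  have q := c.ev.q
  rcases hl.lt_or_eq with hl | rfl
  · exact hN.h2 _ (cf_anti hl (hW.shC l z hz)) (Q8.odd_smul h₁ ho)
  have ih' := ih l (by omega)
  obtain ⟨X, hX, Y, hY, rfl, c0, c1, c2⟩ := q.prod.dec (qdSub_GTA t ρ P e β m) (fun r X hX => by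
    obtain ⟨g, hg⟩ := c.ev.ht
    obtain ⟨g', hg'⟩ := c.ev.hu r
    refine conj_GTA c (c.ev.hu r) ⟨g * g', by rw [map_mul, hg, hg']⟩
      (by rw [mul_assoc, q.sq, q.tt]) (q.tu r) (fun s => ⟨s, ?_⟩) hX
    by_cases hs : r = s
    · exact .inl (hs ▸ c.ev.fix r)
    · exact .inr (c.ev.inv r s hs)) hW (Prod.ext h₁ h₂)
  have hX : IsQD ρ P β t e m X := hX
  have k : ∀ s, (Y s).1 • z ∈ N := fun s =>
    typ_GTA c ih' hN ⟨hY s, c1 s, fun r hr => c2 r s hr⟩ hz ho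
  have x1 : ∀ r, u r * X.1 = X.1 * u r := fun r => congrArg Prod.fst (c0 r)
  simp only [Prod.fst_add, add_smul]
  refine add_mem (add_mem (add_mem ?_ (k 0)) (k 1)) (k 2)
  refine key_GTA c ih' hN hX.shC (tcomm_GTA q (x1 0))
    (fun w _ s => by rw [smul_smul, ← x1, mul_smul]) (fun x hx hxo r => ⟨X.2 • x, hX.shV l x hx,
      Q8.odd_smul (tcomm_GTA q (congrArg Prod.snd (c0 0))) hxo, fun j _ => ?_⟩) hz ho
  have d := hX.qd l x hx hxo j
  have hj : j + 1 ≠ j := (by decide : ∀ j : Fin 3, j + 1 ≠ j) j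
  rw [c.ev.zero hj (x1 _) (hX.e1 j), map_zero, sub_zero] at d
  have d1 := (c.ev.inv_of (cf_inv c.eqv _) _ d).1 j
  rwa [smul_sub, smul_smul, x1, mul_smul] at d1

end Pool.Agent.MP_a5588a_al.Solv

end

section

namespace Pool.Agent.MP_a5588a_al.Solv

open scoped commutatorElement

variable {R : Type*} [Ring R] {u : Fin 3 → R} {t a b : R} {H : Type*} [Group H] {ρ : H →* R}
  {P : Subgroup H} {V : Type*} [AddCommGroup V] [Module R V] {e : Fin 3 → V}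
  {M C : Type*} [AddCommGroup M] [Module R M] [AddCommGroup C] [Module R C]

theorem cancel_M3 (g : H) (v : V) : ρ g • ρ g⁻¹ • v = v := by
  rw [smul_smul, ← map_mul, mul_inv_cancel, map_one, one_smul]

theorem step_M3 [P.Normal] (ev : EV ρ P u t a b e) (β : M →+ V →+ C)
    (eqv : ∀ g x w, β (ρ g • x) (ρ g • w) = ρ g • β x w) (triv : ∀ p ∈ P, ∀ z : C, ρ p • z = z)
    (quadC : ∀ z : C, (a - 1) • (a - 1) • z = 0) (quadM : QuadAll ρ P a M)
    (even : ∀ m : M, t • m = m → ∀ r, β m (e r) = 0) (T : Set (Fin 3 → M))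
    (hT : ∀ y ∈ T, (∀ s, t • y s = -y s) ∧ ∀ r s, β (y s) (e r) = β (y r) (e s))
    (gen : ∀ L : AddSubgroup M, (∀ p ∈ P, ∀ y ∈ T, ∀ s, ρ p • y s ∈ L) → L = ⊤) (n : ℕ)
    (hn : Fil ρ P M (n + 1) = ⊥) : ∀ m ∈ Fil ρ P M n, ∀ r, β m (e r) = 0 := by
  have q := ev.q
  have aM : ∀ x ∈ Fil ρ P M n, t • x = -x → a • x = (1 - u 0 - u 1 - u 2) • x := fun x hx ho =>
    sub_eq_zero.1 (AddSubgroup.mem_bot.1 (q.qg2 (U' := ⊥) (ev.inv_of (fil_inv n))
      (fun z hz => by simp [AddSubgroup.mem_bot.1 hz])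
      (fun z hz => hn ▸ quadM _ (fil_inv n) z hz) hx ho))
  have aC : ∀ z : C, t • z = -z → a • z = (1 - u 0 - u 1 - u 2) • z := fun x ho =>
    sub_eq_zero.1 (AddSubgroup.mem_bot.1 (q.qg2 (U := ⊤) (U' := ⊥) (fun z _ => by simp)
      (fun z hz => by simp [AddSubgroup.mem_bot.1 hz]) (fun z _ => quadC z) trivial ho))
  have Q1 : ∀ x ∈ Fil ρ P M n, t • x = -x → ∀ r,
      u (r + 1) • β x (e (r + 1)) = u r • β x (e r) := by
    intro x hx ho r
    have h1 : x = b • (1 - u 0 - u 1 - u 2) • x := by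
      rw [← aM x hx ho, smul_smul, q.ba, one_smul]
    conv_lhs => rw [h1]
    rw [ev.Q_b eqv, ev.Q_aN eqv ho, ← aC _ (ev.odd_Q eqv ho r), smul_smul, q.ba, one_smul]
  have Q2 : ∀ x ∈ Fil ρ P M n, t • x = -x → ∀ r, u r • β x (e r) = u 0 • β x (e 0) := by
    intro x hx ho r
    fin_cases r
    · rfl
    · exact Q1 x hx ho 0
    · exact (Q1 x hx ho 1).trans (Q1 x hx ho 0)
  have Q3 : ∀ x : M, t • x = -x → ∀ r, u r • β x (e r) = 0 → β x (e r) = 0 := by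
    intro x ho r h
    rw [← neg_eq_zero, ← q.uu r (ev.odd_β eqv ho r), h, smul_zero]
  have hw := words (ρ := ρ) (P := P) {z | ∃ y ∈ T, ∃ s, z = y s}
    (fun L h => gen L fun p hp y hy s => h p hp _ ⟨y, hy, s, rfl⟩)
    (fun l => {w | ∃ w' : R, (∀ x v, β (w • x) v = β x (w' • v)) ∧ (∀ x : M, w • x ∈ Fil ρ P M l) ∧
      (l = 0 → w = 1 ∧ w' = 1) ∧ (l ≠ 0 → ∀ v : V, w' • v ∈ Fil ρ P V 1)})
    ⟨1, by simp, fun _ => trivial, by simp, by simp⟩ (by
      rintro l w ⟨w', h1, h2, h3, h4⟩ p hp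
      refine ⟨w' * (ρ p⁻¹ - 1), fun x v => ?_, fun x => ?_, by simp, fun _ v => ?_⟩
      · rw [mul_smul, mul_smul, ← h1, sub_smul, sub_smul, one_smul, one_smul, map_sub, map_sub,
          AddMonoidHom.sub_apply, ← triv p hp (β (w • x) (ρ p⁻¹ • v)), ← eqv, cancel_M3]
      · rw [mul_smul]
        exact fil_succ hp (h2 x)
      · rw [mul_smul]
        by_cases h0 : l = 0
        · rw [(h3 h0).2, one_smul]
          exact fil_succ (n := 0) (P.inv_mem hp) trivial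
        · exact h4 h0 _) n
  intro m hm r
  refine (?_ : _ ≤ (β.flip (e r)).ker) (hw hm)
  rw [hn, sup_bot_eq, AddSubgroup.closure_le]
  rintro _ ⟨w, ⟨w', h1, h2, h3, h4⟩, _, ⟨y, hy, s, rfl⟩, rfl⟩
  obtain ⟨ho, hs⟩ := hT y hy
  change β (w • y s) (e r) = 0
  by_cases h0 : n = 0
  · subst h0
    rw [(h3 rfl).1, one_smul]
    refine Q3 _ (ho s) r ((Q2 _ trivial (ho s) r).trans (AddSubgroup.mem_bot.1
      (q.three_index ⊥ (fun z hz _ s => by simp [AddSubgroup.mem_bot.1 hz])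
        (fun s => u 0 • β (y s) (e 0)) (fun s => ev.odd_Q eqv (ho s) 0) (fun r s => ?_) s)))
    rw [AddSubgroup.mem_bot, ← Q2 _ trivial (ho s) r, ← Q2 _ trivial (ho r) s,
      q.uu r (ev.odd_β eqv (ho s) r), q.uu s (ev.odd_β eqv (ho r) s), hs, sub_self]
  let S : AddSubgroup (R × R) :=
    { carrier := {X | (∀ x v, β (X.1 • x) v = β x (X.2 • v)) ∧ (∀ x : M, X.1 • x ∈ Fil ρ P M n) ∧
        ∀ v : V, X.2 • v ∈ Fil ρ P V 1}
      zero_mem' := by simp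
      add_mem' := fun {X Y} hX hY => ⟨fun x v => by simp [add_smul, hX.1, hY.1],
        fun x => by simpa [add_smul] using add_mem (hX.2.1 x) (hY.2.1 x),
        fun x => by simpa [add_smul] using add_mem (hX.2.2 x) (hY.2.2 x)⟩
      neg_mem' := fun {X} hX => ⟨fun x v => by simp [hX.1], fun x => by simpa using hX.2.1 x,
        fun x => by simpa using hX.2.2 x⟩ }
  have hS : ∀ (g : H) (c d : R), ρ g = d → d * c = 1 → ∀ X ∈ S, (c, c) * X * (d, d) ∈ S := by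
    intro g c d hd hc X hX
    have hc' : c = ρ g⁻¹ := by
      rw [← mul_one (ρ g⁻¹), ← hc, ← hd, ← mul_assoc, ← map_mul, inv_mul_cancel, map_one, one_mul]
    subst hd hc'
    refine ⟨fun x v => ?_, fun x => ?_, fun v => ?_⟩
    · have e1 := eqv g⁻¹ (X.1 • ρ g • x) (ρ g • v)
      have e2 := eqv g⁻¹ (ρ g • x) (X.2 • ρ g • v)
      have e3 : ∀ v : V, ρ g⁻¹ • ρ g • v = v := fun v => by simpa using cancel_M3 (ρ := ρ) g⁻¹ v
      have e4 : ρ g⁻¹ • ρ g • x = x := by simpa using cancel_M3 (ρ := ρ) g⁻¹ x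
      rw [e3] at e1
      rw [e4] at e2
      simp only [Prod.fst_mul, Prod.snd_mul, mul_smul, e1, e2, hX.1]
    · simp only [Prod.fst_mul, mul_smul]
      exact fil_inv n _ _ (hX.2.1 _)
    · simp only [Prod.snd_mul, mul_smul]
      exact fil_inv 1 _ _ (hX.2.2 _)
  have hX : (w, w') ∈ S := ⟨h1, h2, h4 h0⟩
  obtain ⟨g, hg⟩ := ev.ht
  obtain ⟨X₀, hX₀, Y, hY, e1, e2, e3, -⟩ := q.prod.dec S (fun r X hX => by
      obtain ⟨g, hg⟩ := ev.hu r
      exact hS g (t * u r) (u r) hg (by rw [q.tu, ← mul_assoc, q.sq, q.tt]) X hX)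
    (S.neg_mem (S.add_mem hX (hS g t t hg q.tt _ hX))) (by
      rw [mul_neg, neg_mul, mul_add, add_mul, ← mul_assoc, ← mul_assoc, q.prod.tt, one_mul,
        mul_assoc _ ((t, t) : R × R) ((t, t) : R × R), q.prod.tt, mul_one, add_comm])
  have z1 : ∀ X ∈ S, ∀ r r', r' ≠ r → (u r', u r') * X = X * (u r', u r') →
      β (X.1 • y s) (e r) = 0 := fun X hX r r' h h' => by
    rw [hX.1, ev.zero h (congrArg Prod.snd h') (hX.2.2 _), map_zero]
  have ne1 : ∀ r : Fin 3, r + 1 ≠ r := by decide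
  have z2 : ∀ r', β ((Y r').1 • y s) (e r) = 0 := by
    intro r'
    by_cases h : r' = r
    · subst h
      have c1 : u r' * (Y r').1 = (Y r').1 * u r' := congrArg Prod.fst (e3 r')
      have c2 : t • (Y r').1 • y s = -((Y r').1 • y s) := Q8.odd_smul (by
        rw [← q.sq r', mul_assoc, c1, ← mul_assoc, c1, mul_assoc]) (ho s)
      refine Q3 _ c2 _ ?_
      rw [← Q1 _ ((hY r').2.1 _) c2, z1 _ (hY r') _ r' (ne1 r').symm (e3 r'), smul_zero]
    · exact z1 _ (hY r') r r' h (e3 r')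
  have e4 : (t - 1) • w • y s = (X₀ + Y 0 + Y 1 + Y 2).1 • y s := by
    rw [← e1]
    simp [add_smul, mul_smul, ho s, sub_eq_add_neg]
  rw [q.parts (w • y s), map_add, AddMonoidHom.add_apply, even _ (q.even_part _), e4]
  simp [add_smul, z2, z1 X₀ hX₀ r (r + 1) (ne1 r) (e2 _)]

theorem m3 [P.Normal] (ev : EV ρ P u t a b e) (β : M →+ V →+ C)
    (eqv : ∀ g x w, β (ρ g • x) (ρ g • w) = ρ g • β x w) (triv : ∀ p ∈ P, ∀ z : C, ρ p • z = z)
    (quadC : ∀ z : C, (a - 1) • (a - 1) • z = 0) (quadM : QuadAll ρ P a M)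
    (even : ∀ m : M, t • m = m → ∀ r, β m (e r) = 0) (nd : ∀ m : M, (∀ v, β m v = 0) → m = 0)
    (nil : ∃ n, Fil ρ P M n = ⊥) (T : Set (Fin 3 → M))
    (hT : ∀ y ∈ T, (∀ s, t • y s = -y s) ∧ ∀ r s, β (y s) (e r) = β (y r) (e s))
    (gen : ∀ L : AddSubgroup M, (∀ p ∈ P, ∀ y ∈ T, ∀ s, ρ p • y s ∈ L) → L = ⊤) (m : M) :
    m = 0 := by
  obtain ⟨n, hn⟩ := nil
  induction n with
  | zero => exact AddSubgroup.mem_bot.1 (hn ▸ (trivial : m ∈ Fil ρ P M 0))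
  | succ n ih =>
    refine ih (eq_bot_iff.2 fun x hx => nd x fun v => ?_)
    refine ((ev.gen (β x).ker fun p hp r => ?_).ge (AddSubgroup.mem_top v) :)
    have h1 : ρ p • x - x ∈ Fil ρ P M (n + 1) := low_mem hp hx
    rw [hn, AddSubgroup.mem_bot, sub_eq_zero] at h1
    rw [AddMonoidHom.mem_ker, ← h1, eqv,
      step_M3 ev β eqv triv quadC quadM even T hT gen n hn x hx r, smul_zero]

end Pool.Agent.MP_a5588a_al.Solv

end

section

namespace Pool.Agent.MP_a5588a_al.Solv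

open scoped commutatorElement

section aux

variable {G : Type*} [Group G]

/-- The elements of `N` whose commutators with `X` lie in `L`. -/
def Cen_Class3 (N X L : Subgroup G) (hL : ∀ p ∈ N, ∀ z ∈ L, p * z * p⁻¹ ∈ L) : Subgroup G where
  carrier := {y | y ∈ N ∧ ∀ x ∈ X, ⁅x, y⁆ ∈ L}
  one_mem' := ⟨N.one_mem, fun x _ => by simp⟩
  mul_mem' := fun {y z} hy hz => ⟨N.mul_mem hy.1 hz.1, fun x hx => by
    rw [show ⁅x, y * z⁆ = ⁅x, y⁆ * (y * ⁅x, z⁆ * y⁻¹) by group]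
    exact L.mul_mem (hy.2 x hx) (hL y hy.1 _ (hz.2 x hx))⟩
  inv_mem' := fun {y} hy => ⟨N.inv_mem hy.1, fun x hx => by
    rw [show ⁅x, y⁻¹⁆ = y⁻¹ * ⁅x, y⁆⁻¹ * y⁻¹⁻¹ by group]
    exact hL _ (N.inv_mem hy.1) _ (L.inv_mem (hy.2 x hx))⟩

theorem step_Class3 {P E X L : Subgroup G} [hX : X.Normal] {g : Fin 3 → G} {a : G}
    {e : Fin 3 → G} (he : EP P E g a e) (hEP : E ≤ P) (hL : ∀ p ∈ P, ∀ z ∈ L, p * z * p⁻¹ ∈ L)
    (h : ∀ x ∈ X, ∀ r, ⁅x, e r⁆ ∈ L) : ⁅X, E⁆ ≤ L := by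
  have := he.gen (Cen_Class3 P X L hL) fun p hp r =>
    ⟨P.mul_mem (P.mul_mem hp (hEP (he.mem r))) (P.inv_mem hp), fun x hx => by
      rw [show ⁅x, p * e r * p⁻¹⁆ = p * ⁅p⁻¹ * x * p⁻¹⁻¹, e r⁆ * p⁻¹ by group]
      exact hL p hp _ (h _ (hX.conj_mem x hx _) r)⟩
  exact Subgroup.commutator_le.2 fun x hx y hy => (this hy).2 x hx

theorem om_Class3 (A : Subgroup G) [hA : A.Normal] (hc : ∀ x ∈ A, ∀ y ∈ A, Commute x y) :
    ∃ L : Subgroup G, (∀ p : G, ∀ z ∈ L, p * z * p⁻¹ ∈ L) ∧ ∀ z, z ∈ L ↔ z ∈ A ∧ z ^ 3 = 1 :=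
  ⟨{ carrier := {z | z ∈ A ∧ z ^ 3 = 1}
     one_mem' := ⟨A.one_mem, one_pow _⟩
     mul_mem' := fun {y z} hy hz => ⟨A.mul_mem hy.1 hz.1, by
       rw [(hc y hy.1 z hz.1).mul_pow, hy.2, hz.2, one_mul]⟩
     inv_mem' := fun {y} hy => ⟨A.inv_mem hy.1, by rw [inv_pow, hy.2, inv_one]⟩ },
    fun p z hz => ⟨hA.conj_mem z hz.1 p, by rw [conj_pow, hz.2, mul_one, mul_inv_cancel]⟩,
    fun _ => Iff.rfl⟩

theorem cube_Class3 {x e : G} (he : e ^ 3 = 1) (h1 : Commute ⁅e, ⁅x, e⁆⁆ e)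
    (h2 : Commute ⁅e, ⁅x, e⁆⁆ ⁅x, e⁆) (h3 : ⁅e, ⁅x, e⁆⁆ ^ 3 = 1) : ⁅x, e⁆ ^ 3 = 1 := by
  have e1 : ⁅x, e * (e * e)⁆ = ⁅x, e⁆ * (⁅e, ⁅x, e⁆⁆ * ⁅x, e⁆) *
      (e * ⁅e, ⁅x, e⁆⁆ * e⁻¹ * (⁅e, ⁅x, e⁆⁆ * ⁅x, e⁆)) := by
    simp only [commutatorElement_def, mul_inv_rev, inv_inv, mul_assoc, inv_mul_cancel_left,
      mul_inv_cancel_left]
  rw [← pow_three, he, commutatorElement_one_right, ← h1.eq, mul_inv_cancel_right] at e1
  generalize ⁅e, ⁅x, e⁆⁆ = d at *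
  generalize ⁅x, e⁆ = c at *
  calc c ^ 3 = (d * c) ^ 3 := by rw [h2.mul_pow, h3, one_mul]
    _ = 1 := by
      rw [e1]
      simp only [pow_three, mul_assoc, h2.left_comm]

theorem symm_Class3 {x f g : G} {A : Subgroup G} [A.Normal]
    (hc : ∀ x ∈ A, ∀ y ∈ A, Commute x y) (hf : ⁅x, f⁆ ∈ A) (hg : ⁅x, g⁆ ∈ A) (h : Commute f g) :
    ⁅⁅x, f⁆, g⁆ = ⁅⁅x, g⁆, f⁆ := by
  have e1 : ⁅x, f * g⁆ = ⁅x, f⁆ * (⁅⁅x, g⁆, f⁆⁻¹ * ⁅x, g⁆) := by group
  have e2 : ⁅x, g * f⁆ = ⁅x, g⁆ * (⁅⁅x, f⁆, g⁆⁻¹ * ⁅x, f⁆) := by group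
  have m : ∀ y ∈ A, ∀ z, ⁅y, z⁆⁻¹ ∈ A := fun y hy z => A.inv_mem
    (Subgroup.commutator_le_left A ⊤ (Subgroup.commutator_mem_commutator hy (Subgroup.mem_top z)))
  rw [h.eq, e2, (hc _ hg _ (m _ hf g)).left_comm, (hc _ hf _ (m _ hg f)).left_comm,
    (hc _ hf _ hg).eq] at e1
  exact inv_injective (mul_right_cancel e1)

end aux

variable {G : Type*} [Group G] [Finite G] {P Q K E E₀ : Subgroup G} {i j k a : G}

theorem main_Class3 (c : Ctx P Q K i j k a) (m : MinBad Q i j E E₀) (h : H1 P Q a)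
    (hr : Rel i j E) {e : Fin 3 → G} (he : EP P E ![i, j, k] a e) {X : Subgroup G} [X.Normal]
    (hX : X ≤ E) (h4 : ⁅⁅⁅X, E⁆, E⁆, E⁆ = ⊥) : ⁅⁅X, E⁆, E⁆ = ⊥ := by
  have := m.nE
  have := c.nP
  have hEP : E ≤ P := m.EQ.trans c.QP
  have cm : ∀ {A B : Subgroup G}, ⁅A, B⁆ = ⊥ → ∀ x ∈ A, ∀ y ∈ B, ⁅x, y⁆ = 1 :=
    fun h x hx y hy => Subgroup.mem_bot.1 (h ▸ Subgroup.commutator_mem_commutator hx hy)
  have nm : ∀ (A : Subgroup G) [A.Normal], ∀ g : G, ∀ x ∈ A,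
      MonoidHom.id G g * x * (MonoidHom.id G g)⁻¹ ∈ A := fun A hA g x hx => hA.conj_mem x hx g
  have h5 : ⁅⁅X, E⁆, ⁅E, E⁆⁆ = ⊥ := by
    rw [Subgroup.commutator_comm]
    exact Subgroup.commutator_commutator_eq_bot_of_rotate
      (by rwa [Subgroup.commutator_comm E ⁅X, E⁆]) h4
  have h6 : ⁅X, E⁆ ≤ ⁅E, E⁆ := Subgroup.commutator_mono hX le_rfl
  have hXY : ∀ x ∈ X, ∀ y ∈ E, ⁅x, y⁆ ∈ ⁅X, E⁆ := fun x hx y hy =>
    Subgroup.commutator_mem_commutator hx hy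
  have gen : ∀ {L : Subgroup G}, _ → _ → ⁅X, E⁆ ≤ L := step_Class3 he hEP
  have nY : (⁅X, E⁆).Normal := inferInstance
  have hYE : ⁅X, E⁆ ≤ E := Subgroup.commutator_le_right _ _
  generalize ⁅X, E⁆ = Y at *
  have ab : ∀ x ∈ Y, ∀ y ∈ Y, Commute x y := fun x hx y hy =>
    commutatorElement_eq_one_iff_commute.1 (cm h5 x hx y (h6 hy))
  have hZY : ⁅Y, E⁆ ≤ Y := Subgroup.commutator_le_left _ _
  have hYZ : ∀ x ∈ Y, ∀ y ∈ E, ⁅x, y⁆ ∈ ⁅Y, E⁆ := fun x hx y hy =>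
    Subgroup.commutator_mem_commutator hx hy
  have hYZ' : ∀ x ∈ Y, ∀ y ∈ E, ⁅y, x⁆ ∈ ⁅Y, E⁆ := fun x hx y hy =>
    commutatorElement_inv x y ▸ inv_mem (hYZ x hx y hy)
  have z1 : ∀ z ∈ ⁅Y, E⁆, ∀ x ∈ E, ⁅x, z⁆ = 1 := fun z hz x hx => by
    rw [← commutatorElement_inv, cm h4 z hz x hx, inv_one]
  obtain ⟨Ω, Ω1, Ω2⟩ := om_Class3 Y ab
  have Z3 : ∀ z ∈ ⁅Y, E⁆, z ^ 3 = 1 := fun z hz => ((Ω2 z).1 (step_Class3 he hEP
    (fun p _ => Ω1 p) (fun x hx r => (Ω2 _).2 ⟨hZY (hYZ x hx _ (he.mem r)), by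
      have e1 := z1 _ (hYZ x hx _ (he.mem r)) _ (he.mem r)
      exact cube_Class3 (he.cube r) (e1 ▸ Commute.one_left _) (e1 ▸ Commute.one_left _)
        (by rw [e1, one_pow])⟩) hz)).2
  have Y3 : ∀ z ∈ Y, z ^ 3 = 1 := fun z hz => ((Ω2 z).1 (gen
    (fun p _ => Ω1 p) (fun x hx r => (Ω2 _).2 ⟨hXY x hx _ (he.mem r), by
      have e0 := hXY x hx _ (he.mem r)
      have e1 := hYZ' _ e0 _ (he.mem r)
      exact cube_Class3 (he.cube r)
        (commutatorElement_eq_one_iff_commute.1 (z1 _ e1 _ (he.mem r))).symm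
        (ab _ (hZY e1) _ e0) (Z3 _ e1)⟩) hz)).2
  obtain ⟨Rad, hRad⟩ : ∃ Rad : Subgroup G, ∀ y, y ∈ Rad ↔ y ∈ Y ∧ ∀ x ∈ E, ⁅x, y⁆ ∈ ⁅⁅Y, E⁆, P⁆ :=
    ⟨Cen_Class3 Y E _ fun p _ z hz => nm _ p z hz, fun _ => Iff.rfl⟩
  have nR : Rad.Normal := ⟨fun y hy g => (hRad _).2 ⟨nm Y g y ((hRad y).1 hy).1, fun x hx => by
    rw [show ⁅x, g * y * g⁻¹⁆ = g * ⁅g⁻¹ * x * g⁻¹⁻¹, y⁆ * g⁻¹ by group]
    exact nm _ g _ (((hRad y).1 hy).2 _ (nm E g⁻¹ x hx))⟩⟩
  have hZR : ⁅Y, E⁆ ≤ Rad := fun z hz =>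
    (hRad z).2 ⟨hZY hz, fun x hx => by rw [z1 z hz x hx]; exact one_mem _⟩
  obtain ⟨V, _, σV, πV, sV⟩ := exists_sect (MonoidHom.id G) E ⁅E, E⁆
    (Subgroup.commutator_le_left _ _) (nm _) (nm _)
    fun x hx y hy => Subgroup.commutator_mem_commutator hx hy
  obtain ⟨M, _, σM, πM, sM⟩ := exists_sect (MonoidHom.id G) Y Rad
    (fun y hy => ((hRad y).1 hy).1) (nm _) (nm _) fun x hx y hy => hZR (hYZ x hx y (hYE hy))
  obtain ⟨C, _, σC, πC, sC⟩ := exists_sect (MonoidHom.id G) ⁅Y, E⁆ ⁅⁅Y, E⁆, P⁆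
    (Subgroup.commutator_le_left _ _) (nm _) (nm _)
    fun x hx y hy => Subgroup.commutator_mem_commutator hx (hEP (hYE (hZY hy)))
  obtain ⟨β, β1, β2⟩ := exists_pair sM sV sC (nm _) (nm _) hYZ
    (fun x _ hx y hy => commutatorElement_inv y x ▸ inv_mem (((hRad x).1 hx).2 y hy))
    (fun x hx y _ hy => by rw [cm h5 x hx y hy]; exact one_mem _)
    (fun z hz x hx => by rw [z1 z hz x (hYE hx)]; exact one_mem _)
    (fun z hz x hx => by rw [z1 z hz x hx]; exact one_mem _)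
  have V3 : ∀ x ∈ E, x ^ 3 ∈ ⁅E, E⁆ := fun x hx => by
    have e1 := he.gen (sV.pre (nsmulAddMonoidHom 3).ker) (fun p hp r => by
      have e2 := nm E p _ (he.mem r)
      refine ⟨e2, (sV.pow e2 3).symm.trans ?_⟩
      rw [conj_pow, he.cube, mul_one, mul_inv_cancel, sV.one]) hx
    exact (sV.ker _ (pow_mem hx 3)).1 ((sV.pow hx 3).trans e1.2)
  let R := AddMonoid.End M × AddMonoid.End V × AddMonoid.End C
  let ρ : G →* R := σM.prod (σV.prod σC)
  let _ : Module R M := Module.compHom M (RingHom.fst _ _)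
  let _ : Module R V := Module.compHom V ((RingHom.fst _ _).comp (RingHom.snd _ _))
  let _ : Module R C := Module.compHom C ((RingHom.snd _ _).comp (RingHom.snd _ _))
  have hM : ∀ g (v : M), ρ g • v = σM g v := fun _ _ => rfl
  have hV : ∀ g (v : V), ρ g • v = σV g v := fun _ _ => rfl
  have hC : ∀ g (v : C), ρ g • v = σC g v := fun _ _ => rfl
  have tr : ∀ g, (∀ x ∈ E, Commute g x) → ρ g = 1 := fun g hg => by
    have e1 : ∀ B : Subgroup G, ∀ x ∈ E, ⁅MonoidHom.id G g, x⁆ ∈ B := fun B x hx => by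
      rw [MonoidHom.id_apply, commutatorElement_eq_one_iff_commute.2 (hg x hx)]
      exact one_mem _
    exact Prod.ext (sM.triv (nm _) fun x hx => e1 _ x (hYE hx)) (Prod.ext
      (sV.triv (nm _) (e1 _)) (sC.triv (nm _) fun x hx => e1 _ x (hYE (hZY hx))))
  have q := q8_of_rel (ρ := ρ) c
    (Prod.ext (sM.three fun x hx => by rw [Y3 x hx]; exact one_mem _) (Prod.ext (sV.three V3)
      (sC.three fun x hx => by rw [Z3 x hx]; exact one_mem _)))
    (tr _ hr.r1) (tr _ hr.r2) (tr _ hr.r3)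
  have triv : ∀ p ∈ P, ∀ z : C, ρ p • z = z := fun p hp z => by
    rw [hC, sC.triv (nm _) fun x hx =>
      commutatorElement_inv x p ▸ inv_mem (Subgroup.commutator_mem_commutator hx hp)]
    rfl
  have tM : ∀ v : M, (ρ i * ρ i) • v = σM (i ^ 2) v := fun v => by rw [← map_mul, hM, pow_two]
  have ev : ∀ x ∈ E, Commute (i ^ 2) x → ∀ r, Commute x (e r) := he.even
  have te : ∀ s, i ^ 2 * e s * (i ^ 2)⁻¹ = e s := fun s => by
    rw [show i ^ 2 * e s * (i ^ 2)⁻¹ = i * (i * e s * i⁻¹) * i⁻¹ by rw [pow_two]; group]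
    by_cases hs : 0 = s
    · subst hs
      have e1 : i * e 0 * i⁻¹ = e 0 := he.fix 0
      rw [e1, e1]
    · have e1 : i * e s * i⁻¹ = (e s)⁻¹ := he.inv 0 s hs
      rw [e1, ← conj_inv, e1, inv_inv]
  have r4 : ∀ x ∈ E, Commute ((i ^ 2) ^ 2) x := fun x hx => pow_mul i 2 2 ▸ hr.r1 x hx
  have key := m3 (ev_of_EP c m hr he sV hV q) β β2 triv
    (fun z => low_le_iff (L := ⊥).2 (fun p hp v _ => by rw [triv p hp, sub_self]; exact zero_mem _)
      (quadAll_of_H1 h ((hZY.trans hYE).trans m.EQ) (fun x hx y hy => ab x (hZY hx) y (hZY hy)) Z3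
        sC hC ⊤ (fun _ _ _ => trivial) z trivial))
    (quadAll_of_H1 h (hYE.trans m.EQ) ab Y3 sM hM)
    (fun v hv r => by
      obtain ⟨x, hx, rfl⟩ := sM.surj v
      obtain ⟨y, hy, e1, e2⟩ := (lift_parity (c.pP.to_le (hYE.trans hEP))
        (fun x hx => r4 x (hYE hx)) sM (fun v => by
          obtain ⟨x, hx, rfl⟩ := sM.surj v
          have e1 := sM.pow hx 3
          rw [Y3 x hx, sM.one, three'_nsmul] at e1
          exact e1.symm) le_rfl hx).1 ((tM _).symm.trans hv)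
      rw [← e1, β1 y hy _ (he.mem r),
        commutatorElement_eq_one_iff_commute.2 (ev y (hYE hy) e2 r), sC.one])
    (fun v hv => by
      obtain ⟨x, hx, rfl⟩ := sM.surj v
      refine (sM.ker x hx).2 ((hRad x).2 ⟨hx, fun y hy => ?_⟩)
      exact commutatorElement_inv x y ▸
        inv_mem ((sC.ker _ (hYZ x hx y hy)).1 ((β1 x hx y hy).symm.trans (hv _))))
    (fil_nil c.pP (hYE.trans hEP) sM hM)
    {y | ∃ x ∈ X, i ^ 2 * x * (i ^ 2)⁻¹ = x⁻¹ ∧ y = fun s => πM ⁅x, e s⁆}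
    (by
      rintro _ ⟨x, hx, e1, rfl⟩
      have e2 := fun s => hXY x hx _ (he.mem s)
      refine ⟨fun s => ?_, fun r s => ?_⟩
      · rw [tM, ← sM.conj _ _ (e2 s), MonoidHom.id_apply, conjugate_commutatorElement, e1, te,
          show ⁅x⁻¹, e s⁆ = x⁻¹ * ⁅x, e s⁆⁻¹ * x⁻¹⁻¹ by group, sM.conj_eq (inv_mem (e2 s))
            (hZR (hYZ' _ (inv_mem (e2 s)) _ (inv_mem (hX hx)))), sM.inv (e2 s)]
      · rw [β1 _ (e2 s) _ (he.mem r), β1 _ (e2 r) _ (he.mem s), symm_Class3 ab (e2 s) (e2 r)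
          (ev _ (he.mem s) (mul_inv_eq_iff_eq_mul.1 (te s)) r)])
    (fun L hL => by
      obtain ⟨U, hU⟩ : ∃ U : AddSubgroup M, ∀ v, v ∈ U ↔ ∀ p ∈ P, σM p v ∈ L :=
        ⟨⨅ p ∈ P, L.comap (σM p), fun v => by simp only [AddSubgroup.mem_iInf]; rfl⟩
      have e1 : ∀ p ∈ P, ∀ z ∈ sM.pre U, p * z * p⁻¹ ∈ sM.pre U := fun p hp z hz =>
        ⟨nm Y p z hz.1, (hU _).2 fun p' hp' => by
          have e2 := (hU _).1 hz.2 _ (mul_mem hp' hp)
          rw [map_mul] at e2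
          exact (congrArg (σM p') (sM.conj p z hz.1)).symm ▸ e2⟩
      have e3 := gen e1 fun x hx r => by
        obtain ⟨b, hb, y, hy, rfl, c1, c2⟩ := dec_inv (c.pP.to_le (hX.trans hEP)) (t := i ^ 2)
          (nm X _) (fun x hx => r4 x (hX hx)) hx
        rw [show ⁅b * y, e r⁆ = b * ⁅y, e r⁆ * b⁻¹ * ⁅b, e r⁆ by group,
          commutatorElement_eq_one_iff_commute.2 (ev b (hX hb) c1 r), mul_one]
        exact e1 b (hEP (hX hb)) _ ⟨hXY y hy _ (he.mem r),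
          (hU _).2 fun p hp => hL p hp _ ⟨y, hy, c2, rfl⟩ r⟩
      refine eq_top_iff.2 fun v _ => ?_
      obtain ⟨x, hx, rfl⟩ := sM.surj v
      have e4 := (hU _).1 (e3 hx).2 1 (one_mem _)
      rwa [map_one] at e4)
  refine comm_lt c.pP ((hZY.trans hYE).trans hEP) (Subgroup.commutator_le.2 fun x hx y hy => ?_)
  exact commutatorElement_inv y x ▸ inv_mem (((hRad x).1 ((sM.ker x hx).1 (key _))).2 y hy)

theorem class3 (c : Ctx P Q K i j k a) (m : MinBad Q i j E E₀) (h : H1 P Q a) (hr : Rel i j E)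
    {e : Fin 3 → G} (he : EP P E ![i, j, k] a e) : ⁅⁅E, E⁆, E⁆ = ⊥ := by
  by_contra hn
  have := m.nE
  obtain ⟨X, ⟨a1, a2, a3⟩, a4⟩ := exists_minimal_of_wellFoundedLT
    (fun X : Subgroup G => X.Normal ∧ X ≤ E ∧ ⁅⁅X, E⁆, E⁆ ≠ ⊥) ⟨E, m.nE, le_rfl, hn⟩
  refine a3 (main_Class3 c m h hr he a2 (by_contra fun h4 => a3 ?_))
  have hEP : E ≤ P := m.EQ.trans c.QP
  rw [comm_lt c.pP (a2.trans hEP) ((a4 ⟨inferInstance, Subgroup.commutator_le_right _ _, h4⟩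
    (Subgroup.commutator_le_left _ _)).trans (Subgroup.commutator_mono le_rfl hEP))]
  simp

end Pool.Agent.MP_a5588a_al.Solv

end
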