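import Pool.Agent.Mg.Fa5588aa.G1ab97f
import Pool.Agent.Mg.Fa5588aa.G7c498e

section

namespace Pool.Agent.MP_a5588a_al.Solv

open scoped commutatorElement

variable {R : Type*} [Ring R] {u : Fin 3 → R} {t a b : R} {H : Type*} [Group H] {ρ : H →* R}
  {P : Subgroup H} {V : Type*} [AddCommGroup V] [Module R V] {e : Fin 3 → V}
  {M C : Type*} [AddCommGroup M] [Module R M] [AddCommGroup C] [Module R C]

variable {β : V →+ V →+ C} {m m' : ℕ} {D D' : R}

theorem neg_GTB (h : IsDer ρ P β m D) : IsDer ρ P β m (-D) where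
  shV n v hv := by rw [neg_smul]; exact neg_mem (h.shV n v hv)
  shC n v hv := by rw [neg_smul]; exact neg_mem (h.shC n v hv)
  der k l v hv w hw := by
    convert neg_mem (h.der k l v hv w hw) using 1
    simp only [neg_smul, map_neg, AddMonoidHom.neg_apply]; abel

theorem add_GTB (h : IsDer ρ P β m D) (h' : IsDer ρ P β m D') : IsDer ρ P β m (D + D') where
  shV n v hv := by rw [add_smul]; exact add_mem (h.shV n v hv) (h'.shV n v hv)
  shC n v hv := by rw [add_smul]; exact add_mem (h.shC n v hv) (h'.shC n v hv)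
  der k l v hv w hw := by
    convert add_mem (h.der k l v hv w hw) (h'.der k l v hv w hw) using 1
    simp only [add_smul, map_add, AddMonoidHom.add_apply]; abel

theorem tC_GTB [P.Normal] (c : C2 ρ P u t a b e β) {n : ℕ} {z : C} (hz : z ∈ CF ρ P β n) :
    t • z ∈ CF ρ P β n := by
  obtain ⟨g, rfl⟩ := c.ev.ht
  exact cf_inv c.eqv n g z hz

theorem conj_GTB [P.Normal] (c : C2 ρ P u t a b e β) (h : IsDer ρ P β m D) :
    IsDer ρ P β m (t * D * t) := by
  have hV : ∀ n, ∀ v ∈ Fil ρ P V n, t • v ∈ Fil ρ P V n := fun n => by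
    obtain ⟨g, rfl⟩ := c.ev.ht
    exact fil_inv n g
  refine ⟨fun n v hv => ?_, fun n v hv => ?_, fun k l v hv w hw => ?_⟩
  · rw [mul_smul, mul_smul]; exact hV _ _ (h.shV _ _ (hV n v hv))
  · rw [mul_smul, mul_smul]; exact tC_GTB c (h.shC _ _ (tC_GTB c hv))
  · have h1 := tC_GTB c (h.der k l _ (hV k v hv) _ (hV l w hw))
    rw [smul_sub, smul_sub, ← c.ev.et c.eqv (D • t • v), ← c.ev.et c.eqv (t • v), c.ev.q.tt_smul,
      c.ev.q.tt_smul, c.ev.et c.eqv] at h1
    simpa only [mul_smul] using h1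

theorem split_GTB [P.Normal] (c : C2 ρ P u t a b e β) (h : IsDer ρ P β m D) :
    ∃ X Y, IsDer ρ P β m X ∧ IsDer ρ P β m Y ∧ t * X = X * t ∧ t * Y = -(Y * t) ∧
      -(1 + t) * D = X * -(1 + t) + Y * (t - 1) ∧ (t - 1) * D = X * (t - 1) + Y * -(1 + t) := by
  have f1 : t * (t * D * t) = D * t := by rw [← mul_assoc, ← mul_assoc, c.ev.q.tt, one_mul]
  have f2 : t * D * t * t = t * D := by rw [mul_assoc, c.ev.q.tt, mul_one]
  refine ⟨_, _, neg_GTB (add_GTB h (conj_GTB c h)), neg_GTB (add_GTB h (neg_GTB (conj_GTB c h))),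
    ?_, ?_, ?_, ?_⟩ <;>
    simp only [mul_neg, neg_mul, mul_add, add_mul, mul_sub, sub_mul, mul_one, one_mul, f1, f2]
  · abel
  · abel
  · rw [← sub_eq_zero, ← neg_eq_zero, ← c.ev.q.add3 (D + t * D)]; abel
  · rw [← sub_eq_zero, ← c.ev.q.add3 (t * D - D)]; abel

theorem der_sub_one [P.Normal] (c : C2 ρ P u t a b e β) {p : H} (hp : p ∈ P) :
    IsDer ρ P β 1 (ρ p - 1) :=
  ⟨fun _ _ => fil_succ hp, fun _ => cf_succ c.eqv hp, fun _ _ _ hv _ hw => by
    rw [β_sub_one c.eqv]
    exact cf_mem (by omega) (fil_succ hp hv) (fil_succ hp hw)⟩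

theorem two_GTB (h : IsDer ρ P β m D) (h' : IsDer ρ P β m' D') {k l : ℕ} {v w : V}
    (hv : v ∈ Fil ρ P V k) (hw : w ∈ Fil ρ P V l) :
    D • D' • β v w - β (D • D' • v) w - β (D' • v) (D • w) - β (D • v) (D' • w) -
      β v (D • D' • w) ∈ CF ρ P β (k + l + (m + m') + 1) := by
  convert add_mem (add_mem (cf_anti (by omega) (h.shC _ _ (h'.der k l v hv w hw)))
    (cf_anti (by omega) (h.der _ _ _ (h'.shV k v hv) w hw)))
    (cf_anti (m := k + l + (m + m') + 1) (by omega) (h.der _ _ v hv _ (h'.shV l w hw))) using 1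
  simp only [smul_sub]; abel

theorem comm_GTB [P.Normal] (h : IsDer ρ P β m D) (h' : IsDer ρ P β m' D') :
    IsDer ρ P β (m + m') (D * D' - D' * D) where
  shV n v hv := by
    rw [sub_smul, mul_smul, mul_smul]
    exact sub_mem (fil_anti (by omega) (h.shV _ _ (h'.shV n v hv)))
      (fil_anti (by omega) (h'.shV _ _ (h.shV n v hv)))
  shC n v hv := by
    rw [sub_smul, mul_smul, mul_smul]
    exact sub_mem (cf_anti (by omega) (h.shC _ _ (h'.shC n v hv)))
      (cf_anti (by omega) (h'.shC _ _ (h.shC n v hv)))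
  der k l v hv w hw := by
    convert sub_mem (two_GTB h h' hv hw) (cf_anti (by omega) (two_GTB h' h hv hw)) using 1
    simp only [sub_smul, mul_smul, map_sub, AddMonoidHom.sub_apply]; abel

theorem qd1_GTB [P.Normal] (hm : 1 ≤ m) (h : IsDer ρ P β m D) : IsQD ρ P β t e m (D, D) :=
  ⟨h.shC, h.shV, fun r => fil_anti (by omega) (h.shV 0 (e r) trivial),
    fun l x hx _ r => h.der l 0 x hx (e r) trivial⟩

theorem flip_GTB {X : R} (hX : t * X = -(X * t)) {v : M} :
    (t • v = v → t • X • v = -(X • v)) ∧ (t • v = -v → t • X • v = X • v) := by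
  constructor <;> intro h <;> rw [smul_smul, hX, neg_smul, mul_smul, h]
  rw [smul_neg, neg_neg]

theorem qd2_GTB [P.Normal] (c : C2 ρ P u t a b e β) (hm : 1 ≤ m) (h : IsDer ρ P β m D)
    (h' : IsDer ρ P β m' D') (o : t * D = -(D * t)) (o' : t * D' = -(D' * t)) :
    IsQD ρ P β t e (m + m') (D * D', -(D' * D)) where
  shC n v hv := by
    rw [mul_smul]; exact cf_anti (by omega) (h.shC _ _ (h'.shC n v hv))
  shV n v hv := by
    rw [neg_smul, mul_smul]; exact neg_mem (fil_anti (by omega) (h'.shV _ _ (h.shV n v hv)))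
  e1 r := by
    rw [mul_smul]; exact fil_anti (by omega) (h.shV _ _ (h'.shV 0 (e r) trivial))
  qd l x hx ho r := by
    have h1 := h.shC _ _ (h'.der l 0 x hx (e r) trivial)
    have h2 := h.der _ _ x hx _ (h'.shV 0 (e r) trivial)
    have h3 := h'.der _ 0 _ (h.shV l x hx) (e r) trivial
    rw [c.even _ ((flip_GTB o').2 ho)] at h1
    rw [c.even _ ((flip_GTB o).2 ho)] at h3
    convert sub_mem (add_mem (cf_anti (by omega) h1) (cf_anti (by omega) h2))
      (cf_anti (m := l + (m + m') + 1) (by omega) h3) using 1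
    simp only [smul_sub, neg_smul, mul_smul, map_neg, AddMonoidHom.neg_apply, smul_zero]; abel

theorem cf_struct [P.Normal] (c : C2 ρ P u t a b e β) (l : ℕ) :
    CF ρ P β l ≤ AddSubgroup.closure {z | ∃ x ∈ Fil ρ P V l, ∃ r, z = β x (e r)} ⊔
      AddSubgroup.closure
        {z | ∃ p ∈ P, ∃ l', l' + 1 = l ∧ ∃ z' ∈ CF ρ P β l', z = (ρ p - 1) • z'} ⊔
      CF ρ P β (l + 1) := by
  refine cf_le_iff.2 fun k k' hl v hv w hw => ?_
  rcases hl.eq_or_lt with hl | hl
  swap
  · exact AddSubgroup.mem_sup_right (cf_mem hl hv hw)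
  revert v w
  induction k' generalizing k with
  | zero =>
    intro v hv w hw
    obtain rfl : l = k := hl
    rw [← AddSubgroup.mem_comap]
    refine (c.ev.gen _ fun p hp r => ?_).ge trivial
    rw [AddSubgroup.mem_comap, ← add_sub_cancel (e r) (ρ p • e r), map_add]
    exact AddSubgroup.add_mem_sup (AddSubgroup.mem_sup_left
      (AddSubgroup.subset_closure ⟨v, hv, r, rfl⟩)) (cf_mem (l := 1) le_rfl hv (low_mem hp trivial))
  | succ k' ih =>
    intro v hv w hw
    rw [← AddSubgroup.mem_comap]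
    refine low_le_iff.2 (fun p hp y hy => ?_) hw
    have h := β_sub_one c.eqv p v y
    rw [sub_eq_iff_eq_add, ← sub_eq_iff_eq_add', sub_smul _ _ y, one_smul] at h
    rw [AddSubgroup.mem_comap, ← h, ← one_smul R y, ← mul_smul, mul_one, ← sub_smul, one_smul]
    exact sub_mem (sub_mem (AddSubgroup.mem_sup_left (AddSubgroup.mem_sup_right
      (AddSubgroup.subset_closure ⟨p, hp, k + k', by omega, _, cf_mem le_rfl hv hy, rfl⟩)))
      (ih (k + 1) (by omega) (by omega) _ (fil_succ hp hv) y hy))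
      (AddSubgroup.mem_sup_right (cf_mem (by omega) (fil_succ hp hv) (fil_succ hp hy)))

theorem parts_GTB [P.Normal] (c : C2 ρ P u t a b e β) {n : ℕ} {z : C} (hz : z ∈ CF ρ P β n) :
    (-(1 + t)) • z ∈ CF ρ P β n ∧ (t - 1) • z ∈ CF ρ P β n := by
  rw [neg_smul, add_smul, sub_smul, one_smul]
  exact ⟨neg_mem (add_mem hz (tC_GTB c hz)), sub_mem (tC_GTB c hz) hz⟩

theorem claim_GTB [P.Normal] (c : C2 ρ P u t a b e β) {n : ℕ} (ih : ∀ l < n, SS ρ P β u t e l)
    {N : AddSubgroup C} (hN : HN ρ P β u t e n N) (l : ℕ) : ∀ m D, 1 ≤ m → n ≤ l + m →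
      IsDer ρ P β m D → t * D = -(D * t) → ∀ z ∈ CF ρ P β l, D • (-(1 + t)) • z ∈ N := by
  induction l using Nat.strong_induction_on with
  | _ l il =>
  intro m D hm hl hD o z hz
  rw [smul_smul]
  refine (cf_struct c l).trans (c := N.comap (DistribSMul.toAddMonoidHom C (D * -(1 + t))))
    (sup_le (sup_le ((AddSubgroup.closure_le _).2 ?_) ((AddSubgroup.closure_le _).2 ?_))
      fun y hy => ?_) hz
  · rintro _ ⟨x, -, r, rfl⟩
    change (D * -(1 + t)) • β x (e r) ∈ N
    rw [c.ev.q.parts x, map_add, AddMonoidHom.add_apply, c.even _ (c.ev.q.even_part x), zero_add,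
      mul_smul, neg_smul, add_smul, one_smul, c.ev.odd_β c.eqv (c.ev.q.odd_part x)]
    simp
  · rintro _ ⟨p, hp, l', rfl, y, hy, rfl⟩
    obtain ⟨X, Y, hX, hY, eX, oY, e1, -⟩ := split_GTB c (der_sub_one c hp)
    have e2 : D * -(1 + t) * (ρ p - 1) =
        X * (D * -(1 + t)) + (D * X - X * D) * -(1 + t) + D * Y * (t - 1) := by
      rw [mul_assoc, e1]; noncomm_ring
    change (D * -(1 + t)) • (ρ p - 1) • y ∈ N
    rw [smul_smul, e2, add_smul, add_smul, mul_smul, mul_smul, mul_smul, mul_smul]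
    refine add_mem (add_mem (stepA c ih hN le_rfl (by omega) (qd1_GTB le_rfl hX) eX eX
      (hD.shC _ _ (parts_GTB c hy).1) ((flip_GTB o).1 (c.ev.q.even_part y)))
      (il l' (by omega) _ _ (by omega) (by omega) (comm_GTB hD hX) ?_ y hy))
      (stepA c ih hN (by omega) (by omega) (qd2_GTB c hm hD hY o oY) ?_ ?_
        (parts_GTB c hy).2 (c.ev.q.odd_part y))
    · rw [mul_sub, ← mul_assoc, ← mul_assoc, o, eX, neg_mul, mul_assoc D, eX, mul_assoc X, o]
      noncomm_ring
    · rw [← mul_assoc, o, neg_mul, mul_assoc, oY]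
      noncomm_ring
    · rw [mul_neg, ← mul_assoc, oY, neg_mul, mul_assoc, o]
      noncomm_ring
  · change (D * -(1 + t)) • y ∈ N
    rw [mul_smul]
    exact hN.h2 _ (cf_anti (by omega) (hD.shC _ _ (parts_GTB c hy).1))
      ((flip_GTB o).1 (c.ev.q.even_part y))

/-- Steps B and D: the odd part of `D • z` lies in `N` for a derivation `D`. -/
theorem stepB [P.Normal] (c : C2 ρ P u t a b e β) {n : ℕ} (ih : ∀ l < n, SS ρ P β u t e l)
    {N : AddSubgroup C} (hN : HN ρ P β u t e n N) {m l : ℕ} (hm : 1 ≤ m) (hl : n ≤ l + m)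
    {D : R} (hD : IsDer ρ P β m D) {z : C} (hz : z ∈ CF ρ P β l) : (t - 1) • D • z ∈ N := by
  obtain ⟨X, Y, hX, hY, eX, oY, -, e1⟩ := split_GTB c hD
  rw [smul_smul, e1, add_smul, mul_smul, mul_smul]
  exact add_mem (stepA c ih hN hm hl (qd1_GTB hm hX) eX eX (parts_GTB c hz).2 (c.ev.q.odd_part z))
    (claim_GTB c ih hN l m Y hm hl hY oY z hz)

end Pool.Agent.MP_a5588a_al.Solv

end

section

namespace Pool.Agent.MP_a5588a_al.Solv

open scoped commutatorElement

variable {R : Type*} [Ring R] {u : Fin 3 → R} {t a b : R} {H : Type*} [Group H] {ρ : H →* R}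
  {P : Subgroup H} {V : Type*} [AddCommGroup V] [Module R V] {e : Fin 3 → V}
  {M C : Type*} [AddCommGroup M] [Module R M] [AddCommGroup C] [Module R C]

variable {β : V →+ V →+ C}

theorem der_GT [P.Normal] (c : C2 ρ P u t a b e β) {p : H} (hp : p ∈ P) :
    IsDer ρ P β 1 (ρ p - 1) where
  shV _ _ hv := fil_succ hp hv
  shC _ z hz := cf_succ c.eqv hp z hz
  der k l v hv w hw := by
    rw [β_sub_one c.eqv]
    exact cf_mem (by omega) (fil_succ hp hv) (fil_succ hp hw)

theorem core_GT (c : C2 ρ P u t a b e β) {n : ℕ} {N : AddSubgroup C} (hN : HN ρ P β u t e n N)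
    (y y' : Fin 3 → V) (hy : ∀ s, y s ∈ Fil ρ P V n) (hy' : ∀ s, y' s ∈ Fil ρ P V n)
    (oy : ∀ s, t • y s = -y s) (oy' : ∀ s, t • y' s = -y' s)
    (h : ∀ r s, β (y s) (e r) + β (y' r) (e s) ∈ N) (r s : Fin 3) : β (y s) (e r) ∈ N := by
  have q := c.ev.q
  have oQ := fun {x : V} (hx : t • x = -x) r => c.ev.odd_Q c.eqv hx r
  have k0 : ∀ x ∈ Fil ρ P V n, t • x = -x → ∀ r,
      β x (e r) + u r • u 0 • β x (e 0) ∈ N := by
    intro x hx ox r
    have d : u 0 • β x (e 0) - u r • β x (e r) ∈ N := by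
      have h0 := hN.h3 x hx ox 0
      have h1 := hN.h3 x hx ox 1
      fin_cases r
      · simp
      · exact h0
      · have := N.add_mem h0 h1
        rwa [show (0 : Fin 3) + 1 = 1 from rfl, sub_add_sub_cancel] at this
    have := hN.h1 _ d (by rw [smul_sub, oQ ox, oQ ox]; abel) r
    rwa [smul_sub, q.uu r (c.ev.odd_β c.eqv ox r), sub_neg_eq_add, add_comm] at this
  have k1 : ∀ r s, u r • u 0 • β (y s) (e 0) + u s • u 0 • β (y' r) (e 0) ∈ N := fun r s => by
    convert N.sub_mem (N.add_mem (k0 _ (hy s) (oy s) r) (k0 _ (hy' r) (oy' r) s)) (h r s) using 1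
    abel
  have o2 : ∀ s, t • (u 0 • β (y s) (e 0) + u 0 • β (y' s) (e 0)) =
      -(u 0 • β (y s) (e 0) + u 0 • β (y' s) (e 0)) := fun s => by
    rw [smul_add, oQ (oy s), oQ (oy' s), neg_add]
  have k2 : ∀ s, u 0 • β (y s) (e 0) + u 0 • β (y' s) (e 0) ∈ N := fun s => by
    have h1 := k1 s s
    rw [← smul_add] at h1
    have := hN.h1 _ h1 (Q8.odd_smul (q.tu s) (o2 s)) s
    rwa [q.uu s (o2 s), N.neg_mem_iff] at this
  have k3 := q.three_index N hN.h1 (fun s => u 0 • β (y s) (e 0)) (fun s => oQ (oy s) 0)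
    (fun r s => by
      convert N.sub_mem (k1 r s) (hN.h1 _ (k2 r) (o2 r) s) using 1
      rw [smul_add]; abel) s
  have := N.sub_mem (k0 _ (hy s) (oy s) r) (hN.h1 _ k3 (oQ (oy s) 0) r)
  rwa [add_sub_cancel_right] at this

theorem gt [P.Normal] (c : C2 ρ P u t a b e β) (n : ℕ) : SS ρ P β u t e n := by
  induction n using Nat.strong_induction_on with
  | _ n ih =>
  intro N hN
  have q := c.ev.q
  obtain ⟨g, hg⟩ := c.ev.ht
  let S : AddSubgroup C := N.comap (DistribSMul.toAddMonoidHom C (t - 1))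
  have mS : ∀ z, z ∈ S ↔ (t - 1) • z ∈ N := fun z => Iff.rfl
  have f1 : ∀ z ∈ CF ρ P β (n + 1), z ∈ S := fun z hz => by
    refine (mS z).mpr (hN.h2 _ ?_ (q.odd_part z))
    rw [sub_smul, one_smul, ← hg]
    exact sub_mem (cf_inv c.eqv _ g z hz) hz
  have mv : ∀ p ∈ P, ∀ k l, n ≤ k + l + 1 → ∀ v ∈ Fil ρ P V k, ∀ w ∈ Fil ρ P V l,
      β ((ρ p - 1) • v) w + β v ((ρ p - 1) • w) ∈ S := by
    intro p hp k l hn v hv w hw
    have h1 : (ρ p - 1) • β v w ∈ S :=
      stepB c ih hN le_rfl hn (der_GT c hp) (cf_mem le_rfl hv hw)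
    have h2 := f1 _ (cf_mem (β := β) (by omega) (fil_succ hp hv) (fil_succ hp hw))
    rw [← β_sub_one c.eqv] at h2
    convert S.sub_mem h1 h2 using 1
    abel
  have main : ∀ x ∈ Fil ρ P V n, ∀ r, β x (e r) ∈ S := by
    intro x hx r
    have hw := words (ρ := ρ) (P := P) (Set.range e)
      (fun L hL => c.ev.gen L fun p hp r => hL p hp _ ⟨r, rfl⟩)
      (fun l => {w | ∃ w' : R, (∀ k, ∀ v ∈ Fil ρ P V k, w • v ∈ Fil ρ P V (k + l)) ∧
        (∀ k, ∀ v ∈ Fil ρ P V k, w' • v ∈ Fil ρ P V (k + l)) ∧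
        ∀ k k', n ≤ k + k' + l → ∀ v ∈ Fil ρ P V k, ∀ v' ∈ Fil ρ P V k',
          β (w • v) v' - β v (w' • v') ∈ S})
      ⟨1, fun k v hv => by simpa using hv, fun k v hv => by simpa using hv,
        fun k k' _ v _ v' _ => by simp⟩
      (by
        rintro l w ⟨w', h1, h2, h3⟩ p hp
        refine ⟨-(w' * (ρ p - 1)), fun k v hv => ?_, fun k v hv => ?_, fun k k' hn v hv v' hv' => ?_⟩
        · rw [mul_smul]; exact fil_succ hp (h1 k v hv)
        · rw [neg_smul, mul_smul]
          have := h2 _ _ (fil_succ hp hv)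
          rw [add_right_comm] at this
          exact neg_mem this
        · have m1 := mv p hp _ _ (by omega) _ (h1 k v hv) _ hv'
          have m2 := h3 k (k' + 1) (by omega) v hv _ (fil_succ hp hv')
          convert S.sub_mem m1 m2 using 1
          rw [neg_smul, mul_smul, mul_smul, map_neg]; abel) n
    refine (hw.trans (sup_le ((AddSubgroup.closure_le (S.comap (β.flip (e r)))).mpr ?_)
      fun z hz => ?_)) hx
    · rintro _ ⟨w, ⟨w', h1, h2, h3⟩, _, ⟨s, rfl⟩, rfl⟩
      have fl : ∀ x r, (t - 1) • β x (e r) = β ((t - 1) • x) (e r) := fun x r => by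
        rw [sub_smul, sub_smul, one_smul, one_smul, ← c.ev.et c.eqv, c.ev.te, map_sub,
          AddMonoidHom.sub_apply]
      have sk : ∀ v w, β v w = -β w v := fun v w => by
        have := c.alt (v + w)
        simp only [map_add, AddMonoidHom.add_apply, c.alt, zero_add, add_zero] at this
        exact eq_neg_of_add_eq_zero_right this
      have fi : ∀ v ∈ Fil ρ P V (0 + n), (t - 1) • v ∈ Fil ρ P V n := fun v hv => by
        rw [zero_add] at hv
        rw [sub_smul, one_smul, ← hg]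
        exact sub_mem (fil_inv _ g v hv) hv
      show (t - 1) • β (w • e s) (e r) ∈ N
      rw [fl]
      refine core_GT c hN (fun s => (t - 1) • w • e s) (fun s => (t - 1) • w' • e s)
        (fun s => fi _ (h1 0 _ trivial)) (fun s => fi _ (h2 0 _ trivial))
        (fun s => q.odd_part _) (fun s => q.odd_part _) (fun r s => ?_) r s
      have := (mS _).mp (h3 0 0 (by omega) (e s) trivial (e r) trivial)
      rwa [sk (e s), sub_neg_eq_add, smul_add, fl, fl] at this
    · exact f1 _ (cf_mem (l := 0) le_rfl hz trivial)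
  have all : ∀ l k, n ≤ k + l → ∀ v ∈ Fil ρ P V k, ∀ w ∈ Fil ρ P V l, β v w ∈ S := by
    intro l
    induction l with
    | zero =>
      intro k hn v hv w _
      have hv' : v ∈ Fil ρ P V n := fil_anti hn hv
      have := c.ev.gen (S.comap (β v)) fun p hp r => by
        rw [AddSubgroup.mem_comap, ← add_sub_cancel (e r) (ρ p • e r), map_add]
        exact S.add_mem (main v hv' r) (f1 _ (cf_mem (l := 1) le_rfl hv' (low_mem hp trivial)))
      exact (this.ge (AddSubgroup.mem_top w) :)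
    | succ l ihl =>
      intro k hn v hv w hw
      refine low_le_iff (L := S.comap (β v)).mpr (fun p hp w hw => ?_) hw
      have := S.sub_mem (mv p hp k l hn v hv w hw) (ihl (k + 1) (by omega) _ (fil_succ hp hv) w hw)
      rwa [add_sub_cancel_left, sub_smul, one_smul] at this
  intro z hz ho
  have := (mS z).mp (cf_le_iff.mpr (fun k l => all l k) hz)
  rwa [q.odd_fix ho] at this

end Pool.Agent.MP_a5588a_al.Solv

end
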