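import Pool.Agent.Mg.Fa5588aa.G1ab97f
import Pool.Agent.Mg.Fa5588aa.G7c498e

section

namespace Pool.Agent.MP_a5588a_al.Solv

open scoped commutatorElement

/-- Part C as a statement. -/
def PartC.{u} : Prop :=
  ∀ (H : Type u) [Group H] [Finite H] (P Q K : Subgroup H) (i j k a : H),
    Ctx P Q K i j k a → ¬ Good i j Q → ∃ C, Res P Q a C

end Pool.Agent.MP_a5588a_al.Solv

end

section

namespace Pool.Agent.MP_a5588a_al.Solv

open scoped commutatorElement

theorem fix_QG {G : Type*} [Group G] (K : Subgroup G) [Finite K] (hK : ¬ 3 ∣ Nat.card K) {a x : G}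
    (ha : ∀ y ∈ K, a⁻¹ * y * a ∈ K) (hx : x ∈ K) (h3 : a ^ 3 = 1) (h : (a * x) ^ 3 = 1) :
    ∃ κ ∈ K, a * x = κ⁻¹ * a * κ := by
  have := Fintype.ofFinite K
  let f : K → K := fun y => ⟨a⁻¹ * y * a * x, K.mul_mem (ha _ y.2) hx⟩
  have hf : ∀ y, f (f (f y)) = y := fun y => Subtype.ext <| by
    change a⁻¹ * (a⁻¹ * (a⁻¹ * y * a * x) * a * x) * a * x = y
    calc _ = (a ^ 3)⁻¹ * y * (a * x) ^ 3 := by simp only [pow_succ]; group
      _ = y := by rw [h3, h]; group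
  obtain ⟨κ, hκ⟩ := Equiv.Perm.exists_fixed_point_of_prime (p := 3) (n := 1)
    (by rwa [← Nat.card_eq_fintype_card]) (σ := ⟨f, f ∘ f, hf, hf⟩) (Equiv.ext hf)
  have e : a⁻¹ * κ * a * x = κ := congrArg Subtype.val hκ
  exact ⟨κ, κ.2, by
    calc a * x = (κ : G)⁻¹ * a * (a⁻¹ * κ * a * x) := by group
      _ = _ := by rw [e]⟩

theorem conj_QG {R : Type*} [Ring R] (κ a : Rˣ) :
    ((κ⁻¹ * a * κ : Rˣ) : R) - 1 = ↑κ⁻¹ * ((a : R) - 1) * κ := by
  simp [mul_sub, sub_mul]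

theorem qg {R : Type*} [Ring R] (h3 : (3 : R) = 0) (K : Subgroup Rˣ) [Finite K]
    (hK : ¬ 3 ∣ Nat.card K) (a i j k : Rˣ) (hi : i ∈ K) (ha : ∀ x ∈ K, a⁻¹ * x * a ∈ K)
    (hj : j = a⁻¹ * i * a) (hk : k = a⁻¹ * j * a) (hkji : k * j * i = 1)
    (hq : ((a : R) - 1) * ((a : R) - 1) = 0) :
    i ^ 4 = 1 ∧ i ^ 2 = j ^ 2 ∧ i * j * i = j ∧
      ((i : R) - 1) * (1 + (i : R) * i) = 0 ∧ ((j : R) - 1) * (1 + (i : R) * i) = 0 := by
  rcases subsingleton_or_nontrivial R with hR | hR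
  · exact ⟨Subsingleton.elim _ _, Subsingleton.elim _ _, Subsingleton.elim _ _,
      Subsingleton.elim _ _, Subsingleton.elim _ _⟩
  have : CharP R 3 := (CharP.charP_iff_prime_eq_zero Nat.prime_three).2 (by simpa using h3)
  have t : ∀ x : R, x + x + x = 0 := fun x => by
    rw [show x + x + x = 3 * x by noncomm_ring, h3, zero_mul]
  obtain ⟨n, hn⟩ : ∃ n : ℕ, ∀ x ∈ K, x ^ 3 ^ (n + 1) = x := by
    obtain ⟨n, e⟩ := Nat.exists_eq_succ_of_ne_zero (Nat.totient_pos.2 (Nat.card_pos (α := K))).ne'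
    refine ⟨n, fun x hx => (pow_eq_pow_iff_modEq.2 ?_).trans (pow_one x)⟩
    exact (e ▸ Nat.ModEq.pow_totient ((Nat.Prime.coprime_iff_not_dvd Nat.prime_three).2 hK)).of_dvd
      (K.orderOf_dvd_natCard hx)
  have hR : ∀ x ∈ K, (x : R) ^ 3 ^ (n + 1) = x := fun x hx => by
    rw [← Units.val_pow_eq_pow_val, hn x hx]
  have nil : ∀ x : R, x * x = 0 → x ^ 3 ^ (n + 1) = x → x = 0 := fun x h e => by
    rw [← e, pow_succ', pow_mul, pow_three', h, zero_mul, zero_pow (by positivity)]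
  have a3 : a ^ 3 = 1 := Units.ext <| by
    rw [Units.val_pow_eq_pow_val, Units.val_one]
    linear_combination (norm := noncomm_ring) hq * ((a : R) - 1) + t ((a : R) * a - a)
  have b3 : (a * i) ^ 3 = 1 := by
    calc _ = a ^ 3 * (k * j * i) := by rw [hk, hj]; simp only [pow_succ]; group
      _ = 1 := by rw [a3, hkji, one_mul]
  have hb : (((a * i : Rˣ) : R) - 1) * (((a * i : Rˣ) : R) - 1) = 0 := by
    obtain ⟨κ, -, e⟩ := fix_QG K hK ha hi a3 b3
    rw [e, conj_QG, mul_assoc, ← mul_assoc (κ : R), ← mul_assoc (κ : R), κ.mul_inv, one_mul,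
      ← mul_assoc, mul_assoc _ _ ((a : R) - 1), hq, mul_zero, zero_mul]
  have iv : ∀ x : Rˣ, ((x : R) - 1) * ((x : R) - 1) = 0 → ((x⁻¹ : Rˣ) : R) = 1 + 1 - x :=
    fun x h => Units.inv_eq_of_mul_eq_one_right <| by linear_combination (norm := noncomm_ring) -h
  obtain ⟨c, hc⟩ : ∃ c : R, c = ((a : R) - 1) * (((a * i : Rˣ) : R) - 1) +
    (((a * i : Rˣ) : R) - 1) * ((a : R) - 1) := ⟨_, rfl⟩
  have ca : Commute (a : R) c := by
    rw [hc]
    generalize ((a * i : Rˣ) : R) = b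
    unfold Commute SemiconjBy
    linear_combination (norm := noncomm_ring) hq * (b - 1) - (b - 1) * hq
  have ci : (i : R) + ↑i⁻¹ = 1 + 1 - c := by
    have e1 : (i : R) = (1 + 1 - a) * ↑(a * i) := by
      rw [← iv a hq, ← Units.val_mul, inv_mul_cancel_left]
    have e2 : ((i⁻¹ : Rˣ) : R) = (1 + 1 - ↑(a * i)) * a := by
      rw [← iv _ hb, ← Units.val_mul, mul_inv_rev, inv_mul_cancel_right]
    rw [hc, e2]
    linear_combination (norm := noncomm_ring) e1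
  let Z : Subgroup Rˣ := ⟨⟨⟨{x | Commute (x : R) c}, fun h h' => h.mul_left h'⟩,
    Commute.one_left c⟩, fun h => h.units_inv_left⟩
  have : Finite ↥(K ⊓ Z) := .of_injective _ (Subgroup.inclusion_injective inf_le_left)
  have hK' : ¬3 ∣ Nat.card ↥(K ⊓ Z) := fun h => hK (h.trans (Subgroup.card_dvd_of_le inf_le_left))
  have ha' : ∀ x ∈ K ⊓ Z, a⁻¹ * x * a ∈ K ⊓ Z := fun x h =>
    ⟨ha x h.1, Z.mul_mem (Z.mul_mem (Z.inv_mem ca) h.2) ca⟩
  have c0 : c = 1 + 1 - (i + ↑i⁻¹) := by rw [ci, sub_sub_cancel]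
  have ii : ∀ x : Rˣ, Commute (x : R) ↑x⁻¹ := fun x => (Commute.refl _).units_inv_right
  have hi' : i ∈ K ⊓ Z := ⟨hi, show Commute (i : R) c from c0 ▸ ((Commute.one_right _).add_right
    (.one_right _)).sub_right ((Commute.refl _).add_right (ii i))⟩
  have two : (1 + 1 : R) ^ 3 ^ (n + 1) = 1 + 1 := by
    rw [add_pow_char_pow_of_commute _ _ (.refl _), one_pow]
  have cm2 : ∀ x : R, Commute (1 + 1) x := fun x => (Commute.one_left _).add_left (.one_left _)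
  have cN : c ^ 3 ^ (n + 1) = c := by
    rw [c0, sub_pow_char_pow_of_commute _ _ (cm2 _), add_pow_char_pow_of_commute _ _ (ii i), two,
      hR i hi, hR _ (K.inv_mem hi)]
  obtain ⟨g, hg⟩ : ∃ g, g = a * (a * i) := ⟨_, rfl⟩
  have g3 : g ^ 3 ∈ K ⊓ Z := by
    rw [show g ^ 3 = a ^ 3 * (a⁻¹ * i * a) * a ^ 3 * (a⁻¹ * (a⁻¹ * i * a) * a) * i by
      simp [hg, pow_succ, mul_assoc], a3, one_mul, mul_one]
    exact mul_mem (mul_mem (ha' _ hi') (ha' _ (ha' _ hi'))) hi'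
  obtain ⟨s, hs⟩ : ∃ s, s = g ^ 3 ^ (n + 1) := ⟨_, rfl⟩
  have sK : s ∈ K ⊓ Z := by
    rw [hs, pow_succ', pow_mul]
    exact pow_mem g3 _
  have gs : Commute g s⁻¹ := hs ▸ ((Commute.refl g).pow_right _).inv_right
  have w3 : (a * a * (i * s⁻¹)) ^ 3 = 1 := by
    rw [show a * a * (i * s⁻¹) = g * s⁻¹ by rw [hg]; group,
      ← hn ((g * s⁻¹) ^ 3) (gs.mul_pow 3 ▸ K.mul_mem g3.1 (pow_mem (K.inv_mem sK.1) 3)),
      ← pow_mul, mul_comm 3,
      pow_mul, gs.mul_pow, ← hs, hn _ (K.inv_mem sK.1), mul_inv_cancel, one_pow]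
  have cg : (g : R) + ↑g⁻¹ = 1 + 1 + c := by
    rw [hg, mul_inv_rev, Units.val_mul, Units.val_mul (a * i)⁻¹, iv a hq, iv _ hb, hc]
    noncomm_ring
  have cs : (s : R) + ↑s⁻¹ = 1 + 1 + c := by
    rw [hs, ← inv_pow, Units.val_pow_eq_pow_val, Units.val_pow_eq_pow_val,
      ← add_pow_char_pow_of_commute _ _ (ii g), cg, add_pow_char_pow_of_commute _ _ (cm2 _), two, cN]
  have key : ∀ κ ∈ K ⊓ Z, ∀ x : R, ↑κ⁻¹ * x * κ * (c * c + c) = 0 ↔ x * (c * c + c) = 0 :=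
    fun κ h x => by
      have e : Commute (κ : R) c := h.2
      rw [mul_assoc, ((e.mul_right e).add_right e).eq, ← mul_assoc, Units.mul_left_eq_zero,
        mul_assoc, Units.mul_right_eq_zero]
  have ad : ((a : R) - 1) * (c * c + c) = 0 := by
    obtain ⟨κ, hκ, e⟩ := fix_QG (K ⊓ Z) hK' (a := a * a) (fun y hy => by
      rw [show (a * a)⁻¹ * y * (a * a) = a⁻¹ * (a⁻¹ * y * a) * a by group]
      exact ha' _ (ha' _ hy)) (mul_mem hi' (inv_mem sK)) (by
        rw [(Commute.refl a).mul_pow, a3, one_mul]) w3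
    rw [show a * a * (i * s⁻¹) = g * s⁻¹ by rw [hg]; group] at e
    have e1 : ((g * s⁻¹ : Rˣ) : R) - 1 = -(↑κ⁻¹ * ((a : R) - 1) * κ) := by
      rw [e, conj_QG, Units.val_mul]
      linear_combination (norm := noncomm_ring) ↑κ⁻¹ * (hq + t ((a : R) - 1)) * κ
    have e2 := iv (g * s⁻¹) (by
      rw [e1, neg_mul_neg, mul_assoc, ← mul_assoc (κ : R), ← mul_assoc (κ : R), κ.mul_inv, one_mul,
        ← mul_assoc, mul_assoc _ _ ((a : R) - 1), hq, mul_zero, zero_mul])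
    have e3 : (g : R) = ↑(g * s⁻¹) * s := by rw [← Units.val_mul, inv_mul_cancel_right]
    have e4 : ((g⁻¹ : Rˣ) : R) = (1 + 1 - ↑(g * s⁻¹)) * ↑s⁻¹ := by
      rw [← e2, ← Units.val_mul, ← mul_inv_rev, gs.eq, mul_inv_cancel_left]
    have e5 : (((g * s⁻¹ : Rˣ) : R) - 1) * (s - ↑s⁻¹) = 0 := by
      linear_combination (norm := noncomm_ring) cg - cs - e3 - e4
    have e6 : ((s : R) - ↑s⁻¹) * (s - ↑s⁻¹) = c * c + c := by
      linear_combination (norm := noncomm_ring) cs * ((s : R) + ↑s⁻¹) + (1 + 1 + c) * cs -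
        s.mul_inv - s.mul_inv - s.inv_mul - s.inv_mul + t c
    rw [← key κ hκ, ← neg_eq_zero, ← neg_mul, ← e1, ← e6, ← mul_assoc, e5, zero_mul]
  have d0 : c * c + c = 0 := by
    obtain ⟨κ, hκ, e⟩ := fix_QG (K ⊓ Z) hK' ha' hi' a3 b3
    have bd : (((a * i : Rˣ) : R) - 1) * (c * c + c) = 0 := by rw [e, conj_QG, key κ hκ, ad]
    have cd : c * (c * c + c) = 0 := by
      linear_combination (norm := noncomm_ring) hc * (c * c + c) + ((a : R) - 1) * bd +
        (((a * i : Rˣ) : R) - 1) * ad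
    refine nil _ (by linear_combination (norm := noncomm_ring) c * cd + cd) ?_
    rw [add_pow_char_pow_of_commute _ _ ((Commute.refl c).mul_left (.refl c)),
      (Commute.refl c).mul_pow, cN]
  have fin : ∀ u ∈ K ⊓ Z, (u : R) + ↑u⁻¹ = 1 + 1 - c →
      ((u : R) - 1) * (1 + c) = 0 ∧ (u : R) * u = 1 - c := fun u hu e => by
    have h1 : Commute (u : R) c := hu.2
    have h2 : Commute ((u : R) - 1) (1 + c) :=
      (Commute.one_right _).add_right (h1.sub_left (.one_left _))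
    have h4 : (u : R) * u + 1 = u + u - u * c := by
      linear_combination (norm := noncomm_ring) (u : R) * e - u.mul_inv
    have h5 : ((u : R) - 1) * (1 + c) = 0 := by
      refine nil _ ?_ ?_
      · rw [h2.symm.mul_mul_mul_comm]
        linear_combination (norm := noncomm_ring) h4 * ((1 + c) * (1 + c)) - u * d0 * (1 + c)
      · rw [h2.mul_pow, sub_pow_char_pow_of_commute _ _ (.one_right _),
          add_pow_char_pow_of_commute _ _ (.one_left _), one_pow, cN, hR u hu.1]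
    exact ⟨h5, by linear_combination (norm := noncomm_ring) h4 - h5 + t u - t 1⟩
  have cj : ∀ u : Rˣ, (u : R) + ↑u⁻¹ = 1 + 1 - c →
      ((a⁻¹ * u * a : Rˣ) : R) + ↑(a⁻¹ * u * a)⁻¹ = 1 + 1 - c := fun u e => by
    rw [show (a⁻¹ * u * a)⁻¹ = a⁻¹ * u⁻¹ * a by group]
    simp only [Units.val_mul]
    rw [← add_mul, ← mul_add, e, mul_assoc, ← ((cm2 _).symm.sub_right ca).eq, a.inv_mul_cancel_left]
  obtain ⟨i1, i2⟩ := fin i hi' ci
  obtain ⟨j1, j2⟩ := fin j (hj ▸ ha' i hi') (hj ▸ cj i ci)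
  obtain ⟨-, k2⟩ := fin k (hk ▸ hj ▸ ha' _ (ha' i hi')) (hk ▸ hj ▸ cj _ (cj i ci))
  have ij : i * i = j * j := Units.ext (i2.trans j2.symm)
  have jk : j * j = k * k := Units.ext (j2.trans k2.symm)
  have i4 : i * i * (i * i) = 1 := Units.ext <| by
    rw [Units.val_mul, Units.val_mul, i2, Units.val_one]
    linear_combination (norm := noncomm_ring) d0 - t c
  refine ⟨by rw [← i4, ← sq, ← sq, ← pow_mul], by rw [sq, sq, ij], ?_, ?_, ?_⟩
  · have e : j * i = k⁻¹ := eq_inv_of_mul_eq_one_right (by rw [← mul_assoc, hkji])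
    rw [ij, jk] at i4
    calc i * j * i = j⁻¹ * ((j * i) * (j * i)) := by group
      _ = j⁻¹ * (k * k) := by rw [e, ← mul_inv_rev, inv_eq_of_mul_eq_one_right i4]
      _ = j := by rw [← jk, inv_mul_cancel_left]
  · rw [i2]
    linear_combination (norm := noncomm_ring) t (i - 1) - i1
  · rw [i2]
    linear_combination (norm := noncomm_ring) t (j - 1) - j1

end Pool.Agent.MP_a5588a_al.Solv

end

section

namespace Pool.Agent.MP_a5588a_al.Solv

open scoped commutatorElement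

section aux

variable {G V : Type*} [Group G] [AddCommGroup V] {A B : Subgroup G} [hA : A.Normal]
  {σ : G →* AddMonoid.End V} {π : G → V} (h : Sect (MonoidHom.id G) A B σ π)
include h

theorem comm_NonQuad (g : G) {x : G} (hx : x ∈ A) : ⁅g, x⁆ ∈ B ↔ σ g (π x) = π x := by
  rw [← h.ker ⁅g, x⁆ (A.mul_mem (hA.conj_mem x hx g) (A.inv_mem hx)),
    ← sub_eq_zero (a := σ g (π x)),
    ← h.comm (fun g x hx => hA.conj_mem x hx g) g hx]
  rfl

theorem quad_NonQuad (g : G) : (∀ l ∈ A, ⁅g, ⁅g, l⁆⁆ ∈ B) ↔ (σ g - 1) * (σ g - 1) = 0 := by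
  have e : ∀ l ∈ A, ⁅g, ⁅g, l⁆⁆ ∈ B ↔ ((σ g - 1) * (σ g - 1)) (π l) = 0 := fun l hl => by
    have := h.comm (fun g x hx => hA.conj_mem x hx g) g hl
    rw [MonoidHom.id_apply] at this
    rw [comm_NonQuad h g (x := ⁅g, l⁆) (A.mul_mem (hA.conj_mem l hl g) (A.inv_mem hl)), this,
      ← sub_eq_zero]
    rfl
  refine ⟨fun q => AddMonoidHom.ext fun v => ?_, fun q l hl => (e l hl).2 (by rw [q]; rfl)⟩
  obtain ⟨l, hl, rfl⟩ := h.surj v
  exact (e l hl).1 (q l hl)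

end aux

variable {G : Type*} [Group G] [Finite G] {P Q K E E₀ : Subgroup G} {i j k a : G}

theorem low_NonQuad (c : Ctx P Q K i j k a) (m : MinBad Q i j E E₀) : ⁅E, P⁆ ≤ E₀ := by
  have := m.nE
  have := c.nP
  exact (m.max _ inferInstance (Subgroup.commutator_le_left _ _)).resolve_left
    fun e => m.bad (m.good.mono ((comm_lt c.pP (m.EQ.trans c.QP) e.ge).le.trans bot_le))

theorem nonquad (c : Ctx P Q K i j k a) (m : MinBad Q i j E E₀) :
    ∃ l ∈ E, ⁅a, ⁅a, l⁆⁆ ∉ E₀ := by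
  have hN := m.nE
  have hN₀ := m.nE₀
  have hEP : E ≤ P := m.EQ.trans c.QP
  obtain ⟨V, _, σ, π, h⟩ := exists_sect (MonoidHom.id G) E E₀ m.le
    (fun g x hx => hN.conj_mem x hx g) (fun g x hx => hN₀.conj_mem x hx g)
    fun x hx y hy => low_NonQuad c m (Subgroup.commutator_mem_commutator hx (hEP hy))
  have h3 : ∀ x ∈ E, x ^ 3 ∈ E₀ := by
    have hF : ∀ x, x ∈ h.pre (nsmulAddMonoidHom 3).ker ↔ x ∈ E ∧ x ^ 3 ∈ E₀ := fun x =>
      and_congr_right fun hx => by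
        rw [← h.ker _ (E.pow_mem hx 3), h.pow hx]
        rfl
    have hn : (h.pre (nsmulAddMonoidHom 3).ker).Normal := ⟨fun x hx g => by
      rw [hF, conj_pow]
      exact ⟨hN.conj_mem x hx.1 g, hN₀.conj_mem _ ((hF x).1 hx).2 g⟩⟩
    rcases m.max _ hn (fun x hx => hx.1) with e | e
    · exact fun x hx => ((hF x).1 (e.ge hx)).2
    · refine absurd (m.good.mono fun x hx => ?_) m.bad
      obtain ⟨n, hn⟩ := pow_Good c.pP (hEP hx)
      have : ∀ n : ℕ, x ^ 3 ^ n ∈ E₀ → x ∈ E₀ := fun n => by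
        induction n with
        | zero => simp
        | succ n ih =>
          exact fun q => ih (e ((hF _).2 ⟨E.pow_mem hx _, by rwa [← pow_mul, ← pow_succ]⟩))
      exact this n (hn ▸ E₀.one_mem)
  by_contra hq
  have hq' := (quad_NonQuad h a).1 fun l hl => not_not.1 fun e => hq ⟨l, hl, e⟩
  let τ := σ.toHomUnits
  have : Finite (K.map τ) := Finite.of_surjective _ (τ.subgroupMap_surjective K)
  obtain ⟨q1, q2, q3, q4, q5⟩ := qg (h.three h3) (K.map τ)
    (fun d => c.cK (d.trans (Subgroup.card_map_dvd K τ))) (τ a) (τ i) (τ j) (τ k)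
    (Subgroup.mem_map_of_mem τ c.iK)
    (by
      rintro _ ⟨x, hx, rfl⟩
      exact ⟨_, c.aK x hx, by rw [map_mul, map_mul, map_inv]⟩)
    (by rw [c.hj, map_mul, map_mul, map_inv]) (by rw [c.hk, map_mul, map_mul, map_inv])
    (by rw [← map_mul, ← map_mul, c.kji, map_one]) hq'
  have tr : ∀ g, τ g = 1 → ∀ x ∈ E, ⁅g, x⁆ ∈ E₀ := fun g e x hx => by
    rw [comm_NonQuad h g hx, show σ g = 1 from congrArg Units.val e]
    rfl
  have fx : ∀ g, (σ g - 1) * (1 + σ i * σ i) = 0 → ∀ x ∈ E, ⁅i ^ 2, x⁆ ∈ E₀ → ⁅g, x⁆ ∈ E₀ := by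
    intro g e x hx q
    rw [comm_NonQuad h _ hx, pow_two, map_mul] at q
    have e1 : (σ g - 1) (π x + (σ i * σ i) (π x)) = 0 := DFunLike.congr_fun e (π x)
    have e2 : (3 : ℕ) • (σ g - 1) (π x) = 0 := DFunLike.congr_fun (h.three h3) _
    rw [q, map_add] at e1
    rw [succ_nsmul, two_nsmul, e1, zero_add] at e2
    exact (comm_NonQuad h g hx).2 (sub_eq_zero.1 e2)
  exact m.bad (good_ext c hEP m.le m.good (tr _ (by rw [map_pow, q1]))
    (tr _ (by rw [map_mul, map_inv, map_pow, map_pow, q2, mul_inv_cancel]))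
    (tr _ (by rw [map_mul, map_inv, map_mul, map_mul, q3, mul_inv_cancel]))
    fun x hx q => ⟨fx i q4 x hx q, fx j q5 x hx q⟩)

/-- Non-quadratic action passes from `a` to the elements of the cosets `a P`, `a⁻¹ P`. -/
theorem n1_all {P C : Subgroup G} [P.Normal] [C.Normal] (hCP : C ≤ P) {a y : G}
    (hy : a⁻¹ * y ∈ P ∨ a * y ∈ P) (h : ∃ l ∈ C, ⁅a, ⁅a, l⁆⁆ ∉ ⁅C, P⁆) :
    ∃ l ∈ C, ⁅y, ⁅y, l⁆⁆ ∉ ⁅C, P⁆ := by
  have hN : C.Normal := inferInstance
  have hN₀ : ⁅C, P⁆.Normal := inferInstance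
  obtain ⟨V, _, σ, π, s⟩ := exists_sect (MonoidHom.id G) C ⁅C, P⁆ (Subgroup.commutator_le_left _ _)
    (fun g x hx => hN.conj_mem x hx g) (fun g x hx => hN₀.conj_mem x hx g)
    fun x hx y hy => Subgroup.commutator_mem_commutator hx (hCP hy)
  have tr : ∀ p ∈ P, σ p = 1 := fun p hp => s.triv (fun g x hx => hN.conj_mem x hx g) fun x hx =>
    Subgroup.commutator_comm C P ▸ Subgroup.commutator_mem_commutator hp hx
  by_contra hq
  have q := (quad_NonQuad s y).1 fun l hl => not_not.1 fun e => hq ⟨l, hl, e⟩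
  obtain ⟨l, hl, e⟩ := h
  refine e ((quad_NonQuad s a).2 ?_ l hl)
  rcases hy with hy | hy
  · rwa [← mul_inv_cancel_left a y, map_mul, tr _ hy, mul_one] at q
  · have e1 : σ a * σ y = 1 := by rw [← map_mul, tr _ hy]
    have e2 : σ y * σ a = 1 := by
      rw [← map_mul, tr _ (by simpa [mul_assoc] using ‹P.Normal›.conj_mem _ hy a⁻¹)]
    calc _ = σ a * ((σ y - 1) * (σ y - 1)) * σ a := by
          rw [← mul_assoc, mul_assoc, mul_sub (σ a), sub_mul (σ y), e1, e2, mul_one, one_mul,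
            ← neg_mul_neg, neg_sub]
      _ = 0 := by rw [q, mul_zero, zero_mul]

end Pool.Agent.MP_a5588a_al.Solv

end

section

namespace Pool.Agent.MP_a5588a_al.Solv

open scoped commutatorElement

universe u

section
variable {H G : Type*} [Group H] [Group G] {f : H →* G}

theorem all_Amb {K : Subgroup H} {φ : G → Prop} : (∀ y ∈ K.map f, φ y) ↔ ∀ x ∈ K, φ (f x) :=
  ⟨fun h x hx => h _ ⟨x, hx, rfl⟩, by rintro h _ ⟨x, hx, rfl⟩; exact h x hx⟩

theorem ex_Amb {K : Subgroup H} {φ : G → Prop} : (∃ y ∈ K.map f, φ y) ↔ ∃ x ∈ K, φ (f x) :=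
  ⟨by rintro ⟨_, ⟨x, hx, rfl⟩, h⟩; exact ⟨x, hx, h⟩, fun ⟨x, hx, h⟩ => ⟨_, ⟨x, hx, rfl⟩, h⟩⟩

theorem iff_Amb {Q E P C : Subgroup G} : Wit Q E P C ↔ Q ≤ P ∧ P ≤ E ∧ Idx3 E P ∧ C ≤ Q ∧
    (∀ c ∈ C, c ^ 3 = 1) ∧ (∀ y ∈ E, ∀ c ∈ C, y * c * y⁻¹ ∈ C) ∧
    (∀ c ∈ C, ∀ z ∈ ⁅C, P⁆, c * z = z * c) ∧ (∀ y ∈ E, y ∉ P → ∃ l ∈ C, ⁅y, ⁅y, l⁆⁆ ∉ ⁅C, P⁆) ∧
    ((∀ c ∈ C, ∀ d ∈ C, c * d = d * c) ∨ ∀ y ∈ E, y ∉ P → Rank2 C y) :=
  ⟨fun h => ⟨h.1, h.2, h.3, h.4, h.5, h.6, h.7, h.8, h.9⟩,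
    fun ⟨a, b, c, d, e, f, g, h, i⟩ => ⟨a, b, c, d, e, f, g, h, i⟩⟩

/-- Witnesses are transported along injective homomorphisms. -/
theorem wit_map_Amb (hf : Function.Injective f) {Q E P C : Subgroup H} :
    Wit (Q.map f) (E.map f) (P.map f) (C.map f) ↔ Wit Q E P C := by
  simp only [iff_Amb, Idx3, Rank2, ← Subgroup.map_commutator, all_Amb, ex_Amb, ← map_inv,
    ← map_mul, ← map_pow, ← map_commutatorElement, Subgroup.mem_map_iff_mem hf, hf.eq_iff, ne_eq,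
    map_eq_one_iff f hf, Subgroup.map_le_map_iff_of_injective hf]

theorem good_Amb (hf : Function.Injective f) {Q : Subgroup H} {i j : H} (h : Good i j Q) :
    Good (f i) (f j) (Q.map f) := by
  refine ⟨⟨all_Amb.2 fun x hx => ?_, all_Amb.2 fun x hx => ?_, all_Amb.2 fun x hx => ?_⟩,
    all_Amb.2 fun x hx c => ?_⟩
  · simpa using (h.rel.r1 x hx).map f
  · simpa using (h.rel.r2 x hx).map f
  · simpa using (h.rel.r3 x hx).map f
  · rw [← map_pow] at c
    exact (h.fix x hx (Commute.of_map hf c)).imp (·.map f) (·.map f)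

end

/-- Part C inside an ambient group: a witness for `Q ≤ P ≤ E`. -/
theorem partC_amb (hC : PartC.{u}) {G : Type u} [Group G] [Finite G] {Q P E S : Subgroup G}
    [Q.Normal] (hQP : Q ≤ P) (hPE : P ≤ E) (hE : IsPGroup 3 E) (hS : ¬ 3 ∣ Nat.card S) {a g : G}
    (ha : a ∈ E) (haP : a ∉ P) (hg : g ∈ S) (haS : ∀ s ∈ S, a⁻¹ * s * a ∈ S)
    (ha3 : a ^ 3 ∈ Q) (ha3S : ∀ s ∈ S, Commute (a ^ 3) s)
    (hcomm : ∀ y ∈ E, ∀ z ∈ E, ⁅y, z⁆ ∈ Q)
    (hidx : ∀ y ∈ E, y ∈ P ∨ a⁻¹ * y ∈ P ∨ a * y ∈ P)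
    (hgP : ∀ p ∈ P, ⁅g, p⁆ ∈ Q)
    (hbad : ¬ Good (a⁻¹ * g⁻¹ * a * g) (a⁻¹ * (a⁻¹ * g⁻¹ * a * g) * a) Q) :
    ∃ C, Wit Q E P C := by
  obtain ⟨i, hi⟩ : ∃ i, i = a⁻¹ * g⁻¹ * a * g := ⟨_, rfl⟩
  rw [← hi] at hbad
  have hiS : i ∈ S := hi ▸ mul_mem (haS _ (inv_mem hg)) hg
  have nm : ∀ y : G, (∀ p ∈ P, ⁅y, p⁆ ∈ Q) → y ∈ Subgroup.normalizer (P : Set G) := fun y hy =>
    Subgroup.mem_normalizer_fintype fun p hp => by
      have := mul_mem (hQP (hy p hp)) hp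
      rwa [commutatorElement_def, inv_mul_cancel_right] at this
  have na := nm a fun p hp => hcomm a ha p (hPE hp)
  have ng := nm g hgP
  let H : Subgroup G := P ⊔ Subgroup.closure {i, a}
  have hPH : P ≤ H := le_sup_left
  have iH : i ∈ H := Subgroup.mem_sup_right (Subgroup.subset_closure (by simp))
  have aH : a ∈ H := Subgroup.mem_sup_right (Subgroup.subset_closure (by simp))
  have hle : ∀ L : Subgroup G, P ≤ L → i ∈ L → a ∈ L → H ≤ L := fun L h1 h2 h3 =>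
    sup_le h1 ((Subgroup.closure_le _).2 (by
      rintro x (rfl | rfl)
      exacts [h2, h3]))
  have hEH : E ≤ H := fun y hy => by
    rcases hidx y hy with h | h | h
    · exact hPH h
    · exact (H.mul_mem_cancel_left (inv_mem aH)).1 (hPH h)
    · exact (H.mul_mem_cancel_left aH).1 (hPH h)
  have nP : (P.subgroupOf H).Normal := (Subgroup.normal_subgroupOf_iff_le_normalizer hPH).2
    (hle _ Subgroup.le_normalizer
      (hi ▸ mul_mem (mul_mem (mul_mem (inv_mem na) (inv_mem ng)) na) ng) na)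
  have mP := Subgroup.map_subgroupOf_eq_of_le hPH
  have mQ := Subgroup.map_subgroupOf_eq_of_le (hQP.trans hPH)
  have mE := Subgroup.map_subgroupOf_eq_of_le hEH
  let a' : H := ⟨a, aH⟩
  let i' : H := ⟨i, iH⟩
  obtain ⟨C, hR⟩ := hC H (P.subgroupOf H) (Q.subgroupOf H) (S.subgroupOf H) i' (a'⁻¹ * i' * a')
    (a'⁻¹ * (a'⁻¹ * i' * a') * a') a' ⟨nP, inferInstance, Subgroup.comap_mono hQP,
      (hE.to_le hPE).comap_subtype, rfl, rfl, Subtype.ext (by
        change i = a⁻¹ * (a⁻¹ * (a⁻¹ * i * a) * a) * a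
        have e : a⁻¹ * (a⁻¹ * (a⁻¹ * i * a) * a) * a = (a ^ 3)⁻¹ * (i * a ^ 3) := by
          simp only [pow_three, mul_inv_rev, mul_assoc]
        rw [e, ← (ha3S i hiS).eq, inv_mul_cancel_left]), Subtype.ext (by
        change a⁻¹ * (a⁻¹ * i * a) * a * (a⁻¹ * i * a) * i = 1
        have e : a⁻¹ * (a⁻¹ * i * a) * a * (a⁻¹ * i * a) * i =
            (a ^ 3)⁻¹ * g⁻¹ * (a ^ 3 * g) := by
          simp only [hi, pow_three, mul_inv_rev, mul_assoc, mul_inv_cancel_left]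
        rw [e, (ha3S g hg).eq, mul_assoc, inv_mul_cancel_left, inv_mul_cancel]), hiS,
      fun x hx => haS x hx, fun c => hS (c.trans
        (Subgroup.card_comap_dvd_of_injective S H.subtype H.subtype_injective)), hQP ha3,
      fun L h1 h2 h3 => eq_top_iff.2 fun x _ =>
        (Subgroup.mem_map_iff_mem H.subtype_injective).1 (hle (L.map H.subtype)
          (mP ▸ Subgroup.map_mono h1) ⟨_, h2, rfl⟩ ⟨_, h3, rfl⟩ x.2)⟩
    fun c => hbad (mQ ▸ good_Amb H.subtype_injective c)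
  have nC := hR.nC
  have hy : ∀ y ∈ E.subgroupOf H, y ∉ P.subgroupOf H →
      a'⁻¹ * y ∈ P.subgroupOf H ∨ a' * y ∈ P.subgroupOf H :=
    fun y h1 h2 => (hidx y h1).resolve_left h2
  refine ⟨C.map H.subtype, ?_⟩
  rw [← mP, ← mQ, ← mE, wit_map_Amb H.subtype_injective]
  refine ⟨Subgroup.comap_mono hQP, Subgroup.comap_mono hPE, fun y h1 h2 z h3 => ?_, hR.CQ, hR.exp,
    fun y _ c hc => nC.conj_mem c hc y, hR.cub,
    fun y h1 h2 => n1_all (P := P.subgroupOf H) (hR.CQ.trans (Subgroup.comap_mono hQP))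
      (hy y h1 h2) hR.n1,
    hR.n2.imp_right fun h y h1 h2 => h y (hy y h1 h2)⟩
  refine or_iff_not_imp_left.2 fun h4 => ?_
  rcases hy y h1 h2 with p | p <;> rcases hy z h3 h4 with q | q
  · exact Or.inl (by simpa [mul_assoc] using mul_mem (inv_mem p) q)
  · exact Or.inr (by simpa [mul_assoc] using mul_mem (nP.conj_mem _ p a') q)
  · exact Or.inr (by simpa [mul_assoc] using mul_mem (nP.conj_mem _ p a'⁻¹) q)
  · exact Or.inl (by simpa [mul_assoc] using mul_mem (inv_mem p) q)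

end Pool.Agent.MP_a5588a_al.Solv

end

section

/-! Two by two matrices over a field of characteristic three. -/

namespace Pool.Agent.MP_a5588a_al.Full

open Pool.Agent.MP_a5588a_al.Solv
open scoped commutatorElement

universe u v

variable {G : Type u} [Group G] [Finite G]

variable {K : Type*} [Field K] {d w : G} {π : G →* GL (Fin 2) K} {l : K}

theorem three_FMat (h3 : (3 : K) = 0) : (3 : Matrix (Fin 2) (Fin 2) K) = 0 := by
  rw [← map_ofNat (algebraMap K (Matrix (Fin 2) (Fin 2) K)) 3, h3, map_zero]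

theorem two_FMat (h3 : (3 : K) = 0) : (2 : K) ≠ 0 := fun h =>
  one_ne_zero (α := K) (by linear_combination h3 - h)

/-- A 3-element has trace two and determinant one. -/
theorem uni_FMat (h3 : (3 : K) = 0) {x : GL (Fin 2) K} (hx : El3 x) :
    x 0 0 + x 1 1 = 2 ∧ x 0 0 * x 1 1 - x 0 1 * x 1 0 = 1 := by
  obtain ⟨n, hn⟩ := hx
  have : Fact (Nat.Prime 3) := ⟨Nat.prime_three⟩
  have : CharP (Matrix (Fin 2) (Fin 2) K) 3 :=
    (CharP.charP_iff_prime_eq_zero Nat.prime_three).2 (by simpa using three_FMat h3)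
  have h : ((x : Matrix (Fin 2) (Fin 2) K) - 1) ^ 3 ^ n = 0 := by
    rw [sub_pow_char_pow_of_commute 3 n (Commute.one_right _), ← Units.val_pow_eq_pow_val, hn,
      one_pow, Units.val_one, sub_self]
  have h1 := (Matrix.isNilpotent_trace_of_isNilpotent ⟨_, h⟩).eq_zero
  have h2 := congrArg Matrix.det h
  rw [Matrix.det_pow, Matrix.det_zero] at h2
  have h4 := pow_eq_zero_iff (by positivity) |>.1 h2
  simp [Matrix.trace_fin_two] at h1
  simp [Matrix.det_fin_two] at h4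
  exact ⟨by linear_combination h1, by linear_combination h4 + h1⟩

omit [Finite G] in
theorem ent_FMat (π : G →* GL (Fin 2) K) (x y : G) (i j : Fin 2) :
    π (x * y) i j = π x i 0 * π y 0 j + π x i 1 * π y 1 j := by
  rw [map_mul, Units.val_mul, Matrix.mul_apply, Fin.sum_univ_two]

omit [Finite G] in
theorem Cmp.det (h : Cmp d w π l) (gen : Subgroup.closure {d, w} = ⊤) (x : G) :
    π x 0 0 * π x 1 1 - π x 0 1 * π x 1 0 = 1 := by
  rw [← Matrix.det_fin_two]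
  have : x ∈ Subgroup.closure {d, w} := gen ▸ trivial
  induction this using Subgroup.closure_induction with
  | one => simp
  | mem y hy => rcases hy with rfl | rfl <;> simp [h.hd, h.hw]
  | inv y _ hy =>
    have e : (π y⁻¹ : Matrix (Fin 2) (Fin 2) K) * π y = 1 := by
      rw [← Units.val_mul, ← map_mul, inv_mul_cancel, map_one, Units.val_one]
    simpa only [Matrix.det_mul, hy, mul_one, Matrix.det_one] using congrArg Matrix.det e
  | mul y z _ _ a b => rw [map_mul, Units.val_mul, Matrix.det_mul, a, b, one_mul]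

omit [Finite G] in
theorem tri3 (h3 : (3 : K) = 0) (hl : l ≠ 0)
    (hd : (π d : Matrix (Fin 2) (Fin 2) K) = !![1, l; 0, 1]) {x : G} (hx : El3 (π x))
    (hxd : El3 (π (x * d))) : π x 1 0 = 0 ∧ π x 0 0 = 1 ∧ π x 1 1 = 1 := by
  obtain ⟨a1, a2⟩ := uni_FMat h3 hx
  have a3 := (uni_FMat h3 hxd).1
  rw [ent_FMat, ent_FMat, hd] at a3
  simp at a3
  have a4 : π x 1 0 = 0 := (mul_eq_zero.1 (show l * π x 1 0 = 0 by
    linear_combination a3 - a1)).resolve_left hl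
  have a5 : π x 0 0 = 1 := sub_eq_zero.1 (pow_eq_zero_iff two_ne_zero |>.1 (by
    linear_combination π x 0 0 * a1 - a2 - π x 0 1 * a4))
  exact ⟨a4, a5, by linear_combination a1 - a5⟩

omit [Finite G] in
theorem part3 (h3 : (3 : K) = 0) (h : Cmp d w π l) (hl : l ≠ -1) {j : ℕ}
    (hj : El3 (π ((d * w) ^ j))) : π ((d * w) ^ j) = 1 := by
  have e : ∀ j : ℕ, ∃ a b : K, (π ((d * w) ^ j) : Matrix (Fin 2) (Fin 2) K) =
      !![a + b * (1 + l), b * l; b, a + b] := fun j => by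
    induction j with
    | zero => exact ⟨1, 0, by simp [Matrix.one_fin_two]⟩
    | succ j ih =>
      obtain ⟨a, b, e⟩ := ih
      refine ⟨-b, a + b * (2 + l), ?_⟩
      rw [pow_succ, map_mul, map_mul, Units.val_mul, Units.val_mul, e, h.hd, h.hw,
        Matrix.mul_fin_two, Matrix.mul_fin_two]
      ext i k
      fin_cases i <;> fin_cases k <;> simp <;> ring
  obtain ⟨a, b, e⟩ := e j
  obtain ⟨a1, a2⟩ := uni_FMat h3 hj
  rw [e] at a1 a2
  simp at a1 a2
  have a3 : b ^ 2 * (l * (l + 1)) = 0 := by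
    linear_combination (2 * a + b * (2 + l) + 2) * a1 - 4 * a2 - b ^ 2 * l * h3
  have a4 : b = 0 := pow_eq_zero_iff two_ne_zero |>.1 ((mul_eq_zero.1 a3).resolve_right
    (mul_ne_zero h.ne fun e => hl (eq_neg_of_add_eq_zero_left e)))
  have a5 : a = 1 := mul_left_cancel₀ (two_FMat h3) (by rw [a4] at a1; linear_combination a1)
  refine Units.ext ?_
  rw [e, a4, a5]
  simp [Matrix.one_fin_two]

theorem qg2 (h3 : (3 : K) = 0) {N : Subgroup G} (hN : ¬ 3 ∣ Nat.card N) {d d' : G}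
    (hn : ∀ x ∈ N, d⁻¹ * x * d ∈ N) (hi : d⁻¹ * d' ∈ N) (d3 : d ^ 3 = 1) (d3' : d' ^ 3 = 1) :
    π d = π d' ∨ Matrix.trace (π (d⁻¹ * d') : Matrix (Fin 2) (Fin 2) K) = 0 := by
  have : Finite (N.map π) := Finite.of_surjective _ (π.subgroupMap_surjective N)
  obtain ⟨a1, a2⟩ := uni_FMat h3 (x := π d) ⟨1, by rw [← map_pow, pow_one, d3, map_one]⟩
  obtain ⟨-, a4⟩ := uni_FMat h3 (x := π d') ⟨1, by rw [← map_pow, pow_one, d3', map_one]⟩
  have q := (qg (three_FMat h3) (N.map π) (fun e => hN (e.trans (Subgroup.card_map_dvd N π)))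
    (π d) (π (d⁻¹ * d')) _ _ ⟨_, hi, rfl⟩ (by
      rintro _ ⟨x, hx, rfl⟩
      exact ⟨_, hn x hx, by simp⟩) rfl rfl (by
      have : (d ^ 3)⁻¹ * d' ^ 3 = 1 := by rw [d3, d3', inv_one, one_mul]
      rw [← map_one π, ← this]
      simp only [map_mul, map_inv, pow_three']
      group) (by
      ext i k
      fin_cases i <;> fin_cases k <;> simp [Matrix.mul_apply, Fin.sum_univ_two]
      · linear_combination π d 0 0 * a1 - a2
      · linear_combination π d 0 1 * a1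
      · linear_combination π d 1 0 * a1
      · linear_combination π d 1 1 * a1 - a2)).2.2.2.1
  have e1 : (π (d⁻¹ * d') : Matrix (Fin 2) (Fin 2) K).det = 1 := by
    have : (π d : Matrix (Fin 2) (Fin 2) K) * π (d⁻¹ * d') = π d' := by
      rw [← Units.val_mul, ← map_mul, mul_inv_cancel_left]
    have := congrArg Matrix.det this
    rwa [Matrix.det_mul, Matrix.det_fin_two (π d : Matrix (Fin 2) (Fin 2) K), a2,
      Matrix.det_fin_two (π d' : Matrix (Fin 2) (Fin 2) K), a4, one_mul] at this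
  generalize hy : π (d⁻¹ * d') = y at q e1
  have e2 : 1 + (y : Matrix (Fin 2) (Fin 2) K) * y = (y : Matrix (Fin 2) (Fin 2) K).trace • y := by
    rw [Matrix.det_fin_two] at e1
    ext i k
    fin_cases i <;> fin_cases k <;>
      simp [Matrix.mul_apply, Fin.sum_univ_two, Matrix.trace_fin_two]
    · linear_combination -e1
    · ring
    · ring
    · linear_combination -e1
  rw [e2, mul_smul_comm, smul_eq_zero, Units.mul_left_eq_zero, sub_eq_zero] at q
  refine q.symm.imp_left fun e => ?_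
  rw [← inv_mul_eq_one, ← map_inv, ← map_mul, hy]
  exact Units.ext e

omit [Finite G] in
theorem cmp_conj (h3 : (3 : K) = 0) (hl : l ≠ 0)
    (hd : (π d : Matrix (Fin 2) (Fin 2) K) = !![1, l; 0, 1]) {w₂ : G} (w3 : w₂ ^ 3 = 1)
    (hγ : π w₂ 1 0 ≠ 0) : ∃ π' : G →* GL (Fin 2) K, Cmp d w₂ π' (l * π w₂ 1 0) := by
  obtain ⟨a1, a2⟩ := uni_FMat h3 (x := π w₂) ⟨1, by rw [← map_pow, pow_one, w3, map_one]⟩
  let P : GL (Fin 2) K := Matrix.GeneralLinearGroup.mkOfDetNeZero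
    !![1, π w₂ 0 0 - 1; 0, π w₂ 1 0] (by simpa [Matrix.det_fin_two] using hγ)
  have hP : (P : Matrix (Fin 2) (Fin 2) K) = !![1, π w₂ 0 0 - 1; 0, π w₂ 1 0] := rfl
  have e : ∀ (g : G) (A : Matrix (Fin 2) (Fin 2) K), π g * (P : Matrix (Fin 2) (Fin 2) K) = P * A →
      (((MulAut.conj P⁻¹).toMonoidHom.comp π) g : Matrix (Fin 2) (Fin 2) K) = A := fun g A h => by
    change ((P⁻¹ * π g * P⁻¹⁻¹ : GL (Fin 2) K) : Matrix (Fin 2) (Fin 2) K) = A
    rw [inv_inv, Units.val_mul, Units.val_mul, mul_assoc, h, Units.inv_mul_cancel_left]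
  refine ⟨(MulAut.conj P⁻¹).toMonoidHom.comp π, mul_ne_zero hl hγ, e _ _ ?_, e _ _ ?_⟩
  · rw [hd, hP]
    ext i k
    fin_cases i <;> fin_cases k <;> simp [Matrix.mul_apply, Fin.sum_univ_two]
    ring
  · rw [hP]
    ext i k
    fin_cases i <;> fin_cases k <;> simp [Matrix.mul_apply, Fin.sum_univ_two]
    · linear_combination π w₂ 0 0 * a1 - a2
    · linear_combination π w₂ 1 0 * a1

end Pool.Agent.MP_a5588a_al.Full

end

section

namespace Pool.Agent.MP_a5588a_al.Solv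

open scoped commutatorElement

section
variable {R V : Type*} [Ring R] {u : Fin 3 → R} {t a b : R} (q : Q8 u t a b) [AddCommGroup V]
  [Module R V]
include q

theorem tu_M1 (r : Fin 3) : t * u r = u r * t := by rw [← q.sq r, mul_assoc]

theorem ta_M1 : t * a = a * t := by
  conv_lhs => rw [← q.sq 0, mul_assoc, q.conj, ← mul_assoc, q.conj, mul_assoc, q.sq]

theorem eps_M1 (v : V) : t • (t - 1) • v = -((t - 1) • v) := by
  rw [← mul_smul, mul_sub, q.tt, mul_one, ← neg_smul, neg_sub]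

theorem odd_M1 {w : V} (h : t • w = -w) :
    (u 0 + u 1 + u 2) • (u 0 + u 1 + u 2) • w = 0 ∧
    (∀ s, s = u 0 + u 1 + u 2 ∨ s = u 1 - u 0 - u 2 ∨ s = u 2 - u 0 - u 1 → s • w = 0 →
      (u 0 - u 1 - u 2) • w = 0 → w = 0) ∧
    (u 0 - u 1 - u 2) • u 0 • w = u 0 • (u 0 + u 1 + u 2) • w ∧
    (u 0 + u 1 + u 2) • u 0 • w = u 0 • (u 0 - u 1 - u 2) • w ∧
    (u 1 - u 0 - u 2) • u 0 • w = u 0 • (u 2 - u 0 - u 1) • w ∧
    (u 2 - u 0 - u 1) • u 0 • w = u 0 • (u 1 - u 0 - u 2) • w := by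
  have h3 : w + w + w = 0 := by
    have := congrArg (· • w) q.three
    simpa only [show (3 : R) = 1 + 1 + 1 by norm_num, add_smul, one_smul, zero_smul] using this
  have s : ∀ r, u r • u r • w = -w := fun r => by rw [← mul_smul, q.sq, h]
  have m : ∀ r, u r • u (r + 1) • w = u (r + 2) • w := fun r => by rw [← mul_smul, q.mul]
  have n : ∀ r, u (r + 1) • u r • w = -(u (r + 2) • w) := fun r => by
    rw [← mul_smul, q.mul', tu_M1 q, mul_smul, h, smul_neg]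
  have m0 : u 0 • u 1 • w = u 2 • w := m 0
  have m1 : u 1 • u 2 • w = u 0 • w := m 1
  have m2 : u 2 • u 0 • w = u 1 • w := m 2
  have n0 : u 1 • u 0 • w = -(u 2 • w) := n 0
  have n1 : u 2 • u 1 • w = -(u 0 • w) := n 1
  have n2 : u 0 • u 2 • w = -(u 1 • w) := n 2
  refine ⟨?_, fun σ hσ h1 h2 => ?_, ?_, ?_, ?_, ?_⟩
  on_goal 2 =>
    have e : σ • (u 0 - u 1 - u 2) • w + (u 0 - u 1 - u 2) • σ • w = 0 := by
      rw [h1, h2, smul_zero, smul_zero, add_zero]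
    rcases hσ with rfl | rfl | rfl <;>
    · simp only [add_smul, sub_smul, smul_add, smul_sub, s, m0, m1, m2, n0, n1, n2] at e
      linear_combination (norm := abel) h3 - e
  all_goals simp only [add_smul, sub_smul, smul_add, smul_sub, s, m0, m1, m2, n0, n1, n2]
  · linear_combination (norm := abel) -h3
  all_goals abel

end

theorem m1 {R X V : Type*} [Ring R] {u : Fin 3 → R} {t a b : R} (q : Q8 u t a b)
    [AddCommGroup X] [AddCommGroup V] [Module R V] (ι α : X →+ X) (β : X →+ X →+ V)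
    (alt : ∀ x, β x x = 0) (hι : ∀ x y, β (ι x) (ι y) = u 0 • β x y)
    (hα : ∀ x y, β (α x) (α y) = a • β x y) (ιs : Function.Surjective ι)
    (α3 : ∀ x, α (α (α x)) = x)
    (irr : ∀ U : AddSubgroup X, (∀ x ∈ U, ι x ∈ U) → (∀ x ∈ U, α x ∈ U) → U = ⊥ ∨ U = ⊤)
    (quad : ∀ v : V, (a - 1) • (a - 1) • v = 0)
    (odd : ∀ v : V, t • v = -v → a • v = (1 - u 0 - u 1 - u 2) • v)
    (good : ∀ v : V, t • v = v → u 0 • v = v) (x₁ : X) (hx : x₁ + α x₁ + α (α x₁) ≠ 0)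
    (rk : ∀ x, x + α x + α (α x) = 0 ∨ x + α x + α (α x) = x₁ + α x₁ + α (α x₁) ∨
      x + α x + α (α x) = -(x₁ + α x₁ + α (α x₁))) (x y : X) : β x y = 0 := by
  have αs : Function.Surjective α := fun x => ⟨_, α3 x⟩
  have skew : ∀ x y, β x y = -β y x := fun x y => by
    have := alt (x + y)
    simp only [map_add, AddMonoidHom.add_apply, alt] at this
    linear_combination (norm := abel) this
  obtain ⟨K, hK⟩ : ∃ K : R → AddSubgroup V, ∀ r z, z ∈ K r ↔ r • z = 0 :=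
    ⟨fun r => (DistribSMul.toAddMonoidHom V r).ker, fun _ _ => Iff.rfl⟩
  obtain ⟨P, hP⟩ : ∃ P : AddSubgroup V → AddSubgroup X, ∀ A m, m ∈ P A ↔ ∀ y, β m y ∈ A :=
    ⟨fun A => ⨅ y, A.comap (β.flip y), fun _ _ => AddSubgroup.mem_iInf⟩
  obtain ⟨A, A1, A2⟩ : ∃ A : AddSubgroup V, (∀ x y, β (α x) (α y) - β x y ∈ A) ∧
      ∀ B : AddSubgroup V, (∀ x y, (a - 1) • β x y ∈ B) → A ≤ B :=
    ⟨AddSubgroup.closure {z | ∃ x y, z = (a - 1) • β x y},
      fun x y => AddSubgroup.subset_closure ⟨x, y, by rw [hα, sub_smul, one_smul]⟩,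
      fun B h => (AddSubgroup.closure_le _).2 (by rintro _ ⟨x, y, rfl⟩; exact h x y)⟩
  have top : ∀ U : AddSubgroup X, (∀ x ∈ U, ι x ∈ U) → (∀ x ∈ U, α x ∈ U) →
      x₁ + α x₁ + α (α x₁) ∈ U → ∀ x, x ∈ U := fun U h1 h2 h3 x => by
    rcases irr U h1 h2 with rfl | rfl
    exacts [absurd h3 hx, trivial]
  have a0 : β x₁ (x₁ + α x₁ + α (α x₁)) ∈ A := by
    have := neg_mem (A1 x₁ (α (α x₁)))
    rw [α3, skew (α x₁)] at this
    simpa only [map_add, alt, zero_add, neg_sub, sub_neg_eq_add, add_comm] using this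
  have a1 : x₁ + α x₁ + α (α x₁) ∈ P A := (hP _ _).2 fun y => by
    have h1 : β x₁ (y + α y + α (α y)) ∈ A := by
      rcases rk y with h | h | h <;> rw [h]
      exacts [by rw [map_zero]; exact zero_mem _, a0, by rw [map_neg]; exact neg_mem a0]
    have h2 := add_mem (add_mem h1 (A1 x₁ (α (α y)))) (add_mem (A1 x₁ (α y)) (A1 (α x₁) (α (α y))))
    simp only [α3, map_add] at h2
    simp only [map_add, AddMonoidHom.add_apply]
    exact (congrArg (· ∈ A) (by abel)).mp h2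
  obtain ⟨x₀, e₀⟩ : ∃ x₀, x₀ = x₁ + α x₁ + α (α x₁) := ⟨_, rfl⟩
  rw [← e₀] at a1 top rk
  obtain ⟨S, hS⟩ : ∃ S : R → AddSubgroup X, ∀ σ m, m ∈ S σ ↔ ∀ y, σ • (t - 1) • β m y = 0 :=
    ⟨fun σ => P (K (σ * (t - 1))), fun _ _ => by simp only [hP, hK, mul_smul]⟩
  have cu : ∀ v : V, (t - 1) • u 0 • v = u 0 • (t - 1) • v := fun v => by
    rw [← mul_smul, ← mul_smul, sub_mul, mul_sub, tu_M1 q, one_mul, mul_one]
  have ca : ∀ v : V, (t - 1) • a • v = a • (t - 1) • v := fun v => by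
    rw [← mul_smul, ← mul_smul, sub_mul, mul_sub, ta_M1 q, one_mul, mul_one]
  have Sι : ∀ {σ σ' : R}, (∀ w : V, t • w = -w → σ' • u 0 • w = u 0 • σ • w) →
      ∀ m ∈ S σ, ι m ∈ S σ' := fun h m hm => (hS _ _).2 fun y => by
    obtain ⟨y, rfl⟩ := ιs y
    rw [hι, cu, h _ (eps_M1 q _), (hS _ _).1 hm, smul_zero]
  have Sα : ∀ {σ σ' : R}, σ' * a = a * σ → ∀ m ∈ S σ, α m ∈ S σ' := fun h m hm =>
    (hS _ _).2 fun y => by
      obtain ⟨y, rfl⟩ := αs y
      rw [hα, ca, ← mul_smul, h, mul_smul, (hS _ _).1 hm, smul_zero]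
  have c0 : u 0 * a = a * u 1 := q.conj 0
  have c1 : u 1 * a = a * u 2 := q.conj 1
  have c2 : u 2 * a = a * u 0 := q.conj 2
  have α1 := Sα (σ := u 0 + u 1 + u 2) (σ' := u 0 + u 1 + u 2)
    (by simp only [add_mul, mul_add, c0, c1, c2]; abel)
  have α2 := Sα (σ := u 0 - u 1 - u 2) (σ' := u 2 - u 0 - u 1)
    (by simp only [sub_mul, mul_sub, c0, c1, c2])
  have α4 := Sα (σ := u 2 - u 0 - u 1) (σ' := u 1 - u 0 - u 2)
    (by simp only [sub_mul, mul_sub, c0, c1, c2]; abel)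
  have α5 := Sα (σ := u 1 - u 0 - u 2) (σ' := u 0 - u 1 - u 2)
    (by simp only [sub_mul, mul_sub, c0, c1, c2]; abel)
  have ι1 := Sι fun w h => (odd_M1 q h).2.2.1
  have b1 : x₀ ∈ S (u 0 + u 1 + u 2) := (hS _ _).2 fun y => by
    rw [← mul_smul, ← hK]
    refine A2 _ (fun x y => ?_) ((hP _ _).1 a1 y)
    have := (odd_M1 q (eps_M1 q (β x y))).1
    rw [hK, mul_smul, sub_smul a, one_smul, smul_sub, ca, odd _ (eps_M1 q _), ← neg_eq_zero,
      ← smul_neg, ← this]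
    congr 1
    simp only [sub_smul _ (u _), add_smul _ (u _), one_smul]
    abel
  have orth : ∀ s, s = u 0 + u 1 + u 2 ∨ s = u 1 - u 0 - u 2 ∨ s = u 2 - u 0 - u 1 → ∀ m ∈ S s,
      ∀ m' ∈ S (u 0 - u 1 - u 2), (t - 1) • β m m' = 0 := fun s hs m hm m' hm' =>
    (odd_M1 q (eps_M1 q _)).2.1 s hs ((hS _ _).1 hm _)
      (by rw [skew, smul_neg, smul_neg, (hS _ _).1 hm', neg_zero])
  have b2 := ι1 _ b1
  have b3 : ι x₀ ∈ S 1 := (hS _ _).2 fun y => by
    have l := @AddSubgroup.mem_sup_left X _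
    have r := @AddSubgroup.mem_sup_right X _
    have inv : ∀ (f : X →+ X) {A B C D : AddSubgroup X}, (∀ m ∈ A, f m ∈ (A ⊔ B) ⊔ (C ⊔ D)) →
        (∀ m ∈ B, f m ∈ (A ⊔ B) ⊔ (C ⊔ D)) → (∀ m ∈ C, f m ∈ (A ⊔ B) ⊔ (C ⊔ D)) →
        (∀ m ∈ D, f m ∈ (A ⊔ B) ⊔ (C ⊔ D)) → ∀ m ∈ (A ⊔ B) ⊔ (C ⊔ D), f m ∈ (A ⊔ B) ⊔ (C ⊔ D) :=
      fun f A B C D h1 h2 h3 h4 =>
        sup_le (c := ((A ⊔ B) ⊔ (C ⊔ D)).comap f) (sup_le h1 h2) (sup_le h3 h4)
    have h1 := top ((S (u 0 + u 1 + u 2) ⊔ S (u 0 - u 1 - u 2)) ⊔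
      (S (u 1 - u 0 - u 2) ⊔ S (u 2 - u 0 - u 1)))
      (inv ι (fun m h => l (r (ι1 m h)))
        (fun m h => l (l (Sι (fun w h => (odd_M1 q h).2.2.2.1) m h)))
        (fun m h => r (r (Sι (fun w h => (odd_M1 q h).2.2.2.2.2) m h)))
        fun m h => r (l (Sι (fun w h => (odd_M1 q h).2.2.2.2.1) m h)))
      (inv α (fun m h => l (l (α1 m h))) (fun m h => r (r (α2 m h))) (fun m h => l (r (α5 m h)))
        fun m h => r (l (α4 m h))) (l (l b1)) y
    rw [skew, smul_neg, one_smul, neg_eq_zero]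
    refine (hK _ _).1 ((show _ ≤ (K (t - 1)).comap (β.flip (ι x₀)) from sup_le
      (sup_le (fun m h => (hK _ _).2 (orth _ (.inl rfl) m h _ b2)) fun m h => (hK _ _).2 ?_)
      (sup_le (fun m h => (hK _ _).2 (orth _ (.inr (.inl rfl)) m h _ b2))
        fun m h => (hK _ _).2 (orth _ (.inr (.inr rfl)) m h _ b2))) h1)
    have h2 : m + α m + α (α m) ∈ S (u 0 + u 1 + u 2) := by
      rcases rk m with e | e | e <;> rw [e]
      exacts [zero_mem _, b1, neg_mem b1]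
    have h3 := orth _ (.inl rfl) _ h2 _ b2
    rwa [map_add, map_add, AddMonoidHom.add_apply, AddMonoidHom.add_apply, smul_add, smul_add,
      orth _ (.inr (.inr rfl)) _ (α2 m h) _ b2, orth _ (.inr (.inl rfl)) _ (α4 _ (α2 m h)) _ b2,
      add_zero, add_zero] at h3
  have b4 := top (S 1) (Sι fun w _ => by rw [one_smul, one_smul]) (Sα (by rw [one_mul, mul_one]))
    ((hS _ _).2 fun y => by
      have h1 := congrArg ((t * u 0) • ·) ((hS _ _).1 b3 (ι y))
      simp only [hι, cu, one_smul, smul_zero] at h1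
      rwa [← mul_smul, mul_assoc, q.sq, q.tt] at h1)
  have b5 := top (P A) (fun m hm => (hP _ _).2 fun y => by
      obtain ⟨y, rfl⟩ := ιs y
      have h1 := (hS _ _).1 (b4 m) y
      rw [one_smul, sub_smul, one_smul, sub_eq_zero] at h1
      rw [hι, good _ h1]
      exact (hP _ _).1 hm y)
    (fun m hm => (hP _ _).2 fun y => by
      obtain ⟨y, rfl⟩ := αs y
      simpa only [sub_add_cancel] using add_mem (A1 m y) ((hP _ _).1 hm y)) a1
  exact A2 ⊥ (fun x y => (hK _ _).1 (A2 _ (fun x y => (hK _ _).2 (quad _)) ((hP _ _).1 (b5 x) y)))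
    ((hP _ _).1 (b5 x) y)

end Pool.Agent.MP_a5588a_al.Solv

end

section

namespace Pool.Agent.MP_a5588a_al.Solv

open scoped commutatorElement

theorem cube_CaseI {G : Type*} [Group G] {x y : G} (hx : Commute ⁅x, y⁆ x) (hy : Commute ⁅x, y⁆ y)
    (h3 : Commute (x ^ 3) y) : (x * y) ^ 3 = x ^ 3 * y ^ 3 := by
  obtain ⟨z, hz⟩ : ∃ z, z = ⁅x, y⁆ := ⟨_, rfl⟩
  rw [← hz] at hx hy
  have e : x * y = z * (y * x) := by rw [hz]; group
  have e' : ∀ w, x * (y * w) = z * (y * (x * w)) := fun w => by rw [← mul_assoc, e]; group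
  have cx : ∀ w, x * (z * w) = z * (x * w) := fun w => by rw [← mul_assoc, ← hx.eq, mul_assoc]
  have cy : ∀ w, y * (z * w) = z * (y * w) := fun w => by rw [← mul_assoc, ← hy.eq, mul_assoc]
  have z3 : z * (z * (z * (y * (x * (x * x))))) = y * (x * (x * x)) := by
    have : x * (x * (x * y)) = y * (x * (x * x)) := by
      have := h3.eq
      simpa only [pow_succ, pow_zero, one_mul, mul_assoc] using this
    simpa only [e, e', cx] using this
  have z3' : ∀ w, z * (z * (z * w)) = w := fun w => by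
    have : z * (z * z) = 1 := mul_right_cancel (b := y * (x * (x * x))) (by
      rw [one_mul, mul_assoc, mul_assoc, z3])
    rw [← mul_assoc, ← mul_assoc, mul_assoc z, this, one_mul]
  have : x * (x * (x * (y * (y * y)))) = x * (y * (x * (y * (x * y)))) := by
    simp only [e, e', cx, cy, z3']
  simpa only [pow_succ, pow_zero, one_mul, mul_assoc] using this.symm

variable {G : Type*} [Group G] [Finite G] {P Q K E E₀ : Subgroup G} {i j k a : G}

theorem caseI (c : Ctx P Q K i j k a) (m : MinBad Q i j E E₀) (h : H1 P Q a) {κ : G} (hκ : κ ∈ K)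
    (h₀ : ∀ w ∈ E₀, Commute κ w) (h₁ : ∃ x ∈ E, ¬ Commute κ x) : Res P Q a E := by
  have := c.nP
  have nE := m.nE
  have := m.nE₀
  have EP : E ≤ P := m.EQ.trans c.QP
  have N : ∀ g : G, ∀ x ∈ E, g * x * g⁻¹ ∈ E := fun g x hx => nE.conj_mem x hx g
  have cE : ∀ g : G, ∀ x ∈ E, ⁅g, x⁆ ∈ E := fun g x hx => E.mul_mem (N g x hx) (E.inv_mem hx)
  have ne : ¬ E ≤ E₀ := fun hle => by
    obtain ⟨x, hx, hn⟩ := h₁
    exact hn (h₀ x (hle hx))
  have key : ∀ A : Subgroup G, A.Normal → A ≤ E → (∀ x ∈ E, ⁅κ, x⁆ ∈ A) → A = E :=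
    fun A hA hle hc => (m.max A hA hle).resolve_right fun h0 => by
      obtain ⟨x, hx, hn⟩ := h₁
      exact hn (cp1 c.pP (m.le.trans EP) c.cK
        (congrArg Subtype.val (pow_card_eq_one' (x := (⟨_, hκ⟩ : K)))) h₀ (h0 (hc x hx)))
  have Z : ∀ w ∈ E₀, ∀ x ∈ E, Commute w x := fun w hw x hx => by
    have hk : κ ∈ Subgroup.centralizer (E₀ : Set G) := fun w hw => (h₀ w hw).eq.symm
    have := key (E ⊓ Subgroup.centralizer (E₀ : Set G)) inferInstance inf_le_left fun x hx =>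
      ⟨cE κ x hx, by
        rw [show ⁅κ, x⁆ = κ * (x * κ⁻¹ * x⁻¹) by group]
        exact mul_mem hk (Subgroup.Normal.conj_mem inferInstance _ (inv_mem hk) x)⟩
    rw [← this] at hx
    exact hx.2 w hw
  have C0 : ⁅E, P⁆ ≤ E₀ :=
    (m.max _ inferInstance (Subgroup.commutator_le_left E P)).resolve_left fun e =>
      ne (by rw [comm_lt c.pP EP e.ge]; exact bot_le)
  have C1 : ⁅E, E⁆ ≤ E₀ := (Subgroup.commutator_mono le_rfl EP).trans C0
  have cc : ∀ x ∈ E, ∀ y ∈ E, ⁅x, y⁆ ∈ ⁅E, E⁆ := fun x hx y hy =>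
    Subgroup.commutator_mem_commutator hx hy
  obtain ⟨X, _, σ, π, s⟩ := exists_sect (MonoidHom.id G) E E₀ m.le N
    (fun g x hx => m.nE₀.conj_mem x hx g) fun x hx y hy => C1 (cc x hx y hy)
  have irr0 : ∀ U : AddSubgroup X, (∀ g, ∀ v ∈ U, σ g v ∈ U) → U = ⊥ ∨ U = ⊤ := fun U hU => by
    have hn : (s.pre U).Normal := ⟨fun x hx g => ⟨N g x hx.1, by
      have := s.conj g x hx.1
      rw [MonoidHom.id_apply] at this
      rw [this]
      exact hU g _ hx.2⟩⟩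
    rcases m.max _ hn fun x hx => hx.1 with e | e
    · refine .inr (eq_top_iff.2 fun v _ => ?_)
      obtain ⟨x, hx, rfl⟩ := s.surj v
      rw [← e] at hx
      exact hx.2
    · refine .inl (eq_bot_iff.2 fun v hv => ?_)
      obtain ⟨x, hx, rfl⟩ := s.surj v
      exact (s.ker x hx).2 (e ⟨hx, hv⟩)
  have X3 : ∀ v : X, 3 • v = 0 := by
    rcases irr0 (nsmulAddMonoidHom 3).ker (fun g v hv => by
      change 3 • σ g v = 0
      rw [← map_nsmul, show 3 • v = 0 from hv, map_zero]) with e | e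
    · refine (ne fun x hx => ?_).elim
      have : ∀ n, ∀ v : X, 3 ^ n • v = 0 → v = 0 := fun n => by
        induction n with
        | zero => simp
        | succ n ih =>
          intro v hv
          refine ih v (AddSubgroup.mem_bot.1 (e ▸ ?_))
          change 3 • 3 ^ n • v = 0
          rwa [← mul_nsmul, ← pow_succ]
      obtain ⟨n, hn⟩ := c.pP ⟨x, EP hx⟩
      refine (s.ker x hx).1 (this n _ ?_)
      rw [← s.pow hx, show x ^ 3 ^ n = 1 from congrArg Subtype.val hn, s.one]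
    · exact fun v => (e ▸ AddSubgroup.mem_top v : v ∈ (nsmulAddMonoidHom 3).ker)
  have q0 : ∀ x ∈ E, x ^ 3 ∈ E₀ := fun x hx =>
    (s.ker _ (E.pow_mem hx 3)).1 ((s.pow hx 3).trans (X3 _))
  have cu : ∀ x ∈ E, ∀ y ∈ E, (x * y) ^ 3 = x ^ 3 * y ^ 3 := fun x hx y hy =>
    cube_CaseI (Z _ (C1 (cc x hx y hy)) x hx) (Z _ (C1 (cc x hx y hy)) y hy) (Z _ (q0 x hx) y hy)
  have ex : ∀ x ∈ E, x ^ 3 = 1 := by
    let A : Subgroup G :=
      { carrier := {x | x ∈ E ∧ x ^ 3 = 1}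
        one_mem' := ⟨E.one_mem, one_pow 3⟩
        mul_mem' := fun {x y} hx hy => ⟨E.mul_mem hx.1 hy.1, by
          rw [cu x hx.1 y hy.1, hx.2, hy.2, one_mul]⟩
        inv_mem' := fun {x} hx => ⟨E.inv_mem hx.1, by rw [inv_pow, hx.2, inv_one]⟩ }
    have := key A ⟨fun x hx g => ⟨N g x hx.1, by rw [conj_pow, hx.2]; group⟩⟩ (fun x hx => hx.1)
      fun x hx => ⟨cE κ x hx, by
        rw [commutatorElement_def, cu _ (N κ x hx) _ (E.inv_mem hx), conj_pow,
          (h₀ _ (q0 x hx)).eq]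
        group⟩
    intro x hx
    rw [← this] at hx
    exact hx.2
  obtain ⟨l, hl, hl'⟩ := nonquad c m
  refine ⟨nE, m.EQ, ex, fun x hx z hz => (Z z (C0 hz) x hx).eq.symm, ⟨l, hl, fun e => hl' (C0 e)⟩,
    or_iff_not_imp_right.2 fun hn => ?_⟩
  simp only [Rank2, not_forall, not_exists, not_and, not_not, ne_eq] at hn
  obtain ⟨y, hy, c₀, hc₀, hr⟩ := hn
  have N' : ∀ g : G, ∀ x ∈ ⁅E, E⁆, g * x * g⁻¹ ∈ ⁅E, E⁆ := fun g x hx =>
    Subgroup.Normal.conj_mem inferInstance x hx g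
  have one : ∀ {x w : G}, Commute x w → ⁅x, w⁆ ∈ (⊥ : Subgroup G) := fun e =>
    Subgroup.mem_bot.2 (commutatorElement_eq_one_iff_commute.2 e)
  obtain ⟨V, _, τ, ψ, s'⟩ := exists_sect (MonoidHom.id G) ⁅E, E⁆ ⊥ bot_le N'
    (fun g x hx => Subgroup.Normal.conj_mem inferInstance x hx g)
    fun x hx y hy => one (Z x (C1 hx) y (m.le (C1 hy)))
  obtain ⟨β, hβ, hβ'⟩ := exists_pair s s s' N N cc (fun x _ hx y hy => one (Z x hx y hy))
    (fun x hx y _ hy => one (Z y hy x hx).symm) (fun z hz x hx => one (Z z (C1 hz) x hx).symm)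
    fun z hz x hx => one (Z z (C1 hz) x hx).symm
  have q := q8_of_rel (ρ := τ) c (s'.three fun x hx => ex x (m.le (C1 hx)))
    (s'.triv N' fun x hx => one (m.good.rel.r1 x (C1 hx)))
    (s'.triv N' fun x hx => one (m.good.rel.r2 x (C1 hx)))
    (s'.triv N' fun x hx => one (m.good.rel.r3 x (C1 hx)))
  have B0 : ⁅⁅E, P⁆, E⁆ = ⊥ := eq_bot_iff.2 (Subgroup.commutator_le.2 fun x hx y hy =>
    one (Z x (C0 hx) y hy))
  have B1 : ⁅⁅E, E⁆, P⁆ = ⊥ := Subgroup.commutator_commutator_eq_bot_of_rotate B0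
    (by rwa [Subgroup.commutator_comm P E])
  have quad : ∀ v : V, (τ a - 1) • (τ a - 1) • v = 0 := fun v => by
    obtain ⟨x, hx, rfl⟩ := s'.surj v
    have hx' : ⁅a, x⁆ ∈ ⁅E, E⁆ := mul_mem (N' a x hx) (inv_mem hx)
    have e : ∀ x ∈ ⁅E, E⁆, (τ a - 1) • ψ x = ψ ⁅a, x⁆ := fun x hx => (s'.comm N' a hx).symm
    rw [e x hx, e _ hx']
    exact (s'.ker _ (mul_mem (N' a _ hx') (inv_mem hx'))).2 (B1 ▸ h _ inferInstance
      ((C1.trans m.le).trans m.EQ) (fun x hx y hy => (Z x (C1 hx) y (m.le (C1 hy))).eq)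
      (fun x hx => ex x (m.le (C1 hx))) x hx)
  have tp : ∀ p ∈ P, σ p = 1 := fun p hp => s.triv N fun x hx =>
    C0 (Subgroup.commutator_comm P E ▸ Subgroup.commutator_mem_commutator hp hx)
  have mu : ∀ g g' v, σ (g * g') v = σ g (σ g' v) := fun g g' v => by rw [map_mul]; rfl
  have α3 : ∀ v, σ a (σ a (σ a v)) = v := fun v => by
    rw [← mu, ← mu, ← pow_two, ← pow_succ, tp _ c.a3]
    rfl
  have F : ∀ y, (a⁻¹ * y ∈ P ∨ a * y ∈ P) → ∀ x ∈ E,
      π ⁅y, ⁅y, x⁆⁆ = π x + σ a (π x) + σ a (σ a (π x)) := fun y hy x hx => by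
    have e := s.comm N y (cE y x hx)
    have e' := s.comm N y hx
    rw [MonoidHom.id_apply] at e e'
    rw [e, e', map_sub]
    rcases hy with hy | hy
    · have : ∀ v, σ y v = σ a v := fun v => by
        rw [← mul_inv_cancel_left a y, mu, tp _ hy]
        rfl
      simp only [this]
      linear_combination (norm := abel) -X3 (σ a (π x))
    · have : ∀ v, σ y v = σ a (σ a v) := fun v => by
        rw [← α3 (σ y v), ← mu a y, tp _ hy]
        rfl
      simp only [this, α3]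
      linear_combination (norm := abel) -X3 (σ a (σ a (π x)))
  have rk : ∀ v, v + σ a v + σ a (σ a v) = 0 ∨
      v + σ a v + σ a (σ a v) = π c₀ + σ a (π c₀) + σ a (σ a (π c₀)) ∨
      v + σ a v + σ a (σ a v) = -(π c₀ + σ a (π c₀) + σ a (σ a (π c₀))) := fun v => by
    obtain ⟨x, hx, rfl⟩ := s.surj v
    refine or_iff_not_imp_left.2 fun h1 => or_iff_not_imp_left.2 fun h2 => ?_
    have e := hr x hx (fun e => h1 (by rw [← F y hy x hx, e, s.one])) fun e => h2 (by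
      have := F y hy _ (E.mul_mem (E.inv_mem hc₀) hx)
      rw [e, s.one, s.add _ (E.inv_mem hc₀) x hx, s.inv hc₀] at this
      simp only [map_add, map_neg] at this
      linear_combination (norm := abel) -this)
    have := F y hy _ (E.mul_mem hc₀ hx)
    rw [e, s.one, s.add _ hc₀ x hx] at this
    simp only [map_add] at this
    linear_combination (norm := abel) -this
  intro x hx w hw
  have := m1 q (σ i) (σ a) β (fun v => ?_) (hβ' i) (hβ' a)
    (fun v => ⟨σ i⁻¹ v, (mu _ _ v).symm.trans (by rw [mul_inv_cancel, map_one]; rfl)⟩) α3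
    (fun U h1 h2 => irr0 U fun g => ?_) quad
    (fun v hv => sub_eq_zero.1 (q.qg2 (U := ⊤) (U' := ⊥) (by simp) (by simp)
      (fun v _ => quad v) trivial hv))
    (fun v hv => ?_) (π c₀) (fun e => hl' ((s.ker _ (cE a _ (cE a l hl))).1 ?_)) rk (π x) (π w)
  · rw [hβ x hx w hw] at this
    exact (commutatorElement_eq_one_iff_commute.1 ((s'.ker _ (cc x hx w hw)).1 this)).eq
  · obtain ⟨x, hx, rfl⟩ := s.surj v
    rw [hβ x hx x hx, commutatorElement_self, s'.one]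
  · let S : Submonoid G :=
      { carrier := {g | ∀ v ∈ U, σ g v ∈ U}
        one_mem' := fun v hv => by rwa [map_one]
        mul_mem' := fun hg hg' v hv => by rw [mu]; exact hg _ (hg' v hv) }
    let L : Subgroup G :=
      { S with
        inv_mem' := fun {g} hg => Submonoid.powers_le.2 hg
          (mem_powers_iff_mem_zpowers.2 (inv_mem (Subgroup.mem_zpowers g))) }
    have : L = ⊤ := c.gen L (fun p hp v hv => by rwa [tp p hp]) h1 h2
    exact (this ▸ Subgroup.mem_top g : g ∈ L)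
  · obtain ⟨x, hx, rfl⟩ := s'.surj v
    have e := s'.conj (i ^ 2) x hx
    rw [MonoidHom.id_apply, pow_two i, map_mul] at e
    have e2 := (s'.eq_iff (N' (i * i) x hx) hx).1 (e.trans hv)
    rw [Subgroup.mem_bot, inv_mul_eq_one, mul_inv_eq_iff_eq_mul, ← pow_two] at e2
    have e3 := s'.conj i x hx
    rw [MonoidHom.id_apply, (m.good.fix x (C1 hx) e2).1.eq, mul_inv_cancel_right] at e3
    exact e3.symm
  · rw [F a (.inl (by simp)) l hl]
    rcases rk (π l) with e' | e' | e'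
    · exact e'
    · exact e'.trans e
    · exact e'.trans (neg_eq_zero.2 e)

end Pool.Agent.MP_a5588a_al.Solv

end
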