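import Pool.Agent.Mg.Fa5588aa.Ge45d38
import Pool.Agent.Mg.Fa5588aa.Gf1aec1
import Pool.Agent.Mg.Fa5588aa.Ga63474
import Pool.Agent.Mg.Fa5588aa.G33bb9c

section

/-! Components of a pair of quadratic elements. -/

namespace Pool.Agent.MP_a5588a_al.Full

open Pool.Agent.MP_a5588a_al.Solv
open scoped commutatorElement

universe u v

variable {G : Type u} {V : Type v} [Group G] [Finite G] [AddCommGroup V] [Finite V]
  {ρ : G →* AddMonoid.End V} {M : Subgroup G}

theorem pow_FComp {R : Type*} [CommRing R] {J : Ideal R} (h3 : (3 : R) ∈ J)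
    {A : Matrix (Fin 2) (Fin 2) R} (hA : ∀ i j, (A - 1) i j ∈ J) (n : ℕ) :
    ∀ i j, (A ^ 3 ^ n - 1 : Matrix (Fin 2) (Fin 2) R) i j ∈ J ^ (n + 1) := by
  induction n with
  | zero => simpa using hA
  | succ n ih =>
    intro i j
    have h1 := fun i j => Ideal.pow_le_self n.succ_ne_zero (ih i j)
    obtain ⟨E, hE⟩ : ∃ E, A ^ 3 ^ n = E + 1 := ⟨_, (sub_add_cancel _ 1).symm⟩
    rw [hE, add_sub_cancel_right] at ih h1
    have e : (E + 1) ^ 3 - 1 = (E * E + 3 • E + 3 • 1) * E := by noncomm_ring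
    rw [pow_succ 3, pow_mul, hE, e, Matrix.mul_apply, pow_succ' J]
    refine sum_mem fun k _ => Ideal.mul_mem_mul (add_mem (add_mem ?_ (nsmul_mem (h1 i k) 3)) ?_)
      (ih k j)
    · rw [Matrix.mul_apply]
      exact sum_mem fun l _ => J.mul_mem_right _ (h1 i l)
    · rw [Matrix.smul_apply, nsmul_eq_mul]
      exact J.mul_mem_right _ h3

theorem emb_FComp {R : Type*} [CommRing R] (p : Ideal R) [p.IsPrime] [Finite (R ⧸ p)]
    (h3 : (3 : R) ∈ p) : ∃ ψ : R →+* KK, ∀ r, ψ r = 0 ↔ r ∈ p := by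
  have : Fact (Nat.Prime 3) := ⟨Nat.prime_three⟩
  have : CharP (R ⧸ p) 3 := (CharP.charP_iff_prime_eq_zero Nat.prime_three).2
    (Ideal.Quotient.eq_zero_iff_mem.2 h3)
  let _ := ZMod.algebra (R ⧸ p) 3
  let φ : (R ⧸ p) →ₐ[ZMod 3] KK := IsAlgClosed.lift
  refine ⟨φ.toRingHom.comp (Ideal.Quotient.mk p), fun r => ⟨fun h => by_contra fun e => ?_,
    fun h => by simp [Ideal.Quotient.eq_zero_iff_mem.2 h]⟩⟩
  obtain ⟨s, hs⟩ := (Finite.isField_of_domain (R ⧸ p)).mul_inv_cancel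
    (mt Ideal.Quotient.eq_zero_iff_mem.1 e)
  have := congrArg φ hs
  rw [map_mul, show φ (Ideal.Quotient.mk p r) = 0 from h, zero_mul, map_one] at this
  exact zero_ne_one this

omit [Finite G] [Finite V] in
theorem fix_FComp {y : G} {v : V} (h : ρ y v = v) (k : ℕ) : ρ (y ^ k) v = v := by
  induction k with
  | zero => simp
  | succ k ih => rw [pow_succ, mul_ap, h, ih]

open Polynomial in
theorem k1 (h3 : (3 : AddMonoid.End V) = 0) {d w : G} (hd : Quad ρ d) (hw : Quad ρ w)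
    (gen : Subgroup.closure {d, w} = ⊤) {x : G}
    (hx : ∀ (π : G →* GL (Fin 2) KK) (l : KK), Cmp d w π l → (∀ y, ρ y = 1 → π y = 1) → π x = 1) :
    ∃ n : ℕ, ρ (x ^ 3 ^ n) = 1 := by
  have q : ∀ g, Quad ρ g → ∀ v, ρ g (ρ g v - v) = ρ g v - v := fun g h v =>
    sub_eq_zero.1 (DFunLike.congr_fun h v)
  obtain ⟨_, B, B', N, t, pw⟩ := exists_two (q d hd) (q w hw)
  have mem : ∀ y, y ∈ Subgroup.closure ({d, w} : Set G) := fun y => gen ▸ Subgroup.mem_top y
  let Z := (LinearMap.ker B).toAddSubgroup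
  let F : ℤ[X] →ₗ[ℤ[X]] (Z → V) := LinearMap.toSpanSingleton _ _ fun u => (X : ℤ[X]) ^ N • u.1
  let I : Ideal ℤ[X] := LinearMap.ker F
  have hI : ∀ r, r ∈ I ↔ ∀ u ∈ Z, r • (X : ℤ[X]) ^ N • u = 0 := fun r =>
    ⟨fun h u hu => congrFun h ⟨u, hu⟩, fun h => funext fun u => h u u.2⟩
  have : Finite (ℤ[X] ⧸ I) := .of_equiv _ F.quotKerEquivRange.symm.toEquiv
  have i3 : (3 : ℤ[X]) ∈ I := (hI _).2 fun u _ => by
    rw [ofNat_smul_eq_nsmul]
    simpa using DFunLike.congr_fun h3 ((X : ℤ[X]) ^ N • u)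
  have iX : (X : ℤ[X]) ^ N - 1 ∈ I := (hI _).2 fun u _ => by
    rw [sub_smul, t.hN, one_smul, sub_self]
  obtain ⟨A, hA, -⟩ := t.ex (mem x)
  have rad : ∀ i j, (A - 1) i j ∈ I.radical := fun i j => by
    rw [Ideal.radical_eq_sInf, Ideal.mem_sInf]
    rintro p ⟨hp, _⟩
    have : Finite (ℤ[X] ⧸ p) := .of_surjective _ (Ideal.Quotient.factor_surjective hp)
    obtain ⟨ψ, hψ⟩ := emb_FComp p (hp i3)
    obtain ⟨π, hπ⟩ := t.exists_hom ψ Z (fun u hu => hu) fun r hr => (hψ r).2 (hp ((hI r).2 hr))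
    have := hx (π.comp ((MonoidHom.id G).codRestrict _ mem)) (ψ X) ⟨fun e => ?_, ?_, ?_⟩
      fun y hy => Units.ext ?_
    · rw [← hψ, Matrix.sub_apply, map_sub, ← hπ ⟨x, mem x⟩ A hA, show π ⟨x, mem x⟩ = 1 from this,
        Matrix.one_apply, apply_ite ψ, map_one, map_zero, Units.val_one, Matrix.one_apply, sub_self]
    · have := (hψ _).2 (hp iX)
      simp [e, t.N0.ne'] at this
    · ext i j
      refine (hπ ⟨d, mem d⟩ _ t.rel_d i j).trans ?_
      fin_cases i <;> fin_cases j <;> simp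
    · ext i j
      refine (hπ ⟨w, mem w⟩ _ t.rel_w i j).trans ?_
      fin_cases i <;> fin_cases j <;> simp
    · ext i j
      refine (hπ ⟨y, mem y⟩ 1 (fun u v _ _ => by simp [hy]) i j).trans ?_
      fin_cases i <;> fin_cases j <;> simp
  obtain ⟨n, hn⟩ := I.exists_radical_pow_le_of_fg (IsNoetherian.noetherian _)
  have hE := fun i j u hu => (hI _).1 (hn (Ideal.pow_le_pow_right n.le_succ
    (pow_FComp (Ideal.le_radical i3) rad n i j))) u hu
  have rl : ∀ k : ℕ, Rel ρ B B' (x ^ k) (A ^ k) := fun k => by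
    induction k with
    | zero => simpa using Rel.one
    | succ k ih => simpa only [pow_succ] using ih.mul hA
  have f1 : ∀ u ∈ Z, ∀ v ∈ Z, ρ (x ^ 3 ^ n) ((X : ℤ[X]) ^ N • u + B' ((X : ℤ[X]) ^ N • v)) =
      (X : ℤ[X]) ^ N • u + B' ((X : ℤ[X]) ^ N • v) := fun u hu v hv => by
    simp only [Matrix.sub_apply, sub_smul, sub_eq_zero] at hE
    rw [rl _ _ _ (by simp [show B u = 0 from hu]) (by simp [show B v = 0 from hv]),
      hE 0 0 u hu, hE 0 1 v hv, hE 1 0 u hu, hE 1 1 v hv]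
    simp
  obtain ⟨m, hm⟩ := nil0 h3 hd hw (mem x)
  refine ⟨n + m, AddMonoidHom.ext fun v => ?_⟩
  have f2 : ρ (x ^ 3 ^ n) ((X : ℤ[X]) ^ N • v) = (X : ℤ[X]) ^ N • v := by
    obtain ⟨k, hk⟩ := Nat.exists_eq_succ_of_ne_zero t.N0.ne'
    have e : (X : ℤ[X]) ^ N • v = (X : ℤ[X]) ^ N • (X : ℤ[X]) ^ k • B (B' v) +
        B' ((X : ℤ[X]) ^ N • (X : ℤ[X]) ^ k • B v) := by
      rw [map_smul, map_smul, ← smul_add, ← smul_add, ← t.hX, ← mul_smul (X ^ k), ← pow_succ,
        ← Nat.succ_eq_add_one, ← hk, t.hN]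
    rw [e]
    exact f1 _ (show B _ = 0 by rw [map_smul, t.BB, smul_zero]) _
      (show B _ = 0 by rw [map_smul, t.BB, smul_zero])
  have f3 := hm (v - (X : ℤ[X]) ^ N • v) ⟨N, (pw N _).symm.trans (by rw [smul_sub, t.hN, sub_self])⟩
  have f4 := fix_FComp f2 (3 ^ m)
  have f5 := fix_FComp f3 (3 ^ n)
  rw [← pow_mul, ← pow_add] at f4 f5
  rw [add_comm m, map_sub, f4] at f5
  exact sub_left_injective f5

theorem pr_of (h3 : (3 : AddMonoid.End V) = 0) (inj : Function.Injective ρ) {d w : G}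
    (hd : Quad ρ d) (hw : Quad ρ w) (gen : Subgroup.closure {d, w} = ⊤) (d1 : d ≠ 1) (dM : d ∈ M)
    (wM : w ∉ M) (idx : ¬ 3 ∣ M.index) (se : SE M) : Pr M d w := by
  have : Fact (Nat.Prime 3) := ⟨Nat.prime_three⟩
  have c : ∀ g, Quad ρ g → g ^ 3 = 1 := fun g h => inj (by rw [map_pow, h.cube h3, map_one])
  refine ⟨gen, c d hd, c w hw, d1, dM, wM, idx, se, fun x hx => by_contra fun x1 => ?_⟩
  let K : Subgroup G := ⨅ (π : G →* GL (Fin 2) KK) (l : KK) (_ : Cmp d w π l), π.ker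
  have mK : ∀ y, y ∈ K ↔ ∀ (π : G →* GL (Fin 2) KK) (l : KK), Cmp d w π l → π y = 1 := fun y => by
    simp only [K, Subgroup.mem_iInf, MonoidHom.mem_ker]
  have nK : K.Normal := ⟨fun y hy g => (mK _).2 fun π l h => by
    rw [map_mul, map_mul, (mK y).1 hy π l h, mul_one, ← map_mul, mul_inv_cancel, map_one]⟩
  have e3 : ∀ y ∈ K, El3 y := fun y hy =>
    (k1 h3 hd hw gen fun π l h _ => (mK y).1 hy π l h).imp fun n hn => inj (hn.trans ρ.map_one.symm)
  have pK : IsPGroup 3 K := fun y => (e3 y y.2).imp fun n hn => Subtype.ext hn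
  have pd : IsPGroup 3 (Subgroup.zpowers d) :=
    .of_card (n := 1) (by rw [Nat.card_zpowers, orderOf_eq_prime (c d hd) d1, pow_one])
  obtain ⟨g, hg⟩ := ex_fix idx (pK.to_sup_of_normal_left pd)
  have gM := se d dM d1 ⟨1, c d hd⟩ g (hg d (Subgroup.mem_sup_right (Subgroup.mem_zpowers d)))
  have KM : K ≤ M := fun y hy => by
    simpa [mul_assoc] using mul_mem (mul_mem gM (hg y (Subgroup.mem_sup_left hy))) (inv_mem gM)
  have xK := (mK x).2 hx
  exact wM (se x (KM xK) x1 (e3 x xK) w (KM (by simpa using nK.conj_mem x xK w⁻¹)))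

end Pool.Agent.MP_a5588a_al.Full

end

section

/-! Elements of order a power of three that act trivially on the nilpotent part are quadratic. -/

namespace Pool.Agent.MP_a5588a_al.Full

open Pool.Agent.MP_a5588a_al.Solv
open scoped commutatorElement

universe u v

theorem two_FSex {J V R : Type*} [Group J] [AddCommGroup V] [CommRing R] [Module R V]
    {ρ : J →* AddMonoid.End V} {d w : J} {X : R} {B B' : V →ₗ[R] V} {N : ℕ}
    (t : Two ρ d w X B B' N) {x : J} (hx : x ∈ Subgroup.closure {d, w}) (x3 : El3 x)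
    (hc : Commute x d) (h0 : ∀ v, X ^ N • v = 0 → ρ x v = v) : Quad ρ x := by
  obtain ⟨A, a, a1, -⟩ := t.ex hx
  let I : Ideal R :=
    { carrier := {r | ∀ u, B u = 0 → r • X ^ N • u = 0}
      add_mem' := fun h h' u hu => by rw [add_smul, h u hu, h' u hu, add_zero]
      zero_mem' := fun u _ => zero_smul _ _
      smul_mem' := fun c r h u hu => by rw [smul_eq_mul, mul_smul, h u hu, smul_zero] }
  obtain ⟨k, hk⟩ : ∃ k, N = k + 1 := Nat.exists_eq_succ_of_ne_zero t.N0.ne'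
  have eI : X ^ N - 1 ∈ I := fun u _ => by rw [sub_smul, one_smul, t.hN, sub_self]
  have can : ∀ r, X * r ∈ I → r ∈ I := fun r h => by
    have := I.sub_mem (I.mul_mem_left (X ^ k) h) (I.mul_mem_left r eI)
    rwa [show X ^ k * (X * r) - r * (X ^ N - 1) = r by rw [hk, pow_succ]; ring] at this
  have cm : ∀ i j, (!![1, X; 0, 1] * A) i j - (A * !![1, X; 0, 1]) i j ∈ I := fun i j u hu =>
    t.rel_uniq (t.rel_d.mul a) (hc.eq ▸ a.mul t.rel_d) hu i j
  have c1 : A 1 0 ∈ I := can _ (by simpa [Matrix.mul_apply] using cm 0 0)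
  have c2 : A 1 1 - A 0 0 ∈ I := can _ (by
    have := cm 0 1
    simp only [Matrix.mul_apply, Fin.sum_univ_two, Matrix.of_apply, Matrix.cons_val_zero,
      Matrix.cons_val_one, Matrix.cons_val', Matrix.cons_val_fin_one] at this
    convert this using 1
    ring)
  have ke : ∀ (r : R) {u : V}, B u = 0 → B (r • u) = 0 := fun r u hu => by
    rw [map_smul, hu, smul_zero]
  have f1 : ∀ u, B u = 0 → ρ x (X ^ N • u) = A 0 0 • X ^ N • u := fun u hu => by
    rw [a.fst (ke _ hu), c1 u hu, map_zero, add_zero]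
  have f2 : ∀ (m : ℕ) u, B u = 0 → ρ (x ^ m) (X ^ N • u) = A 0 0 ^ m • X ^ N • u := by
    intro m u hu
    induction m with
    | zero => simp
    | succ m ih => rw [pow_succ', mul_ap, ih, t.lin hx, f1 u hu, pow_succ, mul_smul]
  obtain ⟨n, hn⟩ := x3
  have c3 : A 0 0 ^ 3 ^ n - 1 ∈ I := fun u hu => by
    rw [sub_smul, ← f2 _ u hu, hn, map_one, one_smul]
    exact sub_self _
  have c4 : A 0 0 ^ 2 - 1 ∈ I := by
    have := I.sub_mem (I.mul_mem_left (A 0 1) c1) (I.mul_mem_left (A 0 0) c2)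
    rw [Matrix.det_fin_two] at a1
    convert this using 1
    linear_combination a1
  have c5 : A 0 0 - 1 ∈ I := by
    obtain ⟨m, hm⟩ : Odd (3 ^ n) := Odd.pow (by decide)
    obtain ⟨s, hs⟩ := sub_dvd_pow_sub_pow (A 0 0 ^ 2) 1 m
    have := I.sub_mem c3 (I.mul_mem_left (A 0 0 * s) c4)
    convert this using 1
    rw [one_pow] at hs
    rw [hm, pow_succ, pow_mul]
    linear_combination (-A 0 0) * hs
  have g0 : ∀ u, B u = 0 → A 0 0 • X ^ N • u = X ^ N • u := fun u hu => by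
    have := c5 u hu
    rwa [sub_smul, one_smul, sub_eq_zero] at this
  have g1 : ∀ u, B u = 0 → A 1 1 • X ^ N • u = X ^ N • u := fun u hu => by
    have := c2 u hu
    rwa [sub_smul, g0 u hu, sub_eq_zero] at this
  refine AddMonoidHom.ext fun v => ?_
  have u1 : B (X ^ k • B (B' v)) = 0 := ke _ (t.BB _)
  have u2 : B (X ^ k • B v) = 0 := ke _ (t.BB _)
  have e1 : X ^ N • v = X ^ N • X ^ k • B (B' v) + B' (X ^ N • X ^ k • B v) := by
    rw [map_smul, map_smul, ← smul_add, ← smul_add, ← t.hX, ← mul_smul (X ^ k), ← pow_succ, ← hk,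
      t.hN]
  have e2 : ρ x v - v = X ^ N • A 0 1 • X ^ k • B v := by
    have h1 := h0 (v - X ^ N • v) (by rw [smul_sub, t.hN, sub_self])
    have h2 := a _ _ (ke (X ^ N) u1) (ke (X ^ N) u2)
    rw [g0 _ u1, c1 _ u1, g1 _ u2, zero_add, add_right_comm, ← e1, smul_comm] at h2
    rw [map_sub, h2, sub_eq_iff_eq_add] at h1
    rw [h1]
    abel
  change ρ x (ρ x v - v) - (ρ x v - v) = 0
  rw [e2, f1 _ (ke _ u2), g0 _ (ke _ u2), sub_self]

variable {G : Type u} {V : Type v} [Group G] [Finite G] [AddCommGroup V] [Finite V]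
  {ρ : G →* AddMonoid.End V} {M : Subgroup G}

theorem sex (h3 : (3 : AddMonoid.End V) = 0) {d w : G} (hd : Quad ρ d) (hw : Quad ρ w) {x : G}
    (hx : x ∈ Subgroup.closure {d, w}) (x3 : El3 x) (hc : Commute x d)
    (h0 : ∀ v, (∃ k : ℕ, (ac ρ d w ^ k) v = 0) → ρ x v = v) : Quad ρ x := by
  obtain ⟨_, B, B', N, t, pw⟩ := exists_two (ρ := ρ) (d := d) (w := w)
    (fun v => sub_eq_zero.1 (DFunLike.congr_fun hd v))
    fun v => sub_eq_zero.1 (DFunLike.congr_fun hw v)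
  exact two_FSex t hx x3 hc fun v hv => h0 v ⟨N, (pw N v).symm.trans hv⟩

theorem fix_FSex {K : Subgroup G} [K.Normal] (hK : IsPGroup 3 K) (h : K ≠ ⊥) {d : G}
    (hd : IsPGroup 3 (Subgroup.zpowers d)) : ∃ y ∈ K, y ≠ 1 ∧ Commute y d := by
  let _ : MulAction (Subgroup.zpowers d) K :=
    MulAction.compHom K ((MulAut.conjNormal (H := K)).comp (Subgroup.zpowers d).subtype)
  have h1 : 3 ∣ Nat.card K :=
    hK.card_eq_or_dvd.resolve_left fun e => h (Subgroup.eq_bot_of_card_eq _ e)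
  obtain ⟨y, y1, y2⟩ := hd.exists_fixed_point_of_prime_dvd_card_of_fixed_point K h1 (a := 1)
    fun g => map_one (MulAut.conjNormal (H := K) g.1)
  have y3 : d * y * d⁻¹ = y := congrArg Subtype.val (y1 ⟨d, Subgroup.mem_zpowers d⟩)
  exact ⟨y, y.2, fun e => y2 (Subtype.ext e.symm), (mul_inv_eq_iff_eq_mul.1 y3).symm⟩

theorem sex0 (h : TI ρ M) {d w : G} (hd : Quad ρ d) (hw : Quad ρ w)
    (gen : Subgroup.closure {d, w} = ⊤) (d1 : d ≠ 1) (dM : d ∈ M) (wM : w ∉ M) {S : Subgroup G}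
    (hS : IsPGroup 3 S) (dS : d ∈ S) {x : G} (hx : x ∈ S)
    (h0 : ∀ v, (∃ k : ℕ, (ac ρ d w ^ k) v = 0) → ρ x v = v) : Quad ρ x := by
  have top : ∀ g : G, g ∈ Subgroup.closure {d, w} := fun g => gen ▸ Subgroup.mem_top g
  have iv : ∀ (g : G) v, ρ g (ρ g⁻¹ v) = v := fun g v => by
    rw [← mul_ap, mul_inv_cancel, map_one]
    rfl
  have inv : ∀ (g : G) v, (∃ k : ℕ, (ac ρ d w ^ k) v = 0) → ∃ k : ℕ, (ac ρ d w ^ k) (ρ g v) = 0 := by
    rintro g v ⟨k, hk⟩
    refine ⟨k, (DFunLike.congr_fun ((ac_comm hd hw (top g)).pow_left k).eq v).trans ?_⟩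
    change ρ g ((ac ρ d w ^ k) v) = 0
    rw [hk, map_zero]
  have fi : ∀ y : G, (∀ v, (∃ k : ℕ, (ac ρ d w ^ k) v = 0) → ρ y v = v) →
      ∀ v, (∃ k : ℕ, (ac ρ d w ^ k) v = 0) → ρ y⁻¹ v = v := fun y hy v hv => by
    rw [← hy _ (inv y⁻¹ v hv), iv]
  let K : Subgroup G :=
    { carrier := {y | (∀ (π : G →* GL (Fin 2) KK) (l : KK), Cmp d w π l → π y = 1) ∧
        ∀ v, (∃ k : ℕ, (ac ρ d w ^ k) v = 0) → ρ y v = v}
      one_mem' := ⟨fun π _ _ => map_one π, fun v _ => by rw [map_one]; rfl⟩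
      mul_mem' := fun {a b} ha hb => ⟨fun π l c => by rw [map_mul, ha.1 π l c, hb.1 π l c, mul_one],
        fun v hv => by rw [mul_ap, hb.2 v hv, ha.2 v hv]⟩
      inv_mem' := fun {a} ha => ⟨fun π l c => by rw [map_inv, ha.1 π l c, inv_one], fi a ha.2⟩ }
  have nK : K.Normal := ⟨fun y hy g => ⟨fun π l c => by
    rw [map_mul, map_mul, hy.1 π l c, mul_one, map_inv, mul_inv_cancel], fun v hv => by
    rw [mul_ap, mul_ap, hy.2 _ (inv g⁻¹ v hv), iv]⟩⟩
  have e3 : ∀ y ∈ K, El3 y := fun y hy =>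
    (k1 h.three hd hw gen fun π l c _ => hy.1 π l c).imp fun n hn => h.inj (by rw [hn, map_one])
  have pK : IsPGroup 3 K := fun y => (e3 y y.2).imp fun n hn => Subtype.ext hn
  have pd : IsPGroup 3 (Subgroup.zpowers d) := hS.to_le (Subgroup.zpowers_le.2 dS)
  have bot : K = ⊥ := by
    by_contra hK
    obtain ⟨y, y1, y2, y3⟩ := fix_FSex pK hK pd
    have le : K ≤ M := le_sup_left.trans (h.syl dM d1 hd (pK.to_sup_of_normal_left pd)
      (Subgroup.mem_sup_right (Subgroup.mem_zpowers d)))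
    exact wM (h.h2 y (le y1) y2 (sex h.three hd hw (top y) (e3 y y1) y3 y1.2) w
      (le (nK.conj_mem' y y1 w)))
  have s3 : ∀ y ∈ S, El3 y := fun y hy => (hS ⟨y, hy⟩).imp fun n hn => congrArg Subtype.val hn
  have cK : ⁅x, d⁆ ∈ K := by
    refine ⟨fun π l c => ?_, fun v hv => ?_⟩
    · have p3 : ∀ y ∈ S, El3 (π y) := fun y hy =>
        (s3 y hy).imp fun n hn => by rw [← map_pow, hn, map_one]
      obtain ⟨t1, t2, t3⟩ := tri3 (CharP.ofNat_eq_zero KK 3) c.ne c.hd (p3 x hx)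
        (p3 _ (S.mul_mem hx dS))
      rw [map_commutatorElement, commutatorElement_eq_one_iff_mul_comm]
      refine Units.ext ?_
      rw [Units.val_mul, Units.val_mul, c.hd]
      ext i j
      fin_cases i <;> fin_cases j <;> simp [Matrix.mul_apply, t1, t2, t3, add_comm]
    · rw [commutatorElement_def, mul_ap, mul_ap, mul_ap, fi x h0 _ (inv d⁻¹ v hv), iv, h0 v hv]
  rw [bot, Subgroup.mem_bot, commutatorElement_eq_one_iff_commute] at cK
  exact sex h.three hd hw (top x) (s3 x hx) cK h0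

end Pool.Agent.MP_a5588a_al.Full

end

section

/-! The pair theorem. -/

namespace Pool.Agent.MP_a5588a_al.Full

open Pool.Agent.MP_a5588a_al.Solv
open scoped commutatorElement

universe u v

section mat

variable {K : Type*} [Field K]

theorem cube_FPT {h : Matrix (Fin 2) (Fin 2) K} (ht : h 0 0 + h 1 1 = 1)
    (hd : h 0 0 * h 1 1 - h 0 1 * h 1 0 = 1) : h ^ 3 = -1 := by
  have e : h ^ 3 = h * h * h := by rw [pow_succ, pow_two]
  rw [e]
  ext i j
  fin_cases i <;> fin_cases j <;> simp [Matrix.mul_apply, Fin.sum_univ_two]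
  · linear_combination (h 0 0 * h 0 0 + h 0 1 * h 1 0 + h 0 0) * ht - (h 0 0 + 1) * hd
  · linear_combination (h 0 1 * (h 0 0 + h 1 1 + 1)) * ht - h 0 1 * hd
  · linear_combination (h 1 0 * (h 0 0 + h 1 1 + 1)) * ht - h 1 0 * hd
  · linear_combination (h 1 1 * h 1 1 + h 0 1 * h 1 0 + h 1 1) * ht - (h 1 1 + 1) * hd

theorem braid_FPT {D W : Matrix (Fin 2) (Fin 2) K} {l : K} (hD : D = !![1, l; 0, 1])
    (ht : W 0 0 + W 1 1 = 2) (hd : W 0 0 * W 1 1 - W 0 1 * W 1 0 = 1) (hγ : W 1 0 ≠ 0)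
    (hb : D * W * D = W * D * W) : (D * W) ^ 3 = -1 := by
  have h10 := congrFun (congrFun hb 1) 0
  subst hD
  simp only [Matrix.mul_apply, Fin.sum_univ_two] at h10
  simp at h10
  have hl : l * W 1 0 = -1 := by
    apply mul_left_cancel₀ hγ
    linear_combination -h10 - W 1 0 * ht
  apply cube_FPT
  · simp [Matrix.mul_apply, Fin.sum_univ_two]
    linear_combination ht + hl
  · simp [Matrix.mul_apply, Fin.sum_univ_two]
    linear_combination hd

theorem conj_FPT {D W P : Matrix (Fin 2) (Fin 2) K} {l : K} (hD : D = !![1, l; 0, 1])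
    (hP : P 0 0 * P 1 1 - P 0 1 * P 1 0 = 1) (h : W * P = P * D) :
    W 1 0 = -(l * P 1 0 ^ 2) ∧ W 0 0 + W 1 1 = 2 := by
  have h00 := congrFun (congrFun h 0) 0
  have h01 := congrFun (congrFun h 0) 1
  have h10 := congrFun (congrFun h 1) 0
  have h11 := congrFun (congrFun h 1) 1
  subst hD
  simp [Matrix.mul_apply, Fin.sum_univ_two] at h00 h01 h10 h11
  constructor
  · linear_combination P 1 1 * h10 - P 1 0 * h11 - W 1 0 * hP
  · linear_combination P 1 1 * h00 - P 1 0 * h01 - P 0 1 * h10 + P 0 0 * h11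
      - (W 0 0 + W 1 1 - 2) * hP

end mat

theorem three_FPT : (3 : KK) = 0 := by
  have := CharP.cast_eq_zero KK 3
  exact_mod_cast this

variable {G : Type u} {V : Type v} [Group G] [Finite G] [AddCommGroup V] [Finite V]
  {ρ : G →* AddMonoid.End V} {M : Subgroup G}

omit [Finite G] [Finite V] in
theorem restr_FPT (U : AddSubgroup V) (hU : ∀ g, ∀ v ∈ U, ρ g v ∈ U) :
    ∃ σ : G →* AddMonoid.End U, ∀ g (u : U), (σ g u : V) = ρ g u := by
  refine ⟨⟨⟨fun g => AddMonoidHom.codRestrict ((ρ g : V →+ V).comp U.subtype) U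
    (fun u => hU g u u.2), ?_⟩, ?_⟩, fun g u => rfl⟩
  · ext u
    change ρ 1 u = u
    rw [map_one]
    rfl
  · intro g h
    ext u
    change ρ (g * h) u = ρ g (ρ h u)
    rw [map_mul]
    rfl

omit [Finite G] in
theorem gen_sub_FPT (d w : G) :
    Subgroup.closure {(⟨d, Subgroup.subset_closure (by simp)⟩ : Subgroup.closure {d, w}),
      ⟨w, Subgroup.subset_closure (by simp)⟩} = ⊤ := by
  apply Subgroup.map_injective (Subgroup.closure {d, w}).subtype_injective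
  rw [MonoidHom.map_closure, ← MonoidHom.range_eq_map, Subgroup.range_subtype]
  congr 1
  simp [Set.image_pair]

/-- A second quadratic element outside `M` with a component of parameter `-1`. -/
theorem sub_FPT (h3 : (3 : AddMonoid.End V) = 0) (inj : Function.Injective ρ) {d w w₂ : G}
    (P : Pr M d w) (hd : Quad ρ d) (hw : Quad ρ w₂) (w3 : w₂ ^ 3 = 1) (wM : w₂ ∉ M)
    {π : G →* GL (Fin 2) KK} {l : KK} (hπ : Cmp d w π l) (hl : l * π w₂ 1 0 = -1) :
    Braid d w₂ := by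
  set X := Subgroup.closure {d, w₂} with hX
  let d' : X := ⟨d, Subgroup.subset_closure (by simp)⟩
  let w' : X := ⟨w₂, Subgroup.subset_closure (by simp)⟩
  have gen : Subgroup.closure {d', w'} = ⊤ := gen_sub_FPT d w₂
  have d1 : d' ≠ 1 := fun e => P.d1 (congrArg Subtype.val e)
  have idx : ¬ 3 ∣ (M.subgroupOf X).index := by
    have hz : IsPGroup 3 (Subgroup.zpowers d') := by
      have : Fact (Nat.Prime 3) := ⟨Nat.prime_three⟩
      have ho : orderOf d' = 3 := orderOf_eq_prime (Subtype.ext P.d3) d1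
      exact IsPGroup.of_card (n := 1) (by rw [Nat.card_zpowers, ho]; rfl)
    have : Fact (Nat.Prime 3) := ⟨Nat.prime_three⟩
    obtain ⟨S, hS⟩ := hz.exists_le_sylow
    have hle : (S : Subgroup X).map X.subtype ≤ M :=
      P.syl (S.isPGroup'.map _) ⟨d', hS (Subgroup.mem_zpowers d'), rfl⟩
    have hle' : (S : Subgroup X) ≤ M.subgroupOf X := fun x hx => hle ⟨x, hx, rfl⟩
    exact fun h => S.not_dvd_index (h.trans (Subgroup.index_dvd_of_le hle'))
  have se : SE (M.subgroupOf X) := by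
    intro x hx x1 ⟨n, hn⟩ g hg
    exact P.se x hx (fun e => x1 (Subtype.ext e)) ⟨n, congrArg Subtype.val hn⟩ g hg
  have P' : Pr (M.subgroupOf X) d' w' :=
    pr_of (ρ := ρ.comp X.subtype) h3 (inj.comp X.subtype_injective) hd hw gen d1 P.dM wM idx se
  have hγ : π w₂ 1 0 ≠ 0 := by
    intro e
    rw [e, mul_zero] at hl
    exact one_ne_zero (neg_eq_zero.mp hl.symm)
  obtain ⟨π', hπ'⟩ := cmp_conj (π := π.comp X.subtype) (d := d') (w₂ := w') three_FPT hπ.ne
    hπ.hd (Subtype.ext w3) hγ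
  have hl' : l * (π.comp X.subtype) w' 1 0 = -1 := hl
  rw [hl'] at hπ'
  exact congrArg Subtype.val (ng P' hπ')

theorem pt0 (h3 : (3 : AddMonoid.End V) = 0) (inj : Function.Injective ρ) {d w : G}
    (hd : Quad ρ d) (hw : Quad ρ w) (gen : Subgroup.closure {d, w} = ⊤) (d1 : d ≠ 1) (dM : d ∈ M)
    (wM : w ∉ M) (idx : ¬ 3 ∣ M.index) (se : SE M) :
    Braid d w ∨ Braid d w⁻¹ ∨ ∃ w', Quad ρ w' ∧ w' ∉ M ∧ Gen ρ d w' := by
  have P : Pr M d w := pr_of h3 inj hd hw gen d1 dM wM idx se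
  by_cases hA : ∃ π : G →* GL (Fin 2) KK, Cmp d w π (-1)
  · obtain ⟨π, hπ⟩ := hA
    exact Or.inl (ng P hπ)
  by_cases hB : ∃ π : G →* GL (Fin 2) KK, Cmp d w π 1
  · obtain ⟨π, hπ⟩ := hB
    refine Or.inr (Or.inl (sub_FPT h3 inj P hd hw.inv.1 (by rw [inv_pow, P.w3, inv_one])
      (fun h => wM (inv_mem_iff.mp h)) hπ ?_))
    have e : (π w⁻¹ : Matrix (Fin 2) (Fin 2) KK) * (π w : Matrix (Fin 2) (Fin 2) KK) = 1 := by
      rw [← Units.val_mul, ← map_mul, inv_mul_cancel, map_one, Units.val_one]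
    have e0 := congrFun (congrFun e 1) 0
    have e1 := congrFun (congrFun e 1) 1
    rw [hπ.hw] at e0 e1
    simp only [Matrix.mul_apply, Fin.sum_univ_two] at e0 e1
    generalize (π w⁻¹ : Matrix (Fin 2) (Fin 2) KK) = A at e0 e1 ⊢
    simp at e0 e1
    linear_combination e0 - e1
  have no : ∀ (π : G →* GL (Fin 2) KK) (l : KK), Cmp d w π l → l ≠ 1 ∧ l ≠ -1 :=
    fun π l h => ⟨fun e => hB ⟨π, e ▸ h⟩, fun e => hA ⟨π, e ▸ h⟩⟩
  have ex : ∃ (π : G →* GL (Fin 2) KK) (l : KK), Cmp d w π l := by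
    by_contra hn
    exact d1 (P.faith d fun π l h => absurd ⟨π, l, h⟩ hn)
  obtain ⟨π, l, hπ⟩ := ex
  obtain ⟨g, gM, hg⟩ := partner P no hπ
  set w₂ := g * d * g⁻¹ with hw₂
  have w2M : w₂ ∉ M := fun h => gM (inv_mem_iff.mp (se d dM d1 ⟨1, P.d3⟩ g⁻¹ (by
    rw [inv_inv]; exact h)))
  have q2 : Quad ρ w₂ := hd.conj g
  have w23 : w₂ ^ 3 = 1 := by rw [hw₂, conj_pow, P.d3, mul_one, mul_inv_cancel]
  have ent : ∀ (π : G →* GL (Fin 2) KK) (l : KK), Cmp d w π l →
      π w₂ 1 0 = -(l * π g 1 0 ^ 2) ∧ π w₂ 0 0 + π w₂ 1 1 = 2 := by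
    intro π l h
    refine conj_FPT h.hd (h.det gen g) ?_
    rw [← Units.val_mul, ← Units.val_mul, ← map_mul, ← map_mul, hw₂, inv_mul_cancel_right]
  have br : Braid d w₂ := by
    refine sub_FPT h3 inj P hd q2 w23 w2M hπ ?_
    rw [(ent π l hπ).1]
    linear_combination -hg
  set t := (d * w₂) ^ 3 with ht
  have tm : ∀ (π : G →* GL (Fin 2) KK) (l : KK), Cmp d w π l →
      (π t : Matrix (Fin 2) (Fin 2) KK) = -1 := by
    intro π l h
    have r0 : π g 1 0 ≠ 0 := fun e => gM (bm P no h e)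
    have hγ : π w₂ 1 0 ≠ 0 := by
      rw [(ent π l h).1]
      exact neg_ne_zero.mpr (mul_ne_zero h.ne (pow_ne_zero _ r0))
    rw [ht, map_pow, map_mul, Units.val_pow_eq_pow_val, Units.val_mul]
    refine braid_FPT h.hd (ent π l h).2 (h.det gen w₂) hγ ?_
    simp only [← Units.val_mul, ← map_mul]
    rw [br]
  have t2 : t ^ 2 = 1 := P.faith _ fun π l h => by
    apply Units.ext
    rw [map_pow, Units.val_pow_eq_pow_val, tm π l h]
    simp
  have tc : ∀ x, t * x = x * t := fun x => by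
    have : t * x * (x * t)⁻¹ = 1 := P.faith _ fun π l h => by
      rw [map_mul, map_inv, mul_inv_eq_one]
      apply Units.ext
      rw [map_mul, map_mul, Units.val_mul, Units.val_mul, tm π l h]
      simp
    exact mul_inv_eq_one.mp this
  let U : AddSubgroup V :=
    { carrier := {v | ρ t v = v}
      zero_mem' := map_zero _
      add_mem' := fun {a b} ha hb => by
        change ρ t (a + b) = a + b
        rw [map_add, show ρ t a = a from ha, show ρ t b = b from hb]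
      neg_mem' := fun {a} ha => by
        change ρ t (-a) = -a
        rw [map_neg, show ρ t a = a from ha] }
  have hU : ∀ x, ∀ v ∈ U, ρ x v ∈ U := by
    intro x v hv
    change (ρ t * ρ x) v = ρ x v
    rw [← map_mul, tc, map_mul]
    change ρ x (ρ t v) = ρ x v
    rw [show ρ t v = v from hv]
  obtain ⟨σ, hσ⟩ := restr_FPT U hU
  have s3 : (3 : AddMonoid.End U) = 0 := by
    ext u
    have := DFunLike.congr_fun h3 (u : V)
    simpa using this
  have sq : ∀ x, Quad ρ x → Quad σ x := by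
    intro x hx
    ext u
    have : ρ x (ρ x u - u) - (ρ x u - u) = 0 := DFunLike.congr_fun hx (u : V)
    change ((σ x (σ x u - u) - (σ x u - u) : U) : V) = 0
    simpa [hσ] using this
  have st : σ t = 1 := by
    ext u
    rw [hσ]
    exact u.2
  have kt : σ.ker = ⊤ := by
    refine perf P no inferInstance fun x => k1 s3 (sq d hd) (sq w hw) gen fun π l h hk => ?_
    have e := tm π l h
    rw [hk t st] at e
    have e0 := congrFun (congrFun e 0) 0
    simp at e0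
    exfalso
    have : (1 : KK) = 0 := by linear_combination three_FPT - e0
    exact one_ne_zero this
  have fix : ∀ x v, ρ t v = v → ρ x v = v := by
    intro x v hv
    have hx : σ x = 1 := by
      have : x ∈ σ.ker := kt ▸ Subgroup.mem_top x
      exact this
    rw [← hσ x ⟨v, hv⟩, hx]
    rfl
  exact Or.inr (Or.inr ⟨w₂, q2, w2M, gen_of_t h3 hd q2 br t2 fun v hv => ⟨fix d v hv, fix w₂ v hv⟩⟩)

end Pool.Agent.MP_a5588a_al.Full

end

section

namespace Pool.Agent.MP_a5588a_al.Full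

open Pool.Agent.MP_a5588a_al.Solv
open scoped commutatorElement

universe u v

variable {G : Type u} {V : Type v} [Group G] [Finite G] [AddCommGroup V] [Finite V]
  {ρ : G →* AddMonoid.End V} {M : Subgroup G}

omit [Finite G] in
theorem zp_FSE {x : G} (h : El3 x) : IsPGroup 3 (Subgroup.zpowers x) := by
  obtain ⟨n, hn⟩ := h
  rintro ⟨_, m, rfl⟩
  refine ⟨n, Subtype.ext ?_⟩
  change (x ^ m) ^ 3 ^ n = 1
  rw [← zpow_natCast, ← zpow_mul, mul_comm, zpow_mul, zpow_natCast, hn, one_zpow]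

theorem conj_FSE (S : Sylow 3 G) {Y : Subgroup G} (hS : (S : Subgroup G) ≤ Y) {x : G} (hx : x ∈ Y)
    (h : El3 x) : ∃ y ∈ Y, y⁻¹ * x * y ∈ (S : Subgroup G) := by
  obtain ⟨y, h1, h2⟩ := sylow_conj hS S.isPGroup' (fun _ _ b c => S.is_maximal' b c)
    (Subgroup.zpowers_le.2 hx) (zp_FSE h)
  exact ⟨y, h1, h2 x (Subgroup.mem_zpowers x)⟩

theorem syl_FSE (h : TI ρ M) {d : G} (hd : Quad ρ d) : ∃ S : Sylow 3 G, d ∈ (S : Subgroup G) := by
  obtain ⟨S, hS⟩ := (zp_FSE (x := d) ⟨1, h.cube hd⟩).exists_le_sylow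
  exact ⟨S, hS (Subgroup.mem_zpowers d)⟩

theorem pow_FSE {d w : G} (hd : Quad ρ d) (hw : Quad ρ w) {x : G}
    (hx : x ∈ Subgroup.closure {d, w}) (k : ℕ) (v : V) :
    (ac ρ d w ^ k) (ρ x v) = ρ x ((ac ρ d w ^ k) v) :=
  DFunLike.congr_fun ((ac_comm hd hw hx).pow_left k).eq v

theorem fix_FSE {d w x : G} (hd : Quad ρ d) (hw : Quad ρ w) (hx : x ∈ Subgroup.closure {d, w})
    (hg : ∀ v, ac ρ d w ((ρ x - 1) v) = 0 → (ρ x - 1) v = 0) {k : ℕ} {v : V}
    (hv : (ac ρ d w ^ k) v = 0) : ρ x v = v := by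
  have c : Commute (ac ρ d w) (ρ x - 1) := (ac_comm hd hw hx).sub_right (Commute.one_right _)
  have key : ∀ (k : ℕ) (v : V), (ac ρ d w ^ k) ((ρ x - 1) v) = 0 → (ρ x - 1) v = 0 := by
    intro k
    induction k with
    | zero => exact fun v e => e
    | succ k ih =>
      intro v e
      have e1 : ac ρ d w ((ρ x - 1) v) = (ρ x - 1) (ac ρ d w v) := DFunLike.congr_fun c.eq v
      refine hg v (e1.trans (ih _ ?_))
      rw [← e1]
      rwa [pow_succ] at e
  have e2 : (ac ρ d w ^ k) ((ρ x - 1) v) = (ρ x - 1) ((ac ρ d w ^ k) v) :=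
    DFunLike.congr_fun (c.pow_left k).eq v
  exact sub_eq_zero.1 (key k v (by rw [e2, hv, map_zero]))

theorem se_gnc (h : TI ρ M) {d w : G} (hd : Quad ρ d) (hw : Quad ρ w)
    (gen : Subgroup.closure {d, w} = ⊤) (d1 : d ≠ 1) (dM : d ∈ M) (wM : w ∉ M) (hg : Gnc ρ d w) :
    SE M := by
  intro x xM x1 x3 g hx
  obtain ⟨S, dS⟩ := syl_FSE h hd
  obtain ⟨y, -, hy⟩ := conj_FSE S le_top (Subgroup.mem_top x) x3
  have h0 : ∀ z ∈ Subgroup.closure {d, w}, ∀ v, (∃ k : ℕ, (ac ρ d w ^ k) v = 0) → ρ z v = v := by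
    rintro z hz v ⟨k, hk⟩
    induction hz using Subgroup.closure_induction with
    | mem z hz =>
      rcases hz with rfl | rfl
      · exact fix_FSE hd hw (Subgroup.subset_closure (by simp)) hg.1 hk
      · exact fix_FSE hd hw (Subgroup.subset_closure (by simp)) hg.2 hk
    | one => rw [map_one]; rfl
    | mul a b _ _ ha hb => rw [map_mul, AddMonoid.End.coe_mul, Function.comp_apply, hb, ha]
    | inv a _ ha =>
      conv_lhs => rw [← ha]
      change (ρ a⁻¹ * ρ a) v = v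
      rw [← map_mul, inv_mul_cancel, map_one]
      rfl
  have q := (sex0 h hd hw gen d1 dM wM S.isPGroup' dS hy (h0 _ (gen ▸ Subgroup.mem_top _))).conj y
  rw [show y * (y⁻¹ * x * y) * y⁻¹ = x by group] at q
  exact h.h2 x xM x1 q g hx

/-- The kernel on the generalised null space of the anticommutator. -/
def K0_FSE (ρ : G →* AddMonoid.End V) (d w : G) : Subgroup G where
  carrier := {y | ∀ v, (∃ k : ℕ, (ac ρ d w ^ k) v = 0) → ρ y v = v}
  one_mem' v _ := by rw [map_one]; rfl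
  mul_mem' {a b} ha hb v hv := by
    rw [map_mul, AddMonoid.End.coe_mul, Function.comp_apply, hb v hv, ha v hv]
  inv_mem' {a} ha v hv := by
    conv_lhs => rw [← ha v hv]
    change (ρ a⁻¹ * ρ a) v = v
    rw [← map_mul, inv_mul_cancel, map_one]
    rfl

theorem gen_FSE {K : Subgroup G} [K.Normal] (h3 : ∀ x : G, ∃ n : ℕ, x ^ 3 ^ n ∈ K) {d w : G}
    (gen : Subgroup.closure {d, w} = ⊤) (y : G) :
    Subgroup.closure {d, y⁻¹ * w * y} ⊔ K = ⊤ := by
  have : Fact (Nat.Prime 3) := ⟨Nat.prime_three⟩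
  have p : IsPGroup 3 (G ⧸ K) := fun x => by
    obtain ⟨x, rfl⟩ := QuotientGroup.mk_surjective x
    obtain ⟨n, hn⟩ := h3 x
    exact ⟨n, (QuotientGroup.eq_one_iff _).2 hn⟩
  have := p.isNilpotent
  rcases eq_top_or_exists_le_coatom
    ((Subgroup.closure {d, y⁻¹ * w * y}).map (QuotientGroup.mk' K)) with e | ⟨C, hC, e⟩
  · have := congrArg (Subgroup.comap (QuotientGroup.mk' K)) e
    rwa [Subgroup.comap_map_eq, QuotientGroup.ker_mk', Subgroup.comap_top] at this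
  · have n : C.Normal :=
      Subgroup.NormalizerCondition.normal_of_coatom C Group.normalizerCondition_of_isNilpotent hC
    have le := Subgroup.map_le_iff_le_comap.1 e
    have w1 := (n.comap (QuotientGroup.mk' K)).conj_mem _
      (le (Subgroup.subset_closure (show y⁻¹ * w * y ∈ _ by simp))) y
    rw [show y * (y⁻¹ * w * y) * y⁻¹ = w by group] at w1
    have t : ⊤ ≤ C.comap (QuotientGroup.mk' K) := by
      rw [← gen, Subgroup.closure_le]
      rintro z (rfl | rfl)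
      · exact le (Subgroup.subset_closure (by simp))
      · exact w1
    refine absurd (eq_top_iff.2 fun x _ => ?_) hC.1
    obtain ⟨x, rfl⟩ := QuotientGroup.mk_surjective x
    exact t (Subgroup.mem_top x)

theorem se_ab (h : TI ρ M) (ab : AB ρ) (cf : CFx ρ M) {d w : G} (hd : Quad ρ d) (hw : Quad ρ w)
    (gen : Subgroup.closure {d, w} = ⊤) (d1 : d ≠ 1) (dM : d ∈ M) (wM : w ∉ M) : SE M := by
  have all : ∀ x : G, x ∈ Subgroup.closure {d, w} := fun x => gen ▸ Subgroup.mem_top x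
  have nK : (K0_FSE ρ d w).Normal := ⟨fun a ha g v ⟨k, hk⟩ => by
    have e := ha (ρ g⁻¹ v) ⟨k, by rw [pow_FSE hd hw (all _), hk, map_zero]⟩
    rw [map_mul, map_mul]
    change ρ g (ρ a (ρ g⁻¹ v)) = v
    rw [e]
    change (ρ g * ρ g⁻¹) v = v
    rw [← map_mul, mul_inv_cancel, map_one]
    rfl⟩
  obtain ⟨S, dS⟩ := syl_FSE h hd
  have SM : (S : Subgroup G) ≤ M := h.syl dM d1 hd S.isPGroup' dS
  obtain ⟨y, -, hy⟩ := conj_FSE S le_top (Subgroup.mem_top w) ⟨1, h.cube hw⟩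
  have top := gen_FSE (K := K0_FSE ρ d w) (fun x => nil0 h.three hd hw (all x)) gen y
  have le1 : Subgroup.closure {d, y⁻¹ * w * y} ≤
      Subgroup.closure {x | x ∈ (S : Subgroup G) ∧ Quad ρ x} := Subgroup.closure_mono (by
    rintro z (rfl | rfl)
    · exact ⟨dS, hd⟩
    · exact ⟨hy, by simpa only [inv_inv] using hw.conj y⁻¹⟩)
  have le2 : Subgroup.closure {x | x ∈ (S : Subgroup G) ∧ Quad ρ x} ≤ S :=
    (Subgroup.closure_le _).2 fun _ hx => hx.1
  have le3 : (S : Subgroup G) ≤ Subgroup.closure {x | x ∈ (S : Subgroup G) ∧ Quad ρ x} := by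
    intro x hx
    have : x ∈ Subgroup.closure {d, y⁻¹ * w * y} ⊔ K0_FSE ρ d w := top ▸ Subgroup.mem_top x
    obtain ⟨a, ha, b, hb, rfl⟩ := Subgroup.mem_sup_of_normal_right.1 this
    have bS : b ∈ (S : Subgroup G) := (Subgroup.mul_mem_cancel_left _ (le2 (le1 ha))).1 hx
    exact mul_mem (le1 ha)
      (Subgroup.subset_closure ⟨bS, sex0 h hd hw gen d1 dM wM S.isPGroup' dS bS hb⟩)
  intro x xM x1 x3 g hx
  obtain ⟨m₁, h1, e1⟩ := conj_FSE S SM xM x3
  obtain ⟨m₂, h2, e2⟩ := conj_FSE S SM hx (x3.imp fun n hn => by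
    rw [← inv_inv g, inv_inv g⁻¹, conj_pow, hn, mul_one, mul_inv_cancel])
  have c := (ab.abl h S.isPGroup').1 _ (le3 e1) _ (le3 dS)
  have k := cf S S.isPGroup' SM _ (le3 e2) (fun e => x1 (by
    rw [show x = g * m₂ * (m₂⁻¹ * (g⁻¹ * x * g) * m₂) * (g * m₂)⁻¹ by group, e]
    group)) ((m₁⁻¹ * g * m₂)⁻¹ * d * (m₁⁻¹ * g * m₂)) (by
      change _ * _ = _ * _
      calc _ = (m₁⁻¹ * g * m₂)⁻¹ * (m₁⁻¹ * x * m₁ * d) * (m₁⁻¹ * g * m₂) := by group
        _ = _ := by rw [c]; group)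
  have k2 := h.h2 d dM d1 hd _ k
  rwa [M.mul_mem_cancel_right h2, M.mul_mem_cancel_left (inv_mem h1)] at k2

omit [Finite G] in
theorem top_FSE {d w : G} (dX : d ∈ Subgroup.closure {d, w}) (wX : w ∈ Subgroup.closure {d, w}) :
    Subgroup.closure ({⟨d, dX⟩, ⟨w, wX⟩} : Set (Subgroup.closure {d, w})) = ⊤ := by
  rw [← Subgroup.closure_closure_coe_preimage]
  congr 1
  ext z
  simp [Subtype.ext_iff]

theorem pt_FSE (h : TI ρ M) {d w : G} (hd : Quad ρ d) (hw : Quad ρ w) (d1 : d ≠ 1) (dM : d ∈ M)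
    (wM : w ∉ M) (se : SE (M.subgroupOf (Subgroup.closure {d, w}))) :
    Braid d w ∨ Braid d w⁻¹ ∨ ∃ w', Quad ρ w' ∧ w' ∉ M ∧ Gen ρ d w' := by
  have dX : d ∈ Subgroup.closure {d, w} := Subgroup.subset_closure (by simp)
  have wX : w ∈ Subgroup.closure {d, w} := Subgroup.subset_closure (by simp)
  have t := h.sub dM d1 hd dX
  rcases pt0 (d := ⟨d, dX⟩) (w := ⟨w, wX⟩) t.three t.inj hd hw (top_FSE dX wX)
    (fun e => d1 (congrArg Subtype.val e)) dM wM t.idx se with e | e | ⟨w', a, b, c⟩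
  · exact Or.inl (congrArg Subtype.val e)
  · exact Or.inr (Or.inl (congrArg Subtype.val e))
  · exact Or.inr (Or.inr ⟨w', a, b, c⟩)

theorem pt_gnc (h : TI ρ M) {d w : G} (hd : Quad ρ d) (hw : Quad ρ w) (d1 : d ≠ 1) (dM : d ∈ M)
    (wM : w ∉ M) (hg : Gnc ρ d w) : ∃ w', Quad ρ w' ∧ w' ∉ M ∧ Gen ρ d w' := by
  have dX : d ∈ Subgroup.closure {d, w} := Subgroup.subset_closure (by simp)
  have wX : w ∈ Subgroup.closure {d, w} := Subgroup.subset_closure (by simp)
  rcases pt_FSE h hd hw d1 dM wM (se_gnc (d := ⟨d, dX⟩) (w := ⟨w, wX⟩) (h.sub dM d1 hd dX) hd hw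
    (top_FSE dX wX) (fun e => d1 (congrArg Subtype.val e)) dM wM hg) with e | e | e
  · exact ⟨w, hw, wM, gen_of_gnc hd hw e hg⟩
  · exact ⟨w⁻¹, hw.inv.1, fun k => wM (M.inv_mem_iff.1 k), gen_of_gnc hd hw.inv.1 e (hg.inv hw)⟩
  · exact e

theorem pt_ab (h : TI ρ M) (ab : AB ρ) (cf : CFx ρ M) {d w : G} (hd : Quad ρ d) (hw : Quad ρ w)
    (d1 : d ≠ 1) (dM : d ∈ M) (wM : w ∉ M) :
    Braid d w ∨ Braid d w⁻¹ ∨ ∃ w', Quad ρ w' ∧ w' ∉ M ∧ Gen ρ d w' := by
  have dX : d ∈ Subgroup.closure {d, w} := Subgroup.subset_closure (by simp)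
  have wX : w ∈ Subgroup.closure {d, w} := Subgroup.subset_closure (by simp)
  exact pt_FSE h hd hw d1 dM wM (se_ab (d := ⟨d, dX⟩) (w := ⟨w, wX⟩) (h.sub dM d1 hd dX)
    (ab.sub _) (cf.sub _) hd hw (top_FSE dX wX) (fun e => d1 (congrArg Subtype.val e)) dM wM)

end Pool.Agent.MP_a5588a_al.Full

end
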