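import Pool.Agent.Mg.Fa5588aa.Ge45d38

section

/-! Chains of subgroups generated by a conjugation invariant family. -/

namespace Pool.Agent.MP_a5588a_al.Full

open Pool.Agent.MP_a5588a_al.Solv
open scoped commutatorElement

universe u v

variable {G : Type u} [Group G] [Finite G]

/-- The join of the members of the family inside `S`. -/
def gn (𝒞 : Set (Subgroup G)) (S : Subgroup G) : Subgroup G := sSup {C | C ∈ 𝒞 ∧ C ≤ S}

omit [Finite G] in
theorem mem_FChain {H : Subgroup G} {g x : G} :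
    x ∈ H.map (MulAut.conj g⁻¹).toMonoidHom ↔ g * x * g⁻¹ ∈ H := by
  rw [Subgroup.mem_map_equiv]
  simp

omit [Finite G] in
theorem le_FChain {𝒞 : Set (Subgroup G)} {S : Subgroup G} : gn 𝒞 S ≤ S :=
  sSup_le fun _ h => h.2

omit [Finite G] in
theorem ge_FChain {𝒞 : Set (Subgroup G)} {C S : Subgroup G} (h : C ∈ 𝒞) (h' : C ≤ S) :
    C ≤ gn 𝒞 S := le_sSup ⟨h, h'⟩

omit [Finite G] in
theorem mono_FChain {𝒞 : Set (Subgroup G)} {S T : Subgroup G} (h : S ≤ T) : gn 𝒞 S ≤ gn 𝒞 T :=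
  sSup_le fun _ hC => ge_FChain hC.1 (hC.2.trans h)

omit [Finite G] in
theorem map_FChain {𝒞 : Set (Subgroup G)}
    (hc : ∀ C ∈ 𝒞, ∀ g : G, C.map (MulAut.conj g).toMonoidHom ∈ 𝒞) (S : Subgroup G) (g : G) :
    (gn 𝒞 S).map (MulAut.conj g).toMonoidHom ≤ gn 𝒞 (S.map (MulAut.conj g).toMonoidHom) :=
  Subgroup.map_le_iff_le_comap.2 (sSup_le fun C hC => Subgroup.map_le_iff_le_comap.1
    (ge_FChain (hc C hC.1 g) (Subgroup.map_mono hC.2)))

omit [Finite G] in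
theorem cl_FChain {𝒞 : Set (Subgroup G)}
    (hc : ∀ C ∈ 𝒞, ∀ g : G, C.map (MulAut.conj g).toMonoidHom ∈ 𝒞) {S : Subgroup G}
    (h : gn 𝒞 S = S) (g : G) :
    gn 𝒞 (S.map (MulAut.conj g).toMonoidHom) = S.map (MulAut.conj g).toMonoidHom := by
  refine le_antisymm le_FChain ?_
  conv_lhs => rw [← h]
  exact map_FChain hc S g

omit [Finite G] in
theorem norm_FChain {𝒞 : Set (Subgroup G)}
    (hc : ∀ C ∈ 𝒞, ∀ g : G, C.map (MulAut.conj g).toMonoidHom ∈ 𝒞) (S : Subgroup G) :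
    Subgroup.normalizer (S : Set G) ≤ Subgroup.normalizer (gn 𝒞 S : Set G) := by
  have k : ∀ x ∈ Subgroup.normalizer (S : Set G), ∀ y, x * y * x⁻¹ ∈ gn 𝒞 S → y ∈ gn 𝒞 S :=
    fun x hx y hy => mono_FChain
      (fun z hz => (Subgroup.mem_normalizer_iff.1 hx z).2 (mem_FChain.1 hz))
      (map_FChain hc S x⁻¹ (mem_FChain.2 hy))
  refine fun x hx => Subgroup.mem_normalizer_iff.2 fun y => ⟨fun hy => ?_, k x hx y⟩
  exact k x⁻¹ (Subgroup.inv_mem _ hx) _ (by simpa [mul_assoc] using hy)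

theorem grow_FChain {P S : Subgroup G} (hS : IsPGroup 3 S) (hPS : P ≤ S)
    (h : S ⊓ Subgroup.normalizer (P : Set G) ≤ P) : P = S := by
  have : Fact (Nat.Prime 3) := ⟨Nat.prime_three⟩
  have := hS.isNilpotent
  by_contra hne
  have h1 : P.subgroupOf S < ⊤ := lt_top_iff_ne_top.2 fun h =>
    hne (le_antisymm hPS (Subgroup.subgroupOf_eq_top.1 h))
  obtain ⟨x, hx, hxP⟩ := SetLike.exists_of_lt (Group.normalizerCondition_of_isNilpotent _ h1)
  rw [← Subgroup.subgroupOf_normalizer_eq hPS] at hx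
  exact hxP (h ⟨x.2, hx⟩)

theorem syl_FChain {M D : Subgroup G} (hM : ¬ 3 ∣ M.index) (hD : IsPGroup 3 D) (h : D ≤ M) :
    ∃ S : Sylow 3 G, D ≤ S ∧ (S : Subgroup G) ≤ M := by
  have : Fact (Nat.Prime 3) := ⟨Nat.prime_three⟩
  obtain ⟨P, hP⟩ := (hD.comap_subtype (K := M)).exists_le_sylow
  refine ⟨(P.isPGroup'.map M.subtype).toSylow ?_, fun x hx => ⟨⟨x, h hx⟩, hP hx, rfl⟩,
    Subgroup.map_subtype_le _⟩
  rw [Subgroup.index_map_subtype, Nat.prime_three.dvd_mul, not_or]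
  exact ⟨P.not_dvd_index, hM⟩

theorem chain {𝒞 : Set (Subgroup G)}
    (hc : ∀ C ∈ 𝒞, ∀ g : G, C.map (MulAut.conj g).toMonoidHom ∈ 𝒞) {S D : Subgroup G}
    (hS : IsPGroup 3 S) (hDS : D ≤ S) (hD : gn 𝒞 D = D) (hne : gn 𝒞 S ≠ D) :
    ∃ C ∈ 𝒞, C ≤ S ∧ C ≤ Subgroup.normalizer (D : Set G) ∧ ¬ C ≤ D := by
  by_contra hn
  have hN : D ≤ S ⊓ Subgroup.normalizer (D : Set G) := le_inf hDS Subgroup.le_normalizer
  have e : gn 𝒞 (S ⊓ Subgroup.normalizer (D : Set G)) = D := le_antisymm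
    (sSup_le fun C hC => by_contra fun h =>
      hn ⟨C, hC.1, hC.2.trans inf_le_left, hC.2.trans inf_le_right, h⟩)
    (hD.ge.trans (mono_FChain hN))
  have k := norm_FChain hc (S ⊓ Subgroup.normalizer (D : Set G))
  rw [e] at k
  rw [grow_FChain hS inf_le_left (inf_le_inf_left S k)] at e
  exact hne e

theorem mx {𝒞 : Set (Subgroup G)}
    (hc : ∀ C ∈ 𝒞, ∀ g : G, C.map (MulAut.conj g).toMonoidHom ∈ 𝒞) {M D₁ : Subgroup G}
    (hM : ¬ 3 ∣ M.index) (hW : ∀ S : Sylow 3 G, (S : Subgroup G) ≤ M → UFix (gn 𝒞 S) M)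
    (h₁ : IsPGroup 3 D₁) (h₂ : gn 𝒞 D₁ = D₁) (h₃ : D₁ ≤ M) (h₄ : ¬ UFix D₁ M) :
    ∃ D : Subgroup G, IsPGroup 3 D ∧ gn 𝒞 D = D ∧ D ≤ M ∧ ¬ UFix D M ∧
      Nat.card D₁ ≤ Nat.card D ∧
      (∀ D' : Subgroup G, IsPGroup 3 D' → gn 𝒞 D' = D' → Nat.card D < Nat.card D' → ∀ g h : G,
        (∀ x ∈ D', g⁻¹ * x * g ∈ M) → (∀ x ∈ D', h⁻¹ * x * h ∈ M) → g⁻¹ * h ∈ M) ∧
      ¬ Subgroup.normalizer (D : Set G) ≤ M := by
  obtain ⟨D, ⟨d1, d2, d3, d4⟩, hmax⟩ := Set.exists_max_image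
    {D : Subgroup G | IsPGroup 3 D ∧ gn 𝒞 D = D ∧ D ≤ M ∧ ¬ UFix D M} (fun D => Nat.card D)
    (Set.toFinite _) ⟨D₁, h₁, h₂, h₃, h₄⟩
  have cd : ∀ (H : Subgroup G) (g : G),
      Nat.card (H.map (MulAut.conj g).toMonoidHom) = Nat.card H := fun H g =>
    Subgroup.card_map_of_injective (MulAut.conj g).injective
  have sub : ∀ (H : Subgroup G) (g : G), (∀ x ∈ H, g⁻¹ * x * g ∈ M) →
      H.map (MulAut.conj g⁻¹).toMonoidHom ≤ M := fun H g h x hx => by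
    simpa [mul_assoc] using h _ (mem_FChain.1 hx)
  have key : ∀ D' : Subgroup G, IsPGroup 3 D' → gn 𝒞 D' = D' → Nat.card D < Nat.card D' →
      ∀ g h : G, (∀ x ∈ D', g⁻¹ * x * g ∈ M) → (∀ x ∈ D', h⁻¹ * x * h ∈ M) → g⁻¹ * h ∈ M := by
    intro D' a1 a2 a3 g h hg hh
    have u : UFix (D'.map (MulAut.conj g⁻¹).toMonoidHom) M := by_contra fun hu =>
      a3.not_ge ((cd D' g⁻¹).ge.trans (hmax _ ⟨a1.map _, cl_FChain hc a2 _, sub D' g hg, hu⟩))
    exact u _ fun r hr => by simpa [mul_assoc] using hh _ (mem_FChain.1 hr)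
  refine ⟨D, d1, d2, d3, d4, hmax D₁ ⟨h₁, h₂, h₃, h₄⟩, key, fun hN => d4 fun g hg => ?_⟩
  obtain ⟨S, s1, s2⟩ := syl_FChain hM (d1.map _) (sub D g hg)
  have c0 := cl_FChain hc d2 g⁻¹
  rw [← M.inv_mem_iff]
  by_cases e : gn 𝒞 S = D.map (MulAut.conj g⁻¹).toMonoidHom
  · refine hW S s2 _ fun r hr => ?_
    rw [e, mem_FChain] at hr
    simpa using d3 hr
  obtain ⟨C, c1, c2, c3, c4⟩ := chain hc S.isPGroup' s1 c0 e
  have s3 := sup_le s1 c2
  have := key _ (S.isPGroup'.to_le s3) (le_antisymm le_FChain (sup_le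
    (c0.ge.trans (mono_FChain le_sup_left)) (ge_FChain c1 le_sup_right)))
    ((cd D g⁻¹).ge.trans_lt (lt_of_not_ge fun h => c4
      (le_sup_right.trans (Subgroup.eq_of_le_of_card_ge le_sup_left h).ge))) 1 g⁻¹
    (fun x hx => by simpa using s2 (s3 hx)) fun x hx => hN ?_
  · simpa using this
  have hx' := Subgroup.mem_normalizer_iff.1 (sup_le Subgroup.le_normalizer c3 hx)
  refine Subgroup.mem_normalizer_iff.2 fun y => ?_
  have h := hx' (g⁻¹ * y * g)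
  rw [mem_FChain, mem_FChain] at h
  simpa [mul_assoc] using h

end Pool.Agent.MP_a5588a_al.Full

end

section

/-! The local subgroup with a unique maximal overgroup. -/

namespace Pool.Agent.MP_a5588a_al.Full

open Pool.Agent.MP_a5588a_al.Solv
open scoped commutatorElement

universe u v

variable {G : Type u} [Group G] [Finite G] {A : Type v} [CommGroup A]

omit [Finite G] in
theorem mem_FLL {H : Subgroup G} {g x : G} :
    x ∈ H.map (MulAut.conj g).toMonoidHom ↔ g⁻¹ * x * g ∈ H := by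
  rw [Subgroup.mem_map_equiv]; simp

omit [Finite G] in
theorem le_gn_FLL {𝒞 : Set (Subgroup G)} {C S : Subgroup G} (h : C ∈ 𝒞) (hS : C ≤ S) :
    C ≤ gn 𝒞 S := le_sSup ⟨h, hS⟩

omit [Finite G] in
theorem gn_le_FLL {𝒞 : Set (Subgroup G)} {S : Subgroup G} : gn 𝒞 S ≤ S :=
  sSup_le fun _ h => h.2

omit [Finite G] in
theorem gn_mono_FLL {𝒞 : Set (Subgroup G)} {S S' : Subgroup G} (h : S ≤ S') :
    gn 𝒞 S ≤ gn 𝒞 S' := sSup_le fun _ hC => le_gn_FLL hC.1 (hC.2.trans h)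

omit [Finite G] in
theorem gn_map_FLL {𝒞 : Set (Subgroup G)}
    (hc : ∀ C ∈ 𝒞, ∀ g : G, C.map (MulAut.conj g).toMonoidHom ∈ 𝒞) {S S' : Subgroup G} {g : G}
    (h : (gn 𝒞 S).map (MulAut.conj g).toMonoidHom ≤ S') :
    (gn 𝒞 S).map (MulAut.conj g).toMonoidHom ≤ gn 𝒞 S' := by
  rw [Subgroup.map_le_iff_le_comap]
  refine sSup_le fun C hC => ?_
  rw [← Subgroup.map_le_iff_le_comap]
  exact le_gn_FLL (hc C hC.1 g) ((Subgroup.map_mono (le_gn_FLL hC.1 hC.2)).trans h)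

theorem norm_FLL {W : Subgroup G} {g : G} (h : W.map (MulAut.conj g).toMonoidHom ≤ W) :
    g ∈ Subgroup.normalizer (W : Set G) :=
  Subgroup.mem_normalizer_fintype fun n hn => h (mem_FLL.2 (by simpa [mul_assoc] using hn))

theorem into_FLL {M H : Subgroup G} (S : Sylow 3 G) (hS : (S : Subgroup G) ≤ M)
    (hH : IsPGroup 3 H) (hM : H ≤ M) : ∃ m ∈ M, H.map (MulAut.conj m).toMonoidHom ≤ S := by
  haveI : Fact (Nat.Prime 3) := ⟨Nat.prime_three⟩
  obtain ⟨P, hP⟩ := (hH.comap_of_injective M.subtype M.subtype_injective).exists_le_sylow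
  obtain ⟨m, hm⟩ := MulAction.exists_smul_eq M P (S.subtype hS)
  refine ⟨m, m.2, ?_⟩
  rintro _ ⟨x, hx, rfl⟩
  have h1 : (⟨x, hM hx⟩ : M) ∈ (P : Subgroup M) := hP hx
  have h2 : m * ⟨x, hM hx⟩ * m⁻¹ ∈ ((m • P : Sylow 3 M) : Subgroup M) := by
    rw [Sylow.coe_subgroup_smul]
    exact Subgroup.smul_mem_pointwise_smul _ (MulAut.conj m) _ h1
  rw [hm] at h2
  exact h2

theorem ufix_FLL {𝒞 : Set (Subgroup G)}
    (hc : ∀ C ∈ 𝒞, ∀ g : G, C.map (MulAut.conj g).toMonoidHom ∈ 𝒞) (T : Sylow 3 G)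
    {M : Subgroup G} (hT : (T : Subgroup G) ≤ M) (nn : ¬ (gn 𝒞 T).Normal)
    (um : ∀ K : Subgroup G, (T : Subgroup G) ≤ K → K ≠ ⊤ → K ≤ M) {S : Subgroup G} {m : G}
    (hm : m ∈ M) (hS : (T : Subgroup G).map (MulAut.conj m).toMonoidHom ≤ S) :
    UFix (gn 𝒞 S) M := by
  have hN : Subgroup.normalizer (gn 𝒞 T : Set G) ≤ M := by
    refine um _ (fun t ht => norm_FLL (gn_map_FLL hc fun x hx => ?_)) fun e =>
      nn (Subgroup.normalizer_eq_top_iff.1 e)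
    have h1 := gn_le_FLL (mem_FLL.1 hx)
    have h2 := T.1.mul_mem (T.1.mul_mem ht h1) (T.1.inv_mem ht)
    simpa [mul_assoc] using h2
  have hU : UFix (gn 𝒞 T) M := by
    intro g hg
    obtain ⟨k, hk, hle⟩ := into_FLL T hT ((T.2.to_le gn_le_FLL).map (MulAut.conj g⁻¹).toMonoidHom)
      (by rintro _ ⟨x, hx, rfl⟩; simpa using hg x hx)
    have h1 : k * g⁻¹ ∈ M := hN (norm_FLL (gn_map_FLL hc fun x hx => hle (by
      rw [mem_FLL, mem_FLL]
      simpa [mul_assoc] using mem_FLL.1 hx)))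
    simpa using M.inv_mem (M.mul_mem (M.inv_mem hk) h1)
  intro g hg
  have h1 : m⁻¹ * g ∈ M := hU _ fun r hr => by
    have h2 : m * r * m⁻¹ ∈ gn 𝒞 S :=
      gn_map_FLL hc ((Subgroup.map_mono gn_le_FLL).trans hS) ⟨r, hr, rfl⟩
    simpa [mul_assoc] using hg _ h2
  simpa using M.mul_mem hm h1

theorem core_FLL : ∃ P : Subgroup G, P.Normal ∧ IsPGroup 3 P ∧
    ∀ K : Subgroup G, K.Normal → IsPGroup 3 K → K ≤ P := by
  obtain ⟨S⟩ : Nonempty (Sylow 3 G) := inferInstance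
  refine ⟨S.1.normalCore, inferInstance, S.2.to_le S.1.normalCore_le, fun K hK h3 => ?_⟩
  rw [Subgroup.normal_le_normalCore, ← S.3 (h3.to_sup_of_normal_left S.2) le_sup_right]
  exact le_sup_left

omit [Finite G] in
theorem EE_FLL {Q L : Subgroup G} {Y : Set G} (h : EE Q Y ≤ L) :
    EE (Q.subgroupOf L) (L.subtype ⁻¹' Y) = (EE Q Y).subgroupOf L := by
  apply Subgroup.map_injective L.subtype_injective
  have h1 : Y ⊆ Set.range L.subtype := fun y hy =>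
    ⟨⟨y, h (Subgroup.mem_sup_right (Subgroup.subset_closure hy))⟩, rfl⟩
  rw [Subgroup.subgroupOf_map_subtype, inf_of_le_left h, EE, Subgroup.map_sup,
    Subgroup.subgroupOf_map_subtype, inf_of_le_left (le_sup_left.trans h), MonoidHom.map_closure,
    Set.image_preimage_eq_of_subset h1, EE]

theorem node_FLL {Q D M : Subgroup G} [hQ : Q.Normal] {θ : G → A} (hθ : MulOn Q θ) {Y : Set G}
    (e : M = Stab Q θ) (hM : ¬ 3 ∣ M.index) (h3 : IsPGroup 3 ↥(D ⊔ EE Q Y))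
    (hN : EE Q Y ≤ Subgroup.normalizer (D : Set G)) (hU : UFix (D ⊔ EE Q Y) M)
    (hn : ¬ Subgroup.normalizer (D : Set G) ≤ M) :
    ∃ (L : Subgroup G) (P : Subgroup L), EE Q Y ≤ L ∧
      Nd (Q.subgroupOf L) P (L.subtype ⁻¹' Y) fun x : L => θ x := by
  obtain ⟨L, hRL, hLN, -, hum⟩ := exists_um hM h3 (sup_le Subgroup.le_normalizer hN) hU hn
  obtain ⟨P, nP, pP, mP⟩ := core_FLL (G := L)
  have hE : EE Q Y ≤ L := le_sup_right.trans hRL
  have hQL : Q ≤ L := le_sup_left.trans hE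
  have p1 : ∀ K : Subgroup G, K ≤ D ⊔ EE Q Y → IsPGroup 3 (K.subgroupOf L) := fun K hK =>
    (h3.to_le hK).comap_of_injective L.subtype L.subtype_injective
  have hs : Stab (Q.subgroupOf L) (fun x : L => θ x) = M.subgroupOf L := by
    ext g
    rw [e]
    exact ⟨fun h x hx => h ⟨x, hQL hx⟩ hx, fun h x hx => h x hx⟩
  have hR : (D ⊔ EE Q Y).subgroupOf L ≤ P ⊔ EE (Q.subgroupOf L) (L.subtype ⁻¹' Y) := by
    rw [EE_FLL hE, Subgroup.subgroupOf_sup (le_sup_left.trans hRL) hE]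
    exact sup_le_sup_right
      (mP _ (Subgroup.normal_subgroupOf_of_le_normalizer hLN) (p1 _ le_sup_left)) _
  refine ⟨L, P, hE, nP, pP, mP, mP _ inferInstance (p1 _ (le_sup_left.trans le_sup_right)),
    fun x hx y hy => hθ _ hx _ hy, ?_⟩
  rw [hs]
  refine ⟨?_, hum.ne, fun K hK => hum.um K (hR.trans hK),
    fun K h1 h2 hK => hum.nn K h1 h2 (hR.trans hK)⟩
  rw [EE_FLL hE]
  exact pP.to_sup_of_normal_left (p1 _ le_sup_right)

theorem llemma (T : Sylow 3 G) {Q : Subgroup G} [Q.Normal] (hQ : Q ≤ T)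
    (maxQ : ∀ K : Subgroup G, K.Normal → IsPGroup 3 K → K ≤ Q) {θ : G → A}
    (hθ : MulOn (T : Subgroup G) θ) (ne : Stab Q θ ≠ ⊤)
    (um : ∀ K : Subgroup G, (T : Subgroup G) ≤ K → K ≠ ⊤ → K ≤ Stab Q θ) {Y : Set G}
    (hY : ∀ y ∈ Y, y ∈ (T : Subgroup G)) (hn : ∃ y ∈ Y, y ∉ Q) :
    ∃ (L : Subgroup G) (h : G) (P : Subgroup L), EE Q Y ≤ L ∧
      Nd (Q.subgroupOf L) P (L.subtype ⁻¹' Y) fun x : L => θ (h⁻¹ * x * h) := by
  haveI : Fact (Nat.Prime 3) := ⟨Nat.prime_three⟩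
  have nQ : Q.Normal := inferInstance
  have cQ : ∀ g x, x ∈ Q → g⁻¹ * x * g ∈ Q := fun g x hx => nQ.conj_mem' x hx g
  have hTM : (T : Subgroup G) ≤ Stab Q θ := fun t ht x hx => by
    have h1 := hθ (t * x * t⁻¹) (T.1.mul_mem (T.1.mul_mem ht (hQ hx)) (T.1.inv_mem ht)) t ht
    rw [inv_mul_cancel_right, hθ t ht x (hQ hx), mul_comm] at h1
    exact (mul_right_cancel h1).symm
  have hM : ¬ 3 ∣ (Stab Q θ).index := fun h =>
    T.not_dvd_index (h.trans (Subgroup.index_dvd_of_le hTM))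
  have hET : EE Q Y ≤ T := sup_le hQ ((Subgroup.closure_le _).2 hY)
  let 𝒞 : Set (Subgroup G) := {C | C = Q ∨ ∃ g : G, C = (EE Q Y).map (MulAut.conj g).toMonoidHom}
  have hc : ∀ C ∈ 𝒞, ∀ g : G, C.map (MulAut.conj g).toMonoidHom ∈ 𝒞 := by
    rintro C (rfl | ⟨k, rfl⟩) g
    · left; ext x; rw [mem_FLL]
      exact ⟨fun h => by simpa [mul_assoc] using nQ.conj_mem _ h g, cQ g x⟩
    · right; refine ⟨g * k, ?_⟩; ext x; simp only [mem_FLL]; simp [mul_assoc]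
  have hQC : ∀ C ∈ 𝒞, Q ≤ C := by
    rintro C (rfl | ⟨k, rfl⟩)
    · exact le_rfl
    · exact fun x hx => mem_FLL.2 (Subgroup.mem_sup_left (cQ k x hx))
  have hEC : EE Q Y ∈ 𝒞 := Or.inr ⟨1, by ext x; rw [mem_FLL]; simp⟩
  have nn : ¬ (gn 𝒞 T).Normal := fun h => by
    obtain ⟨y, hy, hyQ⟩ := hn
    exact hyQ (maxQ _ h (T.2.to_le gn_le_FLL) (le_gn_FLL hEC hET
      (Subgroup.mem_sup_right (Subgroup.subset_closure hy))))
  obtain ⟨D, pD, gD, DM, nU, hcard, hmax, hND⟩ := mx hc hM (D₁ := Q) (fun S hS => by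
      obtain ⟨m, hm, hle⟩ := into_FLL S hS T.2 hTM
      exact ufix_FLL hc T hTM nn um hm hle)
    (T.2.to_le hQ) (le_antisymm gn_le_FLL (le_gn_FLL (Or.inl rfl) le_rfl)) (hQ.trans hTM)
    fun h => ne (top_le_iff.1 fun g _ => h g fun r hr => hTM (hQ (cQ g r hr)))
  have hQD : Q ≤ D := by
    by_contra hq
    have h1 : D = ⊥ := by
      rw [← gD, eq_bot_iff]
      exact sSup_le fun C hC => absurd ((hQC C hC.1).trans hC.2) hq
    rw [h1, Subgroup.card_bot] at hcard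
    exact hq (by rw [Subgroup.eq_bot_of_card_le Q hcard]; exact bot_le)
  obtain ⟨m, hm, hle⟩ := into_FLL T hTM pD DM
  have hDS : D ≤ (T : Subgroup G).map (MulAut.conj m⁻¹).toMonoidHom := fun x hx =>
    mem_FLL.2 (by simpa using hle ⟨x, hx, rfl⟩)
  have hSM : (T : Subgroup G).map (MulAut.conj m⁻¹).toMonoidHom ≤ Stab Q θ := by
    rintro _ ⟨x, hx, rfl⟩
    exact mul_mem (mul_mem (inv_mem hm) (hTM hx)) (inv_mem (inv_mem hm))
  have pS := T.2.map (MulAut.conj m⁻¹).toMonoidHom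
  obtain ⟨C, hC, CS, CN, CD⟩ := chain hc pS hDS gD
    fun e => nU (e ▸ ufix_FLL hc T hTM nn um (inv_mem hm) le_rfl)
  obtain rfl | ⟨k, hk⟩ := id hC
  · exact absurd hQD CD
  have hU : UFix (D ⊔ C) (Stab Q θ) := fun g hg => by
    have := hmax (D ⊔ C) (pS.to_le (sup_le hDS CS)) (le_antisymm gn_le_FLL (sup_le
      (gD.ge.trans (gn_mono_FLL le_sup_left)) (le_gn_FLL hC le_sup_right)))
      (by
        by_contra hl
        exact CD (le_sup_right.trans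
          (Subgroup.eq_of_le_of_card_ge le_sup_left (not_lt.1 hl)).ge)) 1 g
      (fun x hx => by simpa using sup_le DM (CS.trans hSM) hx) hg
    simpa using this
  obtain ⟨h, rfl⟩ : ∃ h : G, k = h⁻¹ := ⟨k⁻¹, (inv_inv k).symm⟩
  have eE : C.map (MulAut.conj h).toMonoidHom = EE Q Y := by
    ext x; rw [hk, mem_FLL, mem_FLL]; simp [mul_assoc]
  have eN : ∀ x, x ∈ Subgroup.normalizer (D.map (MulAut.conj h).toMonoidHom : Set G) ↔
      h⁻¹ * x * h ∈ Subgroup.normalizer (D : Set G) := fun x => by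
    simp only [Subgroup.mem_normalizer_iff, mem_FLL]
    refine ⟨fun H y => ?_, fun H y => ?_⟩
    · simpa [mul_assoc] using H (h * y * h⁻¹)
    · simpa [mul_assoc] using H (h⁻¹ * y * h)
  obtain ⟨L, P, h1, h2⟩ := node_FLL (Q := Q) (Y := Y) (θ := fun x => θ (h⁻¹ * x * h))
    (D := D.map (MulAut.conj h).toMonoidHom) (M := (Stab Q θ).map (MulAut.conj h).toMonoidHom)
    (fun x hx y hy => by
      rw [← hθ _ (hQ (cQ h x hx)) _ (hQ (cQ h y hy))]; simp [mul_assoc])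
    (by
      ext g
      rw [mem_FLL]
      refine ⟨fun H x hx => ?_, fun H x hx => ?_⟩
      · simpa [mul_assoc] using H _ (cQ h x hx)
      · simpa [mul_assoc] using H _ (nQ.conj_mem x hx h))
    (by rwa [Subgroup.index_map_of_bijective (MulAut.conj h).bijective])
    (by rw [← eE, ← Subgroup.map_sup]; exact (pS.to_le (sup_le hDS CS)).map _)
    (fun x hx => (eN x).2 (CN (mem_FLL.1 (eE.ge hx))))
    (by
      rw [← eE, ← Subgroup.map_sup]
      intro g hg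
      refine mem_FLL.2 (hU _ fun r hr => ?_)
      simpa [mul_assoc] using mem_FLL.1 (hg _ ⟨r, hr, rfl⟩))
    fun H => hND fun x hx => by
      simpa [mul_assoc] using mem_FLL.1 (H ((eN (h * x * h⁻¹)).2 (by simpa [mul_assoc] using hx)))
  exact ⟨L, h, P, h1, h2⟩

end Pool.Agent.MP_a5588a_al.Full

end

section

/-! Centralisers, the commuting lemma and the four point lemma. -/

namespace Pool.Agent.MP_a5588a_al.Full

open Pool.Agent.MP_a5588a_al.Solv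
open scoped commutatorElement

universe u v

variable {G : Type u} {V : Type v} [Group G] [Finite G] [AddCommGroup V] [Finite V]
  {ρ : G →* AddMonoid.End V} {M : Subgroup G}

omit [Finite G] in
theorem zp_FQS1 {f : G} (h : f ^ 3 = 1) : IsPGroup 3 (Subgroup.zpowers f) := by
  rintro ⟨_, k, rfl⟩
  refine ⟨1, Subtype.ext ?_⟩
  simp only [pow_one, Subgroup.coe_pow, Subgroup.coe_one]
  rw [← zpow_natCast, ← zpow_mul, mul_comm, zpow_mul, zpow_natCast, h, one_zpow]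

theorem cf {Y : Set G} (h : QN ρ Y M) (t : TI ρ M) (ab : AB ρ) : CFx ρ M := by
  intro S hS hM f hf f1 g hg
  obtain ⟨m, hm, S', pS, le, -, hR⟩ := h.um.conj_le hS hM
  obtain ⟨a1, a3⟩ := ab.abl t pS
  have hf' : f ∈ Subgroup.closure {x | x ∈ S' ∧ Quad ρ x} :=
    Subgroup.closure_mono (fun x hx => And.intro (le hx.1) hx.2) hf
  have hC : Subgroup.closure Y ≤ Subgroup.centralizer {m⁻¹ * f * m} := by
    refine (Subgroup.closure_le _).2 fun y hy => Subgroup.mem_centralizer_singleton_iff.2 ?_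
    have h1 := a1 _ (Subgroup.subset_closure
      ⟨hR y (Subgroup.subset_closure hy), (h.quad y hy).conj m⟩) f hf'
    calc y * (m⁻¹ * f * m) = m⁻¹ * (m * y * m⁻¹ * f) * m := by group
      _ = m⁻¹ * f * m * y := by rw [h1]; group
  rcases h.um.um _ hC with h1 | h1
  · have h2 : m⁻¹ * g * m ∈ M := h1 (Subgroup.mem_centralizer_singleton_iff.2 (by
      calc m⁻¹ * g * m * (m⁻¹ * f * m) = m⁻¹ * (g * f) * m := by group
        _ = m⁻¹ * f * m * (m⁻¹ * g * m) := by rw [← hg.eq]; group))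
    rwa [M.mul_mem_cancel_right hm, M.mul_mem_cancel_left (M.inv_mem hm)] at h2
  · exfalso
    have h2 : ∀ z : G, Commute z (m⁻¹ * f * m) := fun z =>
      Subgroup.mem_centralizer_singleton_iff.1 (h1 ▸ Subgroup.mem_top z)
    have h3 : (m⁻¹ * f * m) ^ 3 = 1 := by
      calc (m⁻¹ * f * m) ^ 3 = m⁻¹ * f ^ 3 * m := by
            simp only [pow_succ, pow_zero]; group
        _ = 1 := by rw [a3 f hf']; group
    have h4 : (Subgroup.zpowers (m⁻¹ * f * m)).Normal := ⟨by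
      rintro _ ⟨k, rfl⟩ z
      exact ⟨k, by simp only [((h2 z).zpow_right k).eq, mul_inv_cancel_right]⟩⟩
    have h5 := o3_triv h.three h.smp h4 (zp_FQS1 h3) _ (Subgroup.mem_zpowers _)
    have h6 : m⁻¹ * f * m = 1 := h.inj (h5.trans (map_one ρ).symm)
    apply f1
    calc f = m * (m⁻¹ * f * m) * m⁻¹ := by group
      _ = 1 := by rw [h6]; group

omit [Finite G] in
theorem sup_FQS1 {J P : Subgroup G} (hP : IsPGroup 3 P) (hn : Nm J P) {z : G} (zJ : z ∈ J)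
    (z3 : z ^ 3 = 1) : IsPGroup 3 (P ⊔ Subgroup.zpowers z : Subgroup G) := by
  refine hP.to_sup_of_normal_left' (zp_FQS1 z3) (Subgroup.zpowers_le.2 ?_)
  refine Subgroup.mem_normalizer_iff.2 fun n => ⟨hn z zJ n, fun h => ?_⟩
  simpa [mul_assoc] using hn _ (J.inv_mem zJ) _ h

theorem nm_FQS1 (S : Subgroup G) : Nm S (Subgroup.closure {x | x ∈ S ∧ Quad ρ x}) := by
  intro y hy c hc
  induction hc using Subgroup.closure_induction with
  | mem x hx =>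
    exact Subgroup.subset_closure ⟨S.mul_mem (S.mul_mem hy hx.1) (S.inv_mem hy), hx.2.conj y⟩
  | one => simp
  | mul a b _ _ ha hb => simpa [mul_assoc] using Subgroup.mul_mem _ ha hb
  | inv a _ ha => simpa [mul_assoc] using Subgroup.inv_mem _ ha

theorem dprime (t : TI ρ M) (ab : AB ρ) (cf : CFx ρ M) {J P : Subgroup G} (hP : IsPGroup 3 P)
    (hn : Nm J P) (hJ : ¬ J ≤ M) {y s : G} (yJ : y ∈ J) (yM : y ∈ M) (y1 : y ≠ 1) (hy : Quad ρ y)
    (sP : s ∈ P) (hc : Commute y s) (hq : Quad ρ (y * s)) : s = 1 := by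
  obtain ⟨g, gJ, gM⟩ := SetLike.not_le_iff_exists.1 hJ
  have key : ∀ z s : G, s ∈ P → Quad ρ z → Quad ρ (z * s) →
      z ∈ Subgroup.closure {x | x ∈ P ⊔ Subgroup.zpowers z ∧ Quad ρ x} ∧
      s ∈ Subgroup.closure {x | x ∈ P ⊔ Subgroup.zpowers z ∧ Quad ρ x} := by
    intro z s hs h1 h2
    have m1 : z ∈ P ⊔ Subgroup.zpowers z := Subgroup.mem_sup_right (Subgroup.mem_zpowers z)
    have m2 : z ∈ Subgroup.closure {x | x ∈ P ⊔ Subgroup.zpowers z ∧ Quad ρ x} :=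
      Subgroup.subset_closure ⟨m1, h1⟩
    refine ⟨m2, (Subgroup.mul_mem_cancel_left _ m2).1 (Subgroup.subset_closure ⟨?_, h2⟩)⟩
    exact Subgroup.mul_mem _ m1 (Subgroup.mem_sup_left hs)
  have pS := sup_FQS1 hP hn yJ (t.cube hy)
  have pS' := sup_FQS1 hP hn (J.mul_mem (J.mul_mem gJ yJ) (J.inv_mem gJ)) (t.cube (hy.conj g))
  have SM := t.syl yM y1 hy pS (Subgroup.mem_sup_right (Subgroup.mem_zpowers y))
  have PM : P ≤ M := le_sup_left.trans SM
  obtain ⟨yA, sA⟩ := key y s sP hy hq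
  have xP := hn g gJ s sP
  obtain ⟨yA', xA'⟩ := key (g * y * g⁻¹) (g * s * g⁻¹) xP (hy.conj g)
    (by simpa [mul_assoc] using hq.conj g)
  obtain ⟨x, hx⟩ : ∃ x, x = g * s * g⁻¹ := ⟨_, rfl⟩
  rw [← hx] at xP xA'
  obtain ⟨r, hr⟩ : ∃ r, r = x * y * x⁻¹ * y⁻¹ := ⟨_, rfl⟩
  have rA : r ∈ Subgroup.closure {x | x ∈ P ⊔ Subgroup.zpowers y ∧ Quad ρ x} :=
    hr ▸ Subgroup.mul_mem _ (nm_FQS1 _ x (Subgroup.mem_sup_left xP) y yA) (Subgroup.inv_mem _ yA)
  have rP : r ∈ P := by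
    simpa [hr, mul_assoc] using P.mul_mem xP (hn y yJ _ (P.inv_mem xP))
  have f1 : x * r * x⁻¹ * r⁻¹ = 1 := by
    by_contra f1
    have fA := Subgroup.mul_mem _ (nm_FQS1 _ x (Subgroup.mem_sup_left xP) r rA)
      (Subgroup.inv_mem _ rA)
    have fA' := Subgroup.mul_mem _ xA' (nm_FQS1 _ r (Subgroup.mem_sup_left rP) _
      (Subgroup.inv_mem _ xA'))
    rw [← mul_assoc, ← mul_assoc] at fA'
    have h1 := cf _ pS SM _ fA f1 _ ((ab.abl t pS').1 _ fA' _ yA')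
    exact gM (M.inv_mem_iff.1 (t.h2 y yM y1 hy g⁻¹ (by rwa [inv_inv])))
  obtain ⟨a1, a3⟩ := ab.abl t pS
  have c1 : y * r = r * y := a1 y yA r rA
  have e1 : x * y * x⁻¹ = y * r := by rw [c1, hr, inv_mul_cancel_right]
  have e2 : x * (x * y * x⁻¹) * x⁻¹ = y * r ^ 2 := by
    calc x * (x * y * x⁻¹) * x⁻¹ = (x * y * x⁻¹) * (x * r * x⁻¹ * r⁻¹) * r := by
          conv_lhs => rw [e1]
          group
      _ = y * r ^ 2 := by rw [f1, e1, mul_one, pow_two, mul_assoc]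
  have qr : Quad ρ r := q3 t.three c1 (a3 r rA) hy (e1 ▸ hy.conj x) (e2 ▸ (hy.conj x).conj x)
  have r1 : r = 1 := by
    by_contra r1
    exact gM (t.h2 r (PM rP) r1 qr g (PM (by simpa using hn _ (J.inv_mem gJ) r rP)))
  by_contra s1
  refine gM (t.h2 y yM y1 hy g (cf _ pS SM s sA s1 _ ?_))
  rw [r1, mul_one, hx] at e1
  calc s * (g⁻¹ * y * g) = g⁻¹ * (g * s * g⁻¹ * y * (g * s * g⁻¹)⁻¹) * g * s := by group
    _ = g⁻¹ * y * g * s := by rw [e1]

omit [Finite G] in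
theorem br_FQS1 {X : Type*} [MulAction G X] {p q : X} {y w : G} (y0 : y • p = p)
    (yu : ∀ a : X, y • a = a → a = p) (w0 : w • q = q) (wu : ∀ a : X, w • a = a → a = q)
    (hb : Braid y w) (y3 : y ^ 3 = 1) :
    y • w • p = q ∧ y • q = w⁻¹ • p ∧ y • w⁻¹ • p = w • p := by
  have h1 : y • w • p = q := wu _ (by
    rw [← mul_smul, ← mul_smul, ← hb, mul_smul, mul_smul, y0])
  have h2 : y • q = w⁻¹ • p := eq_inv_smul_iff.2 (yu _ (by
    rw [← mul_smul, ← mul_smul, hb, mul_smul, mul_smul, w0]))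
  refine ⟨h1, h2, ?_⟩
  rw [← h2, ← h1, ← mul_smul, ← mul_smul, ← pow_three', y3, one_smul]

omit [Finite V] in
theorem four_pts {Z : Set G} {w g₁ : G} (gen : Subgroup.closure (insert w Z) = ⊤) (w3 : w ^ 3 = 1)
    (wM : w ∉ M) (hg : g₁⁻¹ * w * g₁ ∈ M) (hw : ∀ g : G, g⁻¹ * w * g ∈ M → g₁⁻¹ * g ∈ M)
    (hZ : ∀ y ∈ Z, y = 1 ∨ (y ∈ M ∧ y ^ 3 = 1 ∧ (∀ g : G, g⁻¹ * y * g ∈ M → g ∈ M) ∧
      (Braid y w ∨ Braid y w⁻¹))) : M.index = 4 := by
  have fx : ∀ x g : G, x • (g : G ⧸ M) = g ↔ g⁻¹ * x * g ∈ M := fun x g => by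
    rw [MulAction.Quotient.smul_mk, smul_eq_mul, eq_comm, QuotientGroup.eq, mul_assoc]
  obtain ⟨p, hp⟩ : ∃ p, p = ((1 : G) : G ⧸ M) := ⟨_, rfl⟩
  obtain ⟨q, hq⟩ : ∃ q, q = (g₁ : G ⧸ M) := ⟨_, rfl⟩
  have w0 : w • q = q := hq ▸ (fx w g₁).2 hg
  have w0' : w⁻¹ • q = q := inv_smul_eq_iff.2 w0.symm
  have wu : ∀ a : G ⧸ M, w • a = a → a = q := fun a ha => by
    obtain ⟨g, rfl⟩ := QuotientGroup.mk_surjective a
    exact (hq.trans (QuotientGroup.eq.2 (hw g ((fx w g).1 ha)))).symm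
  have wu' : ∀ a : G ⧸ M, w⁻¹ • a = a → a = q := fun a ha => wu a (inv_smul_eq_iff.1 ha).symm
  have wp : w • p ≠ p := fun e => wM (by simpa using (fx w 1).1 (hp ▸ e))
  have ww : w • w • p = w⁻¹ • p := by
    rw [eq_inv_smul_iff, ← mul_smul, ← mul_smul, ← pow_three', w3, one_smul]
  have hT : ∀ g : G, ∀ a ∈ ({p, q, w • p, w⁻¹ • p} : Set (G ⧸ M)),
      g • a ∈ ({p, q, w • p, w⁻¹ • p} : Set (G ⧸ M)) := by
    have h1 : ∀ x ∈ insert w Z, x ^ 3 = 1 ∧ ∀ a ∈ ({p, q, w • p, w⁻¹ • p} : Set (G ⧸ M)),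
        x • a ∈ ({p, q, w • p, w⁻¹ • p} : Set (G ⧸ M)) := by
      rintro x (rfl | hx)
      · refine ⟨w3, ?_⟩
        rintro a (rfl | rfl | rfl | rfl) <;> simp [w0, ww]
      rcases hZ x hx with rfl | ⟨xM, x3, xu, hb⟩
      · simp
      refine ⟨x3, ?_⟩
      have x0 : x • p = p := hp ▸ (fx x 1).2 (by simpa using xM)
      have xu' : ∀ a : G ⧸ M, x • a = a → a = p := fun a ha => by
        obtain ⟨g, rfl⟩ := QuotientGroup.mk_surjective a
        exact (hp.trans (QuotientGroup.eq.2 (by simpa using xu g ((fx x g).1 ha)))).symm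
      rcases hb with hb | hb
      · obtain ⟨e1, e2, e3⟩ := br_FQS1 x0 xu' w0 wu hb x3
        intro a ha
        rcases ha with e | e | e | e <;> rw [e] <;> simp [x0, e1, e2, e3]
      · obtain ⟨e1, e2, e3⟩ := br_FQS1 x0 xu' w0' wu' hb x3
        rw [inv_inv] at e2 e3
        intro a ha
        rcases ha with e | e | e | e <;> rw [e] <;> simp [x0, e1, e2, e3]
    intro g
    have hg' : g ∈ Subgroup.closure (insert w Z) := gen ▸ Subgroup.mem_top g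
    induction hg' using Subgroup.closure_induction'' with
    | mem x hx => exact (h1 x hx).2
    | inv_mem x hx =>
      intro a ha
      have e : x⁻¹ = x * x := inv_eq_of_mul_eq_one_right (by rw [← pow_three, (h1 x hx).1])
      rw [e, mul_smul]
      exact (h1 x hx).2 _ ((h1 x hx).2 a ha)
    | one => simp
    | mul a b _ _ ha hb => exact fun c hc => mul_smul a b c ▸ ha _ (hb c hc)
  have hU : (Set.univ : Set (G ⧸ M)) = {p, q, w • p, w⁻¹ • p} := by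
    refine (Set.eq_univ_of_forall fun a => ?_).symm
    obtain ⟨g, rfl⟩ := QuotientGroup.mk_surjective a
    have := hT g p (by simp)
    rwa [show g • p = (g : G ⧸ M) by rw [hp, MulAction.Quotient.smul_mk, smul_eq_mul, mul_one]]
      at this
  have n1 : p ≠ q := fun e => wp (e ▸ w0)
  have n2 : p ≠ w⁻¹ • p := fun e => wp (eq_inv_smul_iff.1 e)
  have n3 : q ≠ w • p := fun e => n1 (smul_left_cancel w (e.symm.trans w0.symm))
  have n4 : q ≠ w⁻¹ • p := fun e => n1 (smul_left_cancel w⁻¹ (e.symm.trans w0'.symm))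
  have n5 : w • p ≠ w⁻¹ • p := fun e => wp (smul_left_cancel w (ww.trans e.symm))
  rw [Subgroup.index, ← Set.ncard_univ, hU, Set.ncard_insert_of_notMem (by simp [n1, n2, wp.symm]),
    Set.ncard_insert_of_notMem (by simp [n3, n4]), Set.ncard_pair n5]

end Pool.Agent.MP_a5588a_al.Full

end

section

namespace Pool.Agent.MP_a5588a_al.Full

open Pool.Agent.MP_a5588a_al.Solv
open scoped commutatorElement

universe u v

variable {G : Type u} {V : Type v} [Group G] [Finite G] [AddCommGroup V] [Finite V]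
  {ρ : G →* AddMonoid.End V} {M : Subgroup G}

omit [Finite G] [Finite V] in
theorem mul_FT2 (g h : G) (v : V) : ρ (g * h) v = ρ g (ρ h v) := by rw [map_mul]; rfl

omit [Finite G] [Finite V] in
theorem inv_FT2 (g : G) (v : V) : ρ g⁻¹ (ρ g v) = v := by
  rw [← mul_FT2, inv_mul_cancel, map_one]; rfl

/-- The elements that map `W` onto itself. -/
def nrm_FT2 (ρ : G →* AddMonoid.End V) (W : AddSubgroup V) : Subgroup G where
  carrier := {g | ∀ v ∈ W, ρ g v ∈ W ∧ ρ g⁻¹ v ∈ W}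
  one_mem' v hv := by simpa using hv
  mul_mem' {a b} ha hb v hv := by
    rw [mul_inv_rev, mul_FT2, mul_FT2]
    exact ⟨(ha _ (hb v hv).1).1, (hb _ (ha v hv).2).2⟩
  inv_mem' {a} ha v hv := by
    rw [inv_inv]
    exact (ha v hv).symm

/-- The stabiliser of a vector. -/
def stb_FT2 (ρ : G →* AddMonoid.End V) (v : V) : Subgroup G where
  carrier := {g | ρ g v = v}
  one_mem' := by simp
  mul_mem' {a b} (ha : ρ a v = v) (hb : ρ b v = v) := by
    show ρ (a * b) v = v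
    rw [mul_FT2, hb, ha]
  inv_mem' {a} (ha : ρ a v = v) := by
    show ρ a⁻¹ v = v
    conv_lhs => rw [← ha, inv_FT2]

theorem stb_le_FT2 {U : Subgroup G} (h : UM U M) (hs : Smp ρ) (nt : ∃ g, ρ g ≠ 1) {v : V}
    (hv : v ∈ Fx ρ U) (h0 : v ≠ 0) {g : G} (hg : ρ g v = v) : g ∈ M := by
  rcases h.um (stb_FT2 ρ v) hv with e | e
  · exact e hg
  · exact absurd (fx_top hs nt fun k => (e ▸ Subgroup.mem_top k : k ∈ stb_FT2 ρ v)) h0

theorem t2 {U : Subgroup G} (h : UM U M) (h3 : (3 : AddMonoid.End V) = 0) (hs : Smp ρ)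
    (nt : ∃ g, ρ g ≠ 1) (fq : ∀ x ∈ U, ∀ y ∈ U, (ρ x - 1) * (ρ y - 1) = 0) {x : G} (hx : x ∈ U)
    (hn : ∀ K : Subgroup G, K.Normal → IsPGroup 3 K → x ∉ K) :
    (∀ v, ρ x v = v → v ∈ Fx ρ U) ∧ ∀ g : G, g⁻¹ * x * g ∈ M → g ∈ M := by
  have : Nontrivial V := by
    by_contra e
    have := not_nontrivial_iff_subsingleton.1 e
    exact nt.elim fun g hg => hg (AddMonoidHom.ext fun _ => Subsingleton.elim _ _)
  obtain ⟨n, hn3⟩ : El3 x := (h.pR ⟨x, hx⟩).imp fun _ e => congrArg Subtype.val e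
  have c1 : ∀ u ∈ U, ∀ v, ρ u v - v ∈ Fx ρ U := fun u hu v y hy =>
    sub_eq_zero.1 (DFunLike.congr_fun (fq y hy u hu) v)
  have p1 : ∀ v, ρ x v = v → v ∈ Fx ρ U := by
    obtain ⟨k, hk⟩ := h.ex_conj ⟨n, hn3⟩ hn
    have q : Quad ρ (k * x * k⁻¹) := Quad.conj (fq x hx x hx) k
    set y := k * x * k⁻¹ with hy
    let W : AddSubgroup V := Fx ρ U ⊔ AddMonoidHom.range (ρ y - 1 : AddMonoid.End V)
    have w1 : ∀ g, ∀ v ∈ W, ρ g v - v ∈ W → ρ g v ∈ W := fun g v hv e => by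
      simpa using W.add_mem e hv
    have w2 : ∀ v, ρ y v - v ∈ W := fun v => AddSubgroup.mem_sup_right ⟨v, rfl⟩
    have w3 : nrm_FT2 ρ W = ⊤ := (h.um (nrm_FT2 ρ W) fun u hu v hv =>
      ⟨w1 u v hv (AddSubgroup.mem_sup_left (c1 u hu v)),
        w1 _ v hv (AddSubgroup.mem_sup_left (c1 _ (inv_mem hu) v))⟩).resolve_left fun e =>
      hk (e fun v hv => ⟨w1 y v hv (w2 v), w1 _ v hv (by
        have e1 : ρ y⁻¹ v - v = -(ρ y v - v) := DFunLike.congr_fun q.inv.2 v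
        exact e1 ▸ W.neg_mem (w2 v))⟩)
    have w4 : W = ⊤ := (hs W fun g _ v hv =>
      ((w3 ▸ Subgroup.mem_top g : g ∈ nrm_FT2 ρ W) v hv).1).resolve_left fun e => by
        obtain ⟨v, v0, hv⟩ := fixvec h3 h.pR
        exact v0 (AddSubgroup.mem_bot.1 (e ▸ AddSubgroup.mem_sup_left hv))
    intro v hv
    obtain ⟨c, hc, _, ⟨w, rfl⟩, e⟩ :=
      AddSubgroup.mem_sup.1 (w4 ▸ AddSubgroup.mem_top (ρ k v) : ρ k v ∈ W)
    replace e : c + (ρ y w - w) = ρ k v := e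
    have e1 : ρ y (ρ y w - w) = ρ y w - w := sub_eq_zero.1 (DFunLike.congr_fun q w)
    have e2 : ρ y (ρ k v) = ρ k v := by rw [hy, mul_FT2, inv_FT2, mul_FT2, hv]
    rw [← e, map_add, e1, add_left_inj] at e2
    have e3 : c = 0 := by_contra fun c0 => hk (stb_le_FT2 h hs nt hc c0 e2)
    rw [e3, zero_add, hy, mul_FT2, mul_FT2] at e
    have := congrArg (ρ k⁻¹) e
    rw [map_sub, inv_FT2, inv_FT2] at this
    exact this ▸ c1 x hx _
  refine ⟨p1, fun g hg => ?_⟩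
  obtain ⟨m, hm, S, s1, s2, -, s4⟩ := h.conj_le (S := Subgroup.zpowers (g⁻¹ * x * g))
    (by
      rintro ⟨_, i, rfl⟩
      refine ⟨n, Subtype.ext ?_⟩
      have := conj_pow (a := g⁻¹) (b := x) (i := 3 ^ n)
      rw [inv_inv, hn3, mul_one, inv_mul_cancel] at this
      show ((g⁻¹ * x * g) ^ i) ^ 3 ^ n = 1
      rw [← zpow_natCast, ← zpow_mul, mul_comm, zpow_mul, zpow_natCast, this, one_zpow])
    (Subgroup.zpowers_le_of_mem hg)
  obtain ⟨v, v0, hv⟩ := fixvec h3 s1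
  have e1 : ρ g v ∈ Fx ρ U := p1 _ (by
    conv_rhs => rw [← hv _ (s2 (Subgroup.mem_zpowers _)), ← mul_FT2]
    rw [← mul_FT2]
    congr 2
    group)
  have e2 : ρ g v ≠ 0 := fun e => v0 (by rw [← inv_FT2 (ρ := ρ) g v, e, map_zero])
  have e3 := h.ufix (g * m)⁻¹ fun r hr => stb_le_FT2 h hs nt e1 e2 (by
    conv_rhs => rw [← hv _ (s4 r hr), ← mul_FT2]
    rw [← mul_FT2]
    congr 2
    group)
  simpa using M.mul_mem (M.inv_mem e3) (M.inv_mem hm)

end Pool.Agent.MP_a5588a_al.Full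

end

section

namespace Pool.Agent.MP_a5588a_al.Full

open Pool.Agent.MP_a5588a_al.Solv
open scoped commutatorElement

universe u v

theorem pow_FQS2 {R : Type*} [Ring R] {r : R} (h : (r - 1) * (r - 1) = 0) (i : ℕ) :
    r ^ i = 1 + i • (r - 1) := by
  induction i with
  | zero => simp
  | succ i ih =>
    have h1 : r = 1 + (r - 1) := by abel
    generalize r - 1 = a at h ih h1
    rw [pow_succ, ih, h1, add_mul, one_mul, smul_mul_assoc, mul_add, mul_one, h, add_zero,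
      succ_nsmul]
    abel

theorem ring_FQS2 {R : Type*} [Ring R] {a b : R} (ha : a * a = 0) (hb : b * b = 0)
    (hc : b * a = a * b) (i j i' j' : ℕ) :
    ((1 + i • a) * (1 + j • b) - 1) * ((1 + i' • a) * (1 + j' • b) - 1) =
      (i * j' + j * i') • (a * b) := by
  have e : ∀ i j : ℕ, (1 + i • a) * (1 + j • b) - 1 = i • a + j • b + (i * j) • (a * b) := by
    intro i j
    simp only [mul_add, add_mul, one_mul, mul_one, smul_mul_assoc, mul_smul_comm, smul_smul]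
    module
  have h1 : a * (a * b) = 0 := by rw [← mul_assoc, ha, zero_mul]
  have h2 : b * (a * b) = 0 := by rw [← mul_assoc, hc, mul_assoc, hb, mul_zero]
  have h3 : a * b * a = 0 := by rw [mul_assoc, hc, h1]
  have h4 : a * b * b = 0 := by rw [mul_assoc, hb, mul_zero]
  have h5 : a * b * (a * b) = 0 := by rw [mul_assoc, h2, mul_zero]
  rw [e, e]
  simp only [mul_add, add_mul, smul_mul_assoc, mul_smul_comm, smul_smul, ha, hb, hc, h1, h2, h3,
    h4, h5, smul_zero, add_zero, zero_add]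
  module

variable {G : Type u} {V : Type v} [Group G] [Finite G] [AddCommGroup V] [Finite V]
  {ρ : G →* AddMonoid.End V} {M : Subgroup G}

/-- the sum of two images -/
def two_FQS2 {V : Type v} [AddCommGroup V] (P Q : AddMonoid.End V) : AddSubgroup V where
  carrier := {v | ∃ u u', v = P u + Q u'}
  zero_mem' := ⟨0, 0, by simp⟩
  add_mem' := by
    rintro _ _ ⟨u, u', rfl⟩ ⟨s, s', rfl⟩
    exact ⟨u + s, u' + s', by rw [map_add, map_add]; abel⟩
  neg_mem' := by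
    rintro _ ⟨u, u', rfl⟩
    exact ⟨-u, -u', by rw [map_neg, map_neg]; abel⟩

theorem two_mem_FQS2 {V : Type v} [AddCommGroup V] {P Q e c₁ c₂ c₃ c₄ : AddMonoid.End V}
    (h₁ : e * P = P * c₁ + Q * c₂) (h₂ : e * Q = P * c₃ + Q * c₄) {v : V}
    (hv : v ∈ two_FQS2 P Q) : e v ∈ two_FQS2 P Q := by
  obtain ⟨u, u', rfl⟩ := hv
  have e1 : e (P u) = P (c₁ u) + Q (c₂ u) := DFunLike.congr_fun h₁ u
  have e2 : e (Q u') = P (c₃ u') + Q (c₄ u') := DFunLike.congr_fun h₂ u'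
  exact ⟨c₁ u + c₃ u', c₂ u + c₄ u', by rw [map_add, map_add, map_add, e1, e2]; abel⟩

theorem comm_FQS2 {y z : G} (hc : Commute y z) :
    (ρ z - 1) * (ρ y - 1) = (ρ y - 1) * (ρ z - 1) := by
  have h := (hc.map ρ).eq
  simp only [mul_sub, sub_mul, h, mul_one, one_mul]
  abel

theorem tee {y z w : G} (hy : Quad ρ y) (hz : Quad ρ z) (hw : Quad ρ w) (hc : Commute y z)
    (h : ac ρ y w = -1) : ∃ T, Tee ρ (Subgroup.closure {y, z, w}) y z T := by
  have hba := comm_FQS2 (ρ := ρ) hc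
  have ha : (ρ y - 1) * (ρ y - 1) = 0 := hy
  have hb : (ρ z - 1) * (ρ z - 1) = 0 := hz
  have hd : (ρ w - 1) * (ρ w - 1) = 0 := hw
  have had : (ρ y - 1) * (ρ w - 1) + (ρ w - 1) * (ρ y - 1) = -1 := h
  obtain ⟨a, ea⟩ : ∃ a, a = ρ y - 1 := ⟨_, rfl⟩
  obtain ⟨b, eb⟩ : ∃ b, b = ρ z - 1 := ⟨_, rfl⟩
  obtain ⟨d, ed⟩ : ∃ d, d = ρ w - 1 := ⟨_, rfl⟩
  rw [← ea] at ha had hba
  rw [← eb] at hb hba
  rw [← ed] at hd had
  have h1 : a * (a * b) = 0 := by rw [← mul_assoc, ha, zero_mul]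
  have h2 : b * (a * b) = 0 := by rw [← mul_assoc, hba, mul_assoc, hb, mul_zero]
  have h3 : a * (d * (a * b)) = -(a * b) := by
    have e : a * d = -1 - d * a := by rw [← had]; abel
    rw [← mul_assoc, e, sub_mul, mul_assoc, h1, mul_zero, sub_zero, neg_mul, one_mul]
  have h4 : b * (d * (a * b)) = a * b * -(d * b) := by
    have e : d * a = -1 - a * d := by rw [← had]; abel
    rw [← mul_assoc d, e, sub_mul, mul_sub, neg_mul, one_mul, mul_neg, hb, neg_zero, zero_sub,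
      mul_neg, ← hba]
    simp only [mul_assoc]
  have key : ∀ x ∈ ({y, z, w} : Set G), Quad ρ x ∧ ∀ v ∈ two_FQS2 (a * b) (d * (a * b)),
      (ρ x - 1) v ∈ two_FQS2 (a * b) (d * (a * b)) := by
    rintro x (rfl | rfl | rfl)
    · refine ⟨hy, fun v hv => ?_⟩
      rw [← ea]
      exact two_mem_FQS2 (c₁ := 0) (c₂ := 0) (c₃ := -1) (c₄ := 0) (by simp [h1]) (by simp [h3]) hv
    · refine ⟨hz, fun v hv => ?_⟩
      rw [← eb]
      exact two_mem_FQS2 (c₁ := 0) (c₂ := 0) (c₃ := -(d * b)) (c₄ := 0) (by simp [h2])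
        (by rw [h4, mul_zero, add_zero]) hv
    · refine ⟨hw, fun v hv => ?_⟩
      rw [← ed]
      exact two_mem_FQS2 (c₁ := 0) (c₂ := 1) (c₃ := 0) (c₄ := 0) (by simp)
        (by rw [← mul_assoc, hd]; simp) hv
  have hs : ∀ (x : G) (v : V), ρ x v = v + (ρ x - 1) v := by
    intro x v
    have e : (ρ x - 1) v = ρ x v - v := rfl
    rw [e]
    abel
  refine ⟨two_FQS2 (a * b) (d * (a * b)), fun g hg => ?_, fun v => ?_, fun v hv => ?_⟩
  · induction hg using Subgroup.closure_induction'' with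
    | mem x hx =>
      intro v hv
      rw [hs]
      exact add_mem hv ((key x hx).2 v hv)
    | inv_mem x hx =>
      intro v hv
      rw [hs, (key x hx).1.inv.2]
      exact add_mem hv (neg_mem ((key x hx).2 v hv))
    | one =>
      intro v hv
      rw [map_one]
      exact hv
    | mul x x' _ _ hx hx' =>
      intro v hv
      rw [map_mul]
      exact hx _ (hx' v hv)
  · rw [← ea, ← eb]
    exact ⟨v, 0, by simp⟩
  · rw [← ea, ← eb]
    obtain ⟨u, u', rfl⟩ := hv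
    have e1 : a * b * (a * b) = 0 := by rw [mul_assoc, h2, mul_zero]
    have e2 : a * b * (d * (a * b)) = 0 := by
      rw [← hba, mul_assoc, hba, h3, mul_neg, h2, neg_zero]
    have e3 : (a * b) ((a * b) u) = 0 := DFunLike.congr_fun e1 u
    have e4 : (a * b) ((d * (a * b)) u') = 0 := DFunLike.congr_fun e2 u'
    rw [map_add, e3, e4, add_zero]

omit [Finite G] in
theorem form_FQS2 {y z : G} (y3 : y ^ 3 = 1) (z3 : z ^ 3 = 1) (hc : Commute y z) {x : G}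
    (hx : x ∈ Subgroup.closure ({y, z} : Set G)) : ∃ i j : ℕ, x = y ^ i * z ^ j := by
  have iv : ∀ s : G, s ^ 3 = 1 → s⁻¹ = s ^ 2 := fun s hs =>
    inv_eq_of_mul_eq_one_right (by rw [← pow_succ', hs])
  induction hx using Subgroup.closure_induction'' with
  | mem x hx =>
    rcases hx with rfl | rfl
    · exact ⟨1, 0, by simp⟩
    · exact ⟨0, 1, by simp⟩
  | inv_mem x hx =>
    rcases hx with rfl | rfl
    · exact ⟨2, 0, by simp [iv _ y3]⟩
    · exact ⟨0, 2, by simp [iv _ z3]⟩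
  | one => exact ⟨0, 0, by simp⟩
  | mul x x' _ _ hx hx' =>
    obtain ⟨i, j, rfl⟩ := hx
    obtain ⟨i', j', rfl⟩ := hx'
    refine ⟨i + i', j + j', ?_⟩
    rw [pow_add, pow_add, mul_assoc, mul_assoc, ← mul_assoc (z ^ j),
      ← (hc.pow_pow i' j).eq, mul_assoc]

theorem small_FQS2 (t : TI ρ M) {s : G} (s1 : s ≠ 1) (hs : Quad ρ s) {i : ℕ} (i0 : i ≠ 0)
    (i3 : i < 3) : Quad ρ (s ^ i) ∧ s ^ i ≠ 1 ∧ s ∈ Subgroup.zpowers (s ^ i) := by
  have s3 := t.cube hs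
  have iv : s ^ 2 = s⁻¹ := (inv_eq_of_mul_eq_one_right (by rw [← pow_succ', s3])).symm
  have : i = 1 ∨ i = 2 := by omega
  rcases this with rfl | rfl
  · rw [pow_one]
    exact ⟨hs, s1, Subgroup.mem_zpowers s⟩
  · rw [iv]
    exact ⟨hs.inv.1, inv_ne_one.2 s1, by simp⟩

theorem free_of (t : TI ρ M) (ab : AB ρ) (cf : CFx ρ M) {J₀ : Subgroup G} (hJ : ¬ J₀ ≤ M)
    {y z : G} (yJ : y ∈ J₀) (zJ : z ∈ J₀) (yM : y ∈ M) (y1 : y ≠ 1) (hy : Quad ρ y)
    (hz : Quad ρ z) (hc : Commute y z) (zy : z ∉ Subgroup.zpowers y) {T : AddSubgroup V}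
    (hT : Tee ρ J₀ y z T) : ∃ J ≤ J₀, Free M J y z := by
  have y3 := t.cube hy
  have z3 := t.cube hz
  have z1 : z ≠ 1 := fun h => zy (h ▸ one_mem _)
  obtain ⟨F, hF⟩ : ∃ F, F = Subgroup.closure ({y, z} : Set G) := ⟨_, rfl⟩
  have yF : y ∈ F := hF ▸ Subgroup.subset_closure (by simp)
  have zF : z ∈ F := hF ▸ Subgroup.subset_closure (by simp)
  have form : ∀ x ∈ F, ∃ i j : ℕ, x = y ^ i * z ^ j := fun x hx => form_FQS2 y3 z3 hc (hF ▸ hx)
  have pF : IsPGroup 3 F := by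
    intro x
    obtain ⟨i, j, e⟩ := form x x.2
    refine ⟨1, Subtype.ext ?_⟩
    rw [pow_one, Subgroup.coe_pow, e, (hc.pow_pow i j).mul_pow, pow_right_comm, y3,
      pow_right_comm, z3]
    simp
  have FJ : F ≤ J₀ := by
    rw [hF, Subgroup.closure_le]
    rintro x (rfl | rfl)
    exacts [yJ, zJ]
  have zM : z ∈ M := t.syl yM y1 hy pF yF zF
  obtain ⟨J, hFJ, hJJ, hJM, um⟩ := exists_um t.idx pF FJ
    (fun g hg => t.h2 y yM y1 hy g (hg y yF)) hJ
  obtain ⟨g₀, g0M, g03⟩ := um.ex3'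
  have hnt : ∃ v, (ρ.comp J.subtype) g₀ v ≠ v := by
    by_contra hn
    have hn' : ∀ v, ρ g₀ v = v := fun v => by
      by_contra h
      exact hn ⟨v, h⟩
    have e : ρ (g₀ : G) = ρ 1 := by
      rw [map_one]
      exact DFunLike.ext _ _ hn'
    have e' : g₀ = 1 := Subtype.ext (t.inj e)
    exact g0M (e' ▸ one_mem _)
  have iT : Inv (ρ.comp J.subtype) ⊤ T := fun g _ v hv => hT.inv g (hJJ g.2) v hv
  have prod : ∀ x ∈ F, ∀ x' ∈ F, ∃ k : ℕ, ∀ v,
      (ρ x - 1) ((ρ x' - 1) v) = k • ((ρ y - 1) * (ρ z - 1)) v := by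
    intro x hx x' hx'
    obtain ⟨i, j, rfl⟩ := form x hx
    obtain ⟨i', j', rfl⟩ := form x' hx'
    refine ⟨i * j' + j * i', fun v => ?_⟩
    have e := ring_FQS2 hy hz (comm_FQS2 hc) i j i' j'
    rw [← pow_FQS2 hy, ← pow_FQS2 hy, ← pow_FQS2 hz, ← pow_FQS2 hz] at e
    simp only [map_mul, map_pow]
    exact DFunLike.congr_fun e v
  obtain ⟨A₀, B₀, hA, hB, hv, hq⟩ : ∃ A₀ B₀ : AddSubgroup V, Inv (ρ.comp J.subtype) ⊤ A₀ ∧
      Inv (ρ.comp J.subtype) ⊤ B₀ ∧ (∃ v ∈ B₀, (ρ.comp J.subtype) g₀ v - v ∉ A₀) ∧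
      ∀ v ∈ B₀, ((ρ y - 1) * (ρ z - 1)) v ∈ A₀ := by
    by_cases h : ∃ v ∈ T, (ρ.comp J.subtype) g₀ v - v ∉ (⊥ : AddSubgroup V)
    · refine ⟨⊥, T, fun g _ v hv => ?_, iT, h, fun v hv => hT.kill v hv⟩
      rw [AddSubgroup.mem_bot] at hv ⊢
      rw [hv, map_zero]
    · refine ⟨T, ⊤, iT, fun _ _ _ _ => trivial, ?_, fun v _ => hT.mem v⟩
      obtain ⟨v, hv⟩ := hnt
      refine ⟨v, trivial, fun hm => hv (cop t.three g03 ?_)⟩
      by_contra hne
      exact h ⟨_, hm, fun hb => hne (sub_eq_zero.1 (AddSubgroup.mem_bot.1 hb))⟩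
  obtain ⟨N, _, _, σ, B, p, hBB, ms, n3, hs, hσ⟩ := exists_msect t.three hA hB g03 hv
  have fq : ∀ x ∈ F.subgroupOf J, ∀ x' ∈ F.subgroupOf J, (σ x - 1) * (σ x' - 1) = 0 := by
    intro x hx x' hx'
    refine DFunLike.ext _ _ fun n => ?_
    obtain ⟨v, hvB, rfl⟩ := ms.surj n
    obtain ⟨m1, e1⟩ := ms.sub x' hvB
    obtain ⟨m2, e2⟩ := ms.sub x m1
    obtain ⟨k, hk⟩ := prod x hx x' hx'
    have e3 : ((σ x - 1) * (σ x' - 1)) (p v) = (σ x - 1) ((σ x' - 1) (p v)) := rfl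
    rw [e3, ← e1, ← e2]
    refine ms.ker _ m2 ?_
    have e4 : ((ρ.comp J.subtype) x - 1) (((ρ.comp J.subtype) x' - 1) v) =
      k • ((ρ y - 1) * (ρ z - 1)) v := hk v
    rw [e4]
    exact nsmul_mem (hq v (hBB hvB)) k
  refine ⟨J, hJJ, hFJ yF, hFJ zF, yM, zM, hJM, fun g => ?_, fun g => ?_, fun g => ?_,
    fun i j hi hj g hg hm => ?_⟩
  · rw [y3, mul_one, inv_mul_cancel]
    exact one_mem _
  · rw [z3, mul_one, inv_mul_cancel]
    exact one_mem _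
  · rw [commutatorElement_eq_one_iff_commute.2 hc, mul_one, inv_mul_cancel]
    exact one_mem _
  by_cases i0 : i = 0
  · by_cases j0 : j = 0
    · exact Or.inr ⟨i0, j0⟩
    · obtain ⟨q1, q2, -⟩ := small_FQS2 t z1 hz j0 hj
      rw [i0, pow_zero, one_mul] at hm
      exact Or.inl (t.h2 _ (pow_mem zM j) q2 q1 g hm)
  obtain ⟨r1, r2, -⟩ := small_FQS2 t y1 hy i0 hi
  by_cases j0 : j = 0
  · rw [j0, pow_zero, mul_one] at hm
    exact Or.inl (t.h2 _ (pow_mem yM i) r2 r1 g hm)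
  obtain ⟨q1, -, q3⟩ := small_FQS2 t z1 hz j0 hj
  have xF : y ^ i * z ^ j ∈ F := mul_mem (pow_mem yF i) (pow_mem zF j)
  have hn : ∀ K : Subgroup J, K.Normal → IsPGroup 3 K → (⟨_, hFJ xF⟩ : J) ∉ K := by
    intro K nK pK hx
    have nm : Nm J (K.map J.subtype) := by
      rintro s hs _ ⟨c, hc', rfl⟩
      exact ⟨_, nK.conj_mem c hc' ⟨s, hs⟩, rfl⟩
    have e : y ^ i * z ^ j = 1 := by
      refine dprime t ab cf (pK.map J.subtype) nm hJM (inv_mem (pow_mem (hFJ yF) i))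
        (inv_mem (pow_mem yM i)) (inv_ne_one.2 r2) r1.inv.1 ⟨_, hx, rfl⟩ ?_ ?_
      · exact ((Commute.refl _).mul_right (hc.pow_pow i j)).inv_left
      · rw [inv_mul_cancel_left]
        exact q1
    have e' : z ^ j ∈ Subgroup.zpowers y := by
      rw [eq_inv_of_mul_eq_one_right e]
      exact inv_mem (pow_mem (Subgroup.mem_zpowers y) i)
    exact zy ((Subgroup.zpowers_le.2 e') q3)
  exact Or.inl ((t2 um n3 hs ⟨g₀, hσ⟩ fq (x := ⟨_, hFJ xF⟩) xF hn).2 ⟨g, hg⟩ hm)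

end Pool.Agent.MP_a5588a_al.Full

end
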