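import Pool.Agent.Mg.Fa5588aa.Ge45d38

section

/-! Block computations for a pair of quadratic elements in general position. -/

namespace Pool.Agent.MP_a5588a_al.Full

open Pool.Agent.MP_a5588a_al.Solv
open scoped commutatorElement

universe u v

section ring

variable {R : Type*} [Ring R]

theorem alg_FGenR : (∀ x y z : R, (x + y) * z = x * z + y * z ∧ (x - y) * z = x * z - y * z ∧
    x * (y + z) = x * y + x * z ∧ x * (y - z) = x * y - x * z ∧ x * y * z = x * (y * z)) ∧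
    (∀ x y : R, -x * y = -(x * y) ∧ x * -y = -(x * y)) ∧ (∀ x : R, 1 * x = x ∧ x * 0 = 0 ∧
      0 * x = 0 ∧ x + 0 = x ∧ 0 + x = x ∧ x - 0 = x ∧ 0 - x = -x ∧ - -x = x) ∧ -(0 : R) = 0 :=
  ⟨fun x y z => ⟨add_mul .., sub_mul .., mul_add .., mul_sub .., mul_assoc ..⟩,
    fun x y => ⟨neg_mul .., mul_neg ..⟩, fun x => by simp, neg_zero⟩

theorem eq1_FGenR {x y : R} (h : ∀ w, x * w = y * w) : x = y := by
  simpa using h 1

theorem eq3_FGenR [Module (ZMod 3) R] {x y : R} (h : ∀ w, (1 : ZMod 3) • (x * w) = y * w) :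
    x = y := by
  simpa using h 1

/-- Multiplication rules of the blocks. -/
abbrev S1_FGenR (a p g k u d v : R) : Prop := ∀ w : R,
  (a * (a * w) = 0 ∧ a * (g * w) = 0 ∧ a * (k * w) = 0 ∧ a * (u * w) = 0 ∧ a * (d * w) = 0 ∧
  a * (v * w) = 0 ∧ p * (p * w) = 0 ∧ p * (d * w) = 0 ∧ p * (v * w) = 0 ∧ g * (p * w) = 0 ∧
  g * (d * w) = 0 ∧ g * (v * w) = 0 ∧ k * (p * w) = 0 ∧ k * (d * w) = 0 ∧ k * (v * w) = 0 ∧
  u * (a * w) = 0 ∧ u * (p * w) = 0 ∧ u * (g * w) = 0 ∧ u * (k * w) = 0 ∧ u * (u * w) = 0 ∧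
  d * (a * w) = 0 ∧ d * (p * w) = 0 ∧ d * (g * w) = 0 ∧ d * (k * w) = 0 ∧ d * (u * w) = 0 ∧
  v * (p * w) = 0 ∧ v * (d * w) = 0 ∧ v * (v * w) = 0 ∧ a * (p * (a * w)) = -(a * w) ∧
  a * (p * (g * w)) = -(g * w) ∧ a * (p * (k * w)) = -(k * w) ∧ a * (p * (u * w)) = -(u * w) ∧
  p * (a * (p * w)) = -(p * w) ∧ g * (a * (p * w)) = -(g * w) ∧ k * (a * (p * w)) = -(k * w) ∧
  v * (a * (p * w)) = -(v * w) ∧ g * (g * w) = 0 ∧ d * (d * w) = 0 ∧
  u * (d * w) = -(g * (u * w)) ∧ d * (v * w) = -(v * (g * w))) ∧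
  u * (v * w) = -(g * (k * w)) - k * (g * w)

/-- Multiplication rules of the off-diagonal blocks. -/
abbrev S2_FGenR (a p u v : R) : Prop := ∀ w : R,
  a * (a * w) = 0 ∧ a * (u * w) = 0 ∧ a * (v * w) = 0 ∧ p * (p * w) = 0 ∧ p * (v * w) = 0 ∧
  u * (a * w) = 0 ∧ u * (p * w) = 0 ∧ u * (u * w) = 0 ∧ v * (p * w) = 0 ∧ v * (v * w) = 0 ∧
  a * (p * (a * w)) = -(a * w) ∧ a * (p * (u * w)) = -(u * w) ∧ p * (a * (p * w)) = -(p * w) ∧
  v * (a * (p * w)) = -(v * w) ∧ v * (u * (v * (u * w))) = 0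

theorem blocks_FGenR {a p b : R} (ha : a * a = 0) (hp : p * p = 0) (h1 : a * p * a = -a)
    (h2 : p * a * p = -p) (hb : b * b = 0) (hab : b * a = a * b) : ∃ g k u d v : R,
      b = g - p * g * a - k * a + u + d - v * a ∧ S1_FGenR a p g k u d v := by
  have B : ∀ w, a * (a * w) = 0 ∧ p * (p * w) = 0 ∧ a * (p * (a * w)) = -(a * w) ∧
      p * (a * (p * w)) = -(p * w) ∧ b * (b * w) = 0 ∧ b * (a * w) = a * (b * w) ∧
      a * (b * (p * (a * w))) = -(a * (b * w)) := fun w => by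
    simp only [← mul_assoc, ha, hp, h1, h2, hb, hab, zero_mul, neg_mul, true_and]
    rw [← hab, mul_assoc b, mul_assoc b, h1, mul_neg, neg_mul]
  obtain ⟨e, he⟩ : ∃ e, e = 1 + a * p + p * a := ⟨_, rfl⟩
  have E : ∀ w, e * (a * w) = 0 ∧ e * (p * w) = 0 ∧ a * (e * w) = 0 ∧ p * (e * w) = 0 ∧
      e * (e * w) = e * w ∧ a * (b * (e * w)) = 0 ∧
      b * (e * (b * w)) = b * (a * (p * (b * w))) + b * (p * (a * (b * w))) := fun w => by
    simp only [he, alg_FGenR, B, and_true]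
    refine ⟨?_, ?_, ?_, ?_, ?_, ?_⟩ <;> abel
  refine ⟨a * p * b * a * p, -(a * p * b * p), -(a * p * b * e), e * b * e, e * b * p, ?_,
    fun w => ?_⟩
  · refine eq1_FGenR fun w => ?_
    simp only [he, alg_FGenR, B]
    abel
  · simp only [alg_FGenR, B, E, and_self, true_and]
    abel

variable [Module (ZMod 3) R] {a p g k u d v : R}

theorem t_FGenR (S : S1_FGenR a p g k u d v) :
    ((1 + a) * (1 + p)) ^ 3 = 1 - (a * p + p * a) ∧
      (1 - (a * p + p * a)) * (1 - (a * p + p * a)) = 1 ∧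
      (1 - (a * p + p * a)) * (1 + (g - p * g * a - k * a + u + d - v * a)) *
        (1 - (a * p + p * a)) = 1 + (g - p * g * a - k * a - u + d + v * a) ∧
      (1 + (g - p * g * a - k * a - u + d + v * a)) *
        (1 - (g - p * g * a - k * a - u + d + v * a)) = 1 := by
  refine ⟨?_, ?_, ?_, ?_⟩ <;> refine eq3_FGenR fun w => ?_ <;>
    simp only [pow_three, alg_FGenR, S] <;> match_scalars <;> decide

theorem ze_FGenR (S : S1_FGenR a p g k u d v) :
    (1 + (g - p * g * a - k * a + u + d - v * a)) * (1 + (g - p * g * a - k * a - u + d + v * a)) *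
      (1 - (g - p * g * a - k * a + u + d - v * a)) *
      (1 - (g - p * g * a - k * a - u + d + v * a)) = 1 + (-(g * u) - v * g * a) := by
  refine eq3_FGenR fun w => ?_
  simp only [alg_FGenR, S]
  match_scalars <;> decide

theorem s2_FGenR (S : S1_FGenR a p g k u d v) (h : -(g * u) - v * g * a = 0) :
    S2_FGenR a p u v ∧ (1 - (g - p * g * a - k * a + u + d - v * a)) *
      (1 + (g - p * g * a - k * a - u + d + v * a)) = 1 + (u - v * a + u * v * a) := by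
  have gu : ∀ w, g * (u * w) = 0 := fun w => by
    simpa only [alg_FGenR, S] using congrArg (fun x => a * (p * (x * w))) h
  have vg : ∀ w, v * (g * w) = 0 := fun w => by
    simpa only [alg_FGenR, S] using congrArg (fun x => x * (p * w)) h
  refine ⟨fun w => by simp only [alg_FGenR, S, gu, vg, and_self], eq3_FGenR fun w => ?_⟩
  simp only [alg_FGenR, S, gu, vg]
  match_scalars <;> decide

theorem h_FGenR (S : S2_FGenR a p u v) :
    (1 + a) * (1 + p) * (1 + a) * (1 + (u - v * a + u * v * a)) * ((1 - a) * ((1 - p) * (1 - a))) =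
      1 - v + p * u + p * u * v ∧
    (1 - v + p * u + p * u * v) * (1 + v - p * u + p * u * v) = 1 ∧
    (1 - v + p * u + p * u * v) * (1 + a) * (1 + v - p * u + p * u * v) =
      1 + (a + u - u * v - v * a - v * u + v * u * v + p * u * v * a + p * u * v * u -
        p * u * v * u * v) ∧
    (1 + v - p * u + p * u * v) * (1 + a) * (1 - v + p * u + p * u * v) =
      1 + (a - u - u * v + v * a - v * u - v * u * v + p * u * v * a - p * u * v * u -
        p * u * v * u * v) := by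
  refine ⟨?_, ?_, ?_, ?_⟩ <;> refine eq3_FGenR fun w => ?_ <;>
    simp only [alg_FGenR, S] <;> match_scalars <;> decide

end ring

variable {G : Type u} {V : Type v} [Group G] [Finite G] [AddCommGroup V] [Finite V]
  {ρ : G →* AddMonoid.End V} {M : Subgroup G}

variable {n w z t z' r h : G}

/-- The module structure over the field with three elements. -/
abbrev zm_FGenR {R : Type*} [Ring R] (h3 : (3 : R) = 0) : Module (ZMod 3) R :=
  AddCommGroup.zmodModule fun x => by rw [nsmul_eq_mul, Nat.cast_ofNat, h3, zero_mul]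

omit [Finite G] [Finite V] in
theorem inv_FGenR {g : G} {y : AddMonoid.End V} (h : ρ g * y = 1) : ρ g⁻¹ = y := by
  rw [← mul_one (ρ g⁻¹), ← h, ← mul_assoc, ← map_mul, inv_mul_cancel, map_one, one_mul]

omit [Finite G] [Finite V] in
theorem qi_FGenR {g : G} {y : AddMonoid.End V} (h : ρ g = 1 + y) (hg : Quad ρ g) :
    ρ g⁻¹ = 1 - y := by
  rw [Quad, h, add_sub_cancel_left] at hg
  refine inv_FGenR ?_
  rw [h, mul_sub, mul_one, add_mul, one_mul, hg, add_zero, add_sub_cancel_right]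

omit [Finite G] [Finite V] in
theorem set1_FGenR (h3 : (3 : AddMonoid.End V) = 0) (hn : Quad ρ n) (hw : Quad ρ w)
    (hz : Quad ρ z) (hg : Gen ρ n w) (hc : Commute n z) (ht : t = (n * w) ^ 3)
    (hz' : z' = t * z * t⁻¹) : ∃ a p g k u d v : AddMonoid.End V, S1_FGenR a p g k u d v ∧
      ρ n = 1 + a ∧ ρ w = 1 + p ∧ ρ z⁻¹ = 1 - (g - p * g * a - k * a + u + d - v * a) ∧
      ρ z' = 1 + (g - p * g * a - k * a - u + d + v * a) ∧
      ρ ⁅z, z'⁆ = 1 + (-(g * u) - v * g * a) := by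
  let := zm_FGenR h3
  obtain ⟨g, k, u, d, v, hb, S⟩ := blocks_FGenR hn hw hg.1 hg.2 hz
    (by have := (hc.map ρ).eq; linear_combination (norm := noncomm_ring) -this)
  have e1 := (add_sub_cancel 1 (ρ n)).symm
  have e2 := (add_sub_cancel 1 (ρ w)).symm
  have e3 := (add_sub_cancel 1 (ρ z)).symm
  rw [hb] at e3
  generalize ρ n - 1 = a at S e1 e3
  generalize ρ w - 1 = p at S e2 e3
  obtain ⟨t1, t2, t3, t4⟩ := t_FGenR S
  have e4 : ρ t = 1 - (a * p + p * a) := by rw [ht, map_pow, map_mul, e1, e2, t1]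
  have e6 := inv_FGenR ((congrArg (· * _) e4).trans t2)
  have e5 : ρ z' = 1 + (g - p * g * a - k * a - u + d + v * a) := by
    rw [hz', map_mul, map_mul, e6, e4, e3, t3]
  refine ⟨a, p, g, k, u, d, v, S, e1, e2, qi_FGenR e3 hz, e5, ?_⟩
  rw [commutatorElement_def, map_mul, map_mul, map_mul, qi_FGenR e3 hz,
    inv_FGenR ((congrArg (· * _) e5).trans t4), e5, e3, ze_FGenR S]

omit [Finite G] [Finite V] in
theorem set2_FGenR (h3 : (3 : AddMonoid.End V) = 0) (hn : Quad ρ n) (hw : Quad ρ w)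
    (hz : Quad ρ z) (hg : Gen ρ n w) (hc : Commute n z) (ht : t = (n * w) ^ 3)
    (hz' : z' = t * z * t⁻¹) (hzz : Commute z z') (hr : r = z⁻¹ * z')
    (hh : h = n * w * n * r * (n * w * n)⁻¹) : ∃ a p u v : AddMonoid.End V, S2_FGenR a p u v ∧
      ρ n = 1 + a ∧ ρ w = 1 + p ∧ ρ r = 1 + (u - v * a + u * v * a) ∧ ρ (h * n * h⁻¹) =
      1 + (a + u - u * v - v * a - v * u + v * u * v + p * u * v * a + p * u * v * u -
        p * u * v * u * v) ∧ ρ (h⁻¹ * n * h) =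
      1 + (a - u - u * v + v * a - v * u - v * u * v + p * u * v * a - p * u * v * u -
        p * u * v * u * v) := by
  let := zm_FGenR h3
  obtain ⟨a, p, g, k, u, d, v, S, e1, e2, e3, e4, e5⟩ := set1_FGenR h3 hn hw hz hg hc ht hz'
  rw [commutatorElement_eq_one_iff_commute.2 hzz, map_one, left_eq_add] at e5
  obtain ⟨S2, e6⟩ := s2_FGenR S e5
  rw [← e3, ← e4, ← map_mul, ← hr] at e6
  obtain ⟨t1, t2, t3, t4⟩ := h_FGenR S2
  have e7 : ρ h = 1 - v + p * u + p * u * v := by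
    rw [hh, mul_inv_rev, mul_inv_rev]
    simp only [map_mul, qi_FGenR e1 hn, qi_FGenR e2 hw, e6]
    rw [e1, e2, t1]
  have e8 := inv_FGenR ((congrArg (· * _) e7).trans t2)
  refine ⟨a, p, u, v, S2, e1, e2, e6, ?_, ?_⟩ <;> rw [map_mul, map_mul, e8, e7, e1]
  exacts [t3, t4]

omit [Finite G] [Finite V] in
theorem gr1 (h3 : (3 : AddMonoid.End V) = 0) (hn : Quad ρ n) (hw : Quad ρ w) (hz : Quad ρ z)
    (hg : Gen ρ n w) (hc : Commute n z) (ht : t = (n * w) ^ 3) (hz' : z' = t * z * t⁻¹) :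
    Quad ρ ⁅z, z'⁆ ∧ ac ρ ⁅z, z'⁆ w ^ 3 = 0 := by
  obtain ⟨a, p, g, k, u, d, v, S, -, e2, -, -, e5⟩ := set1_FGenR h3 hn hw hz hg hc ht hz'
  rw [Quad, ac, e5, e2, add_sub_cancel_left, add_sub_cancel_left]
  constructor <;> refine eq1_FGenR fun w => ?_ <;> simp only [pow_three, alg_FGenR, S]

omit [Finite G] [Finite V] in
theorem gr3 (h3 : (3 : AddMonoid.End V) = 0) (hn : Quad ρ n) (hw : Quad ρ w) (hz : Quad ρ z)
    (hg : Gen ρ n w) (hc : Commute n z) (ht : t = (n * w) ^ 3) (hz' : z' = t * z * t⁻¹)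
    (hzz : Commute z z') (hr : r = z⁻¹ * z') (hh : h = n * w * n * r * (n * w * n)⁻¹) :
    ac ρ n (h * n * h⁻¹) ^ 3 = 0 ∧ ac ρ n (h⁻¹ * n * h) ^ 3 = 0 := by
  obtain ⟨a, p, u, v, S, e1, -, -, e4, e5⟩ := set2_FGenR h3 hn hw hz hg hc ht hz' hzz hr hh
  rw [ac, ac, e4, e5, e1, add_sub_cancel_left, add_sub_cancel_left, add_sub_cancel_left]
  constructor <;> refine eq1_FGenR fun w => ?_ <;> simp only [pow_three, alg_FGenR, S]

omit [Finite G] [Finite V] in
theorem gr4 (h3 : (3 : AddMonoid.End V) = 0) (hn : Quad ρ n) (hw : Quad ρ w) (hz : Quad ρ z)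
    (hg : Gen ρ n w) (hc : Commute n z) (ht : t = (n * w) ^ 3) (hz' : z' = t * z * t⁻¹)
    (hzz : Commute z z') (hr : r = z⁻¹ * z') (hh : h = n * w * n * r * (n * w * n)⁻¹)
    (c₁ : Commute n (h * n * h⁻¹)) (c₂ : Commute n (h⁻¹ * n * h)) :
    Quad ρ (h * n * h⁻¹ * (h⁻¹ * n * h) * n) ∧
      Commute (ρ (h * n * h⁻¹ * (h⁻¹ * n * h) * n)) (ρ w) ∧
        (ρ (h * n * h⁻¹ * (h⁻¹ * n * h) * n) = 1 → Quad ρ r ∧ ac ρ r w ^ 3 = 0) := by
  let := zm_FGenR h3
  obtain ⟨a, p, u, v, S, e1, e2, e3, e4, e5⟩ := set2_FGenR h3 hn hw hz hg hc ht hz' hzz hr hh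
  have c := (c₁.map ρ).eq
  rw [e4, e1] at c
  have E : u * v * u * v + p * u * v * u * v * a - u * v * u - v * u * v * a = 0 := by
    rw [← sub_eq_zero.2 c]
    refine eq1_FGenR fun w => ?_
    simp only [alg_FGenR, S]
    abel
  have q1 : ∀ w, u * (v * (u * (v * w))) = 0 := fun w => by
    simpa only [alg_FGenR, S, neg_eq_zero] using congrArg (fun x => x * (v * w)) E
  have q2 : ∀ w, u * (v * (u * w)) = 0 := fun w => by
    simpa only [alg_FGenR, S, q1] using congrArg (fun x => a * (p * (x * w))) E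
  have q3 : ∀ w, v * (u * (v * w)) = 0 := fun w => by
    simpa only [alg_FGenR, S, q2] using congrArg (fun x => x * (p * w)) E
  have e6 : ρ (h * n * h⁻¹ * (h⁻¹ * n * h) * n) = 1 + (u * v + v * u - p * u * v * a) := by
    rw [map_mul, map_mul, e4, e5, e1]
    refine eq3_FGenR fun w => ?_
    simp only [alg_FGenR, S, q2, q3]
    match_scalars <;> decide
  rw [Quad, Quad, ac, e6, e2, e3, add_sub_cancel_left, add_sub_cancel_left, add_sub_cancel_left,
    add_eq_left]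
  refine ⟨eq1_FGenR fun w => ?_, eq1_FGenR fun w => ?_, fun e => ?_⟩
  · simp only [alg_FGenR, S, q2, q3]
  · simp only [alg_FGenR, S]
    abel
  · have q4 : ∀ w, u * (v * w) = 0 := fun w => by
      simpa only [alg_FGenR, S, neg_eq_zero] using congrArg (fun x => a * (p * (x * w))) e
    constructor <;> refine eq1_FGenR fun w => ?_ <;> simp only [pow_three, alg_FGenR, S, q4]

end Pool.Agent.MP_a5588a_al.Full

end

section

/-! A quadratic element that commutes with `n` commutes with the central involution. -/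

namespace Pool.Agent.MP_a5588a_al.Full

open Pool.Agent.MP_a5588a_al.Solv
open scoped commutatorElement

universe u v

variable {G : Type u} {V : Type v} [Group G] [Finite G] [AddCommGroup V] [Finite V]
  {ρ : G →* AddMonoid.End V} {M : Subgroup G}

/-- `g` rotates the points `n ^ j * w * M` by `i` steps. -/
def Rot_FGen (M : Subgroup G) (n w : G) (i : ℤ) (g : G) : Prop :=
  ∀ j : ℤ, (n ^ (i + j) * w)⁻¹ * g * (n ^ j * w) ∈ M

omit [Finite G] in
theorem mul_FGen {n w g g' : G} {i i' : ℤ} (h : Rot_FGen M n w i g) (h' : Rot_FGen M n w i' g') :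
    Rot_FGen M n w (i + i') (g * g') := fun j => by
  have := M.mul_mem (h (i' + j)) (h' j)
  rw [← add_assoc] at this
  simpa only [mul_assoc, mul_inv_cancel_left] using this

omit [Finite G] in
theorem inv_FGen {n w g : G} {i : ℤ} (h : Rot_FGen M n w i g) : Rot_FGen M n w (-i) g⁻¹ :=
  fun j => by
    have := M.inv_mem (h (-i + j))
    rwa [add_neg_cancel_left, mul_inv_rev, mul_inv_rev _ g, inv_inv, ← mul_assoc] at this

omit [Finite G] in
theorem self_FGen (M : Subgroup G) (n w : G) : Rot_FGen M n w 1 n := fun j => by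
  rw [mul_assoc, ← mul_assoc n, ← zpow_one_add, inv_mul_cancel]
  exact M.one_mem

omit [Finite G] [Finite V] in
theorem cen_FGen (h : TI ρ M) {n g : G} (nM : n ∈ M) (n1 : n ≠ 1) (hn : Quad ρ n)
    (hc : Commute n g) : g ∈ M :=
  h.h2 n nM n1 hn g (by rwa [mul_assoc, hc.eq, inv_mul_cancel_left])

theorem triv_FGen (h : TI ρ M) {x w : G} (xM : x ∈ M) (hx : Quad ρ x) (hw : Quad ρ w)
    (wM : w ∉ M) {k : ℕ} (hk : ac ρ x w ^ k = 0) : x = 1 :=
  by_contra fun x1 => wM (h.syl xM x1 hx (nil h.three h.inj hx hw hk)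
    (Subgroup.subset_closure (Set.mem_insert _ _))
    (Subgroup.subset_closure (Set.mem_insert_of_mem _ rfl)))

theorem comm_FGen (h : TI ρ M) {n w y : G} (nM : n ∈ M) (n1 : n ≠ 1) (hn : Quad ρ n)
    (wM : w ∉ M) (hy : Quad ρ y) (hr : Rot_FGen M n w 1 y) {k : ℕ} (hk : ac ρ n y ^ k = 0) :
    Commute n y := by
  by_contra hc
  have hp := nil h.three h.inj hn hy hk
  have hM := h.syl nM n1 hn hp (Subgroup.subset_closure (Set.mem_insert _ _))
  obtain ⟨u, hu, z, hz, qu, qz, nc, e₁, e₂⟩ := qc h.three hn hy hp hc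
  have key : ∀ g ∈ Subgroup.closure {n, y}, ∃ i, Rot_FGen M n w i g := fun g hg => by
    induction hg using Subgroup.closure_induction with
    | mem x hx =>
      rcases hx with rfl | rfl
      · exact ⟨1, self_FGen M _ w⟩
      · exact ⟨1, hr⟩
    | one => exact ⟨0, fun j => by rw [zero_add, mul_one, inv_mul_cancel]; exact M.one_mem⟩
    | mul x x' _ _ a b =>
      obtain ⟨i, a⟩ := a
      obtain ⟨i', b⟩ := b
      exact ⟨_, mul_FGen a b⟩
    | inv x _ a =>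
      obtain ⟨i, a⟩ := a
      exact ⟨_, inv_FGen a⟩
  obtain ⟨i, a⟩ := key z hz
  obtain ⟨i', b⟩ := key u hu
  have c := mul_FGen (mul_FGen (mul_FGen a b) (inv_FGen a)) (inv_FGen b) 0
  rw [show i + i' + -i + -i' + 0 = 0 by ring, zpow_zero, one_mul, ← commutatorElement_def] at c
  refine wM (h.h2 ⁅z, u⁆ ?_ (fun e => nc ?_) (qc_n qu qz e₁ e₂).1 w c)
  · exact M.mul_mem (M.mul_mem (M.mul_mem (hM hz) (hM hu)) (M.inv_mem (hM hz))) (M.inv_mem (hM hu))
  · exact (commutatorElement_eq_one_iff_commute.1 e).symm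

theorem generic (h : TI ρ M) {n w z : G} (nM : n ∈ M) (n1 : n ≠ 1) (hn : Quad ρ n) (hw : Quad ρ w)
    (wM : w ∉ M) (hg : Gen ρ n w) (hz : Quad ρ z) (hc : Commute n z) :
    Commute z ((n * w) ^ 3) := by
  have hb : n * w * n = w * n * w := hg.braid h.inj hn hw
  have cen : ∀ g, Commute n g → g ∈ M := fun g => cen_FGen h nM n1 hn
  have b1 : n * w * n * n = w * (n * w * n) := by
    conv_lhs => rw [hb]
    simp only [mul_assoc]
  have b2 : n * w * n * w = n * (n * w * n) := by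
    conv_rhs => rw [hb]
    simp only [mul_assoc]
  obtain ⟨t, ht⟩ : ∃ t, t = (n * w) ^ 3 := ⟨_, rfl⟩
  have tn : Commute n t := by
    have : t = n * w * n * (n * w * n) := by
      conv_rhs => rhs; rw [hb]
      rw [ht, pow_succ, sq]
      simp only [mul_assoc]
    rw [this]
    generalize n * w * n = x at b1 b2
    show n * (x * x) = x * x * n
    rw [mul_assoc x, b1, ← mul_assoc x, b2, mul_assoc]
  obtain ⟨z', hz'⟩ : ∃ z', z' = t * z * t⁻¹ := ⟨_, rfl⟩
  have nz' : Commute n z' := hz' ▸ (tn.mul_right hc).mul_right tn.inv_right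
  obtain ⟨g1, g2⟩ := gr1 h.three hn hw hz hg hc ht hz'
  have hzz : Commute z z' := commutatorElement_eq_one_iff_commute.1 (triv_FGen h
    (cen _ (((hc.mul_right nz').mul_right hc.inv_right).mul_right nz'.inv_right)) g1 hw wM g2)
  obtain ⟨r, hr⟩ : ∃ r, r = z⁻¹ * z' := ⟨_, rfl⟩
  have nr : Commute n r := hr ▸ hc.inv_right.mul_right nz'
  obtain ⟨k, hk⟩ : ∃ k, k = n * w * n * r * (n * w * n)⁻¹ := ⟨_, rfl⟩
  obtain ⟨g3, g4⟩ := gr3 h.three hn hw hz hg hc ht hz' hzz hr hk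
  have q1 : Quad ρ (k * n * k⁻¹) := hn.conj k
  have q2 : Quad ρ (k⁻¹ * n * k) := by simpa using hn.conj k⁻¹
  have kM : k ∈ M := M.inv_mem_iff.1 (h.h2 n nM n1 hn k⁻¹ (by
    rw [inv_inv]
    exact h.syl nM n1 hn (nil h.three h.inj hn q1 g3) (Subgroup.subset_closure (Set.mem_insert _ _))
      (Subgroup.subset_closure (Set.mem_insert_of_mem _ rfl))))
  have wk : w * k = k * w := by
    rw [hk]
    generalize n * w * n = x at b1
    have : w = x * n * x⁻¹ := by rw [b1, mul_inv_cancel_right]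
    rw [this]
    simp only [mul_assoc, inv_mul_cancel_left]
    rw [← mul_assoc n, nr.eq, mul_assoc]
  have mM : w * n * (n * w * n) ∈ M := cen _ (by
    show n * (w * n * (n * w * n)) = w * n * (n * w * n) * n
    rw [mul_assoc (w * n) (n * w * n), b1, ← mul_assoc (w * n) w, ← hb]
    simp only [mul_assoc])
  have rot : Rot_FGen M n w 0 k := fun j => by
    have n3 : n ^ (3 : ℤ) = 1 := by exact_mod_cast h.cube hn
    rw [zero_add, zpow_eq_zpow_emod j n3]
    obtain e | e | e : j % 3 = 0 ∨ j % 3 = 1 ∨ j % 3 = 2 := by omega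
    · rwa [e, zpow_zero, one_mul, mul_assoc, ← wk, inv_mul_cancel_left]
    · have := M.mul_mem (M.mul_mem nM (cen r nr)) (M.inv_mem nM)
      have e' : (n * w)⁻¹ * k * (n * w) = n * r * n⁻¹ := by
        rw [hk]
        group
      rwa [e, zpow_one, e']
    · have m := M.mul_mem mM (M.inv_mem nM)
      have := M.mul_mem (M.mul_mem (M.inv_mem m) kM) m
      have e' : (w * n * (n * w * n) * n⁻¹)⁻¹ * k * (w * n * (n * w * n) * n⁻¹) =
          (n ^ (2 : ℤ) * w)⁻¹ * (w⁻¹ * (k * w)) * (n ^ (2 : ℤ) * w) := by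
        rw [zpow_two]
        group
      rwa [e', ← wk, inv_mul_cancel_left, ← e] at this
  have c₁ := comm_FGen h nM n1 hn wM q1 (by
    simpa using mul_FGen (mul_FGen rot (self_FGen M n w)) (inv_FGen rot)) g3
  have c₂ := comm_FGen h nM n1 hn wM q2 (by
    simpa using mul_FGen (mul_FGen (inv_FGen rot) (self_FGen M n w)) rot) g4
  obtain ⟨g5, g6, g7⟩ := gr4 h.three hn hw hz hg hc ht hz' hzz hr hk c₁ c₂
  have x1 : k * n * k⁻¹ * (k⁻¹ * n * k) * n = 1 := by_contra fun x1 =>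
    wM (cen_FGen h (cen _ ((c₁.mul_right c₂).mul_right (Commute.refl n))) x1 g5
      (h.inj (by rw [map_mul ρ _ w, map_mul ρ w]; exact g6.eq)))
  obtain ⟨g8, g9⟩ := g7 (by rw [x1, map_one])
  have r1 := triv_FGen h (cen r nr) g8 hw wM g9
  rw [hr, inv_mul_eq_one, hz', eq_mul_inv_iff_mul_eq] at r1
  exact ht ▸ r1

end Pool.Agent.MP_a5588a_al.Full

end

section

namespace Pool.Agent.MP_a5588a_al.Full

open Pool.Agent.MP_a5588a_al.Solv
open scoped commutatorElement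

universe u v

theorem idx3_FNQ {W : Type*} [Group W] [Finite W] (hW : IsPGroup 3 W) {H : Subgroup W}
    (hH : H ≠ ⊤) : ∃ K : Subgroup W, H ≤ K ∧ K.Normal ∧ K.index = 3 := by
  have : Fact (Nat.Prime 3) := ⟨Nat.prime_three⟩
  obtain ⟨m, hm⟩ := IsPGroup.iff_card.1 hW
  obtain ⟨n, hn⟩ := IsPGroup.iff_card.1 (hW.to_subgroup H)
  have hlt : n < m := by
    have h1 : Nat.card H ≤ Nat.card W := Subgroup.card_le_card_group H
    have h2 : Nat.card H ≠ Nat.card W := fun e => hH (Subgroup.eq_top_of_card_eq H e)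
    have h3 : 3 ^ n < 3 ^ m := by rw [← hn, ← hm]; exact lt_of_le_of_ne h1 h2
    exact (Nat.pow_lt_pow_iff_right (by norm_num)).1 h3
  obtain ⟨k, rfl⟩ : ∃ k, m = k + 1 := ⟨m - 1, by omega⟩
  obtain ⟨K, hK, hHK⟩ := Sylow.exists_subgroup_card_pow_prime_le (G := W) 3 (n := n) (m := k)
    (by rw [hm]; exact pow_dvd_pow 3 (Nat.le_succ k)) H hn (by omega)
  have hi : K.index = 3 := by
    have h1 := K.card_mul_index
    rw [hK, hm, pow_succ] at h1
    exact Nat.eq_of_mul_eq_mul_left (by positivity) h1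
  refine ⟨K, hHK, Subgroup.normal_of_index_eq_minFac_card ?_, hi⟩
  rw [hi, hm, Nat.Prime.pow_minFac Nat.prime_three (Nat.succ_ne_zero k)]

theorem univ3_FNQ {T : Type*} [Group T] [Fintype T] [DecidableEq T] (hT : Nat.card T = 3) {z : T}
    (hz : z ≠ 1) {V : Type*} [AddCommGroup V] (S : T → V) :
    ∑ t, S t = S 1 + S (z * 1) + S (z * (z * 1)) := by
  have h3 : z ^ 3 = 1 := by rw [← hT]; exact pow_card_eq_one'
  have h2 : z * z ≠ 1 := fun e => hz (by
    have : z ^ 3 = z * z * z := by rw [pow_succ, pow_two]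
    rw [this, e, one_mul] at h3
    exact h3)
  have h4 : z ≠ z * z := fun e => hz (by simpa using e)
  have hu : (Finset.univ : Finset T) = {1, z, z * z} := by
    symm
    apply Finset.eq_univ_of_card
    rw [← Nat.card_eq_fintype_card, hT]
    exact Finset.card_eq_three.2 ⟨1, z, z * z, hz.symm, h2.symm, h4, rfl⟩
  rw [hu, Finset.sum_insert (by simp [hz.symm, h2.symm]), Finset.sum_pair h4, mul_one, add_assoc]

theorem trans_FNQ {W Ω V : Type*} [Group W] [Finite W] (hW : IsPGroup 3 W) [MulAction W Ω]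
    [Fintype Ω] [AddCommGroup V] (a : W → V →+ V) (f : Ω → V)
    (hf : ∀ w ω, f (w • ω) = a w (f ω)) (Y : Set W) (hY : Subgroup.closure Y = ⊤)
    (ha : ∀ y ∈ Y, ∀ v, v + a y v + a y (a y v) = 0) (ω₀ : Ω) (htr : ∀ ω, ∃ w : W, w • ω₀ = ω)
    (hne : ∃ w : W, w • ω₀ ≠ ω₀) : ∑ ω, f ω = 0 := by
  classical
  have hH : MulAction.stabilizer W ω₀ ≠ ⊤ := fun e => by
    obtain ⟨w, hw⟩ := hne
    exact hw (MulAction.mem_stabilizer_iff.1 (e ▸ Subgroup.mem_top w))
  obtain ⟨K, hHK, hKn, hKi⟩ := idx3_FNQ hW hH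
  obtain ⟨x, hxY, hxK⟩ : ∃ x ∈ Y, x ∉ K := by
    by_contra hc
    have h1 : K = ⊤ := by
      rw [eq_top_iff, ← hY, Subgroup.closure_le]
      intro x hx
      by_contra h2
      exact hc ⟨x, hx, h2⟩
    rw [h1, Subgroup.index_top] at hKi
    exact absurd hKi (by norm_num)
  choose r hr using htr
  let c : Ω → W ⧸ K := fun ω => (r ω : W ⧸ K)
  have hc : ∀ w : W, c (w • ω₀) = (w : W ⧸ K) := fun w => by
    apply QuotientGroup.eq.2
    apply hHK
    rw [MulAction.mem_stabilizer_iff, mul_smul, inv_smul_eq_iff, hr]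
  have hcx : ∀ ω, c (x • ω) = (x : W ⧸ K) * c ω := fun ω => by
    rw [← hr ω, ← mul_smul, hc, hc, QuotientGroup.mk_mul]
  have : Fintype (W ⧸ K) := Fintype.ofFinite _
  let S : W ⧸ K → V := fun t => ∑ ω with c ω = t, f ω
  have hS : ∀ t, S ((x : W ⧸ K) * t) = a x (S t) := fun t => by
    simp only [S, map_sum]
    symm
    refine Finset.sum_equiv (MulAction.toPerm x) (fun ω => ?_) (fun ω _ => ?_)
    · simp [hcx]
    · simp [hf]
  rw [← Finset.sum_fiberwise Finset.univ c f,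
    univ3_FNQ (z := (x : W ⧸ K)) hKi (fun e => hxK ((QuotientGroup.eq_one_iff x).1 e)) S,
    hS, hS, hS]
  exact ha x hxY _

theorem total_FNQ {W Ω V : Type*} [Group W] [Finite W] (hW : IsPGroup 3 W) [MulAction W Ω]
    [Fintype Ω] [AddCommGroup V] (a : W → V →+ V) (f : Ω → V)
    (hf : ∀ w ω, f (w • ω) = a w (f ω)) (Y : Set W) (hY : Subgroup.closure Y = ⊤)
    (ha : ∀ y ∈ Y, ∀ v, v + a y v + a y (a y v) = 0) (b : Ω)
    (hb : ∀ ω, (∀ w : W, w • ω = ω) ↔ ω = b) : ∑ ω, f ω = f b := by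
  classical
  let c : Ω → MulAction.orbitRel.Quotient W Ω := fun ω => Quotient.mk _ ω
  have hc : ∀ ω ω', c ω = c ω' ↔ ω ∈ MulAction.orbit W ω' := fun ω ω' =>
    Quotient.eq.trans MulAction.orbitRel_apply
  have : Fintype (MulAction.orbitRel.Quotient W Ω) := Fintype.ofFinite _
  rw [← Finset.sum_fiberwise Finset.univ c f, Finset.sum_eq_single (c b)]
  · rw [Finset.sum_eq_single b]
    · intro ω hω hωb
      obtain ⟨w, hw⟩ := (hc _ _).1 (Finset.mem_filter.1 hω).2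
      exact absurd (hw.symm.trans ((hb b).2 rfl w)) hωb
    · simp
  · intro q _ hq
    obtain ⟨ω₀, rfl⟩ : ∃ ω₀, c ω₀ = q := Quotient.exists_rep q
    have : Fintype (MulAction.orbit W ω₀) := Fintype.ofFinite _
    rw [Finset.sum_subtype (p := fun ω => ω ∈ MulAction.orbit W ω₀) _ (fun ω => by simp [hc]) f]
    refine trans_FNQ hW a (fun ω : MulAction.orbit W ω₀ => f ω) (fun w ω => hf w ω) Y hY ha
      ⟨ω₀, MulAction.mem_orbit_self ω₀⟩ (fun ω => ?_) ?_
    · obtain ⟨w, hw⟩ := ω.2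
      exact ⟨w, Subtype.ext hw⟩
    · by_contra hn
      apply hq
      rw [(hb ω₀).1 (fun w => ?_)]
      by_contra h2
      exact hn ⟨w, fun e => h2 (congrArg Subtype.val e)⟩
  · simp

variable {G : Type u} [Group G] [Finite G] {X B : Type*} [AddCommGroup X] [AddCommGroup B]
  {σ : G →* AddMonoid.End X} {φ : X →+ B} {M : Subgroup G}

omit [Finite G] in
theorem cyc_FNQ (h3 : (3 : AddMonoid.End X) = 0) {y x : G} (hq : Quad σ y) (hx : IsConj y x) :
    1 + σ x⁻¹ + σ x⁻¹ * σ x⁻¹ = 0 := by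
  obtain ⟨c, rfl⟩ := isConj_iff.1 hx
  have h1 : σ y⁻¹ * σ y = 1 := by rw [← map_mul, inv_mul_cancel, map_one]
  have h2 : 1 + σ y⁻¹ + σ y⁻¹ * σ y⁻¹ = 0 := by
    have e : σ y⁻¹ * σ y⁻¹ * ((σ y - 1) * (σ y - 1)) + σ y⁻¹ * 3 =
        σ y⁻¹ * (σ y⁻¹ * σ y) * σ y - σ y⁻¹ * (σ y⁻¹ * σ y) - σ y⁻¹ * (σ y⁻¹ * σ y)
          + σ y⁻¹ * σ y⁻¹ + σ y⁻¹ * 3 := by noncomm_ring
    unfold Quad at hq
    rw [hq, h1, mul_one, h1] at e
    have e2 : 1 + σ y⁻¹ + σ y⁻¹ * σ y⁻¹ = 1 - σ y⁻¹ - σ y⁻¹ + σ y⁻¹ * σ y⁻¹ + σ y⁻¹ * 3 := by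
      noncomm_ring
    rw [e2, ← e, h3, mul_zero, mul_zero, add_zero]
  have h4 : σ c * σ c⁻¹ = 1 := by rw [← map_mul, mul_inv_cancel, map_one]
  have h5 : σ (c * y * c⁻¹)⁻¹ = σ c * σ y⁻¹ * σ c⁻¹ := by
    rw [← map_mul, ← map_mul]; congr 1; group
  have h6 : σ (c * y * c⁻¹)⁻¹ * σ (c * y * c⁻¹)⁻¹ = σ c * (σ y⁻¹ * σ y⁻¹) * σ c⁻¹ := by
    rw [← map_mul, ← map_mul, ← map_mul, ← map_mul]; congr 1; group
  rw [h6, h5, ← h4]
  have e3 : σ c * σ c⁻¹ + σ c * σ y⁻¹ * σ c⁻¹ + σ c * (σ y⁻¹ * σ y⁻¹) * σ c⁻¹ =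
      σ c * (1 + σ y⁻¹ + σ y⁻¹ * σ y⁻¹) * σ c⁻¹ := by noncomm_ring
  rw [e3, h2, mul_zero, zero_mul]

theorem norm_FNQ {S : Subgroup G} {y u : G}
    (hu : ∀ x, x ∈ S → IsConj y x → u * x * u⁻¹ ∈ S) :
    u ∈ Subgroup.normalizer
      ((Subgroup.closure {x | x ∈ S ∧ IsConj y x} : Subgroup G) : Set G) := by
  apply Subgroup.mem_normalizer_fintype
  intro n hn
  induction hn using Subgroup.closure_induction with
  | mem x hx =>
    exact Subgroup.subset_closure ⟨hu x hx.1 hx.2, hx.2.trans (isConj_iff.2 ⟨u, rfl⟩)⟩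
  | one => simp
  | mul p q _ _ hp hq =>
    have e : u * (p * q) * u⁻¹ = u * p * u⁻¹ * (u * q * u⁻¹) := by group
    rw [e]
    exact Subgroup.mul_mem _ hp hq
  | inv p _ hp =>
    have e : u * p⁻¹ * u⁻¹ = (u * p * u⁻¹)⁻¹ := by group
    rw [e]
    exact Subgroup.inv_mem _ hp

theorem nq {R : Subgroup G} (h : UM R M) (h3 : (3 : AddMonoid.End X) = 0)
    (stab : ∀ g, g ∈ M ↔ ∀ x, φ (σ g x) = φ x) {y : G} (y3 : El3 y) (hq : Quad σ y) :
    ∃ K : Subgroup G, K.Normal ∧ IsPGroup 3 K ∧ y ∈ K := by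
  classical
  have : Fact (Nat.Prime 3) := ⟨Nat.prime_three⟩
  obtain ⟨S, hRS⟩ := h.pR.exists_le_sylow
  have hSM : (S : Subgroup G) ≤ M := h.syl S.isPGroup' hRS
  let Y : Set G := {x | x ∈ (S : Subgroup G) ∧ IsConj y x}
  let W : Subgroup G := Subgroup.closure Y
  have hWS : W ≤ S := (Subgroup.closure_le _).2 fun x hx => hx.1
  have hW : IsPGroup 3 W := S.isPGroup'.to_le hWS
  have hRN : R ≤ Subgroup.normalizer (W : Set G) := fun r hr =>
    norm_FNQ fun x hx _ => Subgroup.mul_mem _ (Subgroup.mul_mem _ (hRS hr) hx)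
      (Subgroup.inv_mem _ (hRS hr))
  rcases h.um _ hRN with hN | hN
  swap
  · have hWn : W.Normal := Subgroup.normalizer_eq_top_iff.1 hN
    have hy : IsPGroup 3 (Subgroup.zpowers y) := by
      obtain ⟨n, hn⟩ := y3
      rintro ⟨_, k, rfl⟩
      refine ⟨n, Subtype.ext ?_⟩
      show (y ^ k) ^ 3 ^ n = 1
      rw [← zpow_natCast, ← zpow_mul, mul_comm, zpow_mul, zpow_natCast, hn, one_zpow]
    obtain ⟨g, -, hg⟩ := Pool.Agent.MP_a5588a_al.sylow_conj (Y := ⊤) le_top S.isPGroup'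
      (fun R' _ b c => S.is_maximal' b c) le_top hy
    have h1 : g⁻¹ * y * g ∈ W := Subgroup.subset_closure
      ⟨hg y (Subgroup.mem_zpowers y), isConj_iff.2 ⟨g⁻¹, by rw [inv_inv]⟩⟩
    refine ⟨W, hWn, hW, ?_⟩
    have e : y = g * (g⁻¹ * y * g) * g⁻¹ := by group
    rw [e]
    exact hWn.conj_mem _ h1 g
  exfalso
  have : Fintype (G ⧸ M) := Fintype.ofFinite _
  let a : G → (X →+ B) →+ (X →+ B) := fun g => AddMonoidHom.compHom' (σ g⁻¹)
  have ha : ∀ g ψ x, a g ψ x = ψ (σ g⁻¹ x) := fun g ψ x => rfl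
  let f : G ⧸ M → (X →+ B) := fun q => a q.out φ
  have hf : ∀ (g : G) x, f (g : G ⧸ M) x = φ (σ g⁻¹ x) := fun g x => by
    obtain ⟨m, hm⟩ := QuotientGroup.mk_out_eq_mul M g
    show φ (σ ((g : G ⧸ M).out)⁻¹ x) = _
    rw [hm, mul_inv_rev, map_mul]
    exact (stab _).1 (M.inv_mem m.2) _
  have hfa : ∀ (w : G) q, f (w • q) = a w (f q) := fun w q => by
    induction q using QuotientGroup.induction_on with
    | H g =>
      ext x
      rw [MulAction.Quotient.smul_mk, hf, ha, hf, smul_eq_mul, mul_inv_rev, map_mul]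
      rfl
  have htot : ∑ q, f q = f ((1 : G) : G ⧸ M) := by
    refine total_FNQ hW (fun w : W => a w) f (fun w q => hfa w q) (((↑) : W → G) ⁻¹' Y)
      Subgroup.closure_closure_coe_preimage (fun x hx ψ => ?_) _ (fun q => ⟨fun hq' => ?_, ?_⟩)
    · ext z
      have e := DFunLike.congr_fun (cyc_FNQ h3 hq hx.2) z
      have e2 : z + σ (x : G)⁻¹ z + σ (x : G)⁻¹ (σ (x : G)⁻¹ z) = 0 := e
      show ψ z + ψ (σ (x : G)⁻¹ z) + ψ (σ (x : G)⁻¹ (σ (x : G)⁻¹ z)) = 0
      rw [← map_add, ← map_add, e2, map_zero]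
    · induction q using QuotientGroup.induction_on with
      | H g =>
        have h1 : ∀ w ∈ W, g⁻¹ * w * g ∈ M := fun w hw => by
          have e : ((w * g : G) : G ⧸ M) = (g : G ⧸ M) := hq' ⟨w, hw⟩
          rw [mul_assoc]
          exact QuotientGroup.eq.1 e.symm
        obtain ⟨m, hmM, hm⟩ := Pool.Agent.MP_a5588a_al.sylow_conj (Y := M) hSM S.isPGroup'
          (fun R' _ b c => S.is_maximal' b c) (Q := W.map (MulAut.conj g⁻¹).toMonoidHom)
          (by rintro _ ⟨w, hw, rfl⟩; simpa using h1 w hw) (hW.map _)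
        have h2 : (g * m)⁻¹ ∈ M := hN (norm_FNQ fun x hx hc => by
          have e : (g * m)⁻¹ * x * (g * m)⁻¹⁻¹ = m⁻¹ * (g⁻¹ * x * g⁻¹⁻¹) * m := by group
          rw [e]
          exact hm _ ⟨x, Subgroup.subset_closure ⟨hx, hc⟩, rfl⟩)
        apply QuotientGroup.eq.2
        have e : g⁻¹ * 1 = m * (g * m)⁻¹ := by group
        rw [e]
        exact M.mul_mem hmM h2
    · rintro rfl w
      show (((w : G) * 1 : G) : G ⧸ M) = ((1 : G) : G ⧸ M)
      apply QuotientGroup.eq.2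
      simpa using hSM (hWS w.2)
  apply h.ne
  rw [eq_top_iff]
  intro g _
  rw [← M.inv_mem_iff, stab]
  intro x
  have h1 : a g (∑ q, f q) = ∑ q, f q := by
    rw [map_sum]
    exact Finset.sum_equiv (MulAction.toPerm g) (fun q => by simp) (fun q _ => (hfa g q).symm)
  have h2 := DFunLike.congr_fun h1 x
  rw [htot, ha, hf, hf, inv_one, map_one] at h2
  exact h2

end Pool.Agent.MP_a5588a_al.Full

end
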