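import Pool.Agent.Mg.Fa5588aa.G1ab97f
import Pool.Agent.Mg.Fa5588aa.G7c498e
import Pool.Agent.Mg.Fa5588aa.G48b99c
import Pool.Agent.Mg.Fa5588aa.Ga63474
import Pool.Agent.Mg.Fa5588aa.Ge45d38

section

namespace Pool.Agent.MP_a5588a_al.Solv

open scoped commutatorElement

theorem ring_RK {R : Type*} [Ring R] {u : Fin 3 → R} {a b s s' ν : R} (q : Q8 u (-1) a b)
    (a3 : a * a * a = 1) (hs : s = u 0 + u 1 + u 2) (hs' : s' = u 0 - u 1 - u 2)
    (hν : ν = b * (1 - u 0 - u 1 - u 2) - 1) :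
    s * s = 0 ∧ s * s' + s' * s = -1 ∧ ν * s = s * ν ∧ ν * s' = s' * ν ∧ ν * ν * ν = 0 ∧
      (a - 1) * (a - 1) = ν * ν - s * ν - s * (ν * ν) ∧ (s * (ν * ν) = 0 → ν * ν = 0) := by
  have h3 := q.add3 1
  have c : ∀ r, ν * u r = u r * ν := fun r => by
    simpa only [smul_eq_mul, mul_one, hν] using q.nu_u (V := R) r (v := 1) (by simp)
  have s0 := q.sq 0
  have s1 := q.sq 1
  have s2 := q.sq 2
  have t01 := q.anti (r := 0) (s := 1) (by decide)
  have t02 := q.anti (r := 0) (s := 2) (by decide)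
  have t12 := q.anti (r := 1) (s := 2) (by decide)
  have ss : s * s = 0 := by
    rw [hs]; linear_combination (norm := noncomm_ring) s0 + s1 + s2 + t01 + t02 + t12 - h3
  have st : s * s' + s' * s = -1 := by
    rw [hs, hs']
    linear_combination (norm := noncomm_ring) s0 + s0 - s1 - s1 - s2 - s2 - t12 - t12 + h3
  have c1 : ν * s = s * ν := by rw [hs]; linear_combination (norm := noncomm_ring) c 0 + c 1 + c 2
  have c2 : ν * s' = s' * ν := by
    rw [hs']; linear_combination (norm := noncomm_ring) c 0 - c 1 - c 2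
  have bs : b * s = s * b := by
    have e0 : b * u 0 = u 1 * b := q.conj' 0
    have e1 : b * u 1 = u 2 * b := q.conj' 1
    have e2 : b * u 2 = u 0 * b := q.conj' 2
    rw [hs]; linear_combination (norm := noncomm_ring) e0 + e1 + e2
  have e1 : ν = b * (1 - s) - 1 := by rw [hν, hs]; noncomm_ring
  have eb : b = a * a := by
    linear_combination (norm := noncomm_ring) q.ba * (a * a) - b * a3
  have ea : a = b * b := by
    linear_combination (norm := noncomm_ring) -eb * b - a * q.ab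
  have b3 : b * b * b = 1 := by rw [← ea, q.ab]
  have e2 : b = 1 + ν + s + s * ν := by
    linear_combination (norm := noncomm_ring) -e1 * (1 + s) + b * ss + c1
  have n3 : ν * ν * ν = 0 := by
    have h : Commute b (1 - s) := by
      change _ = _
      linear_combination (norm := noncomm_ring) -bs
    have h1 := h.mul_pow 3
    rw [pow_three' b, b3, one_mul, sub_eq_iff_eq_add.1 e1.symm] at h1
    linear_combination (norm := noncomm_ring) h1 - q.add3 (ν * ν + ν + s - s * s) - ss * s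
  refine ⟨ss, st, c1, c2, n3, ?_, fun h => ?_⟩
  · have th : (a - 1) * (a - 1) = (b - 1) * (b - 1) := by
      linear_combination (norm := noncomm_ring) -eb + ea + q.add3 b - q.add3 a
    rw [th, e2]
    linear_combination (norm := noncomm_ring) c1 + c1 * ν + ss + ss * ν + s * c1 + ss * ν +
      s * c1 * ν + ss * ν * ν + q.add3 (s * ν) + q.add3 (s * (ν * ν))
  · have h1 : u 0 * s = s' * u 0 := by
      rw [hs, hs']; linear_combination (norm := noncomm_ring) t01 + t02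
    have h2 : s' * (ν * ν) = 0 := by
      linear_combination (norm := noncomm_ring) -(u 0 * h * u 0) + h1 * (ν * ν * u 0) -
        s' * c 0 * (ν * u 0) - s' * ν * c 0 * u 0 + s' * (ν * ν) * s0
    linear_combination (norm := noncomm_ring) st * (ν * ν) - s * h2 - s' * h

theorem core_RK {E W : Type*} [Ring E] {u : Fin 3 → E} {a b s s' ν c : E} (q : Q8 u (-1) a b)
    [AddCommGroup W] [Module E W] (faith : ∀ x : E, (∀ w : W, x • w = 0) → x = 0)
    (a3 : a * a * a = 1) (hs : s = u 0 + u 1 + u 2) (hs' : s' = u 0 - u 1 - u 2)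
    (hν : ν = b * (1 - u 0 - u 1 - u 2) - 1) (hc : c = a - 1) (m₀ : W)
    (h : ∀ m : W, c • c • m = 0 ∨ c • c • m = c • c • m₀ ∨ c • c • m = -(c • c • m₀)) :
    (∀ m : W, ν • ν • m = 0) ∧ ∃ m₁ : W, s • ν • m₁ = 0 ∧
      ∀ m : W, ∃ n₁ n₂ : ℤ, ν • m = n₁ • ν • m₁ + n₂ • s' • ν • m₁ := by
  obtain ⟨ss, st, c1, c2, n3, th, red⟩ := ring_RK q a3 hs hs' hν
  rw [← hc] at th
  simp only [smul_smul c c] at h
  generalize c * c = θ at th h
  have k1 : θ * ν = -(s * (ν * ν)) := by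
    rw [th]; linear_combination (norm := noncomm_ring) n3 - s * n3
  have k2 : s * θ = s * (ν * ν) := by
    rw [th]; linear_combination (norm := noncomm_ring) -ss * ν - ss * (ν * ν)
  have k3 : s * (ν * ν) = 0 := by
    refine faith _ fun m => ?_
    by_cases hz : s • θ • m₀ = 0
    · rw [← k2, mul_smul]
      rcases h m with h | h | h
      · rw [h, smul_zero]
      · rw [h, hz]
      · rw [h, smul_neg, hz, neg_zero]
    · have k : s • θ • ν • m = 0 := by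
        rw [smul_smul θ, k1, neg_smul, smul_neg, smul_smul, ← mul_assoc, ss, zero_mul, zero_smul,
          neg_zero]
      rcases h (ν • m) with h | h | h
      · rwa [smul_smul, k1, neg_smul, neg_eq_zero] at h
      · rw [h] at k; exact absurd k hz
      · rw [h, smul_neg, neg_eq_zero] at k; exact absurd k hz
  have k4 := red k3
  have k5 : θ = -(s * ν) := by rw [th, k3, k4, zero_sub, sub_zero]
  have k6 : ν • s • m₀ = -(θ • m₀) := by rw [k5, neg_smul, neg_neg, smul_smul, c1]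
  have hn : ∀ x : W, ∃ n : ℤ, θ • x = n • ν • s • m₀ := fun x => by
    rw [k6]
    rcases h x with h | h | h
    · exact ⟨0, by rw [h, zero_smul]⟩
    · exact ⟨-1, by rw [h, neg_one_zsmul, neg_neg]⟩
    · exact ⟨1, by rw [h, one_smul]⟩
  refine ⟨fun m => by rw [smul_smul, k4, zero_smul], s • m₀, ?_, fun m => ?_⟩
  · rw [smul_smul ν, c1, smul_smul, ← mul_assoc, ss, zero_mul, zero_smul]
  · obtain ⟨n₁, h₁⟩ := hn (s' • m)
    obtain ⟨n₂, h₂⟩ := hn m
    refine ⟨n₁, n₂, ?_⟩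
    have k7 : ν = θ * s' + s' * θ := by
      rw [k5]; linear_combination (norm := noncomm_ring) st * ν + s * c2
    rw [← h₁, smul_comm n₂ s', ← h₂, smul_smul θ, smul_smul s', ← add_smul, ← k7]

theorem rk {R V : Type*} [Ring R] {u : Fin 3 → R} {t a b : R} (q : Q8 u t a b) [AddCommGroup V]
    [Module R V] (M : AddSubgroup V) (hM : ∀ x ∈ M, (∀ r, u r • x ∈ M) ∧ a • x ∈ M ∧ b • x ∈ M)
    (odd : ∀ x ∈ M, t • x = -x) (a3 : ∀ x ∈ M, a • a • a • x = x) {m₀ : V} (hm₀ : m₀ ∈ M)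
    (h : ∀ m ∈ M, (a - 1) • (a - 1) • m = 0 ∨ (a - 1) • (a - 1) • m = (a - 1) • (a - 1) • m₀ ∨
      (a - 1) • (a - 1) • m = -((a - 1) • (a - 1) • m₀)) :
    (∀ m ∈ M, (b * (1 - u 0 - u 1 - u 2) - 1) • (b * (1 - u 0 - u 1 - u 2) - 1) • m = 0) ∧
      ∃ m₁ ∈ M, (u 0 + u 1 + u 2) • (b * (1 - u 0 - u 1 - u 2) - 1) • m₁ = 0 ∧
        ∀ m ∈ M, ∃ n₁ n₂ : ℤ, (b * (1 - u 0 - u 1 - u 2) - 1) • m =
          n₁ • (b * (1 - u 0 - u 1 - u 2) - 1) • m₁ +
            n₂ • (u 0 - u 1 - u 2) • (b * (1 - u 0 - u 1 - u 2) - 1) • m₁ := by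
  let S : Subring R :=
    { carrier := {r | ∀ y ∈ M, r • y ∈ M}
      one_mem' := fun y hy => by rwa [one_smul]
      zero_mem' := fun y _ => by simp
      mul_mem' := fun h k y hy => by rw [mul_smul]; exact h _ (k y hy)
      add_mem' := fun h k y hy => by rw [add_smul]; exact M.add_mem (h y hy) (k y hy)
      neg_mem' := fun h y hy => by rw [neg_smul]; exact M.neg_mem (h y hy) }
  let N : Submodule S V :=
    { carrier := M
      zero_mem' := M.zero_mem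
      add_mem' := M.add_mem
      smul_mem' := fun r x hx => r.2 x hx }
  let φ : S →+* AddMonoid.End N := Module.toAddMonoidEnd S N
  let u' : Fin 3 → S := fun r => ⟨u r, fun y hy => (hM y hy).1 r⟩
  let a' : S := ⟨a, fun y hy => (hM y hy).2.1⟩
  let b' : S := ⟨b, fun y hy => (hM y hy).2.2⟩
  let t' : S := ⟨t, fun y hy => by rw [odd y hy]; exact M.neg_mem hy⟩
  have q' : Q8 u' t' a' b' :=
    { three := Subtype.ext ((map_ofNat S.subtype 3).trans q.three)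
      sq := fun r => Subtype.ext (q.sq r)
      tt := Subtype.ext q.tt
      mul := fun r => Subtype.ext (q.mul r)
      mul' := fun r => Subtype.ext (q.mul' r)
      ab := Subtype.ext q.ab
      ba := Subtype.ext q.ba
      conj := fun r => Subtype.ext (q.conj r) }
  have q'' := q'.map φ
  have ht : φ t' = -1 := AddMonoidHom.ext fun w => Subtype.ext (odd w.1 w.2)
  have ha : φ a' * φ a' * φ a' = 1 := AddMonoidHom.ext fun w => Subtype.ext (a3 w.1 w.2)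
  rw [ht] at q''
  obtain ⟨k1, m₁, k2, k3⟩ := core_RK (W := N) q'' (s := φ (u' 0 + u' 1 + u' 2))
    (s' := φ (u' 0 - u' 1 - u' 2)) (ν := φ (b' * (1 - u' 0 - u' 1 - u' 2) - 1)) (c := φ (a' - 1))
    (fun x hx => AddMonoidHom.ext hx) ha (by simp only [map_add]) (by simp only [map_sub])
    (by simp only [map_sub, map_mul, map_one]) (by simp only [map_sub, map_one]) ⟨m₀, hm₀⟩
    (fun m => (h m.1 m.2).imp Subtype.ext (Or.imp Subtype.ext Subtype.ext))
  refine ⟨fun m hm => congrArg Subtype.val (k1 ⟨m, hm⟩), m₁.1, m₁.2, congrArg Subtype.val k2,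
    fun m hm => ?_⟩
  obtain ⟨n₁, n₂, k⟩ := k3 ⟨m, hm⟩
  exact ⟨n₁, n₂, congrArg Subtype.val k⟩

end Pool.Agent.MP_a5588a_al.Solv

end

section

namespace Pool.Agent.MP_a5588a_al.Solv

open scoped commutatorElement

variable {R : Type*} [Ring R] {u : Fin 3 → R} {t a b : R} {H : Type*} [Group H] {ρ : H →* R}
  {P : Subgroup H} {V : Type*} [AddCommGroup V] [Module R V] {e : Fin 3 → V}
  {M C : Type*} [AddCommGroup M] [Module R M] [AddCommGroup C] [Module R C]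

variable {β : V →+ V →+ C}

theorem top_M2 [P.Normal] (c : C2 ρ P u t a b e β) {k : ℕ} (hk : Fil ρ P V (k + 1) = ⊥) (j : ℕ) :
    ∀ n, k < n → 2 * k + 1 ≤ n + j → ∀ z ∈ CF ρ P β n, t • z = -z → z = 0 := by
  have f : ∀ n, k < n → ∀ v ∈ Fil ρ P V n, v = 0 := fun n h v hv => by
    have := fil_anti (ρ := ρ) (P := P) (V := V) h hv
    rwa [hk] at this
  induction j with
  | zero =>
    refine fun n h h' z hz _ => cf_le_iff (L := ⊥).mpr (fun i l hn v hv w hw => ?_) hz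
    rcases le_or_gt i k with d | d
    · rw [f l (by omega) w hw, map_zero]
      rfl
    · rw [f i d v hv, map_zero]
      rfl
  | succ j ih =>
    refine fun n h h' => gt c n ⊥ ⟨fun z hz _ s => ?_, ih _ (by omega) (by omega),
      fun x hx _ r => ?_⟩
    · rw [AddSubgroup.mem_bot.1 hz, smul_zero]
      rfl
    · simp [f n h x hx]

/-- The forms `β (ν m) m'` lie in `F`. -/
theorem form_M2 (q : Q8 u t a b) (alt : ∀ v, β v v = 0) {U : AddSubgroup V} {F : AddSubgroup C}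
    {ν : R} (hu : ∀ x ∈ U, ∀ r, u r • x ∈ U) (hν : ∀ x ∈ U, ν • x ∈ U)
    (odd : ∀ x ∈ U, t • x = -x) (cm : ∀ x ∈ U, ∀ r, ν • u r • x = u r • ν • x)
    (sk : ∀ x ∈ U, ∀ y ∈ U, ∀ r, β (u r • x) y = -β x (u r • y))
    (st : ∀ x ∈ U, ∀ y ∈ U, β (ν • x) y + β x (ν • y) + β (ν • x) (ν • y) ∈ F)
    (n2 : ∀ x ∈ U, ν • ν • x = 0) {m : V} (hm : m ∈ U) (h0 : (u 0 + u 1 + u 2) • ν • m = 0)
    (sp : ∀ x ∈ U, ∃ n₁ n₂ : ℤ, ν • x = n₁ • ν • m + n₂ • (u 0 - u 1 - u 2) • ν • m) :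
    ∀ x ∈ U, ∀ y ∈ U, β (ν • x) y ∈ F := by
  have sym : ∀ x ∈ U, ∀ y ∈ U, β (ν • x) y - β (ν • y) x ∈ F := fun x hx y hy => by
    have h1 := st _ (hν x hx) y hy
    have h2 := alt (x + ν • y)
    simp only [n2 x hx, map_zero, AddMonoidHom.zero_apply, zero_add, add_zero] at h1
    simp only [map_add, AddMonoidHom.add_apply, alt, zero_add, add_zero] at h2
    rw [sub_eq_add_neg, neg_eq_of_add_eq_zero_right h2]
    simpa only [add_sub_cancel_right] using F.sub_mem (st x hx y hy) h1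
  have span : ∀ y, β (ν • m) y ∈ F → (∀ r, β (u r • ν • m) y ∈ F) → ∀ x ∈ U, β (ν • x) y ∈ F := by
    intro y h1 h2 x hx
    obtain ⟨n₁, n₂, h⟩ := sp x hx
    simp only [h, sub_smul, map_add, map_zsmul, map_sub, AddMonoidHom.add_apply,
      AddMonoidHom.zsmul_apply, AddMonoidHom.sub_apply]
    exact add_mem (zsmul_mem h1 _) (zsmul_mem (sub_mem (sub_mem (h2 0) (h2 1)) (h2 2)) _)
  have a1 : ∀ r, β (u r • ν • m) m ∈ F := fun r => by
    have h1 := F.neg_mem (sym _ (hu m hm r) m hm)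
    rw [cm m hm, ← neg_neg (β (ν • m) _), ← sk _ (hν m hm) m hm, sub_neg_eq_add,
      neg_eq_of_add_eq_zero_right (q.add3v _)] at h1
    exact h1
  have a2 : β (ν • m) m ∈ F := by
    have h1 := congrArg (u 0 • ·) h0
    have o := odd _ (hν m hm)
    simp only [add_smul, smul_add, q.uu 0 o, q.u01, q.u02 o, smul_zero] at h1
    rw [show ν • m = u 2 • ν • m - u 1 • ν • m by rw [← sub_eq_zero, ← neg_eq_zero, ← h1]; abel,
      map_sub]
    exact sub_mem (a1 2) (a1 1)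
  have a3 : ∀ y ∈ U, β (ν • m) y ∈ F := fun y hy => by
    simpa only [sub_add_cancel] using F.add_mem (sym m hm y hy) (span m a2 a1 y hy)
  refine fun x hx y hy => span y (a3 y hy) (fun r => ?_) x hx
  rw [sk _ (hν m hm) y hy]
  exact neg_mem (a3 _ (hu y hy r))

theorem m2 [P.Normal] (c : C2 ρ P u t a b e β) (goodC : ∀ z : C, t • z = z → ∀ r, u r • z = z)
    (nd : ∀ v, (∀ w, β v w = 0) → v = 0) (ha3 : ∃ p ∈ P, ρ p = a * a * a) {k : ℕ}
    (hk : Fil ρ P V (k + 1) = ⊥) (hk' : Fil ρ P V k ≠ ⊥) :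
    (∃ m ∈ Fil ρ P V k, (a - 1) • (a - 1) • m ≠ 0) ∧
      ((∃ m₀ ∈ Fil ρ P V k, ∀ m ∈ Fil ρ P V k, (a - 1) • (a - 1) • m = 0 ∨
          (a - 1) • (a - 1) • m = (a - 1) • (a - 1) • m₀ ∨
          (a - 1) • (a - 1) • m = -((a - 1) • (a - 1) • m₀)) →
        ∀ m ∈ Fil ρ P V k, ∀ m' ∈ Fil ρ P V k, β m m' = 0) := by
  have q := c.ev.q
  have top := top_M2 c hk k (k + 1) k.lt_succ_self (by omega)
  have iU := c.ev.inv_of (fil_inv (ρ := ρ) (P := P) (V := V) k)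
  have iC := c.ev.inv_of (cf_inv (P := P) c.eqv k)
  have fx : ∀ p ∈ P, ∀ m ∈ Fil ρ P V k, ρ p • m = m := fun p hp m hm => by
    have := fil_succ hp hm
    rwa [hk, sub_smul, one_smul, AddSubgroup.mem_bot, sub_eq_zero] at this
  have lin : ∀ p ∈ P, ∀ m ∈ Fil ρ P V k, ∀ v, β m (ρ p • v) = ρ p • β m v := fun p hp m hm v => by
    rw [← c.eqv, fx p hp m hm]
  have rad : ∀ m ∈ Fil ρ P V k, (∀ r, β m (e r) = 0) → m = 0 := fun m hm h => by
    have := c.ev.gen (β m).ker fun p hp r => by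
      rw [AddMonoidHom.mem_ker, lin p hp m hm, h, smul_zero]
    exact nd m fun w => (AddMonoidHom.mem_ker (f := β m)).1 (this ▸ AddSubgroup.mem_top w)
  have odd : ∀ m ∈ Fil ρ P V k, t • m = -m := fun m hm => by
    have h1 : (-(1 + t)) • m ∈ Fil ρ P V k := by
      rw [neg_smul, add_smul, one_smul, ← q.sq 0, mul_smul]
      exact neg_mem (add_mem hm ((iU _ ((iU m hm).1 0)).1 0))
    have h2 := q.parts m
    rw [rad _ h1 (c.even _ (q.even_part m)), zero_add] at h2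
    rw [h2]
    exact q.odd_part m
  have cf : ∀ m ∈ Fil ρ P V k, ∀ r, β m (e r) ∈ CF ρ P β k := fun m hm r =>
    cf_mem (l := 0) le_rfl hm trivial
  obtain ⟨A, hA⟩ : ∃ A, A = 1 - u 0 - u 1 - u 2 := ⟨_, rfl⟩
  obtain ⟨ν, hν⟩ : ∃ ν, ν = b * A - 1 := ⟨_, rfl⟩
  have eν : ∀ x : V, ν • x = b • A • x - x := fun x => by rw [hν, sub_smul, mul_smul, one_smul]
  have iA : ∀ x ∈ Fil ρ P V k, A • x ∈ Fil ρ P V k := fun x hx => by
    simp only [hA, sub_smul, one_smul]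
    exact sub_mem (sub_mem (sub_mem hx ((iU x hx).1 0)) ((iU x hx).1 1)) ((iU x hx).1 2)
  have iν : ∀ x ∈ Fil ρ P V k, ν • x ∈ Fil ρ P V k := fun x hx => by
    rw [eν]
    exact sub_mem (iU _ (iA x hx)).2.2 hx
  have dQ : ∀ x ∈ Fil ρ P V k, ∀ r, u r • β x (e r) - u (r + 1) • β x (e (r + 1)) =
      u (r + 1) • β (ν • x) (e (r + 1)) := fun x hx r => by
    have o := c.ev.odd_Q c.eqv (odd x hx) r
    have h1 := top _ (c.aN k ((iC _ (cf x hx r)).1 r) o) (by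
      rw [smul_sub, Q8.odd_smul q.ta o, Q8.odd_smul q.taN o]; abel)
    rw [eν, map_sub, AddMonoidHom.sub_apply, smul_sub, c.ev.Q_b c.eqv, hA,
      c.ev.Q_aN c.eqv (odd x hx), ← sub_eq_zero.1 h1, smul_smul b, q.ba, one_smul]
  refine ⟨?_, ?_⟩
  · by_contra! h
    refine hk' ((AddSubgroup.eq_bot_iff_forall _).2 fun m hm => rad m hm fun r => ?_)
    refine gt c k ⊥ ⟨fun z hz _ s => ?_, top, fun x hx o r => ?_⟩ _ (cf m hm r)
      (c.ev.odd_β c.eqv (odd m hm) r)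
    · rw [AddSubgroup.mem_bot.1 hz, smul_zero]
      rfl
    · have h1 := q.qg2 (U' := ⊥) iU (by simp) h hx o
      rw [AddSubgroup.mem_bot, sub_eq_zero, ← hA] at h1
      rw [dQ x hx, eν, ← h1, smul_smul b, q.ba]
      simp
  rintro ⟨m₀, h₀, h⟩
  obtain ⟨p₃, hp₃, e₃⟩ := ha3
  have a3 : ∀ x ∈ Fil ρ P V k, a • a • a • x = x := fun x hx => by
    rw [smul_smul, smul_smul, ← e₃, fx _ hp₃ x hx]
  obtain ⟨n2, m₁, h₁, k1, k2⟩ := rk q _ iU odd a3 h₀ h
  rw [← hA, ← hν] at n2 k1 k2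
  have cm : ∀ x ∈ Fil ρ P V k, ∀ r, ν • u r • x = u r • ν • x := fun x hx r => by
    rw [hν, hA]
    exact q.nu_u r (odd x hx)
  have eQ : ∀ x ∈ Fil ρ P V k, ∀ r, u r • β (ν • x) (e r) = u 0 • β (ν • x) (e 0) := by
    intro x hx r
    have h1 := fun r => dQ _ (iν x hx) r
    simp only [n2 x hx, map_zero, AddMonoidHom.zero_apply, smul_zero, sub_eq_zero] at h1
    fin_cases r
    exacts [rfl, (h1 0).symm, h1 2]
  have red : ∀ m ∈ Fil ρ P V k, ∀ s, ∃ n ∈ Fil ρ P V k, β m (e s) = β (ν • n) (e s) := by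
    intro m hm s
    obtain ⟨n, hn, h1⟩ := gt c k ((Fil ρ P V k).map ((DistribSMul.toAddMonoidHom C (u 0)).comp
      ((β.flip (e 0)).comp (DistribSMul.toAddMonoidHom V ν)))) ⟨by
        rintro _ ⟨x, hx, rfl⟩ - s
        refine ⟨u s • x, (iU x hx).1 s, ?_⟩
        change u 0 • β (ν • u s • x) (e 0) = u s • u 0 • β (ν • x) (e 0)
        rw [cm x hx, c.ev.Q_u c.eqv (odd _ (iν x hx))],
      fun z hz o => by rw [top z hz o]; exact zero_mem _,
      fun x hx _ r => ⟨x, hx, ((dQ x hx r).trans (eQ x hx _)).symm⟩⟩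
      _ ((iC _ (cf m hm s)).1 s) (c.ev.odd_Q c.eqv (odd m hm) s)
    have h2 := congrArg (u s • ·) ((eQ n hn s).trans h1)
    simp only [q.uu s (c.ev.odd_β c.eqv (odd m hm) s),
      q.uu s (c.ev.odd_β c.eqv (odd _ (iν n hn)) s), neg_inj] at h2
    exact ⟨n, hn, h2.symm⟩
  have sk : ∀ x ∈ Fil ρ P V k, ∀ y ∈ Fil ρ P V k, ∀ r, β (u r • x) y = -β x (u r • y) := by
    intro x hx y hy r
    have h1 := c.ev.eu c.eqv r x (u r • y)
    rw [q.uu r (odd y hy), map_neg, goodC _ (by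
      rw [← c.ev.et c.eqv, odd x hx, odd _ ((iU y hy).1 r)]; simp)] at h1
    exact neg_eq_iff_eq_neg.1 h1
  have bA : ∀ x ∈ Fil ρ P V k, ∀ y ∈ Fil ρ P V k, β (A • x) (A • y) = β x y := by
    intro x hx y hy
    have o := odd y hy
    have h1 : A • y + u 0 • A • y + u 1 • A • y + u 2 • A • y = y := by
      simp only [hA, sub_smul, one_smul, smul_sub, q.uu _ o, q.u01, q.u12, q.u20, q.u10 o,
        q.u21 o, q.u02 o]
      rw [← sub_eq_zero, ← q.add3v y]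
      abel
    nth_rewrite 1 [hA]
    simp only [sub_smul, one_smul, map_sub, AddMonoidHom.sub_apply, sk x hx _ (iA y hy),
      sub_neg_eq_add, ← map_add, h1]
  obtain ⟨F, hF⟩ : ∃ F, F = AddSubgroup.closure
    {z | ∃ x ∈ Fil ρ P V k, ∃ y ∈ Fil ρ P V k, z = β x y} := ⟨_, rfl⟩
  have mF : ∀ x ∈ Fil ρ P V k, ∀ y ∈ Fil ρ P V k, β x y ∈ F := fun x hx y hy =>
    hF ▸ AddSubgroup.subset_closure ⟨x, hx, y, hy, rfl⟩
  have leF : ∀ L : AddSubgroup C, (∀ x ∈ Fil ρ P V k, ∀ y ∈ Fil ρ P V k, β x y ∈ L) → F ≤ L := by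
    intro L hL
    rw [hF, AddSubgroup.closure_le]
    rintro _ ⟨x, hx, y, hy, rfl⟩
    exact hL x hx y hy
  have fm := form_M2 (F := F.map (DistribSMul.toAddMonoidHom C (b - 1))) q c.alt
    (fun x hx => (iU x hx).1) iν odd cm sk (fun x hx y hy => ⟨β x y, mF x hx y hy, by
      rw [DistribSMul.toAddMonoidHom_apply, sub_smul, one_smul, ← bA x hx y hy, ← c.ev.eb c.eqv,
        bA x hx y hy]
      simp only [eν, map_sub, AddMonoidHom.sub_apply]
      abel⟩) n2 h₁ k1 k2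
  have ww := words (ρ := ρ) (P := P) (Set.range e)
    (fun L hL => c.ev.gen L fun p hp r => hL p hp _ ⟨r, rfl⟩)
    (fun l => {w | (∀ v : V, w • v ∈ Fil ρ P V l) ∧
      ∀ m ∈ Fil ρ P V k, ∀ v, β m (w • v) = w • β m v})
    ⟨fun _ => trivial, by simp⟩ (fun l w hw p hp => ⟨fun v => by
      rw [mul_smul]; exact fil_succ hp (hw.1 v), fun m hm v => by
      simp only [mul_smul, sub_smul, one_smul, map_sub, lin p hp m hm, hw.2 m hm]⟩) k
  rw [hk, sup_bot_eq] at ww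
  have le1 := leF (F.map (DistribSMul.toAddMonoidHom C (b - 1))) fun x hx y hy => by
    refine AddSubgroup.mem_comap.1 ((AddSubgroup.closure_le _).2 ?_ (ww hy))
    rintro _ ⟨w, hw, _, ⟨s, rfl⟩, rfl⟩
    obtain ⟨n, hn, h1⟩ := red x hx s
    rw [SetLike.mem_coe, AddSubgroup.mem_comap, hw.2 x hx, h1, ← hw.2 _ (iν n hn)]
    exact fm n hn _ (hw.1 _)
  have b3 : ∀ x ∈ Fil ρ P V k, b • b • b • x = x := fun x hx => by
    rw [← a3 x hx]
    simp only [smul_smul b a, q.ba, one_smul]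
    exact (a3 x hx).symm
  have le2 := leF (DistribSMul.toAddMonoidHom C ((b - 1) * (b - 1) * (b - 1))).ker
    fun x hx y hy => by
      rw [AddMonoidHom.mem_ker, DistribSMul.toAddMonoidHom_apply,
        show (b - 1) * (b - 1) * (b - 1) = b * (b * b) - 1 - 3 * (b * b - b) by noncomm_ring,
        q.three, zero_mul, sub_zero, sub_smul, mul_smul, mul_smul, ← c.ev.eb c.eqv,
        ← c.ev.eb c.eqv, ← c.ev.eb c.eqv, b3 x hx, b3 y hy, one_smul, sub_self]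
  intro m hm m' hm'
  obtain ⟨z₁, h1, e1⟩ := le1 (mF m hm m' hm')
  obtain ⟨z₂, h2, rfl⟩ := le1 h1
  obtain ⟨z₃, h3, rfl⟩ := le1 h2
  have := le2 h3
  rw [AddMonoidHom.mem_ker, DistribSMul.toAddMonoidHom_apply, mul_smul, mul_smul] at this
  exact e1.symm.trans this

end Pool.Agent.MP_a5588a_al.Solv

end

section

namespace Pool.Agent.MP_a5588a_al.Solv

open scoped commutatorElement

theorem cube_Class2 {X : Type*} [Group X] {x y : X} (hx : x * ⁅y, x⁆ = ⁅y, x⁆ * x)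
    (hy : y * ⁅y, x⁆ = ⁅y, x⁆ * y) (h : ⁅y, x⁆ ^ 3 = 1) (h1 : x ^ 3 = 1) (h2 : y ^ 3 = 1) :
    (x * y) ^ 3 = 1 := by
  have e : ∀ w, y * (x * w) = ⁅y, x⁆ * (x * (y * w)) := fun w => by group
  generalize ⁅y, x⁆ = z at *
  have ex : ∀ w, x * (z * w) = z * (x * w) := fun w => by rw [← mul_assoc, hx, mul_assoc]
  have ey : ∀ w, y * (z * w) = z * (y * w) := fun w => by rw [← mul_assoc, hy, mul_assoc]
  have : (x * y) ^ 3 = z ^ 3 * x ^ 3 * y ^ 3 := by simp only [pow_three, mul_assoc, e, ex, ey]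
  rw [this, h, h1, h2, mul_one, mul_one]

theorem sq_Class2 {R V : Type*} [Ring R] [AddCommGroup V] [Module R V] (h3 : ∀ v : V, v + v + v = 0)
    (M : AddSubgroup V) {A Y : R} (hA : ∀ m ∈ M, A • m ∈ M) (a3 : ∀ m ∈ M, A • A • A • m = m)
    (hY : (∀ m ∈ M, Y • m = A • m) ∨ ∀ m ∈ M, Y • m = A • A • m) {m : V} (hm : m ∈ M) :
    (Y - 1) • (Y - 1) • m = (A - 1) • (A - 1) • m := by
  simp only [sub_smul, one_smul, smul_sub]
  rcases hY with hY | hY
  · rw [hY m hm, hY _ (hA m hm)]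
  · rw [hY m hm, hY _ (hA _ (hA m hm)), a3 _ (hA m hm)]
    linear_combination (norm := abel1) h3 (A • m) - h3 (A • A • m)

variable {G : Type*} [Group G] [Finite G] {P Q K E E₀ : Subgroup G} {i j k a : G}

theorem class2 (c : Ctx P Q K i j k a) (m : MinBad Q i j E E₀) (h : H1 P Q a) (hr : Rel i j E)
    {e : Fin 3 → G} (he : EP P E ![i, j, k] a e) (h2 : ⁅⁅E, E⁆, E⁆ = ⊥) (h1 : ⁅E, E⁆ ≠ ⊥) :
    ∃ C, Res P Q a C := by
  have := m.nE
  have := c.nP
  have EP : E ≤ P := m.EQ.trans c.QP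
  have CE : ⁅E, E⁆ ≤ E := Subgroup.commutator_le_right E E
  have cen : ∀ z ∈ ⁅E, E⁆, ∀ x ∈ E, x * z = z * x := fun z hz x hx =>
    (commutatorElement_eq_one_iff_mul_comm.1
      (Subgroup.mem_bot.1 (h2 ▸ Subgroup.commutator_mem_commutator hz hx))).symm
  set Z := E ⊓ Subgroup.centralizer (E : Set G) with hZ
  have nE : ∀ g, ∀ x ∈ E, g * x * g⁻¹ ∈ E := fun g x hx => m.nE.conj_mem x hx g
  have nC : ∀ g, ∀ x ∈ ⁅E, E⁆, g * x * g⁻¹ ∈ ⁅E, E⁆ := fun g x hx =>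
    Subgroup.Normal.conj_mem inferInstance x hx g
  have cm : ∀ x ∈ E, ∀ y ∈ E, ⁅x, y⁆ ∈ ⁅E, E⁆ := fun x hx y hy =>
    Subgroup.commutator_mem_commutator hx hy
  have bot : ∀ {x y : G}, x * y = y * x → ⁅x, y⁆ ∈ (⊥ : Subgroup G) := fun h =>
    commutatorElement_eq_one_iff_mul_comm.2 h
  obtain ⟨V, _, σ, π, s⟩ := exists_sect (MonoidHom.id G) E Z inf_le_left nE
    (fun g x hx => Subgroup.Normal.conj_mem inferInstance x hx g)
    fun x hx y hy => ⟨CE (cm x hx y hy), fun w hw => cen _ (cm x hx y hy) w hw⟩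
  obtain ⟨C, _, τ, μ, s'⟩ := exists_sect (MonoidHom.id G) ⁅E, E⁆ ⊥ bot_le nC
    (fun g x hx => Subgroup.Normal.conj_mem inferInstance x hx g)
    fun x hx y hy => bot (cen y hy x (CE hx))
  obtain ⟨β, hβ, eqv⟩ := exists_pair s s s' nE nE cm (fun x _ hx y hy => bot (hx.2 y hy).symm)
    (fun x hx y _ hy => bot (hy.2 x hx)) (fun z hz x hx => bot (cen z hz x hx))
    fun z hz x hx => bot (cen z hz x hx)
  have g3 : ∀ p : G, ∀ r, (p * e r * p⁻¹) ^ 3 = 1 := fun p r => by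
    rw [conj_pow, he.cube, mul_one, mul_inv_cancel]
  have v3 : ∀ x ∈ E, 3 • π x = 0 := fun x hx =>
    (he.gen (s.pre (nsmulAddMonoidHom 3 : V →+ V).ker) (fun p _ r => ⟨nE _ _ (he.mem r),
      (s.pow (nE p _ (he.mem r)) 3).symm.trans (by rw [g3, s.one])⟩) hx).2
  have c3 : ∀ x ∈ E, ∀ y ∈ E, ⁅x, y⁆ ^ 3 = 1 := fun x hx y hy => by
    refine (s'.ker _ (pow_mem (cm x hx y hy) 3)).1 ?_
    rw [s'.pow (cm x hx y hy), ← hβ x hx y hy, ← map_nsmul, v3 y hy, map_zero]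
  have e3 : ∀ x ∈ E, x ^ 3 = 1 := fun x hx => (he.gen
    { carrier := {x | x ∈ E ∧ x ^ 3 = 1}
      one_mem' := ⟨one_mem _, one_pow _⟩
      mul_mem' := fun {x y} hx hy => ⟨mul_mem hx.1 hy.1, cube_Class2
        (cen _ (cm y hy.1 x hx.1) x hx.1) (cen _ (cm y hy.1 x hx.1) y hy.1) (c3 y hy.1 x hx.1)
        hx.2 hy.2⟩
      inv_mem' := fun {x} hx => ⟨inv_mem hx.1, by rw [inv_pow, hx.2, inv_one]⟩ }
    (fun p _ r => ⟨nE _ _ (he.mem r), g3 p r⟩) hx).2
  letI : Module (AddMonoid.End V × AddMonoid.End C) V := Module.compHom V (RingHom.fst _ _)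
  letI : Module (AddMonoid.End V × AddMonoid.End C) C := Module.compHom C (RingHom.snd _ _)
  let ρ : G →* AddMonoid.End V × AddMonoid.End C := σ.prod τ
  have hσ : ∀ g (v : V), ρ g • v = σ g v := fun _ _ => rfl
  have hτ : ∀ g (v : C), ρ g • v = τ g v := fun _ _ => rfl
  have triv : ∀ g, (∀ x ∈ E, Commute g x) → ρ g = 1 := fun g hg =>
    Prod.ext (s.triv nE fun x hx => bot_le (a := Z) (bot (hg x hx)))
      (s'.triv nC fun x hx => bot (hg x (CE hx)))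
  have q := q8_of_rel (ρ := ρ) c (Prod.ext (s.three fun x hx => e3 x hx ▸ Z.one_mem)
    (s'.three fun x hx => e3 x (CE hx))) (triv _ hr.r1) (triv _ hr.r2) (triv _ hr.r3)
  have tt : ρ i * ρ i = ρ (i ^ 2) := by rw [pow_two, map_mul]
  have c2 : C2 ρ P ![ρ i, ρ j, ρ k] (ρ i * ρ i) (ρ a) (ρ a⁻¹) (fun r => π (e r)) β :=
    { ev := ev_of_EP c m hr he s hσ q
      alt := fun v => by
        obtain ⟨x, hx, rfl⟩ := s.surj v
        rw [hβ x hx x hx, commutatorElement_self, s'.one]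
      eqv := eqv
      even := fun v hv r => by
        obtain ⟨x, hx, rfl⟩ := s.surj v
        obtain ⟨y, hy, e1, e2⟩ := (lift_parity (c.pP.to_le EP) (τ := i ^ 2)
          (fun x hx => by rw [← pow_mul]; exact hr.r1 x hx) s q.add3v le_rfl hx).1
          (by rwa [tt] at hv)
        rw [← e1, hβ y hy _ (he.mem r), (he.even y hy e2 r).commutator_eq, s'.one]
      quad := quadAll_of_H1 h (CE.trans m.EQ) (fun x hx y hy => cen y hy x (CE hx))
        (fun x hx => e3 x (CE hx)) s' hτ }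
  have CE₀ : ⁅E, E⁆ ≤ E₀ := (m.max _ inferInstance CE).resolve_left fun e => h1 (by rwa [e] at h2)
  have goodC : ∀ z : C, (ρ i * ρ i) • z = z → ∀ r, ![ρ i, ρ j, ρ k] r • z = z := fun z hz r => by
    obtain ⟨x, hx, rfl⟩ := s'.surj z
    have k1 : ∀ g, Commute g x → ρ g • μ x = μ x := fun g hg => by
      rw [hτ, ← s'.conj g x hx, MonoidHom.id_apply, hg.eq, mul_inv_cancel_right]
    rw [tt, hτ, ← s'.conj _ x hx, s'.eq_iff (nC _ x hx) hx, Subgroup.mem_bot, inv_mul_eq_one,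
      mul_inv_eq_iff_eq_mul] at hz
    obtain ⟨a1, a2⟩ := m.good.fix x (CE₀ hx) hz
    fin_cases r
    · exact k1 i a1
    · exact k1 j a2
    · have : ρ i * ρ j = ρ k := q.mul 0
      change ρ k • μ x = μ x
      rw [← this, mul_smul, k1 j a2, k1 i a1]
  have ab : ∀ x ∈ E, ∀ y ∈ E, β (π x) (π y) = 0 → x * y = y * x := fun x hx y hy e =>
    commutatorElement_eq_one_iff_mul_comm.1 ((s'.ker _ (cm x hx y hy)).1 (hβ x hx y hy ▸ e))
  have nd : ∀ v, (∀ w, β v w = 0) → v = 0 := fun v hv => by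
    obtain ⟨x, hx, rfl⟩ := s.surj v
    exact (s.ker x hx).2 ⟨hx, fun y hy => (ab x hx y hy (hv _)).symm⟩
  have a3 : ρ (a ^ 3) = ρ a * ρ a * ρ a := by rw [pow_three', map_mul, map_mul]
  obtain ⟨n, hn, hn'⟩ : ∃ n, Fil ρ P V (n + 1) = ⊥ ∧ Fil ρ P V n ≠ ⊥ := by
    obtain ⟨n, hn⟩ := fil_nil c.pP EP s hσ
    induction n with
    | zero =>
      refine absurd (Subgroup.commutator_eq_bot_iff_le_centralizer.2 fun x hx => ?_) h1
      exact ((s.ker x hx).1 (AddSubgroup.mem_bot.1 (hn ▸ AddSubgroup.mem_top _))).2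
    | succ n ih =>
      by_cases e : Fil ρ P V n = ⊥
      exacts [ih e, ⟨n, hn, e⟩]
  obtain ⟨⟨v, hv, p1⟩, p2⟩ := m2 c2 goodC nd ⟨_, c.a3, a3⟩ hn hn'
  have fix : ∀ p ∈ P, ∀ v ∈ Fil ρ P V n, ρ p • v = v := fun p hp v hv =>
    sub_eq_zero.1 (AddSubgroup.mem_bot.1 (hn ▸ low_mem hp hv))
  have cE : ∀ g, ∀ x ∈ E, ⁅g, x⁆ ∈ E := fun g x hx => mul_mem (nE g x hx) (inv_mem hx)
  have co : ∀ g, ∀ x ∈ E, π ⁅g, x⁆ = (ρ g - 1) • π x := fun g x hx => by
    rw [sub_smul, one_smul]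
    exact s.comm nE g hx
  have BP : ⁅s.pre (Fil ρ P V n), P⁆ ≤ Z := by
    rw [Subgroup.commutator_comm, Subgroup.commutator_le]
    intro p hp x hx
    refine (s.ker _ (cE p x hx.1)).1 ?_
    rw [co p x hx.1, sub_smul, one_smul, fix p hp _ hx.2, sub_self]
  refine ⟨s.pre (Fil ρ P V n), ⟨fun x hx g => ⟨nE g x hx.1, ?_⟩⟩, fun x hx => m.EQ hx.1,
    fun x hx => e3 x hx.1, fun x hx z hz => (BP hz).2 x hx.1, ?_, ?_⟩
  · exact (s.conj g x hx.1).symm ▸ fil_inv n g _ hx.2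
  · obtain ⟨l, hl, rfl⟩ := s.surj v
    refine ⟨l, ⟨hl, hv⟩, fun e => p1 ?_⟩
    rw [← co a l hl, ← co a _ (cE a l hl)]
    exact (s.ker _ (BP e).1).2 (BP e)
  · refine or_iff_not_imp_right.2 fun hn2 x hx y hy => ab x hx.1 y hy.1 (p2 ?_ _ hx.2 _ hy.2)
    simp only [Rank2, not_forall, not_exists, not_and_or, not_not] at hn2
    obtain ⟨w, hw, c₀, h₀, H⟩ := hn2
    have th : ∀ x ∈ s.pre (Fil ρ P V n), ⁅w, ⁅w, x⁆⁆ = 1 → (ρ a - 1) • (ρ a - 1) • π x = 0 := by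
      intro x hx e
      refine (sq_Class2 q.add3v _ (fil_inv n a) (Y := ρ w) (fun v hv => ?_)
        (hw.imp (fun hw v hv => ?_) fun hw v hv => ?_) hx.2).symm.trans ?_
      · rw [← mul_smul, ← mul_smul, ← a3, fix _ c.a3 v hv]
      · rw [← mul_inv_cancel_left a w, map_mul, mul_smul, fix _ hw v hv]
      · rw [show w = a * (a * ((a ^ 3)⁻¹ * (a * w))) by group, map_mul, map_mul, mul_smul,
          mul_smul, fix _ (mul_mem (inv_mem c.a3) hw) v hv]
      · rw [← co w x hx.1, ← co w _ (cE w x hx.1), e, s.one]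
    refine ⟨π c₀, h₀.2, fun v hv => ?_⟩
    obtain ⟨z, hz, rfl⟩ := s.surj v
    have hz' : z ∈ s.pre (Fil ρ P V n) := ⟨hz, hv⟩
    refine ((H z).resolve_left (not_not.2 hz')).imp (th z hz') (Or.imp (fun e => ?_) fun e => ?_)
    · have := th _ (mul_mem (inv_mem h₀) hz') e
      rwa [s.add _ (inv_mem h₀.1) z hz, s.inv h₀.1, smul_add, smul_add, smul_neg, smul_neg,
        neg_add_eq_zero, eq_comm] at this
    · have := th _ (mul_mem h₀ hz') e
      rwa [s.add _ h₀.1 z hz, smul_add, smul_add, add_comm, add_eq_zero_iff_eq_neg] at this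

end Pool.Agent.MP_a5588a_al.Solv

end

section

namespace Pool.Agent.MP_a5588a_al.Solv

open scoped commutatorElement

section abs

variable {X : Type*} [Group X]

/-- fixed by `u s` and inverted by the others -/
def Ty_EPex (u : Fin 3 → MulAut X) (s : Fin 3) (e : X) : Prop :=
  u s e = e ∧ ∀ r, r ≠ s → u r e = e⁻¹

theorem sq_EPex (h3 : IsPGroup 3 X) (x : X) : ∃ n : ℕ, (x ^ 2) ^ n = x :=
  exists_pow_eq_self_of_coprime (h3.orderOf_coprime (by norm_num) x).symm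

theorem one_EPex (h3 : IsPGroup 3 X) {x : X} (h : x = x⁻¹) : x = 1 := by
  obtain ⟨n, hn⟩ := sq_EPex h3 x
  rw [← hn, pow_two, eq_inv_iff_mul_eq_one.1 h, one_pow]

theorem cube_EPex : ∀ (n : ℕ) (x : X), x ≠ 1 → x ^ 3 ^ n = 1 → ∃ l : ℕ, x ^ l ≠ 1 ∧ (x ^ l) ^ 3 = 1
  | 0, x, h, h' => absurd (by simpa using h') h
  | n + 1, x, h, h' => by
    by_cases e : x ^ 3 ^ n = 1
    · exact cube_EPex n x h e
    · exact ⟨3 ^ n, e, by rw [← pow_mul, ← pow_succ, h']⟩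

theorem abs_EPex (h3 : IsPGroup 3 X) (N : Subgroup X) (hN : ∀ x y : X, ⁅x, y⁆ ∈ N)
    (u : Fin 3 → MulAut X) (B : MulAut X) (hu : ∀ r x, u (r + 1) (B x) = B (u r x))
    (kji : ∀ x, u 2 (u 1 (u 0 x)) = x) (r2 : ∀ x, u 1 (u 1 x) = u 0 (u 0 x))
    (r3 : ∀ x, u 0 (u 1 (u 0 x)) = u 1 x)
    (good : ∀ x ∈ N, u 0 (u 0 x) = x → u 0 x = x ∧ u 1 x = x)
    (bad : ∃ x, u 0 (u 0 x) = x ∧ ¬ (u 0 x = x ∧ u 1 x = x))
    (a3 : ∀ x, B (B (B x)) * x⁻¹ ∈ N) :
    ∃ e : Fin 3 → X, e 0 ∉ N ∧ (∀ r, e r ^ 3 = 1) ∧ (∀ r, Ty_EPex u r (e r)) ∧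
      (∀ r, e (r + 1) = B (e r)) ∧ (∀ r s, Commute (e r) (e s)) ∧
      ∀ f ∈ N, u 0 (u 0 f) = f → ∀ r, Commute f (e r) := by
  have gd : ∀ f ∈ N, u 0 (u 0 f) = f → ∀ r, u r f = f := fun f hf h r => by
    obtain ⟨h0, h1⟩ := good f hf h
    have h2 := kji f
    rw [h0, h1] at h2
    fin_cases r
    exacts [h0, h1, h2]
  have sh : ∀ s e, Ty_EPex u s e → Ty_EPex u (s + 1) (B e) := fun s e h =>
    ⟨by rw [hu, h.1], fun r hr => by
      rw [← sub_add_cancel r 1, hu, h.2 _ fun e => hr (by rw [← e, sub_add_cancel]), map_inv]⟩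
  have ev : ∀ s e, Ty_EPex u s e → u 0 (u 0 e) = e := fun s e h => by
    by_cases e0 : 0 = s
    · rw [e0, h.1, h.1]
    · rw [h.2 0 e0, map_inv, h.2 0 e0, inv_inv]
  have cen : ∀ s e, Ty_EPex u s e → ∀ f ∈ N, u 0 (u 0 f) = f → Commute f e := by
    intro s e h f hf hf'
    have h1 : e * f * e⁻¹ ∈ N := by
      simpa [commutatorElement_def] using N.mul_mem (hN e f) hf
    have h2 := gd _ h1 (by simp only [map_mul, map_inv, ev s e h, hf']) (s + 1)
    rw [map_mul, map_mul, map_inv, h.2 _ (by simp), gd f hf hf'] at h2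
    obtain ⟨n, hn⟩ := sq_EPex h3 e
    rw [← hn]
    refine Commute.pow_right ?_ n
    rw [pow_two]
    calc f * (e * e) = e * (e⁻¹ * f * e⁻¹⁻¹) * e := by simp [mul_assoc]
      _ = e * e * f := by rw [h2]; simp [mul_assoc]
  obtain ⟨x, hx, hx'⟩ : ∃ x, u 0 (u 0 x) = x ∧ u 0 x ≠ x := by
    obtain ⟨x, h1, h2⟩ := bad
    by_cases h0 : u 0 x = x
    · obtain ⟨x, rfl⟩ := B.surjective x
      refine ⟨x, B.injective ?_, fun e => h2 ⟨h0, (hu 0 x).trans (by rw [e])⟩⟩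
      rw [← hu, ← hu]
      exact (r2 _).trans h1
    · exact ⟨x, h1, h0⟩
  obtain ⟨y, y1, hy⟩ : ∃ y, y ≠ 1 ∧ u 0 y = y⁻¹ :=
    ⟨x⁻¹ * u 0 x, fun e => hx' (inv_mul_eq_one.1 e).symm, by simp [hx]⟩
  have h1 : u 0 (u 1 y) = (u 1 y)⁻¹ := by simpa [hy] using r3 y⁻¹
  have h2 : u 1 (u 1 y) = y := by rw [r2, hy, map_inv, hy, inv_inv]
  have h4 : Commute y (u 1 y) := by
    refine commutatorElement_eq_one_iff_commute.1 (one_EPex h3 ?_)
    have := gd _ (hN y (u 1 y)) (by simp only [map_commutatorElement, hy, h1, map_inv, inv_inv]) 1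
    rw [map_commutatorElement, h2] at this
    rw [commutatorElement_inv, this]
  obtain ⟨z, z1, hz⟩ : ∃ z, z ≠ 1 ∧ Ty_EPex u 0 z := by
    by_cases h5 : y * u 1 y = 1
    · have e0 : u 0 (y * (u 1 y)⁻¹) = (y * (u 1 y)⁻¹)⁻¹ := by
        rw [map_mul, map_inv, hy, h1, mul_inv_rev, h4.inv_left.inv_right.inv_right.eq]
      have e1 : u 1 (y * (u 1 y)⁻¹) = (y * (u 1 y)⁻¹)⁻¹ := by simp [h2]
      have e2 := kji (y * (u 1 y)⁻¹)
      rw [e0, map_inv, e1, inv_inv] at e2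
      refine ⟨B _, fun e => y1 (one_EPex h3 ?_), sh 2 _ ⟨e2, fun r hr => ?_⟩⟩
      · exact (mul_inv_eq_one.1 (B.map_eq_one_iff.1 e)).trans (eq_inv_of_mul_eq_one_right h5)
      · fin_cases r
        exacts [e0, e1, absurd rfl hr]
    · have e0 : u 0 (y * u 1 y) = (y * u 1 y)⁻¹ := by
        rw [map_mul, hy, h1, mul_inv_rev, h4.inv_left.inv_right.eq]
      have e1 : u 1 (y * u 1 y) = y * u 1 y := by rw [map_mul, h2, h4.eq]
      have e2 := kji (y * u 1 y)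
      rw [e0, map_inv, e1, map_inv, inv_eq_iff_eq_inv] at e2
      refine ⟨B (B _), fun e => h5 (B.map_eq_one_iff.1 (B.map_eq_one_iff.1 e)),
        sh 2 _ (sh 1 _ ⟨e1, fun r hr => ?_⟩)⟩
      fin_cases r
      exacts [e0, absurd rfl hr, e2]
  obtain ⟨n, hn⟩ := h3 z
  obtain ⟨l, w1, w3⟩ := cube_EPex n z z1 hn
  have t0 : Ty_EPex u 0 (z ^ l) :=
    ⟨by rw [map_pow, hz.1], fun r hr => by rw [map_pow, hz.2 r hr, inv_pow]⟩
  generalize z ^ l = w at w1 w3 t0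
  have t1 := sh 0 _ t0
  have t2 := sh 1 _ t1
  have t3 : Ty_EPex u 0 (B (B (B w))) := sh 2 _ t2
  have e3 : B (B (B w)) = w := by
    have f1 : u 0 (u 0 (B (B (B w)) * w⁻¹)) = B (B (B w)) * w⁻¹ := by
      simp only [map_mul, map_inv, ev 0 _ t3, ev 0 _ t0]
    have f2 := gd _ (a3 w) f1 1
    rw [map_mul, map_inv, t3.2 1 (by simp), t0.2 1 (by simp), inv_inv] at f2
    have f3 := (cen 0 w t0 _ (a3 w) f1).eq
    refine mul_inv_eq_one.1 (one_EPex h3 ?_)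
    generalize B (B (B w)) = v at f2 f3
    rw [inv_mul_cancel_right, ← mul_assoc, eq_mul_inv_iff_mul_eq] at f3
    rw [mul_inv_rev, inv_inv, ← f2]
    exact (Commute.inv_left f3).eq
  have ty : ∀ r, Ty_EPex u r (![w, B w, B (B w)] r) := fun r => by
    fin_cases r
    exacts [t0, t1, t2]
  refine ⟨![w, B w, B (B w)], fun h => w1 (one_EPex h3 ?_), fun r => ?_, ty, fun r => ?_,
    fun r s => ?_, fun f hf hf' r => cen r _ (ty r) f hf hf'⟩
  · exact (gd w h (ev 0 w t0) 1).symm.trans (t0.2 1 (by simp))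
  · fin_cases r <;> simp [← map_pow, w3]
  · fin_cases r
    exacts [rfl, rfl, e3.symm]
  · by_cases hrs : r = s
    · rw [hrs]
    have tr := ty r
    have ts := ty s
    generalize ![w, B w, B (B w)] r = p at tr
    generalize ![w, B w, B (B w)] s = q at ts
    have f1 : u 0 (u 0 ⁅p, q⁆) = ⁅p, q⁆ := by simp only [map_commutatorElement, ev r p tr, ev s q ts]
    have f2 := gd _ (hN p q) f1 r
    have f3 := (cen s q ts _ (hN p q) f1).inv_left.eq
    rw [map_commutatorElement, tr.1, ts.2 r hrs] at f2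
    refine commutatorElement_eq_one_iff_commute.1 (one_EPex h3 ?_)
    calc ⁅p, q⁆ = ⁅p, q⁻¹⁆ := f2.symm
      _ = q⁻¹ * (⁅p, q⁆⁻¹ * q) := by simp only [commutatorElement_def]; group
      _ = ⁅p, q⁆⁻¹ := by rw [f3, inv_mul_cancel_left]

end abs

variable {G : Type*} [Group G] [Finite G] {P Q K E E₀ : Subgroup G} {i j k a : G}

theorem exists_EP (c : Ctx P Q K i j k a) (m : MinBad Q i j E E₀) (h : Rel i j E) :
    ∃ e : Fin 3 → G, EP P E ![i, j, k] a e := by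
  have := m.nE
  have := m.nE₀
  have := c.nP
  have hEP : E ≤ P := m.EQ.trans c.QP
  have hE₀ : ⁅E, P⁆ ≤ E₀ := (m.max _ inferInstance (Subgroup.commutator_le_left _ _)).resolve_left
    fun e => m.bad (m.good.mono ((comm_lt c.pP hEP e.ge).le.trans bot_le))
  let φ : G →* MulAut E := MulAut.conjNormal
  have hφ : ∀ g (x : E), (φ g x : G) = g * x * g⁻¹ := fun g x => rfl
  have fx : ∀ g (x : E), φ g x = x ↔ Commute g x := fun g x => by
    rw [Subtype.ext_iff, hφ, mul_inv_eq_iff_eq_mul]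
    rfl
  have mu : ∀ g g' (x : E), φ g (φ g' x) = φ (g * g') x := fun g g' x => by rw [map_mul]; rfl
  have hg : ∀ r, ![i, j, k] (r + 1) * a⁻¹ = a⁻¹ * ![i, j, k] r := fun r => by
    rw [mul_inv_eq_iff_eq_mul]
    fin_cases r
    exacts [c.hj, c.hk, c.hi]
  obtain ⟨e, e0, e1, e2, e3, e4, e5⟩ := abs_EPex (c.pP.to_le hEP) (E₀.subgroupOf E)
    (fun x y => hE₀ (Subgroup.commutator_mem_commutator x.2 (hEP y.2)))
    (fun r => φ (![i, j, k] r)) (φ a⁻¹) (fun r x => by rw [mu, mu, hg])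
    (fun x => by
      rw [mu, mu, fx]
      exact c.kji ▸ Commute.one_left _)
    (fun x => by
      have := (fx _ (φ (j ^ 2) x)).2 (h.r2 _ (Subtype.mem _))
      rw [mu, inv_mul_cancel_right, pow_two, pow_two] at this
      rw [mu, mu]
      exact this.symm)
    (fun x => by
      have := (fx _ (φ j x)).2 (h.r3 _ (Subtype.mem _))
      rw [mu, inv_mul_cancel_right] at this
      rw [mu, mu]
      exact this)
    (fun x hx h => by
      rw [mu, fx] at h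
      rw [fx, fx]
      exact m.good.fix x hx (pow_two i ▸ h))
    (by
      by_contra hn
      refine m.bad ⟨h, fun x hx h' => ?_⟩
      by_contra hn'
      refine hn ⟨⟨x, hx⟩, ?_, ?_⟩
      · rw [mu, fx]
        exact pow_two i ▸ h'
      · rwa [fx, fx])
    (fun x => by
      have := hE₀ (Subgroup.commutator_mem_commutator x.2 (P.inv_mem c.a3))
      rw [← inv_mem_iff, commutatorElement_inv] at this
      rw [mu, mu, Subgroup.mem_subgroupOf, Subgroup.coe_mul, hφ]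
      rwa [show a⁻¹ * a⁻¹ * a⁻¹ = (a ^ 3)⁻¹ by group])
  have fix : ∀ r, ![i, j, k] r * e r * (![i, j, k] r)⁻¹ = e r := fun r =>
    congrArg Subtype.val (e2 r).1
  have inv : ∀ r s, r ≠ s → ![i, j, k] r * e s * (![i, j, k] r)⁻¹ = (e s : G)⁻¹ := fun r s hr =>
    congrArg Subtype.val ((e2 s).2 r hr)
  have next : ∀ r, (e (r + 1) : G) = a⁻¹ * e r * a := fun r => by rw [e3, hφ, inv_inv]
  have gen : ∀ L : Subgroup G, (∀ p ∈ P, ∀ r, p * e r * p⁻¹ ∈ L) → E ≤ L := by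
    intro L hL
    let Z : Set G := {z | ∃ p ∈ P, ∃ r, z = p * e r * p⁻¹ ∨ z⁻¹ = p * e r * p⁻¹}
    have key : ∀ g, (∀ p ∈ P, ∀ r, g * (p * e r * p⁻¹) * g⁻¹ ∈ Z) → g ∈ Subgroup.normalizer Z := by
      intro g hg
      refine Subgroup.mem_normalizer_fintype ?_
      rintro z ⟨p, hp, r, rfl | hz⟩
      · exact hg p hp r
      · obtain ⟨p', hp', r', h'⟩ := hg p hp r
        rw [← hz, ← conj_inv, inv_inv] at h'
        exact ⟨p', hp', r', h'.symm⟩
    have top := c.gen (Subgroup.normalizer Z)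
      (fun g hg => key g fun p hp r => ⟨g * p, mul_mem hg hp, r, Or.inl (by group)⟩)
      (key i fun p hp r => ⟨i * p * i⁻¹, c.nP.conj_mem p hp i, r, by
        by_cases hr : 0 = r
        · left
          conv_rhs => rw [← fix r, ← hr]
          rw [← hr]
          simp only [Matrix.cons_val_zero]
          group
        · right
          conv_rhs => rw [← inv_inv (e r : G), ← inv 0 r hr]
          simp only [Matrix.cons_val_zero]
          group⟩)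
      (inv_mem_iff.1 (key a⁻¹ fun p hp r => ⟨a⁻¹ * p * a⁻¹⁻¹, c.nP.conj_mem p hp _, r + 1,
        Or.inl (by rw [next]; group)⟩))
    have h0 : (e 0 : G) ∈ L.normalCore := fun g => by
      obtain ⟨p, hp, r, h' | h'⟩ := ((top.ge (Subgroup.mem_top g) :) (e 0)).1
        ⟨1, one_mem _, 0, Or.inl (by simp)⟩
      · exact h' ▸ hL p hp r
      · exact inv_mem_iff.1 (h' ▸ hL p hp r)
    rcases m.max (L.normalCore ⊓ E) inferInstance inf_le_right with h' | h'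
    · exact h'.ge.trans (inf_le_left.trans L.normalCore_le)
    · exact absurd (h' ⟨h0, (e 0).2⟩) e0
  refine ⟨fun r => e r, fun r => (e r).2, fun r => congrArg Subtype.val (e1 r), fix, inv, next,
    fun x hx hx' r => ?_, gen⟩
  have ce : ∀ y, y ∈ Subgroup.centralizer {i ^ 2, (e r : G)} ↔ Commute (i ^ 2) y ∧ Commute y (e r) :=
    fun y => by
      simp only [Subgroup.mem_centralizer_iff, Set.mem_insert_iff, Set.mem_singleton_iff,
        forall_eq_or_imp, forall_eq]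
      exact and_congr Iff.rfl eq_comm
  obtain ⟨b, hb, w, hw, rfl⟩ := Subgroup.mem_sup_of_normal_right.1
    (gen (Subgroup.centralizer {i ^ 2, (e r : G)} ⊔ E₀) (fun p hp s => by
      have h1 := hE₀ (Subgroup.commutator_mem_commutator (E.inv_mem (e s).2) hp)
      rw [show p * e s * p⁻¹ = e s * ⁅(e s : G)⁻¹, p⁆ by simp only [commutatorElement_def]; group]
      refine Subgroup.mul_mem_sup ((ce _).2 ⟨?_, congrArg Subtype.val (e4 s r).eq⟩) h1
      rw [← fx, pow_two, ← mu]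
      by_cases hs : 0 = s
      · subst hs
        exact (congrArg _ (e2 0).1).trans (e2 0).1
      · have := (e2 s).2 0 hs
        exact (congrArg _ this).trans (by rw [map_inv]; exact inv_eq_iff_eq_inv.2 this)) hx)
  rw [ce] at hb
  refine hb.2.mul_left (congrArg Subtype.val (e5 ⟨w, m.le hw⟩ hw ?_ r).eq)
  rw [mu, fx]
  simpa [pow_two] using hb.1.inv_right.mul_right hx'

end Pool.Agent.MP_a5588a_al.Solv

end

section

namespace Pool.Agent.MP_a5588a_al.Solv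

open scoped commutatorElement

theorem partC.{u} : PartC.{u} := by
  intro H _ _ P Q K i j k a c hg
  have := c.nP
  by_cases h : H1 P Q a
  swap
  · unfold H1 at h
    push Not at h
    obtain ⟨A, a1, a2, a3, a4, a5⟩ := h
    exact ⟨A, a1, a2, a4, fun x hx z hz => a3 x hx z (Subgroup.commutator_le_left _ _ hz), a5,
      .inl a3⟩
  obtain ⟨E, E₀, m⟩ := exists_minBad c hg
  have := m.nE
  by_cases hκ : ∃ κ ∈ K, (∀ w ∈ E₀, Commute κ w) ∧ ∃ x ∈ E, ¬ Commute κ x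
  · obtain ⟨κ, k1, k2, k3⟩ := hκ
    exact ⟨E, caseI c m h k1 k2 k3⟩
  have hc : ∀ κ ∈ K, (∀ w ∈ E₀, Commute κ w) → ∀ x ∈ E, Commute κ x := fun κ k1 k2 x hx =>
    not_not.1 fun e => hκ ⟨κ, k1, k2, x, hx, e⟩
  have hi := c.iK
  have hj : j ∈ K := c.hj ▸ c.aK i hi
  have hr : Rel i j E := ⟨hc _ (pow_mem hi 4) m.good.rel.r1,
    hc _ (mul_mem (pow_mem hi 2) (inv_mem (pow_mem hj 2))) m.good.rel.r2,
    hc _ (mul_mem (mul_mem (mul_mem hi hj) hi) (inv_mem hj)) m.good.rel.r3⟩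
  obtain ⟨e, he⟩ := exists_EP c m hr
  by_cases h1 : ⁅E, E⁆ = ⊥
  swap
  · exact class2 c m h hr he (class3 c m h hr he) h1
  have ab : ∀ x ∈ E, ∀ y ∈ E, x * y = y * x := fun x hx y hy =>
    commutatorElement_eq_one_iff_mul_comm.1 (h1.le (Subgroup.commutator_mem_commutator hx hy))
  let L : Subgroup H :=
    { carrier := {x | x ∈ E ∧ x ^ 3 = 1}
      one_mem' := ⟨E.one_mem, one_pow 3⟩
      mul_mem' := fun {x y} hx hy => ⟨E.mul_mem hx.1 hy.1, by
        rw [Commute.mul_pow (ab x hx.1 y hy.1), hx.2, hy.2, one_mul]⟩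
      inv_mem' := fun {x} hx => ⟨E.inv_mem hx.1, by rw [inv_pow, hx.2, inv_one]⟩ }
  have hL := he.gen L fun p _ r => ⟨m.nE.conj_mem _ (he.mem r) p, by
    rw [conj_pow, he.cube, mul_one, mul_inv_cancel]⟩
  obtain ⟨l, hl, q⟩ := nonquad c m
  exact absurd (low_NonQuad c m (h E m.nE m.EQ ab (fun x hx => (hL hx).2) l hl)) q

end Pool.Agent.MP_a5588a_al.Solv

end

section

namespace Pool.Agent.MP_a5588a_al.Full

open Pool.Agent.MP_a5588a_al.Solv
open scoped commutatorElement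

universe u v

/-- The Klein four group. -/
def V_FFour : Subgroup (Equiv.Perm (Fin 4)) where
  carrier := {s | s * s = 1 ∧ (s = 1 ∨ ∀ t, s t ≠ t)}
  one_mem' := by decide
  mul_mem' := by
    simp only [Set.mem_ofPred_eq]
    decide +kernel
  inv_mem' := by
    simp only [Set.mem_ofPred_eq]
    decide +kernel

theorem mem_FFour {s : Equiv.Perm (Fin 4)} :
    s ∈ V_FFour ↔ s * s = 1 ∧ (s = 1 ∨ ∀ t, s t ≠ t) := Iff.rfl

instance nV_FFour : V_FFour.Normal := ⟨by simp only [mem_FFour]; decide +kernel⟩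

theorem f1_FFour : ∀ s : Equiv.Perm (Fin 4), (s ^ 3) ^ 4 = 1 := by decide +kernel

theorem f2_FFour : ∀ s t : Equiv.Perm (Fin 4), s 0 = 0 → t 0 = 0 → s ^ 3 = 1 → t ^ 3 = 1 → s ≠ 1 →
    t = 1 ∨ s⁻¹ * t = 1 ∨ s * t = 1 := by decide +kernel

theorem f3_FFour : ∀ s t : Equiv.Perm (Fin 4), s 0 = 0 → s ^ 3 = 1 → s ≠ 1 →
    (t * s * t⁻¹) 0 ≠ 0 → ⁅s, t * s * t⁻¹⁆ ∈ V_FFour ∧ ⁅s, t * s * t⁻¹⁆ ≠ 1 := by
  simp only [mem_FFour]
  decide +kernel

theorem f4_FFour : ∀ s v : Equiv.Perm (Fin 4), v ∈ V_FFour → (s * v) ^ 3 = 1 ∧ s * v ≠ 1 →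
    s ^ 3 = 1 ∧ s ≠ 1 := by
  simp only [mem_FFour]
  decide +kernel

theorem f5_FFour : ∀ s v : Equiv.Perm (Fin 4), v ∈ V_FFour → v ≠ 1 → s ^ 3 = 1 → s ≠ 1 →
    (s⁻¹ * v⁻¹ * s * v) 0 ≠ 0 ∧
      ⁅s⁻¹ * v⁻¹ * s * v, s⁻¹ * (s⁻¹ * v⁻¹ * s * v) * s⁆ 0 = 0 := by
  simp only [mem_FFour]
  decide +kernel

variable {G : Type u} [Group G] [Finite G] {A : Type v} [CommGroup A] {Q P : Subgroup G} [Q.Normal]
  {Y : Set G} {θ : G → A}

theorem psi_FFour (M : Subgroup G) (h4 : M.index = 4) : ∃ ψ : G →* Equiv.Perm (Fin 4),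
    (∀ g, g ∈ M ↔ ψ g 0 = 0) ∧ ψ.ker = M.normalCore := by
  let e₀ : (G ⧸ M) ≃ Fin 4 := Finite.equivFinOfCardEq h4
  let e := e₀.trans (Equiv.swap (e₀ (1 : G)) 0)
  have he : e.symm 0 = (1 : G) := by simp [e]
  refine ⟨e.permCongrHom.toMonoidHom.comp (MulAction.toPermHom G (G ⧸ M)), fun g => ?_, ?_⟩
  · change _ ↔ e (g • e.symm 0) = 0
    rw [← e.eq_symm_apply, he, MulAction.Quotient.smul_coe, eq_comm, QuotientGroup.eq]
    simp
  · rw [Subgroup.normalCore_eq_ker]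
    exact MonoidHom.ker_comp_of_injective _ _ e.permCongrHom.injective

theorem part_FFour {H : Type*} [Group H] (ψ : G →* H) {p : ℕ} (hp : p.Prime) {x : G}
    (h1 : ψ x ^ p = 1) (h2 : ψ x ≠ 1) :
    ∃ m n : ℕ, (x ^ m) ^ p ^ n = 1 ∧ ψ (x ^ m) ≠ 1 := by
  obtain ⟨n, m, a1, a2⟩ := Nat.exists_eq_pow_mul_and_not_dvd (orderOf_pos x).ne' p hp.ne_one
  refine ⟨m, n, by rw [← pow_mul, mul_comm, ← a2, pow_orderOf_eq_one], fun e => h2 ?_⟩
  exact (pow_eq_one_iff_of_coprime (hp.coprime_iff_not_dvd.2 a1)).1 ⟨h1, map_pow ψ x m ▸ e⟩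

omit [Finite G] in
theorem zp_FFour {p n : ℕ} {x : G} (h : x ^ p ^ n = 1) : IsPGroup p (Subgroup.zpowers x) := by
  rintro ⟨_, k, rfl⟩
  exact ⟨n, Subtype.ext (by
    change (x ^ k) ^ p ^ n = 1
    rw [← zpow_natCast, ← zpow_mul, mul_comm, zpow_mul, zpow_natCast, h, one_zpow])⟩

theorem fr_FFour (ψ : G →* Equiv.Perm (Fin 4)) (S : Sylow 3 G) {a₀ w : G} (h1 : ψ a₀ ^ 3 = 1)
    (h2 : ψ a₀ ≠ 1) (h3 : ψ w ∈ V_FFour) (h4 : ψ w ≠ 1) :
    ∃ (K : Subgroup G) (a g : G), IsPGroup 2 K ∧ a ∈ S ∧ ψ a ≠ 1 ∧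
      a ∈ Subgroup.normalizer (K : Set G) ∧ g ∈ K ∧ ψ g ∈ V_FFour ∧ ψ g ≠ 1 := by
  let N := V_FFour.comap ψ
  obtain ⟨m, n, b1, b2⟩ := part_FFour ψ Nat.prime_two ((sq _).trans h3.1) h4
  have b3 : w ^ m ∈ N := N.pow_mem h3 m
  obtain ⟨T, hT⟩ := (zp_FFour (x := (⟨_, b3⟩ : N)) (Subtype.ext b1)).exists_le_sylow
  have c1 : a₀ ∈ Subgroup.normalizer (T.map N.subtype) ⊔ N :=
    T.normalizer_sup_eq_top ▸ Subgroup.mem_top _
  obtain ⟨a₁, c2, z, c3, rfl⟩ := Subgroup.mem_sup_of_normal_right.1 c1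
  rw [map_mul] at h1 h2
  obtain ⟨c4, c5⟩ := f4_FFour _ _ c3 ⟨h1, h2⟩
  obtain ⟨m', n', d1, d2⟩ := part_FFour ψ Nat.prime_three c4 c5
  obtain ⟨x, -, hx⟩ := sylow_conj (Y := ⊤) (R := S) le_top S.isPGroup'
    (fun R' _ b c => S.is_maximal' b c) le_top (zp_FFour d1)
  have cj : ∀ y, ψ y ≠ 1 → ψ (x⁻¹ * y * x) ≠ 1 := fun y hy e => hy (by
    simpa [mul_assoc] using congrArg (fun s => ψ x * s * (ψ x)⁻¹) e)
  refine ⟨(T.map N.subtype).comap (MulAut.conj x).toMonoidHom, _, x⁻¹ * w ^ m * x,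
    (T.isPGroup'.map _).comap_of_injective _ (MulAut.conj x).injective,
    hx _ (Subgroup.mem_zpowers _), cj _ d2, Subgroup.mem_normalizer_iff.2 fun y => ?_, ?_,
    by simpa using nV_FFour.conj_mem _ b3 (ψ x)⁻¹, cj _ b2⟩
  · refine (Subgroup.mem_normalizer_iff.1 (pow_mem c2 m') (x * y * x⁻¹)).trans (iff_of_eq ?_)
    change _ = (x * _ * x⁻¹ ∈ T.map N.subtype)
    congr 1
    group
  · exact ⟨_, hT (Subgroup.mem_zpowers _), by simp [mul_assoc]⟩

theorem four (h : Nd Q P Y θ) (h4 : (Stab Q θ).index = 4) : ∃ C, Wt Q Y P C := by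
  have nP := h.nP
  obtain ⟨ψ, hM, hker⟩ := psi_FFour _ h4
  obtain ⟨K₀, k1, k2, k3⟩ := h.um.f1 ψ.normal_ker (hker ▸ Subgroup.normalCore_le _)
  obtain ⟨S, hS⟩ := h.um.pR.exists_le_sylow
  have hSM := h.um.syl S.isPGroup' hS
  have e3 : ∀ y ∈ (S : Subgroup G), El3 y := fun y hy =>
    (S.isPGroup' ⟨y, hy⟩).imp fun _ e => congrArg Subtype.val e
  have hP : ∀ y ∈ (S : Subgroup G), ψ y = 1 → y ∈ P := fun y hy e =>
    h.maxP K₀ k1 k2 (k3 y e (e3 y hy))
  have hP' : P ≤ ψ.ker := hker ▸ Subgroup.normal_le_normalCore.2 (le_sup_left.trans h.um.le)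
  have c3 : ∀ y ∈ (S : Subgroup G), ψ y ^ 3 = 1 := fun y hy => by
    obtain ⟨n, e⟩ := e3 y hy
    refine (pow_eq_one_iff_of_coprime (Nat.Coprime.pow_right n (by decide : Nat.Coprime 4 3))).1
      ⟨f1_FFour _, ?_⟩
    rw [← pow_mul, mul_comm, pow_mul, ← map_pow, e, map_one, one_pow]
  have idx : ∀ y ∈ (S : Subgroup G), ψ y ≠ 1 → ∀ z ∈ (S : Subgroup G),
      z ∈ P ∨ y⁻¹ * z ∈ P ∨ y * z ∈ P := fun y hy e z hz =>
    (f2_FFour _ _ ((hM y).1 (hSM hy)) ((hM z).1 (hSM hz)) (c3 y hy) (c3 z hz) e).imp (hP z hz)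
      (.imp (fun e => hP _ (mul_mem (inv_mem hy) hz) (by simpa using e))
        fun e => hP _ (mul_mem hy hz) (by simpa using e))
  have hE : EE Q Y ≤ S := le_sup_right.trans hS
  have hY : ∀ y ∈ Y, y ∈ (S : Subgroup G) := fun y hy =>
    hE (Subgroup.mem_sup_right (Subgroup.subset_closure hy))
  obtain ⟨a₀, y1, y2⟩ : ∃ y ∈ Y, y ∉ P := by
    by_contra e
    push Not at e
    exact h.um.nn P nP h.pP (sup_le le_rfl (sup_le h.QP ((Subgroup.closure_le _).2 e)))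
  have y3 := hY _ y1
  have y4 := mt (hP _ y3) y2
  obtain ⟨t, ht⟩ := h.um.ex_conj (e3 _ y3) fun K a b c => y2 (h.maxP K a b c)
  obtain ⟨w1, w2⟩ := f3_FFour _ (ψ t) ((hM _).1 (hSM y3)) (c3 _ y3) y4
    (by simpa only [hM, map_mul, map_inv] using ht)
  obtain ⟨K, a, g, pK, aS, a1, aK, gK, g1, g2⟩ := fr_FFour ψ S (w := ⁅a₀, t * a₀ * t⁻¹⁆)
    (c3 _ y3) y4 (by simpa using w1) (by simpa only [map_commutatorElement, map_mul, map_inv])
  replace aS : a ∈ (S : Subgroup G) := aS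
  have a3 : a ^ 3 ∈ P := hP _ (pow_mem aS 3) (by rw [map_pow, c3 a aS])
  have ha3S : ∀ s ∈ K, Commute (a ^ 3) s := fun s hs => by
    refine commutatorElement_eq_one_iff_commute.1 (Subgroup.disjoint_def.1
      (IsPGroup.disjoint_of_ne 3 2 (by decide) P K h.pP pK) ?_
      (mul_mem ((Subgroup.mem_normalizer_iff.1 (pow_mem aK 3) s).1 hs) (inv_mem hs)))
    simpa only [commutatorElement_def, mul_assoc] using
      mul_mem a3 (nP.conj_mem _ (inv_mem a3) s)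
  have haS : ∀ s ∈ K, a⁻¹ * s * a ∈ K := fun s hs => (Subgroup.mem_normalizer_iff''.1 aK s).1 hs
  obtain ⟨i, hi⟩ : ∃ i, i = a⁻¹ * g⁻¹ * a * g := ⟨_, rfl⟩
  have hiS : i ∈ K := hi ▸ mul_mem (haS _ (inv_mem gK)) gK
  obtain ⟨i1, i2⟩ := f5_FFour _ _ g1 g2 (c3 a aS) a1
  have iM : i ∉ Stab Q θ := by simpa only [hi, hM, map_mul, map_inv] using i1
  obtain ⟨C, hR⟩ := partC G P Q K i (a⁻¹ * i * a) (a⁻¹ * (a⁻¹ * i * a) * a) a
    ⟨nP, inferInstance, h.QP, h.pP, rfl, rfl, by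
      have e : a⁻¹ * (a⁻¹ * (a⁻¹ * i * a) * a) * a = (a ^ 3)⁻¹ * (i * a ^ 3) := by
        simp only [pow_three, mul_inv_rev, mul_assoc]
      rw [e, ← (ha3S i hiS).eq, inv_mul_cancel_left], by
      have e : a⁻¹ * (a⁻¹ * i * a) * a * (a⁻¹ * i * a) * i = (a ^ 3)⁻¹ * g⁻¹ * (a ^ 3 * g) := by
        simp only [hi, pow_three, mul_inv_rev, mul_assoc, mul_inv_cancel_left]
      rw [e, (ha3S g gK).eq, mul_assoc, inv_mul_cancel_left, inv_mul_cancel], hiS, haS, fun c => by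
      obtain ⟨n, e⟩ := IsPGroup.iff_card.1 pK
      exact absurd (Nat.prime_three.dvd_of_dvd_pow (e ▸ c)) (by decide), a3,
      fun L h1 h2 h3 => (h.um.um L fun y hy => by
        rcases idx a aS a1 y (hS hy) with e | e | e
        · exact h1 e
        · exact (L.mul_mem_cancel_left (inv_mem h3)).1 (h1 e)
        · exact (L.mul_mem_cancel_left h3).1 (h1 e)).resolve_left fun e => iM (e h2)⟩
    fun c => iM (notGood (h.pP.to_le h.QP) h.mul
      (by simpa only [hi, hM, map_commutatorElement, map_mul, map_inv] using i2) c)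
  have nC := hR.nC
  have hy : ∀ y ∈ Y, y ∉ P → a⁻¹ * y ∈ P ∨ a * y ∈ P := fun y h1 h2 =>
    (idx a aS a1 y (hY y h1)).resolve_left h2
  refine ⟨C, h.QP, ⟨a₀, y1, y2⟩, hR.CQ, fun y _ c hc => nC.conj_mem c hc y, hR.cub,
    fun y h1 h2 => ?_, hR.n2.imp_right fun e y h1 h2 => e y (hy y h1 h2),
    Or.inl fun y h1 h2 z h3 => idx y (hE h1) (mt (hP y (hE h1)) h2) z (hE h3)⟩
  obtain ⟨l, l1, l2⟩ := n1_all (hR.CQ.trans h.QP) (hy y h1 h2) hR.n1
  exact ⟨l, l1, fun e => l2 (e ▸ one_mem _)⟩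

end Pool.Agent.MP_a5588a_al.Full

end
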