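import Pool.Agent.Mg.Fa5588aa.G1ab97f
import Pool.Agent.Mg.Fa5588aa.Ga63474
import Pool.Agent.Mg.Fa5588aa.G9a89c7

section

namespace Pool.Agent.MP_a5588a_al.Solv

open scoped commutatorElement

theorem ring_Idx {R : Type*} [Ring R] {X Y : R} (c : Y * X = X * Y) (h : X * (X * X) = 1) :
    (X - 1) * ((1 + Y + Y * Y) + (1 + X * X * Y + X * X * Y * (X * X * Y)) +
      (1 + X * Y + X * Y * (X * Y))) = 3 • (X - 1) := by
  have c' : ∀ Z, Y * (X * Z) = X * (Y * Z) := fun Z => by rw [← mul_assoc, c, mul_assoc]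
  have h' : ∀ Z, X * (X * (X * Z)) = Z := fun Z => by
    rw [← mul_assoc X X Z, ← mul_assoc, h, one_mul]
  simp only [mul_assoc, c', h', mul_add, sub_mul, one_mul, mul_one]
  abel

theorem idx {D V : Type*} [Group D] [Finite D] [AddCommGroup V] (ρ : D →* AddMonoid.End V)
    (h3 : ∀ v : V, 3 • v = 0 → v = 0) (hc : ∀ x y, ρ (x * y) = ρ (y * x))
    (hcube : ∀ x, ρ (x ^ 3) = 1) (x : D) (hx : ∃ v, ρ x v ≠ v) :
    ∃ v, ρ x v ≠ v ∧ ∀ y, ρ y v = v ∨ ρ (x⁻¹ * y) v = v ∨ ρ (x * y) v = v := by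
  obtain ⟨v, hv, hm⟩ := (InvImage.wf (fun v : V => {d | ρ d v = v}) wellFounded_gt).has_min
    {v | ρ x v ≠ v} hx
  have c : ∀ a b, ρ a * ρ b = ρ b * ρ a := fun a b => by rw [← map_mul, hc, map_mul]
  have q : ∀ a, ρ a * (ρ a * ρ a) = 1 := fun a => by
    rw [← map_mul, ← map_mul, ← hcube a, pow_three]
  have key : ∀ w, ρ w v ≠ v → ((ρ x - 1) * (1 + ρ w + ρ w * ρ w)) v = 0 := fun w hw => by
    by_contra h
    refine hm ((1 + ρ w + ρ w * ρ w) v) (fun e => h (sub_eq_zero.2 e))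
      (lt_of_le_of_ne (fun d hd => ?_) fun e => hw ?_)
    · have e : ρ d * (1 + ρ w + ρ w * ρ w) = (1 + ρ w + ρ w * ρ w) * ρ d := by
        rw [mul_add, mul_add, add_mul, add_mul, mul_one, one_mul, ← mul_assoc, c d w,
          mul_assoc, c d w, mul_assoc]
      exact (DFunLike.congr_fun e v).trans (congrArg (fun z => (1 + ρ w + ρ w * ρ w) z) hd)
    · have e' : ρ w * (1 + ρ w + ρ w * ρ w) = 1 + ρ w + ρ w * ρ w := by
        rw [mul_add, mul_add, mul_one, q]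
        abel
      exact (Set.ext_iff.1 e w).2 (DFunLike.congr_fun e' v)
  refine ⟨v, hv, fun y => by_contra fun h => hv ?_⟩
  push Not at h
  have e : ρ x⁻¹ = ρ x * ρ x := by
    rw [← one_mul (ρ x⁻¹), ← q x, ← mul_assoc, mul_assoc, ← map_mul ρ x x⁻¹, mul_inv_cancel,
      map_one, mul_one]
  have h1 := key _ h.1
  have h2 := key _ h.2.1
  have h4 := key _ h.2.2
  rw [map_mul, e] at h2
  rw [map_mul] at h4
  have h5 := DFunLike.congr_fun (ring_Idx (c y x) (q x)) v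
  rw [mul_add, mul_add] at h5
  refine sub_eq_zero.1 (h3 _ (h5.symm.trans ?_))
  exact (congrArg₂ (· + ·) (congrArg₂ (· + ·) h1 h2) h4).trans ((add_zero _).trans (add_zero _))

end Pool.Agent.MP_a5588a_al.Solv

end

section

namespace Pool.Agent.MP_a5588a_al.Solv

open scoped commutatorElement

universe u

theorem fix_R5 {G : Type*} [Group G] {D B : Subgroup G} (hD : IsPGroup 3 D)
    (hB : ¬ 3 ∣ Nat.card B) (hn : ∀ d ∈ D, ∀ b ∈ B, d * b * d⁻¹ ∈ B) {s : G}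
    (hs : ∀ d ∈ D, ⁅d, s⁆ ∈ B) : ∃ b ∈ B, ∀ d ∈ D, d * (b * s) * d⁻¹ = b * s := by
  have : Fact (Nat.Prime 3) := ⟨Nat.prime_three⟩
  let : MulAction D B :=
    { smul d b := ⟨d * b * (d : G)⁻¹ * ⁅(d : G), s⁆, B.mul_mem (hn d d.2 b b.2) (hs d d.2)⟩
      one_smul b := Subtype.ext (by
        change (1 : G) * b * 1⁻¹ * ⁅(1 : G), s⁆ = b
        simp)
      mul_smul d e b := Subtype.ext (by
        change (d * e : G) * b * (d * e : G)⁻¹ * ⁅(d * e : G), s⁆ =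
          d * (e * b * (e : G)⁻¹ * ⁅(e : G), s⁆) * (d : G)⁻¹ * ⁅(d : G), s⁆
        simp only [commutatorElement_def]
        group) }
  obtain ⟨b, hb⟩ := hD.nonempty_fixed_point_of_prime_not_dvd_card B hB
  refine ⟨b, b.2, fun d hd => ?_⟩
  have h : d * b * d⁻¹ * ⁅d, s⁆ = b := congrArg Subtype.val (hb ⟨d, hd⟩)
  conv_rhs => rw [← h, commutatorElement_def]
  group

theorem comm_R5 {G : Type*} [Group G] [Finite G] {q : ℕ} [Fact q.Prime] {S : Subgroup G}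
    (hS : IsPGroup q S) (h : S ≠ ⊥) : ⁅S, S⁆ ≠ S := by
  have := hS.isNilpotent
  have := (Subgroup.nontrivial_iff_ne_bot S).2 h
  intro e
  refine (Group.IsSolvable.commutator_lt_top_of_nontrivial S).ne
    (Subgroup.map_injective S.subtype_injective ?_)
  rw [Subgroup.map_subtype_commutator, e, ← MonoidHom.range_eq_map, S.range_subtype]

theorem iff_R5 {G : Type*} [Group G] {Y : Subgroup G} {d : G} (hd : d ∈ Y) (s : G) :
    ⁅d, s⁆ ∈ Y ↔ s * d * s⁻¹ ∈ Y := by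
  have e : ⁅d, s⁆ = d * (s * d * s⁻¹)⁻¹ := by rw [commutatorElement_def]; group
  rw [e, Y.mul_mem_cancel_left hd, Y.inv_mem_iff]

theorem move_R5 {G : Type*} [Group G] {T S D Y : Subgroup G} (h3 : IsPGroup 3 T)
    (hS : ¬ 3 ∣ Nat.card (S ⊓ Y : Subgroup G)) (hD : D ≤ T) (hTY : T ≤ Y)
    (hDS : ∀ d ∈ D, ∀ s ∈ S, d * s * d⁻¹ ∈ S)
    (hT : ∀ x ∈ T, ∃ r ∈ T.normalCore, ∃ d ∈ D, x = r * d) (hST : S ⊔ T = ⊤) (hY : ¬ S ≤ Y)
    (hmax : ∀ S' : Subgroup G, S' ≤ S → S' ≠ S → (∀ d ∈ D, ∀ s ∈ S', d * s * d⁻¹ ∈ S') → S' ≤ Y)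
    {a : G} (ha : a ∈ D) (h : ∀ s ∈ S, s * a * s⁻¹ ∈ Y) : a ∈ T.normalCore := by
  let D₀ : Subgroup G := D ⊓ ⨅ s ∈ S, Y.comap (MulAut.conj s).toMonoidHom
  have m : ∀ d, d ∈ D₀ ↔ d ∈ D ∧ ∀ s ∈ S, s * d * s⁻¹ ∈ Y := fun d => by
    simp [D₀, Subgroup.mem_iInf]
  have n : ∀ e ∈ D, ∀ d ∈ D₀, e * d * e⁻¹ ∈ D₀ := fun e he d hd => by
    obtain ⟨h1, h2⟩ := (m d).1 hd
    refine (m _).2 ⟨D.mul_mem (D.mul_mem he h1) (D.inv_mem he), fun s hs => ?_⟩
    have h4 := Y.mul_mem (Y.mul_mem (hTY (hD he)) (h2 _ (hDS _ (D.inv_mem he) s hs)))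
      (Y.inv_mem (hTY (hD he)))
    convert h4 using 1
    group
  have c : S ⊓ Subgroup.centralizer (D₀ : Set G) = S := by
    by_contra c
    refine hY fun s hs => ?_
    obtain ⟨b, hb, hf⟩ := fix_R5 (D := D₀) (B := S ⊓ Y) (h3.to_le (inf_le_left.trans hD)) hS
      (fun d hd b hb => ⟨hDS d hd.1 b hb.1, Y.mul_mem (Y.mul_mem (hTY (hD hd.1)) hb.2)
        (Y.inv_mem (hTY (hD hd.1)))⟩) (s := s) fun d hd =>
      ⟨S.mul_mem (hDS d hd.1 s hs) (S.inv_mem hs), (iff_R5 (hTY (hD hd.1)) s).2 (((m d).1 hd).2 s hs)⟩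
    refine (Y.mul_mem_cancel_left hb.2).1 (hmax _ inf_le_left c (fun e he t ht =>
      ⟨hDS e he t ht.1, fun d hd => ?_⟩) ⟨S.mul_mem hb.1 hs, fun d hd => ?_⟩)
    · have h4 := ht.2 _ (n _ (D.inv_mem he) d hd)
      calc d * (e * t * e⁻¹) = e * (e⁻¹ * d * e⁻¹⁻¹ * t) * e⁻¹ := by group
        _ = e * t * e⁻¹ * d := by rw [h4]; group
    · exact mul_inv_eq_iff_eq_mul.1 (hf d hd)
  have k : ∀ g, (∀ d ∈ D₀, g * d * g⁻¹ ∈ T.normalCore ⊔ D₀) →
      ∀ d ∈ T.normalCore ⊔ D₀, g * d * g⁻¹ ∈ T.normalCore ⊔ D₀ := fun g hg =>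
    show _ ≤ (T.normalCore ⊔ D₀).comap (MulAut.conj g).toMonoidHom from
      sup_le (fun r hr => Subgroup.mem_sup_left (T.normalCore_normal.conj_mem r hr g)) hg
  have : (T.normalCore ⊔ D₀).Normal := by
    rw [← Subgroup.normalizer_eq_top_iff, eq_top_iff, ← hST, sup_le_iff,
      Subgroup.le_normalizer_iff, Subgroup.le_normalizer_iff]
    refine ⟨fun s hs => k s fun d hd => ?_, fun t ht => k t fun d hd => ?_⟩
    · rw [← c] at hs
      rw [← hs.2 d hd, mul_inv_cancel_right]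
      exact Subgroup.mem_sup_right hd
    · obtain ⟨r, hr, e, he, rfl⟩ := hT t ht
      have h4 := mul_mem (mul_mem (Subgroup.mem_sup_left (T := D₀) hr)
        (Subgroup.mem_sup_right (n e he d hd))) (inv_mem (Subgroup.mem_sup_left hr))
      convert h4 using 1
      group
  exact Subgroup.normal_le_normalCore.2 (sup_le T.normalCore_le (inf_le_left.trans hD))
    (Subgroup.mem_sup_right ((m a).2 ⟨ha, h⟩))

theorem r5 (hC : PartC.{u}) {G : Type u} {A : Type*} [Group G] [Finite G] [CommGroup A]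
    (T : Sylow 3 G) {θ : G → A} (hθ : MulOn (T : Subgroup G) θ) {q : ℕ} {S D : Subgroup G}
    (hq : q.Prime) (hq3 : q ≠ 3) (hS : IsPGroup q S) (hD : D ≤ T)
    (hDS : ∀ d ∈ D, ∀ s ∈ S, d * s * d⁻¹ ∈ S)
    (hT : ∀ x ∈ (T : Subgroup G), ∃ r ∈ (T : Subgroup G).normalCore, ∃ d ∈ D, x = r * d)
    (hST : S ⊔ T = ⊤) (hY : ¬ S ≤ Stab (T : Subgroup G).normalCore θ)
    (hmax : ∀ S' : Subgroup G, S' ≤ S → S' ≠ S → (∀ d ∈ D, ∀ s ∈ S', d * s * d⁻¹ ∈ S') →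
      S' ≤ Stab (T : Subgroup G).normalCore θ)
    {E : Subgroup G} (hQE : (T : Subgroup G).normalCore ≤ E) (hET : E ≤ T)
    (hc : ∀ y ∈ E, ∀ z ∈ E, ⁅y, z⁆ ∈ (T : Subgroup G).normalCore)
    (h3 : ∀ y ∈ E, y ^ 3 ∈ (T : Subgroup G).normalCore) {x : G} (hx : x ∈ E)
    (hxQ : x ∉ (T : Subgroup G).normalCore) :
    ∃ P C : Subgroup G, x ∉ P ∧ Wit (T : Subgroup G).normalCore E P C := by
  have : Fact q.Prime := ⟨hq⟩
  have : Fact (Nat.Prime 3) := ⟨Nat.prime_three⟩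
  have hQT := (T : Subgroup G).normalCore_le
  have hTY : (T : Subgroup G) ≤ Stab (T : Subgroup G).normalCore θ := fun t ht y hy => by
    have h1 := hθ _ (mul_mem (mul_mem ht (hQT hy)) (inv_mem ht)) t ht
    rw [inv_mul_cancel_right, hθ t ht y (hQT hy), mul_comm (θ t)] at h1
    exact (mul_right_cancel h1).symm
  have hS3 : ¬ 3 ∣ Nat.card S := by
    obtain ⟨n, hn⟩ := IsPGroup.iff_card.1 hS
    rw [hn]
    exact fun c => hq3 ((Nat.prime_dvd_prime_iff_eq Nat.prime_three hq).1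
      (Nat.prime_three.dvd_of_dvd_pow c)).symm
  have hmv := fun h => @move_R5 G _ T S D _ T.isPGroup' h hD hTY hDS hT hST hY hmax
  have hng := fun i j => notGood (i := i) (j := j) (T.isPGroup'.to_le hQT)
    (θ := θ) fun y hy z hz => hθ y (hQT hy) z (hQT hz)
  have hQn := (T : Subgroup G).normalCore_normal
  generalize Stab (T : Subgroup G).normalCore θ = Y at *
  generalize (T : Subgroup G).normalCore = Q at *
  have hB3 : ¬ 3 ∣ Nat.card (S ⊓ Y : Subgroup G) := fun c =>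
    hS3 (c.trans (Subgroup.card_dvd_of_le inf_le_left))
  have hSQ : ∀ s ∈ S, s ∈ Q → s = 1 := fun s hs h =>
    Subgroup.disjoint_def.1 (IsPGroup.disjoint_of_ne q 3 hq3 S T hS T.isPGroup') hs (hQT h)
  have hDQ : ∀ d ∈ D, d ∈ Q → ∀ s ∈ S, Commute d s := fun d hd h s hs =>
    commutatorElement_eq_one_iff_commute.1 (hSQ _ (mul_mem (hDS d hd s hs) (inv_mem hs)) (by
      have h1 := mul_mem h (hQn.conj_mem _ (inv_mem h) s)
      rwa [← mul_assoc, ← mul_assoc] at h1))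
  have hSS : ⁅S, S⁆ ≤ Y := hmax _ S.commutator_le_self
    (comm_R5 hS fun c => hY (c ▸ bot_le)) fun d hd s hs => by
      have h1 : S.map (MulAut.conj d).toMonoidHom ≤ S := by
        rintro _ ⟨t, ht, rfl⟩
        exact hDS d hd t ht
      refine Subgroup.commutator_mono h1 h1 ?_
      rw [← Subgroup.map_commutator]
      exact ⟨s, hs, rfl⟩
  have hDB : ∀ d ∈ D, ∀ b ∈ S ⊓ Y, d * b * d⁻¹ ∈ S ⊓ Y := fun d hd b hb =>
    ⟨hDS d hd b hb.1, Y.mul_mem (Y.mul_mem (hTY (hD hd)) hb.2) (Y.inv_mem (hTY (hD hd)))⟩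
  obtain ⟨V, _, ρ, π, σ⟩ := exists_sect (D ⊓ E).subtype S (S ⊓ Y) inf_le_left
    (fun d => hDS d d.2.1) (fun d => hDB d d.2.1) fun y hy z hz =>
      ⟨S.commutator_le_self (Subgroup.commutator_mem_commutator hy hz),
        hSS (Subgroup.commutator_mem_commutator hy hz)⟩
  have π1 : π 1 = 0 := (σ.ker 1 S.one_mem).2 (one_mem _)
  have πi : ∀ s ∈ S, π s⁻¹ = -π s := fun s hs => by
    rw [eq_neg_iff_add_eq_zero, ← σ.add _ (inv_mem hs) _ hs, inv_mul_cancel, π1]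
  have πp : ∀ s ∈ S, ∀ n : ℕ, π (s ^ n) = n • π s := fun s hs n => by
    induction n with
    | zero => simpa using π1
    | succ n ih => rw [pow_succ, σ.add _ (pow_mem hs n) _ hs, ih, succ_nsmul]
  have key : ∀ d : (D ⊓ E : Subgroup G), ∀ s ∈ S, ρ d (π s) = π s ↔ s * d * s⁻¹ ∈ Y :=
    fun d s hs => by
      have h1 := hDS d d.2.1 s hs
      have h2 := σ.ker _ (mul_mem h1 (inv_mem hs))
      rw [σ.add _ h1 _ (inv_mem hs), πi s hs, add_neg_eq_zero] at h2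
      rw [← σ.conj d s hs, ← iff_R5 (hTY (hD d.2.1))]
      exact h2.trans (and_iff_right (S.mul_mem h1 (S.inv_mem hs)))
  have ρ1 : ∀ d : (D ⊓ E : Subgroup G), (d : G) ∈ Q → ρ d = 1 := fun d hd => by
    ext v
    obtain ⟨s, hs, rfl⟩ := σ.surj v
    exact (key d s hs).2 (hTY (hQT (hQn.conj_mem _ hd s)))
  obtain ⟨r, hr, a, ha, rfl⟩ := hT x (hET hx)
  have haE : a ∈ E := (E.mul_mem_cancel_left (hQE hr)).1 hx
  obtain ⟨v, hv, hi⟩ := idx ρ (fun v h => by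
      obtain ⟨s, hs, rfl⟩ := σ.surj v
      obtain ⟨k, hk⟩ := hS ⟨s, hs⟩
      have h1 := πp s hs (q ^ k)
      rw [show s ^ q ^ k = 1 from congrArg Subtype.val hk, π1] at h1
      have h2 := Nat.dvd_gcd (addOrderOf_dvd_of_nsmul_eq_zero h)
        (addOrderOf_dvd_of_nsmul_eq_zero h1.symm)
      rwa [((Nat.coprime_primes Nat.prime_three hq).2 hq3.symm).pow_right k, Nat.dvd_one,
        AddMonoid.addOrderOf_eq_one_iff] at h2)
    (fun y z => by
      have e : y * z = ⁅y, z⁆ * (z * y) := by rw [commutatorElement_def]; group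
      rw [e, map_mul, ρ1 _ (hc y y.2.2 z z.2.2), one_mul])
    (fun y => ρ1 _ (h3 y y.2.2)) ⟨a, ha, haE⟩ (by
      by_contra! c
      exact hxQ (mul_mem hr (hmv hB3 ha fun s hs => (key ⟨a, ha, haE⟩ s hs).1 (c _))))
  obtain ⟨s, hs, rfl⟩ := σ.surj v
  obtain ⟨b, hb, hf⟩ := fix_R5 (D := (D ⊓ E) ⊓ Y.comap (MulAut.conj s).toMonoidHom)
    (T.isPGroup'.to_le (inf_le_left.trans (inf_le_left.trans hD))) hB3
    (fun d hd => hDB d hd.1.1) (s := s) fun d hd =>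
      ⟨S.mul_mem (hDS d hd.1.1 s hs) (S.inv_mem hs), (iff_R5 (hTY (hD hd.1.1)) s).2 hd.2⟩
  have hg : b * s ∈ S := mul_mem hb.1 hs
  have hπ : π (b * s) = π s := by rw [σ.add b hb.1 s hs, (σ.ker b hb.1).2 hb, zero_add]
  generalize b * s = g at hf hg hπ
  let P : Subgroup G := E ⊓ (Subgroup.centralizer {(g : G ⧸ Q)}).comap (QuotientGroup.mk' Q)
  have m : ∀ y, y ∈ P ↔ y ∈ E ∧ ⁅g, y⁆ ∈ Q := fun y => and_congr_right fun _ => by
    rw [← QuotientGroup.eq_one_iff, ← QuotientGroup.mk'_apply Q ⁅g, y⁆, map_commutatorElement,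
      commutatorElement_eq_one_iff_mul_comm]
    exact Subgroup.mem_centralizer_singleton_iff.trans eq_comm
  have hQP : Q ≤ P := fun y hy => (m y).2 ⟨hQE hy, mul_mem (hQn.conj_mem y hy g) (inv_mem hy)⟩
  have hfP : ∀ d : (D ⊓ E : Subgroup G), ρ d (π s) = π s → (d : G) ∈ P := fun d hd =>
    (m d).2 ⟨d.2.2, by
      rw [commutatorElement_eq_one_iff_mul_comm.2
        (mul_inv_eq_iff_eq_mul.1 (hf d ⟨d.2, (key d s hs).1 hd⟩)).symm]
      exact one_mem _⟩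
  have haP : a ∉ P := fun c => by
    have h1 := hSQ _ (by
      have h2 := mul_mem hg (hDS a ha _ (inv_mem hg))
      rwa [← mul_assoc, ← mul_assoc] at h2) ((m a).1 c).2
    refine hv (hπ ▸ (key ⟨a, ha, haE⟩ g hg).2 ?_)
    rw [commutatorElement_eq_one_iff_mul_comm.1 h1, mul_inv_cancel_right]
    exact hTY (hD ha)
  have haS : ∀ t ∈ S, a⁻¹ * t * a ∈ S := fun t ht => by simpa using hDS _ (inv_mem ha) t ht
  have hiS : a⁻¹ * g⁻¹ * a * g ∈ S := mul_mem (haS _ (inv_mem hg)) hg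
  obtain ⟨C, hW⟩ := partC_amb hC hQP inf_le_left (T.isPGroup'.to_le hET) hS3 haE haP hg haS
    (h3 a haE) (fun t ht => hDQ _ (pow_mem ha 3) (h3 a haE) t ht) hc (fun y hy => by
      obtain ⟨r', hr', d, hd, rfl⟩ := hT y (hET hy)
      have h1 : ∀ z, z * d ∈ P → z * (r' * d) ∈ P := fun z hz => by
        have h2 := mul_mem (hQP (hQn.conj_mem r' hr' z)) hz
        convert h2 using 1
        group
      rcases hi ⟨d, hd, (E.mul_mem_cancel_left (hQE hr')).1 hy⟩ with h | h | h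
      exacts [.inl (mul_mem (hQP hr') (hfP _ h)), .inr (.inl (h1 _ (hfP _ h))),
        .inr (.inr (h1 _ (hfP _ h)))])
    (fun p hp => ((m p).1 hp).2) fun c => by
      have h1 := mul_mem (hTY (hD ha))
        (hng _ _ (hSS (Subgroup.commutator_mem_commutator hiS (haS _ hiS))) c)
      have h2 := (key ⟨a, ha, haE⟩ _ (inv_mem hg)).2 (by simpa [mul_assoc] using h1)
      rw [πi g hg, hπ, map_neg, neg_inj] at h2
      exact hv h2
  exact ⟨P, C, fun c => haP ((P.mul_mem_cancel_left (hQP hr)).1 c), hW⟩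

end Pool.Agent.MP_a5588a_al.Solv

end

section

namespace Pool.Agent.MP_a5588a_al.Solv

open scoped commutatorElement

variable {G A : Type*} [Group G] [Finite G] [CommGroup A]

omit [Finite G] in
theorem MulOn.conj_R012 {L : Subgroup G} {φ : G → A} (h : MulOn L φ) {x y : G} (hx : x ∈ L)
    (hy : y ∈ L) : φ (x * y * x⁻¹) = φ y := by
  have e := h _ (L.mul_mem (L.mul_mem hx hy) (L.inv_mem hx)) x hx
  rw [inv_mul_cancel_right, h x hx y hy, mul_comm] at e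
  exact (mul_right_cancel e).symm

theorem ext_of_FI (T : Sylow 3 G) {θ : G → A} (hθ : MulOn (T : Subgroup G) θ) {L : Subgroup G}
    (hTL : (T : Subgroup G) ≤ L) (h : FI (T : Subgroup G) θ L) :
    ∃ φ : G → A, MulOn L φ ∧ (∀ x ∈ (T : Subgroup G), φ x = θ x) ∧
      ∀ x ∈ L, ∃ n : ℕ, φ x ^ 3 ^ n = 1 := by
  classical
  have : Fact (Nat.Prime 3) := ⟨Nat.prime_three⟩
  set H : Subgroup L := (T : Subgroup G).subgroupOf L with hH
  let η : H →* A := MonoidHom.mk' (fun x => θ x.1.1) fun x y => hθ _ x.2 _ y.2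
  have hi : ¬ 3 ∣ H.index := (T.subtype hTL).not_dvd_index
  obtain ⟨n, hn⟩ := IsPGroup.iff_card.1 (T.subtype hTL).2
  have hn' : Nat.card H = 3 ^ n := hn
  have h3 : ∀ y : H, η y ^ 3 ^ n = 1 := fun y => by rw [← map_pow, ← hn', pow_card_eq_one', map_one]
  have hV : ∀ x : H, η.transfer x = η x ^ H.index := fun x => by
    have : Fintype (Quotient (MulAction.orbitRel (Subgroup.zpowers (x : L)) (L ⧸ H))) :=
      Fintype.ofFinite _
    rw [Subgroup.index_eq_sum_minimalPeriod H x, ← Finset.prod_pow_eq_pow_sum,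
      MonoidHom.transfer_eq_prod_quotient_orbitRel_zpowers_quot]
    refine Finset.prod_congr rfl fun q _ => ?_
    rw [← map_pow]
    have := h (q.out.out⁻¹ : L) (q.out.out⁻¹ : L).2 _
      (x ^ Function.minimalPeriod ((x : L) • ·) q.out).2
    rw [Subgroup.coe_inv, inv_inv] at this
    exact this (QuotientGroup.out_conj_pow_minimalPeriod_mem H x q.out)
  have hW : ∀ x : L, η.transfer x ^ 3 ^ n = 1 := fun x => by
    have : Fintype (Quotient (MulAction.orbitRel (Subgroup.zpowers x) (L ⧸ H))) :=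
      Fintype.ofFinite _
    rw [MonoidHom.transfer_eq_prod_quotient_orbitRel_zpowers_quot, ← Finset.prod_pow]
    exact Finset.prod_eq_one fun q _ => h3 _
  have hc : Nat.Coprime H.index (3 ^ n) :=
    Nat.Coprime.pow_right n ((Nat.prime_three.coprime_iff_not_dvd.2 hi).symm)
  obtain ⟨e, he⟩ : ∃ e, H.index * e ≡ 1 [MOD 3 ^ n] :=
    ⟨H.index ^ (Nat.totient (3 ^ n) - 1), by
      rw [← pow_succ', Nat.sub_add_cancel (Nat.totient_pos.2 (by positivity))]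
      exact Nat.ModEq.pow_totient hc⟩
  refine ⟨fun g => if hg : g ∈ L then η.transfer ⟨g, hg⟩ ^ e else 1, fun x hx y hy => ?_,
    fun x hx => ?_, fun x hx => ⟨n, ?_⟩⟩
  · simp only [dif_pos hx, dif_pos hy, dif_pos (L.mul_mem hx hy), ← mul_pow, ← map_mul]
    rfl
  · have := hV ⟨⟨x, hTL hx⟩, hx⟩
    simp only [dif_pos (hTL hx)]
    rw [this, ← pow_mul, pow_eq_pow_of_modEq he (h3 _), pow_one]
    rfl
  · simp only [dif_pos hx]
    rw [← pow_mul, mul_comm, pow_mul, hW, one_pow]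

theorem uniq {L R : Subgroup G} (hR : R ≤ L) (hc : ¬ 3 ∣ R.relIndex L) {φ ψ : G → A}
    (hφ : MulOn L φ) (hψ : MulOn L ψ) (h₁ : ∀ x ∈ L, ∃ n : ℕ, φ x ^ 3 ^ n = 1)
    (h₂ : ∀ x ∈ L, ∃ n : ℕ, ψ x ^ 3 ^ n = 1) (h : ∀ x ∈ R, φ x = ψ x) : ∀ x ∈ L, φ x = ψ x := by
  intro x hx
  let δ : L →* A := MonoidHom.mk' (fun y => φ y / ψ y) fun y z => by
    rw [Subgroup.coe_mul, hφ _ y.2 _ z.2, hψ _ y.2 _ z.2, mul_div_mul_comm]
  have hk : R.subgroupOf L ≤ δ.ker := fun y hy => div_eq_one.2 (h _ hy)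
  have e1 : (φ x / ψ x) ^ δ.ker.index = 1 :=
    (map_pow δ ⟨x, hx⟩ _).symm.trans (MonoidHom.mem_ker.1 (δ.ker.pow_index_mem ⟨x, hx⟩))
  obtain ⟨a, ha⟩ := h₁ x hx
  obtain ⟨b, hb⟩ := h₂ x hx
  have e2 : (φ x / ψ x) ^ 3 ^ (a + b) = 1 := by
    rw [div_pow, pow_add, pow_mul, ha, one_pow, mul_comm, pow_mul, hb, one_pow, div_one]
  have hi : Nat.Coprime δ.ker.index (3 ^ (a + b)) := Nat.Coprime.pow_right _
    (Nat.prime_three.coprime_iff_not_dvd.2 fun c => hc (c.trans (Subgroup.index_dvd_of_le hk))).symm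
  exact div_eq_one.1 ((pow_eq_one_iff_of_coprime hi).1 ⟨e1, e2⟩)

/-- A normal 3-subgroup, or a Sylow intersection, has index prime to 3. -/
theorem relIndex_inf (T : Sylow 3 G) (N : Subgroup G) [N.Normal] :
    ¬ 3 ∣ ((T : Subgroup G) ⊓ N).relIndex N := by
  have : Fact (Nat.Prime 3) := ⟨Nat.prime_three⟩
  have e1 := Subgroup.relIndex_mul_relIndex ((T : Subgroup G) ⊓ N) N ((T : Subgroup G) ⊔ N)
    inf_le_right le_sup_right
  have e2 := Subgroup.relIndex_mul_relIndex ((T : Subgroup G) ⊓ N) T ((T : Subgroup G) ⊔ N)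
    inf_le_left le_sup_left
  rw [Subgroup.relIndex_sup_right] at e1
  rw [Subgroup.inf_relIndex_left, ← e1, mul_comm] at e2
  have e3 := Nat.eq_of_mul_eq_mul_right
    (Nat.pos_of_ne_zero (Subgroup.index_ne_zero_of_finite (H := N.subgroupOf T))) e2
  rw [← e3]
  exact fun c => T.not_dvd_index (c.trans (Subgroup.relIndex_dvd_index_of_le le_sup_left))

theorem frattini_FI (T : Sylow 3 G) {θ : G → A} (hθ : MulOn (T : Subgroup G) θ) (N : Subgroup G)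
    [N.Normal] (h₁ : FI (T : Subgroup G) θ (N ⊔ T))
    (h₂ : FI (T : Subgroup G) θ
      (Subgroup.normalizer (((T : Subgroup G) ⊓ N : Subgroup G) : Set G))) :
    FI (T : Subgroup G) θ ⊤ := by
  have : Fact (Nat.Prime 3) := ⟨Nat.prime_three⟩
  set M := Subgroup.normalizer (((T : Subgroup G) ⊓ N : Subgroup G) : Set G) with hM
  have hTM : (T : Subgroup G) ≤ M := fun t ht => Subgroup.mem_normalizer_fintype fun x hx =>
    ⟨T.1.mul_mem (T.1.mul_mem ht hx.1) (T.1.inv_mem ht), Subgroup.Normal.conj_mem ‹_› x hx.2 t⟩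
  obtain ⟨φ, a1, a2, a3⟩ := ext_of_FI T hθ le_sup_right h₁
  obtain ⟨ψ, b1, b2, b3⟩ := ext_of_FI T hθ hTM h₂
  have hle : (T : Subgroup G) ≤ (N ⊔ T) ⊓ M := le_inf le_sup_right hTM
  have hu := uniq hle (fun c => T.not_dvd_index (c.trans (Subgroup.relIndex_dvd_index_of_le hle)))
    (fun x hx y hy => a1 x hx.1 y hy.1) (fun x hx y hy => b1 x hx.2 y hy.2)
    (fun x hx => a3 x hx.1) (fun x hx => b3 x hx.2) fun x hx => (a2 x hx).trans (b2 x hx).symm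
  have hp : IsPGroup 3 (((T : Subgroup G) ⊓ N).subgroupOf N) :=
    (T.2.to_inf_left (K := N)).comap_subtype
  have hF := Sylow.normalizer_sup_eq_top (hp.toSylow (relIndex_inf T N))
  rw [IsPGroup.toSylow_coe, Subgroup.map_subgroupOf_eq_of_le inf_le_right, ← hM, sup_comm] at hF
  intro g hg s hs ht
  obtain ⟨n, hn, m, hm, rfl⟩ := Subgroup.mem_sup_of_normal_left.1 (hF.ge hg)
  have hn' : n ∈ N ⊔ (T : Subgroup G) := Subgroup.mem_sup_left hn
  have e : m * s * m⁻¹ = n⁻¹ * (n * m * s * (n * m)⁻¹) * n⁻¹⁻¹ := by group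
  have h1 : m * s * m⁻¹ ∈ N ⊔ (T : Subgroup G) := by
    rw [e]
    exact mul_mem (mul_mem (inv_mem hn') (Subgroup.mem_sup_right ht)) (inv_mem (inv_mem hn'))
  rw [← a2 _ ht, ← a1.conj_R012 (inv_mem hn') (Subgroup.mem_sup_right ht), ← e,
    hu _ ⟨h1, M.mul_mem (M.mul_mem hm (hTM hs)) (M.inv_mem hm)⟩, b1.conj_R012 hm (hTM hs), b2 s hs]

end Pool.Agent.MP_a5588a_al.Solv

end

section

namespace Pool.Agent.MP_a5588a_al.Solv

open scoped commutatorElement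

variable {G A : Type*} [Group G] [Finite G] [CommGroup A]

omit [Finite G] in
theorem hom_R34 {T : Subgroup G} {θ : G → A} (hθ : MulOn T θ) :
    θ 1 = 1 ∧ (∀ x ∈ T, θ x⁻¹ = (θ x)⁻¹) ∧ (∀ x ∈ T, ∀ n : ℕ, θ (x ^ n) = θ x ^ n) ∧
      ∀ t ∈ T, ∀ x ∈ T, θ (t * x * t⁻¹) = θ x := by
  have h1 : θ 1 = 1 := by simpa using hθ 1 T.one_mem 1 T.one_mem
  have h2 : ∀ x ∈ T, θ x⁻¹ = (θ x)⁻¹ := fun x hx =>
    eq_inv_of_mul_eq_one_left (by rw [← hθ _ (T.inv_mem hx) _ hx, inv_mul_cancel, h1])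
  refine ⟨h1, h2, fun x hx n => ?_, fun t ht x hx => ?_⟩
  · induction n with
    | zero => simpa using h1
    | succ n ih => rw [pow_succ, hθ _ (T.pow_mem hx n) _ hx, ih, pow_succ]
  · rw [hθ _ (T.mul_mem ht hx) _ (T.inv_mem ht), hθ _ ht _ hx, h2 t ht, mul_inv_cancel_comm]

theorem r3 (hG : Solv3 G) (T : Sylow 3 G) {θ : G → A} (hθ : MulOn (T : Subgroup G) θ)
    (hprop : ∀ L : Subgroup G, (T : Subgroup G) ≤ L → L ≠ ⊤ → FI (T : Subgroup G) θ L)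
    (hG' : ¬ FI (T : Subgroup G) θ ⊤) :
    ∃ N : Subgroup G, N.Normal ∧ N ⊔ T = ⊤ ∧ ((T : Subgroup G) ⊓ N).Normal := by
  classical
  have dich : ∀ M : Subgroup G, M.Normal → M ⊔ T ≠ ⊤ → ((T : Subgroup G) ⊓ M).Normal := by
    intro M hM h
    by_contra hn
    refine hG' (frattini_FI T hθ M (hprop _ le_sup_right h) (hprop _ (fun t ht => ?_)
      fun e => hn (Subgroup.normalizer_eq_top_iff.1 e)))
    rw [Subgroup.mem_normalizer_iff]
    refine fun x => ⟨fun hx => Subgroup.mem_inf.2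
      ⟨mul_mem (mul_mem ht hx.1) (inv_mem ht), hM.conj_mem x hx.2 t⟩,
      fun hx => Subgroup.mem_inf.2 ⟨?_, ?_⟩⟩
    · simpa only [mul_assoc, inv_mul_cancel_left, inv_mul_cancel, mul_one] using
        mul_mem (mul_mem (inv_mem ht) (Subgroup.mem_inf.1 hx).1) ht
    · simpa [mul_assoc] using hM.conj_mem _ hx.2 t⁻¹
  obtain ⟨n, s, h0, hn, hs, hstep⟩ := hG
  obtain ⟨N, ⟨hN, hNT⟩, hmin⟩ := WellFoundedLT.exists_minimal (α := Subgroup G) inferInstance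
    {N : Subgroup G | N.Normal ∧ N ⊔ T = ⊤} ⟨⊤, inferInstance, top_sup_eq _⟩
  refine ⟨N, hN, hNT, ?_⟩
  have hex : ∃ i, N ≤ s i := ⟨n, hn ▸ le_top⟩
  have hi := Nat.find_spec hex
  rcases hj : Nat.find hex with _ | j
  · rw [hj, h0, le_bot_iff] at hi
    rw [hi, inf_bot_eq]
    infer_instance
  have hlt : ¬ N ≤ s j := Nat.find_min hex (by omega)
  rw [hj] at hi
  have := hs j
  have hM : N ⊓ s j ⊔ T ≠ ⊤ := fun e =>
    hlt ((hmin ⟨inferInstance, e⟩ inf_le_left).trans inf_le_right)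
  rcases hstep j with h | h
  · refine absurd (top_le_iff.1 (hNT.ge.trans (sup_le ?_ le_sup_right))) hM
    have h1 : IsPGroup 3 (N.map (QuotientGroup.mk' (N ⊓ s j))) := by
      rintro ⟨_, x, hx, rfl⟩
      obtain ⟨k, hk⟩ := h x (hi hx)
      refine ⟨k, Subtype.ext ?_⟩
      change QuotientGroup.mk' (N ⊓ s j) x ^ 3 ^ k = 1
      rw [← map_pow, QuotientGroup.mk'_apply, QuotientGroup.eq_one_iff]
      exact ⟨pow_mem hx _, hk⟩
    have h2 := hN.map _ (QuotientGroup.mk'_surjective (N ⊓ s j))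
    have h3 := h1.le_sylow_of_normal (T.mapSurjective (QuotientGroup.mk'_surjective (N ⊓ s j)))
    rw [Sylow.coe_mapSurjective, Subgroup.map_le_iff_le_comap, Subgroup.comap_map_eq,
      QuotientGroup.ker_mk', sup_comm] at h3
    exact h3
  · have e : (T : Subgroup G) ⊓ N = (T : Subgroup G) ⊓ (N ⊓ s j) := by
      refine le_antisymm (fun x hx => ⟨hx.1, hx.2, ?_⟩) (inf_le_inf_left _ inf_le_left)
      obtain ⟨m, hm, hxm⟩ := h x (hi hx.2)
      obtain ⟨k, hk⟩ := T.isPGroup' ⟨x, hx.1⟩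
      have h1 : x ^ 3 ^ k ∈ s j := by
        have : x ^ 3 ^ k = 1 := congrArg Subtype.val hk
        rw [this]; exact one_mem _
      have h2 : Nat.gcd m (3 ^ k) = 1 :=
        Nat.Coprime.pow_right k ((Nat.prime_three.coprime_iff_not_dvd.2 hm).symm)
      rw [← QuotientGroup.eq_one_iff, QuotientGroup.mk_pow] at h1 hxm
      have h3 := pow_gcd_eq_one.2 ⟨hxm, h1⟩
      rwa [h2, pow_one, QuotientGroup.eq_one_iff] at h3
    rw [e]
    exact dich _ inferInstance hM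

/-- a Sylow subgroup of `N` whose normalizer in `T` covers `T` modulo `N` -/
theorem syl_R34 (T : Sylow 3 G) {N : Subgroup G} [hn : N.Normal] (hN : N ⊔ T = ⊤) (q : ℕ)
    [Fact q.Prime] : ∃ S : Subgroup G, IsPGroup q S ∧ S ≤ N ∧ ¬ q ∣ S.relIndex N ∧
      ∀ x ∈ (T : Subgroup G), ∃ d ∈ (T : Subgroup G), (∀ s ∈ S, d * s * d⁻¹ ∈ S) ∧
        x * d⁻¹ ∈ N := by
  obtain ⟨P⟩ : Nonempty (Sylow q N) := inferInstance
  have hH := P.normalizer_sup_eq_top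
  obtain ⟨H, eH⟩ : ∃ H : Subgroup G, H = Subgroup.normalizer (P.map N.subtype : Set G) := ⟨_, rfl⟩
  have sj : ∀ K : Subgroup G, K ⊔ N = ⊤ →
      Function.Surjective ((QuotientGroup.mk' N).comp K.subtype) := fun K hK x => by
    obtain ⟨x, rfl⟩ := QuotientGroup.mk_surjective x
    obtain ⟨y, hy, z, hz, rfl⟩ := Subgroup.mem_sup_of_normal_right.1 (hK.ge (Subgroup.mem_top x))
    exact ⟨⟨y, hy⟩, QuotientGroup.eq.2 (by simpa using hz)⟩
  have h3 : IsPGroup 3 (G ⧸ N) := T.isPGroup'.of_surjective _ (sj _ (sup_comm N T ▸ hN))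
  obtain ⟨D⟩ : Nonempty (Sylow 3 H) := inferInstance
  have hs := sj H (eH ▸ hH)
  have hD := (D.mapSurjective hs).is_maximal' (h3.to_subgroup ⊤) le_top
  obtain ⟨T', hT'⟩ := (D.isPGroup'.map H.subtype).exists_le_sylow
  obtain ⟨g, hg⟩ := MulAction.exists_smul_eq G T' T
  refine ⟨(P.map N.subtype).map (MulAut.conj g), (P.isPGroup'.map _).map _, ?_, ?_, fun x hx => ?_⟩
  · rintro _ ⟨y, ⟨z, -, rfl⟩, rfl⟩
    exact hn.conj_mem _ z.2 g
  · have e := Subgroup.relIndex_map_map_of_injective (f := (MulAut.conj g : G →* G))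
      (P.map N.subtype) N (MulAut.conj g).injective
    rw [Subgroup.Normal.map_conj_eq N] at e
    rw [e, Subgroup.relIndex, Subgroup.subgroupOf,
      Subgroup.comap_map_eq_self_of_injective N.subtype_injective]
    exact P.not_dvd_index
  · obtain ⟨d, hd, e⟩ := hD.le (Subgroup.mem_top (QuotientGroup.mk (g⁻¹ * x * g) : G ⧸ N))
    have e' : (d : G)⁻¹ * (g⁻¹ * x * g) ∈ N := QuotientGroup.eq.1 e
    refine ⟨g * d * g⁻¹, ?_, ?_, ?_⟩
    · rw [← hg]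
      exact Subgroup.smul_mem_pointwise_smul _ (MulAut.conj g) _ (hT' ⟨d, hd, rfl⟩)
    · rintro _ ⟨y, hy, rfl⟩
      refine ⟨d * y * (d : G)⁻¹, (Subgroup.mem_set_normalizer_iff.1 (eH ▸ d.2) y).1 hy, ?_⟩
      simp [mul_assoc]
    · simpa [mul_assoc] using hn.conj_mem _ e' (g * d)

/-- if `N` preserves `θ` on `T ⊓ N`, then `θ` is invariant under fusion -/
theorem top_R34 (T : Sylow 3 G) {θ : G → A} (hθ : MulOn (T : Subgroup G) θ) {N : Subgroup G}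
    [hn : N.Normal] (hN : N ⊔ T = ⊤) (hR : ((T : Subgroup G) ⊓ N).Normal)
    (h : ∀ n ∈ N, ∀ x ∈ (T : Subgroup G) ⊓ N, θ (n * x * n⁻¹) = θ x) :
    FI (T : Subgroup G) θ ⊤ := by
  obtain ⟨h1, h2, h3, h4⟩ := hom_R34 hθ
  have key : ∀ s ∈ (T : Subgroup G), ∀ n ∈ N, n * s * n⁻¹ * s⁻¹ ∈ (T : Subgroup G) ⊓ N →
      θ (n * s * n⁻¹ * s⁻¹) = 1 := by
    intro s hs n hnN hc
    have em : ∀ a b : G, a * b * s * (a * b)⁻¹ * s⁻¹ =
        a * (b * s * b⁻¹ * s⁻¹) * a⁻¹ * (a * s * a⁻¹ * s⁻¹) := fun a b => by group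
    let L : Subgroup G :=
      { carrier := {a | a ∈ N ∧ a * s * a⁻¹ * s⁻¹ ∈ (T : Subgroup G) ⊓ N}
        one_mem' := ⟨one_mem _, by simp⟩
        mul_mem' := fun {a b} ha hb =>
          ⟨mul_mem ha.1 hb.1, em a b ▸ mul_mem (hR.conj_mem _ hb.2 a) ha.2⟩
        inv_mem' := fun {a} ha => ⟨inv_mem ha.1, by
          simpa [mul_assoc] using hR.conj_mem _ (inv_mem ha.2) a⁻¹⟩ }
    have hRL : (T : Subgroup G) ⊓ N ≤ L := fun r hr =>
      ⟨hr.2, by simpa [mul_assoc] using mul_mem hr (hR.conj_mem _ (inv_mem hr) s)⟩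
    refine uniq (φ := fun a => θ (a * s * a⁻¹ * s⁻¹)) (ψ := fun _ => 1) hRL (fun e => ?_)
      (fun a ha b hb => ?_) (fun _ _ _ _ => (one_mul 1).symm) (fun a ha => ?_)
      (fun _ _ => ⟨0, one_pow _⟩) (fun r hr => ?_) n ⟨hnN, hc⟩
    · exact relIndex_inf T N (Subgroup.relIndex_mul_relIndex _ _ _ hRL (fun a ha => ha.1) ▸
        e.mul_right _)
    · simp only
      rw [em, hθ _ (hR.conj_mem _ hb.2 a).1 _ ha.2.1, h a ha.1 _ hb.2, mul_comm]
    · obtain ⟨k, hk⟩ := T.isPGroup' ⟨_, ha.2.1⟩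
      have : (a * s * a⁻¹ * s⁻¹) ^ 3 ^ k = 1 := congrArg Subtype.val hk
      exact ⟨k, by rw [← h3 _ ha.2.1, this, h1]⟩
    · rw [hθ _ (mul_mem (mul_mem hr.1 hs) (inv_mem hr.1)) _ (inv_mem hs), h4 r hr.1 s hs, h2 s hs,
        mul_inv_cancel]
  intro g _ s hs hc
  obtain ⟨n, hnN, t, ht, rfl⟩ := Subgroup.mem_sup_of_normal_left.1 (hN.ge (Subgroup.mem_top g))
  have hs' : t * s * t⁻¹ ∈ (T : Subgroup G) := mul_mem (mul_mem ht hs) (inv_mem ht)
  have e : n * t * s * (n * t)⁻¹ = n * (t * s * t⁻¹) * n⁻¹ := by group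
  rw [e] at hc ⊢
  have h5 := key _ hs' n hnN (Subgroup.mem_inf.2 ⟨mul_mem hc (inv_mem hs'), by
    simpa only [mul_assoc] using mul_mem hnN (hn.conj_mem _ (inv_mem hnN) (t * s * t⁻¹))⟩)
  rw [hθ _ hc _ (inv_mem hs'), h2 _ hs', mul_inv_eq_one] at h5
  rw [h5, h4 t ht s hs]

theorem r4 (T : Sylow 3 G) {θ : G → A} (hθ : MulOn (T : Subgroup G) θ)
    (hprop : ∀ L : Subgroup G, (T : Subgroup G) ≤ L → L ≠ ⊤ → FI (T : Subgroup G) θ L)
    (hG' : ¬ FI (T : Subgroup G) θ ⊤) {N : Subgroup G} [N.Normal] (hN : N ⊔ T = ⊤)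
    (hR : ((T : Subgroup G) ⊓ N).Normal) :
    ∃ (q : ℕ) (S D : Subgroup G), q.Prime ∧ q ≠ 3 ∧ IsPGroup q S ∧ D ≤ T ∧
      (∀ d ∈ D, ∀ s ∈ S, d * s * d⁻¹ ∈ S) ∧
      (∀ x ∈ (T : Subgroup G), ∃ r ∈ (T : Subgroup G).normalCore, ∃ d ∈ D, x = r * d) ∧
      S ⊔ T = ⊤ ∧ ¬ S ≤ Stab (T : Subgroup G).normalCore θ ∧
      ∀ S' : Subgroup G, S' ≤ S → S' ≠ S → (∀ d ∈ D, ∀ s ∈ S', d * s * d⁻¹ ∈ S') →
        S' ≤ Stab (T : Subgroup G).normalCore θ := by
  have hQ := (T : Subgroup G).normalCore_le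
  have nQ : (T : Subgroup G).normalCore.Normal := inferInstance
  have hRQ : (T : Subgroup G) ⊓ N ≤ (T : Subgroup G).normalCore :=
    Subgroup.normal_le_normalCore.2 inf_le_left
  have lemA : ∀ X : Subgroup G, X ⊔ T ≠ ⊤ → X ≤ Stab (T : Subgroup G).normalCore θ :=
    fun X hX s hs x hx => hprop _ le_sup_right hX s (Subgroup.mem_sup_left hs) x (hQ hx)
      (hQ (nQ.conj_mem x hx s))
  have hNS : ¬ N ≤ Stab (T : Subgroup G).normalCore θ := fun h =>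
    hG' (top_R34 T hθ hN hR fun n hn x hx => h hn x (hRQ hx))
  rw [← Subgroup.relIndex_eq_one] at hNS
  obtain ⟨q, hq, hd⟩ := Nat.exists_prime_and_dvd hNS
  have hq3 : q ≠ 3 := by
    rintro rfl
    exact relIndex_inf T N (hd.trans (Subgroup.relIndex_dvd_of_le_left N fun t ht x hx =>
      (hom_R34 hθ).2.2.2 t ht.1 x (hQ hx)))
  have : Fact q.Prime := ⟨hq⟩
  obtain ⟨S, hS, hSN, hi, hc⟩ := syl_R34 T hN q
  have hS' : ¬ S ≤ Stab (T : Subgroup G).normalCore θ := fun h =>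
    hi (hd.trans (Subgroup.relIndex_dvd_of_le_left N h))
  have hdec : ∀ x ∈ (T : Subgroup G), ∃ r ∈ (T : Subgroup G).normalCore,
      ∃ d ∈ (T : Subgroup G) ⊓ Subgroup.normalizer (S : Set G), x = r * d := fun x hx => by
    obtain ⟨d, h1, h2, h3⟩ := hc x hx
    exact ⟨x * d⁻¹, hRQ (Subgroup.mem_inf.2 ⟨mul_mem hx (inv_mem h1), h3⟩), d,
      ⟨h1, Subgroup.mem_normalizer_fintype h2⟩, by simp⟩
  refine ⟨q, S, T ⊓ Subgroup.normalizer (S : Set G), hq, hq3, hS, inf_le_left,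
    fun d h s hs => (Subgroup.mem_normalizer_iff.1 h.2 s).1 hs, hdec,
    by_contra fun h => hS' (lemA S h), hS', fun S' h1 h2 h3 => lemA S' fun e => h2 ?_⟩
  have sw : ∀ t ∈ (T : Subgroup G), ∀ s ∈ S', ∃ a ∈ S', ∃ b ∈ (T : Subgroup G), a * b = t * s := by
    intro t ht s hs
    obtain ⟨r, hr, d, hd, rfl⟩ := hdec t ht
    exact ⟨_, h3 d hd s hs, _, mul_mem (hQ (nQ.conj_mem r hr (d * s * d⁻¹)⁻¹)) hd.1, by group⟩
  let L : Subgroup G :=
    { carrier := {x | ∃ a ∈ S', ∃ b ∈ (T : Subgroup G), a * b = x}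
      one_mem' := ⟨1, one_mem _, 1, one_mem _, one_mul 1⟩
      mul_mem' := by
        rintro _ _ ⟨a, ha, b, hb, rfl⟩ ⟨c, hc, d, hd, rfl⟩
        obtain ⟨u, hu, v, hv, e⟩ := sw b hb c hc
        exact ⟨_, mul_mem ha hu, _, mul_mem hv hd, by
          rw [mul_assoc, ← mul_assoc u, e, mul_assoc, mul_assoc]⟩
      inv_mem' := by
        rintro _ ⟨a, ha, b, hb, rfl⟩
        rw [mul_inv_rev]
        exact sw _ (inv_mem hb) _ (inv_mem ha) }
  have hL : S' ⊔ T ≤ L := sup_le (fun a ha => ⟨a, ha, 1, one_mem _, mul_one a⟩)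
    fun b hb => ⟨1, one_mem _, b, hb, one_mul b⟩
  refine le_antisymm h1 fun s hs => ?_
  obtain ⟨a, ha, b, hb, rfl⟩ := hL (e.ge (Subgroup.mem_top s))
  have h4 : b = 1 := Subgroup.disjoint_def.1
    (IsPGroup.disjoint_of_ne q 3 hq3 _ _ hS T.isPGroup')
    (by simpa using mul_mem (inv_mem (h1 ha)) hs) hb
  rwa [h4, mul_one]

end Pool.Agent.MP_a5588a_al.Solv

end

section

namespace Pool.Agent.MP_a5588a_al.Solv

open scoped commutatorElement

universe u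

theorem Solv3.subgroup {G : Type*} [Group G] (h : Solv3 G) (L : Subgroup G) : Solv3 L := by
  obtain ⟨n, s, h0, h1, h2, h3⟩ := h
  refine ⟨n, fun i => (s i).subgroupOf L, by simp only [h0, Subgroup.bot_subgroupOf],
    by simp only [h1, Subgroup.top_subgroupOf], fun i => (h2 i).subgroupOf L, fun i => ?_⟩
  exact (h3 i).imp (fun h x hx => h x hx) fun h x hx => h x hx

theorem norm_R6 {T₀ G : Type*} [Group T₀] [Group G] {W : Subgroup T₀} (hW : PA W) {f : T₀ →* G}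
    (hf : Function.Injective f) {Q : Subgroup T₀} (hQ : CP Q) [(Q.map f).Normal] :
    (W.map f).Normal := by
  obtain ⟨h1, h2⟩ := hW Q hQ
  refine ⟨all_Amb.2 fun w hw g => ?_⟩
  let e := Subgroup.equivMapOfInjective Q f hf
  refine ⟨_, h2 ((e.trans (MulAut.conjNormal g)).trans e.symm) ⟨w, h1 hw⟩ hw, ?_⟩
  exact congrArg Subtype.val (e.apply_symm_apply (MulAut.conjNormal g (e ⟨w, h1 hw⟩)))

theorem r6 (hC : PartC.{u}) {T₀ A : Type*} [Group T₀] [CommGroup A] {W : Subgroup T₀}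
    (hW : PA W) (G : Type u) [Group G] [Finite G] (hG : Solv3 G) (T : Sylow 3 G) (f : T₀ →* G)
    (hf : Function.Injective f) (hT : f.range = T) {θ : G → A} (hθ : MulOn (T : Subgroup G) θ)
    (h : FI (T : Subgroup G) θ (Subgroup.normalizer ((W.map f : Subgroup G) : Set G))) :
    FI (T : Subgroup G) θ ⊤ := by
  induction hn : Nat.card G using Nat.strong_induction_on generalizing G with
  | _ n ih =>
  have hprop : ∀ L : Subgroup G, (T : Subgroup G) ≤ L → L ≠ ⊤ → FI (T : Subgroup G) θ L := by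
    intro L hL hL' g hg s hs hgs
    have hm : ∀ x, f x ∈ L := fun x => hL (hT ▸ ⟨x, rfl⟩)
    have e : (W.map (f.codRestrict L hm)).map L.subtype = W.map f := by
      rw [Subgroup.map_map]
      rfl
    refine ih (Nat.card L) (hn ▸ not_le.1 fun c => hL' (L.eq_top_of_le_card c)) L (hG.subgroup L)
      (T.subtype hL) (f.codRestrict L hm) (fun x y c => hf (congrArg Subtype.val c)) ?_
      (θ := fun x => θ x) (fun x hx y hy => hθ x hx y hy) (fun g hg s hs hgs => h g ?_ s hs hgs) rfl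
      ⟨g, hg⟩ trivial ⟨s, hL hs⟩ hs hgs
    · ext x
      rw [Sylow.coe_subtype, Subgroup.mem_subgroupOf, ← hT]
      exact ⟨fun ⟨y, c⟩ => ⟨y, congrArg Subtype.val c⟩, fun ⟨y, c⟩ => ⟨y, Subtype.ext c⟩⟩
    · exact e ▸ Subgroup.le_normalizer_map L.subtype ⟨g, hg, rfl⟩
  by_contra hG'
  obtain ⟨N, _, hN, hR⟩ := r3 hG T hθ hprop hG'
  obtain ⟨q, S, D, hq, hq3, hS, hD, hDS, hTD, hST, hY, hmax⟩ := r4 T hθ hprop hG' hN hR
  have mc : ∀ K : Subgroup G, K ≤ T → (K.comap f).map f = K := fun K hK =>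
    Subgroup.map_comap_eq_self (hT ▸ hK)
  have mQ := mc _ (T : Subgroup G).normalCore_le
  have hCP : CP ((T : Subgroup G).normalCore.comap f) := by
    refine ⟨inferInstance, fun E h1 h2 h3 x hx hxQ => ?_⟩
    have hE : E.map f ≤ T := hT ▸ Subgroup.map_le_range f E
    obtain ⟨P, C, hP, hw⟩ := r5 hC T hθ hq hq3 hS hD hDS hTD hST hY hmax (E := E.map f)
      (mQ ▸ Subgroup.map_mono h1) hE
      (all_Amb.2 fun y hy => all_Amb.2 fun z hz => map_commutatorElement f y z ▸ h2 y hy z hz)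
      (all_Amb.2 fun y hy => map_pow f y 3 ▸ h3 y hy) ⟨x, hx, rfl⟩ hxQ
    refine ⟨P.comap f, C.comap f, hP, (wit_map_Amb hf).1 ?_⟩
    rwa [mQ, mc P (hw.PE.trans hE), mc C (hw.CQ.trans (T : Subgroup G).normalCore_le)]
  have : (((T : Subgroup G).normalCore.comap f).map f).Normal := mQ.symm ▸ inferInstance
  have := norm_R6 hW hf hCP
  rw [Subgroup.normalizer_eq_top] at h
  exact hG' h

end Pool.Agent.MP_a5588a_al.Solv

end

section

namespace Pool.Agent.MP_a5588a_al.Solv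

open scoped commutatorElement

variable {T Γ : Type*} [Group T] [Group Γ]

theorem id_conf1 {z a b r s u v c : T} (h0 : ⁅a, b⁆ = c * z) (h1 : z * a * z⁻¹ = r * a)
    (h2 : z * b * z⁻¹ = s * b) (h3 : a * s * a⁻¹ = u * s * u⁻¹) (h4 : b * r⁻¹ * b⁻¹ = v * r⁻¹ * v⁻¹)
    (h5 : Commute z r) (h6 : Commute z s) : ⁅z, c⁆ =
      r * ⁅u, s⁆ * r⁻¹ * ⁅r, s * c⁆ * (s * c * z * ⁅r, v⁆ * (s * c * z)⁻¹) * ⁅c, s⁆⁻¹ := by
  have e : z * ⁅a, b⁆ * z⁻¹ = r * (a * s * a⁻¹) * ⁅a, b⁆ * (b * r⁻¹ * b⁻¹) * s⁻¹ :=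
    calc _ = ⁅z * a * z⁻¹, z * b * z⁻¹⁆ := by simp only [commutatorElement_def]; group
      _ = _ := by rw [h1, h2]; simp only [commutatorElement_def]; group
  rw [h0, h3, h4] at e
  calc _ = z * (c * z) * z⁻¹ * z⁻¹ * c⁻¹ := by simp only [commutatorElement_def]; group
    _ = r * u * s * u⁻¹ * c * (z * r⁻¹) * ⁅r, v⁆ * (s⁻¹ * z⁻¹) * c⁻¹ := by
      rw [e]; simp only [commutatorElement_def]; group
    _ = _ := by
      rw [h5.inv_right.eq, ← h6.inv_inv.eq]; simp only [commutatorElement_def]; group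

theorem cl_conf1 {a b : T} (h : Commute a b) (ha : a ^ 3 = 1) (hb : b ^ 3 = 1) :
    (∀ y ∈ Subgroup.closure {a, b}, ∀ z ∈ Subgroup.closure {a, b}, Commute y z) ∧
      ∀ y ∈ Subgroup.closure {a, b}, y ^ 3 = 1 := by
  have c : ∀ y ∈ Subgroup.closure {a, b}, ∀ z ∈ Subgroup.closure {a, b}, Commute y z := by
    intro y hy z hz
    refine Subgroup.closure_induction₂ (p := fun y z _ _ => Commute y z) ?_
      (fun _ _ => .one_left _) (fun _ _ => .one_right _) (fun _ _ _ _ _ _ => .mul_left)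
      (fun _ _ _ _ _ _ => .mul_right) (fun _ _ _ _ => .inv_left) (fun _ _ _ _ => .inv_right) hy hz
    rintro _ _ (rfl | rfl) (rfl | rfl)
    exacts [.refl _, h, h.symm, .refl _]
  refine ⟨c, fun y hy => ?_⟩
  induction hy using Subgroup.closure_induction with
  | mem x hx => rcases hx with rfl | rfl <;> assumption
  | one => exact one_pow _
  | mul x y hx hy h1 h2 => rw [(c x hx y hy).mul_pow, h1, h2, one_mul]
  | inv x _ h1 => rw [inv_pow, h1, inv_one]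

theorem r_conf1 {C : Subgroup T} {y c : T} (hc : c ∈ C) (h : y * c * y⁻¹ ∈ C) : ⁅y, c⁆ ∈ C :=
  mul_mem h (inv_mem hc)

theorem l_conf1 {C : Subgroup T} {y c : T} (hc : c ∈ C) (h : y * c * y⁻¹ ∈ C) : ⁅c, y⁆ ∈ C :=
  commutatorElement_inv y c ▸ inv_mem (r_conf1 hc h)

/-- Step 1: two weak witnesses of `Q₂` commute modulo `Q₁`. -/
theorem conf1 {π₁ π₂ : Γ →* T} (i₁ : Function.Injective π₁) (i₂ : Function.Injective π₂)
    {Q₁ Q₂ : Subgroup T} (h₁ : CP Q₁) (n₂ : Q₂.Normal) (r₁ : UU Q₁ ≤ π₁.range)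
    {C₁ C₂ : Subgroup T} (w₁ : WW Q₂ C₁) (w₂ : WW Q₂ C₂) {x₁ x₂ : Γ} (hx₁ : π₂ x₁ ∈ C₁)
    (hx₂ : π₂ x₂ ∈ C₂) : π₁ ⁅x₁, x₂⁆ ∈ Q₁ := by
  have cm : ∀ {C : Subgroup T}, WW Q₂ C → ∀ {x a b : Γ}, π₂ x ∈ C → π₂ a ∈ C → π₂ b ∈ Q₂ →
      Commute (π₁ x) ⁅π₁ a, π₁ b⁆ := fun w x a b hx ha hb => by
    rw [← map_commutatorElement]
    refine (Commute.of_map i₂ ?_).map π₁
    rw [map_commutatorElement]
    exact w.cub _ hx _ (Subgroup.commutator_mem_commutator ha hb)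
  have cu : ∀ {x : Γ}, π₂ x ∈ C₁ → π₁ x ^ 3 = 1 := fun {x} hx => by
    rw [← map_pow, @i₂ (x ^ 3) 1 (by rw [map_pow, w₁.exp _ hx, map_one]), map_one]
  have z₁ : π₂ ⁅x₁, x₂⁆ ∈ C₁ :=
    map_commutatorElement π₂ _ _ ▸ l_conf1 hx₁ (w₁.norm _ (w₂.CQ hx₂) _ hx₁)
  have z₂ : π₂ ⁅x₁, x₂⁆ ∈ C₂ :=
    map_commutatorElement π₂ _ _ ▸ r_conf1 hx₂ (w₂.norm _ (w₁.CQ hx₁) _ hx₂)
  have c₁ : Commute (π₁ x₁) (π₁ ⁅x₁, x₂⁆) :=
    map_commutatorElement π₁ _ _ ▸ cm w₁ hx₁ hx₁ (w₂.CQ hx₂)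
  have c₂ : Commute (π₁ x₂) (π₁ ⁅x₁, x₂⁆) := by
    rw [map_commutatorElement, ← commutatorElement_inv]
    exact (cm w₂ hx₂ hx₂ (w₁.CQ hx₁)).inv_right
  have n₁ := h₁.1
  by_contra hz
  obtain ⟨k1, k2⟩ := cl_conf1 (c₁.map (QuotientGroup.mk' Q₁)) (by rw [← map_pow, cu hx₁, map_one])
    (by rw [← map_pow, cu z₁, map_one])
  set E := (Subgroup.closure {QuotientGroup.mk' Q₁ (π₁ x₁), QuotientGroup.mk' Q₁ (π₁ ⁅x₁, x₂⁆)}).comap
    (QuotientGroup.mk' Q₁)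
  have xE : π₁ x₁ ∈ E := Subgroup.subset_closure (.inl rfl)
  have zE : π₁ ⁅x₁, x₂⁆ ∈ E := Subgroup.subset_closure (.inr rfl)
  have EE : ∀ y ∈ E, ∀ z ∈ E, ⁅y, z⁆ ∈ Q₁ := fun y hy z hz => (QuotientGroup.eq_one_iff _).1
    ((map_commutatorElement (QuotientGroup.mk' Q₁) y z).trans (k1 _ hy _ hz).commutator_eq)
  obtain ⟨P, C, hP, w⟩ := h₁.2 E ((QuotientGroup.ker_mk' Q₁).ge.trans (Subgroup.ker_le_comap _ _)) EE
    (fun y hy => (QuotientGroup.eq_one_iff _).1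
      ((map_pow (QuotientGroup.mk' Q₁) y 3).trans (k2 _ hy))) _ zE hz
  obtain ⟨l, hl, hn⟩ := w.n1 _ zE hP
  obtain ⟨l, rfl⟩ := r₁ ((le_sSup (show C ∈ {C | WW Q₁ C} from ⟨w.CQ, w.exp,
    fun y hy => w.norm y (w.PE (w.QP hy)),
    fun c hc z hz => w.cub c hc z (Subgroup.commutator_mono le_rfl w.QP hz)⟩) : C ≤ UU Q₁) hl)
  have nN : ∀ y ∈ E, ∀ n ∈ ⁅C, P⁆, y * n * y⁻¹ ∈ ⁅C, P⁆ := fun y hy =>
    (Subgroup.commutator_le (H₃ := ⁅C, P⁆.comap (MulAut.conj y).toMonoidHom)).2 fun c hc p hp => by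
      rw [Subgroup.mem_comap, map_commutatorElement]
      exact Subgroup.commutator_mem_commutator (w.norm y hy c hc)
        (by simpa [commutatorElement_def] using mul_mem (w.QP (EE y hy p (w.PE hp))) hp)
  have q : ∀ {x : Γ}, π₂ x ∈ Q₂ → π₂ ⁅l, x⁆ ∈ Q₂ := fun hx =>
    map_commutatorElement π₂ _ _ ▸ r_conf1 hx (n₂.conj_mem _ hx _)
  have a₁ := fun {x : Γ} hx => cm (x := x) w₁ hx z₁ (q (w₁.CQ hx₁))
  have a₂ := fun {x : Γ} hx => cm (x := x) w₁ hx z₁ (q (w₂.CQ hx₂))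
  have b₁ := cm w₂ hx₂ z₂ (q (w₁.CQ hx₁))
  have h0 : ⁅π₁ ⁅l, x₁⁆ * π₁ x₁, π₁ ⁅l, x₂⁆ * π₁ x₂⁆ = ⁅π₁ l, π₁ ⁅x₁, x₂⁆⁆ * π₁ ⁅x₁, x₂⁆ := by
    simp only [commutatorElement_def, map_mul, map_inv]; group
  have u₁ : π₁ ⁅l, x₁⁆ ∈ C := map_commutatorElement π₁ l _ ▸ l_conf1 hl (w.norm _ xE _ hl)
  have u₂ : π₁ ⁅l, x₂⁆ ∈ Q₁ :=
    map_commutatorElement π₁ l _ ▸ l_conf1 (w.CQ hl) (n₁.conj_mem _ (w.CQ hl) _)
  have ρ₁ := r_conf1 u₁ (w.norm _ zE _ u₁)
  have ρ₂ := w.QP (r_conf1 u₂ (n₁.conj_mem _ u₂ (π₁ ⁅x₁, x₂⁆)))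
  have hc := l_conf1 hl (w.norm _ zE _ hl)
  have cP := w.QP (w.CQ hc)
  have g1 : ∀ {z u x : T}, Commute x z → z * (u * x) * z⁻¹ = ⁅z, u⁆ * (u * x) := fun {z u x} h => by
    rw [commutatorElement_def, mul_assoc z, mul_assoc u, h.inv_right.eq]; group
  have g2 : ∀ {s u x : T}, Commute x s → u * x * s * (u * x)⁻¹ = u * s * u⁻¹ := fun {s u x} h => by
    rw [mul_assoc u, h.eq]; group
  have key := id_conf1 h0 (g1 c₁) (g1 c₂) (g2 (a₂ hx₁)) (g2 b₁.inv_right) (a₁ z₁) (a₂ z₁)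
  have m := mul_mem (mul_mem (mul_mem
    (nN _ (w.PE (w.QP (w.CQ ρ₁))) _ (Subgroup.commutator_mem_commutator u₁ ρ₂))
    (Subgroup.commutator_mem_commutator ρ₁ (mul_mem ρ₂ cP)))
    (nN _ (mul_mem (w.PE (mul_mem ρ₂ cP)) zE) _ (Subgroup.commutator_mem_commutator ρ₁ (w.QP u₂))))
    (inv_mem (Subgroup.commutator_mem_commutator hc ρ₂))
  rw [← key] at m
  have m' := nN _ (inv_mem (w.PE cP)) _ (inv_mem m)
  rw [← commutatorElement_inv (π₁ l)] at hn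
  generalize ⁅π₁ l, π₁ ⁅x₁, x₂⁆⁆ = c at hn m'
  generalize π₁ ⁅x₁, x₂⁆ = z at hn m'
  refine hn ((congrArg (· ∈ _) ?_).mp m')
  simp only [commutatorElement_def]; group

end Pool.Agent.MP_a5588a_al.Solv

end

section

namespace Pool.Agent.MP_a5588a_al.Solv

open scoped commutatorElement

variable {T Γ : Type*} [Group T] [Group Γ]

theorem le_UU_Conf {Q C : Subgroup T} (w : WW Q C) : C ≤ UU Q := le_sSup (s := {C | WW Q C}) w

theorem ww_Conf {Q E P C : Subgroup T} (w : Wit Q E P C) : WW Q C :=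
  ⟨w.CQ, w.exp, fun y hy => w.norm y (w.PE (w.QP hy)),
    fun c hc z hz => w.cub c hc z (Subgroup.commutator_mono le_rfl w.QP hz)⟩

theorem gen_Conf {π : Γ →* T} (i : Function.Injective π) {Q : Subgroup T} (r : UU Q ≤ π.range)
    (L : Subgroup Γ) (hL : ∀ C, WW Q C → ∀ v, π v ∈ C → v ∈ L) {x : Γ} (hx : π x ∈ UU Q) :
    x ∈ L := by
  have h : UU Q ≤ L.map π := by
    refine sSup_le fun C hC c hc => ?_
    obtain ⟨v, rfl⟩ := r (le_UU_Conf hC hc)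
    exact ⟨v, hL C hC v hc, rfl⟩
  obtain ⟨y, hy, e⟩ := h hx
  rwa [← i e]

theorem quad_Conf {π : Γ →* T} (i : Function.Injective π) {v l : Γ}
    (h : π v * ⁅π v, π l⁆ = ⁅π v, π l⁆ * π v) : ⁅v, ⁅v, l⁆⁆ = 1 := by
  apply i
  rw [map_commutatorElement, map_commutatorElement, map_one]
  exact commutatorElement_eq_one_iff_mul_comm.mpr h

theorem elem_Conf {π₁ π₂ : Γ →* T} (i₁ : Function.Injective π₁) (i₂ : Function.Injective π₂)
    {Q₁ Q₂ : Subgroup T} (h₁ : CP Q₁) (h₂ : CP Q₂) (r₁ : UU Q₁ ≤ π₁.range)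
    (r₂ : UU Q₂ ≤ π₂.range) : ∃ E : Subgroup T, Q₁ ≤ E ∧ (∀ y ∈ E, ∀ z ∈ E, ⁅y, z⁆ ∈ Q₁) ∧
      (∀ y ∈ E, y ^ 3 ∈ Q₁) ∧ ∀ b, π₂ b ∈ UU Q₂ → π₁ b ∈ E := by
  have := h₁.1
  let mk := QuotientGroup.mk' Q₁
  let S : Set (T ⧸ Q₁) := {g | ∃ C v, WW Q₂ C ∧ π₂ v ∈ C ∧ g = mk (π₁ v)}
  have hk : ∀ y, mk y = 1 ↔ y ∈ Q₁ := fun y => QuotientGroup.eq_one_iff y
  have c0 : ∀ s ∈ S, ∀ t ∈ S, s * t = t * s := by
    rintro _ ⟨C, v, w, hv, rfl⟩ _ ⟨C', v', w', hv', rfl⟩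
    rw [← commutatorElement_eq_one_iff_mul_comm, ← map_commutatorElement,
      ← map_commutatorElement, hk]
    exact conf1 i₁ i₂ h₁ h₂.1 r₁ w w' hv hv'
  have c1 : Subgroup.closure S ≤ Subgroup.centralizer S :=
    (Subgroup.closure_le _).mpr fun t ht s hs => c0 s hs t ht
  have c2 : ∀ a ∈ Subgroup.closure S, ∀ b ∈ Subgroup.closure S, a * b = b * a := by
    intro a ha b hb
    have : Subgroup.closure S ≤ Subgroup.centralizer {a} :=
      (Subgroup.closure_le _).mpr fun t ht s hs => by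
        rw [Set.mem_singleton_iff.mp hs]; exact (c1 ha t ht).symm
    exact this hb a rfl
  have c3 : ∀ a ∈ Subgroup.closure S, a ^ 3 = 1 := by
    intro a ha
    induction ha using Subgroup.closure_induction with
    | mem a ha =>
      obtain ⟨C, v, w, hv, rfl⟩ := ha
      have : v ^ 3 = 1 := i₂ (by rw [map_pow, map_one]; exact w.exp _ hv)
      rw [← map_pow, ← map_pow, this, map_one, map_one]
    | one => exact one_pow 3
    | mul a b ha hb ia ib => rw [(show Commute a b from c2 a ha b hb).mul_pow, ia, ib, one_mul]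
    | inv a _ ia => rw [inv_pow, ia, inv_one]
  refine ⟨(Subgroup.closure S).comap mk, fun y hy => ?_, fun y hy z hz => ?_, fun y hy => ?_,
    fun b hb => ?_⟩
  · rw [Subgroup.mem_comap, (hk y).mpr hy]; exact one_mem _
  · rw [← hk, map_commutatorElement, commutatorElement_eq_one_iff_mul_comm]
    exact c2 _ hy _ hz
  · rw [← hk, map_pow]; exact c3 _ hy
  · exact gen_Conf i₂ r₂ (((Subgroup.closure S).comap mk).comap π₁)
      (fun C w v hv => Subgroup.subset_closure (k := S) ⟨C, v, w, hv, rfl⟩) hb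

theorem conf {π₁ π₂ : Γ →* T} (i₁ : Function.Injective π₁) (i₂ : Function.Injective π₂)
    {Q₁ Q₂ : Subgroup T} (h₁ : CP Q₁) (h₂ : CP Q₂) (r₁ : UU Q₁ ≤ π₁.range)
    (r₂ : UU Q₂ ≤ π₂.range) {x : Γ} (hx : π₁ x ∈ UU Q₁) : π₂ x ∈ Q₂ := by
  by_contra hx₂
  obtain ⟨E₁, q₁, a₁, e₁, m₁⟩ := elem_Conf i₁ i₂ h₁ h₂ r₁ r₂
  obtain ⟨E₂, q₂, a₂, e₂, m₂⟩ := elem_Conf i₂ i₁ h₂ h₁ r₂ r₁
  obtain ⟨P₂, C₂, xP, W₂⟩ := h₂.2 E₂ q₂ a₂ e₂ _ (m₂ x hx) hx₂
  have u₂ := le_UU_Conf (ww_Conf W₂)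
  have N₂ : ∀ v, π₁ v ∈ UU Q₁ → π₂ v ∉ P₂ → ∃ l, π₂ l ∈ C₂ ∧ ⁅v, ⁅v, l⁆⁆ ≠ 1 := by
    intro v hv hP
    obtain ⟨l, hl, n⟩ := W₂.n1 _ (m₂ v hv) hP
    obtain ⟨l, rfl⟩ := r₂ (u₂ hl)
    refine ⟨l, hl, fun e => n ?_⟩
    rw [← map_commutatorElement, ← map_commutatorElement, e, map_one]
    exact one_mem _
  obtain ⟨C', w', v, hv, vP⟩ : ∃ C', WW Q₁ C' ∧ ∃ v, π₁ v ∈ C' ∧ π₂ v ∉ P₂ := by
    by_contra hc
    refine xP (gen_Conf i₁ r₁ (P₂.comap π₂) (fun C w v hv => ?_) hx)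
    by_contra hv'
    exact hc ⟨C, w, v, hv, hv'⟩
  obtain ⟨l, hl, nl⟩ := N₂ v (le_UU_Conf w' hv) vP
  have lQ : π₁ l ∉ Q₁ := fun h =>
    nl (quad_Conf i₁ (w'.cub _ hv _ (Subgroup.commutator_mem_commutator hv h)))
  obtain ⟨P₁, C₁, lP, W₁⟩ := h₁.2 E₁ q₁ a₁ e₁ _ (m₁ l (u₂ hl)) lQ
  have u₁ := le_UU_Conf (ww_Conf W₁)
  have K : ∀ p, π₂ p ∈ P₂ → ⁅π₁ l, ⁅π₁ l, π₁ p⁆⁆ = 1 := by
    intro p hp
    rw [← map_commutatorElement, ← map_commutatorElement,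
      quad_Conf i₂ (W₂.cub _ hl _ (Subgroup.commutator_mem_commutator hl hp)), map_one]
  obtain ⟨v₁, hv₁, n₁⟩ := W₁.n1 _ (m₁ l (u₂ hl)) lP
  obtain ⟨v₁, rfl⟩ := r₁ (u₁ hv₁)
  have v₁P : π₂ v₁ ∉ P₂ := fun h => n₁ (by rw [K v₁ h]; exact one_mem _)
  rcases W₁.n2 with ab | rk
  · obtain ⟨l₂, hl₂, n⟩ := N₂ v₁ (u₁ hv₁) v₁P
    refine n (quad_Conf i₁ (ab _ hv₁ _ ?_))
    have := mul_mem hv₁ (W₁.norm _ (m₁ l₂ (u₂ hl₂)) _ (inv_mem hv₁))
    rwa [← mul_assoc, ← mul_assoc, ← commutatorElement_def] at this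
  · obtain ⟨c, hc, k₀, k₁, k₂⟩ := rk _ (m₁ l (u₂ hl)) lP _ hv₁
    obtain ⟨c, rfl⟩ := r₁ (u₁ hc)
    rcases W₂.idx _ (m₂ v₁ (u₁ hv₁)) v₁P _ (m₂ c (u₁ hc)) with h | h | h
    · exact k₀ (K c h)
    · rw [← map_inv, ← map_mul] at h k₁
      exact k₁ (K _ h)
    · rw [← map_mul] at h k₂
      exact k₂ (K _ h)

end Pool.Agent.MP_a5588a_al.Solv

end

section

namespace Pool.Agent.MP_a5588a_al.Solv

open scoped commutatorElement

section aux

variable {T : Type*} [Group T]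

/-- One step of the descending chain. -/
def stepThmA (M : Subgroup T) : Subgroup T where
  carrier := {x | ∀ Q : Subgroup T, CP Q → ∃ h : x ∈ Q, ∀ α : Q ≃* Q, ((α ⟨x, h⟩ : Q) : T) ∈ M}
  one_mem' := by
    intro Q _
    refine ⟨Q.one_mem, fun α => ?_⟩
    have : α ⟨1, Q.one_mem⟩ = 1 := map_one α
    rw [this]
    exact M.one_mem
  mul_mem' := by
    intro x y hx hy Q hQ
    obtain ⟨h1, hx⟩ := hx Q hQ
    obtain ⟨h2, hy⟩ := hy Q hQ
    refine ⟨Q.mul_mem h1 h2, fun α => ?_⟩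
    have : α ⟨x * y, Q.mul_mem h1 h2⟩ = α ⟨x, h1⟩ * α ⟨y, h2⟩ := map_mul α ⟨x, h1⟩ ⟨y, h2⟩
    rw [this]
    exact M.mul_mem (hx α) (hy α)
  inv_mem' := by
    intro x hx Q hQ
    obtain ⟨h1, hx⟩ := hx Q hQ
    refine ⟨Q.inv_mem h1, fun α => ?_⟩
    have : α ⟨x⁻¹, Q.inv_mem h1⟩ = (α ⟨x, h1⟩)⁻¹ := map_inv α ⟨x, h1⟩
    rw [this]
    exact M.inv_mem (hx α)

theorem mem_stepThmA {M : Subgroup T} {x : T} : x ∈ stepThmA M ↔
    ∀ Q : Subgroup T, CP Q → ∃ h : x ∈ Q, ∀ α : Q ≃* Q, ((α ⟨x, h⟩ : Q) : T) ∈ M := Iff.rfl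

/-- The descending chain. -/
def chainThmA (T : Type*) [Group T] : ℕ → Subgroup T
  | 0 => ⊤
  | m + 1 => stepThmA (chainThmA T m)

theorem cp_top_ThmA : CP (⊤ : Subgroup T) :=
  ⟨inferInstance, fun _ _ _ _ x _ hx => absurd (Subgroup.mem_top x) hx⟩

theorem step_le_ThmA (M : Subgroup T) : stepThmA M ≤ M := by
  intro x hx
  obtain ⟨h, hx⟩ := mem_stepThmA.1 hx ⊤ cp_top_ThmA
  exact hx (MulEquiv.refl _)

theorem chain_anti_ThmA : Antitone (chainThmA T) :=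
  antitone_nat_of_succ_le fun m => step_le_ThmA (chainThmA T m)

theorem transport_ThmA (m : ℕ) : ∀ x : T, x ∈ chainThmA T m → x ∉ chainThmA T (m + 1) →
    ∃ Q₂ : Subgroup T, CP Q₂ ∧ ∃ Δ : Subgroup (T × T), (∀ p ∈ Δ, p.1 = 1 ↔ p.2 = 1) ∧
      (∃ x', (x, x') ∈ Δ ∧ x' ∉ Q₂) ∧ ∀ j, ∀ y ∈ chainThmA T (m + j),
        (∃ y' ∈ chainThmA T j, (y, y') ∈ Δ) ∧ (∃ y' ∈ chainThmA T j, (y', y) ∈ Δ) := by
  have diag : ∀ (m : ℕ) (x : T) (Q : Subgroup T), CP Q → x ∉ Q →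
      ∃ Q₂ : Subgroup T, CP Q₂ ∧ ∃ Δ : Subgroup (T × T), (∀ p ∈ Δ, p.1 = 1 ↔ p.2 = 1) ∧
      (∃ x', (x, x') ∈ Δ ∧ x' ∉ Q₂) ∧ ∀ j, ∀ y ∈ chainThmA T (m + j),
        (∃ y' ∈ chainThmA T j, (y, y') ∈ Δ) ∧ (∃ y' ∈ chainThmA T j, (y', y) ∈ Δ) := by
    intro m x Q hQ hx
    refine ⟨Q, hQ, (MonoidHom.fst T T).eqLocus (MonoidHom.snd T T), fun p hp => ?_,
      ⟨x, rfl, hx⟩, fun j y hy => ?_⟩
    · have : p.1 = p.2 := hp
      rw [this]
    · have hj : y ∈ chainThmA T j := chain_anti_ThmA (Nat.le_add_left j m) hy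
      exact ⟨⟨y, hj, rfl⟩, ⟨y, hj, rfl⟩⟩
  induction m with
  | zero =>
    intro x _ hx
    by_contra hc
    refine hx (mem_stepThmA.2 fun Q hQ => ?_)
    by_cases h : x ∈ Q
    · exact ⟨h, fun α => Subgroup.mem_top _⟩
    · exact absurd (diag 0 x Q hQ h) hc
  | succ m ih =>
    intro x hx hx'
    by_contra hc
    refine hx' (mem_stepThmA.2 fun Q hQ => ?_)
    obtain ⟨h, hα⟩ := mem_stepThmA.1 hx Q hQ
    refine ⟨h, fun α => ?_⟩
    by_contra hn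
    obtain ⟨Q₂, hQ₂, Δ, hΔ, ⟨x', hxx, hx2⟩, hj⟩ := ih _ (hα α) hn
    apply hc
    let f : Q × T →* T × T := (Q.subtype.comp α.toMonoidHom).prodMap (MonoidHom.id T)
    let g : Q × T →* T × T := Q.subtype.prodMap (MonoidHom.id T)
    have key : ∀ (y : Q) (z : T), (((α y : Q) : T), z) ∈ Δ → ((y : T), z) ∈ (Δ.comap f).map g :=
      fun y z hyz => ⟨(y, z), hyz, rfl⟩
    refine ⟨Q₂, hQ₂, (Δ.comap f).map g, ?_, ⟨x', key ⟨x, h⟩ x' hxx, hx2⟩, fun j y hy => ⟨?_, ?_⟩⟩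
    · rintro p ⟨⟨y, z⟩, hyz, rfl⟩
      have h1 : ((α y : Q) : T) = 1 ↔ z = 1 := hΔ _ hyz
      change (y : T) = 1 ↔ z = 1
      rw [← h1, OneMemClass.coe_eq_one, OneMemClass.coe_eq_one, map_eq_one_iff α α.injective]
    · have e : m + 1 + j = m + j + 1 := by omega
      rw [e] at hy
      obtain ⟨hyQ, hyα⟩ := mem_stepThmA.1 hy Q hQ
      obtain ⟨y', hy', hyy⟩ := (hj j _ (hyα α)).1
      exact ⟨y', hy', key ⟨y, hyQ⟩ y' hyy⟩
    · have e : m + 1 + j = m + (j + 1) := by omega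
      rw [e] at hy
      obtain ⟨y', hy', hyy⟩ := (hj (j + 1) y hy).2
      obtain ⟨hyQ, hyα⟩ := mem_stepThmA.1 hy' Q hQ
      refine ⟨_, hyα α.symm, key _ y ?_⟩
      rw [MulEquiv.apply_symm_apply]
      exact hyy

theorem uu_top_ThmA [Finite T] [Nontrivial T] (hT : IsPGroup 3 T) :
    ∃ z ∈ UU (⊤ : Subgroup T), z ≠ 1 := by
  have : Fact (Nat.Prime 3) := ⟨Nat.prime_three⟩
  have := hT.center_nontrivial
  obtain ⟨n, hn, hc⟩ := (hT.to_subgroup (Subgroup.center T)).nontrivial_iff_card.1 inferInstance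
  obtain ⟨z, hz⟩ := exists_prime_orderOf_dvd_card' (G := Subgroup.center T) 3
    (by rw [hc]; exact dvd_pow_self 3 hn.ne')
  have hz3 : (z : T) ^ 3 = 1 := by
    have := pow_orderOf_eq_one z
    rw [hz] at this
    exact_mod_cast congrArg Subtype.val this
  have hcen : ∀ c ∈ Subgroup.zpowers (z : T), ∀ y : T, y * c = c * y := fun c hc y =>
    Subgroup.mem_center_iff.1 ((Subgroup.zpowers_le.2 z.2) hc) y
  have hW : WW (⊤ : Subgroup T) (Subgroup.zpowers (z : T)) :=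
    { CQ := le_top
      exp := by
        rintro c ⟨k, rfl⟩
        change ((z : T) ^ k) ^ 3 = 1
        rw [← zpow_natCast, ← zpow_mul, mul_comm, zpow_mul, zpow_natCast, hz3, one_zpow]
      norm := fun y _ c hc => by
        rw [hcen c hc y, mul_inv_cancel_right]
        exact hc
      cub := fun c hc w _ => (hcen c hc w).symm }
  refine ⟨z, (le_sSup (s := {C | WW (⊤ : Subgroup T) C}) hW) (Subgroup.mem_zpowers _), ?_⟩
  intro h1
  have : z = 1 := Subtype.ext h1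
  rw [this, orderOf_one] at hz
  omega

end aux

theorem thmA (T : Type*) [Group T] [Finite T] [Nontrivial T] (hT : IsPGroup 3 T) :
    ∃ W : Subgroup T, W ≠ ⊥ ∧ PA W := by
  obtain ⟨m, hm⟩ : ∃ m, chainThmA T (m + 1) = chainThmA T m := by
    by_contra hc
    have hs : StrictAnti (chainThmA T) := strictAnti_nat_of_succ_lt fun m =>
      lt_of_le_of_ne (chain_anti_ThmA (Nat.le_succ m)) fun h => hc ⟨m, h⟩
    exact not_injective_infinite_finite _ hs.injective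
  refine ⟨chainThmA T m, fun hW => ?_, fun Q hQ => ⟨fun x hx => ?_, fun α x hx => ?_⟩⟩
  · obtain ⟨e, he, he'⟩ : ∃ e, (∀ Q : Subgroup T, CP Q → UU Q ≤ chainThmA T e) ∧
        ¬ ∀ Q : Subgroup T, CP Q → UU Q ≤ chainThmA T (e + 1) := by
      by_contra hc
      have hall : ∀ e, ∀ Q : Subgroup T, CP Q → UU Q ≤ chainThmA T e := by
        intro e
        induction e with
        | zero => exact fun Q _ => le_top
        | succ e ih =>
          by_contra hn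
          exact hc ⟨e, ih, hn⟩
      obtain ⟨z, hz, hz1⟩ := uu_top_ThmA hT
      have := hall m ⊤ cp_top_ThmA hz
      rw [hW] at this
      exact hz1 (Subgroup.mem_bot.1 this)
    apply he'
    intro Q₁ hQ₁ x hx
    by_contra hn
    obtain ⟨Q₂, hQ₂, Δ, hΔ, ⟨x', hxx, hx2⟩, hj⟩ := transport_ThmA e x (he Q₁ hQ₁ hx) hn
    apply hx2
    refine conf (π₁ := (MonoidHom.fst T T).comp Δ.subtype)
      (π₂ := (MonoidHom.snd T T).comp Δ.subtype) ?_ ?_ hQ₁ hQ₂ ?_ ?_ (x := ⟨(x, x'), hxx⟩) hx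
    · rw [injective_iff_map_eq_one]
      intro p hp
      have h1 : (p : T × T).1 = 1 := hp
      exact Subtype.ext (Prod.ext h1 ((hΔ _ p.2).1 h1))
    · rw [injective_iff_map_eq_one]
      intro p hp
      have h1 : (p : T × T).2 = 1 := hp
      exact Subtype.ext (Prod.ext ((hΔ _ p.2).2 h1) h1)
    · intro y hy
      obtain ⟨y', _, hyy⟩ := (hj 0 y (he Q₁ hQ₁ hy)).1
      exact ⟨⟨_, hyy⟩, rfl⟩
    · intro y hy
      obtain ⟨y', _, hyy⟩ := (hj 0 y (he Q₂ hQ₂ hy)).2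
      exact ⟨⟨_, hyy⟩, rfl⟩
  · rw [← hm] at hx
    exact (mem_stepThmA.1 hx Q hQ).1
  · rw [← hm] at hx
    exact (mem_stepThmA.1 hx Q hQ).2 α

end Pool.Agent.MP_a5588a_al.Solv

end

section

namespace Pool.Agent.MP_a5588a_al.Solv

open scoped commutatorElement

universe u

/-- `R` is a maximal 3-subgroup of `N`. -/
structure Mx_LG {G : Type*} [Group G] (N R : Subgroup G) : Prop where
  le : R ≤ N
  p3 : IsPGroup 3 R
  max : ∀ R' : Subgroup G, R' ≤ N → IsPGroup 3 R' → R ≤ R' → R' = R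

theorem exists_mx_LG {G : Type*} [Group G] [Finite G] (T : Sylow 3 G) {N P : Subgroup G}
    (hPN : P ≤ N) (hP : IsPGroup 3 P) : ∃ R g, P ≤ R ∧ Mx_LG N R ∧ R ≤ cj T g := by
  obtain ⟨R, ⟨hPR, hRN, hR⟩, hRmax⟩ := (wellFounded_gt (α := Subgroup G)).has_min
    {R | P ≤ R ∧ R ≤ N ∧ IsPGroup 3 R} ⟨P, le_rfl, hPN, hP⟩
  obtain ⟨g₀, -, hg₀⟩ := sylow_conj (Y := ⊤) (R := T) (Q := R) le_top T.isPGroup'
    (fun R' _ b c => T.is_maximal' b c) le_top hR
  exact ⟨R, g₀, hPR, ⟨hRN, hR, fun R' a b c =>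
    (c.eq_of_not_lt (hRmax R' ⟨hPR.trans c, a, b⟩)).symm⟩, fun x hx => mem_cj.mpr (hg₀ x hx)⟩

theorem grow_LG {G : Type*} [Group G] [Finite G] {P S : Subgroup G} (hS : IsPGroup 3 S)
    (hPS : P ≤ S) (hne : P ≠ S) :
    Nat.card P < Nat.card (S ⊓ Subgroup.normalizer (P : Set G) : Subgroup G) := by
  have : Fact (Nat.Prime 3) := ⟨Nat.prime_three⟩
  have := hS.isNilpotent
  have h1 : P.subgroupOf S < ⊤ := lt_top_iff_ne_top.2 fun h =>
    hne (le_antisymm hPS (Subgroup.subgroupOf_eq_top.1 h))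
  obtain ⟨x, hx, hxP⟩ := SetLike.exists_of_lt (Group.normalizerCondition_of_isNilpotent _ h1)
  rw [← Subgroup.subgroupOf_normalizer_eq hPS] at hx
  refine lt_of_not_ge fun h => hxP ?_
  have e := Subgroup.eq_of_le_of_card_ge (le_inf hPS Subgroup.le_normalizer) h
  rw [Subgroup.mem_subgroupOf, e]
  exact ⟨x.2, hx⟩

theorem loc_LG (hC : PartC.{u}) {T₀ A : Type*} [Group T₀] [CommGroup A] {W : Subgroup T₀}
    (hW : PA W) {G : Type u} [Group G] [Finite G] {N R : Subgroup G} (hN : Solv3 N)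
    (hR : Mx_LG N R) (f : T₀ →* G) (hf : Function.Injective f) (hT : f.range = R) {θ : G → A}
    (hθ : MulOn R θ) (h : FI R θ (Subgroup.normalizer ((W.map f : Subgroup G) : Set G))) :
    FI R θ N := by
  let R0 : Sylow 3 N := ⟨R.subgroupOf N, hR.p3.comap_subtype, fun {Q'} hQ' hle => by
    have := hR.max (Q'.map N.subtype) (Subgroup.map_subtype_le _) (hQ'.map _)
      (fun x hx => ⟨⟨x, hR.le hx⟩, hle hx, rfl⟩)
    rw [← this, Subgroup.subgroupOf,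
      Subgroup.comap_map_eq_self_of_injective N.subtype_injective]⟩
  have hm : ∀ x, f x ∈ R := fun x => hT ▸ ⟨x, rfl⟩
  let f' : T₀ →* N := f.codRestrict N fun x => hR.le (hm x)
  have key := r6 hC hW N hN R0 f' (fun x y e => hf (congrArg Subtype.val e)) (θ := fun x => θ x)
    (by
      ext x
      constructor
      · rintro ⟨y, rfl⟩
        exact hm y
      · intro hx
        obtain ⟨y, hy⟩ : (x : G) ∈ f.range := hT ▸ hx
        exact ⟨y, Subtype.ext hy⟩)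
    (fun x hx y hy => hθ x hx y hy) (fun g hg s hs hs' => by
      refine h g ?_ s hs hs'
      have := Subgroup.le_normalizer_map N.subtype ⟨g, hg, rfl⟩
      rwa [Subgroup.map_map] at this)
  exact fun g hg s hs hs' => key ⟨g, hg⟩ trivial ⟨s, hR.le hs⟩ hs hs'

theorem char_LG {G : Type*} [Group G] [Finite G] {R : Subgroup G} {W : Subgroup R} (hW : PA W) :
    Subgroup.normalizer (R : Set G) ≤
      Subgroup.normalizer ((W.map R.subtype : Subgroup G) : Set G) := by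
  intro r hr
  refine Subgroup.mem_normalizer_fintype ?_
  rintro _ ⟨x, hx, rfl⟩
  exact ⟨_, (hW ⊤ ⟨inferInstance, fun _ _ _ _ _ _ h => (h trivial).elim⟩).2
    (Subgroup.topEquiv.trans ((R.normalizerMonoidHom ⟨r, hr⟩).trans Subgroup.topEquiv.symm))
    ⟨x, trivial⟩ hx, rfl⟩

theorem lg (hC : PartC.{u}) {T₀ A : Type*} [Group T₀] [CommGroup A] {W : Subgroup T₀}
    (hW₀ : W ≠ ⊥) (hW : PA W) (G : Type u) [Group G] [Finite G]
    (hG : ∀ P : Subgroup G, P ≠ ⊥ → IsPGroup 3 P → Solv3 (Subgroup.normalizer (P : Set G)))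
    (T : Sylow 3 G) (f : T₀ →* G)
    (hf : Function.Injective f) (hT : f.range = T) {θ : G → A} (hθ : MulOn (T : Subgroup G) θ)
    (h : FI (T : Subgroup G) θ (Subgroup.normalizer ((W.map f : Subgroup G) : Set G))) :
    FI (T : Subgroup G) θ ⊤ := by
  have hp : ∀ g : G, IsPGroup 3 (cj (T : Subgroup G) g) := fun g => T.isPGroup'.map _
  have hmul : ∀ g : G, MulOn (cj (T : Subgroup G) g) fun x => θ (g⁻¹ * x * g) := by
    intro g x hx y hy
    simp only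
    rw [← hθ _ (mem_cj.mp hx) _ (mem_cj.mp hy)]
    congr 1; group
  have hcard : ∀ {P : Subgroup G} {g : G}, P ≤ cj T g → ¬ Nat.card T < Nat.card P + 0 :=
    fun {P g} hP => not_lt.2 ((Subgroup.card_le_of_le hP).trans_eq (card_cj _ g))
  have main : ∀ k : ℕ, (∀ (D R : Subgroup G) (g : G), D ≠ ⊥ → IsPGroup 3 D →
      Mx_LG (Subgroup.normalizer (D : Set G)) R → R ≤ cj T g → Nat.card T < Nat.card R + k →
      FI R (fun x => θ (g⁻¹ * x * g)) (Subgroup.normalizer (D : Set G))) ∧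
      ∀ (P : Subgroup G) (g₁ g₂ : G), P ≤ cj T g₁ → P ≤ cj T g₂ → Nat.card T < Nat.card P + k →
        ∀ x ∈ P, θ (g₁⁻¹ * x * g₁) = θ (g₂⁻¹ * x * g₂) := by
    intro k
    induction k with
    | zero =>
      exact ⟨fun D R g _ _ _ a b => (hcard a b).elim, fun P g₁ g₂ a _ b => (hcard a b).elim⟩
    | succ k ih =>
    obtain ⟨ihL, ihF⟩ := ih
    have hL : ∀ (D R : Subgroup G) (g : G), D ≠ ⊥ → IsPGroup 3 D →
        Mx_LG (Subgroup.normalizer (D : Set G)) R → R ≤ cj T g →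
        Nat.card T < Nat.card R + (k + 1) →
        FI R (fun x => θ (g⁻¹ * x * g)) (Subgroup.normalizer (D : Set G)) := by
      intro D R g hD0 hD hR hRg hk
      have hm : MulOn R fun x => θ (g⁻¹ * x * g) := fun x hx y hy => hmul g x (hRg hx) y (hRg hy)
      by_cases e : R = cj T g
      · refine loc_LG hC hW (hG D hD0 hD) hR ((MulAut.conj g).toMonoidHom.comp f)
          ((cj_inj g).comp hf) (by rw [MonoidHom.range_comp, hT, e]; rfl) hm
          fun n hn s hs hs' => ?_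
        have h1 : g⁻¹ * n * g ∈ Subgroup.normalizer ((W.map f : Subgroup G) : Set G) := by
          refine Subgroup.mem_normalizer_fintype fun y hy => ?_
          rw [← Subgroup.map_map] at hn
          have h2 : g * y * g⁻¹ ∈ cj (W.map f) g := mem_cj.mpr (by simpa [mul_assoc] using hy)
          have h3 := mem_cj.mp ((Subgroup.mem_normalizer_iff.mp hn _).mp h2)
          rw [SetLike.mem_coe]
          convert h3 using 1
          group
        have e2 : g⁻¹ * (n * s * n⁻¹) * g = g⁻¹ * n * g * (g⁻¹ * s * g) * (g⁻¹ * n * g)⁻¹ := by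
          group
        rw [e2]
        exact h _ h1 _ (mem_cj.mp (hRg hs)) (e2 ▸ mem_cj.mp (hRg hs'))
      · have hDR : D ≤ R := by
          have h1 : D ⊔ R = R := by
            refine hR.max _ (sup_le Subgroup.le_normalizer hR.le) ?_ le_sup_right
            exact IsPGroup.to_sup_of_normal_left' hD hR.p3 hR.le
          exact h1 ▸ le_sup_left
        have : Nontrivial R := (Subgroup.nontrivial_iff_ne_bot R).2 fun h0 =>
          hD0 (le_bot_iff.1 (h0 ▸ hDR))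
        obtain ⟨W₁, hW₁0, hW₁⟩ := thmA R hR.p3
        obtain ⟨R', g', a1, a2, a3⟩ := exists_mx_LG T
          (P := cj T g ⊓ Subgroup.normalizer (R : Set G))
          (inf_le_right.trans (char_LG hW₁)) (hp g).to_inf_left
        have hlt := grow_LG (hp g) hRg e
        have hle := Subgroup.card_le_of_le a1
        have hRR : R ≤ cj T g ⊓ Subgroup.normalizer (R : Set G) :=
          le_inf hRg Subgroup.le_normalizer
        have b1 := ihL (W₁.map R.subtype) R' g'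
          (fun h0 => hW₁0 ((Subgroup.map_eq_bot_iff_of_injective _ R.subtype_injective).1 h0))
          (hR.p3.to_le (Subgroup.map_subtype_le _)) a2 a3 (by omega)
        have b2 := ihF _ g g' inf_le_left (a1.trans a3) (by omega)
        refine loc_LG hC hW₁ (hG D hD0 hD) hR R.subtype R.subtype_injective R.range_subtype hm
          fun n hn s hs hs' => ?_
        rw [b2 _ (hRR hs), b2 _ (hRR hs')]
        exact b1 n hn s (a1 (hRR hs)) (a1 (hRR hs'))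
    refine ⟨hL, fun P g₁ g₂ h₁ h₂ hk => ?_⟩
    by_cases hP0 : P = ⊥
    · intro x hx
      rw [hP0, Subgroup.mem_bot] at hx
      simp [hx]
    have hP := (hp g₁).to_le h₁
    obtain ⟨R, g₀, a1, a2, a3⟩ := exists_mx_LG T Subgroup.le_normalizer hP
    have hle := Subgroup.card_le_of_le a1
    have b1 := hL P R g₀ hP0 hP a2 a3 (by omega)
    suffices H : ∀ g, P ≤ cj T g → ∀ x ∈ P, θ (g⁻¹ * x * g) = θ (g₀⁻¹ * x * g₀) by
      intro x hx; rw [H g₁ h₁ x hx, H g₂ h₂ x hx]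
    intro g hg x hx
    suffices H : ∃ y ∈ Subgroup.normalizer (P : Set G),
        θ (g⁻¹ * x * g) = θ ((y * g₀)⁻¹ * x * (y * g₀)) by
      obtain ⟨y, hy, e⟩ := H
      have hy' := Subgroup.inv_mem _ hy
      refine e.trans (Eq.trans ?_
        (b1 _ hy' x (a1 hx) (a1 ((Subgroup.mem_normalizer_iff.mp hy' x).mp hx))))
      congr 1; group
    by_cases e : P = cj T g
    · have e0 : P = cj T g₀ :=
        Subgroup.eq_of_le_of_card_ge (a1.trans a3) (by rw [e, card_cj, card_cj])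
      refine ⟨g * g₀⁻¹, Subgroup.mem_normalizer_fintype fun z hz => ?_, by simp⟩
      have h3 : g₀⁻¹ * z * g₀ ∈ (T : Subgroup G) := mem_cj.mp (e0 ▸ hz)
      rw [e, SetLike.mem_coe, mem_cj]
      convert h3 using 1
      group
    · have hlt := grow_LG (hp g) hg e
      obtain ⟨y, hyN, hy⟩ := sylow_conj a2.le a2.p3 a2.max
        (Q := cj T g ⊓ Subgroup.normalizer (P : Set G)) inf_le_right (hp g).to_inf_left
      refine ⟨y, hyN, ihF _ g (y * g₀) inf_le_left (fun z hz => ?_) (by omega) x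
        ⟨hg hx, Subgroup.le_normalizer hx⟩⟩
      have := mem_cj.mp (a3 (hy z hz))
      rw [mem_cj]; convert this using 1; group
  intro g _ s hs hs'
  have := (main (Nat.card T + 1)).2 (Subgroup.zpowers s) g⁻¹ 1
    (Subgroup.zpowers_le.mpr (mem_cj.mpr (by simpa using hs')))
    (Subgroup.zpowers_le.mpr (mem_cj.mpr (by simpa using hs))) (by omega) s
    (Subgroup.mem_zpowers _)
  simpa using this

theorem focal_of_FI {G : Type*} [Group G] [Finite G] (T : Sylow 3 G) {L : Subgroup G}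
    (hTL : (T : Subgroup G) ≤ L)
    (h : ∀ θ : G → Abelianization L, MulOn (T : Subgroup G) θ → FI (T : Subgroup G) θ L →
      FI (T : Subgroup G) θ ⊤) :
    (T : Subgroup G) ⊓ commutator G = (T : Subgroup G) ⊓ ⁅L, L⁆ := by
  classical
  have : Fact (Nat.Prime 3) := ⟨Nat.prime_three⟩
  refine le_antisymm (le_inf inf_le_left ?_)
    (inf_le_inf_left _ (Subgroup.commutator_mono le_top le_top))
  let θ₀ : G → Abelianization L := fun x => if h : x ∈ L then Abelianization.of ⟨x, h⟩ else 1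
  have hθ : ∀ x (h : x ∈ L), θ₀ x = Abelianization.of ⟨x, h⟩ := fun x h => dif_pos h
  have hmul : ∀ x ∈ L, ∀ y ∈ L, θ₀ (x * y) = θ₀ x * θ₀ y := by
    intro x hx y hy
    rw [hθ _ hx, hθ _ hy, hθ _ (L.mul_mem hx hy), ← map_mul]; rfl
  have hone : θ₀ 1 = 1 := by rw [hθ _ L.one_mem]; exact map_one _
  have key := h θ₀ (fun x hx y hy => hmul x (hTL hx) y (hTL hy)) (fun g hg x hx _ => by
    rw [hmul _ (L.mul_mem hg (hTL hx)) _ (L.inv_mem hg), hmul _ hg _ (hTL hx),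
      mul_comm, ← mul_assoc, ← hmul _ (L.inv_mem hg) _ hg, inv_mul_cancel, hone, one_mul])
  rw [inf_comm, Subgroup.commutator_inf_eq_focalSubgroup, Subgroup.focalSubgroup_def,
    Subgroup.closure_le]
  rintro _ ⟨hc, x, hx, u, rfl⟩
  have hw : u * x⁻¹ * u⁻¹ ∈ (T : Subgroup G) := by
    have := Subgroup.mul_mem _ (Subgroup.inv_mem _ hx) hc
    convert this using 1
    rw [commutatorElement_def]; group
  have h2 : θ₀ ⁅x, u⁆ = 1 := by
    have e : ⁅x, u⁆ = x * (u * x⁻¹ * u⁻¹) := by rw [commutatorElement_def]; group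
    rw [e, hmul _ (hTL hx) _ (hTL hw), key u trivial _ (Subgroup.inv_mem _ hx) hw,
      ← hmul _ (hTL hx) _ (L.inv_mem (hTL hx)), mul_inv_cancel, hone]
  rw [hθ _ (hTL hc), ← MonoidHom.mem_ker, Abelianization.ker_of] at h2
  rw [← Subgroup.map_subtype_commutator]
  exact ⟨_, h2, rfl⟩

end Pool.Agent.MP_a5588a_al.Solv

end
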