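import Pool.Agent.Mg.Fa5588aa.G1ab97f
import Pool.Agent.Mg.Fa5588aa.Ga63474
import Pool.Agent.Mg.Fa5588aa.Ge41aad

section

namespace Pool.Agent.MP_a5588a_al.Full

open Pool.Agent.MP_a5588a_al.Solv
open scoped commutatorElement

universe u v

variable {T Γ : Type*} [Group T] [Group Γ]

theorem le_UU_FConf {Q C : Subgroup T} (w : WWf Q C) : C ≤ UUf Q :=
  le_sSup (s := {C | WWf Q C}) w

theorem memY_FConf {Q : Subgroup T} {Y : Set T} {y : T} (h : y ∈ Y) : y ∈ EE Q Y :=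
  Subgroup.mem_sup_right (Subgroup.subset_closure h)

theorem leQ_FConf {Q : Subgroup T} {Y : Set T} : Q ≤ EE Q Y := le_sup_left

theorem left_FConf {H C : Subgroup T} (h : Nm H C) {y c : T} (hy : y ∈ H) (hc : c ∈ C) :
    ⁅y, c⁆ ∈ C := by
  rw [commutatorElement_def]
  exact mul_mem (h y hy c hc) (inv_mem hc)

theorem right_FConf {H C : Subgroup T} (h : Nm H C) {y c : T} (hy : y ∈ H) (hc : c ∈ C) :
    ⁅c, y⁆ ∈ C := by
  rw [← commutatorElement_inv]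
  exact inv_mem (left_FConf h hy hc)

theorem cub_FConf {H F : Subgroup T} (a : Abl F) (h : Nm H F) : Cub F H := fun c hc z hz =>
  a c hc z (Subgroup.commutator_le.2 (fun _ h1 _ h2 => right_FConf h h2 h1) hz)

theorem ww_FConf {Q P C : Subgroup T} {Y : Set T} (h1 : C ≤ Q) (h2 : Nm (EE Q Y) C)
    (h3 : Cub C P) (h4 : Q ≤ P) : WWf Q C :=
  ⟨h1, fun y hy => h2 y (leQ_FConf hy),
    fun c hc z hz => h3 c hc z (Subgroup.commutator_mono le_rfl h4 hz)⟩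

theorem wt_FConf {Q P C : Subgroup T} {Y : Set T} (w : Wt Q Y P C) : WWf Q C :=
  ww_FConf w.CQ w.norm w.cub w.QP

theorem gen_FConf {π : Γ →* T} (i : Function.Injective π) {Q : Subgroup T}
    (r : UUf Q ≤ π.range) (L : Subgroup Γ) (hL : ∀ C, WWf Q C → ∀ v, π v ∈ C → v ∈ L) {x : Γ}
    (hx : π x ∈ UUf Q) : x ∈ L := by
  have h : UUf Q ≤ L.map π := by
    refine sSup_le fun C hC c hc => ?_
    obtain ⟨v, rfl⟩ := r (le_UU_FConf hC hc)
    exact ⟨v, hL C hC v hc, rfl⟩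
  obtain ⟨y, hy, e⟩ := h hx
  rwa [← i e]

theorem quad_FConf {π : Γ →* T} (i : Function.Injective π) {C P : Subgroup T} (h : Cub C P)
    {v l : Γ} (hv : π v ∈ C) (hl : π l ∈ P) : ⁅v, ⁅v, l⁆⁆ = 1 := by
  apply i
  rw [map_commutatorElement, map_commutatorElement, map_one]
  exact commutatorElement_eq_one_iff_mul_comm.mpr
    (h _ hv _ (Subgroup.commutator_mem_commutator hv hl))

theorem tr_FConf {π : Γ →* T} {a b : Γ} (h : ⁅π a, ⁅π a, π b⁆⁆ ≠ 1) : ⁅a, ⁅a, b⁆⁆ ≠ 1 := by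
  intro e
  apply h
  rw [← map_commutatorElement, ← map_commutatorElement, e, map_one]

/-- An element outside `Q` is not quadratic on some weak witness. -/
theorem step_FConf {π : Γ →* T} {Q : Subgroup T} (h : CPf Q) (r : UUf Q ≤ π.range) {v : Γ}
    (hv : π v ∉ Q) : ∃ C, WWf Q C ∧ ∃ l, π l ∈ C ∧ ⁅v, ⁅v, l⁆⁆ ≠ 1 := by
  have key : ∀ C, WWf Q C → ∀ c ∈ C, ⁅π v, ⁅π v, c⁆⁆ ≠ 1 →
      ∃ C, WWf Q C ∧ ∃ l, π l ∈ C ∧ ⁅v, ⁅v, l⁆⁆ ≠ 1 := by
    intro C w c hc n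
    obtain ⟨l, rfl⟩ := r (le_UU_FConf w hc)
    exact ⟨C, w, l, hc, tr_FConf n⟩
  rcases h.2 {π v} ⟨_, rfl, hv⟩ with ⟨F, h1, h2, h3, _, rfl, f, hf, n⟩ |
    ⟨C, h1, h2, h3, _, rfl, _, rfl, l, hl, n⟩ | ⟨P, C, w⟩
  · exact key F (ww_FConf h1 h2 (cub_FConf h3 h2) leQ_FConf) f hf n
  · exact key C (ww_FConf h1 h2 h3 le_rfl) _ (left_FConf h2 (memY_FConf rfl) hl) n
  · obtain ⟨_, rfl, hP⟩ := w.ne
    obtain ⟨l, hl, n⟩ := w.n1 _ rfl hP
    exact key C (wt_FConf w) l hl n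

/-- Commutators of `E` with `C` lie in `H` when those of the generators do. -/
theorem sub_FConf {Q C H : Subgroup T} {Y : Set T} (h : Nm (EE Q Y) C)
    (hQ : ∀ q ∈ Q, ∀ c ∈ C, ⁅q, c⁆ ∈ H) (hY : ∀ y ∈ Y, ∀ c ∈ C, ⁅y, c⁆ ∈ H) :
    ⁅EE Q Y, C⁆ ≤ H := by
  let S : Subgroup T :=
    { carrier := {e | e ∈ EE Q Y ∧ ∀ c ∈ C, ⁅e, c⁆ ∈ H}
      one_mem' := ⟨one_mem _, fun c _ => by rw [commutatorElement_one_left]; exact one_mem _⟩
      mul_mem' := by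
        rintro a b ⟨ha, ka⟩ ⟨hb, kb⟩
        refine ⟨mul_mem ha hb, fun c hc => ?_⟩
        have e : ⁅a * b, c⁆ = ⁅a, b * c * b⁻¹⁆ * ⁅b, c⁆ := by
          simp only [commutatorElement_def]; group
        rw [e]
        exact mul_mem (ka _ (h b hb c hc)) (kb c hc)
      inv_mem' := by
        rintro a ⟨ha, ka⟩
        refine ⟨inv_mem ha, fun c hc => ?_⟩
        have e : ⁅a⁻¹, c⁆ = ⁅a, a⁻¹ * c * a⁻¹⁻¹⁆⁻¹ := by
          simp only [commutatorElement_def]; group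
        rw [e]
        exact inv_mem (ka _ (h _ (inv_mem ha) c hc)) }
  have hS : EE Q Y ≤ S := sup_le (fun q hq => ⟨leQ_FConf hq, hQ q hq⟩)
    ((Subgroup.closure_le _).2 fun y hy => ⟨memY_FConf hy, hY y hy⟩)
  exact Subgroup.commutator_le.2 fun e he c hc => (hS he).2 c hc

/-- The stable case: `[C, C]` lies in `[D, D]`. -/
theorem stab_FConf {Q C D : Subgroup T} {Y : Set T} (h : Nm (EE Q Y) C) (hc : Cub C Q)
    (hD : D ≤ C) (hY : ∀ y ∈ Y, ∀ c ∈ C, ⁅y, c⁆ ∈ D) :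
    ⁅⁅EE Q Y, C⁆, ⁅EE Q Y, C⁆⁆ ≤ ⁅D, D⁆ := by
  let H : Subgroup T :=
    { carrier := {x | ∃ d ∈ D, ∃ z ∈ C, (∀ c ∈ C, c * z = z * c) ∧ x = d * z}
      one_mem' := ⟨1, one_mem _, 1, one_mem _, fun c _ => by simp, by simp⟩
      mul_mem' := by
        rintro _ _ ⟨d, hd, z, hz, kz, rfl⟩ ⟨d', hd', z', hz', kz', rfl⟩
        refine ⟨d * d', mul_mem hd hd', z * z', mul_mem hz hz', fun c hc => ?_, ?_⟩
        · rw [← mul_assoc, kz c hc, mul_assoc, kz' c hc, mul_assoc]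
        · rw [mul_assoc, ← mul_assoc z, ← kz d' (hD hd'), mul_assoc, mul_assoc]
      inv_mem' := by
        rintro _ ⟨d, hd, z, hz, kz, rfl⟩
        refine ⟨d⁻¹, inv_mem hd, z⁻¹, inv_mem hz, fun c hc => ?_, ?_⟩
        · exact (show Commute c z from kz c hc).inv_right.eq
        · rw [kz d (hD hd), mul_inv_rev] }
  have hH : ⁅EE Q Y, C⁆ ≤ H := by
    refine sub_FConf h (fun q hq c k => ⟨1, one_mem _, ⁅q, c⁆, left_FConf h (leQ_FConf hq) k,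
      fun c' k' => hc c' k' _ ?_, (one_mul _).symm⟩)
      fun y hy c k => ⟨⁅y, c⁆, hY y hy c k, 1, one_mem _, fun c _ => by simp, (mul_one _).symm⟩
    rw [← commutatorElement_inv]
    exact inv_mem (Subgroup.commutator_mem_commutator k hq)
  refine (Subgroup.commutator_mono hH hH).trans (Subgroup.commutator_le.2 ?_)
  rintro _ ⟨d, hd, z, hz, kz, rfl⟩ _ ⟨d', hd', z', hz', kz', rfl⟩
  have e : ⁅d * z, d' * z'⁆ = ⁅d, d'⁆ := by
    have e1 : z * (d' * z') * z⁻¹ = d' * z' := by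
      rw [← kz _ (mul_mem (hD hd') hz'), mul_inv_cancel_right]
    have e2 : z' * d⁻¹ * z'⁻¹ = d⁻¹ := by
      rw [← kz' _ (inv_mem (hD hd)), mul_inv_cancel_right]
    calc ⁅d * z, d' * z'⁆ = d * (z * (d' * z') * z⁻¹) * d⁻¹ * (d' * z')⁻¹ := by
          simp only [commutatorElement_def]; group
      _ = d * d' * (z' * d⁻¹ * z'⁻¹) * d'⁻¹ := by rw [e1]; group
      _ = ⁅d, d'⁆ := by rw [e2, commutatorElement_def]
  rw [e]
  exact Subgroup.commutator_mem_commutator hd hd'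

/-- Index three on one side contradicts rank two on the other side. -/
theorem idx_FConf {π₁ π₂ : Γ →* T} (i₂ : Function.Injective π₂) {C₁ C₂ E₂ P₂ : Subgroup T}
    (r : C₁ ≤ π₁.range) (hE : ∀ c, π₁ c ∈ C₁ → π₂ c ∈ E₂) (hc : Cub C₂ P₂) (hI : Idx3 E₂ P₂)
    {v l : Γ} (hv : π₁ v ∈ C₁) (vP : π₂ v ∉ P₂) (hl : π₂ l ∈ C₂) : ¬ Rank2 C₁ (π₁ l) := by
  intro rk
  obtain ⟨c, k, k₀, k₁, k₂⟩ := rk _ hv
  obtain ⟨c, rfl⟩ := r k
  rcases hI _ (hE v hv) vP _ (hE c k) with h | h | h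
  · exact tr_FConf k₀ (quad_FConf i₂ hc hl h)
  · rw [← map_inv, ← map_mul] at h k₁
    exact tr_FConf k₁ (quad_FConf i₂ hc hl h)
  · rw [← map_mul] at h k₂
    exact tr_FConf k₂ (quad_FConf i₂ hc hl h)

theorem confF {π₁ π₂ : Γ →* T} (i₁ : Function.Injective π₁) (i₂ : Function.Injective π₂)
    {Q₁ Q₂ : Subgroup T} (h₁ : CPf Q₁) (h₂ : CPf Q₂) (r₁ : UUf Q₁ ≤ π₁.range)
    (r₂ : UUf Q₂ ≤ π₂.range) {x : Γ} (hx : π₁ x ∈ UUf Q₁) : π₂ x ∈ Q₂ := by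
  by_contra hx₂
  obtain ⟨C', w', v₀, hv₀, v₀Q⟩ : ∃ C', WWf Q₁ C' ∧ ∃ v, π₁ v ∈ C' ∧ π₂ v ∉ Q₂ := by
    by_contra hc
    refine hx₂ (gen_FConf i₁ r₁ (Q₂.comap π₂) (fun C w v hv => ?_) hx)
    by_contra hv'
    exact hc ⟨C, w, v, hv, hv'⟩
  obtain ⟨C'', w'', l₀, hl₀, n₀⟩ := step_FConf h₂ r₂ v₀Q
  have l₀Q : π₁ l₀ ∉ Q₁ := fun h => n₀ (quad_FConf i₁ w'.cub hv₀ h)
  obtain ⟨Y₁, hY₁⟩ : ∃ Y : Set T, ∀ y, y ∈ Y ↔ ∃ b C, WWf Q₂ C ∧ π₂ b ∈ C ∧ y = π₁ b :=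
    ⟨{y | ∃ b C, WWf Q₂ C ∧ π₂ b ∈ C ∧ y = π₁ b}, fun _ => Iff.rfl⟩
  have m₁ : ∀ {C}, WWf Q₂ C → ∀ {b}, π₂ b ∈ C → π₁ b ∈ Y₁ :=
    fun w b hb => (hY₁ _).2 ⟨b, _, w, hb, rfl⟩
  obtain ⟨P₁, C₁, W₁⟩ : ∃ P C, Wt Q₁ Y₁ P C := by
    rcases h₁.2 Y₁ ⟨_, m₁ w'' hl₀, l₀Q⟩ with ⟨F, h1, h2, h3, y, hy, f, hf, n⟩ |
      ⟨C, h1, h2, h3, y', hy', y, hy, l, hl, n⟩ | h
    · obtain ⟨b, C, w, hb, rfl⟩ := (hY₁ _).1 hy
      obtain ⟨f, rfl⟩ := r₁ (le_UU_FConf (ww_FConf h1 h2 (cub_FConf h3 h2) leQ_FConf) hf)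
      obtain ⟨D, w₂, l, hl, n'⟩ := step_FConf h₂ r₂
        (fun h => tr_FConf n (quad_FConf i₂ w.cub hb h))
      exact (n' (quad_FConf i₁ (cub_FConf h3 h2) hf (memY_FConf (m₁ w₂ hl)))).elim
    · obtain ⟨b, D, w, hb, rfl⟩ := (hY₁ _).1 hy
      obtain ⟨a, D', w₂, ha, rfl⟩ := (hY₁ _).1 hy'
      obtain ⟨l, rfl⟩ := r₁ (le_UU_FConf (ww_FConf h1 h2 h3 le_rfl) hl)
      rw [← map_commutatorElement π₁ a l] at n
      refine (tr_FConf n (quad_FConf i₂ w.cub hb ?_)).elim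
      rw [map_commutatorElement, ← commutatorElement_inv, commutatorElement_def]
      exact inv_mem (mul_mem (h₂.1.conj_mem _ (w₂.CQ ha) _) (inv_mem (w₂.CQ ha)))
    · exact h
  have u₁ : C₁ ≤ π₁.range := (le_UU_FConf (wt_FConf W₁)).trans r₁
  obtain ⟨c₀, hc₀, c₀Q⟩ : ∃ c, π₁ c ∈ C₁ ∧ π₂ c ∉ Q₂ := by
    obtain ⟨y, hy, yP⟩ := W₁.ne
    obtain ⟨c, hc, n⟩ := W₁.n1 y hy yP
    obtain ⟨b, D, w, hb, rfl⟩ := (hY₁ _).1 hy
    obtain ⟨c, rfl⟩ := u₁ hc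
    exact ⟨c, hc, fun h => tr_FConf n (quad_FConf i₂ w.cub hb h)⟩
  obtain ⟨Y₂, hY₂⟩ : ∃ Y : Set T, ∀ y, y ∈ Y ↔ ∃ c, π₁ c ∈ C₁ ∧ y = π₂ c :=
    ⟨{y | ∃ c, π₁ c ∈ C₁ ∧ y = π₂ c}, fun _ => Iff.rfl⟩
  have m₂ : ∀ {c}, π₁ c ∈ C₁ → π₂ c ∈ Y₂ := fun hc => (hY₂ _).2 ⟨_, hc, rfl⟩
  obtain ⟨P₂, C₂, W₂⟩ : ∃ P C, Wt Q₂ Y₂ P C := by
    rcases h₂.2 Y₂ ⟨_, m₂ hc₀, c₀Q⟩ with ⟨F, h1, h2, h3, y, hy, f, hf, n⟩ |
      ⟨C, h1, h2, h3, y', hy', y, hy, l, hl, n⟩ | h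
    · obtain ⟨c, hc, rfl⟩ := (hY₂ _).1 hy
      have w := ww_FConf h1 h2 (cub_FConf h3 h2) leQ_FConf
      obtain ⟨f, rfl⟩ := r₂ (le_UU_FConf w hf)
      obtain ⟨l, hl, n'⟩ := W₁.n1 _ (m₁ w hf) fun h => tr_FConf n (quad_FConf i₁ W₁.cub hc h)
      obtain ⟨l, rfl⟩ := u₁ hl
      exact (tr_FConf n' (quad_FConf i₂ (cub_FConf h3 h2) hf (memY_FConf (m₂ hl)))).elim
    · obtain ⟨b, hb, rfl⟩ := (hY₂ _).1 hy
      obtain ⟨a, ha, rfl⟩ := (hY₂ _).1 hy'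
      have w := ww_FConf h1 h2 h3 le_rfl
      obtain ⟨l, rfl⟩ := r₂ (le_UU_FConf w hl)
      rw [← map_commutatorElement π₂ a l] at n
      refine (tr_FConf n (quad_FConf i₁ W₁.cub hb ?_)).elim
      rw [map_commutatorElement]
      exact W₁.QP (W₁.CQ (right_FConf W₁.norm (memY_FConf (m₁ w hl)) ha))
    · exact h
  have w₂ := wt_FConf W₂
  have u₂ : C₂ ≤ π₂.range := (le_UU_FConf w₂).trans r₂
  obtain ⟨y, hy, vP⟩ := W₂.ne
  obtain ⟨l, hl, nv⟩ := W₂.n1 y hy vP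
  obtain ⟨v, hv, rfl⟩ := (hY₂ _).1 hy
  obtain ⟨l, rfl⟩ := u₂ hl
  have lP : π₁ l ∉ P₁ := fun h => tr_FConf nv (quad_FConf i₁ W₁.cub hv h)
  have lY := m₁ w₂ hl
  have k₁ : Rank2 C₁ (π₁ l) := by
    refine (W₁.n2.resolve_left fun a => ?_) _ lY lP
    exact tr_FConf nv (quad_FConf i₁ (cub_FConf a W₁.norm) hv (memY_FConf lY))
  have k₂ : Rank2 C₂ (π₂ v) := by
    refine (W₂.n2.resolve_left fun a => ?_) _ hy vP
    obtain ⟨c, hc, n⟩ := W₁.n1 _ lY lP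
    obtain ⟨c, rfl⟩ := u₁ hc
    exact tr_FConf n (quad_FConf i₂ (cub_FConf a W₂.norm) hl (memY_FConf (m₂ hc)))
  obtain ⟨s₁, -⟩ := W₁.n3.resolve_left fun h =>
    idx_FConf i₁ u₂ (fun c hc => memY_FConf (m₁ w₂ hc)) W₁.cub h hl lP hv k₂
  obtain ⟨-, s₂⟩ := W₂.n3.resolve_left fun h =>
    idx_FConf i₂ u₁ (fun c hc => memY_FConf (m₂ hc)) W₂.cub h hv vP hl k₁
  obtain ⟨c, hc, n⟩ := s₁ _ lY lP
  obtain ⟨c, rfl⟩ := u₁ hc
  have hD : ⁅⁅EE Q₂ Y₂, C₂⁆, ⁅EE Q₂ Y₂, C₂⁆⁆ ≤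
      ⁅(C₁.comap π₁).map π₂ ⊓ C₂, (C₁.comap π₁).map π₂ ⊓ C₂⁆ := by
    refine stab_FConf W₂.norm w₂.cub inf_le_right fun y hy d hd =>
      ⟨?_, left_FConf W₂.norm (memY_FConf hy) hd⟩
    obtain ⟨a, ha, rfl⟩ := (hY₂ _).1 hy
    obtain ⟨d, rfl⟩ := u₂ hd
    refine ⟨⁅a, d⁆, ?_, map_commutatorElement π₂ a d⟩
    change π₁ ⁅a, d⁆ ∈ C₁
    rw [map_commutatorElement]
    exact right_FConf W₁.norm (memY_FConf (m₁ w₂ hd)) ha
  have hM : ⁅(C₁.comap π₁).map π₂ ⊓ C₂, (C₁.comap π₁).map π₂ ⊓ C₂⁆ ≤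
      ((⁅C₁, C₁⁆ : Subgroup T).comap π₁).map π₂ := by
    refine Subgroup.commutator_le.2 ?_
    rintro _ ⟨⟨a, ha, rfl⟩, -⟩ _ ⟨⟨b, hb, rfl⟩, -⟩
    refine ⟨⁅a, b⁆, ?_, map_commutatorElement π₂ a b⟩
    change π₁ ⁅a, b⁆ ∈ ⁅C₁, C₁⁆
    rw [map_commutatorElement]
    exact Subgroup.commutator_mem_commutator ha hb
  obtain ⟨z, hz, e⟩ := hM (hD (s₂ (Subgroup.commutator_mem_commutator hl
    (right_FConf W₂.norm (memY_FConf (m₂ hc)) hl))))
  rw [← map_commutatorElement, ← map_commutatorElement] at e n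
  rw [i₂ e] at hz
  exact n hz

end Pool.Agent.MP_a5588a_al.Full

end

section

namespace Pool.Agent.MP_a5588a_al.Full

open Pool.Agent.MP_a5588a_al.Solv
open scoped commutatorElement

universe u v

section aux

variable {T : Type*} [Group T]

/-- One step of the descending chain. -/
def step_FThm (M : Subgroup T) : Subgroup T where
  carrier := {x | ∀ Q : Subgroup T, CPf Q → ∃ h : x ∈ Q, ∀ α : Q ≃* Q, ((α ⟨x, h⟩ : Q) : T) ∈ M}
  one_mem' := by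
    intro Q _
    refine ⟨Q.one_mem, fun α => ?_⟩
    have : α ⟨1, Q.one_mem⟩ = 1 := map_one α
    rw [this]
    exact M.one_mem
  mul_mem' := by
    intro x y hx hy Q hQ
    obtain ⟨h1, hx⟩ := hx Q hQ
    obtain ⟨h2, hy⟩ := hy Q hQ
    refine ⟨Q.mul_mem h1 h2, fun α => ?_⟩
    have : α ⟨x * y, Q.mul_mem h1 h2⟩ = α ⟨x, h1⟩ * α ⟨y, h2⟩ := map_mul α ⟨x, h1⟩ ⟨y, h2⟩
    rw [this]
    exact M.mul_mem (hx α) (hy α)
  inv_mem' := by
    intro x hx Q hQ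
    obtain ⟨h1, hx⟩ := hx Q hQ
    refine ⟨Q.inv_mem h1, fun α => ?_⟩
    have : α ⟨x⁻¹, Q.inv_mem h1⟩ = (α ⟨x, h1⟩)⁻¹ := map_inv α ⟨x, h1⟩
    rw [this]
    exact M.inv_mem (hx α)

theorem mem_step_FThm {M : Subgroup T} {x : T} : x ∈ step_FThm M ↔
    ∀ Q : Subgroup T, CPf Q → ∃ h : x ∈ Q, ∀ α : Q ≃* Q, ((α ⟨x, h⟩ : Q) : T) ∈ M := Iff.rfl

/-- The descending chain. -/
def chain_FThm (T : Type*) [Group T] : ℕ → Subgroup T
  | 0 => ⊤
  | m + 1 => step_FThm (chain_FThm T m)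

theorem cp_top : CPf (⊤ : Subgroup T) :=
  ⟨inferInstance, fun _ ⟨x, _, hx⟩ => absurd (Subgroup.mem_top x) hx⟩

theorem step_le_FThm (M : Subgroup T) : step_FThm M ≤ M := by
  intro x hx
  obtain ⟨h, hx⟩ := mem_step_FThm.1 hx ⊤ cp_top
  exact hx (MulEquiv.refl _)

theorem chain_anti_FThm : Antitone (chain_FThm T) :=
  antitone_nat_of_succ_le fun m => step_le_FThm (chain_FThm T m)

theorem transport_FThm (m : ℕ) : ∀ x : T, x ∈ chain_FThm T m → x ∉ chain_FThm T (m + 1) →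
    ∃ Q₂ : Subgroup T, CPf Q₂ ∧ ∃ Δ : Subgroup (T × T), (∀ p ∈ Δ, p.1 = 1 ↔ p.2 = 1) ∧
      (∃ x', (x, x') ∈ Δ ∧ x' ∉ Q₂) ∧ ∀ j, ∀ y ∈ chain_FThm T (m + j),
        (∃ y' ∈ chain_FThm T j, (y, y') ∈ Δ) ∧ (∃ y' ∈ chain_FThm T j, (y', y) ∈ Δ) := by
  have diag : ∀ (m : ℕ) (x : T) (Q : Subgroup T), CPf Q → x ∉ Q →
      ∃ Q₂ : Subgroup T, CPf Q₂ ∧ ∃ Δ : Subgroup (T × T), (∀ p ∈ Δ, p.1 = 1 ↔ p.2 = 1) ∧
      (∃ x', (x, x') ∈ Δ ∧ x' ∉ Q₂) ∧ ∀ j, ∀ y ∈ chain_FThm T (m + j),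
        (∃ y' ∈ chain_FThm T j, (y, y') ∈ Δ) ∧ (∃ y' ∈ chain_FThm T j, (y', y) ∈ Δ) := by
    intro m x Q hQ hx
    refine ⟨Q, hQ, (MonoidHom.fst T T).eqLocus (MonoidHom.snd T T), fun p hp => ?_,
      ⟨x, rfl, hx⟩, fun j y hy => ?_⟩
    · have : p.1 = p.2 := hp
      rw [this]
    · have hj : y ∈ chain_FThm T j := chain_anti_FThm (Nat.le_add_left j m) hy
      exact ⟨⟨y, hj, rfl⟩, ⟨y, hj, rfl⟩⟩
  induction m with
  | zero =>
    intro x _ hx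
    by_contra hc
    refine hx (mem_step_FThm.2 fun Q hQ => ?_)
    by_cases h : x ∈ Q
    · exact ⟨h, fun α => Subgroup.mem_top _⟩
    · exact absurd (diag 0 x Q hQ h) hc
  | succ m ih =>
    intro x hx hx'
    by_contra hc
    refine hx' (mem_step_FThm.2 fun Q hQ => ?_)
    obtain ⟨h, hα⟩ := mem_step_FThm.1 hx Q hQ
    refine ⟨h, fun α => ?_⟩
    by_contra hn
    obtain ⟨Q₂, hQ₂, Δ, hΔ, ⟨x', hxx, hx2⟩, hj⟩ := ih _ (hα α) hn
    apply hc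
    let f : Q × T →* T × T := (Q.subtype.comp α.toMonoidHom).prodMap (MonoidHom.id T)
    let g : Q × T →* T × T := Q.subtype.prodMap (MonoidHom.id T)
    have key : ∀ (y : Q) (z : T), (((α y : Q) : T), z) ∈ Δ → ((y : T), z) ∈ (Δ.comap f).map g :=
      fun y z hyz => ⟨(y, z), hyz, rfl⟩
    refine ⟨Q₂, hQ₂, (Δ.comap f).map g, ?_, ⟨x', key ⟨x, h⟩ x' hxx, hx2⟩, fun j y hy => ⟨?_, ?_⟩⟩
    · rintro p ⟨⟨y, z⟩, hyz, rfl⟩
      have h1 : ((α y : Q) : T) = 1 ↔ z = 1 := hΔ _ hyz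
      change (y : T) = 1 ↔ z = 1
      rw [← h1, OneMemClass.coe_eq_one, OneMemClass.coe_eq_one, map_eq_one_iff α α.injective]
    · have e : m + 1 + j = m + j + 1 := by omega
      rw [e] at hy
      obtain ⟨hyQ, hyα⟩ := mem_step_FThm.1 hy Q hQ
      obtain ⟨y', hy', hyy⟩ := (hj j _ (hyα α)).1
      exact ⟨y', hy', key ⟨y, hyQ⟩ y' hyy⟩
    · have e : m + 1 + j = m + (j + 1) := by omega
      rw [e] at hy
      obtain ⟨y', hy', hyy⟩ := (hj (j + 1) y hy).2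
      obtain ⟨hyQ, hyα⟩ := mem_step_FThm.1 hy' Q hQ
      refine ⟨_, hyα α.symm, key _ y ?_⟩
      rw [MulEquiv.apply_symm_apply]
      exact hyy

theorem uu_top_FThm [Finite T] [Nontrivial T] (hT : IsPGroup 3 T) :
    ∃ z ∈ UUf (⊤ : Subgroup T), z ≠ 1 := by
  have : Fact (Nat.Prime 3) := ⟨Nat.prime_three⟩
  have := hT.center_nontrivial
  obtain ⟨z, hz⟩ := exists_ne (1 : Subgroup.center T)
  have hW : WWf (⊤ : Subgroup T) (Subgroup.center T) :=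
    { CQ := le_top
      norm := fun y _ c hc => by
        rw [Subgroup.mem_center_iff.1 hc y, mul_inv_cancel_right]
        exact hc
      cub := fun c hc w _ => (Subgroup.mem_center_iff.1 hc w).symm }
  exact ⟨z, (le_sSup (s := {C | WWf (⊤ : Subgroup T) C}) hW) z.2, fun h => hz (Subtype.ext h)⟩

end aux

theorem thmF (T : Type*) [Group T] [Finite T] [Nontrivial T] (hT : IsPGroup 3 T) :
    ∃ W : Subgroup T, W ≠ ⊥ ∧ PAf W := by
  obtain ⟨m, hm⟩ : ∃ m, chain_FThm T (m + 1) = chain_FThm T m := by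
    by_contra hc
    have hs : StrictAnti (chain_FThm T) := strictAnti_nat_of_succ_lt fun m =>
      lt_of_le_of_ne (chain_anti_FThm (Nat.le_succ m)) fun h => hc ⟨m, h⟩
    exact not_injective_infinite_finite _ hs.injective
  refine ⟨chain_FThm T m, fun hW => ?_, fun Q hQ => ⟨fun x hx => ?_, fun α x hx => ?_⟩⟩
  · obtain ⟨e, he, he'⟩ : ∃ e, (∀ Q : Subgroup T, CPf Q → UUf Q ≤ chain_FThm T e) ∧
        ¬ ∀ Q : Subgroup T, CPf Q → UUf Q ≤ chain_FThm T (e + 1) := by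
      by_contra hc
      have hall : ∀ e, ∀ Q : Subgroup T, CPf Q → UUf Q ≤ chain_FThm T e := by
        intro e
        induction e with
        | zero => exact fun Q _ => le_top
        | succ e ih =>
          by_contra hn
          exact hc ⟨e, ih, hn⟩
      obtain ⟨z, hz, hz1⟩ := uu_top_FThm hT
      have := hall m ⊤ cp_top hz
      rw [hW] at this
      exact hz1 (Subgroup.mem_bot.1 this)
    apply he'
    intro Q₁ hQ₁ x hx
    by_contra hn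
    obtain ⟨Q₂, hQ₂, Δ, hΔ, ⟨x', hxx, hx2⟩, hj⟩ := transport_FThm e x (he Q₁ hQ₁ hx) hn
    apply hx2
    refine confF (π₁ := (MonoidHom.fst T T).comp Δ.subtype)
      (π₂ := (MonoidHom.snd T T).comp Δ.subtype) ?_ ?_ hQ₁ hQ₂ ?_ ?_ (x := ⟨(x, x'), hxx⟩) hx
    · rw [injective_iff_map_eq_one]
      intro p hp
      have h1 : (p : T × T).1 = 1 := hp
      exact Subtype.ext (Prod.ext h1 ((hΔ _ p.2).1 h1))
    · rw [injective_iff_map_eq_one]
      intro p hp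
      have h1 : (p : T × T).2 = 1 := hp
      exact Subtype.ext (Prod.ext ((hΔ _ p.2).2 h1) h1)
    · intro y hy
      obtain ⟨y', _, hyy⟩ := (hj 0 y (he Q₁ hQ₁ hy)).1
      exact ⟨⟨_, hyy⟩, rfl⟩
    · intro y hy
      obtain ⟨y', _, hyy⟩ := (hj 0 y (he Q₂ hQ₂ hy)).2
      exact ⟨⟨_, hyy⟩, rfl⟩
  · rw [← hm] at hx
    exact (mem_step_FThm.1 hx Q hQ).1
  · rw [← hm] at hx
    exact (mem_step_FThm.1 hx Q hQ).2 α

variable {T Γ : Type*} [Group T] [Group Γ]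

theorem ee_map_FThm (f : Γ →* T) (Q : Subgroup Γ) (Y : Set Γ) :
    EE (Q.map f) (f '' Y) = (EE Q Y).map f := by
  rw [EE, EE, Subgroup.map_sup, MonoidHom.map_closure]

theorem iff_FThm {Q P C : Subgroup T} {Y : Set T} : Wt Q Y P C ↔ Q ≤ P ∧ (∃ y ∈ Y, y ∉ P) ∧
    C ≤ Q ∧ Nm (EE Q Y) C ∧ Cub C P ∧ (∀ y ∈ Y, y ∉ P → ∃ l ∈ C, ⁅y, ⁅y, l⁆⁆ ≠ 1) ∧
    (Abl C ∨ ∀ y ∈ Y, y ∉ P → Rank2 C y) ∧
    (Idx3 (EE Q Y) P ∨ ((∀ y ∈ Y, y ∉ P → ∃ l ∈ C, ⁅y, ⁅y, l⁆⁆ ∉ ⁅C, C⁆) ∧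
      ⁅C, C⁆ ≤ ⁅⁅EE Q Y, C⁆, ⁅EE Q Y, C⁆⁆)) :=
  ⟨fun h => ⟨h.1, h.2, h.3, h.4, h.5, h.6, h.7, h.8⟩,
    fun ⟨a, b, c, d, e, f, g, h⟩ => ⟨a, b, c, d, e, f, g, h⟩⟩

theorem wt_map_FThm {f : Γ →* T} (hf : Function.Injective f) {Q P C : Subgroup Γ} {Y : Set Γ} :
    Wt (Q.map f) (f '' Y) (P.map f) (C.map f) ↔ Wt Q Y P C := by
  simp only [iff_FThm, ee_map_FThm, Nm, Cub, Abl, Idx3, Rank2, ← Subgroup.map_commutator, all_Amb,
    ex_Amb, Set.forall_mem_image, Set.exists_mem_image, ← map_inv, ← map_mul,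
    ← map_commutatorElement, Subgroup.mem_map_iff_mem hf, hf.eq_iff, ne_eq,
    map_eq_one_iff f hf, Subgroup.map_le_map_iff_of_injective hf]

theorem wt_inf_FThm {Q P C : Subgroup T} {Y : Set T} (h : Wt Q Y P C) :
    Wt Q Y (P ⊓ EE Q Y) C := by
  have hY : ∀ y ∈ Y, y ∉ P ⊓ EE Q Y → y ∉ P := fun y hy h1 h2 =>
    h1 ⟨h2, Subgroup.mem_sup_right (Subgroup.subset_closure hy)⟩
  refine ⟨le_inf h.QP le_sup_left, h.ne.imp fun y hy => ⟨hy.1, fun c => hy.2 c.1⟩, h.CQ, h.norm,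
    fun c hc z hz => h.cub c hc z (Subgroup.commutator_mono le_rfl inf_le_left hz),
    fun y hy h1 => h.n1 y hy (hY y hy h1), h.n2.imp_right fun k y hy h1 => k y hy (hY y hy h1),
    h.n3.imp (fun k y hy h1 z hz => ?_) fun k => ⟨fun y hy h1 => k.1 y hy (hY y hy h1), k.2⟩⟩
  exact (k y hy (fun c => h1 ⟨c, hy⟩) z hz).imp (fun c => ⟨c, hz⟩) fun c =>
    c.imp (fun c => ⟨c, (EE Q Y).mul_mem ((EE Q Y).inv_mem hy) hz⟩)
      fun c => ⟨c, (EE Q Y).mul_mem hy hz⟩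

theorem ex_map_FThm {f : Γ →* T} (hf : Function.Injective f) {Q : Subgroup Γ}
    {φ : Subgroup T → Prop} : (∃ F, F ≤ Q.map f ∧ φ F) ↔ ∃ F, F ≤ Q ∧ φ (F.map f) := by
  refine ⟨fun ⟨F, h1, h2⟩ => ?_, fun ⟨F, h1, h2⟩ => ⟨_, Subgroup.map_mono h1, h2⟩⟩
  have e := Subgroup.map_comap_eq_self (h1.trans (Subgroup.map_le_range f Q))
  exact ⟨F.comap f, (Subgroup.map_le_map_iff_of_injective hf).1 (e.symm ▸ h1), e.symm ▸ h2⟩

theorem out_map {f : Γ →* T} (hf : Function.Injective f) {Q : Subgroup Γ} {Y : Set Γ} :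
    Out (Q.map f) (f '' Y) ↔ Out Q Y := by
  refine or_congr ?_ (or_congr ?_ ⟨fun ⟨P, C, h⟩ => ?_, fun ⟨P, C, h⟩ =>
    ⟨_, _, (wt_map_FThm hf).2 h⟩⟩)
  · simp only [Va, ex_map_FThm hf, ee_map_FThm, Nm, Abl, all_Amb, ex_Amb, Set.exists_mem_image,
      ← map_inv, ← map_mul, ← map_commutatorElement, Subgroup.mem_map_iff_mem hf, hf.eq_iff, ne_eq,
      map_eq_one_iff f hf]
  · simp only [Vb, ex_map_FThm hf, ee_map_FThm, Nm, Cub, ← Subgroup.map_commutator, all_Amb, ex_Amb,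
      Set.exists_mem_image, ← map_inv, ← map_mul, ← map_commutatorElement,
      Subgroup.mem_map_iff_mem hf, hf.eq_iff, ne_eq, map_eq_one_iff f hf]
  · have h' := wt_inf_FThm h
    have e1 := Subgroup.map_comap_eq_self (h.CQ.trans (Subgroup.map_le_range f Q))
    have e2 : ((P ⊓ EE (Q.map f) (f '' Y)).comap f).map f = P ⊓ EE (Q.map f) (f '' Y) :=
      Subgroup.map_comap_eq_self (inf_le_right.trans
        (ee_map_FThm f Q Y ▸ Subgroup.map_le_range f _))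
    exact ⟨_, _, (wt_map_FThm hf).1 (e1.symm ▸ e2.symm ▸ h')⟩

theorem cp_map_FThm {Q : Subgroup Γ} (h : CPf Q) (e : Γ ≃* T) : CPf (Q.map e.toMonoidHom) := by
  refine ⟨h.1.map _ e.surjective, fun Y ⟨y, hy, hQ⟩ => ?_⟩
  have e1 : e.toMonoidHom '' (e.toMonoidHom ⁻¹' Y) = Y := Set.image_preimage_eq Y e.surjective
  rw [← e1, out_map e.injective]
  exact h.2 _ ⟨e.symm y, by simpa using hy, fun c => hQ ⟨_, c, e.apply_symm_apply y⟩⟩

theorem PAf.map {W : Subgroup Γ} (h : PAf W) (e : Γ ≃* T) : PAf (W.map e.toMonoidHom) := by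
  intro Q hQ
  obtain ⟨h1, h2⟩ := h _ (cp_map_FThm hQ e.symm)
  refine ⟨all_Amb.2 fun w hw => ?_, fun α x hx => ?_⟩
  · obtain ⟨y, hy, rfl⟩ := h1 hw
    simpa using hy
  · obtain ⟨w, hw, hx⟩ := hx
    let ε := Subgroup.equivMapOfInjective Q e.symm.toMonoidHom e.symm.injective
    have h3 : ((ε x : Q.map e.symm.toMonoidHom) : Γ) ∈ W := by
      change e.symm x ∈ W
      rw [← hx]
      simpa using hw
    have h4 := h2 ((ε.symm.trans α).trans ε) (ε x) h3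
    rw [MulEquiv.trans_apply, MulEquiv.trans_apply, ε.symm_apply_apply] at h4
    exact ⟨_, h4, e.apply_symm_apply _⟩

theorem normF {W : Subgroup Γ} (hW : PAf W) {f : Γ →* T} (hf : Function.Injective f)
    {Q : Subgroup Γ} (hQ : CPf Q) [(Q.map f).Normal] : (W.map f).Normal := by
  obtain ⟨h1, h2⟩ := hW Q hQ
  refine ⟨all_Amb.2 fun w hw g => ?_⟩
  let e := Subgroup.equivMapOfInjective Q f hf
  refine ⟨_, h2 ((e.trans (MulAut.conjNormal g)).trans e.symm) ⟨w, h1 hw⟩ hw, ?_⟩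
  exact congrArg Subtype.val (e.apply_symm_apply (MulAut.conjNormal g (e ⟨w, h1 hw⟩)))

theorem charF [Finite T] {R : Subgroup T} {W : Subgroup R} (hW : PAf W) :
    Subgroup.normalizer (R : Set T) ≤
      Subgroup.normalizer ((W.map R.subtype : Subgroup T) : Set T) := by
  intro r hr
  refine Subgroup.mem_normalizer_fintype ?_
  rintro _ ⟨x, hx, rfl⟩
  exact ⟨_, (hW ⊤ cp_top).2
    (Subgroup.topEquiv.trans ((R.normalizerMonoidHom ⟨r, hr⟩).trans Subgroup.topEquiv.symm))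
    ⟨x, trivial⟩ hx, rfl⟩

end Pool.Agent.MP_a5588a_al.Full

end

section

namespace Pool.Agent.MP_a5588a_al.Full

open Pool.Agent.MP_a5588a_al.Solv
open scoped commutatorElement

universe u v

variable {G : Type u} [Group G] [Finite G] {A : Type v} [CommGroup A]

omit [Finite G] in
theorem loc_FLG {T₀ : Type u} [Group T₀] {W : Subgroup T₀} (hW : PAf W) {N R : Subgroup G}
    (hN : MainF A N) (hR : Mx_LG N R) (f : T₀ →* G) (hf : Function.Injective f)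
    (hT : f.range = R) {θ : G → A} (hθ : MulOn R θ)
    (h : FI R θ (Subgroup.normalizer ((W.map f : Subgroup G) : Set G))) : FI R θ N := by
  let R0 : Sylow 3 N := ⟨R.subgroupOf N, hR.p3.comap_subtype, fun {Q'} hQ' hle => by
    have := hR.max (Q'.map N.subtype) (Subgroup.map_subtype_le _) (hQ'.map _)
      (fun x hx => ⟨⟨x, hR.le hx⟩, hle hx, rfl⟩)
    rw [← this, Subgroup.subgroupOf,
      Subgroup.comap_map_eq_self_of_injective N.subtype_injective]⟩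
  have hm : ∀ x, f x ∈ R := fun x => hT ▸ ⟨x, rfl⟩
  let f' : T₀ →* N := f.codRestrict N fun x => hR.le (hm x)
  have key := hN T₀ W hW R0 f' (fun x y e => hf (congrArg Subtype.val e)) (θ := fun x => θ x)
    (by
      ext x
      constructor
      · rintro ⟨y, rfl⟩
        exact hm y
      · intro hx
        obtain ⟨y, hy⟩ : (x : G) ∈ f.range := hT ▸ hx
        exact ⟨y, Subtype.ext hy⟩)
    (fun x hx y hy => hθ x hx y hy) (fun g hg s hs hs' => by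
      refine h g ?_ s hs hs'
      have := Subgroup.le_normalizer_map N.subtype ⟨g, hg, rfl⟩
      rwa [Subgroup.map_map] at this)
  exact fun g hg s hs hs' => key ⟨g, hg⟩ trivial ⟨s, hR.le hs⟩ hs hs'

theorem lgF (h : ∀ D : Subgroup G, D ≠ ⊥ → IsPGroup 3 D →
    MainF A (Subgroup.normalizer (D : Set G))) : MainF A G := by
  have hG := h
  clear h
  intro T₀ _ W hW T f hf hT θ hθ h
  have hp : ∀ g : G, IsPGroup 3 (cj (T : Subgroup G) g) := fun g => T.isPGroup'.map _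
  have hmul : ∀ g : G, MulOn (cj (T : Subgroup G) g) fun x => θ (g⁻¹ * x * g) := by
    intro g x hx y hy
    simp only
    rw [← hθ _ (mem_cj.mp hx) _ (mem_cj.mp hy)]
    congr 1; group
  have hcard : ∀ {P : Subgroup G} {g : G}, P ≤ cj T g → ¬ Nat.card T < Nat.card P + 0 :=
    fun {P g} hP => not_lt.2 ((Subgroup.card_le_of_le hP).trans_eq (card_cj _ g))
  have main : ∀ k : ℕ, (∀ (D R : Subgroup G) (g : G), D ≠ ⊥ → IsPGroup 3 D →
      Mx_LG (Subgroup.normalizer (D : Set G)) R → R ≤ cj T g → Nat.card T < Nat.card R + k →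
      FI R (fun x => θ (g⁻¹ * x * g)) (Subgroup.normalizer (D : Set G))) ∧
      ∀ (P : Subgroup G) (g₁ g₂ : G), P ≤ cj T g₁ → P ≤ cj T g₂ → Nat.card T < Nat.card P + k →
        ∀ x ∈ P, θ (g₁⁻¹ * x * g₁) = θ (g₂⁻¹ * x * g₂) := by
    intro k
    induction k with
    | zero =>
      exact ⟨fun D R g _ _ _ a b => (hcard a b).elim, fun P g₁ g₂ a _ b => (hcard a b).elim⟩
    | succ k ih =>
    obtain ⟨ihL, ihF⟩ := ih
    have hL : ∀ (D R : Subgroup G) (g : G), D ≠ ⊥ → IsPGroup 3 D →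
        Mx_LG (Subgroup.normalizer (D : Set G)) R → R ≤ cj T g →
        Nat.card T < Nat.card R + (k + 1) →
        FI R (fun x => θ (g⁻¹ * x * g)) (Subgroup.normalizer (D : Set G)) := by
      intro D R g hD0 hD hR hRg hk
      have hm : MulOn R fun x => θ (g⁻¹ * x * g) := fun x hx y hy => hmul g x (hRg hx) y (hRg hy)
      by_cases e : R = cj T g
      · refine loc_FLG hW (hG D hD0 hD) hR ((MulAut.conj g).toMonoidHom.comp f)
          ((cj_inj g).comp hf) (by rw [MonoidHom.range_comp, hT, e]; rfl) hm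
          fun n hn s hs hs' => ?_
        have h1 : g⁻¹ * n * g ∈ Subgroup.normalizer ((W.map f : Subgroup G) : Set G) := by
          refine Subgroup.mem_normalizer_fintype fun y hy => ?_
          rw [← Subgroup.map_map] at hn
          have h2 : g * y * g⁻¹ ∈ cj (W.map f) g := mem_cj.mpr (by simpa [mul_assoc] using hy)
          have h3 := mem_cj.mp ((Subgroup.mem_normalizer_iff.mp hn _).mp h2)
          rw [SetLike.mem_coe]
          convert h3 using 1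
          group
        have e2 : g⁻¹ * (n * s * n⁻¹) * g = g⁻¹ * n * g * (g⁻¹ * s * g) * (g⁻¹ * n * g)⁻¹ := by
          group
        rw [e2]
        exact h _ h1 _ (mem_cj.mp (hRg hs)) (e2 ▸ mem_cj.mp (hRg hs'))
      · have hDR : D ≤ R := by
          have h1 : D ⊔ R = R := by
            refine hR.max _ (sup_le Subgroup.le_normalizer hR.le) ?_ le_sup_right
            exact IsPGroup.to_sup_of_normal_left' hD hR.p3 hR.le
          exact h1 ▸ le_sup_left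
        have : Nontrivial R := (Subgroup.nontrivial_iff_ne_bot R).2 fun h0 =>
          hD0 (le_bot_iff.1 (h0 ▸ hDR))
        obtain ⟨W₁, hW₁0, hW₁⟩ := thmF R hR.p3
        obtain ⟨R', g', a1, a2, a3⟩ := exists_mx_LG T
          (P := cj T g ⊓ Subgroup.normalizer (R : Set G))
          (inf_le_right.trans (charF hW₁)) (hp g).to_inf_left
        have hlt := grow_LG (hp g) hRg e
        have hle := Subgroup.card_le_of_le a1
        have hRR : R ≤ cj T g ⊓ Subgroup.normalizer (R : Set G) :=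
          le_inf hRg Subgroup.le_normalizer
        have b1 := ihL (W₁.map R.subtype) R' g'
          (fun h0 => hW₁0 ((Subgroup.map_eq_bot_iff_of_injective _ R.subtype_injective).1 h0))
          (hR.p3.to_le (Subgroup.map_subtype_le _)) a2 a3 (by omega)
        have b2 := ihF _ g g' inf_le_left (a1.trans a3) (by omega)
        refine loc_FLG hW₁ (hG D hD0 hD) hR R.subtype R.subtype_injective R.range_subtype hm
          fun n hn s hs hs' => ?_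
        rw [b2 _ (hRR hs), b2 _ (hRR hs')]
        exact b1 n hn s (a1 (hRR hs)) (a1 (hRR hs'))
    refine ⟨hL, fun P g₁ g₂ h₁ h₂ hk => ?_⟩
    by_cases hP0 : P = ⊥
    · intro x hx
      rw [hP0, Subgroup.mem_bot] at hx
      simp [hx]
    have hP := (hp g₁).to_le h₁
    obtain ⟨R, g₀, a1, a2, a3⟩ := exists_mx_LG T Subgroup.le_normalizer hP
    have hle := Subgroup.card_le_of_le a1
    have b1 := hL P R g₀ hP0 hP a2 a3 (by omega)
    suffices H : ∀ g, P ≤ cj T g → ∀ x ∈ P, θ (g⁻¹ * x * g) = θ (g₀⁻¹ * x * g₀) by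
      intro x hx; rw [H g₁ h₁ x hx, H g₂ h₂ x hx]
    intro g hg x hx
    suffices H : ∃ y ∈ Subgroup.normalizer (P : Set G),
        θ (g⁻¹ * x * g) = θ ((y * g₀)⁻¹ * x * (y * g₀)) by
      obtain ⟨y, hy, e⟩ := H
      have hy' := Subgroup.inv_mem _ hy
      refine e.trans (Eq.trans ?_
        (b1 _ hy' x (a1 hx) (a1 ((Subgroup.mem_normalizer_iff.mp hy' x).mp hx))))
      congr 1; group
    by_cases e : P = cj T g
    · have e0 : P = cj T g₀ :=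
        Subgroup.eq_of_le_of_card_ge (a1.trans a3) (by rw [e, card_cj, card_cj])
      refine ⟨g * g₀⁻¹, Subgroup.mem_normalizer_fintype fun z hz => ?_, by simp⟩
      have h3 : g₀⁻¹ * z * g₀ ∈ (T : Subgroup G) := mem_cj.mp (e0 ▸ hz)
      rw [e, SetLike.mem_coe, mem_cj]
      convert h3 using 1
      group
    · have hlt := grow_LG (hp g) hg e
      obtain ⟨y, hyN, hy⟩ := sylow_conj a2.le a2.p3 a2.max
        (Q := cj T g ⊓ Subgroup.normalizer (P : Set G)) inf_le_right (hp g).to_inf_left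
      refine ⟨y, hyN, ihF _ g (y * g₀) inf_le_left (fun z hz => ?_) (by omega) x
        ⟨hg hx, Subgroup.le_normalizer hx⟩⟩
      have := mem_cj.mp (a3 (hy z hz))
      rw [mem_cj]; convert this using 1; group
  intro g _ s hs hs'
  have := (main (Nat.card T + 1)).2 (Subgroup.zpowers s) g⁻¹ 1
    (Subgroup.zpowers_le.mpr (mem_cj.mpr (by simpa using hs')))
    (Subgroup.zpowers_le.mpr (mem_cj.mpr (by simpa using hs))) (by omega) s
    (Subgroup.mem_zpowers _)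
  simpa using this

end Pool.Agent.MP_a5588a_al.Full

end

section

namespace Pool.Agent.MP_a5588a_al.Full

open Pool.Agent.MP_a5588a_al.Solv
open scoped commutatorElement

universe u v

variable {G : Type u} [Group G] [Finite G] {A : Type v} [CommGroup A]

/-- the transfer on a normal subgroup on which the map is invariant -/
theorem tr_FTrans (T : Subgroup G) {Q : Subgroup G} [hn : Q.Normal] (hQ : Q ≤ T) {θ : G → A}
    (hθ : MulOn T θ) (top : Stab Q θ = ⊤) :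
    ∃ τ : G →* A, ∀ x ∈ Q, τ x = θ x ^ T.index := by
  classical
  let η : T →* A := MonoidHom.mk' (fun x => θ x.1) fun x y => hθ _ x.2 _ y.2
  refine ⟨η.transfer, fun x hx => ?_⟩
  have : Fintype (Quotient (MulAction.orbitRel (Subgroup.zpowers x) (G ⧸ T))) :=
    Fintype.ofFinite _
  rw [Subgroup.index_eq_sum_minimalPeriod T x, ← Finset.prod_pow_eq_pow_sum,
    MonoidHom.transfer_eq_prod_quotient_orbitRel_zpowers_quot]
  refine Finset.prod_congr rfl fun q _ => ?_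
  rw [← (hom_R34 hθ).2.2.1 x (hQ hx)]
  have h := (top.ge (Subgroup.mem_top q.out.out⁻¹)) _
    (Q.pow_mem hx (Function.minimalPeriod (x • ·) q.out))
  rw [inv_inv] at h
  exact h

theorem transF (T : Sylow 3 G) {Q : Subgroup G} [Q.Normal] (hQ : Q ≤ T)
    (maxQ : ∀ K : Subgroup G, K.Normal → IsPGroup 3 K → K ≤ Q) {θ : G → A}
    (hθ : MulOn (T : Subgroup G) θ) (top : Stab Q θ = ⊤)
    (hp : ∀ K : Subgroup G, (T : Subgroup G) ≤ K → K ≠ ⊤ → FI (T : Subgroup G) θ K)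
    (ih : MainF A (G ⧸ Q)) : FI (T : Subgroup G) θ ⊤ := by
  have : Fact (Nat.Prime 3) := ⟨Nat.prime_three⟩
  obtain ⟨τ, hτ⟩ := tr_FTrans (T : Subgroup G) hQ hθ top
  obtain ⟨ψ, eψ⟩ : ∃ ψ : G → A, ∀ x, ψ x = θ x ^ (T : Subgroup G).index / τ x := ⟨_, fun _ => rfl⟩
  have hψ : MulOn (T : Subgroup G) ψ := fun x hx y hy => by
    rw [eψ, eψ, eψ, hθ x hx y hy, map_mul, mul_pow, mul_div_mul_comm]
  have hτc : ∀ g s : G, τ (g * s * g⁻¹) = τ s := fun g s => by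
    rw [map_mul, map_mul, map_inv, mul_inv_cancel_comm]
  have sj := QuotientGroup.mk'_surjective Q
  obtain ⟨Tb, eT⟩ : ∃ Tb : Sylow 3 (G ⧸ Q), Tb = T.mapSurjective sj := ⟨_, rfl⟩
  have mT : ∀ x : G, QuotientGroup.mk' Q x ∈ (Tb : Subgroup (G ⧸ Q)) ↔ x ∈ (T : Subgroup G) := by
    intro x
    rw [← Subgroup.mem_comap, eT, Sylow.coe_mapSurjective, Subgroup.comap_map_eq,
      QuotientGroup.ker_mk', sup_eq_left.2 hQ]
  have hb : ∀ x ∈ (T : Subgroup G), ψ (QuotientGroup.mk' Q x).out = ψ x := by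
    intro x hx
    obtain ⟨q, hq⟩ := QuotientGroup.mk_out_eq_mul Q x
    rw [QuotientGroup.mk'_apply, hq, hψ x hx q (hQ q.2), eψ q, hτ q q.2, div_self', mul_one]
  have hm : MulOn (Tb : Subgroup (G ⧸ Q)) fun y => ψ y.out := by
    intro x hx y hy
    obtain ⟨x, rfl⟩ := sj x
    obtain ⟨y, rfl⟩ := sj y
    rw [mT] at hx hy
    simp only
    rw [← map_mul, hb _ hx, hb _ hy, hb _ (mul_mem hx hy), hψ x hx y hy]
  have hF : FI (Tb : Subgroup (G ⧸ Q)) (fun y => ψ y.out) ⊤ := by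
    rcases (Tb : Subgroup (G ⧸ Q)).bot_or_nontrivial with h | h
    · intro g _ s hs _
      rw [h, Subgroup.mem_bot] at hs
      rw [hs, mul_one, mul_inv_cancel]
    obtain ⟨W, hW, hP⟩ := thmF (Tb : Subgroup (G ⧸ Q)) Tb.isPGroup'
    refine ih _ W hP Tb _ (Tb : Subgroup (G ⧸ Q)).subtype_injective (Subgroup.range_subtype _) _ hm
      fun g hg s hs hc => ?_
    obtain ⟨g, rfl⟩ := sj g
    obtain ⟨s, rfl⟩ := sj s
    rw [← map_inv, ← map_mul, ← map_mul] at hc ⊢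
    rw [mT] at hs hc
    have h1 := hp ((Subgroup.normalizer ((W.map (Tb : Subgroup (G ⧸ Q)).subtype :
      Subgroup (G ⧸ Q)) : Set (G ⧸ Q))).comap (QuotientGroup.mk' Q))
      (fun t ht => charF hP (Subgroup.le_normalizer ((mT t).2 ht))) (fun e => hW ?_) g hg s hs hc
    · rw [hb _ hs, hb _ hc, eψ, eψ, h1, hτc]
    have h2 : (W.map (Tb : Subgroup (G ⧸ Q)).subtype).Normal :=
      Subgroup.normalizer_eq_top_iff.1
        (Subgroup.comap_injective sj (e.trans (Subgroup.comap_top _).symm))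
    have h3 := maxQ _ (h2.comap (QuotientGroup.mk' Q))
      (((Tb.isPGroup'.to_subgroup W).map _).comap_of_ker_isPGroup _ (by
        rw [QuotientGroup.ker_mk']
        exact T.isPGroup'.to_le hQ))
    refine eq_bot_iff.2 fun w hw => Subgroup.mem_bot.2 (Subtype.ext ?_)
    obtain ⟨x, hx⟩ := sj w
    have h4 : x ∈ Q := h3 ⟨w, hw, hx.symm⟩
    rw [← hx]
    exact (QuotientGroup.eq_one_iff x).2 h4
  intro g _ s hs hc
  have h1 := hF (QuotientGroup.mk' Q g) (Subgroup.mem_top _) _ ((mT s).2 hs) (by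
    rw [← map_inv, ← map_mul, ← map_mul]
    exact (mT _).2 hc)
  rw [← map_inv, ← map_mul, ← map_mul] at h1
  simp only at h1
  rw [hb _ hs, hb _ hc, eψ, eψ, hτc, div_left_inj, ← div_eq_one, ← div_pow] at h1
  obtain ⟨-, h2, h3, -⟩ := hom_R34 hθ
  have hd : g * s * g⁻¹ * s⁻¹ ∈ (T : Subgroup G) := mul_mem hc (inv_mem hs)
  obtain ⟨k, hk⟩ := T.isPGroup' ⟨_, hd⟩
  have h4 : (g * s * g⁻¹ * s⁻¹) ^ 3 ^ k = 1 := congrArg Subtype.val hk
  have h5 : (θ (g * s * g⁻¹) / θ s) ^ 3 ^ k = 1 := by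
    rw [div_eq_mul_inv, ← h2 s hs, ← hθ _ hc _ (inv_mem hs), ← h3 _ hd, h4, (hom_R34 hθ).1]
  have hi : Nat.Coprime (T : Subgroup G).index (3 ^ k) :=
    Nat.Coprime.pow_right _ (Nat.prime_three.coprime_iff_not_dvd.2 T.not_dvd_index).symm
  exact div_eq_one.1 ((pow_eq_one_iff_of_coprime hi).1 ⟨h1, h5⟩)

end Pool.Agent.MP_a5588a_al.Full

end
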