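import Pool.Agent.Mg.Fa5588aa.G10e3ed
import Pool.Agent.Mg.Fa5588aa.G4f3300
import Pool.Agent.Mg.Fa5588aa.Gc3490f
import Pool.Agent.Mg.Fa5588aa.G63f2b0
import Pool.Agent.Mg.Fa5588aa.Ge45d38
import Pool.Agent.Mg.Fa5588aa.G1ab97f
import Pool.Agent.Mg.Fa5588aa.Geadf0b
import Pool.Agent.Mg.Fa5588aa.Gec32f3

section

namespace Pool.Agent.MP_a5588a_al.Full

open Pool.Agent.MP_a5588a_al.Solv
open scoped commutatorElement

universe u v

variable {G : Type u} {V : Type v} [Group G] [Finite G] [AddCommGroup V] [Finite V]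
  {ρ : G →* AddMonoid.End V} {M : Subgroup G}

omit [Finite G] [Finite V] in
theorem one_FVab (inj : Function.Injective ρ) {n : G} (h : ρ n = 1) : n = 1 :=
  inj (h.trans (map_one ρ).symm)

omit [Finite G] [Finite V] in
theorem comm_FVab (inj : Function.Injective ρ) {x y : G} (h₁ : (ρ x - 1) * (ρ y - 1) = 0)
    (h₂ : (ρ y - 1) * (ρ x - 1) = 0) : Commute x y := by
  refine inj ?_
  have e : ρ x * ρ y - ρ y * ρ x = (ρ x - 1) * (ρ y - 1) - (ρ y - 1) * (ρ x - 1) := by noncomm_ring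
  rw [map_mul, map_mul, ← sub_eq_zero, e, h₁, h₂, sub_zero]

theorem central {Y : Set G} (h : QN ρ Y M) {n w : G} (nM : n ∈ M) (n1 : n ≠ 1) (hn : Quad ρ n)
    (hw : Quad ρ w) (wM : w ∉ M) (hg : Gen ρ n w) (hc : ∀ y ∈ Y, Commute n y) :
    ac ρ n w = -1 := by
  obtain ⟨t1, t2⟩ := hg.t h.three hn hw
  have h1 : Subgroup.closure Y ≤ Subgroup.centralizer {(n * w) ^ 3} :=
    (Subgroup.closure_le _).2 fun y hy => Subgroup.mem_centralizer_singleton_iff.2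
      (generic (h2 h) nM n1 hn hw wM hg (h.quad y hy) (hc y hy))
  have h3 : w ∈ Subgroup.centralizer {(n * w) ^ 3} := by
    refine Subgroup.mem_centralizer_singleton_iff.2 (h.inj ?_)
    have := ac_comm hn hw (x := w) (Subgroup.subset_closure (Or.inr rfl))
    rw [map_mul, map_mul, t1, mul_sub, sub_mul, this.eq, mul_one, one_mul]
  have h4 := (h.um.um _ h1).resolve_left fun e => wM (e h3)
  have h5 : ∀ g, ac ρ n w * ρ g = ρ g * ac ρ n w := fun g => by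
    have e := congrArg ρ (Subgroup.mem_centralizer_singleton_iff.1 (h4 ▸ Subgroup.mem_top g :
      g ∈ Subgroup.centralizer {(n * w) ^ 3}))
    rw [map_mul, map_mul, t1, mul_sub, sub_mul, mul_one, one_mul] at e
    exact (sub_right_injective e).symm
  rcases h.smp (AddMonoidHom.ker (ac ρ n w)) (fun g _ v hv => by
    have e : ac ρ n w (ρ g v) = ρ g (ac ρ n w v) := DFunLike.congr_fun (h5 g) v
    have hv' : ac ρ n w v = 0 := hv
    change ac ρ n w (ρ g v) = 0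
    rw [e, hv', map_zero]) with e | e
  · ext v
    have e1 : ac ρ n w (ac ρ n w v) = -ac ρ n w v := DFunLike.congr_fun t2 v
    have e2 : ac ρ n w v + v ∈ AddMonoidHom.ker (ac ρ n w) := by
      change ac ρ n w (ac ρ n w v + v) = 0
      rw [map_add, e1, neg_add_cancel]
    rw [e] at e2
    exact eq_neg_of_add_eq_zero_left e2
  · have e1 : ac ρ n w = 0 := by
      ext v
      exact (e ▸ AddSubgroup.mem_top v : v ∈ AddMonoidHom.ker (ac ρ n w))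
    have e2 : ac ρ n w * (ρ n - 1) = -(ρ n - 1) := by
      rw [ac, add_mul, hg.1, mul_assoc, show (ρ n - 1) * (ρ n - 1) = 0 from hn, mul_zero, add_zero]
    rw [e1, zero_mul, eq_comm, neg_eq_zero, sub_eq_zero] at e2
    exact absurd (one_FVab h.inj e2) n1

theorem fix_FVab {Y : Set G} (h : QN ρ Y M) {w : G} (wM : w ∉ M) {v : V}
    (hv : ∀ y ∈ Y, (ρ y - 1) v = 0) (hw : (ρ w - 1) v = 0) : v = 0 := by
  let S : Subgroup G :=
    { carrier := {g | ρ g v = v}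
      one_mem' := DFunLike.congr_fun (map_one ρ) v
      mul_mem' := fun {a b} ha hb => (mul_ap ρ a b v).trans (by rw [hb, ha])
      inv_mem' := fun {a} ha => by
        have e := mul_ap ρ a⁻¹ a v
        rw [ha, inv_mul_cancel, map_one] at e
        exact e.symm }
  have h1 : Subgroup.closure Y ≤ S :=
    (Subgroup.closure_le _).2 fun y hy => sub_eq_zero.1 (hv y hy)
  have h2 := (h.um.um _ h1).resolve_left fun e => wM (e (sub_eq_zero.1 hw))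
  exact fx_top h.smp ⟨w, fun e => wM (one_FVab h.inj e ▸ M.one_mem)⟩
    fun g => (h2 ▸ Subgroup.mem_top g : g ∈ S)

theorem vab_core {u z : G} (h : QN ρ {u, z} M) (h₁ : (ρ u - 1) * (ρ z - 1) * (ρ u - 1) = 0)
    (h₂ : (ρ z - 1) * (ρ u - 1) * (ρ z - 1) = 0) : Commute u z := by
  have T := h2 h
  obtain ⟨hn, a1, a2, a3, a4⟩ := qc_n (h.quad u (Or.inl rfl)) (h.quad z (Or.inr rfl)) h₁ h₂
  by_cases n1 : ⁅z, u⁆ = 1
  · exact (commutatorElement_eq_one_iff_commute.1 n1).symm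
  have nM : ⁅z, u⁆ ∈ M := by
    have hu : u ∈ M := h.um.le (Subgroup.subset_closure (Or.inl rfl))
    have hz : z ∈ M := h.um.le (Subgroup.subset_closure (Or.inr rfl))
    exact M.mul_mem (M.mul_mem (M.mul_mem hz hu) (M.inv_mem hz)) (M.inv_mem hu)
  generalize ⁅z, u⁆ = n at hn a1 a2 a3 a4 n1 nM
  obtain ⟨g, wM⟩ := h.um.ex_conj (x := n) ⟨1, T.cube hn⟩ fun K hK pK e =>
    n1 (one_FVab h.inj (o3_triv h.three h.smp hK pK n e))
  have hA : ∀ w, w ∉ M → ∀ v, (ρ w - 1) ((ρ n - 1) v) = 0 → (ρ n - 1) v = 0 := fun w hw v e =>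
    fix_FVab h hw (by
      rintro _ (rfl | rfl)
      · exact DFunLike.congr_fun a2 v
      · exact DFunLike.congr_fun a4 v) e
  have hB : ∀ v, (ρ n - 1) ((ρ (g * n * g⁻¹) - 1) v) = 0 → (ρ (g * n * g⁻¹) - 1) v = 0 := by
    intro v e
    have e0 : ρ g * ρ g⁻¹ = 1 := by rw [← map_mul, mul_inv_cancel, map_one]
    have e0' : ρ g⁻¹ * ρ g = 1 := by rw [← map_mul, inv_mul_cancel, map_one]
    have e1 : ρ (g * n * g⁻¹) - 1 = ρ g * (ρ n - 1) * ρ g⁻¹ := by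
      rw [map_mul, map_mul, mul_sub, sub_mul, mul_one, e0]
    have e2 : ρ (g⁻¹ * n * g) - 1 = ρ g⁻¹ * (ρ n - 1) * ρ g := by
      rw [map_mul, map_mul, mul_sub, sub_mul, mul_one, e0']
    have e3 := hA (g⁻¹ * n * g) (fun k => wM (by
      have := T.h2 n nM n1 hn g k
      exact M.mul_mem (M.mul_mem this nM) (M.inv_mem this))) (ρ g⁻¹ v) (by
      rw [e1] at e
      rw [e2]
      exact (congrArg (ρ g⁻¹) e).trans (map_zero _))
    rw [e1]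
    exact (congrArg (ρ g) e3).trans (map_zero _)
  have hw := hn.conj g
  generalize g * n * g⁻¹ = w at wM hB hw
  have c1 : ac ρ n w * (ρ n - 1) = (ρ n - 1) * (ρ w - 1) * (ρ n - 1) := by
    rw [ac, add_mul, mul_assoc (ρ w - 1), show (ρ n - 1) * (ρ n - 1) = 0 from hn, mul_zero,
      add_zero]
  have c2 : ac ρ n w * (ρ w - 1) = (ρ w - 1) * (ρ n - 1) * (ρ w - 1) := by
    rw [ac, add_mul, mul_assoc (ρ n - 1), show (ρ w - 1) * (ρ w - 1) = 0 from hw, mul_zero,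
      zero_add]
  obtain ⟨w', q', m', g'⟩ := pt_gnc T hn hw n1 nM wM
    ⟨fun v e => hA w wM v (hB _ ((DFunLike.congr_fun c1 v).symm.trans e)),
      fun v e => hB v (hA w wM _ ((DFunLike.congr_fun c2 v).symm.trans e))⟩
  have hc := central h nM n1 hn q' m' g' (by
    rintro _ (rfl | rfl)
    · exact comm_FVab h.inj a1 a2
    · exact comm_FVab h.inj a3 a4)
  have key : ∀ a b : AddMonoid.End V, a * (ρ n - 1) = 0 → (ρ n - 1) * b = 0 → a * b = 0 := by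
    intro a b e1 e2
    have e : a * ac ρ n w' * b = a * (ρ n - 1) * (ρ w' - 1) * b +
        a * (ρ w' - 1) * ((ρ n - 1) * b) := by
      simp only [ac, mul_add, add_mul, mul_assoc]
    rwa [hc, e1, e2, zero_mul, zero_mul, mul_zero, add_zero, mul_neg_one, neg_mul,
      neg_eq_zero] at e
  exact comm_FVab h.inj (key _ _ a2 a3) (key _ _ a4 a1)

theorem sect_FVab {N : Type*} [AddCommGroup N] {A B : AddSubgroup V} {σ : G →* AddMonoid.End N}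
    {p : V → N} (h : MSect ρ A B σ p) (x y z : G) :
    ((ρ x - 1) * (ρ y - 1) = 0 → (σ x - 1) * (σ y - 1) = 0) ∧
    ((ρ x - 1) * (ρ y - 1) * (ρ z - 1) = 0 → (σ x - 1) * (σ y - 1) * (σ z - 1) = 0) := by
  refine ⟨fun e => ?_, fun e => ?_⟩
  · ext m
    obtain ⟨v, hv, rfl⟩ := h.surj m
    have e1 : (ρ x - 1) ((ρ y - 1) v) = 0 := DFunLike.congr_fun e v
    change (σ x - 1) ((σ y - 1) (p v)) = 0
    rw [← (h.sub y hv).2, ← (h.sub x (h.sub y hv).1).2, e1, h.zero]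
  · ext m
    obtain ⟨v, hv, rfl⟩ := h.surj m
    have e1 : (ρ x - 1) ((ρ y - 1) ((ρ z - 1) v)) = 0 := DFunLike.congr_fun e v
    change (σ x - 1) ((σ y - 1) ((σ z - 1) (p v))) = 0
    rw [← (h.sub z hv).2, ← (h.sub y (h.sub z hv).1).2,
      ← (h.sub x (h.sub y (h.sub z hv).1).1).2, e1, h.zero]

theorem in_FVab (h : TI ρ M) (ne : M ≠ ⊤) {u z : G} (uM : u ∈ M) (hu : Quad ρ u)
    (hz : Quad ρ z) (hp : IsPGroup 3 (Subgroup.closure {u, z}))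
    (h₁ : (ρ u - 1) * (ρ z - 1) * (ρ u - 1) = 0) (h₂ : (ρ z - 1) * (ρ u - 1) * (ρ z - 1) = 0) :
    Commute u z := by
  by_contra hc
  have uR : u ∈ Subgroup.closure {u, z} := Subgroup.subset_closure (Or.inl rfl)
  have zR : z ∈ Subgroup.closure {u, z} := Subgroup.subset_closure (Or.inr rfl)
  have u1 : u ≠ 1 := fun e => hc (e ▸ Commute.one_left z)
  obtain ⟨J, RJ, -, JM, um⟩ := exists_um h.idx hp le_top
    (fun g hg => h.h2 u uM u1 hu g (hg u uR)) fun e => ne (top_le_iff.1 e)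
  obtain ⟨g, gM, g3⟩ := um.ex3'
  have g1 : ∃ v, ρ g v ≠ v := by
    by_contra e
    refine gM ?_
    rw [Subgroup.mem_subgroupOf, one_FVab h.inj (n := g) (by
      ext v
      exact by_contra fun k => e ⟨v, k⟩)]
    exact M.one_mem
  obtain ⟨N, _, _, σ, B, p, -, ms, t3, smp, nt⟩ := exists_msect (ρ := ρ.comp J.subtype) h.three
    (A₀ := ⊥) (B₀ := ⊤) (fun g _ v hv => by
      rw [AddSubgroup.mem_bot] at hv ⊢
      rw [hv, map_zero]) (fun _ _ _ _ => trivial) g3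
    (g1.imp fun v hv => ⟨trivial, fun e => hv (sub_eq_zero.1 e)⟩)
  obtain ⟨H, _, _, q, τ, -, inj, hτ, smp', um', -⟩ := descend um t3 smp ⟨g, nt⟩
  let u' : J := ⟨u, RJ uR⟩
  let z' : J := ⟨z, RJ zR⟩
  have e1 : (Subgroup.closure {u, z}).subgroupOf J = Subgroup.closure {u', z'} := by
    refine Subgroup.map_injective J.subtype_injective ?_
    rw [Subgroup.map_subgroupOf_eq_of_le RJ, MonoidHom.map_closure, Set.image_pair]
    rfl
  rw [e1, MonoidHom.map_closure, Set.image_pair] at um'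
  have hcq : Commute (q u') (q z') := by
    refine vab_core (ρ := τ) ⟨t3, inj, smp', ?_, um'⟩ ?_ ?_
    · rintro _ (rfl | rfl)
      · rw [Quad, hτ]
        exact (sect_FVab ms u' u' u').1 hu
      · rw [Quad, hτ]
        exact (sect_FVab ms z' z' z').1 hz
    · rw [hτ, hτ]
      exact (sect_FVab ms u' z' u').2 h₁
    · rw [hτ, hτ]
      exact (sect_FVab ms z' u' z').2 h₂
  have hn := (qc_n hu hz h₁ h₂).1
  have e2 : ⁅z', u'⁆ ∈ σ.ker := by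
    rw [MonoidHom.mem_ker, ← hτ, map_commutatorElement,
      commutatorElement_eq_one_iff_commute.2 hcq.symm, map_one]
  obtain ⟨K, nK, pK, hK⟩ := um.f1 (N := σ.ker) inferInstance (um.f2 t3 smp ⟨g, nt⟩)
  have e3 := hK _ e2 ⟨1, Subtype.ext (h.cube hn)⟩
  have e4 : K ≤ M.subgroupOf J :=
    le_sup_left.trans (um.syl (pK.to_sup_of_normal_left um.pR) le_sup_right)
  refine JM fun j hj => h.h2 ⁅z, u⁆ (e4 e3) (fun e => hc ?_) hn j (e4 (nK.conj_mem' _ e3 ⟨j, hj⟩))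
  exact (commutatorElement_eq_one_iff_commute.1 e).symm

theorem vab (h : TI ρ M) (ne : M ≠ ⊤) : AB ρ := by
  intro u z hu hz hp
  by_contra hc
  obtain ⟨u', uR, z', zR, hu', hz', hc', h₁, h₂⟩ := qc h.three hu hz hp hc
  obtain ⟨g, hg⟩ := ex_fix h.idx hp
  have hs : Function.Surjective (MulAut.conj g⁻¹).toMonoidHom := (MulAut.conj g⁻¹).surjective
  have hm : ∀ x, x ∈ M.comap (MulAut.conj g⁻¹).toMonoidHom ↔ g⁻¹ * x * g ∈ M := fun x => by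
    simp
  refine hc' (in_FVab (M := M.comap (MulAut.conj g⁻¹).toMonoidHom)
    ⟨h.three, h.inj, by rw [Subgroup.index_comap_of_surjective _ hs]; exact h.idx,
      fun d dM d1 hd k hk => ?_⟩ (fun e => ne ?_) ((hm _).2 (hg _ uR)) hu' hz'
    (hp.to_le ((Subgroup.closure_le _).2 ?_)) h₁ h₂)
  · rw [hm] at dM hk ⊢
    refine h.h2 _ dM (fun e => d1 ?_) (by simpa using hd.conj g⁻¹) _ (by
      simpa [mul_assoc] using hk)
    simpa [mul_assoc] using congrArg (fun x => g * x * g⁻¹) e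
  · rw [← Subgroup.map_comap_eq_self_of_surjective hs M, e, Subgroup.map_top_of_surjective _ hs]
  · rintro _ (rfl | rfl)
    · exact uR
    · exact zR

end Pool.Agent.MP_a5588a_al.Full

end

section

namespace Pool.Agent.MP_a5588a_al.Full

open Pool.Agent.MP_a5588a_al.Solv
open scoped commutatorElement

universe u v

variable {G : Type u} {V : Type v} [Group G] [Finite G] [AddCommGroup V] [Finite V]
  {ρ : G →* AddMonoid.End V} {M : Subgroup G}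

theorem four_FQS (t : TI ρ M) {Z : Set G} {w : G} (hw : Quad ρ w) (wM : w ∉ M)
    (gen : Subgroup.closure (insert w Z) = ⊤)
    (hZ : ∀ y ∈ Z, y ≠ 1 → y ∈ M ∧ Quad ρ y ∧ (Braid y w ∨ Braid y w⁻¹)) : M.index = 4 := by
  have w3 := t.cube hw
  obtain ⟨g₁, hg⟩ := ex_fix t.idx (S := Subgroup.zpowers w) fun ⟨x, k, hk⟩ => ⟨1, Subtype.ext (by
    simp only [pow_one, SubgroupClass.coe_pow, OneMemClass.coe_one, ← hk]
    rw [← zpow_natCast, ← zpow_mul, mul_comm, zpow_mul, zpow_natCast, w3, one_zpow])⟩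
  have h1 := hg w (Subgroup.mem_zpowers w)
  refine four_pts gen w3 wM h1 (fun g hg => t.h2 _ h1 (fun e => wM ?_)
    (by simpa using hw.conj g₁⁻¹) _ (by simpa [mul_assoc] using hg)) fun y hy => ?_
  · rw [show w = g₁ * (g₁⁻¹ * w * g₁) * g₁⁻¹ by group, e, mul_one, mul_inv_cancel]
    exact one_mem _
  · by_cases y1 : y = 1
    · exact Or.inl y1
    · obtain ⟨h1, h2, h3⟩ := hZ y hy y1
      exact Or.inr ⟨h1, t.cube h2, t.h2 y h1 y1 h2, h3⟩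

theorem qs {Y : Set G} (h : QN ρ Y M) :
    M.index = 4 ∨ ∃ y ∈ Y, ∃ z ∈ Y, ∃ J T, Free M J y z ∧ Tee ρ J y z T := by
  have t := h2 h
  have ab := vab t h.um.ne
  have c := cf h t ab
  have hM : ∀ y ∈ Y, y ∈ M := fun y hy => h.um.le (Subgroup.subset_closure hy)
  have top : ∀ {w : G} {Z : Set G}, w ∉ M → Y ⊆ Subgroup.closure (insert w Z) →
      Subgroup.closure (insert w Z) = ⊤ := fun wM e =>
    (h.um.um _ ((Subgroup.closure_le _).2 e)).resolve_left fun k =>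
      wM (k (Subgroup.subset_closure (Set.mem_insert _ _)))
  obtain ⟨y₀, hy₀, y1⟩ : ∃ y ∈ Y, y ≠ 1 := by
    by_contra! k
    exact h.um.nn ⊥ inferInstance IsPGroup.of_bot ((Subgroup.closure_le _).2 k)
  obtain ⟨g, wM⟩ := h.um.ex_conj (x := y₀) ⟨1, by simpa using t.cube (h.quad _ hy₀)⟩
    fun K hK pK e => y1 (h.inj ((o3_triv h.three h.smp hK pK _ e).trans (map_one ρ).symm))
  have hw := (h.quad _ hy₀).conj g
  by_cases hb : ∀ y ∈ Y, y ≠ 1 → Braid y (g * y₀ * g⁻¹) ∨ Braid y (g * y₀ * g⁻¹)⁻¹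
  · exact Or.inl (four_FQS t hw wM
      (top wM fun y hy => Subgroup.subset_closure (Set.mem_insert_of_mem _ hy))
      fun y hy e => ⟨hM y hy, h.quad y hy, hb y hy e⟩)
  push Not at hb
  obtain ⟨y, hy, y1, n1, n2⟩ := hb
  have qy := h.quad y hy
  obtain ⟨w, qw, wM, hg⟩ :=
    ((pt_ab t ab c qy hw y1 (hM y hy) wM).resolve_left n1).resolve_left n2
  have hc : ∀ z ∈ Y, Commute y z := fun z hz => ab y z qy (h.quad z hz)
    (h.um.pR.to_le (Subgroup.closure_mono (Set.pair_subset hy hz)))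
  by_cases hz : ∀ z ∈ Y, z ∈ Subgroup.zpowers y
  · refine Or.inl (four_FQS t (Z := {y}) qw wM (top wM fun z e => ?_) ?_)
    · exact (Subgroup.zpowers_le.2 (Subgroup.subset_closure (by simp))) (hz z e)
    · rintro _ rfl -
      exact ⟨hM _ hy, qy, Or.inl (hg.braid h.inj qy qw)⟩
  push Not at hz
  obtain ⟨z, hz, zy⟩ := hz
  obtain ⟨T, hT⟩ := tee qy (h.quad z hz) qw (hc z hz)
    (central h (hM y hy) y1 qy qw wM hg hc)
  obtain ⟨J, hJ, hF⟩ := free_of t ab c (J₀ := Subgroup.closure {y, z, w})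
    (fun k => wM (k (Subgroup.subset_closure (by simp)))) (Subgroup.subset_closure (by simp))
    (Subgroup.subset_closure (by simp)) (hM y hy) y1 qy (h.quad z hz) (hc z hz) zy hT
  exact Or.inr ⟨y, hy, z, hz, J, T, hF, fun g hg => hT.inv g (hJ hg), hT.mem, hT.kill⟩

theorem qs' {R : Subgroup G} {Y : Set G} (h : UM R M) (h3 : (3 : AddMonoid.End V) = 0)
    (hs : Smp ρ) (nt : ∃ g, ρ g ≠ 1) (hY : ∀ y ∈ Y, y ∈ R ∧ Quad ρ y)
    (gen : R ≤ ρ.ker ⊔ Subgroup.closure Y) :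
    M.index = 4 ∨ ∃ y ∈ Y, ∃ z ∈ Y, ∃ J T, Free M J y z ∧ Tee ρ J y z T := by
  obtain ⟨H, _, _, p, σ, sur, inj, e, smp, um, mem⟩ := descend h h3 hs nt
  have hR : R.map p = Subgroup.closure (p '' Y) := by
    refine le_antisymm ((Subgroup.map_mono gen).trans ?_) ((Subgroup.closure_le _).2 ?_)
    · rw [Subgroup.map_sup, MonoidHom.map_closure]
      refine sup_le ?_ le_rfl
      rintro _ ⟨g, hg, rfl⟩
      rw [inj (((e g).trans hg).trans (map_one σ).symm)]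
      exact one_mem _
    · rintro _ ⟨y, hy, rfl⟩
      exact ⟨y, (hY y hy).1, rfl⟩
  have hQ : QN σ (p '' Y) (M.map p) := ⟨h3, inj, smp, by
    rintro _ ⟨y, hy, rfl⟩
    rw [Quad, e]
    exact (hY y hy).2, hR ▸ um⟩
  obtain h4 | ⟨_, ⟨y, hy, rfl⟩, _, ⟨z, hz, rfl⟩, J, T, hF, hT⟩ := qs hQ
  · rw [← Subgroup.index_comap_of_surjective _ sur] at h4
    exact Or.inl ((congrArg _ (Subgroup.ext fun g => (mem g).symm)).trans h4)
  refine Or.inr ⟨y, hy, z, hz, J.comap p, T, ⟨hF.yJ, hF.zJ, (mem y).1 hF.yM, (mem z).1 hF.zM,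
    fun k => hF.nle fun x hx => ?_, fun g => (mem _).1 (by simpa using hF.y3 (p g)),
    fun g => (mem _).1 (by simpa using hF.z3 (p g)),
    fun g => (mem _).1 (by simpa using hF.yz (p g)), fun i j hi hj g hg k =>
      (hF.free i j hi hj (p g) hg (by simpa using (mem _).2 k)).imp_left (mem g).1⟩,
    fun g hg v hv => e g ▸ hT.inv _ hg v hv, ?_, ?_⟩
  · obtain ⟨g, rfl⟩ := sur x
    exact (mem g).2 (k hx)
  · rw [← e, ← e]
    exact hT.mem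
  · rw [← e, ← e]
    exact hT.kill

end Pool.Agent.MP_a5588a_al.Full

end

section

namespace Pool.Agent.MP_a5588a_al.Full

open Pool.Agent.MP_a5588a_al.Solv
open scoped commutatorElement

universe u v

variable {G : Type u} [Group G] [Finite G] {A : Type v} [CommGroup A] {Q P : Subgroup G} [Q.Normal]
  {Y : Set G} {θ : G → A}

theorem funct {E E₁ M : Subgroup G} {θ' : G → A} (hE : E.Normal) (hm : MulOn E θ')
    (h1 : ∀ x ∈ E₁, θ' x = 1) (hM : ∀ g, g ∈ M ↔ ∀ x ∈ E, θ' (g * x * g⁻¹) = θ' x) {X : Type*}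
    [AddCommGroup X] {σ : G →* AddMonoid.End X} {π : G → X}
    (s : Sect (MonoidHom.id G) E E₁ σ π) :
    ∃ φ : X →+ Additive A, ∀ g, g ∈ M ↔ ∀ x, φ (σ g x) = φ x := by
  have key : ∀ x ∈ E, ∀ y ∈ E, π x = π y → θ' x = θ' y := by
    intro x hx y hy e
    have a := hm x hx _ (E.mul_mem (E.inv_mem hx) hy)
    rw [mul_inv_cancel_left, h1 _ ((s.eq_iff hx hy).1 e), mul_one] at a
    exact a.symm
  choose r m e using s.surj
  let φ : X →+ Additive A := AddMonoidHom.mk' (fun v => Additive.ofMul (θ' (r v))) fun v w => by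
    rw [← ofMul_mul, ← hm _ (m v) _ (m w)]
    exact congrArg _ (key _ (m _) _ (E.mul_mem (m v) (m w))
      (by rw [s.add _ (m v) _ (m w), e, e, e]))
  have hφ : ∀ x ∈ E, φ (π x) = Additive.ofMul (θ' x) := fun x hx =>
    congrArg Additive.ofMul (key _ (m _) x hx (e _))
  have hc : ∀ g, ∀ x ∈ E, φ (σ g (π x)) = Additive.ofMul (θ' (g * x * g⁻¹)) := fun g x hx => by
    rw [← s.conj g x hx]
    exact hφ _ (hE.conj_mem x hx g)
  refine ⟨φ, fun g => (hM g).trans ⟨fun h v => ?_, fun h x hx => ?_⟩⟩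
  · rw [← e v, hc g _ (m v), hφ _ (m v), h _ (m v)]
  · have a := h (π x)
    rw [hc g x hx, hφ x hx] at a
    exact Additive.ofMul.injective a

omit [Finite G] in
/-- The elements of `E` whose commutators with `Γ` lie in `F₁`. -/
theorem rad_FTri {E Γ F₁ : Subgroup G} (nE : E.Normal) (nΓ : Γ.Normal) (nF : F₁.Normal) :
    ∃ E₁ : Subgroup G, E₁.Normal ∧ ∀ x, x ∈ E₁ ↔ x ∈ E ∧ ∀ c ∈ Γ, ⁅c, x⁆ ∈ F₁ := by
  refine ⟨{ carrier := {x | x ∈ E ∧ ∀ c ∈ Γ, ⁅c, x⁆ ∈ F₁}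
            one_mem' := ⟨E.one_mem, fun c _ => ?_⟩
            mul_mem' := fun {x y} hx hy => ⟨E.mul_mem hx.1 hy.1, fun c hc => ?_⟩
            inv_mem' := fun {x} hx => ⟨E.inv_mem hx.1, fun c hc => ?_⟩ },
    ⟨fun x hx g => ⟨nE.conj_mem x hx.1 g, fun c hc => ?_⟩⟩, fun x => Iff.rfl⟩
  · rw [show ⁅c, x * y⁆ = ⁅c, x⁆ * (x * ⁅c, y⁆ * x⁻¹) by group]
    exact F₁.mul_mem (hx.2 c hc) (nF.conj_mem _ (hy.2 c hc) x)
  · rw [commutatorElement_one_right]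
    exact F₁.one_mem
  · rw [show ⁅c, x⁻¹⁆ = x⁻¹ * ⁅c, x⁆⁻¹ * x⁻¹⁻¹ by group]
    exact nF.conj_mem _ (F₁.inv_mem (hx.2 c hc)) _
  · rw [show ⁅c, g * x * g⁻¹⁆ = g * ⁅g⁻¹ * c * g⁻¹⁻¹, x⁆ * g⁻¹ by group]
    exact nF.conj_mem _ (hx.2 _ (nΓ.conj_mem c hc _)) g

/-- A minimal normal subgroup of `E` that does not centralise `E`. -/
theorem gam_FTri {E : Subgroup G} (nE : E.Normal) (na : ¬ Abl E) :
    ∃ Γ Γ₀ : Subgroup G, Top Γ Γ₀ ∧ Γ ≤ E ∧ (∀ c ∈ Γ₀, ∀ x ∈ E, c * x = x * c) ∧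
      ¬ ∀ c ∈ Γ, ∀ x ∈ E, c * x = x * c := by
  obtain ⟨Γ, ⟨nΓ, hle, hn⟩, hmin⟩ := exists_minimal_of_wellFoundedLT
    (fun K : Subgroup G => K.Normal ∧ K ≤ E ∧ ¬ ∀ c ∈ K, ∀ x ∈ E, c * x = x * c)
    ⟨E, nE, le_rfl, na⟩
  have hz : ∀ c ∈ Γ ⊓ Subgroup.centralizer (E : Set G), ∀ x ∈ E, c * x = x * c :=
    fun c hc x hx => (Subgroup.mem_centralizer_iff.1 hc.2 x hx).symm
  refine ⟨Γ, Γ ⊓ Subgroup.centralizer (E : Set G),
    ⟨nΓ, inferInstance, inf_le_left, fun h => hn fun c hc => hz c (h hc), fun K nK hK => ?_⟩,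
    hle, hz, hn⟩
  by_cases h : ∀ c ∈ K, ∀ x ∈ E, c * x = x * c
  · exact Or.inr fun c hc => ⟨hK hc, Subgroup.mem_centralizer_iff.2 fun x hx => (h c hc x hx).symm⟩
  · exact Or.inl (le_antisymm hK (hmin ⟨nK, hK.trans hle, h⟩ hK))

theorem tri {E E₀ P M : Subgroup G} {θ' : G → A} (hE : Top E E₀) (nP : P.Normal)
    (pP : IsPGroup 3 P) (EP : E ≤ P) (hm : MulOn E θ') (h1 : ∀ x ∈ E₀, θ' x = 1)
    (hM : ∀ g, g ∈ M ↔ ∀ x ∈ E, θ' (g * x * g⁻¹) = θ' x) (na : ¬ Abl E) :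
    ∃ (Γ Γ₀ F F₁ : Subgroup G), Top Γ Γ₀ ∧ Γ ≤ E ∧ (∀ c ∈ Γ₀, ∀ x ∈ E, c * x = x * c) ∧
      F.Normal ∧ F ≤ E ∧ Abl F ∧
      ∃ (X₁ X X₂ : Type u) (_ : AddCommGroup X₁) (_ : AddCommGroup X) (_ : AddCommGroup X₂)
        (_ : Finite X₂) (ρ₁ : G →* AddMonoid.End X₁) (σ : G →* AddMonoid.End X)
        (ρ₂ : G →* AddMonoid.End X₂) (π₁ : G → X₁) (π₂ : G → X₂) (β : X₁ →+ X →+ X₂)
        (φ : X →+ Additive A), Sect (MonoidHom.id G) Γ Γ₀ ρ₁ π₁ ∧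
          Sect (MonoidHom.id G) F F₁ ρ₂ π₂ ∧ Smp ρ₂ ∧ (∀ p ∈ P, ρ₁ p = 1) ∧
            (∀ p ∈ P, ρ₂ p = 1) ∧ Tri ρ₁ σ ρ₂ β φ M := by
  have nE := hE.nC
  obtain ⟨Γ, Γ₀, hΓ, ΓE, hz, hn⟩ := gam_FTri nE na
  have nΓ := hΓ.nC
  have ΓP := ΓE.trans EP
  have F0 : ⁅Γ, E⁆ ≤ Γ₀ :=
    (Subgroup.commutator_mono le_rfl EP).trans (hΓ.chief.comm nP pP ΓP)
  have FE : ⁅Γ, E⁆ ≤ E := F0.trans (hΓ.le.trans ΓE)
  have nF : (⁅Γ, E⁆ : Subgroup G).Normal := inferInstance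
  have hA : ∀ c ∈ Γ, ∀ x ∈ E, ⁅c, x⁆ ∈ ⁅Γ, E⁆ := fun c hc x hx =>
    Subgroup.commutator_mem_commutator hc hx
  obtain ⟨F₁, -, hF⟩ := exists_chief nF (Subgroup.normal_bot) bot_le fun h =>
    hn fun c hc x hx => commutatorElement_eq_one_iff_mul_comm.1 (Subgroup.mem_bot.1 (h (hA c hc x hx)))
  have nF₁ := hF.nB
  obtain ⟨E₁, nE₁, hE₁⟩ := rad_FTri nE nΓ nF₁
  have E1E : E₁ ≤ E := fun x hx => ((hE₁ x).1 hx).1
  have E10 : E₁ ≤ E₀ := (hE.max E₁ nE₁ E1E).resolve_left fun e =>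
    hF.ne (Subgroup.commutator_le.2 fun c hc x hx => ((hE₁ x).1 (e ▸ hx)).2 c hc)
  obtain ⟨X₁, i₁, -, ρ₁, π₁, s₁, t₁, -, p₁⟩ := hΓ.chief.sect nP pP ΓP
  obtain ⟨X₂, i₂, f₂, ρ₂, π₂, s₂, t₂, m₂, p₂⟩ := hF.sect nP pP (FE.trans EP)
  have L : ∀ c ∈ Γ, ∀ x ∈ E, ∀ y ∈ E, π₂ ⁅c, x * y⁆ = π₂ ⁅c, x⁆ + π₂ ⁅c, y⁆ := by
    intro c hc x hx y hy
    rw [show ⁅c, x * y⁆ = ⁅c, x⁆ * (x * ⁅c, y⁆ * x⁻¹) by group,
      ← hz _ (F0 (hA c hc y hy)) x hx, mul_inv_cancel_right,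
      s₂.add _ (hA c hc x hx) _ (hA c hc y hy)]
  have hc : ∀ x ∈ E, ∀ y ∈ E, ⁅x, y⁆ ∈ E₁ := by
    intro x hx y hy
    have m : ⁅x, y⁆ ∈ E := E.mul_mem (nE.conj_mem y hy x) (E.inv_mem hy)
    refine (hE₁ _).2 ⟨m, fun c hc => (s₂.ker _ (hA c hc _ m)).1 ?_⟩
    have a := L c hc _ m _ (E.mul_mem hy hx)
    rw [show ⁅x, y⁆ * (y * x) = x * y by group, L c hc x hx y hy, L c hc y hy x hx,
      add_comm (π₂ ⁅c, y⁆)] at a
    exact (right_eq_add.1 a)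
  have h3 : ∀ x ∈ E, x ^ 3 ∈ E₁ := by
    intro x hx
    have m := E.pow_mem hx 3
    refine (hE₁ _).2 ⟨m, fun c hc => (s₂.ker _ (hA c hc _ m)).1 ?_⟩
    have a : (3 : ℕ) • π₂ ⁅c, x⁆ = 0 := DFunLike.congr_fun t₂ (π₂ ⁅c, x⁆)
    rw [pow_three', L c hc _ (E.mul_mem hx hx) x hx, L c hc x hx x hx, ← a, three_nsmul, add_assoc]
  obtain ⟨X, i, σ, π, s⟩ := exists_sect (MonoidHom.id G) E E₁ E1E
    (fun g x hx => nE.conj_mem x hx g) (fun g x hx => nE₁.conj_mem x hx g) hc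
  have z : ∀ z ∈ ⁅Γ, E⁆, ∀ x ∈ E, ⁅x, z⁆ ∈ F₁ := fun z hz' x hx => by
    rw [commutatorElement_eq_one_iff_mul_comm.2 (hz z (F0 hz') x hx).symm]
    exact F₁.one_mem
  obtain ⟨β, hβ, eqv⟩ := exists_pair s₁ s s₂ (fun g x hx => nΓ.conj_mem x hx g)
    (fun g x hx => nE.conj_mem x hx g) hA
    (fun c _ h0 x hx => by
      rw [commutatorElement_eq_one_iff_mul_comm.2 (hz c h0 x hx)]
      exact F₁.one_mem)
    (fun c hc x _ hx => ((hE₁ x).1 hx).2 c hc) (fun w hw x hx => z w hw x (ΓE hx)) z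
  obtain ⟨φ, hφ⟩ := funct nE hm (fun x hx => h1 x (E10 hx)) hM s
  refine ⟨Γ, Γ₀, ⁅Γ, E⁆, F₁, hΓ, ΓE, hz, nF, FE, fun c hc d hd => hz c (F0 hc) d (FE hd),
    X₁, X, X₂, i₁, i, i₂, f₂, ρ₁, σ, ρ₂, π₁, π₂, β, φ, s₁, s₂, m₂, p₁, p₂,
    t₁, s.three h3, t₂, eqv, fun v hv => ?_, hφ⟩
  obtain ⟨x, hx, rfl⟩ := s.surj v
  refine (s.ker x hx).2 ((hE₁ x).2 ⟨hx, fun c hc => (s₂.ker _ (hA c hc x hx)).1 ?_⟩)
  rw [← hβ c hc x hx, hv]

end Pool.Agent.MP_a5588a_al.Full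

end

section

namespace Pool.Agent.MP_a5588a_al.Full

open Pool.Agent.MP_a5588a_al.Solv
open scoped commutatorElement

universe u v

section sect

variable {G V : Type*} [Group G] [AddCommGroup V] {C B : Subgroup G} {ρ : G →* AddMonoid.End V}
  {π : G → V}

theorem comm_FNode (s : Sect (MonoidHom.id G) C B ρ π) (nC : C.Normal) (g : G) {l : G}
    (hl : l ∈ C) : ⁅g, l⁆ ∈ C ∧ π ⁅g, l⁆ = (ρ g - 1) (π l) :=
  ⟨C.mul_mem (nC.conj_mem l hl g) (C.inv_mem hl),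
    s.comm (fun g x hx => nC.conj_mem x hx g) g hl⟩

theorem quad_FNode (s : Sect (MonoidHom.id G) C B ρ π) (nC : C.Normal) {y : G}
    (h : ∀ l ∈ C, ⁅y, ⁅y, l⁆⁆ ∈ B) : Quad ρ y := by
  refine AddMonoidHom.ext fun v => ?_
  obtain ⟨l, hl, rfl⟩ := s.surj v
  obtain ⟨a, b⟩ := comm_FNode s nC y hl
  obtain ⟨c, d⟩ := comm_FNode s nC y a
  change (ρ y - 1) ((ρ y - 1) (π l)) = 0
  rw [← b, ← d]
  exact (s.ker _ c).2 (h l hl)

theorem cub_FNode (s : Sect (MonoidHom.id G) C B ρ π) (nC : C.Normal) {x y : G}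
    (h : ∀ l ∈ C, ⁅y, ⁅y, ⁅x, l⁆⁆⁆ = 1) : (ρ y - 1) ^ 2 * (ρ x - 1) = 0 := by
  refine AddMonoidHom.ext fun v => ?_
  obtain ⟨l, hl, rfl⟩ := s.surj v
  obtain ⟨a, b⟩ := comm_FNode s nC x hl
  obtain ⟨c, d⟩ := comm_FNode s nC y a
  obtain ⟨-, e⟩ := comm_FNode s nC y c
  rw [pow_two]
  change (ρ y - 1) ((ρ y - 1) ((ρ x - 1) (π l))) = 0
  rw [← b, ← d, ← e, h l hl, s.one]

end sect

variable {G : Type u} [Group G] [Finite G] {A : Type v} [CommGroup A] {Q P : Subgroup G} [Q.Normal]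
  {Y : Set G} {θ : G → A}

theorem node (h : Nd Q P Y θ) : Out Q Y := by
  by_contra hc
  have hva : ∀ F : Subgroup G, F.Normal → F ≤ Q → Abl F → ∀ y ∈ Y, ∀ f ∈ F, ⁅y, ⁅y, f⁆⁆ = 1 :=
    fun F nF FQ ab y hy f hf => not_not.1 fun e =>
      hc (.inl ⟨F, FQ, fun g _ c hc => nF.conj_mem c hc g, ab, y, hy, f, hf, e⟩)
  have hvb : ∀ C : Subgroup G, C.Normal → C ≤ Q → Cub C Q → ∀ x ∈ Y, ∀ y ∈ Y, ∀ l ∈ C,
      ⁅y, ⁅y, ⁅x, l⁆⁆⁆ = 1 := fun C nC CQ cub x hx y hy l hl => not_not.1 fun e =>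
      hc (.inr (.inl ⟨C, CQ, fun g _ c hc => nC.conj_mem c hc g, cub, x, hx, y, hy, l, hl, e⟩))
  have hw : ∀ C, ¬ Wt Q Y P C := fun C w => hc (.inr (.inr ⟨P, C, w⟩))
  have h4 : (Stab Q θ).index ≠ 4 := fun e => (four h e).elim hw
  have YR : ∀ y ∈ Y, y ∈ P ⊔ EE Q Y := fun y hy =>
    Subgroup.mem_sup_right (Subgroup.mem_sup_right (Subgroup.subset_closure hy))
  have el : ∀ x ∈ P ⊔ EE Q Y, El3 x := fun x hx =>
    (h.um.pR ⟨x, hx⟩).imp fun _ e => congrArg Subtype.val e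
  obtain ⟨y₀, hy₀, y₀P⟩ : ∃ y ∈ Y, y ∉ P := by
    by_contra hn
    exact h.um.nn P h.nP h.pP (sup_le le_rfl (sup_le h.QP ((Subgroup.closure_le _).2
      fun y hy => not_not.1 fun e => hn ⟨y, hy, e⟩)))
  have QS : ∀ {N : Type u} [AddCommGroup N] [Finite N] (τ : G →* AddMonoid.End N),
      (3 : AddMonoid.End N) = 0 → Smp τ → (∃ g, τ g ≠ 1) → (∀ p ∈ P, τ p = 1) →
      (∀ y ∈ Y, Quad τ y) →
      ∃ y ∈ Y, ∃ z ∈ Y, ∃ J T, Free (Stab Q θ) J y z ∧ Tee τ J y z T :=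
    fun τ t s nt hP hq => (qs' h.um t s nt (fun y hy => ⟨YR y hy, hq y hy⟩)
      (sup_le (fun p hp => Subgroup.mem_sup_left (hP p hp))
        (sup_le (fun p hp => Subgroup.mem_sup_left (hP p (h.QP hp))) le_sup_right))).resolve_left h4
  obtain ⟨E, E₀, θ', hE, EQ, hm, h1, hM⟩ := bad h
  have EP := EQ.trans h.QP
  by_cases ab : Abl E
  · obtain ⟨X, _, _, σ, π, s, t, -, -⟩ := hE.chief.sect h.nP h.pP EP
    obtain ⟨φ, hφ⟩ := funct hE.nC hm h1 hM s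
    obtain ⟨K, nK, pK, hK⟩ := nq h.um t hφ (el _ (YR _ hy₀)) (quad_FNode s hE.nC fun l hl => by
      rw [hva E hE.nC EQ ab _ hy₀ l hl]
      exact one_mem _)
    exact y₀P (h.maxP K nK pK hK)
  obtain ⟨Γ, Γ₀, F, F₁, hΓ, ΓE, cen, nF, FE, aF, X₁, X, X₂, _, _, _, _, ρ₁, σ, ρ₂, π₁, π₂, β, φ,
    s₁, s₂, sm₂, P₁, P₂, tr⟩ := tri hE h.nP h.pP EP hm h1 hM ab
  have ΓQ := ΓE.trans EQ
  have cub : Cub Γ Q := fun c hc z hz => (cen z (hΓ.chief.comm h.nP h.pP (ΓE.trans EP)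
    (Subgroup.commutator_mono le_rfl h.QP hz)) c (ΓE hc)).symm
  have q₂ : ∀ y ∈ Y, Quad ρ₂ y := fun y hy => quad_FNode s₂ nF fun l hl => by
    rw [hva F nF (FE.trans EQ) aF y hy l hl]
    exact (s₂.ker 1 F.one_mem).1 s₂.one
  have c₁ : ∀ x ∈ Y, ∀ y ∈ Y, (ρ₁ y - 1) ^ 2 * (ρ₁ x - 1) = 0 := fun x hx y hy =>
    cub_FNode s₁ hΓ.nC (hvb Γ hΓ.nC ΓQ cub x hx y hy)
  have K : ∀ y ∈ Y, ∀ z ∈ Y, ∀ J T, Free (Stab Q θ) J y z → ¬ Tee ρ₂ J y z T := by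
    intro y hy z hz J T hF hT
    refine kill tr hF hT (q₂ y hy) (q₂ z hz) ?_ ((pow_succ _ 2).trans (c₁ y hy y hy))
      ((pow_succ _ 2).trans (c₁ z hz z hz)) (c₁ z hz y hy) (c₁ y hy z hz)
    obtain ⟨K, nK, pK, hK⟩ := h.um.f1 (N := (Stab Q θ).normalCore) inferInstance
      (Stab Q θ).normalCore_le
    have e := P₁ _ (h.maxP K nK pK (hK ⁅y, z⁆ (fun g => by simpa using hF.yz g⁻¹)
      (el _ (mul_mem (mul_mem (mul_mem (YR y hy) (YR z hz)) (inv_mem (YR y hy)))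
        (inv_mem (YR z hz))))))
    change ρ₁ y * ρ₁ z = ρ₁ z * ρ₁ y
    rw [← map_mul, ← map_mul, show y * z = ⁅y, z⁆ * (z * y) by group, map_mul, e, one_mul]
  by_cases nt : ∃ g, ρ₂ g ≠ 1
  · obtain ⟨y, hy, z, hz, J, T, hF, hT⟩ := QS ρ₂ tr.t₂ sm₂ nt P₂ q₂
    exact K y hy z hz J T hF hT
  have tv : ∀ g, ρ₂ g = 1 := fun g => not_not.1 fun e => nt ⟨g, e⟩
  by_cases st : ∀ F : Subgroup G, F.Normal → F ≤ Q → Abl F → ∀ g, El3' g → ∀ x ∈ F, Commute g x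
  swap
  · push Not at st
    obtain ⟨F', nF', F'Q, aF', g, g3, hx⟩ := st
    obtain ⟨C, B, CF, ch, x, xC, hx⟩ := exists_chief_nt nF' (h.pP.to_le (F'Q.trans h.QP)) g3 hx
    obtain ⟨N, _, _, τ, p, s, t, sm, hP⟩ := ch.sect h.nP h.pP (CF.trans (F'Q.trans h.QP))
    obtain ⟨y, hy, z, hz, J, T, hF, -⟩ := QS τ t sm ⟨g, fun e => hx (by
      obtain ⟨a, b⟩ := comm_FNode s ch.nC g xC
      rw [e, sub_self] at b
      exact (s.ker _ a).1 b)⟩ hP fun y hy => quad_FNode s ch.nC fun l hl => by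
        rw [hva F' nF' F'Q aF' y hy l (CF hl)]
        exact one_mem _
    refine K y hy z hz J ⊥ hF ⟨fun g _ v hv => ?_, fun v => ?_, fun v hv => ?_⟩
    · rw [tv g]
      exact hv
    · rw [tv y, sub_self, zero_mul]
      exact AddSubgroup.zero_mem _
    · rw [AddSubgroup.mem_bot.1 hv, map_zero]
  have nq' : ∀ y ∈ Y, y ∉ P → ∃ l ∈ Γ, ⁅y, ⁅y, l⁆⁆ ∉ Γ₀ := by
    intro y hy yP
    by_contra hn
    have q : Quad ρ₁ y := quad_FNode s₁ hΓ.nC fun l hl => not_not.1 fun e => hn ⟨l, hl, e⟩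
    have ad : ∀ v x, β v ((σ y - 1) x) = β ((ρ₁ y⁻¹ - 1) v) x := fun v x => by
      have e := tr.eqv y (ρ₁ y⁻¹ v) x
      rw [tv y, show ρ₁ y (ρ₁ y⁻¹ v) = (ρ₁ y * ρ₁ y⁻¹) v from rfl, ← map_mul, mul_inv_cancel,
        map_one] at e
      change β v (σ y x - x) = β (ρ₁ y⁻¹ v - v) x
      rw [map_sub, map_sub, AddMonoidHom.sub_apply]
      exact congrArg (· - β v x) e
    have e2 : (ρ₁ y⁻¹ - 1) * (ρ₁ y⁻¹ - 1) = 0 := by
      have e : ρ₁ y⁻¹ - 1 = -(ρ₁ y⁻¹ * (ρ₁ y - 1)) := by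
        rw [mul_sub, ← map_mul, inv_mul_cancel, map_one, mul_one, neg_sub]
      have e' : ρ₁ y⁻¹ - 1 = -((ρ₁ y - 1) * ρ₁ y⁻¹) := by
        rw [sub_mul, ← map_mul, mul_inv_cancel, map_one, one_mul, neg_sub]
      nth_rewrite 2 [e']
      rw [e, neg_mul_neg, mul_assoc, ← mul_assoc (ρ₁ y - 1), q, zero_mul, mul_zero]
    obtain ⟨K, nK, pK, hK⟩ := nq h.um tr.t tr.stab (el _ (YR _ hy))
      (AddMonoidHom.ext fun x => tr.nd _ fun v => by
        change β v ((σ y - 1) ((σ y - 1) x)) = 0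
        rw [ad, ad, show (ρ₁ y⁻¹ - 1) ((ρ₁ y⁻¹ - 1) v) = ((ρ₁ y⁻¹ - 1) * (ρ₁ y⁻¹ - 1)) v from rfl,
          e2]
        simp)
    exact yP (h.maxP K nK pK hK)
  refine hw Γ (stable h hΓ ΓQ (fun c hc x hx => cen c hc x (ΓE hx)) (fun a => ?_) st nq')
  obtain ⟨l, hl, e⟩ := nq' y₀ hy₀ y₀P
  exact e (hva Γ hΓ.nC ΓQ a y₀ hy₀ l hl ▸ one_mem _)

end Pool.Agent.MP_a5588a_al.Full

end

section

namespace Pool.Agent.MP_a5588a_al.Full

open Pool.Agent.MP_a5588a_al.Solv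
open scoped commutatorElement

universe u v

theorem mainF (A : Type v) [CommGroup A] (G : Type u) [Group G] [Finite G] : MainF A G := by
  induction hn : Nat.card G using Nat.strong_induction_on generalizing G with
  | _ n ih =>
  have : Fact (Nat.Prime 3) := ⟨Nat.prime_three⟩
  have sub : ∀ L : Subgroup G, L ≠ ⊤ → MainF A L := fun L hL =>
    ih (Nat.card L) (hn ▸ not_le.1 fun c => hL (L.eq_top_of_le_card c)) L rfl
  intro T₀ _ W hW T f hf hT θ hθ h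
  have hprop : ∀ L : Subgroup G, (T : Subgroup G) ≤ L → L ≠ ⊤ → FI (T : Subgroup G) θ L := by
    intro L hL hL' g hg s hs hgs
    have hm : ∀ x, f x ∈ L := fun x => hL (hT ▸ ⟨x, rfl⟩)
    have e : (W.map (f.codRestrict L hm)).map L.subtype = W.map f := by
      rw [Subgroup.map_map]
      rfl
    refine sub L hL' T₀ W hW (T.subtype hL) (f.codRestrict L hm)
      (fun x y c => hf (congrArg Subtype.val c)) ?_ (fun x => θ x)
      (fun x hx y hy => hθ x hx y hy) (fun g hg s hs hgs => h g ?_ s hs hgs)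
      ⟨g, hg⟩ trivial ⟨s, hL hs⟩ hs hgs
    · ext x
      rw [Sylow.coe_subtype, Subgroup.mem_subgroupOf, ← hT]
      exact ⟨fun ⟨y, c⟩ => ⟨y, congrArg Subtype.val c⟩, fun ⟨y, c⟩ => ⟨y, Subtype.ext c⟩⟩
    · exact e ▸ Subgroup.le_normalizer_map L.subtype ⟨g, hg, rfl⟩
  obtain ⟨Q, hQ⟩ : ∃ Q, Q = (T : Subgroup G).normalCore := ⟨_, rfl⟩
  have nQ : Q.Normal := hQ ▸ inferInstance
  have QT : Q ≤ T := hQ ▸ (T : Subgroup G).normalCore_le
  have maxQ : ∀ K : Subgroup G, K.Normal → IsPGroup 3 K → K ≤ Q := fun K nK pK => by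
    rw [hQ, Subgroup.normal_le_normalCore]
    have := T.is_maximal' (IsPGroup.to_sup_of_normal_left pK T.isPGroup') le_sup_right
    exact this ▸ le_sup_left
  by_cases h0 : Q = ⊥
  · refine lgF (fun D hD pD => sub _ fun e => hD ?_) T₀ W hW T f hf hT θ hθ h
    exact le_bot_iff.1 (h0 ▸ maxQ D (Subgroup.normalizer_eq_top_iff.1 e) pD)
  by_cases ht : Stab Q θ = ⊤
  · refine transF T QT maxQ hθ ht hprop (ih (Nat.card (G ⧸ Q)) ?_ _ rfl)
    rw [← hn, Subgroup.card_eq_card_quotient_mul_card_subgroup Q]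
    exact lt_mul_of_one_lt_right Nat.card_pos (Q.one_lt_card_iff_ne_bot.2 h0)
  have mQ : (Q.comap f).map f = Q := Subgroup.map_comap_eq_self (hT ▸ QT)
  have hCP : CPf (Q.comap f) := by
    refine ⟨inferInstance, fun Y ⟨y, hy, hyQ⟩ => (out_map hf).1 ?_⟩
    obtain ⟨L, k, P, hL, nd⟩ := llemma T QT maxQ hθ ht
      (fun K h1 h2 g hg x hx => hprop K h1 h2 g hg x (QT hx) (QT (nQ.conj_mem x hx g)))
      (Y := f '' Y) (by
        rintro _ ⟨x, -, rfl⟩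
        exact hT ▸ ⟨x, rfl⟩) ⟨_, ⟨y, hy, rfl⟩, hyQ⟩
    have := (out_map L.subtype_injective).2 (node nd)
    rw [Subgroup.map_subgroupOf_eq_of_le (le_sup_left.trans hL), Set.image_preimage_eq_of_subset
      fun x hx => ⟨⟨x, hL (Subgroup.mem_sup_right (Subgroup.subset_closure hx))⟩, rfl⟩] at this
    rwa [mQ]
  have : ((Q.comap f).map f).Normal := mQ.symm ▸ nQ
  have := normF hW hf hCP
  rwa [Subgroup.normalizer_eq_top] at h

end Pool.Agent.MP_a5588a_al.Full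

end
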